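import Mathlib

/-! Eventually stable maps (project ES): definitions of the group theoretic part (section A of the note
H42_2af937_ES.md). `G` acts on the levels `O 0, O 1, ...` of a regular rooted forest; `F` is the
parent map. -/

set_option autoImplicit false

namespace Pool.Agent.H42.ES

open scoped Classical

/-- `G` acts transitively on every level `O t`; the level `O (t+1)` consists of all points above `O t`,
`d` of them above every point. -/
structure ITree (G : Type) {Ω : Type} [Group G] [MulAction G Ω] (F : Ω → Ω) (d : ℕ)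
    (O : ℕ → Set Ω) : Prop where
  equiv : ∀ (g : G) (x : Ω), F (g • x) = g • F x
  fin : (O 0).Finite
  ne : (O 0).Nonempty
  inv : ∀ (t : ℕ) (g : G), ∀ x ∈ O t, g • x ∈ O t
  trans : ∀ t : ℕ, ∀ x ∈ O t, ∀ y ∈ O t, ∃ g : G, g • x = y
  up : ∀ (t : ℕ) (x : Ω), x ∈ O (t + 1) ↔ F x ∈ O t
  dfib : ∀ t : ℕ, ∀ x ∈ O t, {z | F z = x}.ncard = d
  hd : 2 ≤ d

variable {G Ω : Type} [Group G] [MulAction G Ω]

/-- The kernel of the action on level `t`. -/
def ker (G : Type) {Ω : Type} [Group G] [MulAction G Ω] (O : ℕ → Set Ω) (t : ℕ) : Subgroup G where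
  carrier := {g | ∀ x ∈ O t, g • x = x}
  one_mem' := fun x _ => one_smul G x
  mul_mem' := fun {a b} ha hb x hx => by rw [mul_smul, hb x hx, ha x hx]
  inv_mem' := fun {a} ha x hx => by
    have h : a⁻¹ • (a • x) = x := inv_smul_smul a x
    rwa [ha x hx] at h

/-- `1` or `0`. -/
noncomputable def ind (p : Prop) : ℝ := if p then 1 else 0

/-- The expectation of a function on `G` which only depends on the action on level `t`: the average
over `G ⧸ ker G O t`. -/
noncomputable def Ex (O : ℕ → Set Ω) (t : ℕ) (f : G → ℝ) : ℝ :=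
  (∑ᶠ c : G ⧸ ker G O t, f c.out) / (Nat.card (G ⧸ ker G O t) : ℝ)

/-- `f` only depends on the action on level `t`. -/
def Inv (O : ℕ → Set Ω) (t : ℕ) (f : G → ℝ) : Prop := ∀ g : G, ∀ h ∈ ker G O t, f (g * h) = f g

/-- The fixed points of `g` on level `t`. -/
def fx (O : ℕ → Set Ω) (t : ℕ) (g : G) : Set Ω := {x | x ∈ O t ∧ g • x = x}

/-- The point `x` of level `s` is alive at `t` for `g`: it has a fixed point of level `t` above it. -/
def al (F : Ω → Ω) (O : ℕ → Set Ω) (s t : ℕ) (g : G) (x : Ω) : Prop :=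
  ∃ z ∈ fx O t g, F^[t - s] z = x

/-- The number of points of level `s` alive at `t`. -/
noncomputable def nal (F : Ω → Ω) (O : ℕ → Set Ω) (s t : ℕ) (g : G) : ℝ :=
  ({x | al F O s t g x}.ncard : ℝ)

/-- The number of points of level `s` above `y` (of level `r`) alive at `t`. -/
noncomputable def naly (F : Ω → Ω) (O : ℕ → Set Ω) (r s t : ℕ) (y : Ω) (g : G) : ℝ :=
  ({x | al F O s t g x ∧ F^[s - r] x = y}.ncard : ℝ)

/-- The elements which fix all points at height at most `2 * J0 + 1` above `z`. -/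
def trv (G : Type) {Ω : Type} [Group G] [MulAction G Ω] (F : Ω → Ω) (J0 : ℕ) (z : Ω) :
    Subgroup G where
  carrier := {g | ∀ i ≤ 2 * J0 + 1, ∀ v : Ω, F^[i] v = z → g • v = v}
  one_mem' := fun _ _ v _ => one_smul G v
  mul_mem' := fun {a b} ha hb i hi v hv => by rw [mul_smul, hb i hi v hv, ha i hi v hv]
  inv_mem' := fun {a} ha i hi v hv => by
    have h : a⁻¹ • (a • v) = v := inv_smul_smul a v
    rwa [ha i hi v hv] at h

/-- Trivial type at the point `x` of level `l + 1`: `g` fixes all points up to level `l + J0 + 1`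
above the ancestor of `x` of level `l - J0`. -/
def tv (F : Ω → Ω) (J0 : ℕ) (g : G) (x : Ω) : Prop := g ∈ trv G F J0 (F^[J0 + 1] x)

/-- The far companions of `w` (level `l`): pairs `(s, v)`, `l ≤ s < T2`, `v` of level `s` above the same
point of level `T0` as `w`, `D` fixes `v` and moves a child of `v`, and `v` is not near `w`. -/
def Far (F : Ω → Ω) (O : ℕ → Set Ω) (T0 T2 l J0 : ℕ) (D : G) (w : Ω) : Set (ℕ × Ω) :=
  {p | l ≤ p.1 ∧ p.1 < T2 ∧ p.2 ∈ O p.1 ∧ D • p.2 = p.2 ∧ (∃ x, F x = p.2 ∧ D • x ≠ x) ∧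
    F^[p.1 - T0] p.2 = F^[l - T0] w ∧
    ¬ (p.1 ≤ l + J0 ∧ F^[p.1 - (l - J0)] p.2 = F^[J0] w)}

/-- The sum of the reciprocals of the orbit sizes of the far companions. -/
noncomputable def fsum (F : Ω → Ω) (O : ℕ → Set Ω) (T0 T2 l J0 : ℕ) (D : G) (w : Ω) : ℝ :=
  ∑ᶠ p ∈ Far F O T0 T2 l J0 D w,
    (1 : ℝ) / ((MulAction.orbit (MulAction.stabilizer G w) p.2).ncard : ℝ)

/-- A window: levels `l 0 < ... < l m` beyond `T1`, at each level `l i`, `i < m`, an element `D i` trivial
on `O (l i)` which moves the point `x i` above `w i`, with few far companions. -/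
structure Win (F : Ω → Ω) (O : ℕ → Set Ω) (J0 m T1 : ℕ) (ε : ℝ) (l : ℕ → ℕ) (D : ℕ → G)
    (w x : ℕ → Ω) : Prop where
  beg : T1 + J0 ≤ l 0
  gap : ∀ i < m, l i + J0 + 2 ≤ l (i + 1)
  hD : ∀ i < m, ∀ z ∈ O (l i), D i • z = z
  hw : ∀ i < m, w i ∈ O (l i)
  hx : ∀ i < m, F (x i) = w i ∧ D i • x i ≠ x i
  far : ∀ i < m, fsum F O (l 0) (l m) (l i) J0 (D i) (w i) ≤ ε

/-- The index in `V ∩ Stab x` (`x` of level `t`) of the elements which fix all points of level at most
`l + J0 + 1` above the ancestor of `x` of level `l - J0`. -/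
noncomputable def rr (F : Ω → Ω) (J0 l t : ℕ) (V : Subgroup G) (x : Ω) : ℕ :=
  (trv G F J0 (F^[t + J0 - l] x)).relIndex (V ⊓ MulAction.stabilizer G x)

/-- The minimum of `rr` over the levels `t > l + J0`. -/
noncomputable def rs (F : Ω → Ω) (O : ℕ → Set Ω) (J0 l : ℕ) (V : Subgroup G) : ℕ :=
  sInf {r | ∃ t ≥ l + J0 + 1, ∃ x ∈ O t, r = rr F J0 l t V x}

/-- The average number of points of level `s` alive at `t`. -/
noncomputable def av (G : Type) {Ω : Type} [Group G] [MulAction G Ω] (F : Ω → Ω)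
    (O : ℕ → Set Ω) (s t : ℕ) : ℝ := Ex O t (nal (G := G) F O s t)

/-- The cluster `y` (of level `T0`) is bad for `g`: the number of points of level `l + 1` above `y`
alive at `t` is not `1` (`y` alive at `t`) or `0` (not alive), or `y` is alive at `l` but not at `t`. -/
def badp (F : Ω → Ω) (O : ℕ → Set Ω) (T0 l t : ℕ) (g : G) (y : Ω) : Prop :=
  ¬ (naly F O T0 (l + 1) t y g = ind (al F O T0 t g y) ∧ (al F O T0 l g y ↔ al F O T0 t g y))

/-- The number of fixed points of level `l` above `y` (of level `T0`). -/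
noncomputable def nfy (F : Ω → Ω) (O : ℕ → Set Ω) (T0 l : ℕ) (y : Ω) (g : G) : ℝ :=
  ({u | u ∈ fx O l g ∧ F^[l - T0] u = y}.ncard : ℝ)

/-- The cell `(g0, z)` of level `j`: probability that `g ∈ g0 * ker j` and `z` is alive at `t`. -/
noncomputable def bt (F : Ω → Ω) (O : ℕ → Set Ω) (j : ℕ) (g0 : G) (z : Ω) (t : ℕ) : ℝ :=
  Ex O t (fun g => ind (g0⁻¹ * g ∈ ker G O j ∧ al F O j t g z))

/-- The cell `(g0, z)` of level `j`: expectation of the number of fixed points of level `t` above `z`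
for `g ∈ g0 * ker j`. -/
noncomputable def Mt (F : Ω → Ω) (O : ℕ → Set Ω) (j : ℕ) (g0 : G) (z : Ω) (t : ℕ) : ℝ :=
  Ex O t (fun g => ind (g0⁻¹ * g ∈ ker G O j) * nfy F O j t z g)

end Pool.Agent.H42.ES
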