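import Pool.Agent.H42.ES.Defs
import Pool.Agent.H42.PCM.G1

/-! Eventually stable maps (project ES): definitions for the construction of windows from places
(section B of the note H42_2af937_ES.md). Finite levels: `lev F b t = {x | F^[t] x = b}` is that of PCM/G1. -/

set_option autoImplicit false

namespace Pool.Agent.H42.ES

open Pool.Agent.H42.PC (lev)

open scoped Classical

/-- The group `G` acts on the backward tree of `b` of height `N`; fibres have at most `d` points, and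
exactly `d` from level `n0` on. -/
structure Tr (G : Type) {Ω : Type} [Group G] [MulAction G Ω] (F : Ω → Ω) (b : Ω) (d n0 N : ℕ) :
    Prop where
  equiv : ∀ (g : G) (x : Ω), F (g • x) = g • F x
  fix : ∀ g : G, g • b = b
  aper : ∀ t, 1 ≤ t → F^[t] b ≠ b
  fin : ∀ t, t < N → ∀ x ∈ lev F b t, {z | F z = x}.Finite
  le : ∀ t, t < N → ∀ x ∈ lev F b t, {z | F z = x}.ncard ≤ d
  fib : ∀ t, n0 ≤ t → t < N → ∀ x ∈ lev F b t, {z | F z = x}.ncard = d
  hd : 2 ≤ d

/-- `O t` (`n0 ≤ t ≤ N`) is one orbit of level `t`; `O (t + 1)` consists of all points above `O t`. -/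
structure Or1 (G : Type) {Ω : Type} [Group G] [MulAction G Ω] (F : Ω → Ω) (b : Ω) (n0 N : ℕ)
    (O : ℕ → Set Ω) : Prop where
  sub : ∀ t, n0 ≤ t → t ≤ N → O t ⊆ lev F b t
  ne : ∀ t, n0 ≤ t → t ≤ N → (O t).Nonempty
  inv : ∀ t, n0 ≤ t → t ≤ N → ∀ g : G, ∀ x ∈ O t, g • x ∈ O t
  trans : ∀ t, n0 ≤ t → t ≤ N → ∀ x ∈ O t, ∀ y ∈ O t, ∃ g : G, g • x = y
  up : ∀ t, n0 ≤ t → t < N → ∀ x, x ∈ O (t + 1) ↔ F x ∈ O t

/-- A place: inertia group `I`, residue map `red`, set `A` of critical residues with weights `wt`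
(the `l`-adic valuations of the multiplicities). -/
structure Pl (G : Type) {Ω : Type} [Group G] [MulAction G Ω] (F : Ω → Ω) (b : Ω)
    (s J J0 N : ℕ) where
  /-- residues -/
  R : Type
  /-- the reduced map -/
  FR : R → R
  /-- the residue map -/
  red : Ω → R
  /-- the inertia group -/
  I : Subgroup G
  /-- the critical residues -/
  A : Set R
  /-- the weights -/
  wt : R → ℕ
  /-- a prime number -/
  l : ℕ
  hl : l.Prime
  hAfin : A.Finite
  hA : A.ncard ≤ s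
  hwt : ∀ r, r ∉ A → wt r = 0
  hwB : ∀ r, wt r ≤ s
  hred : ∀ t < N, ∀ x ∈ lev F b (t + 1), red (F x) = FR (red x)
  hI : ∀ g ∈ I, ∀ t ≤ N, ∀ x ∈ lev F b t, red (g • x) = red x
  hone : ∀ t < N, ∀ x ∈ lev F b (t + 1), ∀ x' ∈ lev F b (t + 1), F x = F x' → red x = red x' →
    red x ∉ A → x = x'
  hgen : ∃ σ ∈ I, ∀ g ∈ I, ∃ j : ℕ, ∀ t ≤ N, ∀ x ∈ lev F b t, g • x = σ ^ j • x
  hlift : ∀ t < N, ∀ t' < N, ∀ w ∈ lev F b t, ∀ w' ∈ lev F b t', red w = red w' →
    ∀ x, F x = w → ∃ x', F x' = w' ∧ red x' = red x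
  hJ : ∀ r ∈ A, ∀ r' ∈ A, ∀ i ≤ J, ∀ j ≤ J, FR^[i] r = FR^[j] r' →
    (i = 0 ∨ j = 0 ∨ FR^[i - 1] r ≠ FR^[j - 1] r') → i ≤ J0 ∧ j ≤ J0

namespace Pl

variable {G Ω : Type} [Group G] [MulAction G Ω] {F : Ω → Ω} {b : Ω} {s J J0 N : ℕ}

/-- The stabiliser of a point in the inertia group. -/
def st (P : Pl G F b s J J0 N) (x : Ω) : Subgroup G := P.I ⊓ MulAction.stabilizer G x

/-- The size of the orbit of `x` under the inertia group. -/
noncomputable def ix (P : Pl G F b s J J0 N) (x : Ω) : ℕ := (P.st x).relIndex P.I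

/-- The `l`-adic valuation of the size of the orbit. -/
noncomputable def fv (P : Pl G F b s J J0 N) (x : Ω) : ℕ := padicValNat P.l (P.ix x)

/-- The residue of `x` lies on the forward orbit of the residue of `b`. -/
def OnC (P : Pl G F b s J J0 N) (x : Ω) : Prop := ∃ k : ℕ, P.red x = P.FR^[k] (P.red b)

/-- The total weight of the residues of `x, F x, ..., F^[h-1] x`. -/
noncomputable def wc (P : Pl G F b s J J0 N) (h : ℕ) (x : Ω) : ℕ :=
  ∑ i ∈ Finset.range h, P.wt (P.red (F^[i] x))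

/-- The maximal weight of a path of length `h` above `w`. -/
noncomputable def mc (P : Pl G F b s J J0 N) (h : ℕ) (w : Ω) : ℕ :=
  sSup {k | ∃ x, F^[h] x = w ∧ k = P.wc h x}

/-- The total weight of the cycle. -/
noncomputable def kap (P : Pl G F b s J J0 N) (n : ℕ) : ℕ :=
  ∑ i ∈ Finset.range n, P.wt (P.FR^[i] (P.red b))

/-- The maximum of `fv` on level `t`. -/
noncomputable def la (P : Pl G F b s J J0 N) (O : ℕ → Set Ω) (t : ℕ) : ℕ := sSup (P.fv '' O t)

/-- The residue `r` is mapped to `b` eventually. -/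
def EC (P : Pl G F b s J J0 N) (r : P.R) : Prop := ∃ k : ℕ, P.FR^[k] r = P.red b

/-- The possible gaps between the level `l` and the level at which two moved points diverge. -/
def HH (P : Pl G F b s J J0 N) : Set ℕ :=
  {h | ∃ c ∈ P.A, ∃ c' ∈ P.A, P.EC c ∧ P.EC c' ∧ (P.FR^[h] c = c' ∨
    ∃ j, P.FR^[h] c ≠ P.FR^[j] c' ∧ P.FR^[h + 1] c = P.FR^[j + 1] c')}

/-- The points of level `t` on the cycle have a critical residue (`n` is a period). -/
def dg (P : Pl G F b s J J0 N) (n t : ℕ) : Prop := P.FR^[(n - 1) * t] (P.red b) ∈ P.A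

end Pl

variable {G Ω : Type} [Group G] [MulAction G Ω] {F : Ω → Ω} {b : Ω} {s J J0 N : ℕ}

/-- The residue of `b` has exact period `n`, and above the points of level `t0` on the cycle the
valuation `fv` grows exactly by the weights. -/
structure Fl (P : Pl G F b s J J0 N) (n t0 : ℕ) : Prop where
  hn : 1 ≤ n
  hb : P.red b ∈ P.A
  hcyc : P.FR^[n] (P.red b) = P.red b
  hmin : ∀ i, 1 ≤ i → i < n → P.FR^[i] (P.red b) ≠ P.red b
  hex : ∀ t < N, ∀ w ∈ lev F b t, P.OnC w → ∃ x, F x = w ∧ P.OnC x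
  hful : ∀ m, t0 ≤ m → m < N → ∀ w ∈ lev F b m, P.OnC (F^[m - t0] w) → ∀ x, F x = w →
    P.fv x = P.fv w + P.wt (P.red x)
  hwb : 1 ≤ P.wt (P.red b)

/-- All points on the cycle of level at least `n0` lie in `O`. -/
def InC (P : Pl G F b s J J0 N) (n0 : ℕ) (O : ℕ → Set Ω) : Prop :=
  ∀ t, n0 ≤ t → t ≤ N → ∀ x ∈ lev F b t, P.OnC x → x ∈ O t

/-- The bound `t0 + n * (t0 * s + 3 * s ^ 2 + 1)` beyond which everything is regular. -/
def lb (s n t0 : ℕ) : ℕ := t0 + n * (t0 * s + 3 * (s * s) + 1)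

/-- The terms of the tail series. -/
noncomputable def tm (d s J0 L J q : ℕ) : ℝ :=
  ((q : ℝ) + 1) * ((s * d ^ ((J0 + 1) * (q / (J + 1) + 1)) : ℕ) : ℝ) / 2 ^ (q / L)

end Pool.Agent.H42.ES
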