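/-
ROW LAa. The place of a local system. `Gen`: coincidences of residues of `F^[i] c`, `F^[j] c'` (`i, j ≤ J`) are equalities; `Mb`:
first meetings of the orbits of points of `W` happen at times `≤ J0`. `lPl` is the place; only the proofs of its fields are missing
(replace the sorries; the data are fixed). PROOFS (compare lPlace in RM/LDa.lean):
* hAfin, hA, hred, hI, hone: as in RM/LDa.lean (fr_ball of RM/LAa, ball_eq of PCM/D1, nw_iff of RM/LAa, hS.ncr).
* hwt: if `r ∉ ball Λ '' W` then the set over which the supremum is taken is empty, `sSup ∅ = 0` (Nat.sSup_empty or `csSup_empty`).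
* wt_eq: for `c ∈ W` the set `{k | ∃ c' ∈ W, ball Λ c' = ball Λ c ∧ k = padicValNat l (mu c')}` is `{padicValNat l (mu c)}` since
  `ball Λ c' = ball Λ c` means `Λ.V (c' - c) < 1` (ball_eq) and w_sep (RM/LAa) gives `c' = c`; csSup_singleton.
* hwB: every element of the set is `padicValNat l (mu c') ≤ mu c' ≤ s` (`l ^ padicValNat l m ∣ m`, `Nat.lt_pow_self`; or
  `padicValNat_le_nat_log`, `Nat.log_le_self`); csSup_le' / if the set is empty the sup is `0`.
* hgen: cyc_tree (RM/LBb). * hlift: `ball Λ w = ball Λ w'`; `x ∈ lev (t+1)`, `t + 1 ≤ N`, so `x ∈ RI` (hS.ri_lev); hS.root for `t'`, `w'`, `y = x`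
  (`Λ.V (F x - w') = Λ.V (w - w') < 1`) gives `z`, `F z = w'`, `Λ.V (x - z) < 1` (ball_eq, Valuation.map_sub_swap).
* hJ: `r = ball Λ c`, `r' = ball Λ c'`; `(FRg Λ F)^[i] (ball Λ c) = ball Λ (F^[i] c)` for `i ≤ J` (fr_iter of RM/LAa, hG.reg), so the equality
  says `Λ.V (F^[i] c - F^[j] c') < 1`, hence `F^[i] c = F^[j] c'` (hG.gen). In the third alternative `F^[i-1] c ≠ F^[j-1] c'` since
  otherwise the balls `(FRg Λ F)^[i-1] (ball Λ c)` and `(FRg Λ F)^[j-1] (ball Λ c')` are equal. Apply hM.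
* lOnC_iff: as onC_iff in RM/LDa.lean.
-/
import Pool.Agent.H42.ES.WDefs
import Pool.Agent.H42.RM.LBb
import Pool.Agent.H42.RM.LDa

set_option autoImplicit false

namespace Pool.Agent.H42.ES

open Pool.Agent.H42.PC (lev lev_iter lev_up Loc ball ball_eq)
open Pool.Agent.H42.RM (LSys FRg NW lst LOn)

open scoped Classical

variable {G L : Type} [Group G] [Field L] [MulSemiringAction G L] {Λ : Loc G L} {F : L → L}
  {b : L} {W : Finset L} {mu : L → ℕ} {RI : Set L} {J J0 N s l : ℕ}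

/-- Coincidences of residues up to time `J` are equalities. -/
structure Gen (Λ : Loc G L) (F : L → L) (W : Finset L) (RI : Set L) (J : ℕ) : Prop where
  reg : ∀ c ∈ W, ∀ i ≤ J, F^[i] c ∈ RI
  gen : ∀ c ∈ W, ∀ c' ∈ W, ∀ i ≤ J, ∀ j ≤ J, Λ.V (F^[i] c - F^[j] c') < 1 → F^[i] c = F^[j] c'

/-- First meetings of orbits happen at times at most `J0`. -/
def Mb {L : Type} (F : L → L) (W : Finset L) (J0 : ℕ) : Prop :=
  ∀ c ∈ W, ∀ c' ∈ W, ∀ i j : ℕ, F^[i] c = F^[j] c' →
    (i = 0 ∨ j = 0 ∨ F^[i - 1] c ≠ F^[j - 1] c') → i ≤ J0 ∧ j ≤ J0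

/-- The weight of a residue. -/
noncomputable def wtl (Λ : Loc G L) (W : Finset L) (mu : L → ℕ) (l : ℕ) (r : Set L) : ℕ :=
  sSup {k | ∃ c ∈ W, ball Λ c = r ∧ k = padicValNat l (mu c)}

theorem wt_eq (hS : LSys Λ F b W mu RI 0 N) {c : L} (hc : c ∈ W) :
    wtl Λ W mu l (ball Λ c) = padicValNat l (mu c) := by
  have h : {k | ∃ c' ∈ W, ball Λ c' = ball Λ c ∧ k = padicValNat l (mu c')} =
      {padicValNat l (mu c)} := by
    ext k
    constructor
    · rintro ⟨c', hc', hb, rfl⟩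
      have h1 := Pool.Agent.H42.RM.w_sep hS hc' hc (ball_eq.1 hb)
      rw [h1]
      rfl
    · intro hk
      exact ⟨c, hc, rfl, hk⟩
  unfold wtl
  rw [h]
  exact csSup_singleton _

/-- The place of a local system. -/
noncomputable def lPl [Finite G] (hS : LSys Λ F b W mu RI 0 N) (hG : Gen Λ F W RI J)
    (hM : Mb F W J0) (hl : l.Prime) (hs : W.card ≤ s) (hmu : ∀ c ∈ W, mu c ≤ s) :
    Pl G F b s J J0 N where
  R := Set L
  FR := FRg Λ F
  red := ball Λ
  I := Λ.I
  A := ball Λ '' W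
  wt := wtl Λ W mu l
  l := l
  hl := hl
  hAfin := W.finite_toSet.image _
  hA := by
    refine (Set.ncard_image_le W.finite_toSet).trans ?_
    rw [Set.ncard_coe_finset]
    exact hs
  hwt := by
    intro r hr
    have h : {k | ∃ c ∈ W, ball Λ c = r ∧ k = padicValNat l (mu c)} = ∅ := by
      ext k
      constructor
      · rintro ⟨c, hc, hb, -⟩
        exact hr ⟨c, hc, hb⟩
      · intro hk
        exact hk.elim
    show sSup {k | ∃ c ∈ W, ball Λ c = r ∧ k = padicValNat l (mu c)} = 0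
    rw [h]
    exact csSup_empty
  hwB := by
    intro r
    show sSup {k | ∃ c ∈ W, ball Λ c = r ∧ k = padicValNat l (mu c)} ≤ s
    apply csSup_le'
    rintro k ⟨c, hc, -, rfl⟩
    have h2 : mu c ≠ 0 := by
      have := hS.mu2 c hc
      omega
    have h3 : padicValNat l (mu c) < l ^ padicValNat l (mu c) := Nat.lt_pow_self hl.one_lt
    have h4 : l ^ padicValNat l (mu c) ≤ mu c :=
      Nat.le_of_dvd (Nat.pos_of_ne_zero h2) pow_padicValNat_dvd
    have h5 := hmu c hc
    omega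
  hred := by
    intro t ht x hx
    exact (Pool.Agent.H42.RM.fr_ball hS (hS.ri_lev (t + 1) ht x hx)).symm
  hI := by
    intro g hg t ht x hx
    exact ball_eq.2 (Λ.inert g hg x (hS.ri_int x (hS.ri_lev t ht x hx)))
  hone := by
    intro t ht x hx x' _ he hr hA
    have hN : ¬ NW Λ W x := fun h => hA ((Pool.Agent.H42.RM.nw_iff Λ W x).1 h)
    have h1 : Λ.V (x' - x) < 1 := ball_eq.1 hr.symm
    have h2 := hS.ncr (t + 1) ht x hx hN x' h1
    rw [he, sub_self, map_zero] at h2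
    have h3 : x' - x = 0 := (map_eq_zero Λ.V).1 h2.symm
    exact (sub_eq_zero.1 h3).symm
  hgen := Pool.Agent.H42.RM.cyc_tree hS
  hlift := by
    intro t ht t' ht' w hw w' hw' hr x hx
    have hxl : x ∈ lev F b (t + 1) := by
      show F^[t + 1] x = b
      rw [Function.iterate_succ_apply, hx]
      exact hw
    have hxR := hS.ri_lev (t + 1) ht x hxl
    obtain ⟨z, hz1, hz2⟩ := hS.root t' ht' w' hw' x hxR (by rw [hx]; exact ball_eq.1 hr)
    exact ⟨z, hz1, (ball_eq.2 hz2).symm⟩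
  hJ := by
    have key : ∀ c ∈ W, ∀ i ≤ J, (FRg Λ F)^[i] (ball Λ c) = ball Λ (F^[i] c) :=
      fun c hc i hi => Pool.Agent.H42.RM.fr_iter hS fun k hk => hG.reg c hc k (by omega)
    rintro _ ⟨c, hc, rfl⟩ _ ⟨c', hc', rfl⟩ i hi j hj h h2
    rw [key c hc i hi, key c' hc' j hj] at h
    have h3 := hG.gen c hc c' hc' i hi j hj (ball_eq.1 h)
    refine hM c hc c' hc' i j h3 ?_
    rcases h2 with h2 | h2 | h2
    · exact Or.inl h2
    · exact Or.inr (Or.inl h2)
    · right
      right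
      intro h4
      apply h2
      rw [key c hc (i - 1) (by omega), key c' hc' (j - 1) (by omega), h4]

theorem lOnC_iff [Finite G] (hS : LSys Λ F b W mu RI 0 N) (hG : Gen Λ F W RI J)
    (hM : Mb F W J0) (hl : l.Prime) (hs : W.card ≤ s) (hmu : ∀ c ∈ W, mu c ≤ s) (x : L) :
    (lPl hS hG hM hl hs hmu).OnC x ↔ LOn Λ F b x := by
  have key : ∀ k : ℕ, (FRg Λ F)^[k] (ball Λ b) = ball Λ (F^[k] b) := fun k =>
    Pool.Agent.H42.RM.fr_iter hS fun i _ => hS.ri_orb i
  constructor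
  · rintro ⟨k, hk⟩
    refine ⟨k, ?_⟩
    have hk' : ball Λ x = (FRg Λ F)^[k] (ball Λ b) := hk
    rw [key] at hk'
    exact ball_eq.1 hk'
  · rintro ⟨k, hk⟩
    refine ⟨k, ?_⟩
    show ball Λ x = (FRg Λ F)^[k] (ball Λ b)
    rw [key]
    exact ball_eq.2 hk

end Pool.Agent.H42.ES
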