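/-
ROW EAb. First meetings of critical orbits, multiplicities. Let `F = RA p q β M`. PROOFS.
* mb_exists: for fixed `c, c' ∈ W` there is at most one pair `(i, j)` with `F^[i] c = F^[j] c'` and (`i = 0` or `j = 0` or
  `F^[i-1] c ≠ F^[j-1] c'`): let `(i, j)`, `(i', j')` be two of them, `i ≤ i'` (the other case is symmetric). Then
  `F^[j'] c' = F^[i'] c = F^[i'-i] (F^[i] c) = F^[i'-i+j] c'`, so `j' = i' - i + j` by wan_inj (RM/EAc; `c'` is wandering by mem_Wr, RM/EAd). If
  `i' > i` then `i' ≥ 1`, `j' ≥ 1` and `F^[i'-1] c = F^[i'-1-i] (F^[j] c') = F^[j'-1] c'`, contradiction. So `i = i'` and `j = j'`. Now take `J0` as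
  the supremum over the finitely many pairs `(c, c')` of `max i j` (e.g. by Finset induction, or choose for each pair a bound and take
  Finset.sup over `W ×ˢ W`).
* mb_map: `(RA p q β L)^[i] (algebraMap M L c) = algebraMap M L ((RA p q β M)^[i] c)` (ra_iter of RM/EAb for IsScalarTower.toAlgHom K M L) and
  injectivity of `algebraMap M L`.
* mu_le: `mu p q L c = rootMultiplicity c h` with `h = C (q c) * p - C (p c) * q ≠ 0` (EAd_ne of RM/EAd) of degree `≤ natDegree p`
  (mapped polynomials, natDegree_map); the root multiplicity is at most `natDegree h` (`(X - C c)^m ∣ h`, natDegree_le_of_dvd, or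
  count_roots and card_roots').
-/
import Pool.Agent.H42.RM.EAc
import Pool.Agent.H42.RM.EAd
import Pool.Agent.H42.ES.LAa

set_option autoImplicit false

namespace Pool.Agent.H42.ES

open Polynomial NumberField IsDedekindDomain
open Pool.Agent.H42.RM

open scoped Classical

private theorem EAb_uniq {L : Type} (F : L → L) (c c' : L)
    (h' : Function.Injective fun n : ℕ => F^[n] c') (i j i' j' : ℕ)
    (e1 : F^[i] c = F^[j] c') (e2 : F^[i'] c = F^[j'] c')
    (c2 : i' = 0 ∨ j' = 0 ∨ F^[i' - 1] c ≠ F^[j' - 1] c') (hle : i ≤ i') : i = i' ∧ j = j' := by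
  have key : ∀ m, i ≤ m → F^[m] c = F^[m - i + j] c' := by
    intro m hm
    have h1 : m = (m - i) + i := by omega
    conv_lhs => rw [h1]
    rw [Function.iterate_add_apply, e1, ← Function.iterate_add_apply]
  have h1 : j' = i' - i + j := by
    apply h'
    show F^[j'] c' = F^[i' - i + j] c'
    rw [← e2]
    exact key i' hle
  by_cases h2 : i = i'
  · refine ⟨h2, ?_⟩
    omega
  · exfalso
    rcases c2 with h | h | h
    · omega
    · omega
    · apply h
      rw [key (i' - 1) (by omega)]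
      congr 2
      omega

private theorem EAb_pair {L : Type} (F : L → L) (c c' : L)
    (h : Function.Injective fun n : ℕ => F^[n] c)
    (h' : Function.Injective fun n : ℕ => F^[n] c') :
    ∃ J : ℕ, ∀ i j : ℕ, F^[i] c = F^[j] c' →
      (i = 0 ∨ j = 0 ∨ F^[i - 1] c ≠ F^[j - 1] c') → i ≤ J ∧ j ≤ J := by
  by_cases hex : ∃ i j : ℕ, F^[i] c = F^[j] c' ∧ (i = 0 ∨ j = 0 ∨ F^[i - 1] c ≠ F^[j - 1] c')
  · obtain ⟨i, j, e1, c1⟩ := hex
    refine ⟨max i j, fun i' j' e2 c2 => ?_⟩
    rcases le_total i i' with hle | hle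
    · obtain ⟨h1, h2⟩ := EAb_uniq F c c' h' i j i' j' e1 e2 c2 hle
      rw [← h1, ← h2]
      exact ⟨le_max_left _ _, le_max_right _ _⟩
    · obtain ⟨h1, h2⟩ := EAb_uniq F c c' h' i' j' i j e2 e1 c1 hle
      rw [h1, h2]
      exact ⟨le_max_left _ _, le_max_right _ _⟩
  · refine ⟨0, fun i j e1 c1 => ?_⟩
    exact absurd ⟨i, j, e1, c1⟩ hex

private theorem EAb_q {K : Type} [Field K] {p q : K[X]} {β : K} (hB : RB p q β) : q ≠ 0 := by
  rintro rfl
  have h := hB.wan.1 0
  simp at h

theorem mb_exists {K M : Type} [Field K] [CharZero K] [Field M] [Algebra K M] {p q : K[X]}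
    {β : K} (hB : RB p q β) : ∃ J0, Mb (RA p q β M) (Wr p q β M) J0 := by
  have hinj : ∀ c ∈ Wr p q β M, Function.Injective fun n : ℕ => (RA p q β M)^[n] c := by
    intro c hc
    exact wan_inj ((mem_Wr (EAb_q hB) hB.qdeg c).1 hc).2
  have hp : ∀ x : M × M, ∃ J : ℕ, x.1 ∈ Wr p q β M → x.2 ∈ Wr p q β M →
      ∀ i j : ℕ, (RA p q β M)^[i] x.1 = (RA p q β M)^[j] x.2 →
      (i = 0 ∨ j = 0 ∨ (RA p q β M)^[i - 1] x.1 ≠ (RA p q β M)^[j - 1] x.2) → i ≤ J ∧ j ≤ J := by
    intro x
    by_cases h : x.1 ∈ Wr p q β M ∧ x.2 ∈ Wr p q β M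
    · obtain ⟨J, hJ⟩ := EAb_pair (RA p q β M) x.1 x.2 (hinj _ h.1) (hinj _ h.2)
      exact ⟨J, fun _ _ => hJ⟩
    · exact ⟨0, fun h1 h2 => absurd ⟨h1, h2⟩ h⟩
  choose f hf using hp
  refine ⟨(Wr p q β M ×ˢ Wr p q β M).sup f, ?_⟩
  intro c hc c' hc' i j e h
  have h1 := hf (c, c') hc hc' i j e h
  have h2 : f (c, c') ≤ (Wr p q β M ×ˢ Wr p q β M).sup f :=
    Finset.le_sup (f := f) (Finset.mem_product.2 ⟨hc, hc'⟩)
  exact ⟨h1.1.trans h2, h1.2.trans h2⟩

theorem mb_map {K M L : Type} [Field K] [Field M] [Field L] [Algebra K M] [Algebra M L]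
    [Algebra K L] [IsScalarTower K M L] {p q : K[X]} {β : K} {J0 : ℕ}
    (h : Mb (RA p q β M) (Wr p q β M) J0) :
    Mb (RA p q β L) ((Wr p q β M).image (algebraMap M L)) J0 := by
  have hit : ∀ (c : M) (n : ℕ), (RA p q β L)^[n] (algebraMap M L c) =
      algebraMap M L ((RA p q β M)^[n] c) := by
    intro c n
    exact (ra_iter (IsScalarTower.toAlgHom K M L) c n).symm
  have hinj : Function.Injective (algebraMap M L) := (algebraMap M L).injective
  intro c hc c' hc' i j e hh
  rw [Finset.mem_image] at hc hc'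
  obtain ⟨d, hd, rfl⟩ := hc
  obtain ⟨d', hd', rfl⟩ := hc'
  rw [hit, hit] at e
  rw [hit, hit] at hh
  refine h d hd d' hd' i j (hinj e) ?_
  rcases hh with h1 | h1 | h1
  · exact Or.inl h1
  · exact Or.inr (Or.inl h1)
  · exact Or.inr (Or.inr fun h2 => h1 (by rw [h2]))

theorem mu_le {K L : Type} [Field K] [Field L] [Algebra K L] {p q : K[X]} {β : K}
    (hB : RB p q β) {c : L} (hc : aeval c q ≠ 0) : mu p q L c ≤ p.natDegree := by
  have hqd : (q.map (algebraMap K L)).natDegree < (p.map (algebraMap K L)).natDegree := by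
    rw [natDegree_map, natDegree_map]
    exact hB.qdeg
  have hc' : (q.map (algebraMap K L)).eval c ≠ 0 := by
    rw [eval_map_algebraMap]
    exact hc
  have hne := EAd_ne hqd hc'
  have h1 : (C ((q.map (algebraMap K L)).eval c) * p.map (algebraMap K L) -
      C ((p.map (algebraMap K L)).eval c) * q.map (algebraMap K L)).natDegree ≤
      p.natDegree := by
    refine (natDegree_sub_le _ _).trans (max_le ?_ ?_)
    · refine (natDegree_C_mul_le _ _).trans ?_
      rw [natDegree_map]
    · refine (natDegree_C_mul_le _ _).trans ?_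
      rw [natDegree_map]
      exact hB.qdeg.le
  have h2 : mu p q L c ≤ (C ((q.map (algebraMap K L)).eval c) * p.map (algebraMap K L) -
      C ((p.map (algebraMap K L)).eval c) * q.map (algebraMap K L)).natDegree := by
    show rootMultiplicity c _ ≤ _
    rw [← count_roots]
    exact (Multiset.count_le_card _ _).trans (card_roots' _)
  exact h2.trans h1

end Pool.Agent.H42.ES
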