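/-
ROW EBa. The backward tree when it contains critical points. PROOF: adapt r_tree in RM/EBa.lean. For `t < N`, `x ∈ lev t` let
`h = p.map _ - C x * q.map _` (as there: `natDegree h = natDegree p`, roots of `h` = preimages of `x` by r_tree_root, and `h` splits in `L`: this part
of the old proof does not use Disj): this is e_fsplit. In e_tree: fin, le: the fibre is the set of roots of `h` (`h.roots.toFinset`), of cardinality
`≤ card h.roots ≤ natDegree h = d` (Multiset.toFinset_card_le, card_roots'). fib (for `n0 ≤ t`): the roots are simple: a multiple root `z` would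
be critical (`wr p q (z) = 0`, as in the old proof) with `(RA p q β L)^[t+1] z = b`, `n0 < t + 1`, contradicting hnc. equiv, fix, aper as before;
hd is hB.deg.
-/
import Pool.Agent.H42.RM.EBa
import Pool.Agent.H42.ES.WDefs

set_option autoImplicit false

namespace Pool.Agent.H42.ES

open Polynomial NumberField IsDedekindDomain
open Pool.Agent.H42.PC (lev)
open Pool.Agent.H42.RM

open scoped Classical

theorem e_fsplit {K L : Type} [Field K] [Field L] [Algebra K L] {p q : K[X]}
    {β : K} (hB : RB p q β) {N : ℕ}
    (hs : ∀ t ≤ N, ((RP p q β t).map (algebraMap K L)).Splits) :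
    ∀ t < N, ∀ w ∈ lev (RA p q β L) (algebraMap K L β) t,
      (p.map (algebraMap K L) - C w * q.map (algebraMap K L)).Splits := by
  intro t ht x hx
  have hqd := hB.qdeg
  have hx' : (RA p q β L)^[t] x = algebraMap K L β := hx
  refine Splits.of_splits_map (algebraMap L (AlgebraicClosure L)) (IsAlgClosed.splits _) ?_
  intro z hz
  have hz1 : ((p.map (algebraMap K L) - C x * q.map (algebraMap K L)).map
      (algebraMap L (AlgebraicClosure L))).eval z = 0 := (mem_roots'.1 hz).2
  let ι : L →ₐ[K] AlgebraicClosure L := IsScalarTower.toAlgHom K L (AlgebraicClosure L)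
  have hι : ∀ y : L, ι y = algebraMap L (AlgebraicClosure L) y := fun y => rfl
  have hx2 : (RA p q β (AlgebraicClosure L))^[t] (algebraMap L (AlgebraicClosure L) x) =
      algebraMap K (AlgebraicClosure L) β := by
    rw [← hι, ← ra_iter ι x t, hx', AlgHom.commutes]
  have hz2 : aeval z p - algebraMap L (AlgebraicClosure L) x * aeval z q = 0 := by
    rw [Polynomial.map_sub, Polynomial.map_mul, map_C, map_map, map_map,
      ← IsScalarTower.algebraMap_eq, Polynomial.eval_sub, eval_mul, eval_C,
      eval_map_algebraMap, eval_map_algebraMap] at hz1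
    exact hz1
  have hz3 := (r_tree_root hB hx2 z).1 hz2
  have hz4 : (RA p q β (AlgebraicClosure L))^[t + 1] z = algebraMap K (AlgebraicClosure L) β := by
    rw [Function.iterate_succ_apply, hz3, hx2]
  have hz5 := (rp_root hB (t + 1) z).2 hz4
  have hne : (RP p q β (t + 1)).map (algebraMap K L) ≠ 0 := by
    rw [Ne, Polynomial.map_eq_zero]
    exact rp_ne hqd (t + 1)
  refine (hs (t + 1) ht).mem_range_of_isRoot hne ?_
  rw [map_map, ← IsScalarTower.algebraMap_eq, IsRoot, eval_map_algebraMap]
  exact hz5

/-- The fibre of a point of level `t < N` is the set of the roots of `p - x q`. -/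
private theorem EBa_key {K L : Type} [Field K] [Field L] [Algebra K L] {p q : K[X]}
    {β : K} (hB : RB p q β) {N : ℕ}
    (hs : ∀ t ≤ N, ((RP p q β t).map (algebraMap K L)).Splits) {t : ℕ} (ht : t < N) {x : L}
    (hx : x ∈ lev (RA p q β L) (algebraMap K L β) t) :
    ∃ s : Finset L, {z | RA p q β L z = x} = ↑s ∧ s.card ≤ p.natDegree ∧
      ((∀ z, RA p q β L z = x → aeval z (wr p q) ≠ 0) → s.card = p.natDegree) := by
  have hqd := hB.qdeg
  have hx' : (RA p q β L)^[t] x = algebraMap K L β := hx
  have hsp0 := e_fsplit hB hs t ht x hx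
  obtain ⟨h, hh⟩ : ∃ h : L[X], h = p.map (algebraMap K L) - C x * q.map (algebraMap K L) :=
    ⟨_, rfl⟩
  rw [← hh] at hsp0
  have hlt : (C x * q.map (algebraMap K L)).natDegree < (p.map (algebraMap K L)).natDegree := by
    refine lt_of_le_of_lt (natDegree_C_mul_le _ _) ?_
    rw [natDegree_map, natDegree_map]
    exact hqd
  have hdeg : h.natDegree = p.natDegree := by
    rw [hh, natDegree_sub_eq_left_of_natDegree_lt hlt, natDegree_map]
  have hh0 : h ≠ 0 := by
    intro h0
    rw [h0, natDegree_zero] at hdeg
    have := hB.deg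
    omega
  have hev : ∀ z : L, h.eval z = aeval z p - x * aeval z q := by
    intro z
    rw [hh, Polynomial.eval_sub, eval_mul, eval_C, eval_map_algebraMap, eval_map_algebraMap]
  have hroot : ∀ z, z ∈ h.roots ↔ RA p q β L z = x := by
    intro z
    rw [mem_roots hh0, IsRoot, hev]
    exact r_tree_root hB hx' z
  refine ⟨h.roots.toFinset, ?_, ?_, ?_⟩
  · ext z
    simp only [Set.mem_ofPred_eq, Finset.mem_coe, Multiset.mem_toFinset]
    exact (hroot z).symm
  · refine (Multiset.toFinset_card_le _).trans ?_
    rw [← hdeg]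
    exact card_roots' h
  · intro hw
    have hnd : h.roots.Nodup := by
      rw [Multiset.nodup_iff_count_le_one]
      intro z
      rw [count_roots]
      by_contra hcon
      push Not at hcon
      rw [one_lt_rootMultiplicity_iff_isRoot hh0] at hcon
      obtain ⟨h1, h2⟩ := hcon
      have h3 : RA p q β L z = x := (hroot z).mp ((mem_roots hh0).mpr h1)
      have h1' : aeval z p - x * aeval z q = 0 := by
        rw [← hev]
        exact h1
      have h2' : aeval z (derivative p) - x * aeval z (derivative q) = 0 := by
        have h2'' : (derivative h).eval z = 0 := h2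
        rw [hh, derivative_sub, derivative_C_mul, derivative_map, derivative_map,
          Polynomial.eval_sub, eval_mul, eval_C, eval_map_algebraMap, eval_map_algebraMap] at h2''
        exact h2''
      apply hw z h3
      unfold wr
      rw [map_sub, map_mul, map_mul]
      have e1 : aeval z p = x * aeval z q := sub_eq_zero.1 h1'
      have e2 : aeval z (derivative p) = x * aeval z (derivative q) := sub_eq_zero.1 h2'
      rw [e1, e2]
      ring
    rw [Multiset.toFinset_card_of_nodup hnd, ← hsp0.natDegree_eq_card_roots, hdeg]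

theorem e_tree {K L : Type} [Field K] [CharZero K] [Field L] [Algebra K L] {p q : K[X]}
    {β : K} (hB : RB p q β) {n0 N : ℕ}
    (hnc : ∀ z : L, aeval z (wr p q) = 0 → ∀ t, n0 < t →
      (RA p q β L)^[t] z ≠ algebraMap K L β)
    (hs : ∀ t ≤ N, ((RP p q β t).map (algebraMap K L)).Splits) :
    Tr (L ≃ₐ[K] L) (RA p q β L) (algebraMap K L β) p.natDegree n0 N := by
  refine ⟨?_, ?_, ?_, ?_, ?_, ?_, hB.deg⟩
  · intro g x
    have := ra_smul (p := p) (q := q) (β := β) g x 1
    rw [Function.iterate_one] at this
    exact this.symm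
  · intro g
    rw [AlgEquiv.smul_def, AlgEquiv.commutes]
  · intro t ht
    exact r_aper hB ht
  · intro t ht x hx
    obtain ⟨s, hs1, -, -⟩ := EBa_key hB hs ht hx
    rw [hs1]
    exact s.finite_toSet
  · intro t ht x hx
    obtain ⟨s, hs1, hs2, -⟩ := EBa_key hB hs ht hx
    rw [hs1, Set.ncard_coe_finset]
    exact hs2
  · intro t h0 ht x hx
    obtain ⟨s, hs1, -, hs3⟩ := EBa_key hB hs ht hx
    rw [hs1, Set.ncard_coe_finset]
    apply hs3
    intro z hz hw
    refine hnc z hw (t + 1) (by omega) ?_
    have hx' : (RA p q β L)^[t] x = algebraMap K L β := hx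
    rw [Function.iterate_succ_apply, hz, hx']

end Pool.Agent.H42.ES
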