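/-
ROW EBb. Choice of `n0`. PROOF. r_stab (RM/EBb) gives `n1` with StabR p q β n1. The set of critical points `z : AlgebraicClosure K`
(`aeval z (wr p q) = 0`, `wr p q ≠ 0` by wr_lead of RM/EAd with ECa_q0-like `q ≠ 0`: `hB.wan.1 0`) is finite, and for each `z` there is at most one `t`
with `F^[t] z = b`: if `F^[t] z = F^[t'] z = b`, `t < t'` then `F^[t'-t] b = b`, contradicting r_aper (RM/EAc). So the set of `t` for which some
critical `z` has `F^[t] z = b` is finite, bounded by `B`. Take `n0 = max n1 B` (StabR is a statement for all `n ≥ n1`, so it holds for `n0`).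
* nc_map: `ι : L →ₐ[K] AlgebraicClosure K`: `ι z` is critical, `F^[t] (ι z) = ι (F^[t] z)` (ra_iter, RM/EAb).
-/
import Pool.Agent.H42.RM.EBb
import Pool.Agent.H42.RM.EAd

set_option autoImplicit false

namespace Pool.Agent.H42.ES

open Polynomial NumberField IsDedekindDomain
open Pool.Agent.H42.RM

open scoped Classical

/-- There is no critical point of level `> n0`. -/
def NC {K : Type} [Field K] (p q : K[X]) (β : K) (n0 : ℕ) (A : Type) [Field A] [Algebra K A] :
    Prop :=
  ∀ z : A, aeval z (wr p q) = 0 → ∀ t, n0 < t → (RA p q β A)^[t] z ≠ algebraMap K A β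

theorem e_n0 {K : Type} [Field K] [CharZero K] {p q : K[X]} {β : K} (hB : RB p q β)
    (h : ESR p q β) : ∃ n0, StabR p q β n0 ∧ NC p q β n0 (AlgebraicClosure K) := by
  obtain ⟨n1, hn1⟩ := r_stab hB h
  have hq0 : q ≠ 0 := by
    rintro rfl
    exact hB.wan.1 0 (map_zero _)
  have hw : wr p q ≠ 0 := (wr_lead hq0 hB.qdeg).1
  have hfin : {z : AlgebraicClosure K | aeval z (wr p q) = 0}.Finite := by
    refine ((wr p q).rootSet_finite (AlgebraicClosure K)).subset ?_
    intro z hz
    rw [mem_rootSet]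
    exact ⟨hw, hz⟩
  have hT : {t : ℕ | ∃ z ∈ {z : AlgebraicClosure K | aeval z (wr p q) = 0},
      (RA p q β (AlgebraicClosure K))^[t] z = algebraMap K (AlgebraicClosure K) β}.Finite := by
    have hset : {t : ℕ | ∃ z ∈ {z : AlgebraicClosure K | aeval z (wr p q) = 0},
        (RA p q β (AlgebraicClosure K))^[t] z = algebraMap K (AlgebraicClosure K) β} =
        ⋃ z ∈ {z : AlgebraicClosure K | aeval z (wr p q) = 0}, {t : ℕ |
          (RA p q β (AlgebraicClosure K))^[t] z = algebraMap K (AlgebraicClosure K) β} := by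
      ext t
      simp
    rw [hset]
    refine hfin.biUnion fun z _ => Set.Subsingleton.finite ?_
    intro t ht t' ht'
    have ht1 : (RA p q β (AlgebraicClosure K))^[t] z = algebraMap K (AlgebraicClosure K) β := ht
    have ht2 : (RA p q β (AlgebraicClosure K))^[t'] z = algebraMap K (AlgebraicClosure K) β := ht'
    refine wan_inj (wan_reach hB ht1) ?_
    change (RA p q β (AlgebraicClosure K))^[t] z = (RA p q β (AlgebraicClosure K))^[t'] z
    rw [ht1, ht2]
  obtain ⟨B, hBd⟩ := hT.bddAbove
  refine ⟨max n1 B, fun n hn => hn1 n ((le_max_left _ _).trans hn), ?_⟩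
  intro z hz t ht heq
  have h1 : t ≤ B := hBd ⟨z, hz, heq⟩
  exact absurd ((le_max_right n1 B).trans_lt ht) (not_lt.2 h1)

theorem nc_map {K A B : Type} [Field K] [Field A] [Field B] [Algebra K A] [Algebra K B]
    {p q : K[X]} {β : K} {n0 : ℕ} (ι : A →ₐ[K] B) (h : NC p q β n0 B) : NC p q β n0 A := by
  intro z hz t ht heq
  refine h (ι z) ?_ t ht ?_
  · rw [aeval_algHom_apply, hz, map_zero]
  · rw [← ra_iter, heq, AlgHom.commutes]

end Pool.Agent.H42.ES
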