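/-
ROW EBc. The orbits of one factor. PROOF of e_or: adapt r_orb in RM/EBd.lean: only the levels `t ≥ n0` matter. sub: r_sub. ne: for `t = n0` a root of
`h` (hroot there); step: hT.fib (`d ≥ 2` points; `n0 ≤ t`) and EBd_full. inv: EBd_inv. trans: htrge there. up: EBd_full and hpar there.
PROOF of e_itree (`A = AlgebraicClosure K`, `O t = OR p q β h n0 A (n0 + t)`): e_tree (row EBa) and e_or for `L = A` and any `N` (all polynomials split:
IsAlgClosed.splits; `IsGalois K A` by inferInstance or IsAlgClosure.isGalois). Fields of ITree: equiv, hd from Tr; fin: `OR .. n0` is contained in the finite set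
of roots of `h` (or r_sub and EFa_lev of RM/EFa, or tr_fin); ne, inv, trans, up from Or1 with `N = n0 + t + 1`; dfib: hT.fib with `N = n0 + t + 1`
(`x ∈ lev (n0+t)` by r_sub).
-/
import Pool.Agent.H42.RM.EBd
import Pool.Agent.H42.ES.EBa
import Pool.Agent.H42.ES.EBb
import Pool.Agent.H42.ES.Defs

set_option autoImplicit false

namespace Pool.Agent.H42.ES

open Polynomial NumberField IsDedekindDomain
open Pool.Agent.H42.PC (lev)
open Pool.Agent.H42.RM

open scoped Classical

theorem e_or {K L : Type} [Field K] [CharZero K] [Field L] [Algebra K L] [IsGalois K L]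
    {p q h : K[X]} {β : K} (hB : RB p q β) {n0 N : ℕ} (hN : n0 ≤ N)
    (hT : Tr (L ≃ₐ[K] L) (RA p q β L) (algebraMap K L β) p.natDegree n0 N)
    (hs : ∀ t ≤ N, ((RP p q β t).map (algebraMap K L)).Splits)
    (hst : StabR p q β n0) (hm : h.Monic) (hi : Irreducible h) (hdvd : h ∣ RP p q β n0) :
    Or1 (L ≃ₐ[K] L) (RA p q β L) (algebraMap K L β) n0 N (OR p q β h n0 L) := by
  have hpar : ∀ t, n0 ≤ t → ∀ x ∈ OR p q β h n0 L (t + 1), RA p q β L x ∈ OR p q β h n0 L t := by
    rintro t h4 x ⟨y, hy, h1 | h1⟩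
    · obtain ⟨h2, h3⟩ := h1
      refine ⟨y, hy, Or.inl ⟨h4, ?_⟩⟩
      rw [← Function.iterate_succ_apply, show (t - n0).succ = t + 1 - n0 by omega]
      exact h3
    · omega
  have hroot : ∃ y : L, aeval y h = 0 := by
    have hdeg : RP p q β n0 ≠ 0 := rp_ne hB.qdeg n0
    have h1 : (h.map (algebraMap K L)).Splits := by
      refine (hs n0 hN).of_dvd ?_ (Polynomial.map_dvd _ hdvd)
      rw [Ne, Polynomial.map_eq_zero_iff (algebraMap K L).injective]
      exact hdeg
    obtain ⟨y, hy⟩ := h1.exists_eval_eq_zero (by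
      rw [degree_map]
      exact hi.degree_pos.ne')
    exact ⟨y, by rwa [eval_map_algebraMap] at hy⟩
  have hne : ∀ j, n0 + j ≤ N → (OR p q β h n0 L (n0 + j)).Nonempty := by
    intro j
    induction j with
    | zero =>
      intro _
      obtain ⟨y, hy⟩ := hroot
      exact ⟨y, y, hy, Or.inl ⟨by omega, by rw [show n0 + 0 - n0 = 0 by omega]; rfl⟩⟩
    | succ j ih =>
      intro hj
      obtain ⟨x, hx⟩ := ih (by omega)
      have h6 := hT.fib (n0 + j) (by omega) (by omega) x (r_sub hB hdvd (n0 + j) hx)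
      have h8 := hB.deg
      have h7 : {z | RA p q β L z = x}.ncard ≠ 0 := by omega
      obtain ⟨z, hz⟩ := Set.nonempty_of_ncard_ne_zero h7
      exact ⟨z, EBd_full (t := n0 + j) (by omega) (by rw [show RA p q β L z = x from hz]; exact hx)⟩
  have htrge : ∀ j, n0 + j ≤ N → ∀ x ∈ OR p q β h n0 L (n0 + j),
      ∀ x' ∈ OR p q β h n0 L (n0 + j), ∃ g : L ≃ₐ[K] L, g • x = x' := by
    intro j
    induction j with
    | zero =>
      rintro _ x ⟨y, hy, h1 | h1⟩ x' ⟨y', hy', h1' | h1'⟩
      · have e1 := h1.2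
        have e2 := h1'.2
        rw [show n0 + 0 - n0 = 0 by omega, Function.iterate_zero, id] at e1 e2
        rw [e1, e2]
        exact Pool.Agent.H42.PC.EOr_roots hm hi hy hy'
      · omega
      · omega
      · omega
    | succ j ih =>
      intro hj x hx x' hx'
      have hFx := hpar (n0 + j) (by omega) x hx
      have hFx' := hpar (n0 + j) (by omega) x' hx'
      obtain ⟨g, hg⟩ := ih (by omega) _ hFx _ hFx'
      have hmp : minpoly K (RA p q β L x) = minpoly K (RA p q β L x') := by
        rw [← hg, Pool.Agent.H42.PC.EOr_min]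
      let ι : L →ₐ[K] AlgebraicClosure K := IsAlgClosed.lift
      have hlx : (RA p q β L)^[n0 + j + 1] x = algebraMap K L β := r_sub hB hdvd _ hx
      have hlx' : (RA p q β L)^[n0 + j + 1] x' = algebraMap K L β := r_sub hB hdvd _ hx'
      have h1 := hst (n0 + j) (by omega) (ι x) (ι x')
        (by rw [← ra_iter, hlx, AlgHom.commutes]) (by rw [← ra_iter, hlx', AlgHom.commutes])
        (by rw [← ra_hom, ← ra_hom, minpoly.algHom_eq ι ι.injective,
              minpoly.algHom_eq ι ι.injective, hmp])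
      rw [minpoly.algHom_eq ι ι.injective, minpoly.algHom_eq ι ι.injective] at h1
      exact Pool.Agent.H42.PC.EOr_conj h1
  refine ⟨fun t _ _ => r_sub hB hdvd t, ?_, fun t _ _ g x hx => EBd_inv t g hx, ?_, ?_⟩
  · intro t h0 ht
    have h1 := hne (t - n0) (by omega)
    rwa [show n0 + (t - n0) = t by omega] at h1
  · intro t h0 ht
    have h1 := htrge (t - n0) (by omega)
    rwa [show n0 + (t - n0) = t by omega] at h1
  · intro t h0 ht x
    exact ⟨fun hx => hpar t h0 x hx, fun hx => EBd_full h0 hx⟩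

theorem e_itree {K : Type} [Field K] [CharZero K] {p q h : K[X]} {β : K} (hB : RB p q β)
    {n0 : ℕ} (hnc : NC p q β n0 (AlgebraicClosure K)) (hst : StabR p q β n0) (hm : h.Monic)
    (hi : Irreducible h) (hdvd : h ∣ RP p q β n0) :
    ITree (AlgebraicClosure K ≃ₐ[K] AlgebraicClosure K) (RA p q β (AlgebraicClosure K))
      p.natDegree (fun t => OR p q β h n0 (AlgebraicClosure K) (n0 + t)) := by
  have hgal : IsGalois K (AlgebraicClosure K) := inferInstance
  have hs : ∀ N : ℕ, ∀ t ≤ N, ((RP p q β t).map (algebraMap K (AlgebraicClosure K))).Splits :=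
    fun N t _ => IsAlgClosed.splits _
  have hT : ∀ N : ℕ, Tr (AlgebraicClosure K ≃ₐ[K] AlgebraicClosure K)
      (RA p q β (AlgebraicClosure K)) (algebraMap K (AlgebraicClosure K) β) p.natDegree n0 N :=
    fun N => e_tree hB hnc (hs N)
  have hO : ∀ N : ℕ, n0 ≤ N → Or1 (AlgebraicClosure K ≃ₐ[K] AlgebraicClosure K)
      (RA p q β (AlgebraicClosure K)) (algebraMap K (AlgebraicClosure K) β) n0 N
      (OR p q β h n0 (AlgebraicClosure K)) :=
    fun N hN => e_or hB hN (hT N) (hs N) hst hm hi hdvd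
  refine ⟨(hT 0).equiv, ?_, ?_, ?_, ?_, ?_, ?_, (hT 0).hd⟩
  · have hne : h ≠ 0 := hi.ne_zero
    refine (Polynomial.rootSet_finite h (AlgebraicClosure K)).subset ?_
    rintro x ⟨y, hy, h1 | h1⟩
    · have e1 := h1.2
      rw [show n0 + 0 - n0 = 0 by omega, Function.iterate_zero, id] at e1
      rw [Polynomial.mem_rootSet_of_ne hne, e1]
      exact hy
    · omega
  · exact (hO n0 le_rfl).ne (n0 + 0) (by omega) (by omega)
  · exact fun t g x hx => (hO (n0 + t) (by omega)).inv (n0 + t) (by omega) le_rfl g x hx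
  · exact fun t x hx y hy => (hO (n0 + t) (by omega)).trans (n0 + t) (by omega) le_rfl x hx y hy
  · exact fun t x => (hO (n0 + t + 1) (by omega)).up (n0 + t) (by omega) (by omega) x
  · exact fun t x hx => (hT (n0 + t + 1)).fib (n0 + t) (by omega) (by omega) x
      (r_sub hB hdvd (n0 + t) hx)

end Pool.Agent.H42.ES
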