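/-
ROW QAa. Local systems from good rational maps, when the fibres may contain critical points. PROOFS.
* q_root2: as q_root in RM/QAe.lean, but the hypothesis that the fibre has `p.natDegree` points is replaced by hspl: `h = p - C w * q` splits.
  `natDegree h = d`, leading coefficient `p.leadingCoeff` (value 1). For every root `z` of `h`: `q z ≠ 0` (otherwise `p z = 0`,
  contradicting bez at `z`), so `F z = w`. `h y = q y * (F y - w)` has value `< 1`; `h = C lc * ∏ (X - C z)` over the roots (with
  multiplicities; Splits.eval_eq_prod_roots or C_leadingCoeff_mul_prod_multiset_X_sub_C), so `Λ.V (∏ (y - z)) < 1` and some root `z` has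
  `Λ.V (y - z) < 1` (QAe_mul in RM/QAe).
* lsys_of_good2: as lsys_of_good in RM/QAf.lean with `J = 0` and q_root replaced by q_root2.
-/
import Pool.Agent.H42.RM.QAf

set_option autoImplicit false

namespace Pool.Agent.H42.ES

open Polynomial WithZero
open Pool.Agent.H42.PC (lev lev_iter lev_up Loc ball ball_eq)
open Pool.Agent.H42.RM (LSys FRg NW lst LOn QGood fr wr RIQ)

open Pool.Agent.H42.RM (fr_zero fr_ne QAe_mul fr_smul q_wfix orb_reg q_near fr_sub_le lev_reg q_form q_ncr frg_iter)

open scoped Classical

variable {G L : Type} [Group G] [Field L] [MulSemiringAction G L] {Λ : Loc G L}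
  {p q : L[X]} {o b : L} {W : Finset L} {mu : L → ℕ}

theorem q_root2 {J : ℕ} (hQ : QGood Λ p q o b W mu J) {t : ℕ} {w y : L}
    (hw : w ∈ lev (fr p q o) b t) (hspl : (p - C w * q).Splits)
    (hy : y ∈ RIQ Λ q) (h : Λ.V (fr p q o y - w) < 1) :
    ∃ z, fr p q o z = w ∧ Λ.V (y - z) < 1 := by
  classical
  obtain ⟨hh, hhe⟩ : ∃ hh, hh = p - C w * q := ⟨_, rfl⟩
  have hdp : 0 < p.natDegree := by
    have := hQ.deg
    omega
  have hp0 : p ≠ 0 := by
    intro h0
    rw [h0, natDegree_zero] at hdp
    omega
  have hlt : (C w * q).natDegree < p.natDegree :=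
    lt_of_le_of_lt (natDegree_C_mul_le w q) hQ.qdeg
  have hdeg : (C w * q).degree < p.degree := by
    refine lt_of_le_of_lt degree_le_natDegree ?_
    rw [degree_eq_natDegree hp0]
    exact_mod_cast hlt
  have hgd : hh.natDegree = p.natDegree := by
    rw [hhe]
    exact natDegree_sub_eq_left_of_natDegree_lt hlt
  have hlead : hh.leadingCoeff = p.leadingCoeff := by
    rw [hhe]
    exact leadingCoeff_sub_of_degree_lt hdeg
  have hg0 : hh ≠ 0 := by
    intro h0
    rw [h0, natDegree_zero] at hgd
    omega
  have hev : ∀ z, hh.eval z = p.eval z - w * q.eval z := by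
    intro z
    rw [hhe, Polynomial.eval_sub, eval_mul, eval_C]
  have hset : {z | fr p q o z = w} = (hh.roots.toFinset : Set L) := by
    ext z
    rw [Finset.mem_coe, Multiset.mem_toFinset, mem_roots hg0, IsRoot.def, hev,
      Set.mem_setOf_eq]
    constructor
    · intro hz
      by_cases hq : q.eval z = 0
      · exfalso
        rw [fr_zero hq] at hz
        have h1 : (fr p q o)^[t] w = b := hw
        rw [← hz] at h1
        exact hQ.onl t h1
      · rw [fr_ne hq, div_eq_iff hq] at hz
        rw [hz, sub_self]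
    · intro hz
      by_cases hq : q.eval z = 0
      · exfalso
        rw [hq, mul_zero, sub_zero] at hz
        obtain ⟨u, v, -, -, huv⟩ := hQ.bez
        have h1 := congrArg (eval z) huv
        rw [eval_add, eval_mul, eval_mul, hz, hq, mul_zero, mul_zero, add_zero, eval_one] at h1
        exact zero_ne_one h1
      · rw [fr_ne hq, div_eq_iff hq]
        exact sub_eq_zero.1 hz
  have h3 : Multiset.card hh.roots = hh.natDegree := by
    rw [← hhe] at hspl
    exact hspl.natDegree_eq_card_roots.symm
  have h4 := C_leadingCoeff_mul_prod_multiset_X_sub_C h3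
  have hqy : q.eval y ≠ 0 := by
    intro h0
    have h5 := hy.2
    rw [h0, map_zero] at h5
    exact zero_ne_one h5
  have h5 : Λ.V (hh.eval y) < 1 := by
    have h6 : hh.eval y = q.eval y * (fr p q o y - w) := by
      rw [hev, fr_ne hqy]
      field_simp
    rw [h6, map_mul, hy.2, one_mul]
    exact h
  rw [← h4, eval_mul, eval_C, map_mul, hlead, hQ.plead, one_mul, eval_multiset_prod,
    Multiset.map_map] at h5
  have h6 : ((fun p : L[X] => eval y p) ∘ fun a : L => X - C a) = fun a : L => y - a := by
    funext a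
    simp
  by_contra hcon
  push Not at hcon
  rw [h6] at h5
  refine absurd h5 (not_lt.2 (QAe_mul Λ.V y _ fun a ha => ?_))
  refine hcon a ?_
  have h7 : a ∈ (hh.roots.toFinset : Set L) := by
    rw [Finset.mem_coe, Multiset.mem_toFinset]
    exact ha
  rw [← hset] at h7
  exact h7

theorem lsys_of_good2 (hQ : QGood Λ p q o b W mu 0) {n : ℕ} (hn : 1 ≤ n)
    (hb : Λ.V ((fr p q o)^[n] b - b) < 1) {N : ℕ}
    (hspl : ∀ t < N, ∀ w ∈ lev (fr p q o) b t, (p - C w * q).Splits) :
    LSys Λ (fr p q o) b W mu (RIQ Λ q) 0 N := by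
  have hb0 : b ∈ RIQ Λ q := orb_reg hQ hn hb 0
  exact
    { Fsmul := fun g x => fr_smul hQ.pc hQ.qc hQ.oc g x
      fixb := hQ.fixb
      Wfix := fun g hg c hc => q_wfix hQ hg hc
      ri_int := fun x hx => hx.1
      ri_near := fun x hx y h => q_near hQ hx h
      ri_sub := fun x hx y h => fr_sub_le hQ hx h
      ri_lev := fun t _ x hx => lev_reg hQ hb0 hx
      ri_orb := orb_reg hQ hn hb
      bW := hQ.bW
      mu2 := fun c hc => (hQ.Wmu c hc).1
      muV := fun c hc => (hQ.Wmu c hc).2
      form := fun c hc => q_form hQ hc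
      ncr := fun t _ x hx hn y h => q_ncr hQ hb0 hx hn h
      root := fun t ht w hw y hy h => q_root2 hQ hw (hspl t ht w hw) hy h
      hJ := by
        intro c hc c' hc' i hi j hj h
        have h1 : ∀ d ∈ W, ∀ k ≤ 0, (FRg Λ (fr p q o))^[k] (ball Λ d) =
            ball Λ ((fr p q o)^[k] d) := by
          intro d hd k hk
          refine frg_iter (RI := RIQ Λ q) (fun x hx y h => fr_sub_le hQ hx h) ?_
          intro i' hi'
          exact hQ.Wreg d hd i' (by omega)
        rw [h1 c hc i hi, h1 c' hc' j hj, PC.ball_eq] at h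
        exact hQ.G2 c hc c' hc' i hi j hj h }

end Pool.Agent.H42.ES
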