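/-
ROW ECa. Local systems over good primes (compare lsys_over in RM/ECd.lean). PROOF. hQ := qgood_of_goodR (RM/ECc) with `J = 0`. (3) is ECd_pow
(RM/ECd), hval and `exp (-(v0)) ^ |I| = exp (-(v0 |I|))`, as there. (1) the value in (3) is `< 1`, so lsys_of_good2 (row QAa) applies with hspl
(`RA p q β L = fr (p.map _) (q.map _) (algebraMap K L (ro p q β))` by definition). (2) Gen: `c = algebraMap M L c0`, `c0 ∈ Wr p q β M`;
`(RA p q β L)^[i] c = algebraMap M L ((RA p q β M)^[i] c0)` (ra_iter of RM/EAb for IsScalarTower.toAlgHom K M L). Let `w0` be the prime of `M` below `w`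
and use EGd_val (PCM/E1) as in the proof of qgood_of_goodR: `w (algebraMap M L z) = w0(z)^e`, `e ≠ 0`, `w0` lies over `v`. reg: hG.reg (value of
`(q.map _).eval (algebraMap M L y) = algebraMap M L (aeval y q)`). gen: hG.gen (`w(..)^e < 1` iff `w0(..) < 1`).
-/
import Pool.Agent.H42.RM.ECd
import Pool.Agent.H42.ES.EAa
import Pool.Agent.H42.ES.LAa
import Pool.Agent.H42.ES.QAa

set_option autoImplicit false

namespace Pool.Agent.H42.ES

open Polynomial NumberField IsDedekindDomain WithZero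
open Pool.Agent.H42.PC (lev Loc mkLoc)
open Pool.Agent.H42.RM

open scoped Classical

theorem e_lsys {K M L : Type} [Field K] [NumberField K] [Field M] [NumberField M]
    [Field L] [NumberField L] [Algebra K M] [Algebra M L] [Algebra K L] [IsScalarTower K M L]
    [IsGalois K L] {p q : K[X]} {β : K} (hB : RB p q β)
    (hM : ((wr p q).map (algebraMap K M)).Splits) {J N n v0 : ℕ}
    {v : HeightOneSpectrum (𝓞 K)} (hv : GoodR p q β M 0 v) (hG : GenR p q β M J v)
    (hspl : ∀ t < N, ∀ w ∈ lev (RA p q β L) (algebraMap K L β) t,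
      (p.map (algebraMap K L) - C w * q.map (algebraMap K L)).Splits)
    (hn : 1 ≤ n) (hv0 : 1 ≤ v0)
    (hval : v.valuation K ((RA p q β K)^[n] β - β) = exp (-(v0 : ℤ)))
    (w : HeightOneSpectrum (𝓞 L)) (hw : w.asIdeal.LiesOver v.asIdeal) :
    LSys (mkLoc K w) (RA p q β L) (algebraMap K L β) ((Wr p q β M).image (algebraMap M L))
      (mu p q L) (RIQ (mkLoc K w) (q.map (algebraMap K L))) 0 N ∧
    Gen (mkLoc K w) (RA p q β L) ((Wr p q β M).image (algebraMap M L))
      (RIQ (mkLoc K w) (q.map (algebraMap K L))) J ∧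
    (mkLoc K w).V ((RA p q β L)^[n] (algebraMap K L β) - algebraMap K L β) =
      exp (-((v0 : ℤ) * (Nat.card (mkLoc K w).I : ℤ))) := by
  have hQ := qgood_of_goodR hB hM hv w hw
  have hcI : 0 < Nat.card (mkLoc K w).I := Nat.card_pos
  have hval' : (mkLoc K w).V ((RA p q β L)^[n] (algebraMap K L β) - algebraMap K L β) =
      exp (-((v0 : ℤ) * (Nat.card (mkLoc K w).I : ℤ))) := by
    rw [ECd_pow w hw, hval, ← exp_nsmul]
    congr 1
    rw [nsmul_eq_mul]
    show ((Nat.card (w.asIdeal.inertia (L ≃ₐ[K] L)) : ℕ) : ℤ) * -(v0 : ℤ) =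
      -((v0 : ℤ) * ((Nat.card (w.asIdeal.inertia (L ≃ₐ[K] L)) : ℕ) : ℤ))
    ring
  have hblt : (mkLoc K w).V ((RA p q β L)^[n] (algebraMap K L β) - algebraMap K L β) < 1 := by
    rw [hval', ← exp_zero, exp_lt_exp]
    have h1 : (0 : ℤ) < (Nat.card (mkLoc K w).I : ℤ) := by exact_mod_cast hcI
    have h2 : (0 : ℤ) < (v0 : ℤ) := by exact_mod_cast hv0
    have := mul_pos h2 h1
    linarith
  refine ⟨lsys_of_good2 hQ hn hblt hspl, ?_, hval'⟩
  let qM : HeightOneSpectrum (𝓞 M) := HeightOneSpectrum.under (𝓞 M) w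
  have := hw
  have hwq : w.asIdeal.LiesOver qM.asIdeal := Ideal.over_under _
  have hqv : qM.asIdeal.LiesOver v.asIdeal :=
    Ideal.LiesOver.tower_bot w.asIdeal qM.asIdeal v.asIdeal
  obtain ⟨e, he, hq⟩ := Pool.Agent.H42.PC.EGd_val qM w hwq
  let ι : M →ₐ[K] L := IsScalarTower.toAlgHom K M L
  have hι : ∀ x, ι x = algebraMap M L x := fun x => rfl
  have hev : ∀ (f : K[X]) (c0 : M), (f.map (algebraMap K L)).eval (algebraMap M L c0) =
      algebraMap M L (aeval c0 f) := by
    intro f c0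
    rw [Polynomial.eval_map_algebraMap, ← hι, ← hι, Polynomial.aeval_algHom_apply]
  have hit : ∀ (c0 : M) (t : ℕ), (RA p q β L)^[t] (algebraMap M L c0) =
      algebraMap M L ((RA p q β M)^[t] c0) := by
    intro c0 t
    exact (ra_iter ι c0 t).symm
  constructor
  · intro c hc i hi
    obtain ⟨c0, hc0, rfl⟩ := Finset.mem_image.1 hc
    obtain ⟨h1, h2⟩ := hG.reg qM hqv c0 hc0 i hi
    rw [hit]
    constructor
    · show w.valuation L _ ≤ 1
      rw [hq]
      exact pow_le_one' h1 e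
    · show w.valuation L _ = 1
      rw [hev, hq, h2, one_pow]
  · intro c hc c' hc' i hi j hj h
    obtain ⟨c0, h0, rfl⟩ := Finset.mem_image.1 hc
    obtain ⟨c1, h1, rfl⟩ := Finset.mem_image.1 hc'
    change w.valuation L _ < 1 at h
    rw [hit, hit, ← map_sub, hq] at h
    rw [hit, hit, hG.gen qM hqv c0 h0 c1 h1 i hi j hj ((pow_lt_one_iff he).1 h)]

end Pool.Agent.H42.ES
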