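/-
ROW WAa. Basic facts on trees. `lev_iter`, `lev_up` are in PCM/G1 (general). PROOFS: as in section GBas of
PCM/G1.lean (iter_smul, smul_lev, lev_fin, orb_iter, orb_up; copy them).
* tr_fin: induction on `t`, `lev (t+1) = ⋃ x ∈ lev t, {z | F z = x}`, hT.fin.
* or_iter: induction on `j` with hO.up; or_up: the same. or_fin: hO.sub and tr_fin.
* tr_fib: induction on `j`; `{x | F^[j+1] x = y} = ⋃ z ∈ {z | F^[j] z = y}, {x | F x = z}`, disjoint, each `z` has level
  `t + j ≥ n0` (lev_up), so `d` points (hT.fib) (or as in GAa.lean, o_fib).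
* red_it: induction on `j` with hred. onC_it: red_it, `FR^[i] (FR^[k] (red b)) = FR^[i+k] (red b)`.
-/
import Pool.Agent.H42.ES.WDefs

set_option autoImplicit false

namespace Pool.Agent.H42.ES

open Pool.Agent.H42.PC (lev lev_iter lev_up)

open scoped Classical

variable {G Ω : Type} [Group G] [MulAction G Ω] {F : Ω → Ω} {b : Ω} {d n0 N s J J0 : ℕ}
  {O : ℕ → Set Ω}

theorem tr_smul (hT : Tr G F b d n0 N) (g : G) (x : Ω) (j : ℕ) : F^[j] (g • x) = g • F^[j] x := by
  induction j with
  | zero => rfl
  | succ j ih => rw [Function.iterate_succ_apply', ih, hT.equiv, Function.iterate_succ_apply']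

theorem tr_slev (hT : Tr G F b d n0 N) (g : G) {t : ℕ} {x : Ω} (hx : x ∈ lev F b t) :
    g • x ∈ lev F b t := by
  show F^[t] (g • x) = b
  rw [tr_smul hT, show F^[t] x = b from hx, hT.fix]

theorem tr_fin (hT : Tr G F b d n0 N) {t : ℕ} (ht : t ≤ N) : (lev F b t).Finite := by
  induction t with
  | zero =>
    have h0 : lev F b 0 = {b} := by
      ext x
      rfl
    rw [h0]
    exact Set.finite_singleton b
  | succ t ih =>
    have hU : lev F b (t + 1) = ⋃ x ∈ lev F b t, {z | F z = x} := by
      ext z
      constructor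
      · intro hz
        have hz' : F z ∈ lev F b t := by
          show F^[t] (F z) = b
          rw [← Function.iterate_succ_apply]
          exact hz
        exact Set.mem_biUnion hz' rfl
      · intro hz
        obtain ⟨x, hx, hzx⟩ := Set.mem_iUnion₂.1 hz
        have hzx' : F z = x := hzx
        show F^[t + 1] z = b
        rw [Function.iterate_succ_apply, hzx']
        exact hx
    rw [hU]
    exact (ih (by omega)).biUnion fun x hx => hT.fin t (by omega) x hx

theorem or_iter (hO : Or1 G F b n0 N O) {t j : ℕ} (h0 : n0 ≤ t) (ht : t + j ≤ N) {x : Ω}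
    (hx : x ∈ O (t + j)) : F^[j] x ∈ O t := by
  induction j generalizing x with
  | zero => exact hx
  | succ j ih =>
    rw [Function.iterate_succ_apply]
    exact ih (by omega) ((hO.up (t + j) (by omega) (by omega) x).1 hx)

theorem or_up (hO : Or1 G F b n0 N O) {t j : ℕ} (h0 : n0 ≤ t) (ht : t + j ≤ N) {x : Ω}
    (hx : F^[j] x ∈ O t) : x ∈ O (t + j) := by
  induction j generalizing x with
  | zero => exact hx
  | succ j ih =>
    rw [Function.iterate_succ_apply] at hx
    exact (hO.up (t + j) (by omega) (by omega) x).2 (ih (by omega) hx)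

theorem or_fin (hT : Tr G F b d n0 N) (hO : Or1 G F b n0 N O) {t : ℕ} (h0 : n0 ≤ t) (ht : t ≤ N) :
    (O t).Finite := by
  exact (tr_fin hT ht).subset (hO.sub t h0 ht)

theorem tr_fib (hT : Tr G F b d n0 N) {t j : ℕ} (h0 : n0 ≤ t) (ht : t + j ≤ N) {y : Ω}
    (hy : y ∈ lev F b t) : {x | F^[j] x = y}.Finite ∧ {x | F^[j] x = y}.ncard = d ^ j := by
  induction j with
  | zero =>
    have h : {x | F^[0] x = y} = {y} := by
      ext x
      simp
    rw [h]
    exact ⟨Set.finite_singleton y, by rw [Set.ncard_singleton, pow_zero]⟩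
  | succ j ih =>
    obtain ⟨hA, hc⟩ := ih (by omega)
    have hz : ∀ z ∈ {z | F^[j] z = y}, z ∈ lev F b (t + j) := fun z hz => by
      have hz' : F^[j] z = y := hz
      exact lev_up (by
        rw [hz']
        exact hy)
    have hU : {x | F^[j + 1] x = y} = ⋃ z ∈ {z | F^[j] z = y}, {x | F x = z} := by
      ext x
      simp [Function.iterate_succ_apply]
    have hfin : {x | F^[j + 1] x = y}.Finite := by
      rw [hU]
      exact hA.biUnion fun z hz' => hT.fin (t + j) (by omega) z (hz z hz')
    refine ⟨hfin, ?_⟩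
    rw [Set.ncard_eq_toFinset_card _ hfin,
      Finset.card_eq_sum_card_fiberwise (f := F) (t := hA.toFinset)]
    · have h1 : ∀ z ∈ hA.toFinset, (hfin.toFinset.filter (fun x => F x = z)).card = d := by
        intro z hz'
        have hz2 := hA.mem_toFinset.1 hz'
        rw [← hT.fib (t + j) (by omega) (by omega) z (hz z hz2), ← Set.ncard_coe_finset]
        congr 1
        ext x
        rw [Finset.mem_coe, Finset.mem_filter, Set.Finite.mem_toFinset]
        constructor
        · exact fun h => h.2
        · intro h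
          refine ⟨?_, h⟩
          have h' : F x = z := h
          change F^[j + 1] x = y
          rw [Function.iterate_succ_apply, h']
          exact hz2
      rw [Finset.sum_congr rfl h1, Finset.sum_const, ← Set.ncard_eq_toFinset_card _ hA, hc,
        smul_eq_mul, pow_succ]
    · intro x hx
      have hx' : F^[j + 1] x = y := hfin.mem_toFinset.1 hx
      rw [Function.iterate_succ_apply] at hx'
      exact hA.mem_toFinset.2 hx'

theorem red_it (P : Pl G F b s J J0 N) {t j : ℕ} (hj : j ≤ t) (ht : t ≤ N) {x : Ω}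
    (hx : x ∈ lev F b t) : P.red (F^[j] x) = P.FR^[j] (P.red x) := by
  induction j with
  | zero => rfl
  | succ j ih =>
    have h1 : F^[j] x ∈ lev F b (t - (j + 1) + 1) := by
      have h2 := lev_iter hx (show j ≤ t by omega)
      rw [show t - (j + 1) + 1 = t - j by omega]
      exact h2
    rw [Function.iterate_succ_apply', Function.iterate_succ_apply', ← ih (by omega)]
    exact P.hred (t - (j + 1)) (by omega) _ h1

theorem onC_it (P : Pl G F b s J J0 N) {t j : ℕ} (hj : j ≤ t) (ht : t ≤ N) {x : Ω}
    (hx : x ∈ lev F b t) (h : P.OnC x) : P.OnC (F^[j] x) := by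
  obtain ⟨k, hk⟩ := h
  refine ⟨j + k, ?_⟩
  rw [red_it P hj ht hx, hk, Function.iterate_add_apply]

end Pool.Agent.H42.ES
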