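/-
ROW WAb. Index lemmas (compare AD/GHa.lean and section GSt of PCM/G1.lean, whose proofs can be adapted). PROOFS.
* mem_st: definition. st_le: if `g • x = x` then `g • F^[j] x = F^[j] (g • x) = F^[j] x` (tr_smul, row WAa).
* ix_mul: `Subgroup.relIndex_mul_relIndex (P.st x) (P.st (F^[j] x)) P.I (st_le ..) inf_le_left`.
* ix_pos: `Subgroup.index_ne_zero_of_finite`. ix_dvd: Subgroup.relIndex is the index of a subgroup of `P.I`, so it
  divides `Nat.card P.I` (Subgroup.index_dvd_card).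
* ix_gen: the proof of ind_gen in AD/GHa.lean works verbatim.
* fv_mono: ix_mul, `P.ix (F^[j] x) ∣ P.ix x`, `padicValNat_dvd...` / padicValNat.mul (all factors `≠ 0`).
* fv_nc: `st (F x) ≤ st x` when `red x ∉ A`: for `g ∈ I` with `g • F x = F x`: `F (g • x) = F x`, `red (g • x) = red x` (hI),
  `g • x` has the same level (tr_slev), so hone gives `g • x = x` (hone for `x`, `g • x`). With st_le: `st x = st (F x)`.
* fv_step: ix_mul with `j = 1`; `(P.st x).relIndex (P.st (F x))` is the size of the orbit of `x` under `st (F x)`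
  (MulAction.index_stabilizer, compare GSt_index in PCM/G1) which is contained in `{z | F z = F x}` of cardinality
  `≤ d ≤ s` (hT.le, hT.fin), so its `l`-adic valuation is `≤ s` (`padicValNat l m ≤ Nat.log l m ≤ m`, or
  `l ^ padicValNat l m ∣ m`, `Nat.lt_pow_self`). padicValNat.mul.
* fv_base: every `g` fixes `b` (hT.fix), so `st b = I`, relIndex 1, valuation 0.
-/
import Pool.Agent.H42.ES.WAa

set_option autoImplicit false

namespace Pool.Agent.H42.ES

open Pool.Agent.H42.PC (lev lev_iter lev_up)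

open scoped Classical

variable {G Ω : Type} [Group G] [MulAction G Ω] {F : Ω → Ω} {b : Ω} {d n0 N s J J0 : ℕ}

theorem mem_st (P : Pl G F b s J J0 N) (g : G) (x : Ω) : g ∈ P.st x ↔ g ∈ P.I ∧ g • x = x := by
  unfold Pl.st
  rw [Subgroup.mem_inf, MulAction.mem_stabilizer_iff]

theorem st_le (hT : Tr G F b d n0 N) (P : Pl G F b s J J0 N) (x : Ω) (j : ℕ) :
    P.st x ≤ P.st (F^[j] x) := by
  intro g hg
  rw [mem_st] at hg ⊢
  exact ⟨hg.1, by rw [← tr_smul hT, hg.2]⟩

theorem ix_mul (hT : Tr G F b d n0 N) (P : Pl G F b s J J0 N) (x : Ω) (j : ℕ) :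
    P.ix x = (P.st x).relIndex (P.st (F^[j] x)) * P.ix (F^[j] x) := by
  unfold Pl.ix
  exact (Subgroup.relIndex_mul_relIndex _ _ _ (st_le hT P x j) inf_le_left).symm

theorem ix_pos [Finite G] (P : Pl G F b s J J0 N) (x : Ω) : 0 < P.ix x := by
  unfold Pl.ix Subgroup.relIndex
  exact Nat.pos_of_ne_zero Subgroup.index_ne_zero_of_finite

theorem ix_dvd [Finite G] (P : Pl G F b s J J0 N) (x : Ω) : P.ix x ∣ Nat.card P.I := by
  unfold Pl.ix Subgroup.relIndex
  exact Subgroup.index_dvd_card _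

theorem ix_gen [Finite G] (P : Pl G F b s J J0 N) {σ : G} (hσ : σ ∈ P.I) {x : Ω}
    (hx : ∀ g ∈ P.I, ∃ j : ℕ, g • x = σ ^ j • x) (k : ℕ) : σ ^ k • x = x ↔ P.ix x ∣ k := by
  have h1 : P.ix x = (MulAction.orbit P.I x).ncard := by
    rw [← MulAction.index_stabilizer]
    unfold Pl.ix Subgroup.relIndex
    congr 1
    ext g
    rw [Subgroup.mem_subgroupOf, mem_st, MulAction.mem_stabilizer_iff]
    constructor
    · exact fun h => h.2
    · intro h
      exact ⟨g.2, h⟩
  have h2 : MulAction.orbit P.I x = MulAction.orbit (Subgroup.zpowers σ) x := by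
    ext z
    constructor
    · rintro ⟨g, rfl⟩
      obtain ⟨i, hi⟩ := hx g g.2
      refine ⟨⟨σ ^ i, Subgroup.npow_mem_zpowers σ i⟩, ?_⟩
      exact hi.symm
    · rintro ⟨g, rfl⟩
      obtain ⟨k, hk⟩ := Subgroup.mem_zpowers_iff.1 g.2
      refine ⟨⟨g, ?_⟩, rfl⟩
      rw [← hk]
      exact Subgroup.zpow_mem _ hσ k
  have hfin : Finite (MulAction.orbit (Subgroup.zpowers σ) x) := Set.finite_range _
  have := Fintype.ofFinite (MulAction.orbit (Subgroup.zpowers σ) x)
  have h3 : P.ix x = Function.minimalPeriod (σ • ·) x := by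
    rw [h1, h2, MulAction.minimalPeriod_eq_card, ← Nat.card_eq_fintype_card]
    rfl
  rw [h3]
  exact MulAction.pow_smul_eq_iff_minimalPeriod_dvd

private theorem fv_mul [Finite G] (hT : Tr G F b d n0 N) (P : Pl G F b s J J0 N) (x : Ω) (j : ℕ) :
    P.fv x = padicValNat P.l ((P.st x).relIndex (P.st (F^[j] x))) + P.fv (F^[j] x) := by
  have hl : Fact P.l.Prime := ⟨P.hl⟩
  have h0 : (P.st x).relIndex (P.st (F^[j] x)) ≠ 0 := by
    unfold Subgroup.relIndex
    exact Subgroup.index_ne_zero_of_finite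
  unfold Pl.fv
  rw [← padicValNat.mul h0 (ix_pos P _).ne', ← ix_mul hT P x j]

theorem fv_mono [Finite G] (hT : Tr G F b d n0 N) (P : Pl G F b s J J0 N) (x : Ω) (j : ℕ) :
    P.fv (F^[j] x) ≤ P.fv x := by
  rw [fv_mul hT P x j]
  exact Nat.le_add_left _ _

theorem fv_nc [Finite G] (hT : Tr G F b d n0 N) (P : Pl G F b s J J0 N) {t : ℕ} (ht : t < N)
    {x : Ω} (hx : x ∈ lev F b (t + 1)) (hA : P.red x ∉ P.A) : P.fv x = P.fv (F x) := by
  have h1 : P.st (F x) ≤ P.st x := by
    intro g hg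
    rw [mem_st] at hg ⊢
    refine ⟨hg.1, ?_⟩
    refine (P.hone t ht x hx (g • x) (tr_slev hT g hx) ?_ ?_ hA).symm
    · rw [hT.equiv, hg.2]
    · exact (P.hI g hg.1 (t + 1) ht x hx).symm
  have h2 := fv_mul hT P x 1
  rw [Function.iterate_one, Subgroup.relIndex_eq_one.2 h1, padicValNat_one_right, zero_add] at h2
  exact h2

theorem fv_step [Finite G] (hT : Tr G F b d n0 N) (hds : d ≤ s) (P : Pl G F b s J J0 N) {t : ℕ}
    (ht : t < N) {x : Ω} (hx : x ∈ lev F b (t + 1)) : P.fv x ≤ P.fv (F x) + s := by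
  have h2 := fv_mul hT P x 1
  rw [Function.iterate_one] at h2
  have h0 : (P.st x).relIndex (P.st (F x)) ≠ 0 := by
    unfold Subgroup.relIndex
    exact Subgroup.index_ne_zero_of_finite
  have h3 : (P.st x).relIndex (P.st (F x)) = (MulAction.orbit (P.st (F x)) x).ncard := by
    rw [← MulAction.index_stabilizer]
    unfold Subgroup.relIndex
    congr 1
    ext g
    rw [Subgroup.mem_subgroupOf, mem_st, MulAction.mem_stabilizer_iff]
    constructor
    · exact fun h => h.2
    · intro h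
      exact ⟨((mem_st P _ _).1 g.2).1, h⟩
  have hFx : F x ∈ lev F b t := by
    have h4 := lev_iter (j := 1) hx (by omega)
    simpa using h4
  have h5 : (MulAction.orbit (P.st (F x)) x).ncard ≤ {z | F z = F x}.ncard := by
    refine Set.ncard_le_ncard ?_ (hT.fin t ht _ hFx)
    rintro z ⟨g, rfl⟩
    have hg := (mem_st P _ _).1 g.2
    show F ((g : G) • x) = F x
    rw [hT.equiv, hg.2]
  have h6 := hT.le t ht _ hFx
  have h7 : padicValNat P.l ((P.st x).relIndex (P.st (F x))) <
      P.l ^ padicValNat P.l ((P.st x).relIndex (P.st (F x))) := Nat.lt_pow_self P.hl.one_lt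
  have h8 : P.l ^ padicValNat P.l ((P.st x).relIndex (P.st (F x))) ≤
      (P.st x).relIndex (P.st (F x)) := Nat.le_of_dvd (Nat.pos_of_ne_zero h0) pow_padicValNat_dvd
  omega

theorem fv_base (hT : Tr G F b d n0 N) (P : Pl G F b s J J0 N) : P.fv b = 0 := by
  have h1 : P.ix b = 1 := by
    unfold Pl.ix
    rw [Subgroup.relIndex_eq_one]
    intro g hg
    rw [mem_st]
    exact ⟨hg, hT.fix g⟩
  unfold Pl.fv
  rw [h1, padicValNat_one_right]

end Pool.Agent.H42.ES
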