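/-
ROW LAb. The place of a local system is full from level `t0 = n * (v0 + s * (n * v0))` on. Let `P = lPl hS hG hM hl hs hmu` (row LAa:
`R = Set L`, `FR = FRg Λ F`, `red = ball Λ`, `I = Λ.I`, `A = ball Λ '' W`, `wt = wtl Λ W mu l` by definition; `P.OnC x ↔ LOn Λ F b x`:
lOnC_iff; `P.st x = lst Λ x` by definition). `Λ.V (F^[n] b - b) < 1` since `v0, |I| ≥ 1` (LCd_lt of RM/LCd). PROOFS.
* ix_card: `P.ix x * Nat.card (lst Λ x) = Nat.card Λ.I` (index times order; Subgroup.relIndex of `lst x ≤ I`; see LBc_card_mul in RM/LBc).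
* fields hn, hb (`⟨b, bW, rfl⟩`), hcyc (fr_iter, ball_eq, RM/LAa), hmin (fr_iter with ri_orb, ball_eq), hex (lon_up, RM/LCb): as in full_lsys
  (RM/LDb.lean).
* hwb: `wt (ball b) = padicValNat l (mu b)` (wt_eq) is `≥ 1` since `l ∣ mu b ≠ 0` (mu2; one_le_padicValNat_of_dvd).
* hful: let `w ∈ lev m`, `y = F^[m - t0] w ∈ lev t0` on the cycle, `F x = w`, `x ∈ lev (m+1)`. If `ball Λ x ∉ A` then `¬ NW Λ W x` (nw_iff), so
  `lst (F x) = lst x` (lst_eq, RM/LBc), `wt = 0` (P.hwt). Otherwise there is `c' ∈ W` with `Λ.V (x - c') < 1`. start (RM/LCd; with `M := s`) for `y` and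
  digits (RM/LCd) for `j = m - t0 + 1`, `x' = x ∈ lev (t0 + j)`, `c'` give `r ∣ mu c'`, `(∀ k, l^k ∣ mu c' → l^k ∣ r)` and
  `|lst w| = r |lst x|`. So `ix x * |lst x| = |I| = ix w * |lst w| = ix w * r * |lst x|`, `ix x = r * ix w`, and
  `padicValNat l r = padicValNat l (mu c')` (`≤`: `r ∣ mu c' ≠ 0`; `≥`: `l^(padicValNat l (mu c')) ∣ mu c'`, so it divides `r`;
  padicValNat_dvd_iff_le), `padicValNat.mul` (`r, ix w ≠ 0`); and `wt (ball x) = wt (ball c') = padicValNat l (mu c')`.
-/
import Pool.Agent.H42.ES.LAa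
import Pool.Agent.H42.ES.WAb
import Pool.Agent.H42.RM.LDb

set_option autoImplicit false

namespace Pool.Agent.H42.ES

open WithZero
open Pool.Agent.H42.PC (lev lev_iter lev_up Loc ball ball_eq)
open Pool.Agent.H42.RM (LSys FRg NW lst LOn)

open scoped Classical

variable {G L : Type} [Group G] [Field L] [MulSemiringAction G L] {Λ : Loc G L} {F : L → L}
  {b : L} {W : Finset L} {mu : L → ℕ} {RI : Set L} {J J0 N s l : ℕ}

theorem ix_card [Finite G] (hS : LSys Λ F b W mu RI 0 N) (hG : Gen Λ F W RI J) (hM : Mb F W J0)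
    (hl : l.Prime) (hs : W.card ≤ s) (hmu : ∀ c ∈ W, mu c ≤ s) (x : L) :
    (lPl hS hG hM hl hs hmu).ix x * Nat.card (lst Λ x) = Nat.card Λ.I := by
  have h := (Pool.Agent.H42.RM.LBc_card_mul (H := lst Λ x) (K := Λ.I) inf_le_left).symm
  exact h

theorem lFl [Finite G] (hS : LSys Λ F b W mu RI 0 N) (hG : Gen Λ F W RI J) (hM : Mb F W J0)
    (hl : l.Prime) (hs : W.card ≤ s) (hmu : ∀ c ∈ W, mu c ≤ s) (hlb : l ∣ mu b) {n v0 : ℕ}
    (hn : 1 ≤ n) (hv : 1 ≤ v0)
    (hb : Λ.V (F^[n] b - b) = exp (-((v0 : ℤ) * (Nat.card Λ.I : ℤ))))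
    (hmin : ∀ i, 1 ≤ i → i < n → ¬ Λ.V (F^[i] b - b) < 1) :
    Fl (lPl hS hG hM hl hs hmu) n (n * (v0 + s * (n * v0))) := by
  have hlF : Fact l.Prime := ⟨hl⟩
  have hlt : Λ.V (F^[n] b - b) < 1 := by
    rw [hb]
    exact Pool.Agent.H42.RM.LCd_lt Λ hv
  have key : ∀ k : ℕ, (FRg Λ F)^[k] (ball Λ b) = ball Λ (F^[k] b) := fun k =>
    Pool.Agent.H42.RM.fr_iter hS fun i _ => hS.ri_orb i
  have hmu0 : ∀ c ∈ W, mu c ≠ 0 := by
    intro c hc
    have := hS.mu2 c hc
    omega
  have hwt1 : ∀ x c, c ∈ W → Λ.V (x - c) < 1 →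
      (lPl hS hG hM hl hs hmu).wt ((lPl hS hG hM hl hs hmu).red x) = padicValNat l (mu c) := by
    intro x c hc hxc
    have h1 : ball Λ x = ball Λ c := ball_eq.2 hxc
    show wtl Λ W mu l (ball Λ x) = padicValNat l (mu c)
    rw [h1]
    exact wt_eq hS hc
  exact
    { hn := hn
      hb := ⟨b, hS.bW, rfl⟩
      hcyc := by
        show (FRg Λ F)^[n] (ball Λ b) = ball Λ b
        rw [key]
        exact ball_eq.2 hlt
      hmin := by
        intro i hi1 hi2 h
        have h' : (FRg Λ F)^[i] (ball Λ b) = ball Λ b := h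
        rw [key] at h'
        exact hmin i hi1 hi2 (ball_eq.1 h')
      hex := by
        intro t ht w hw hon
        obtain ⟨z, hz, hzon⟩ := Pool.Agent.H42.RM.lon_up hS hn hlt ht hw
          ((lOnC_iff hS hG hM hl hs hmu w).1 hon)
        exact ⟨z, hz, (lOnC_iff hS hG hM hl hs hmu z).2 hzon⟩
      hful := by
        intro m hm hmN w hw hon x hxw
        have hon' := (lOnC_iff hS hG hM hl hs hmu _).1 hon
        obtain ⟨t0, ht0⟩ : ∃ t0, t0 = n * (v0 + s * (n * v0)) := ⟨_, rfl⟩
        rw [← ht0] at hm hon'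
        have cx := ix_card hS hG hM hl hs hmu x
        have cw := ix_card hS hG hM hl hs hmu w
        have hpx : 0 < (lPl hS hG hM hl hs hmu).ix x := ix_pos _ x
        have hpw : 0 < (lPl hS hG hM hl hs hmu).ix w := ix_pos _ w
        have hc0 : 0 < Nat.card (lst Λ x) := Nat.card_pos
        have hxl : x ∈ lev F b (m + 1) := by
          show F^[m + 1] x = b
          rw [Function.iterate_succ_apply, hxw]
          exact hw
        show padicValNat l ((lPl hS hG hM hl hs hmu).ix x) =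
          padicValNat l ((lPl hS hG hM hl hs hmu).ix w) + _
        obtain ⟨ix, hix⟩ : ∃ ix, ix = (lPl hS hG hM hl hs hmu).ix x := ⟨_, rfl⟩
        obtain ⟨iw, hiw⟩ : ∃ iw, iw = (lPl hS hG hM hl hs hmu).ix w := ⟨_, rfl⟩
        rw [← hix] at cx hpx ⊢
        rw [← hiw] at cw hpw ⊢
        by_cases hnw : NW Λ W x
        · obtain ⟨c', hc', hxc'⟩ := hnw
          have hy : F^[m - t0] w ∈ lev F b t0 := by
            have h1 := lev_iter hw (show m - t0 ≤ m by omega)
            rwa [show m - (m - t0) = t0 by omega] at h1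
          obtain ⟨hy1, hy2, hy3⟩ := Pool.Agent.H42.RM.start hS (l := l) (M := s) hn hv hb hl
            hlb hmu (by rw [← ht0]; omega) (by rw [← ht0]; exact hy) hon'
          have hxl' : x ∈ lev F b (t0 + (m - t0 + 1)) := by
            rw [show t0 + (m - t0 + 1) = m + 1 by omega]
            exact hxl
          obtain ⟨-, -, r, hr, hk, hcard⟩ := Pool.Agent.H42.RM.digits hS hl hy1 hy2 hy3
            (t0 := t0) (m - t0 + 1) (by omega) (by omega) x hxl'
            (by rw [Function.iterate_succ_apply, hxw]) c' hc' hxc'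
          rw [hwt1 x c' hc' hxc']
          rw [hxw] at hcard
          have hr0 : r ≠ 0 := by
            rintro rfl
            exact hmu0 c' hc' (Nat.eq_zero_of_zero_dvd hr)
          have e1 : ix = iw * r := by
            have h1 : ix * Nat.card (lst Λ x) = (iw * r) * Nat.card (lst Λ x) := by
              rw [cx, mul_assoc, ← hcard, cw]
            exact Nat.eq_of_mul_eq_mul_right hc0 h1
          have e2 : padicValNat l r = padicValNat l (mu c') := by
            refine le_antisymm ?_ ?_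
            · rw [← padicValNat_dvd_iff_le (hmu0 c' hc')]
              exact pow_padicValNat_dvd.trans hr
            · rw [← padicValNat_dvd_iff_le hr0]
              exact hk _ pow_padicValNat_dvd
          rw [e1, padicValNat.mul hpw.ne' hr0, e2]
        · have hA : (lPl hS hG hM hl hs hmu).red x ∉ (lPl hS hG hM hl hs hmu).A := fun h =>
            hnw ((Pool.Agent.H42.RM.nw_iff Λ W x).2 h)
          rw [(lPl hS hG hM hl hs hmu).hwt _ hA]
          have h1 := Pool.Agent.H42.RM.lst_eq hS (show m + 1 ≤ N by omega) hxl hnw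
          rw [hxw] at h1
          rw [h1] at cw
          have e1 : ix = iw := Nat.eq_of_mul_eq_mul_right hc0 (cx.trans cw.symm)
          rw [e1, add_zero]
      hwb := by
        rw [hwt1 b b hS.bW (by rw [sub_self, map_zero]; exact zero_lt_one)]
        exact one_le_padicValNat_of_dvd (hmu0 b hS.bW) hlb }

end Pool.Agent.H42.ES
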