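/-
ROW WBb. Lifting of paths, and the maximal weight `mc`. PROOFS: as in AD/GIa.lean (lift_path, mc_bdd, nc_le_mc, exists_mc,
mc_red; copy and adapt). `wc h x ≤ h * s` by P.hwB.
* lift_p: induction on `h`: step: `w1 = F^[h] x`, `F w1 = w`; P.hlift gives `w1'` with `F w1' = w'`, `red w1' = red w1`; then the
  induction hypothesis for `w1, w1', x` (levels `t + 1`, `t' + 1`).
* ex_mc: the set is nonempty (fibres above levels `≥ n0` have `d ≥ 2` points: tr_fib, row WAa) and bounded: Nat.sSup_mem.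
* mc_red: take `x` with `wc h x = mc h w` (ex_mc), lift it above `w'`; `wc` only depends on the residues of
  `F^[i] x`, `i < h`; so `mc h w ≤ mc h w'` (wc_le_mc); symmetric.
* wc_add: Finset.sum_range_add (`F^[h+i] x = F^[i] (F^[h] x)`).
-/
import Pool.Agent.H42.ES.WAa

set_option autoImplicit false

namespace Pool.Agent.H42.ES

open Pool.Agent.H42.PC (lev lev_iter lev_up)

open scoped Classical

variable {G Ω : Type} [Group G] [MulAction G Ω] {F : Ω → Ω} {b : Ω} {d n0 N s J J0 : ℕ}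

theorem wbb_lev {t : ℕ} {w z : Ω} (hw : w ∈ lev F b t) (hz : F z = w) : z ∈ lev F b (t + 1) := by
  have hw' : F^[t] w = b := hw
  show F^[t + 1] z = b
  rw [Function.iterate_succ_apply, hz, hw']

theorem lift_p (P : Pl G F b s J J0 N) {t t' h : ℕ} (hN : t + h ≤ N) (hN' : t' + h ≤ N) {w w' : Ω}
    (hw : w ∈ lev F b t) (hw' : w' ∈ lev F b t') (hr : P.red w = P.red w') {x : Ω}
    (hx : F^[h] x = w) : ∃ x', F^[h] x' = w' ∧ ∀ i ≤ h, P.red (F^[i] x') = P.red (F^[i] x) := by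
  induction h generalizing t t' w w' with
  | zero =>
    refine ⟨w', rfl, fun i hi => ?_⟩
    have hi0 : i = 0 := by omega
    subst hi0
    have hx' : x = w := hx
    show P.red w' = P.red x
    rw [hx', hr]
  | succ h ih =>
    have hF : F (F^[h] x) = w := by
      have h0 := hx
      rw [Function.iterate_succ_apply'] at h0
      exact h0
    obtain ⟨w1', h1, h2⟩ := P.hlift t (by omega) t' (by omega) w hw w' hw' hr _ hF
    obtain ⟨x', h3, h4⟩ := ih (t := t + 1) (t' := t' + 1) (by omega) (by omega)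
      (wbb_lev hw hF) (wbb_lev hw' h1) h2.symm rfl
    have h5 : F^[h + 1] x' = w' := by
      rw [Function.iterate_succ_apply', h3, h1]
    refine ⟨x', h5, fun i hi => ?_⟩
    rcases Nat.lt_or_ge i (h + 1) with hlt | hge
    · exact h4 i (by omega)
    · have hi1 : i = h + 1 := by omega
      subst hi1
      rw [h5, hx, hr]

theorem wc_add (P : Pl G F b s J J0 N) (h k : ℕ) (x : Ω) :
    P.wc (h + k) x = P.wc h x + P.wc k (F^[h] x) := by
  unfold Pl.wc
  rw [Finset.sum_range_add]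
  congr 1
  refine Finset.sum_congr rfl fun i _ => ?_
  rw [← Function.iterate_add_apply, Nat.add_comm i h]

theorem mc_bdd (P : Pl G F b s J J0 N) (h : ℕ) (w : Ω) :
    BddAbove {k | ∃ x, F^[h] x = w ∧ k = P.wc h x} := by
  refine ⟨h * s, ?_⟩
  rintro k ⟨x, _, rfl⟩
  unfold Pl.wc
  have h1 := Finset.sum_le_card_nsmul (Finset.range h) (fun i => P.wt (P.red (F^[i] x))) s
    fun i _ => P.hwB _
  rw [Finset.card_range, smul_eq_mul] at h1
  exact h1

theorem wc_le_mc (P : Pl G F b s J J0 N) {h : ℕ} {w x : Ω} (hx : F^[h] x = w) :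
    P.wc h x ≤ P.mc h w := by
  exact le_csSup (mc_bdd P h w) ⟨x, hx, rfl⟩

theorem ex_mc (hT : Tr G F b d n0 N) (P : Pl G F b s J J0 N) {t h : ℕ} (h0 : n0 ≤ t)
    (hN : t + h ≤ N) {w : Ω} (hw : w ∈ lev F b t) : ∃ x, F^[h] x = w ∧ P.wc h x = P.mc h w := by
  have hd := hT.hd
  obtain ⟨hf, hc⟩ := tr_fib hT h0 hN hw
  have hne : {x | F^[h] x = w}.Nonempty := by
    apply Set.nonempty_of_ncard_ne_zero
    rw [hc]
    exact pow_ne_zero _ (by omega)
  obtain ⟨x0, hx0⟩ := hne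
  have h1 : sSup {k | ∃ x, F^[h] x = w ∧ k = P.wc h x} ∈
      {k | ∃ x, F^[h] x = w ∧ k = P.wc h x} :=
    Nat.sSup_mem ⟨_, x0, hx0, rfl⟩ (mc_bdd P h w)
  obtain ⟨x, hx, hk⟩ := h1
  exact ⟨x, hx, hk.symm⟩

theorem wbb_le (hT : Tr G F b d n0 N) (P : Pl G F b s J J0 N) {t t' h : ℕ} (h0 : n0 ≤ t)
    (hN : t + h ≤ N) (hN' : t' + h ≤ N) {w w' : Ω} (hw : w ∈ lev F b t)
    (hw' : w' ∈ lev F b t') (hr : P.red w = P.red w') : P.mc h w ≤ P.mc h w' := by
  obtain ⟨x, hx, hk⟩ := ex_mc hT P h0 hN hw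
  obtain ⟨x', hx', hi⟩ := lift_p P hN hN' hw hw' hr hx
  rw [← hk]
  have e : P.wc h x = P.wc h x' := by
    unfold Pl.wc
    refine Finset.sum_congr rfl fun i hi' => ?_
    rw [hi i (Finset.mem_range.1 hi').le]
  rw [e]
  exact wc_le_mc P hx'

theorem mc_red (hT : Tr G F b d n0 N) (P : Pl G F b s J J0 N) {t t' h : ℕ} (h0 : n0 ≤ t)
    (h0' : n0 ≤ t') (hN : t + h ≤ N) (hN' : t' + h ≤ N) {w w' : Ω} (hw : w ∈ lev F b t)
    (hw' : w' ∈ lev F b t') (hr : P.red w = P.red w') : P.mc h w = P.mc h w' := by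
  exact le_antisymm (wbb_le hT P h0 hN hN' hw hw' hr) (wbb_le hT P h0' hN' hN hw' hw hr.symm)

end Pool.Agent.H42.ES
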