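/-
ROW WBc. Points on the cycle. Write `β = P.red b`; `FR^[n] β = β` (hC.hcyc), `β ∈ A` (hC.hb). PROOFS (compare AD/GIb.lean and
section GCyc of PCM/G1.lean: onC_fix, exists_onC, onC_lev, nc_on, nc_on_ge, mc_ge, dg_per, dg_count, dg_on of AD/GLa.lean).
* onC_fix: `red x = FR^[k] β`, `FR^[n] (FR^[k] β) = FR^[k] (FR^[n] β)`.
* onC_lev: let `r = red x`; `FR^[t] r = red (F^[t] x) = β` (red_it), `FR^[n] r = r`. So `FR^[(n-1)*t] β = FR^[(n-1)*t + t] r = FR^[n*t] r = r`.
* onC_up: induction on `j` with hC.hex (lev_up for levels). onC_ex: onC_up for `w = b`, `t = 0` (`b` is OnC with `k = 0`).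
* wc_on: `red (F^[i] x) = FR^[i] (red x)` (red_it), `red x = FR^[k] β`: `wc n x = ∑ i ∈ range n, wt (FR^[i+k] β)` and
  `i ↦ wt (FR^[i] β)` is `n`-periodic, so the sum over `[k, k+n)` equals the sum over `[0, n)` (Function.Periodic; e.g. induction
  on `k`: Finset.sum_range_succ and sum_range_succ'). kap_pos: the term `i = 0` is `≥ 1` (hC.hwb).
* wc_ge: `h = n * q + r`; induction on `q`: split off `n` steps with wc_add (row WBb), wc_on and kap_pos: `q ≤ wc h x`.
* mc_ge: onC_up gives `x` with `F^[h] x = w` on the cycle; wc_ge, wc_le_mc.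
* dg_on: onC_lev. dg_per: `(n-1)*(t+n) = (n-1)*t + n*(n-1)`. dg_count: as dg_count in AD/GLa.lean (`t ↦ FR^[(n-1)*t] β` is injective on
  `range n` by hmin, values in `A`).
-/
import Pool.Agent.H42.ES.WBb

set_option autoImplicit false

namespace Pool.Agent.H42.ES

open Pool.Agent.H42.PC (lev lev_iter lev_up)

open scoped Classical

variable {G Ω : Type} [Group G] [MulAction G Ω] {F : Ω → Ω} {b : Ω} {d n0 N s J J0 n t0 : ℕ}

theorem onC_fix {P : Pl G F b s J J0 N} (hC : Fl P n t0) {x : Ω} (h : P.OnC x) :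
    P.FR^[n] (P.red x) = P.red x := by
  obtain ⟨k, hk⟩ := h
  rw [hk, ← Function.iterate_add_apply, Nat.add_comm, Function.iterate_add_apply, hC.hcyc]

theorem wbc_mul {P : Pl G F b s J J0 N} (hC : Fl P n t0) (k : ℕ) :
    P.FR^[n * k] (P.red b) = P.red b := by
  rw [Function.iterate_mul]
  exact Function.iterate_fixed hC.hcyc k

theorem onC_lev {P : Pl G F b s J J0 N} (hC : Fl P n t0) {t : ℕ} (ht : t ≤ N) {x : Ω}
    (hx : x ∈ lev F b t) (h : P.OnC x) : P.red x = P.FR^[(n - 1) * t] (P.red b) := by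
  have e0 : F^[t] x = b := hx
  have e1 : P.FR^[t] (P.red x) = P.red b := by
    rw [← red_it P le_rfl ht hx, e0]
  have e2 : P.FR^[n * t] (P.red x) = P.red x := by
    rw [Function.iterate_mul]
    exact Function.iterate_fixed (onC_fix hC h) t
  have e3 : (n - 1) * t + t = n * t := by
    obtain ⟨m, hm⟩ : ∃ m, n = m + 1 := ⟨n - 1, by have := hC.hn; omega⟩
    rw [hm, Nat.add_sub_cancel]
    ring
  rw [← e1, ← Function.iterate_add_apply, e3, e2]

theorem onC_up {P : Pl G F b s J J0 N} (hC : Fl P n t0) {t j : ℕ} (ht : t + j ≤ N) {w : Ω}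
    (hw : w ∈ lev F b t) (h : P.OnC w) : ∃ x ∈ lev F b (t + j), F^[j] x = w ∧ P.OnC x := by
  induction j with
  | zero => exact ⟨w, hw, rfl, h⟩
  | succ j ih =>
    obtain ⟨y, hy, hyw, hyc⟩ := ih (by omega)
    obtain ⟨x, hx, hxc⟩ := hC.hex (t + j) (by omega) y hy hyc
    have h1 : F^[j + 1] x = w := by
      rw [Function.iterate_succ_apply, hx, hyw]
    refine ⟨x, ?_, h1, hxc⟩
    have h2 : F^[j + 1] x ∈ lev F b t := by
      rw [h1]
      exact hw
    exact lev_up h2

theorem onC_ex {P : Pl G F b s J J0 N} (hC : Fl P n t0) {t : ℕ} (ht : t ≤ N) :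
    ∃ x ∈ lev F b t, P.OnC x := by
  have hb : b ∈ lev F b 0 := rfl
  obtain ⟨x, hx, _, hc⟩ := onC_up hC (t := 0) (j := t) (by omega) hb ⟨0, rfl⟩
  rw [Nat.zero_add] at hx
  exact ⟨x, hx, hc⟩

theorem wbc_per (g : ℕ → ℕ) (m : ℕ) (hg : ∀ i, g (i + m) = g i) (k : ℕ) :
    ∑ i ∈ Finset.range m, g (i + k) = ∑ i ∈ Finset.range m, g i := by
  induction k with
  | zero => rfl
  | succ k ih =>
    have h1 := Finset.sum_range_succ (fun i => g (i + k)) m
    have h2 := Finset.sum_range_succ' (fun i => g (i + k)) m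
    have h3 : g (m + k) = g (0 + k) := by
      rw [Nat.add_comm m k, hg, Nat.zero_add]
    have h4 : ∑ i ∈ Finset.range m, g (i + 1 + k) = ∑ i ∈ Finset.range m, g (i + (k + 1)) := by
      refine Finset.sum_congr rfl fun i _ => ?_
      congr 1
      omega
    rw [← ih]
    omega

theorem wc_on {P : Pl G F b s J J0 N} (hC : Fl P n t0) {t : ℕ} (ht : t + n ≤ N) {x : Ω}
    (hx : x ∈ lev F b (t + n)) (h : P.OnC x) : P.wc n x = P.kap n := by
  obtain ⟨k, hk⟩ := h
  have hper : ∀ i, P.wt (P.FR^[i + n] (P.red b)) = P.wt (P.FR^[i] (P.red b)) := by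
    intro i
    rw [Function.iterate_add_apply, hC.hcyc]
  have h1 := wbc_per (fun i => P.wt (P.FR^[i] (P.red b))) n hper k
  unfold Pl.wc Pl.kap
  rw [← h1]
  refine Finset.sum_congr rfl fun i hi => ?_
  rw [Finset.mem_range] at hi
  rw [red_it P (by omega) ht hx, hk, ← Function.iterate_add_apply]

theorem kap_pos {P : Pl G F b s J J0 N} (hC : Fl P n t0) : 1 ≤ P.kap n := by
  unfold Pl.kap
  have h0 : 0 ∈ Finset.range n := Finset.mem_range.2 (by have := hC.hn; omega)
  have h1 := Finset.single_le_sum (f := fun i => P.wt (P.FR^[i] (P.red b)))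
    (fun i _ => Nat.zero_le _) h0
  have h2 : 1 ≤ P.wt (P.FR^[0] (P.red b)) := hC.hwb
  exact le_trans h2 h1

theorem wbc_ge {P : Pl G F b s J J0 N} (hC : Fl P n t0) (q : ℕ) : ∀ {t r : ℕ}
    (_ : t + (n * q + r) ≤ N) {x : Ω} (_ : x ∈ lev F b (t + (n * q + r))) (_ : P.OnC x),
    q ≤ P.wc (n * q + r) x := by
  induction q with
  | zero => intro t r _ x _ _; exact Nat.zero_le _
  | succ q ih =>
    intro t r ht x hx hon
    have e : n * (q + 1) + r = n + (n * q + r) := by ring
    rw [e] at ht hx ⊢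
    rw [wc_add]
    have h1 : x ∈ lev F b ((t + (n * q + r)) + n) := by
      have e1 : t + (n + (n * q + r)) = (t + (n * q + r)) + n := by omega
      rw [e1] at hx
      exact hx
    have h2 := wc_on hC (by omega) h1 hon
    have h3 := lev_iter (j := n) hx (by omega)
    have e2 : t + (n + (n * q + r)) - n = t + (n * q + r) := by omega
    rw [e2] at h3
    have h4 := ih (by omega) h3 (onC_it P (by omega) ht hx hon)
    have h5 := kap_pos hC
    omega

theorem wc_ge {P : Pl G F b s J J0 N} (hC : Fl P n t0) {t h : ℕ} (ht : t + h ≤ N) {x : Ω}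
    (hx : x ∈ lev F b (t + h)) (hon : P.OnC x) : h / n ≤ P.wc h x := by
  have e : n * (h / n) + h % n = h := Nat.div_add_mod h n
  have h1 := wbc_ge hC (h / n) (t := t) (r := h % n) (x := x) (by rw [e]; exact ht)
    (by rw [e]; exact hx) hon
  rw [e] at h1
  exact h1

theorem mc_ge {P : Pl G F b s J J0 N} (hC : Fl P n t0) {t h : ℕ} (ht : t + h ≤ N) {w : Ω}
    (hw : w ∈ lev F b t) (hon : P.OnC w) : h / n ≤ P.mc h w := by
  obtain ⟨x, hx, hxw, hxc⟩ := onC_up hC ht hw hon
  exact le_trans (wc_ge hC ht hx hxc) (wc_le_mc P hxw)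

theorem dg_on {P : Pl G F b s J J0 N} (hC : Fl P n t0) {t : ℕ} (ht : t ≤ N) {x : Ω}
    (hx : x ∈ lev F b t) (h : P.OnC x) : P.red x ∈ P.A ↔ P.dg n t := by
  unfold Pl.dg
  rw [onC_lev hC ht hx h]

theorem dg_per {P : Pl G F b s J J0 N} (hC : Fl P n t0) (t : ℕ) :
    P.dg n (t + n) ↔ P.dg n t := by
  unfold Pl.dg
  have h : (n - 1) * (t + n) = (n - 1) * t + n * (n - 1) := by ring
  rw [h, Function.iterate_add_apply, wbc_mul hC]

theorem dg_count {P : Pl G F b s J J0 N} (hC : Fl P n t0) :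
    ((Finset.range n).filter fun t => P.dg n t).card ≤ s := by
  have hn := hC.hn
  have hinj : ∀ t t', t < t' → t' < n →
      P.FR^[(n - 1) * t] (P.red b) = P.FR^[(n - 1) * t'] (P.red b) → False := by
    intro t t' htt ht' h
    have h1 : P.FR^[t'] (P.FR^[(n - 1) * t'] (P.red b)) = P.red b := by
      rw [← Function.iterate_add_apply]
      have e : t' + (n - 1) * t' = n * t' := by
        obtain ⟨m, rfl⟩ := Nat.exists_eq_add_of_le hn
        simp only [Nat.add_sub_cancel_left]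
        ring
      rw [e, wbc_mul hC]
    have h2 : P.FR^[t'] (P.FR^[(n - 1) * t] (P.red b)) = P.FR^[t' - t] (P.red b) := by
      rw [← Function.iterate_add_apply]
      have e : t' + (n - 1) * t = (t' - t) + n * t := by
        obtain ⟨m, rfl⟩ := Nat.exists_eq_add_of_le hn
        obtain ⟨l, rfl⟩ := Nat.exists_eq_add_of_le htt.le
        simp only [Nat.add_sub_cancel_left]
        ring
      rw [e, Function.iterate_add_apply, wbc_mul hC]
    rw [h, h1] at h2
    exact hC.hmin (t' - t) (by omega) (by omega) h2.symm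
  refine le_trans ?_ P.hA
  rw [Set.ncard_eq_toFinset_card _ P.hAfin]
  refine Finset.card_le_card_of_injOn (fun t => P.FR^[(n - 1) * t] (P.red b)) ?_ ?_
  · intro t ht
    rw [Finset.mem_coe, Finset.mem_filter] at ht
    rw [Finset.mem_coe, Set.Finite.mem_toFinset]
    exact ht.2
  · intro t ht t' ht' h
    rw [Finset.mem_coe, Finset.mem_filter, Finset.mem_range] at ht ht'
    rcases lt_trichotomy t t' with h1 | h1 | h1
    · exact (hinj t t' h1 ht'.1 h).elim
    · exact h1
    · exact (hinj t' t h1 ht.1 h.symm).elim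

end Pool.Agent.H42.ES
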