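/-
ROW LAc. Points on the cycle lie in one orbit. Let `P = lPl hS hG hM hl hs hmu` (row LAa), `red = ball Λ`, `A = ball Λ '' W`. PROOFS.
* l_uniq: induction on `t`. `t = 0`: both are `b`. Step: `x, x' ∈ lev (t+1)`, `t + 1 ≤ J, N`. `F x`, `F x'` are on the cycle (onC_it, row WAa) so
  `F x = F x'` by induction. `red x = red x'` (onC_lev, row WBc, for both). If `red x ∉ A`: P.hone. If `red x ∈ A`: there is `c ∈ W` with
  `ball c = ball x`. `FR^[t+1] (red x) = red (F^[t+1] x) = red b` (red_it, row WAa) and `(FRg Λ F)^[t+1] (ball c) = ball (F^[t+1] c)` (fr_iter of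
  RM/LAa, hG.reg), so `Λ.V (F^[t+1] c - b) < 1` (ball_eq) and hG.gen (with `c' = b ∈ W`, `j = 0`) gives `F^[t+1] c = b`. So `c ∈ lev (t+1)` is on
  the cycle (same residue as `x`), `F c ∈ lev t` is on the cycle, so `F c = F x` by induction. c_ratio (RM/LAb) for `x` and `x' := c`
  (`Λ.V (x - c) < 1`, `Λ.V (c - c) < 1`, `F x = F c`): if `x ≠ c` its first conclusion is `c ≠ c`, absurd. So `x = c`; in the same way
  `x' = c`.
* l_inC: let `x ∈ lev t` be on the cycle, `t ≥ n0`. `F^[t-n0] x ∈ lev n0` is on the cycle, so it is `y0` by l_uniq (lOnC_iff for `y0`;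
  `y0 ∈ lev n0` by hO.sub); or_up (row WAa).
* fl_mono: only hful changes: if `F^[m-t1] w` is on the cycle (level `t1`) then so is `F^[m-t0] w = F^[t1-t0] (F^[m-t1] w)` (onC_it, row WAa;
  `w ∈ lev m`, `m < N`).
-/
import Pool.Agent.H42.ES.LAb
import Pool.Agent.H42.ES.WBc

set_option autoImplicit false

namespace Pool.Agent.H42.ES

open WithZero
open Pool.Agent.H42.PC (lev lev_iter lev_up Loc ball ball_eq)
open Pool.Agent.H42.RM (LSys FRg NW lst LOn)

open scoped Classical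

theorem fl_mono {G Ω : Type} [Group G] [MulAction G Ω] {F : Ω → Ω} {b : Ω} {s J J0 N n t0 t1 : ℕ}
    {P : Pl G F b s J J0 N} (hC : Fl P n t0) (h : t0 ≤ t1) : Fl P n t1 := by
  refine ⟨hC.hn, hC.hb, hC.hcyc, hC.hmin, hC.hex, ?_, hC.hwb⟩
  intro m hm hmN w hw hon x hx
  refine hC.hful m (h.trans hm) hmN w hw ?_ x hx
  have h1 : F^[m - t0] w = F^[t1 - t0] (F^[m - t1] w) := by
    rw [← Function.iterate_add_apply]
    congr 1
    omega
  rw [h1]
  have h2 : F^[m - t1] w ∈ lev F b (m - (m - t1)) := lev_iter hw (Nat.sub_le _ _)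
  rw [show m - (m - t1) = t1 by omega] at h2
  exact onC_it P (Nat.sub_le _ _) (hm.trans hmN.le) h2 hon

variable {G L : Type} [Group G] [Field L] [MulSemiringAction G L] {Λ : Loc G L} {F : L → L}
  {b : L} {W : Finset L} {mu : L → ℕ} {RI : Set L} {J J0 N s l : ℕ}

theorem l_uniq [Finite G] (hS : LSys Λ F b W mu RI 0 N) (hG : Gen Λ F W RI J) (hM : Mb F W J0)
    (hl : l.Prime) (hs : W.card ≤ s) (hmu : ∀ c ∈ W, mu c ≤ s) {n t0 : ℕ}
    (hC : Fl (lPl hS hG hM hl hs hmu) n t0) (t : ℕ) (ht : t ≤ N) (htJ : t ≤ J) :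
    ∀ x ∈ lev F b t, ∀ x' ∈ lev F b t, (lPl hS hG hM hl hs hmu).OnC x →
      (lPl hS hG hM hl hs hmu).OnC x' → x = x' := by
  induction t with
  | zero =>
    intro x hx x' hx' _ _
    have h1 : x = b := hx
    have h2 : x' = b := hx'
    rw [h1, h2]
  | succ t ih =>
    intro x hx x' hx' h1 h2
    have hlev : ∀ z, z ∈ lev F b (t + 1) → F z ∈ lev F b t := by
      intro z hz
      have := lev_iter hz (show 1 ≤ t + 1 by omega)
      exact this
    have hon : ∀ z, z ∈ lev F b (t + 1) → (lPl hS hG hM hl hs hmu).OnC z →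
        (lPl hS hG hM hl hs hmu).OnC (F z) := by
      intro z hz h
      exact onC_it (lPl hS hG hM hl hs hmu) (j := 1) (by omega) ht hz h
    have hF : F x = F x' := ih (by omega) (by omega) _ (hlev x hx) _ (hlev x' hx') (hon x hx h1)
      (hon x' hx' h2)
    have hr : (lPl hS hG hM hl hs hmu).red x = (lPl hS hG hM hl hs hmu).red x' := by
      rw [onC_lev hC ht hx h1, onC_lev hC ht hx' h2]
    by_cases hA : (lPl hS hG hM hl hs hmu).red x ∈ (lPl hS hG hM hl hs hmu).A
    · obtain ⟨c, hcW, hcx⟩ := hA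
      have hcW' : c ∈ W := hcW
      have hcx' : ball Λ c = ball Λ x := hcx
      have hr' : ball Λ x = ball Λ x' := hr
      have e1 := red_it (lPl hS hG hM hl hs hmu) (j := t + 1) le_rfl ht hx
      have e2 : ball Λ (F^[t + 1] x) = (FRg Λ F)^[t + 1] (ball Λ x) := e1
      have hxb : F^[t + 1] x = b := hx
      have e3 := Pool.Agent.H42.RM.fr_iter hS (x := c) (k := t + 1)
        (fun i hi => hG.reg c hcW' i (by omega))
      rw [hxb, ← hcx', e3] at e2
      have e4 : Λ.V (F^[t + 1] c - F^[0] b) < 1 := ball_eq.1 e2.symm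
      have e5 : F^[t + 1] c = F^[0] b := hG.gen c hcW' b hS.bW (t + 1) htJ 0 (Nat.zero_le _) e4
      have hc : c ∈ lev F b (t + 1) := e5
      have honc : (lPl hS hG hM hl hs hmu).OnC c := by
        obtain ⟨k, hk⟩ := h1
        refine ⟨k, ?_⟩
        rw [← hk]
        exact hcx
      have hFc := hlev c hc
      have honFc := hon c hc honc
      have key : ∀ z, z ∈ lev F b (t + 1) → (lPl hS hG hM hl hs hmu).OnC z → ball Λ z = ball Λ c →
          z = c := by
        intro z hz hzon hzc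
        by_contra hne
        have hFz : F z = F c := ih (by omega) (by omega) _ (hlev z hz) _ hFc (hon z hz hzon) honFc
        have hcc : Λ.V (c - c) < 1 := by
          rw [sub_self, map_zero]
          exact zero_lt_one
        exact (Pool.Agent.H42.RM.c_ratio hS hcW' (ball_eq.1 hzc) hcc hFz hne).1 rfl
      rw [key x hx h1 hcx'.symm, key x' hx' h2 (hr'.symm.trans hcx'.symm)]
    · exact (lPl hS hG hM hl hs hmu).hone t (by omega) x hx x' hx' hF hr hA

theorem l_inC [Finite G] (hS : LSys Λ F b W mu RI 0 N) (hG : Gen Λ F W RI J) (hM : Mb F W J0)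
    (hl : l.Prime) (hs : W.card ≤ s) (hmu : ∀ c ∈ W, mu c ≤ s) {n t0 : ℕ}
    (hC : Fl (lPl hS hG hM hl hs hmu) n t0) {n0 : ℕ} (hn0 : n0 ≤ N) (hn0J : n0 ≤ J)
    {O : ℕ → Set L} (hO : Or1 G F b n0 N O) {y0 : L} (hy0 : y0 ∈ O n0) (hon : LOn Λ F b y0) :
    InC (lPl hS hG hM hl hs hmu) n0 O := by
  intro t h0 ht x hx hxon
  have h1 : F^[t - n0] x ∈ lev F b (t - (t - n0)) := lev_iter hx (Nat.sub_le _ _)
  rw [show t - (t - n0) = n0 by omega] at h1
  have h2 := onC_it (lPl hS hG hM hl hs hmu) (Nat.sub_le t n0) ht hx hxon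
  have h3 : y0 ∈ lev F b n0 := hO.sub n0 le_rfl hn0 hy0
  have h4 := (lOnC_iff hS hG hM hl hs hmu y0).2 hon
  have h5 := l_uniq hS hG hM hl hs hmu hC n0 hn0 hn0J _ h1 _ h3 h2 h4
  have h6 := or_up hO le_rfl (show n0 + (t - n0) ≤ N by omega) (x := x) (by
    rw [h5]
    exact hy0)
  rw [show n0 + (t - n0) = t by omega] at h6
  exact h6

end Pool.Agent.H42.ES
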