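/-
ROW EDa. Places over good primes (compare r_place in RM/EDa.lean). PROOF. exists_over (PCM/E2) gives `w` above `v`; `hM := IsSplittingField.splits M (wr p q)`.
e_lsys (row ECa) gives `hS : LSys ..`, `hG' : Gen ..` and the value of `F^[n] b - b`; min_over (RM/ECd) gives minimality; near_h (RM/ECd; `h.map` splits because it
divides the mapped `RP p q β n0`, rp_ne) gives a root `y` of `h` in `L` with `LOn y`. mb_map (row EAb) gives Mb for `L`. Let `W = (Wr p q β M).image (algebraMap M L)`: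
`W.card ≤ s` (Finset.card_image_le), and for `c ∈ W`, `mu p q L c ≤ natDegree p ≤ s` by mu_le (row EAb; `aeval c q ≠ 0`: `c = algebraMap M L c0`, `Wan p q β c0` by
mem_Wr of RM/EAd, `aeval (algebraMap M L c0) q = algebraMap M L (aeval c0 q)`). `2 ≤ mu b` (hS.mu2 b hS.bW), so there is a prime `l ∣ mu b`
(Nat.exists_prime_and_dvd). `P = lPl hS hG' hMb hl hs hmu` (row LAa), lFl (row LAb), l_inC (row LAc; `y ∈ OR p q β h n0 L n0`: `⟨y, hy, Or.inl ⟨le_rfl, by simp⟩⟩`).
-/
import Pool.Agent.H42.RM.EDa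
import Pool.Agent.H42.ES.EAb
import Pool.Agent.H42.ES.ECa
import Pool.Agent.H42.ES.LAc

set_option autoImplicit false

namespace Pool.Agent.H42.ES

open Polynomial NumberField IsDedekindDomain WithZero
open Pool.Agent.H42.PC (lev Loc mkLoc)
open Pool.Agent.H42.RM

open scoped Classical

theorem e_place {K M L : Type} [Field K] [NumberField K] [Field M] [NumberField M]
    [Field L] [NumberField L] [Algebra K M] [Algebra M L] [Algebra K L] [IsScalarTower K M L]
    [IsGalois K L] {p q h : K[X]} {β : K} [IsSplittingField K M (wr p q)] (hB : RB p q β)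
    {J J0 n0 N n v0 s : ℕ} {v : HeightOneSpectrum (𝓞 K)} (hv : GoodR p q β M 0 v)
    (hG : GenR p q β M J v) (hMb : Mb (RA p q β M) (Wr p q β M) J0) (hn0 : n0 ≤ N)
    (hJ0 : n0 ≤ J)
    (hO : Or1 (L ≃ₐ[K] L) (RA p q β L) (algebraMap K L β) n0 N (OR p q β h n0 L))
    (hs : ∀ t ≤ N, ((RP p q β t).map (algebraMap K L)).Splits)
    (hspl : ∀ t < N, ∀ w ∈ lev (RA p q β L) (algebraMap K L β) t,
      (p.map (algebraMap K L) - C w * q.map (algebraMap K L)).Splits)
    (hm : h.Monic) (hdvd : h ∣ RP p q β n0) (hn : 1 ≤ n) (hv0 : 1 ≤ v0)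
    (hval : v.valuation K ((RA p q β K)^[n] β - β) = WithZero.exp (-(v0 : ℤ)))
    (hmin : ∀ i, 1 ≤ i → i < n → ¬ v.valuation K ((RA p q β K)^[i] β - β) < 1)
    {k : ℕ} (hk : v.valuation K (h.eval ((RA p q β K)^[k] β)) < 1)
    (hs1 : (Wr p q β M).card ≤ s) (hs2 : p.natDegree ≤ s) :
    ∃ P : Pl (L ≃ₐ[K] L) (RA p q β L) (algebraMap K L β) s J J0 N,
      Fl P n (n * (v0 + s * (n * v0))) ∧ InC P n0 (OR p q β h n0 L) := by
  have hq0 : q ≠ 0 := by
    intro h0
    have h1 : aeval β q ≠ 0 := hB.wan.1 0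
    rw [h0, map_zero] at h1
    exact h1 rfl
  obtain ⟨w, hw⟩ := Pool.Agent.H42.PC.exists_over (K := K) (L := L) v
  have hM : ((wr p q).map (algebraMap K M)).Splits := IsSplittingField.splits M (wr p q)
  obtain ⟨hS, hG', hb⟩ := e_lsys hB hM hv hG hspl hn hv0 hval w hw
  have hmin' := min_over (L := L) (p := p) (q := q) (β := β) hmin w hw
  have hspl' : (h.map (algebraMap K L)).Splits :=
    (hs n0 hn0).of_dvd ((Polynomial.map_ne_zero_iff (algebraMap K L).injective).2
      (rp_ne hB.qdeg n0)) (Polynomial.map_dvd _ hdvd)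
  obtain ⟨y, hy, hyon⟩ := near_h (L := L) hm hspl' hk w hw
  have hMb' := mb_map (L := L) hMb
  have hcard : ((Wr p q β M).image (algebraMap M L)).card ≤ s :=
    Finset.card_image_le.trans hs1
  have hmu : ∀ c ∈ (Wr p q β M).image (algebraMap M L), mu p q L c ≤ s := by
    intro c hc
    obtain ⟨c0, hc0, rfl⟩ := Finset.mem_image.1 hc
    obtain ⟨-, h2⟩ := (mem_Wr hq0 hB.qdeg _).1 hc0
    have h3 : aeval c0 q ≠ 0 := h2.1 0
    refine (mu_le hB ?_).trans hs2
    rw [aeval_algebraMap_apply]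
    intro h4
    exact h3 ((map_eq_zero_iff (algebraMap M L) (algebraMap M L).injective).1 h4)
  have hm2 : 2 ≤ mu p q L (algebraMap K L β) := hS.mu2 _ hS.bW
  obtain ⟨l, hl, hlb⟩ := Nat.exists_prime_and_dvd (n := mu p q L (algebraMap K L β)) (by omega)
  have hF := lFl hS hG' hMb' hl hcard hmu hlb hn hv0 hb hmin'
  refine ⟨lPl hS hG' hMb' hl hcard hmu, hF, ?_⟩
  exact l_inC hS hG' hMb' hl hcard hmu hF hn0 hJ0 hO (y0 := y)
    ⟨y, hy, Or.inl ⟨le_rfl, by simp⟩⟩ hyon

end Pool.Agent.H42.ES
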