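/-
ROW GEa. The flat spot of a doubly monotone function (pure real numbers). PROOF. Claim: for every `p : ℕ`
there is `K_p` such that for all `i0`, `α`, `β` with `i0 < α`, `α + K_p ≤ β` and every `b` as below with
`b i0 β ≥ 1 - p * ε` there are `i < j < k ≤ β` with the two inequalities. Induction on `p`:
* `p = 0`, `K_0 = 2`: `b i0 k = 1` for all `k ≤ β` (b ≤ 1 and antitone in `k`), so take `i = i0`, `j = α`, `k = β`:
  `b (j+1) k - b i0 k ≤ 1 - 1 = 0`, `b i0 j - b i0 k = 0`.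
* step: `K_{p+1} = (p+2) * (K_p + 3)`. Let `M = K_p + 3` and consider the points `α + M*r`, `r = 0, ..., p+2` (all `≤ β`).
  `b i0` is antitone with values in `[1 - (p+1) ε, 1]` there, so the sum over `r < p+2` of
  `b i0 (α + M r) - b i0 (α + M (r+1))` is at most `(p+1) ε`, and some term is `≤ ε` (otherwise the sum is
  `> (p+2) ε ≥ (p+1) ε`). Put `α' = α + M r`, `β' = α + M (r+1)`, `i1 = α' + 1`. If `b i1 β' - b i0 β' ≤ ε`
  then `i = i0`, `j = α'`, `k = β'` works. Otherwise `b i1 β' > b i0 β' + ε ≥ b i0 β + ε ≥ 1 - p ε`, and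
  the induction hypothesis applies to `i1`, `α' + 2`, `β'` (`α' + 2 + K_p ≤ β'`).
Apply the claim with `p = ⌈1/ε⌉₊` (`b i0 β ≥ 0 ≥ 1 - p ε`), `i0 = 0`, `α = 1`, `β = 1 + K_p = K`.
Remark: `b` is only used for arguments `i ≤ k ≤ K`.
-/
import Mathlib

set_option autoImplicit false

namespace Pool.Agent.H42.ES

private theorem GEa_tel (u : ℕ → ℝ) (ε : ℝ) (n : ℕ) (h : ∀ r < n, ε < u r - u (r + 1)) :
    ∀ m ≤ n, (m : ℝ) * ε ≤ u 0 - u m := by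
  intro m
  induction m with
  | zero =>
    intro _
    simp
  | succ m ih =>
    intro hm
    have h1 := ih (by omega)
    have h2 := h m (by omega)
    push_cast
    linarith

private theorem GEa_step {ε : ℝ} (hε : 0 < ε) (p : ℕ) : ∃ Kp : ℕ, ∀ (K : ℕ) (b : ℕ → ℕ → ℝ),
    (∀ i k, i ≤ k → k ≤ K → 0 ≤ b i k ∧ b i k ≤ 1) →
    (∀ i j k, i ≤ j → j ≤ k → k ≤ K → b i k ≤ b j k) →
    (∀ i j k, i ≤ j → j ≤ k → k ≤ K → b i k ≤ b i j) →
    ∀ i0 α β, i0 < α → α + Kp ≤ β → β ≤ K → 1 - (p : ℝ) * ε ≤ b i0 β →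
    ∃ i j k, i < j ∧ j < k ∧ k ≤ K ∧ b (j + 1) k - b i k ≤ ε ∧ b i j - b i k ≤ ε := by
  induction p with
  | zero =>
    refine ⟨2, fun K b h01 _ _ i0 α β h1 h2 h3 h4 => ⟨i0, α, β, h1, by omega, h3, ?_, ?_⟩⟩
    · have h5 := (h01 (α + 1) β (by omega) h3).2
      rw [Nat.cast_zero, zero_mul] at h4
      linarith
    · have h5 := (h01 i0 α (by omega) (by omega)).2
      rw [Nat.cast_zero, zero_mul] at h4
      linarith
  | succ p ih =>
    obtain ⟨Kp, hK⟩ := ih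
    refine ⟨(p + 2) * (Kp + 3), fun K b h01 hm1 hm2 i0 α β h1 h2 h3 h4 => ?_⟩
    have hex : ∃ r < p + 2, b i0 (α + (Kp + 3) * r) - b i0 (α + (Kp + 3) * (r + 1)) ≤ ε := by
      by_contra hcon
      push Not at hcon
      have h5 := GEa_tel (fun r => b i0 (α + (Kp + 3) * r)) ε (p + 2) hcon (p + 2) le_rfl
      have h6 : α + (Kp + 3) * (p + 2) ≤ β := by
        rw [Nat.mul_comm]
        exact h2
      have h7 := (h01 i0 (α + (Kp + 3) * 0) (by omega) (by omega)).2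
      have h8 := hm2 i0 (α + (Kp + 3) * (p + 2)) β (by omega) h6 h3
      push_cast at h4 h5
      linarith
    obtain ⟨r, hr, h5⟩ := hex
    have h6 : (Kp + 3) * (r + 1) ≤ (p + 2) * (Kp + 3) := by
      rw [Nat.mul_comm (p + 2)]
      exact Nat.mul_le_mul_left _ (by omega)
    have h7 : (Kp + 3) * (r + 1) = (Kp + 3) * r + (Kp + 3) := by ring
    obtain ⟨a1, ha1⟩ : ∃ a1, a1 = α + (Kp + 3) * r := ⟨_, rfl⟩
    obtain ⟨b1, hb1⟩ : ∃ b1, b1 = α + (Kp + 3) * (r + 1) := ⟨_, rfl⟩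
    rw [← ha1, ← hb1] at h5
    have hb2 : b1 = a1 + (Kp + 3) := by omega
    have hbβ : b1 ≤ β := by omega
    by_cases hc : b (a1 + 1) b1 - b i0 b1 ≤ ε
    · exact ⟨i0, a1, b1, by omega, by omega, by omega, hc, h5⟩
    · push Not at hc
      refine hK K b h01 hm1 hm2 (a1 + 1) (a1 + 2) b1 (by omega) (by omega) (by omega) ?_
      have h8 := hm2 i0 b1 β (by omega) hbβ h3
      push_cast at h4
      linarith

theorem flat {ε : ℝ} (hε : 0 < ε) : ∃ K : ℕ, ∀ b : ℕ → ℕ → ℝ,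
    (∀ i k, i ≤ k → k ≤ K → 0 ≤ b i k ∧ b i k ≤ 1) →
    (∀ i j k, i ≤ j → j ≤ k → k ≤ K → b i k ≤ b j k) →
    (∀ i j k, i ≤ j → j ≤ k → k ≤ K → b i k ≤ b i j) →
    ∃ i j k, i < j ∧ j < k ∧ k ≤ K ∧ b (j + 1) k - b i k ≤ ε ∧ b i j - b i k ≤ ε := by
  obtain ⟨Kp, hK⟩ := GEa_step hε ⌈1 / ε⌉₊
  refine ⟨1 + Kp, fun b h01 hm1 hm2 => ?_⟩
  refine hK (1 + Kp) b h01 hm1 hm2 0 1 (1 + Kp) (by omega) le_rfl le_rfl ?_
  have h1 : 1 / ε ≤ (⌈1 / ε⌉₊ : ℝ) := Nat.le_ceil _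
  have h2 : 1 ≤ (⌈1 / ε⌉₊ : ℝ) * ε := by
    rw [div_le_iff₀ hε] at h1
    exact h1
  have h3 := (h01 0 (1 + Kp) (by omega) le_rfl).1
  linarith

end Pool.Agent.H42.ES
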