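/-
ROW GAa. Basic facts on the levels. PROOFS.
* it_smul: induction on `n` (iterate_succ_apply', hT.equiv).
* o_up: induction on `j` with hT.up (iterate_succ_apply).
* fib1_fin: `{z | F z = x}` has `ncard = d ≥ 2 > 0` (hT.dfib, hT.hd), so it is finite (Set.finite_of_ncard_pos).
* o_fib: induction on `j`: `{x | F^[j+1] x = y} = ⋃ z ∈ {z | F^[j] z = y}, {x | F x = z}`
  (iterate_succ_apply: `F^[j+1] x = F^[j] (F x)`), a disjoint union; all `z` lie in `O (t+j)` (o_up), every fibre has
  `d` points (hT.dfib). For the cardinality use toFinset and Finset.card_biUnion or Finset.card_eq_sum_card_fiberwise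
  (as in orb_succ of PCM/G1.lean, which may be copied).
* o_fin: induction on `t`: `O 0` finite (hT.fin), `O (t+1) = ⋃ y ∈ O t, {x | F x = y}`.
* o_card: `O (t+j)` is the disjoint union over `y ∈ O t` of `{x | F^[j] x = y}`.
* o_ex: the fibre of `F^[j]` over `y` has `d^j > 0` points (o_fib), and lies in `O (t+j)` (o_up).
* o_ne: o_ex from a point of `O 0` (hT.ne).
-/
import Pool.Agent.H42.ES.Defs

set_option autoImplicit false

namespace Pool.Agent.H42.ES

open scoped Classical

variable {G Ω : Type} [Group G] [MulAction G Ω] {F : Ω → Ω} {d : ℕ} {O : ℕ → Set Ω}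

theorem it_smul (hT : ITree G F d O) (g : G) (x : Ω) (n : ℕ) : F^[n] (g • x) = g • F^[n] x := by
  induction n with
  | zero => rfl
  | succ n ih => rw [Function.iterate_succ_apply', Function.iterate_succ_apply', ih, hT.equiv]

theorem o_up (hT : ITree G F d O) (t j : ℕ) (x : Ω) : x ∈ O (t + j) ↔ F^[j] x ∈ O t := by
  induction j generalizing x with
  | zero => exact Iff.rfl
  | succ j ih =>
    rw [Function.iterate_succ_apply, ← ih (F x)]
    exact hT.up (t + j) x

theorem fib1_fin (hT : ITree G F d O) {t : ℕ} {x : Ω} (hx : x ∈ O t) : {z | F z = x}.Finite := by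
  have h := hT.dfib t x hx
  have hd := hT.hd
  exact Set.finite_of_ncard_pos (by omega)

theorem o_fib (hT : ITree G F d O) (j : ℕ) {t : ℕ} {y : Ω} (hy : y ∈ O t) :
    {x | F^[j] x = y}.Finite ∧ {x | F^[j] x = y}.ncard = d ^ j := by
  induction j with
  | zero =>
    have h : {x | F^[0] x = y} = {y} := by
      ext x
      simp
    rw [h]
    exact ⟨Set.finite_singleton y, by rw [Set.ncard_singleton, pow_zero]⟩
  | succ j ih =>
    obtain ⟨hA, hc⟩ := ih
    have hz : ∀ z ∈ {z | F^[j] z = y}, z ∈ O (t + j) := fun z hz => by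
      have hz' : F^[j] z = y := hz
      rw [o_up hT, hz']
      exact hy
    have hU : {x | F^[j + 1] x = y} = ⋃ z ∈ {z | F^[j] z = y}, {x | F x = z} := by
      ext x
      simp [Function.iterate_succ_apply]
    have hfin : {x | F^[j + 1] x = y}.Finite := by
      rw [hU]
      exact hA.biUnion fun z hz' => fib1_fin hT (hz z hz')
    refine ⟨hfin, ?_⟩
    rw [Set.ncard_eq_toFinset_card _ hfin,
      Finset.card_eq_sum_card_fiberwise (f := F) (t := hA.toFinset)]
    · have h1 : ∀ z ∈ hA.toFinset, (hfin.toFinset.filter (fun x => F x = z)).card = d := by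
        intro z hz'
        have hz2 := hA.mem_toFinset.1 hz'
        rw [← hT.dfib (t + j) z (hz z hz2), ← Set.ncard_coe_finset]
        congr 1
        ext x
        rw [Finset.mem_coe, Finset.mem_filter, Set.Finite.mem_toFinset]
        constructor
        · exact fun h => h.2
        · intro h
          refine ⟨?_, h⟩
          have h' : F x = z := h
          change F^[j + 1] x = y
          rw [Function.iterate_succ_apply, h']
          exact hz2
      rw [Finset.sum_congr rfl h1, Finset.sum_const, ← Set.ncard_eq_toFinset_card _ hA, hc,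
        smul_eq_mul, pow_succ]
    · intro x hx
      have hx' : F^[j + 1] x = y := hfin.mem_toFinset.1 hx
      rw [Function.iterate_succ_apply] at hx'
      exact hA.mem_toFinset.2 hx'

theorem o_fin (hT : ITree G F d O) (t : ℕ) : (O t).Finite := by
  induction t with
  | zero => exact hT.fin
  | succ t ih =>
    have hU : O (t + 1) = ⋃ y ∈ O t, {x | F x = y} := by
      ext x
      rw [hT.up t x]
      simp
    rw [hU]
    exact ih.biUnion fun y hy => fib1_fin hT hy

theorem o_card (hT : ITree G F d O) (t j : ℕ) : (O (t + j)).ncard = d ^ j * (O t).ncard := by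
  have hA := o_fin hT t
  have hB := o_fin hT (t + j)
  rw [Set.ncard_eq_toFinset_card _ hB,
    Finset.card_eq_sum_card_fiberwise (f := F^[j]) (t := hA.toFinset)]
  · have h1 : ∀ y ∈ hA.toFinset, (hB.toFinset.filter (fun x => F^[j] x = y)).card = d ^ j := by
      intro y hy'
      have hy := hA.mem_toFinset.1 hy'
      rw [← (o_fib hT j hy).2, ← Set.ncard_coe_finset]
      congr 1
      ext x
      rw [Finset.mem_coe, Finset.mem_filter, Set.Finite.mem_toFinset]
      constructor
      · exact fun h => h.2
      · intro h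
        have h' : F^[j] x = y := h
        refine ⟨?_, h⟩
        rw [o_up hT, h']
        exact hy
    rw [Finset.sum_congr rfl h1, Finset.sum_const, ← Set.ncard_eq_toFinset_card _ hA, smul_eq_mul,
      mul_comm]
  · intro x hx
    have hx' : x ∈ O (t + j) := hB.mem_toFinset.1 hx
    rw [o_up hT] at hx'
    exact hA.mem_toFinset.2 hx'

theorem o_ex (hT : ITree G F d O) (t j : ℕ) {y : Ω} (hy : y ∈ O t) :
    ∃ x ∈ O (t + j), F^[j] x = y := by
  have h := (o_fib hT j hy).2
  have hd := hT.hd
  have hpos : 0 < d ^ j := by positivity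
  have hne : {x | F^[j] x = y}.Nonempty := Set.nonempty_of_ncard_ne_zero (by omega)
  obtain ⟨x, hx⟩ := hne
  have hx' : F^[j] x = y := hx
  refine ⟨x, ?_, hx'⟩
  rw [o_up hT, hx']
  exact hy

theorem o_ne (hT : ITree G F d O) (t : ℕ) : (O t).Nonempty := by
  obtain ⟨y, hy⟩ := hT.ne
  obtain ⟨x, hx, _⟩ := o_ex hT 0 t hy
  rw [Nat.zero_add] at hx
  exact ⟨x, hx⟩

end Pool.Agent.H42.ES
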