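/-
ROW GAb. The kernels. PROOFS.
* ker_normal: `g ∈ ker t`, `h : G`, `x ∈ O t`: `h⁻¹ • x ∈ O t` (hT.inv), so `(h g h⁻¹) • x = h • (g • (h⁻¹ • x)) = x`.
* ker_fi: `O t` is finite (o_fin, row GAa) and `G`-invariant; the homomorphism `G → Equiv.Perm (O t)` has kernel
  `ker G O t` (or: `ker t` is the intersection over the finitely many `x ∈ O t` of the stabilisers, each of
  finite index since the orbit of `x` lies in the finite set `O t`; Subgroup.finiteIndex_iInf or
  `MulAction.finite_quotient...`; any way is fine).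
* ker_anti: let `g ∈ ker t`, `x ∈ O s`; by o_ex (row GAa) there is `z ∈ O t = O (s + (t-s))` with
  `F^[t-s] z = x`; `g • x = F^[t-s] (g • z) = F^[t-s] z = x` (it_smul).
* ker_act: for `h ∈ ker t`, `s ≤ t`, `x ∈ O s`: `(g * h) • x = g • x` (mul_smul, ker_anti).
-/
import Pool.Agent.H42.ES.GAa

set_option autoImplicit false

namespace Pool.Agent.H42.ES

open scoped Classical

variable {G Ω : Type} [Group G] [MulAction G Ω] {F : Ω → Ω} {d : ℕ} {O : ℕ → Set Ω}

theorem ker_normal (hT : ITree G F d O) (t : ℕ) : (ker G O t).Normal := by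
  constructor
  intro g hg h x hx
  have h1 : h⁻¹ • x ∈ O t := hT.inv t h⁻¹ x hx
  have h2 : g • (h⁻¹ • x) = h⁻¹ • x := hg _ h1
  rw [mul_smul, mul_smul, h2, smul_inv_smul]

theorem ker_fi (hT : ITree G F d O) (t : ℕ) : (ker G O t).FiniteIndex := by
  have hfin : Finite (O t) := (o_fin hT t).to_subtype
  let φ : G →* Equiv.Perm (O t) :=
    { toFun := fun g =>
        { toFun := fun x => ⟨g • x.1, hT.inv t g x.1 x.2⟩
          invFun := fun x => ⟨g⁻¹ • x.1, hT.inv t g⁻¹ x.1 x.2⟩
          left_inv := fun x => Subtype.ext (inv_smul_smul g x.1)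
          right_inv := fun x => Subtype.ext (smul_inv_smul g x.1) }
      map_one' := by
        ext x
        exact one_smul G x.1
      map_mul' := fun a b => by
        ext x
        exact mul_smul a b x.1 }
  have h1 : ker G O t = φ.ker := by
    ext g
    rw [MonoidHom.mem_ker]
    constructor
    · intro hg
      ext x
      exact hg x.1 x.2
    · intro hg x hx
      have h2 := congrArg (fun e : Equiv.Perm (O t) => (e ⟨x, hx⟩).1) hg
      exact h2
  rw [h1]
  infer_instance

theorem ker_anti (hT : ITree G F d O) {s t : ℕ} (h : s ≤ t) : ker G O t ≤ ker G O s := by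
  intro g hg x hx
  obtain ⟨z, hz, hzx⟩ := o_ex hT s (t - s) hx
  have h1 : s + (t - s) = t := by omega
  rw [h1] at hz
  have h2 : g • z = z := hg z hz
  rw [← hzx, ← it_smul hT, h2]

theorem ker_act (hT : ITree G F d O) {s t : ℕ} (hs : s ≤ t) (g : G) {h : G} (hh : h ∈ ker G O t)
    {x : Ω} (hx : x ∈ O s) : (g * h) • x = g • x := by
  rw [mul_smul, ker_anti hT hs hh x hx]

end Pool.Agent.H42.ES
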