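/-
ROW GBa. The expectation `Ex`, linearity. `G ⧸ ker G O t` is finite (ker_fi, row GAb), nonempty. PROOFS: unfold Ex,
`finsum_eq_sum_of_fintype` (with `Fintype.ofFinite`), Finset.sum_add_distrib, Finset.mul_sum, Finset.sum_comm,
Finset.sum_le_sum; for ex_const: the sum is `card * c` and `card ≠ 0` (Nat.card_eq_fintype_card).
ex_swap: both sides are `(1/card^2) ∑ ∑ f c.out c'.out`.
-/
import Pool.Agent.H42.ES.GAb

set_option autoImplicit false

namespace Pool.Agent.H42.ES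

open scoped Classical

variable {G Ω : Type} [Group G] [MulAction G Ω] {F : Ω → Ω} {d : ℕ} {O : ℕ → Set Ω}

private theorem ex_fs (hT : ITree G F d O) (t : ℕ) :
    ∃ s : Finset (G ⧸ ker G O t), s.Nonempty ∧
      ∀ f : G → ℝ, Ex O t f = (∑ c ∈ s, f c.out) / (s.card : ℝ) := by
  have h1 : (ker G O t).FiniteIndex := ker_fi hT t
  have h2 : Finite (G ⧸ ker G O t) := inferInstance
  let h3 : Fintype (G ⧸ ker G O t) := Fintype.ofFinite _
  refine ⟨Finset.univ, ⟨((1 : G) : G ⧸ ker G O t), Finset.mem_univ _⟩, ?_⟩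
  intro f
  unfold Ex
  rw [finsum_eq_sum_of_fintype, Nat.card_eq_fintype_card, Finset.card_univ]

theorem ex_add (hT : ITree G F d O) (t : ℕ) (f f' : G → ℝ) :
    Ex O t (fun g => f g + f' g) = Ex O t f + Ex O t f' := by
  obtain ⟨s, _, he⟩ := ex_fs hT t
  rw [he, he, he, Finset.sum_add_distrib, add_div]

theorem ex_sub (hT : ITree G F d O) (t : ℕ) (f f' : G → ℝ) :
    Ex O t (fun g => f g - f' g) = Ex O t f - Ex O t f' := by
  obtain ⟨s, _, he⟩ := ex_fs hT t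
  rw [he, he, he, Finset.sum_sub_distrib, sub_div]

theorem ex_smul (hT : ITree G F d O) (t : ℕ) (c : ℝ) (f : G → ℝ) :
    Ex O t (fun g => c * f g) = c * Ex O t f := by
  obtain ⟨s, _, he⟩ := ex_fs hT t
  rw [he, he, ← Finset.mul_sum, mul_div_assoc]

theorem ex_sum (hT : ITree G F d O) (t : ℕ) {ι : Type} (s : Finset ι) (f : ι → G → ℝ) :
    Ex O t (fun g => ∑ i ∈ s, f i g) = ∑ i ∈ s, Ex O t (f i) := by
  obtain ⟨q, _, he⟩ := ex_fs hT t
  rw [he, Finset.sum_comm, Finset.sum_div]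
  exact Finset.sum_congr rfl fun i _ => (he (f i)).symm

theorem ex_mono (hT : ITree G F d O) (t : ℕ) {f f' : G → ℝ} (h : ∀ g, f g ≤ f' g) :
    Ex O t f ≤ Ex O t f' := by
  obtain ⟨s, _, he⟩ := ex_fs hT t
  rw [he, he]
  exact div_le_div_of_nonneg_right (Finset.sum_le_sum fun c _ => h c.out) (Nat.cast_nonneg _)

theorem ex_nonneg (hT : ITree G F d O) (t : ℕ) {f : G → ℝ} (h : ∀ g, 0 ≤ f g) : 0 ≤ Ex O t f := by
  obtain ⟨s, _, he⟩ := ex_fs hT t
  rw [he]
  exact div_nonneg (Finset.sum_nonneg fun c _ => h c.out) (Nat.cast_nonneg _)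

theorem ex_const (hT : ITree G F d O) (t : ℕ) (c : ℝ) : Ex O t (fun _ : G => c) = c := by
  obtain ⟨s, hs, he⟩ := ex_fs hT t
  have h1 : (s.card : ℝ) ≠ 0 := Nat.cast_ne_zero.mpr hs.card_pos.ne'
  rw [he, Finset.sum_const, nsmul_eq_mul, mul_div_cancel_left₀ _ h1]

theorem ex_swap (hT : ITree G F d O) (t : ℕ) (f : G → G → ℝ) :
    Ex O t (fun g => Ex O t (fun γ => f g γ)) = Ex O t (fun γ => Ex O t (fun g => f g γ)) := by
  obtain ⟨s, _, he⟩ := ex_fs hT t
  rw [he, he]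
  have h1 : ∀ g : G, Ex O t (fun γ => f g γ) = (∑ c ∈ s, f g c.out) / (s.card : ℝ) :=
    fun g => he _
  have h2 : ∀ γ : G, Ex O t (fun g => f g γ) = (∑ c ∈ s, f c.out γ) / (s.card : ℝ) :=
    fun γ => he _
  simp only [h1, h2]
  rw [← Finset.sum_div, ← Finset.sum_div, Finset.sum_comm]

end Pool.Agent.H42.ES
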