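/-
ROW GBb. The expectation `Ex`: change of level and translations. Let `N = ker G O t` (normal, finite index: ker_normal,
ker_fi of row GAb). An invariant `f` (`Inv O t f`) factors through `G ⧸ N`: `f g = f c.out` for `c = (g : G ⧸ N)`
(`c.out⁻¹ * g ∈ N`: QuotientGroup.mk_out_eq_mul or QuotientGroup.eq). PROOFS.
* inv_mono: ker_anti (row GAb).
* ex_left: the map `c ↦ a • c` is a bijection of `G ⧸ N` and `f (a * c.out) = f (a • c).out`
  (Equiv.sum_comp / finsum_eq_of_bijective, MulAction.toPerm).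
* ex_right: `N` is normal: `c ↦ c * (a : G ⧸ N)` is a bijection of the group `G ⧸ N`, and
  `f (c.out * a) = f (c * a).out`.
* ex_conj: ex_left for the invariant function `g ↦ f (g * a⁻¹)` (invariant as `h ∈ N → a * h * a⁻¹ ∈ N`) and then
  ex_right.
* ex_level: `N' = ker t' ≤ N`. Every fibre of the surjection `G ⧸ N' → G ⧸ N` has the same cardinality
  `card (G ⧸ N') / card (G ⧸ N)` (all fibres are translates of each other: e.g. the fibre over `a` is the
  image of the fibre over `1` under `a • ·`), and `f` is constant on it. Finset.sum_fiberwise. (Alternative: both sides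
  are `(1/card (G ⧸ N')) ∑ over c' of f`, using Subgroup.quotientEquivProdOfLE:
  `G ⧸ N' ≃ (G ⧸ N) × (N ⧸ N'.subgroupOf N)`.)
* ex_conv: if two functions agree then the expectations agree: `congrArg`.
-/
import Pool.Agent.H42.ES.GBa

set_option autoImplicit false

namespace Pool.Agent.H42.ES

open scoped Classical

variable {G Ω : Type} [Group G] [MulAction G Ω] {F : Ω → Ω} {d : ℕ} {O : ℕ → Set Ω}

theorem gbb_out {t : ℕ} {f : G → ℝ} (hf : Inv O t f) (g : G) :
    f ((g : G ⧸ ker G O t)).out = f g := by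
  obtain ⟨h, hh⟩ := QuotientGroup.mk_out_eq_mul (ker G O t) g
  rw [hh]
  exact hf g h.1 h.2

theorem inv_mono (hT : ITree G F d O) {s t : ℕ} (h : s ≤ t) {f : G → ℝ} (hf : Inv O s f) :
    Inv O t f := by
  intro g k hk
  exact hf g k (ker_anti hT h hk)

theorem ex_left (hT : ITree G F d O) {t : ℕ} {f : G → ℝ} (hf : Inv O t f) (a : G) :
    Ex O t (fun g => f (a * g)) = Ex O t f := by
  unfold Ex
  congr 1
  symm
  rw [← finsum_comp_equiv (MulAction.toPerm a : Equiv.Perm (G ⧸ ker G O t))]
  refine finsum_congr fun c => ?_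
  have h1 : (MulAction.toPerm a : Equiv.Perm (G ⧸ ker G O t)) c =
      ((a * c.out : G) : G ⧸ ker G O t) := by
    have h2 : c = ((c.out : G) : G ⧸ ker G O t) := (QuotientGroup.out_eq' c).symm
    conv_lhs => rw [h2]
    rfl
  rw [h1, gbb_out hf]

theorem ex_right (hT : ITree G F d O) {t : ℕ} {f : G → ℝ} (hf : Inv O t f) (a : G) :
    Ex O t (fun g => f (g * a)) = Ex O t f := by
  have hN : (ker G O t).Normal := ker_normal hT t
  unfold Ex
  congr 1
  symm
  rw [← finsum_comp_equiv (Equiv.mulRight (a : G ⧸ ker G O t))]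
  refine finsum_congr fun c => ?_
  have h1 : (Equiv.mulRight (a : G ⧸ ker G O t)) c = ((c.out * a : G) : G ⧸ ker G O t) := by
    have h2 : c = ((c.out : G) : G ⧸ ker G O t) := (QuotientGroup.out_eq' c).symm
    conv_lhs => rw [h2]
    rfl
  rw [h1, gbb_out hf]

theorem ex_conj (hT : ITree G F d O) {t : ℕ} {f : G → ℝ} (hf : Inv O t f) (a : G) :
    Ex O t (fun g => f (a * g * a⁻¹)) = Ex O t f := by
  have hN : (ker G O t).Normal := ker_normal hT t
  have h1 : Inv O t (fun g => f (g * a⁻¹)) := by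
    intro g h hh
    show f (g * h * a⁻¹) = f (g * a⁻¹)
    have h2 : g * h * a⁻¹ = g * a⁻¹ * (a * h * a⁻¹) := by group
    rw [h2]
    exact hf _ _ (hN.conj_mem h hh a)
  rw [ex_left hT h1 a, ex_right hT hf a⁻¹]

theorem ex_level (hT : ITree G F d O) {t t' : ℕ} (h : t ≤ t') {f : G → ℝ} (hf : Inv O t f) :
    Ex O t' f = Ex O t f := by
  have hle : ker G O t' ≤ ker G O t := ker_anti hT h
  have hf' : Inv O t' f := inv_mono hT h hf
  have i1 : (ker G O t).FiniteIndex := ker_fi hT t
  have i2 : (ker G O t').FiniteIndex := ker_fi hT t'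
  have f1 : Finite (G ⧸ ker G O t) := Subgroup.finite_quotient_of_finiteIndex
  have f2 : Finite (G ⧸ ker G O t') := Subgroup.finite_quotient_of_finiteIndex
  obtain ⟨e, he⟩ : ∃ e : (G ⧸ ker G O t') ≃
      (G ⧸ ker G O t) × (ker G O t ⧸ (ker G O t').subgroupOf (ker G O t)),
      ∀ g : G, (e (g : G ⧸ ker G O t')).1 = (g : G ⧸ ker G O t) :=
    ⟨Subgroup.quotientEquivProdOfLE hle, fun g => rfl⟩
  have f3 : Finite (ker G O t ⧸ (ker G O t').subgroupOf (ker G O t)) :=
    Subgroup.finite_quotient_of_finiteIndex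
  have g1 := Fintype.ofFinite (G ⧸ ker G O t)
  have g3 := Fintype.ofFinite (ker G O t ⧸ (ker G O t').subgroupOf (ker G O t))
  have hcard : Nat.card (G ⧸ ker G O t') = Nat.card (G ⧸ ker G O t) *
      Nat.card (ker G O t ⧸ (ker G O t').subgroupOf (ker G O t)) := by
    rw [Nat.card_congr e, Nat.card_prod]
  have hB : (Nat.card (ker G O t ⧸ (ker G O t').subgroupOf (ker G O t)) : ℝ) ≠ 0 := by
    have := Nat.card_pos (α := ker G O t ⧸ (ker G O t').subgroupOf (ker G O t))
    positivity
  have hA : (Nat.card (G ⧸ ker G O t) : ℝ) ≠ 0 := by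
    have := Nat.card_pos (α := G ⧸ ker G O t)
    positivity
  have hsum : (∑ᶠ c : G ⧸ ker G O t', f c.out) =
      (Nat.card (ker G O t ⧸ (ker G O t').subgroupOf (ker G O t)) : ℝ) *
        ∑ᶠ c : G ⧸ ker G O t, f c.out := by
    rw [← finsum_comp_equiv e.symm]
    have h3 : ∀ p : (G ⧸ ker G O t) × (ker G O t ⧸ (ker G O t').subgroupOf (ker G O t)),
        f (e.symm p).out = f p.1.out := by
      intro p
      have h4 : p.1 = ((e.symm p).out : G ⧸ ker G O t) := by
        rw [← he (e.symm p).out]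
        rw [QuotientGroup.out_eq' (e.symm p), Equiv.apply_symm_apply]
      rw [h4, gbb_out hf]
    rw [finsum_congr h3, finsum_eq_sum_of_fintype, finsum_eq_sum_of_fintype,
      Fintype.sum_prod_type, Finset.mul_sum]
    refine Finset.sum_congr rfl fun c _ => ?_
    show ∑ _y : ker G O t ⧸ (ker G O t').subgroupOf (ker G O t), f c.out = _
    rw [Finset.sum_const, Finset.card_univ, nsmul_eq_mul, Nat.card_eq_fintype_card]
  unfold Ex
  rw [hsum, hcard]
  push_cast
  field_simp

end Pool.Agent.H42.ES
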