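/-
ROW GCa. Probabilities. Let `N = ker G O t`. PROOFS.
* ex_coset: `H ≥ N`. By ex_left (row GBb; the function `g ↦ ind (g ∈ H)` is `Inv O t`, since `N ≤ H`) the left side is
  `Ex O t (fun g => ind (g ∈ H)) = #{c : G ⧸ N | c.out ∈ H} / card (G ⧸ N)`; these `c` are the image of `H`
  in `G ⧸ N`, there are `N.relIndex H` of them, and `N.relIndex H * H.index = N.index` (Subgroup.relIndex_mul_index).
  (`H.index ≠ 0` since `N.index ≠ 0`.)
* ex_move: choose `a` with `a • x = y` (hT.trans). `g • x = y ↔ a⁻¹ * g ∈ MulAction.stabilizer G x`, which contains `N`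
  (`ker_anti`, row GAb). Its index is the cardinality of the orbit of `x`, which is `O s` (hT.trans, hT.inv;
  MulAction.index_stabilizer).
* ex_pair: `{h | h • w = w ∧ h • v = v}` is the subgroup `stabilizer w ⊓ stabilizer v`, of index
  `(stabilizer w).index * (stabilizer v).relIndex (stabilizer w)`; the first factor is `(O l).ncard` and the second
  is the cardinality of the orbit of `v` under `stabilizer w` (MulAction.index_stabilizer for the group
  `stabilizer G w`, as in LBc_index of Pool/Agent/H42/RM/LBc.lean). ex_coset with `a = 1`.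
* ex_avg: `φ (γ • x) = ∑ᶠ y ∈ O s, ind (γ • x = y) * φ y` (finite sum, `γ • x ∈ O s` by hT.inv); ex_sum, ex_smul
  (row GBa) and ex_move.
* ex_fx: `(fx O s g).ncard = ∑ x ∈ (O s).toFinset, ind (g • x = x)`; ex_sum and ex_move with `y = x`; the sum has
  `(O s).ncard` terms `1 / (O s).ncard`.
-/
import Pool.Agent.H42.ES.GBb

set_option autoImplicit false

namespace Pool.Agent.H42.ES

open scoped Classical

variable {G Ω : Type} [Group G] [MulAction G Ω] {F : Ω → Ω} {d : ℕ} {O : ℕ → Set Ω}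

private theorem gca_ind_sum {H : Subgroup G} [Fintype (G ⧸ H)] (g : G) :
    ∑ a : G ⧸ H, ind (a.out⁻¹ * g ∈ H) = 1 := by
  have h1 : ∀ a : G ⧸ H, (a.out⁻¹ * g ∈ H ↔ a = (g : G ⧸ H)) := by
    intro a
    rw [← QuotientGroup.eq, QuotientGroup.out_eq']
  rw [Finset.sum_eq_single (g : G ⧸ H)]
  · unfold ind
    rw [if_pos ((h1 _).2 rfl)]
  · intro b _ hb
    unfold ind
    rw [if_neg (fun h => hb ((h1 b).1 h))]
  · intro h
    exact absurd (Finset.mem_univ _) h

theorem ex_coset (hT : ITree G F d O) {t : ℕ} {H : Subgroup G} (hH : ker G O t ≤ H) (a : G) :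
    Ex O t (fun g => ind (a⁻¹ * g ∈ H)) = 1 / (H.index : ℝ) := by
  haveI := ker_fi hT t
  haveI hfi : H.FiniteIndex := Subgroup.finiteIndex_of_le hH
  haveI : Fintype (G ⧸ H) := Fintype.ofFinite _
  have hinv : Inv O t (fun g : G => ind (g ∈ H)) := by
    intro g h hh
    have : (g * h ∈ H ↔ g ∈ H) := H.mul_mem_cancel_right (hH hh)
    show ind (g * h ∈ H) = ind (g ∈ H)
    rw [this]
  have hl : ∀ b : G, Ex O t (fun g => ind (b⁻¹ * g ∈ H)) = Ex O t (fun g : G => ind (g ∈ H)) :=
    fun b => ex_left hT hinv b⁻¹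
  have h1 : Ex O t (fun g : G => ∑ a : G ⧸ H, ind (a.out⁻¹ * g ∈ H)) = 1 := by
    have : (fun g : G => ∑ a : G ⧸ H, ind (a.out⁻¹ * g ∈ H)) = fun _ => (1 : ℝ) := by
      funext g
      exact gca_ind_sum g
    rw [this]
    exact ex_const hT t 1
  rw [ex_sum hT t Finset.univ (fun (a : G ⧸ H) (g : G) => ind (a.out⁻¹ * g ∈ H))] at h1
  rw [Finset.sum_congr rfl (fun (b : G ⧸ H) _ => hl b.out), Finset.sum_const, Finset.card_univ,
    nsmul_eq_mul] at h1
  rw [hl a]
  have h2 : (H.index : ℝ) = (Fintype.card (G ⧸ H) : ℝ) := by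
    rw [Subgroup.index, Nat.card_eq_fintype_card]
  rw [h2]
  have h3 : (Fintype.card (G ⧸ H) : ℝ) ≠ 0 := by
    intro h0
    rw [h0, zero_mul] at h1
    exact zero_ne_one h1
  field_simp
  linarith

private theorem gca_orbit (hT : ITree G F d O) {s : ℕ} {x : Ω} (hx : x ∈ O s) :
    MulAction.orbit G x = O s := by
  ext y
  constructor
  · rintro ⟨g, rfl⟩
    exact hT.inv s g x hx
  · intro hy
    obtain ⟨g, hg⟩ := hT.trans s x hx y hy
    exact ⟨g, hg⟩

private theorem gca_index (hT : ITree G F d O) {s : ℕ} {x : Ω} (hx : x ∈ O s) :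
    (MulAction.stabilizer G x).index = (O s).ncard := by
  rw [MulAction.index_stabilizer, gca_orbit hT hx]

private theorem gca_ker_le (hT : ITree G F d O) {s t : ℕ} (hs : s ≤ t) {x : Ω} (hx : x ∈ O s) :
    ker G O t ≤ MulAction.stabilizer G x := by
  intro g hg
  exact (ker_anti hT hs hg) x hx

theorem ex_move (hT : ITree G F d O) {s t : ℕ} (hs : s ≤ t) {x y : Ω} (hx : x ∈ O s)
    (hy : y ∈ O s) : Ex O t (fun g : G => ind (g • x = y)) = 1 / ((O s).ncard : ℝ) := by
  obtain ⟨a, ha⟩ := hT.trans s x hx y hy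
  have h1 : (fun g : G => ind (g • x = y)) =
      fun g : G => ind (a⁻¹ * g ∈ MulAction.stabilizer G x) := by
    funext g
    have : (g • x = y ↔ a⁻¹ * g ∈ MulAction.stabilizer G x) := by
      rw [MulAction.mem_stabilizer_iff, mul_smul, inv_smul_eq_iff, ha]
    rw [this]
  rw [h1, ex_coset hT (gca_ker_le hT hs hx) a, gca_index hT hx]

theorem ex_pair (hT : ITree G F d O) {l s t : ℕ} (hl : l ≤ t) (hs : s ≤ t) {w v : Ω}
    (hw : w ∈ O l) (hv : v ∈ O s) :
    ((O l).ncard : ℝ) * Ex O t (fun h : G => ind (h • w = w ∧ h • v = v)) =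
      1 / ((MulAction.orbit (MulAction.stabilizer G w) v).ncard : ℝ) := by
  have h1 : (fun h : G => ind (h • w = w ∧ h • v = v)) =
      fun h : G => ind ((1 : G)⁻¹ * h ∈ MulAction.stabilizer G w ⊓ MulAction.stabilizer G v) := by
    funext h
    rw [inv_one, one_mul, Subgroup.mem_inf, MulAction.mem_stabilizer_iff,
      MulAction.mem_stabilizer_iff]
  rw [h1, ex_coset hT (le_inf (gca_ker_le hT hl hw) (gca_ker_le hT hs hv)) 1]
  have h2 : (MulAction.stabilizer G w ⊓ MulAction.stabilizer G v).index =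
      (MulAction.orbit (MulAction.stabilizer G w) v).ncard * (O l).ncard := by
    rw [← Subgroup.relIndex_mul_index (inf_le_left :
      MulAction.stabilizer G w ⊓ MulAction.stabilizer G v ≤ MulAction.stabilizer G w),
      gca_index hT hw, Subgroup.inf_relIndex_left, Subgroup.relIndex]
    congr 1
    rw [← MulAction.index_stabilizer]
    congr 1
  have h3 : ((O l).ncard : ℝ) ≠ 0 := by
    have := (Set.ncard_pos (o_fin hT l)).2 ⟨w, hw⟩
    exact_mod_cast this.ne'
  rw [h2]
  push_cast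
  rw [one_div, mul_inv, one_div]
  field_simp

theorem ex_avg (hT : ITree G F d O) {s t : ℕ} (hs : s ≤ t) {x : Ω} (hx : x ∈ O s) (φ : Ω → ℝ) :
    Ex O t (fun γ : G => φ (γ • x)) = (∑ᶠ y ∈ O s, φ y) / ((O s).ncard : ℝ) := by
  have h1 : (fun γ : G => φ (γ • x)) =
      fun γ : G => ∑ y ∈ (o_fin hT s).toFinset, φ y * ind (γ • x = y) := by
    funext γ
    rw [Finset.sum_eq_single (γ • x)]
    · unfold ind
      rw [if_pos rfl, mul_one]
    · intro b _ hb
      unfold ind
      rw [if_neg (fun h => hb h.symm), mul_zero]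
    · intro h
      exact absurd ((o_fin hT s).mem_toFinset.2 (hT.inv s γ x hx)) h
  rw [h1, ex_sum hT t (o_fin hT s).toFinset (fun (y : Ω) (γ : G) => φ y * ind (γ • x = y))]
  rw [finsum_mem_eq_finite_toFinset_sum _ (o_fin hT s), Finset.sum_div]
  refine Finset.sum_congr rfl fun y hy => ?_
  rw [ex_smul hT t (φ y), ex_move hT hs hx ((o_fin hT s).mem_toFinset.1 hy), mul_one_div]

theorem ex_fx (hT : ITree G F d O) {s t : ℕ} (hs : s ≤ t) :
    Ex O t (fun g : G => ((fx O s g).ncard : ℝ)) = 1 := by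
  have h1 : (fun g : G => ((fx O s g).ncard : ℝ)) =
      fun g : G => ∑ x ∈ (o_fin hT s).toFinset, ind (g • x = x) := by
    funext g
    have h2 : fx O s g = (↑((o_fin hT s).toFinset.filter fun x => g • x = x) : Set Ω) := by
      ext x
      simp only [fx, Set.mem_setOf_eq, Finset.coe_filter, Set.Finite.mem_toFinset]
    rw [h2, Set.ncard_coe_finset, Finset.card_filter]
    push_cast
    rfl
  rw [h1, ex_sum hT t (o_fin hT s).toFinset (fun (x : Ω) (g : G) => ind (g • x = x))]
  rw [Finset.sum_congr rfl (fun x hx => ex_move hT hs ((o_fin hT s).mem_toFinset.1 hx)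
    ((o_fin hT s).mem_toFinset.1 hx)), Finset.sum_const, nsmul_eq_mul,
    ← Set.ncard_eq_toFinset_card _ (o_fin hT s)]
  have h3 : ((O s).ncard : ℝ) ≠ 0 := by
    have := (Set.ncard_pos (o_fin hT s)).2 (o_ne hT s)
    exact_mod_cast this.ne'
  field_simp

end Pool.Agent.H42.ES
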