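/-
ROW GFc. The far companions. `Far` is a finite set: its elements `(s, v)` satisfy `s < t`, `v ∈ O s` (o_fin, row GAa).
PROOF of far_fin: subset of `⋃ s < t, {s} ×ˢ O s`.
PROOF of m_far: `ind (g • γ • w = γ • w ∧ ∃ p ∈ Far, g • γ • p.2 = γ • p.2) ≤ ∑ p ∈ Far, ind (g • γ • w = γ • w ∧ g • γ • p.2 = γ • p.2)`.
ex_mono, ex_sum (row GBa). For fixed `γ` and `p = (s, v)` the function `f h = ind (h • w = w ∧ h • v = v)` is `Inv O t` and
`g • γ • w = γ • w ↔ (γ⁻¹ g γ) • w = w`, so `Ex (fun g => ind (..)) = Ex (fun g => f (γ⁻¹ * g * (γ⁻¹)⁻¹)) = Ex f` (ex_conj, row GBb);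
then ex_const for the outer expectation, and `(O l).ncard * Ex f = 1 / (orbit ..).ncard` (ex_pair, row GCa). Sum over `p`:
this is `fsum` (finsum_mem_eq_finite_toFinset_sum).
-/
import Pool.Agent.H42.ES.GCa

set_option autoImplicit false

namespace Pool.Agent.H42.ES

open scoped Classical

variable {G Ω : Type} [Group G] [MulAction G Ω] {F : Ω → Ω} {d : ℕ} {O : ℕ → Set Ω}

theorem far_fin (hT : ITree G F d O) (T0 t l J0 : ℕ) (D : G) (w : Ω) :
    (Far F O T0 t l J0 D w).Finite := by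
  have h : (⋃ s ∈ Set.Iio t, ({s} : Set ℕ) ×ˢ O s).Finite :=
    (Set.finite_Iio t).biUnion fun s _ => (Set.finite_singleton s).prod (o_fin hT s)
  refine h.subset ?_
  intro p hp
  obtain ⟨_, h2, h3, _⟩ := hp
  simp only [Set.mem_iUnion]
  exact ⟨p.1, h2, Set.mem_prod.2 ⟨rfl, h3⟩⟩

private lemma GFc_ind_nonneg (p : Prop) : 0 ≤ ind p := by
  unfold ind
  split_ifs <;> norm_num

private lemma GFc_ind_congr {p q : Prop} (h : p ↔ q) : ind p = ind q := by
  unfold ind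
  simp only [h]

theorem m_far (hT : ITree G F d O) {T0 l t J0 : ℕ} (hl : l ≤ t) {w : Ω} (hw : w ∈ O l) (D : G) :
    ((O l).ncard : ℝ) * Ex O t (fun γ : G => Ex O t (fun g : G =>
      ind (g • (γ • w) = γ • w ∧ ∃ p ∈ Far F O T0 t l J0 D w, g • (γ • p.2) = γ • p.2))) ≤
    fsum F O T0 t l J0 D w := by
  have hfin := far_fin hT T0 t l J0 D w
  set S : Finset (ℕ × Ω) := hfin.toFinset with hS
  have hmem : ∀ p, p ∈ S ↔ p ∈ Far F O T0 t l J0 D w := fun p => hfin.mem_toFinset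
  -- pointwise bound
  have h1 : ∀ γ g : G,
      ind (g • (γ • w) = γ • w ∧ ∃ p ∈ Far F O T0 t l J0 D w, g • (γ • p.2) = γ • p.2) ≤
      ∑ p ∈ S, ind (g • (γ • w) = γ • w ∧ g • (γ • p.2) = γ • p.2) := by
    intro γ g
    by_cases h : g • (γ • w) = γ • w ∧ ∃ p ∈ Far F O T0 t l J0 D w, g • (γ • p.2) = γ • p.2
    · obtain ⟨ha, p, hp, hb⟩ := h
      have e1 : ind (g • (γ • w) = γ • w ∧
          ∃ p ∈ Far F O T0 t l J0 D w, g • (γ • p.2) = γ • p.2) = 1 := by
        unfold ind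
        rw [if_pos ⟨ha, p, hp, hb⟩]
      have e2 : ind (g • (γ • w) = γ • w ∧ g • (γ • p.2) = γ • p.2) = 1 := by
        unfold ind
        rw [if_pos ⟨ha, hb⟩]
      rw [e1, ← e2]
      exact Finset.single_le_sum
        (f := fun p : ℕ × Ω => ind (g • (γ • w) = γ • w ∧ g • (γ • p.2) = γ • p.2))
        (fun q _ => GFc_ind_nonneg _) ((hmem p).2 hp)
    · have e1 : ind (g • (γ • w) = γ • w ∧
          ∃ p ∈ Far F O T0 t l J0 D w, g • (γ • p.2) = γ • p.2) = 0 := by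
        unfold ind
        rw [if_neg h]
      rw [e1]
      exact Finset.sum_nonneg fun q _ => GFc_ind_nonneg _
  -- the inner expectation does not depend on `γ`
  have h2 : ∀ γ : G, ∀ p ∈ S,
      Ex O t (fun g : G => ind (g • (γ • w) = γ • w ∧ g • (γ • p.2) = γ • p.2)) =
      Ex O t (fun h : G => ind (h • w = w ∧ h • p.2 = p.2)) := by
    intro γ p hp
    obtain ⟨_, hp2, hp3, _⟩ := (hmem p).1 hp
    have hinv : Inv O t (fun h : G => ind (h • w = w ∧ h • p.2 = p.2)) := by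
      have hk : ∀ {s : ℕ}, s ≤ t → ∀ x ∈ O s, ∀ h ∈ ker G O t, h • x = x := by
        intro s hs x hx h hh
        obtain ⟨z, hz, hzx⟩ := o_ex hT s (t - s) hx
        have e : s + (t - s) = t := by omega
        rw [e] at hz
        rw [← hzx, ← it_smul hT, hh z hz]
      intro g h hh
      refine GFc_ind_congr ?_
      rw [mul_smul, mul_smul, hk hl w hw h hh, hk hp2.le p.2 hp3 h hh]
    rw [← ex_conj hT hinv γ⁻¹]
    congr 1
    funext g
    refine GFc_ind_congr ?_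
    have e : ∀ x : Ω, g • (γ • x) = γ • x ↔ (γ⁻¹ * g * γ⁻¹⁻¹) • x = x := by
      intro x
      rw [inv_inv, mul_smul, mul_smul, inv_smul_eq_iff]
    rw [e w, e p.2]
  have h3 : ∀ γ : G, Ex O t (fun g : G =>
      ind (g • (γ • w) = γ • w ∧ ∃ p ∈ Far F O T0 t l J0 D w, g • (γ • p.2) = γ • p.2)) ≤
      ∑ p ∈ S, Ex O t (fun h : G => ind (h • w = w ∧ h • p.2 = p.2)) := by
    intro γ
    refine (ex_mono hT t (h1 γ)).trans (le_of_eq ?_)
    rw [ex_sum hT t S (fun p g => ind (g • (γ • w) = γ • w ∧ g • (γ • p.2) = γ • p.2))]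
    exact Finset.sum_congr rfl (h2 γ)
  have h4 : Ex O t (fun γ : G => Ex O t (fun g : G =>
      ind (g • (γ • w) = γ • w ∧ ∃ p ∈ Far F O T0 t l J0 D w, g • (γ • p.2) = γ • p.2))) ≤
      ∑ p ∈ S, Ex O t (fun h : G => ind (h • w = w ∧ h • p.2 = p.2)) := by
    refine (ex_mono hT t h3).trans (le_of_eq ?_)
    exact ex_const hT t _
  refine (mul_le_mul_of_nonneg_left h4 (Nat.cast_nonneg _)).trans (le_of_eq ?_)
  unfold fsum
  rw [finsum_mem_eq_finite_toFinset_sum _ hfin, Finset.mul_sum]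
  refine Finset.sum_congr rfl fun p hp => ?_
  obtain ⟨_, hp2, hp3, _⟩ := (hmem p).1 hp
  exact ex_pair hT hl hp2.le hw hp3

end Pool.Agent.H42.ES
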