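/-
ROW GDa. Points which are alive (pointwise facts). All sets are finite: subsets of some `O s` (o_fin, row GAa).
PROOFS.
* al_fx: `x = F^[t-s] z`, `z ∈ O t`, `g • z = z`: `x ∈ O s` (o_up, `t = s + (t-s)`), `g • x = x` (it_smul).
* al_step: if `x` (level `s'`) is alive at `t` then `F^[s'-s] x` is alive at `t` (same `z`, iterate_add_apply); and if `y`
  (level `s`) is alive at `t` then `y = F^[s'-s] x` with `x = F^[t-s'] z` alive at `t`.
* al_time: `s ≤ t ≤ t'`: alive at `t'` implies alive at `t` (`F^[t'-t] z` is fixed, of level `t`).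
* nal_left: `F^[s'-s]` maps the set of level `s'` onto the set of level `s` (al_step): Set.ncard_image_le.
* nal_time: al_time and Set.ncard_le_ncard. nal_le_fx: al_fx and Set.ncard_le_ncard. nal_self: for `s = t` alive
  means fixed (`F^[0] z = z`).
* naly_sum: partition of the set of `nal` according to `y = F^[s-r] x`, which lies in `fx O r g` (al_step,
  al_fx). Finset.card_eq_sum_card_fiberwise; the `finsum` over `y ∈ fx O r g` as a Finset sum
  (finsum_mem_eq_finite_toFinset_sum).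
* naly_ge: if `y` is alive at `t` then some `x` of level `s` above `y` is alive (al_step), so `1 ≤ naly`; `0 ≤ naly`.
* naly_zero: if `y` is not alive then the set is empty.
-/
import Pool.Agent.H42.ES.GAb

set_option autoImplicit false

namespace Pool.Agent.H42.ES

open scoped Classical

variable {G Ω : Type} [Group G] [MulAction G Ω] {F : Ω → Ω} {d : ℕ} {O : ℕ → Set Ω}

theorem GDa_part {α β : Type} {S : Set α} {T : Set β} (hS : S.Finite) (hTf : T.Finite) (f : α → β)
    (hf : ∀ x ∈ S, f x ∈ T) :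
    (S.ncard : ℝ) = ∑ᶠ y ∈ T, ({x | x ∈ S ∧ f x = y}.ncard : ℝ) := by
  rw [finsum_mem_eq_finite_toFinset_sum _ hTf, Set.ncard_eq_toFinset_card _ hS,
    Finset.card_eq_sum_card_fiberwise (f := f) (t := hTf.toFinset)]
  · rw [Nat.cast_sum]
    refine Finset.sum_congr rfl fun y _ => ?_
    rw [← Set.ncard_coe_finset]
    congr 2
    ext x
    rw [Finset.mem_coe, Finset.mem_filter, Set.Finite.mem_toFinset]
    rfl
  · intro x hx
    exact hTf.mem_toFinset.2 (hf x (hS.mem_toFinset.1 hx))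

theorem al_fx (hT : ITree G F d O) {s t : ℕ} (hs : s ≤ t) {g : G} {x : Ω} (h : al F O s t g x) :
    x ∈ fx O s g := by
  obtain ⟨z, ⟨hz1, hz2⟩, rfl⟩ := h
  refine ⟨?_, ?_⟩
  · rw [← o_up hT s (t - s) z, Nat.add_sub_cancel' hs]
    exact hz1
  · rw [← it_smul hT, hz2]

theorem al_down (hT : ITree G F d O) {s s' t : ℕ} (h1 : s ≤ s') (h2 : s' ≤ t) {g : G} {x : Ω}
    (h : al F O s' t g x) : al F O s t g (F^[s' - s] x) := by
  obtain ⟨z, hz, rfl⟩ := h
  refine ⟨z, hz, ?_⟩
  rw [← Function.iterate_add_apply]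
  congr 2
  omega

theorem al_lift (hT : ITree G F d O) {s s' t : ℕ} (h1 : s ≤ s') (h2 : s' ≤ t) {g : G} {y : Ω}
    (h : al F O s t g y) : ∃ x, al F O s' t g x ∧ F^[s' - s] x = y := by
  obtain ⟨z, hz, rfl⟩ := h
  refine ⟨F^[t - s'] z, ⟨z, hz, rfl⟩, ?_⟩
  rw [← Function.iterate_add_apply]
  congr 2
  omega

theorem al_time (hT : ITree G F d O) {s t t' : ℕ} (h1 : s ≤ t) (h2 : t ≤ t') {g : G} {x : Ω}
    (h : al F O s t' g x) : al F O s t g x := by
  obtain ⟨z, ⟨hz1, hz2⟩, rfl⟩ := h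
  refine ⟨F^[t' - t] z, ⟨?_, ?_⟩, ?_⟩
  · rw [← o_up hT t (t' - t) z, Nat.add_sub_cancel' h2]
    exact hz1
  · rw [← it_smul hT, hz2]
  · rw [← Function.iterate_add_apply]
    congr 2
    omega

theorem GDa_fxfin (hT : ITree G F d O) (s : ℕ) (g : G) : (fx O s g).Finite :=
  (o_fin hT s).subset fun _ hx => hx.1

theorem al_fin (hT : ITree G F d O) {s t : ℕ} (hs : s ≤ t) (g : G) :
    {x | al F O s t g x}.Finite :=
  (GDa_fxfin hT s g).subset fun _ hx => al_fx hT hs hx

theorem nal_left (hT : ITree G F d O) {s s' t : ℕ} (h1 : s ≤ s') (h2 : s' ≤ t) (g : G) :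
    nal F O s t g ≤ nal F O s' t g := by
  have hf := al_fin hT h2 g
  have hsub : {x | al F O s t g x} ⊆ (F^[s' - s]) '' {x | al F O s' t g x} := by
    intro y hy
    obtain ⟨x, hx, hxy⟩ := al_lift hT h1 h2 hy
    exact ⟨x, hx, hxy⟩
  have h3 : {x | al F O s t g x}.ncard ≤ ((F^[s' - s]) '' {x | al F O s' t g x}).ncard :=
    Set.ncard_le_ncard hsub (hf.image _)
  have h4 : ((F^[s' - s]) '' {x | al F O s' t g x}).ncard ≤ {x | al F O s' t g x}.ncard :=
    Set.ncard_image_le hf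
  unfold nal
  exact_mod_cast h3.trans h4

theorem nal_time (hT : ITree G F d O) {s t t' : ℕ} (h1 : s ≤ t) (h2 : t ≤ t') (g : G) :
    nal F O s t' g ≤ nal F O s t g := by
  have h3 : {x | al F O s t' g x}.ncard ≤ {x | al F O s t g x}.ncard :=
    Set.ncard_le_ncard (fun x hx => al_time hT h1 h2 hx) (al_fin hT h1 g)
  unfold nal
  exact_mod_cast h3

theorem nal_le_fx (hT : ITree G F d O) {s t : ℕ} (hs : s ≤ t) (g : G) :
    nal F O s t g ≤ ((fx O s g).ncard : ℝ) := by
  have h3 : {x | al F O s t g x}.ncard ≤ (fx O s g).ncard :=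
    Set.ncard_le_ncard (fun x hx => al_fx hT hs hx) (GDa_fxfin hT s g)
  unfold nal
  exact_mod_cast h3

theorem naly_sum (hT : ITree G F d O) {r s t : ℕ} (h1 : r ≤ s) (h2 : s ≤ t) (g : G) :
    nal F O s t g = ∑ᶠ y ∈ fx O r g, naly F O r s t y g :=
  GDa_part (al_fin hT h2 g) (GDa_fxfin hT r g) (F^[s - r])
    fun _ hx => al_fx hT (h1.trans h2) (al_down hT h1 h2 hx)

theorem nal_sum (hT : ITree G F d O) {r t : ℕ} (h1 : r ≤ t) (g : G) :
    nal F O r t g = ∑ᶠ y ∈ fx O r g, ind (al F O r t g y) := by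
  rw [naly_sum hT le_rfl h1 g]
  refine finsum_congr fun y => finsum_congr fun _ => ?_
  unfold naly ind
  rw [Nat.sub_self]
  by_cases h : al F O r t g y
  · rw [if_pos h]
    have hs : {x | al F O r t g x ∧ F^[0] x = y} = {y} := by
      ext x
      constructor
      · exact fun hx => hx.2
      · intro hx
        have hx' : x = y := hx
        rw [hx']
        exact ⟨h, rfl⟩
    rw [hs, Set.ncard_singleton, Nat.cast_one]
  · rw [if_neg h]
    have hs : {x | al F O r t g x ∧ F^[0] x = y} = ∅ := by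
      ext x
      constructor
      · rintro ⟨hx1, hx2⟩
        have hx' : x = y := hx2
        rw [hx'] at hx1
        exact h hx1
      · exact fun hx => hx.elim
    rw [hs, Set.ncard_empty, Nat.cast_zero]

theorem naly_ge (hT : ITree G F d O) {r s t : ℕ} (h1 : r ≤ s) (h2 : s ≤ t) (g : G) (y : Ω) :
    ind (al F O r t g y) ≤ naly F O r s t y g := by
  unfold ind
  by_cases h : al F O r t g y
  · rw [if_pos h]
    obtain ⟨x, hx1, hx2⟩ := al_lift hT h1 h2 h
    have hfin : {x | al F O s t g x ∧ F^[s - r] x = y}.Finite :=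
      (al_fin hT h2 g).subset fun _ hx => hx.1
    have hpos : 0 < {x | al F O s t g x ∧ F^[s - r] x = y}.ncard :=
      (Set.ncard_pos hfin).2 ⟨x, hx1, hx2⟩
    unfold naly
    exact_mod_cast hpos
  · rw [if_neg h]
    unfold naly
    exact Nat.cast_nonneg _

theorem nfy_sum (hT : ITree G F d O) {r s : ℕ} (h1 : r ≤ s) (g : G) :
    ((fx O s g).ncard : ℝ) = ∑ᶠ y ∈ fx O r g, nfy F O r s y g := by
  refine GDa_part (GDa_fxfin hT s g) (GDa_fxfin hT r g) (F^[s - r]) fun x hx => ?_
  obtain ⟨hx1, hx2⟩ := hx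
  refine ⟨?_, ?_⟩
  · rw [← o_up hT r (s - r) x, Nat.add_sub_cancel' h1]
    exact hx1
  · rw [← it_smul hT, hx2]

end Pool.Agent.H42.ES
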