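/-
ROW GFa. The core of the argument (pointwise). Write `η = γ * D * γ⁻¹`, `u = γ • w`, `x' = γ • x`, `y = γ • F^[l-T0] w =
F^[l-T0] u` (it_smul), `T0 ≤ l`, `l + 1 ≤ t`. PROOF. `η` fixes every `z ∈ O l` (`γ⁻¹ • z ∈ O l`, hD), hence every point of
level `≤ l`; `η • x' = γ • (D • x) ≠ x'`. `g • u = u` (`u = F x'`, it_smul with `n = 1`).
Suppose `(g η, y)` is not bad. `x'` is alive for `g`, so `y = F^[l+1-T0] x'` is alive at `t` for `g` (al_down, row GDa).
1. `u` is fixed by `g η` (`g • (η • u) = g • u = u`), of level `l`, so `al F O T0 l (g*η) y`; by (not bad) `y` is alive at `t` for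
   `g η`: there is `ζ ∈ O t`, `(g η) • ζ = ζ`, `F^[t-T0] ζ = y`.
2. Claim: `η • ζ = ζ`. Suppose not. Let `ζ_s = F^[t-s] ζ` (level `s`). `η` fixes `ζ_l`; so there is `s` with `l ≤ s < t`, `η • ζ_s = ζ_s`,
   `η • ζ_(s+1) ≠ ζ_(s+1)` (largest `s` with `η • ζ_s = ζ_s`, or induction). `g η` fixes `ζ_s` and `ζ_(s+1)`. So
   `g • ζ_s = g • (η • ζ_s) = ζ_s`. Let `v = γ⁻¹ • ζ_s`. Then `v ∈ O s`, `D • v = v`, `D` moves the child `γ⁻¹ • ζ_(s+1)` of
   `v`, `F^[s-T0] v = γ⁻¹ • y = F^[l-T0] w`. By hfar (`g • (γ • v) = γ • v`) `(s, v)` is not in `Far`, so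
   `s ≤ l + J0` and `F^[s-(l-J0)] v = F^[J0] w`. The point `ζ' = η • ζ_(s+1)` satisfies `F ζ' = η • ζ_s = ζ_s`, so
   `F^[s+1-(l-J0)] ζ' = F^[s-(l-J0)] (γ • v) = γ • F^[J0] w = F^[J0] u = F^[J0+1] x'` and
   `s + 1 - (l - J0) ≤ 2*J0 + 1`: by htv `g • ζ' = ζ'`. But `g • ζ' = (g η) • ζ_(s+1) = ζ_(s+1) ≠ ζ'`. Contradiction.
3. So `η • ζ = ζ` and `g • ζ = g • η • ζ = ζ`. `x'' = F^[t-(l+1)] ζ` is alive for `g`, `η • x'' = x''`, so `x'' ≠ x'`, and both
   lie above `y`: `naly F O T0 (l+1) t y g ≥ 2`, while hgood says it is `ind (..) ≤ 1`. (The set is finite: al_fin.)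
-/
import Pool.Agent.H42.ES.GDa

set_option autoImplicit false

namespace Pool.Agent.H42.ES

open scoped Classical

variable {G Ω : Type} [Group G] [MulAction G Ω] {F : Ω → Ω} {d : ℕ} {O : ℕ → Set Ω}

theorem core_pt (hT : ITree G F d O) {T0 l t J0 : ℕ} (h0 : T0 ≤ l) (hJ : J0 ≤ l)
    (hlt : l + J0 + 1 ≤ t) {D : G} {w x : Ω} (hD : ∀ z ∈ O l, D • z = z) (hw : w ∈ O l)
    (hx : F x = w) (hmv : D • x ≠ x) {g γ : G} (hal : al F O (l + 1) t g (γ • x))
    (htv : tv F J0 g (γ • x))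
    (hfar : ∀ p ∈ Far F O T0 t l J0 D w, g • (γ • p.2) ≠ γ • p.2)
    (hgood : ¬ badp F O T0 l t g (γ • F^[l - T0] w)) :
    badp F O T0 l t (g * (γ * D * γ⁻¹)) (γ • F^[l - T0] w) := by
  obtain ⟨η, hη⟩ : ∃ η : G, η = γ * D * γ⁻¹ := ⟨_, rfl⟩
  rw [← hη]
  have hηs : ∀ z : Ω, η • z = γ • (D • (γ⁻¹ • z)) := by
    intro z
    rw [hη, mul_smul, mul_smul]
  have hηfix : ∀ z ∈ O l, η • z = z := by
    intro z hz
    rw [hηs, hD _ (hT.inv l γ⁻¹ z hz), smul_inv_smul]
  have hηx : η • (γ • x) ≠ γ • x := by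
    rw [hηs, inv_smul_smul]
    intro h
    exact hmv (MulAction.injective γ h)
  have hDfix : ∀ z : Ω, η • z = z → D • (γ⁻¹ • z) = γ⁻¹ • z := by
    intro z hz
    rw [hηs] at hz
    rw [eq_inv_smul_iff]
    exact hz
  have hxO := al_fx hT (by omega : l + 1 ≤ t) hal
  have hgx : g • (γ • x) = γ • x := hxO.2
  have hFx : F (γ • x) = γ • w := by rw [hT.equiv, hx]
  have hgu : g • (γ • w) = γ • w := by rw [← hFx, ← hT.equiv, hgx]
  have huO : γ • w ∈ O l := hT.inv l γ w hw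
  have hyu : F^[l - T0] (γ • w) = γ • F^[l - T0] w := it_smul hT γ w _
  obtain ⟨y, hy⟩ : ∃ y : Ω, y = γ • F^[l - T0] w := ⟨_, rfl⟩
  rw [← hy] at hyu hgood ⊢
  unfold badp at hgood
  rw [not_not] at hgood
  obtain ⟨hg1, hg2⟩ := hgood
  unfold badp
  rintro ⟨-, hiff⟩
  have hall : al F O T0 l (g * η) y :=
    ⟨γ • w, ⟨huO, by rw [mul_smul, hηfix _ huO, hgu]⟩, hyu⟩
  obtain ⟨ζ, ⟨hζO, hζfix⟩, hζy⟩ := hiff.1 hall
  have hfixn : ∀ n : ℕ, (g * η) • F^[n] ζ = F^[n] ζ := by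
    intro n
    rw [← it_smul hT, hζfix]
  have hclaim : ∀ s : ℕ, l ≤ s → s ≤ t → η • F^[t - s] ζ = F^[t - s] ζ := by
    intro s hs
    induction s, hs using Nat.le_induction with
    | base =>
      intro _
      apply hηfix
      rw [← o_up hT]
      have : l + (t - l) = t := by omega
      rw [this]
      exact hζO
    | succ s hs ih =>
      intro hst
      have ih := ih (by omega)
      obtain ⟨a, ha⟩ : ∃ a : Ω, a = F^[t - (s + 1)] ζ := ⟨_, rfl⟩
      have hFa : F a = F^[t - s] ζ := by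
        have h1 : t - s = (t - (s + 1)) + 1 := by omega
        rw [ha, h1, Function.iterate_succ_apply']
      obtain ⟨b, hb⟩ : ∃ b : Ω, b = F^[t - s] ζ := ⟨_, rfl⟩
      rw [← hb] at ih hFa
      rw [← ha]
      by_contra hmove
      have hga : (g * η) • a = a := by
        rw [ha]
        exact hfixn _
      have hgb : g • b = b := by
        have h1 : (g * η) • b = b := by
          rw [hb]
          exact hfixn _
        rw [mul_smul, ih] at h1
        exact h1
      have hbO : b ∈ O s := by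
        rw [hb, ← o_up hT]
        have : s + (t - s) = t := by omega
        rw [this]
        exact hζO
      have hFb : F^[s - T0] b = y := by
        rw [hb, ← Function.iterate_add_apply]
        have : s - T0 + (t - s) = t - T0 := by omega
        rw [this]
        exact hζy
      have hnotfar : ¬ ((s, γ⁻¹ • b) ∈ Far F O T0 t l J0 D w) := by
        intro hmem
        apply hfar _ hmem
        show g • (γ • (γ⁻¹ • b)) = γ • (γ⁻¹ • b)
        rw [smul_inv_smul]
        exact hgb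
      have hnear : s ≤ l + J0 ∧ F^[s - (l - J0)] (γ⁻¹ • b) = F^[J0] w := by
        by_contra hn
        apply hnotfar
        refine ⟨hs, by omega, hT.inv s γ⁻¹ b hbO, hDfix b ih, ⟨γ⁻¹ • a, ?_, ?_⟩, ?_, hn⟩
        · show F (γ⁻¹ • a) = γ⁻¹ • b
          rw [hT.equiv, hFa]
        · intro h
          apply hmove
          rw [hηs, h, smul_inv_smul]
        · show F^[s - T0] (γ⁻¹ • b) = F^[l - T0] w
          rw [it_smul hT, hFb, hy, inv_smul_smul]
      obtain ⟨hsl, hnear⟩ := hnear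
      have hb2 : F^[s - (l - J0)] b = F^[J0] (γ • w) := by
        rw [it_smul hT, ← hnear, ← it_smul hT, smul_inv_smul]
      have hz : g • (η • a) = η • a := by
        refine htv (s - (l - J0) + 1) (by omega) (η • a) ?_
        rw [Function.iterate_succ_apply, hT.equiv, hFa, ih, hb2, ← hFx,
          ← Function.iterate_succ_apply]
      apply hmove
      rw [← hz, ← mul_smul]
      exact hga
  have hηζ : η • ζ = ζ := by
    have h := hclaim t (by omega) le_rfl
    rw [Nat.sub_self] at h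
    exact h
  have hgζ : g • ζ = ζ := by
    have h := hζfix
    rw [mul_smul, hηζ] at h
    exact h
  obtain ⟨x2, hx2⟩ : ∃ x2 : Ω, x2 = F^[t - (l + 1)] ζ := ⟨_, rfl⟩
  have hal2 : al F O (l + 1) t g x2 := ⟨ζ, ⟨hζO, hgζ⟩, hx2.symm⟩
  have hηx2 : η • x2 = x2 := by
    rw [hx2, ← it_smul hT, hηζ]
  have hne : γ • x ≠ x2 := by
    intro h
    apply hηx
    rw [h]
    exact hηx2
  have hsucc : l + 1 - T0 = (l - T0) + 1 := by omega
  have hy1 : F^[l + 1 - T0] (γ • x) = y := by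
    rw [hsucc, Function.iterate_succ_apply, hFx]
    exact hyu
  have hy2 : F^[l + 1 - T0] x2 = y := by
    rw [hx2, ← Function.iterate_add_apply]
    have : l + 1 - T0 + (t - (l + 1)) = t - T0 := by omega
    rw [this]
    exact hζy
  have hfin : {x | al F O (l + 1) t g x ∧ F^[l + 1 - T0] x = y}.Finite :=
    (al_fin hT (by omega : l + 1 ≤ t) g).subset fun x hx => hx.1
  have hsub : ({γ • x, x2} : Set Ω) ⊆ {x | al F O (l + 1) t g x ∧ F^[l + 1 - T0] x = y} := by
    intro z hz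
    rcases hz with rfl | hz
    · exact ⟨hal, hy1⟩
    · have hz' : z = x2 := hz
      rw [hz']
      exact ⟨hal2, hy2⟩
  have hcard := Set.ncard_le_ncard hsub hfin
  rw [Set.ncard_pair hne] at hcard
  have hcard' : (2 : ℝ) ≤ naly F O T0 (l + 1) t y g := by
    unfold naly
    exact_mod_cast hcard
  rw [hg1] at hcard'
  unfold ind at hcard'
  split_ifs at hcard' <;> norm_num at hcard'

end Pool.Agent.H42.ES
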