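/-
ROW GDb. Invariance, and the averages `av`. PROOFS. For `h ∈ ker G O t` and `x ∈ O s`, `s ≤ t`:
`(g * h) • x = g • x` (ker_act, row GAb). Hence
* fx_inv: `fx O s (g * h) = fx O s g`. al_inv: the same with `s = t` inside `al`.
* inv_nal, inv_naly, inv_nfy, inv_fx: the sets do not change (al_inv: the `z` have level `t`; for level `t` and an
  invariance level `t' ≥ t` use inv_mono, row GBb).
* badp_inv: all three ingredients of `badp` have level at most `t` (`l ≤ t`).
* tv_inv: `g * h` and `g` act in the same way on all points `v` with `F^[i] v = F^[J0+1] x`, `i ≤ 2*J0+1`,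
  `x ∈ O (l+1)`: such `v` has level `l + 1 - (J0+1) + i ≤ l + J0 + 1 ≤ t` (o_up, row GAa, `J0 ≤ l`).
* av_mono, av_anti, av_le, av_nonneg: nal_left, nal_time, nal_le_fx (row GDa) with ex_mono, ex_fx (row GCa), ex_nonneg.
  For av_anti: `Ex O t' (nal s t') ≤ Ex O t' (nal s t) = Ex O t (nal s t)` (ex_level, inv_nal).
* av_at: `Ex O t' (nal F O s t) = av G F O s t` for `t ≤ t'` (ex_level, inv_nal).
-/
import Pool.Agent.H42.ES.GDa
import Pool.Agent.H42.ES.GCa

set_option autoImplicit false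

namespace Pool.Agent.H42.ES

open scoped Classical

variable {G Ω : Type} [Group G] [MulAction G Ω] {F : Ω → Ω} {d : ℕ} {O : ℕ → Set Ω}

theorem fx_inv (hT : ITree G F d O) {s t : ℕ} (hs : s ≤ t) (g : G) {h : G} (hh : h ∈ ker G O t) :
    fx O s (g * h) = fx O s g := by
  ext x
  constructor
  · rintro ⟨hx, h1⟩
    rw [ker_act hT hs g hh hx] at h1
    exact ⟨hx, h1⟩
  · rintro ⟨hx, h1⟩
    refine ⟨hx, ?_⟩
    rw [ker_act hT hs g hh hx]
    exact h1

theorem al_inv (hT : ITree G F d O) {s t t' : ℕ} (hst : s ≤ t) (ht : t ≤ t') (g : G) {h : G}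
    (hh : h ∈ ker G O t') (x : Ω) : al F O s t (g * h) x ↔ al F O s t g x := by
  unfold al
  rw [fx_inv hT ht g hh]

theorem inv_nal (hT : ITree G F d O) {s t : ℕ} (hst : s ≤ t) :
    Inv (G := G) O t (nal F O s t) := by
  intro g h hh
  have e : {x | al F O s t (g * h) x} = {x | al F O s t g x} := by
    ext x
    exact al_inv hT hst le_rfl g hh x
  unfold nal
  rw [e]

theorem inv_naly (hT : ITree G F d O) {r s t : ℕ} (hst : s ≤ t) (y : Ω) :
    Inv (G := G) O t (naly F O r s t y) := by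
  intro g h hh
  have e : {x | al F O s t (g * h) x ∧ F^[s - r] x = y} =
      {x | al F O s t g x ∧ F^[s - r] x = y} := by
    ext x
    exact and_congr (al_inv hT hst le_rfl g hh x) Iff.rfl
  unfold naly
  rw [e]

theorem inv_nfy (hT : ITree G F d O) {r s t : ℕ} (hst : s ≤ t) (y : Ω) :
    Inv (G := G) O t (nfy F O r s y) := by
  intro g h hh
  unfold nfy
  rw [fx_inv hT hst g hh]

theorem badp_inv (hT : ITree G F d O) {T0 l t : ℕ} (h1 : T0 ≤ l) (h2 : l + 1 ≤ t) (g : G) {h : G}
    (hh : h ∈ ker G O t) (y : Ω) : badp F O T0 l t (g * h) y ↔ badp F O T0 l t g y := by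
  have e1 : naly F O T0 (l + 1) t y (g * h) = naly F O T0 (l + 1) t y g :=
    inv_naly hT h2 y g h hh
  have e2 : al F O T0 t (g * h) y = al F O T0 t g y :=
    propext (al_inv hT (by omega) le_rfl g hh y)
  have e3 : al F O T0 l (g * h) y = al F O T0 l g y :=
    propext (al_inv hT h1 (by omega) g hh y)
  unfold badp
  rw [e1, e2, e3]

theorem tv_inv (hT : ITree G F d O) {J0 l t : ℕ} (hJ : J0 ≤ l) (ht : l + J0 + 1 ≤ t) (g : G)
    {h : G} (hh : h ∈ ker G O t) {x : Ω} (hx : x ∈ O (l + 1)) :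
    tv F J0 (g * h) x ↔ tv F J0 g x := by
  have h0 : F^[J0 + 1] x ∈ O (l - J0) := by
    rw [← o_up hT]
    have e : l - J0 + (J0 + 1) = l + 1 := by omega
    rw [e]
    exact hx
  have key : ∀ i ≤ 2 * J0 + 1, ∀ v : Ω, F^[i] v = F^[J0 + 1] x → (g * h) • v = g • v := by
    intro i hi v hv
    have hv' : v ∈ O (l - J0 + i) := by
      rw [o_up hT, hv]
      exact h0
    exact ker_act hT (by omega) g hh hv'
  constructor
  · intro h1 i hi v hv
    rw [← key i hi v hv]
    exact h1 i hi v hv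
  · intro h1 i hi v hv
    rw [key i hi v hv]
    exact h1 i hi v hv

theorem av_at (hT : ITree G F d O) {s t t' : ℕ} (h1 : s ≤ t) (h2 : t ≤ t') :
    Ex O t' (nal (G := G) F O s t) = av G F O s t := by
  exact ex_level hT h2 (inv_nal hT h1)

theorem av_mono (hT : ITree G F d O) {s s' t : ℕ} (h1 : s ≤ s') (h2 : s' ≤ t) :
    av G F O s t ≤ av G F O s' t := by
  exact ex_mono hT t fun g => nal_left hT h1 h2 g

theorem av_anti (hT : ITree G F d O) {s t t' : ℕ} (h1 : s ≤ t) (h2 : t ≤ t') :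
    av G F O s t' ≤ av G F O s t := by
  rw [← av_at hT h1 h2]
  exact ex_mono hT t' fun g => nal_time hT h1 h2 g

theorem av_mem (hT : ITree G F d O) {s t : ℕ} (h : s ≤ t) :
    0 ≤ av G F O s t ∧ av G F O s t ≤ 1 := by
  constructor
  · refine ex_nonneg hT t fun g => ?_
    unfold nal
    exact Nat.cast_nonneg _
  · have h1 : av G F O s t ≤ Ex O t (fun g : G => ((fx O s g).ncard : ℝ)) :=
      ex_mono hT t fun g => nal_le_fx hT h g
    rw [ex_fx hT h] at h1
    exact h1

end Pool.Agent.H42.ES
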