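/-
ROW GFb. Averages over `γ` for a fixed `g` (level `t` throughout, `x ∈ O (l+1)`, `F x = w ∈ O l`).
Write `N(g) = {x' | al F O (l+1) t g x' ∧ tv F J0 g x'}` (a finite subset of `O (l+1)`, al_fin and al_fx of row GDa).
`(O (l+1)).ncard = d * (O l).ncard` (o_card, row GAa, `j = 1`). PROOFS.
* avg_x: ex_avg (row GCa) for `s = l+1`: `(O l).ncard * Ex (φ (γ • x)) = (1/d) ∑ᶠ x' ∈ O (l+1), φ x'` (`(O l).ncard ≠ 0`, `d ≠ 0`).
* avg_w: ex_avg for `s = l`.
* m_all: swap the two expectations (ex_swap, row GBa; ex_smul) and for each `g` use avg_x with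
  `φ x' = ind (al F O (l+1) t g x' ∧ tv F J0 g x')`: the sum is the cardinality (only points of `O (l+1)` contribute).
* m_bad: `F^[l-T0] w = F^[l+1-T0] x` so `γ • F^[l-T0] w = F^[l+1-T0] (γ • x)` (it_smul). Swap; for fixed `g` avg_x with
  `φ x' = ind (al .. g x' ∧ badp .. g (F^[l+1-T0] x'))`. So it suffices that pointwise
  `#{x' | al (l+1) t g x' ∧ badp g (F^[l+1-T0] x')} ≤ 2 * (nal (l+1) t g - nal T0 t g) + (nal T0 l g - nal T0 t g)` (1).
  By naly_sum, nal_sum (row GDa) both brackets are sums over `y ∈ fx O T0 g` of `e1 y = naly T0 (l+1) t y g - ind (al T0 t g y) ≥ 0`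
  (naly_ge) and `e2 y = ind (al T0 l g y) - ind (al T0 t g y) ≥ 0` (al_time); the left side is the sum over the bad
  `y ∈ fx O T0 g` of `naly .. y g` (partition by `y = F^[l+1-T0] x'`; such `y` is in `fx O T0 g` by al_down, al_fx).
  For a bad `y`: `e1 y ≥ 1` or `e2 y ≥ 1` (natural numbers), so `naly ≤ e1 y + 1 ≤ 2 e1 y + e2 y`.
  Then ex_mono, ex_add, ex_sub, ex_smul, and `Ex O t (nal F O T0 l) = av G F O T0 l` (av_at, row GDb).
* m_big: swap, avg_x; pointwise for fixed `g`: `#{x' | al (l+1) t g x' ∧ ¬ badp g y ∧ k < nfy T0 l y g}` (`y = F^[l+1-T0] x'`)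
  `≤ (1/k) (fx O l g).ncard`: for a `y` which is not bad `naly ≤ 1`, so the left side is at most the number of
  `y ∈ fx O T0 g` with `k < nfy`, and `∑ y, nfy = (fx O l g).ncard` (nfy_sum). Then ex_fx (row GCa).
-/
import Pool.Agent.H42.ES.GDb

set_option autoImplicit false

namespace Pool.Agent.H42.ES

open scoped Classical

variable {G Ω : Type} [Group G] [MulAction G Ω] {F : Ω → Ω} {d : ℕ} {O : ℕ → Set Ω}

theorem GFb_fxfin (hT : ITree G F d O) (s : ℕ) (g : G) : (fx O s g).Finite :=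
  (o_fin hT s).subset fun _ hx => hx.1

theorem GFb_ind {S : Set Ω} (hS : S.Finite) {p : Ω → Prop} (hp : ∀ y, p y → y ∈ S) :
    ∑ᶠ y ∈ S, ind (p y) = ({y | p y}.ncard : ℝ) := by
  rw [finsum_mem_eq_finite_toFinset_sum _ hS]
  unfold ind
  rw [Finset.sum_boole, ← Set.ncard_coe_finset]
  congr 2
  ext y
  rw [Finset.mem_coe, Finset.mem_filter, Set.Finite.mem_toFinset]
  exact ⟨fun h => h.2, fun h => ⟨hp y h, h⟩⟩

theorem GFb_part {S T : Set Ω} (hS : S.Finite) (hTf : T.Finite) (f : Ω → Ω)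
    (hf : ∀ x ∈ S, f x ∈ T) :
    (S.ncard : ℝ) = ∑ y ∈ hTf.toFinset, ({x | x ∈ S ∧ f x = y}.ncard : ℝ) := by
  rw [Set.ncard_eq_toFinset_card _ hS,
    Finset.card_eq_sum_card_fiberwise (f := f) (t := hTf.toFinset)]
  · push_cast
    refine Finset.sum_congr rfl fun y _ => ?_
    rw [← Set.ncard_coe_finset]
    congr 2
    ext x
    rw [Finset.mem_coe, Finset.mem_filter, Set.Finite.mem_toFinset]
    exact Iff.rfl
  · intro x hx
    exact hTf.mem_toFinset.2 (hf x (hS.mem_toFinset.1 hx))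

theorem avg_x (hT : ITree G F d O) {l t : ℕ} (hl : l + 1 ≤ t) {x : Ω} (hx : x ∈ O (l + 1))
    (φ : Ω → ℝ) : ((O l).ncard : ℝ) * Ex O t (fun γ : G => φ (γ • x)) =
      1 / (d : ℝ) * ∑ᶠ y ∈ O (l + 1), φ y := by
  rw [ex_avg hT hl hx φ]
  have hN : ((O l).ncard : ℝ) ≠ 0 := by
    have h1 := (Set.ncard_pos (o_fin hT l)).2 (o_ne hT l)
    positivity
  have hd : (d : ℝ) ≠ 0 := by
    have := hT.hd
    positivity
  rw [o_card hT l 1, pow_one]
  push_cast
  field_simp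

theorem avg_w (hT : ITree G F d O) {l t : ℕ} (hl : l ≤ t) {w : Ω} (hw : w ∈ O l)
    (φ : Ω → ℝ) : ((O l).ncard : ℝ) * Ex O t (fun γ : G => φ (γ • w)) = ∑ᶠ y ∈ O l, φ y := by
  rw [ex_avg hT hl hw φ]
  have hN : ((O l).ncard : ℝ) ≠ 0 := by
    have h1 := (Set.ncard_pos (o_fin hT l)).2 (o_ne hT l)
    positivity
  field_simp

theorem GFb_sw (hT : ITree G F d O) {l t : ℕ} (hl : l + 1 ≤ t) {x : Ω} (hx : x ∈ O (l + 1))
    (φ : G → Ω → ℝ) :
    ((O l).ncard : ℝ) * Ex O t (fun γ : G => Ex O t (fun g : G => φ g (γ • x))) =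
      1 / (d : ℝ) * Ex O t (fun g : G => ∑ᶠ y ∈ O (l + 1), φ g y) := by
  have h1 : Ex O t (fun γ : G => Ex O t (fun g : G => φ g (γ • x))) =
      Ex O t (fun g : G => Ex O t (fun γ : G => φ g (γ • x))) :=
    (ex_swap hT t (fun g γ : G => φ g (γ • x))).symm
  have h2 : ∀ g : G, ((O l).ncard : ℝ) * Ex O t (fun γ : G => φ g (γ • x)) =
      1 / (d : ℝ) * ∑ᶠ y ∈ O (l + 1), φ g y := fun g => avg_x hT hl hx (φ g)
  rw [h1, ← ex_smul hT]
  simp only [h2]
  exact ex_smul hT t _ _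

theorem GFb_it (hT : ITree G F d O) {T0 l : ℕ} (h0 : T0 ≤ l) {w x : Ω} (hx : F x = w) (γ : G) :
    γ • F^[l - T0] w = F^[l + 1 - T0] (γ • x) := by
  have h1 : l + 1 - T0 = l - T0 + 1 := by omega
  rw [h1, Function.iterate_succ_apply, hT.equiv, hx, it_smul hT]

/-- The set of points of level `l + 1` which are alive at `t` with a property, partitioned. -/
theorem GFb_alpart (hT : ITree G F d O) {T0 l t : ℕ} (h0 : T0 ≤ l) (hl : l + 1 ≤ t) (g : G)
    (p : Ω → Prop) (b : Ω → ℝ)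
    (hb : ∀ y ∈ fx O T0 g, p y → naly F O T0 (l + 1) t y g ≤ b y)
    (hb0 : ∀ y ∈ fx O T0 g, ¬ p y → 0 ≤ b y) :
    ({x' | al F O (l + 1) t g x' ∧ p (F^[l + 1 - T0] x')}.ncard : ℝ) ≤
      ∑ y ∈ (GFb_fxfin hT T0 g).toFinset, b y := by
  have hS : {x' | al F O (l + 1) t g x' ∧ p (F^[l + 1 - T0] x')}.Finite :=
    (al_fin hT hl g).subset fun _ h => h.1
  rw [GFb_part hS (GFb_fxfin hT T0 g) (F^[l + 1 - T0])
    (fun x hx => al_fx hT (by omega) (al_down hT (by omega) hl hx.1))]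
  refine Finset.sum_le_sum fun y hy => ?_
  have hy' : y ∈ fx O T0 g := (GFb_fxfin hT T0 g).mem_toFinset.1 hy
  by_cases hp : p y
  · refine le_trans ?_ (hb y hy' hp)
    unfold naly
    refine Nat.cast_le.2 (Set.ncard_le_ncard ?_ ?_)
    · intro x hx
      exact ⟨hx.1.1, hx.2⟩
    · exact (al_fin hT hl g).subset fun _ h => h.1
  · have he : {x | x ∈ {x' | al F O (l + 1) t g x' ∧ p (F^[l + 1 - T0] x')} ∧
        F^[l + 1 - T0] x = y} = ∅ := by
      ext x
      constructor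
      · intro hx
        have h3 : p (F^[l + 1 - T0] x) := hx.1.2
        rw [hx.2] at h3
        exact absurd h3 hp
      · intro hx
        exact absurd hx (Set.notMem_empty x)
    rw [he, Set.ncard_empty, Nat.cast_zero]
    exact hb0 y hy' hp

theorem GFb_ile {p : Prop} : ind p ≤ 1 := by
  unfold ind
  split_ifs <;> norm_num

theorem GFb_i0 {p : Prop} : 0 ≤ ind p := by
  unfold ind
  split_ifs <;> norm_num

theorem GFb_badpt (hT : ITree G F d O) {T0 l t : ℕ} (h0 : T0 ≤ l) (hl : l + 1 ≤ t) (g : G) :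
    ({x' | al F O (l + 1) t g x' ∧ badp F O T0 l t g (F^[l + 1 - T0] x')}.ncard : ℝ) ≤
      2 * (nal F O (l + 1) t g - nal F O T0 t g) + (nal F O T0 l g - nal F O T0 t g) := by
  have e1 := naly_sum hT (show T0 ≤ l + 1 by omega) hl g
  have e2 := nal_sum hT (show T0 ≤ t by omega) g
  have e3 := nal_sum hT h0 g
  rw [finsum_mem_eq_finite_toFinset_sum _ (GFb_fxfin hT T0 g)] at e1 e2 e3
  rw [e1, e2, e3, ← Finset.sum_sub_distrib, ← Finset.sum_sub_distrib, Finset.mul_sum,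
    ← Finset.sum_add_distrib]
  refine GFb_alpart hT h0 hl g (badp F O T0 l t g) _ ?_ ?_
  · intro y hy hbad
    have hn := naly_ge hT (show T0 ≤ l + 1 by omega) hl g y
    by_cases ha : al F O T0 t g y
    · have hal : al F O T0 l g y := al_time hT h0 (by omega) ha
      have i1 : ind (al F O T0 t g y) = 1 := if_pos ha
      have i2 : ind (al F O T0 l g y) = 1 := if_pos hal
      rw [i1] at hn
      have hne : naly F O T0 (l + 1) t y g ≠ 1 := by
        intro h
        exact hbad ⟨by rw [h, i1], ⟨fun _ => ha, fun _ => hal⟩⟩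
      have h2 : (2 : ℝ) ≤ naly F O T0 (l + 1) t y g := by
        unfold naly at hn hne ⊢
        have a1 : 1 ≤ {x | al F O (l + 1) t g x ∧ F^[l + 1 - T0] x = y}.ncard := by
          exact_mod_cast hn
        have a2 : {x | al F O (l + 1) t g x ∧ F^[l + 1 - T0] x = y}.ncard ≠ 1 := by
          exact_mod_cast hne
        have a3 : 2 ≤ {x | al F O (l + 1) t g x ∧ F^[l + 1 - T0] x = y}.ncard := by omega
        exact_mod_cast a3
      rw [i1, i2]
      linarith
    · have i1 : ind (al F O T0 t g y) = 0 := if_neg ha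
      rw [i1] at hn ⊢
      have h3 : 0 ≤ ind (al F O T0 l g y) := GFb_i0
      linarith
  · intro y hy _
    have hn := naly_ge hT (show T0 ≤ l + 1 by omega) hl g y
    have h4 : ind (al F O T0 t g y) ≤ ind (al F O T0 l g y) := by
      by_cases ha : al F O T0 t g y
      · have hal : al F O T0 l g y := al_time hT h0 (by omega) ha
        rw [show ind (al F O T0 l g y) = 1 from if_pos hal]
        exact GFb_ile
      · rw [show ind (al F O T0 t g y) = 0 from if_neg ha]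
        exact GFb_i0
    linarith

theorem GFb_bigpt (hT : ITree G F d O) {T0 l t k : ℕ} (h0 : T0 ≤ l) (hl : l + 1 ≤ t)
    (hk : 1 ≤ k) (g : G) :
    ({x' | al F O (l + 1) t g x' ∧ ¬ badp F O T0 l t g (F^[l + 1 - T0] x') ∧
      (k : ℝ) < nfy F O T0 l (F^[l + 1 - T0] x') g}.ncard : ℝ) ≤
      1 / (k : ℝ) * ((fx O l g).ncard : ℝ) := by
  have hk0 : (0 : ℝ) < k := by
    have : 0 < k := by omega
    exact_mod_cast this
  rw [nfy_sum hT h0 g, finsum_mem_eq_finite_toFinset_sum _ (GFb_fxfin hT T0 g), Finset.mul_sum]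
  refine GFb_alpart hT h0 hl g (fun y => ¬ badp F O T0 l t g y ∧
    (k : ℝ) < nfy F O T0 l y g) _ ?_ ?_
  · intro y hy hp
    have hnb : naly F O T0 (l + 1) t y g = ind (al F O T0 t g y) := by
      have h5 := hp.1
      unfold badp at h5
      exact (not_not.1 h5).1
    rw [hnb]
    refine le_trans GFb_ile ?_
    rw [one_div, ← div_eq_inv_mul, le_div_iff₀ hk0, one_mul]
    exact hp.2.le
  · intro y hy _
    have h6 : 0 ≤ nfy F O T0 l y g := by
      unfold nfy
      positivity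
    positivity

theorem m_all (hT : ITree G F d O) {l t J0 : ℕ} (hl : l + 1 ≤ t) {x : Ω} (hx : x ∈ O (l + 1)) :
    ((O l).ncard : ℝ) * Ex O t (fun γ : G => Ex O t (fun g : G =>
      ind (al F O (l + 1) t g (γ • x) ∧ tv F J0 g (γ • x)))) =
    1 / (d : ℝ) * Ex O t (fun g : G =>
      ({x' | al F O (l + 1) t g x' ∧ tv F J0 g x'}.ncard : ℝ)) := by
  rw [GFb_sw hT hl hx (fun g y => ind (al F O (l + 1) t g y ∧ tv F J0 g y))]
  congr 2
  funext g
  exact GFb_ind (o_fin hT (l + 1)) fun y hy => (al_fx hT hl hy.1).1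

theorem m_bad (hT : ITree G F d O) {T0 l t : ℕ} (h0 : T0 ≤ l) (hl : l + 1 ≤ t) {w x : Ω}
    (hw : w ∈ O l) (hx : F x = w) {ε : ℝ}
    (h1 : av G F O (l + 1) t - av G F O T0 t ≤ ε) (h2 : av G F O T0 l - av G F O T0 t ≤ ε) :
    ((O l).ncard : ℝ) * Ex O t (fun γ : G => Ex O t (fun g : G =>
      ind (al F O (l + 1) t g (γ • x) ∧ badp F O T0 l t g (γ • F^[l - T0] w)))) ≤
    3 * ε / (d : ℝ) := by
  have hxO : x ∈ O (l + 1) := (hT.up l x).2 (by rw [hx]; exact hw)
  simp only [GFb_it hT h0 hx]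
  rw [GFb_sw hT hl hxO (fun g y => ind (al F O (l + 1) t g y ∧
    badp F O T0 l t g (F^[l + 1 - T0] y)))]
  have hd : (0 : ℝ) < d := by
    have := hT.hd
    positivity
  have h3 : Ex O t (fun g : G => ∑ᶠ y ∈ O (l + 1), ind (al F O (l + 1) t g y ∧
      badp F O T0 l t g (F^[l + 1 - T0] y))) ≤
      Ex O t (fun g : G => 2 * (nal F O (l + 1) t g - nal F O T0 t g) +
        (nal F O T0 l g - nal F O T0 t g)) := by
    refine ex_mono hT t fun g => ?_
    rw [GFb_ind (o_fin hT (l + 1)) (fun y hy => (al_fx hT hl hy.1).1)]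
    exact GFb_badpt hT h0 hl g
  have h4 : Ex O t (fun g : G => 2 * (nal F O (l + 1) t g - nal F O T0 t g) +
        (nal F O T0 l g - nal F O T0 t g)) =
      2 * (av G F O (l + 1) t - av G F O T0 t) + (av G F O T0 l - av G F O T0 t) := by
    rw [ex_add hT, ex_smul hT, ex_sub hT, ex_sub hT]
    have h5 : Ex O t (fun g : G => nal F O T0 l g) = av G F O T0 l :=
      av_at hT h0 (by omega)
    rw [h5]
    rfl
  rw [h4] at h3
  have h6 : Ex O t (fun g : G => ∑ᶠ y ∈ O (l + 1), ind (al F O (l + 1) t g y ∧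
      badp F O T0 l t g (F^[l + 1 - T0] y))) ≤ 3 * ε := by linarith
  calc 1 / (d : ℝ) * Ex O t (fun g : G => ∑ᶠ y ∈ O (l + 1), ind (al F O (l + 1) t g y ∧
      badp F O T0 l t g (F^[l + 1 - T0] y))) ≤ 1 / (d : ℝ) * (3 * ε) := by
        refine mul_le_mul_of_nonneg_left h6 ?_
        positivity
    _ = 3 * ε / (d : ℝ) := by ring

theorem m_big (hT : ITree G F d O) {T0 l t k : ℕ} (h0 : T0 ≤ l) (hl : l + 1 ≤ t) (hk : 1 ≤ k)
    {w x : Ω} (hw : w ∈ O l) (hx : F x = w) :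
    ((O l).ncard : ℝ) * Ex O t (fun γ : G => Ex O t (fun g : G =>
      ind (al F O (l + 1) t g (γ • x) ∧ ¬ badp F O T0 l t g (γ • F^[l - T0] w) ∧
        (k : ℝ) < nfy F O T0 l (γ • F^[l - T0] w) g))) ≤ 1 / ((k : ℝ) * d) := by
  have hxO : x ∈ O (l + 1) := (hT.up l x).2 (by rw [hx]; exact hw)
  simp only [GFb_it hT h0 hx]
  rw [GFb_sw hT hl hxO (fun g y => ind (al F O (l + 1) t g y ∧
    ¬ badp F O T0 l t g (F^[l + 1 - T0] y) ∧
      (k : ℝ) < nfy F O T0 l (F^[l + 1 - T0] y) g))]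
  have hd : (0 : ℝ) < d := by
    have := hT.hd
    positivity
  have hk0 : (0 : ℝ) < k := by
    have : 0 < k := by omega
    exact_mod_cast this
  have h3 : Ex O t (fun g : G => ∑ᶠ y ∈ O (l + 1), ind (al F O (l + 1) t g y ∧
      ¬ badp F O T0 l t g (F^[l + 1 - T0] y) ∧
      (k : ℝ) < nfy F O T0 l (F^[l + 1 - T0] y) g)) ≤
      Ex O t (fun g : G => 1 / (k : ℝ) * ((fx O l g).ncard : ℝ)) := by
    refine ex_mono hT t fun g => ?_
    rw [GFb_ind (o_fin hT (l + 1)) (fun y hy => (al_fx hT hl hy.1).1)]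
    exact GFb_bigpt hT h0 hl hk g
  rw [ex_smul hT, ex_fx hT (show l ≤ t by omega), mul_one] at h3
  calc 1 / (d : ℝ) * Ex O t (fun g : G => ∑ᶠ y ∈ O (l + 1), ind (al F O (l + 1) t g y ∧
      ¬ badp F O T0 l t g (F^[l + 1 - T0] y) ∧
      (k : ℝ) < nfy F O T0 l (F^[l + 1 - T0] y) g)) ≤ 1 / (d : ℝ) * (1 / (k : ℝ)) := by
        refine mul_le_mul_of_nonneg_left h3 ?_
        positivity
    _ = 1 / ((k : ℝ) * d) := by
        field_simp

end Pool.Agent.H42.ES
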