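/-
ROW GFd. The upper bound. Let `η_γ = γ * D * γ⁻¹`, `y_γ = γ • F^[l-T0] w`,
`P g γ = (g • (γ • w) = γ • w ∧ badp F O T0 l t g y_γ ∧ nfy F O T0 l y_γ g ≤ k)`,
`S g γ = (al F O (l+1) t g (γ • x) ∧ tv F J0 g (γ • x) ∧ (no far companion) ∧ ¬ badp g y_γ ∧ nfy y_γ g ≤ k)` (the
predicate in the statement). PROOF.
1. `S g γ → P (g * η_γ) γ`: core_pt (row GFa) gives `badp (g η) y`; `η_γ` fixes every point of `O l` (`γ⁻¹ • z ∈ O l`, hD), so
   `fx O l (g * η) = fx O l g` and `nfy` does not change; `g • η • (γ • w) = g • γ • w = γ • w` because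
   `γ • w = F (γ • x)` and `γ • x` is fixed by `g` (al_fx).
2. For fixed `γ` the function `g ↦ ind (P g γ)` is `Inv O t` (badp_inv, inv_nfy of row GDb, ker_act of row GAb), so
   `Ex (fun g => ind (S g γ)) ≤ Ex (fun g => ind (P (g * η_γ) γ)) = Ex (fun g => ind (P g γ))` (ex_mono, ex_right of row GBb).
3. Swap (ex_swap). For fixed `g` avg_w (row GFb) with
   `φ u = ind (g • u = u ∧ badp g (F^[l-T0] u) ∧ nfy (F^[l-T0] u) g ≤ k)` (`γ • F^[l-T0] w = F^[l-T0] (γ • w)`, it_smul): the sum is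
   `#{u ∈ fx O l g | badp g (F^[l-T0] u), nfy (F^[l-T0] u) g ≤ k} ≤ k * #{y ∈ fx O T0 g | badp g y, al F O T0 l g y}` (at most `k`
   points `u` over each `y`; `F^[l-T0] u ∈ fx O T0 g` is alive at `l`), and the last number is
   `≤ (nal (l+1) t g - nal T0 t g) + (nal T0 l g - nal T0 t g)` as in m_bad (row GFb): a bad `y` has `e1 y ≥ 1` or `e2 y ≥ 1`,
   where `e1 y, e2 y ≥ 0` for all `y` and the sums of `e1`, `e2` over `fx O T0 g` are the brackets.
4. ex_mono, ex_smul, ex_add, ex_sub, av_at: `≤ k * (ε + ε)`.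
-/
import Pool.Agent.H42.ES.GFa
import Pool.Agent.H42.ES.GFb

set_option autoImplicit false

namespace Pool.Agent.H42.ES

open scoped Classical

variable {G Ω : Type} [Group G] [MulAction G Ω] {F : Ω → Ω} {d : ℕ} {O : ℕ → Set Ω}

theorem GFd_e_bad (hT : ITree G F d O) {T0 l t : ℕ} (h0 : T0 ≤ l) (hlt : l + 1 ≤ t) {g : G} {y : Ω}
    (hb : badp F O T0 l t g y) :
    1 ≤ (naly F O T0 (l + 1) t y g - ind (al F O T0 t g y)) +
      (ind (al F O T0 l g y) - ind (al F O T0 t g y)) := by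
  have h1 : ind (al F O T0 t g y) ≤ naly F O T0 (l + 1) t y g :=
    naly_ge hT (by omega) (by omega) g y
  have h2 : al F O T0 t g y → al F O T0 l g y := fun h => al_time hT h0 (by omega) h
  by_cases ha : al F O T0 t g y
  · have hl : al F O T0 l g y := h2 ha
    have hne : naly F O T0 (l + 1) t y g ≠ ind (al F O T0 t g y) := by
      intro h
      exact hb ⟨h, ⟨fun _ => ha, fun _ => hl⟩⟩
    have e1 : ind (al F O T0 t g y) = 1 := by simp [ind, ha]
    have e2 : ind (al F O T0 l g y) = 1 := by simp [ind, hl]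
    rw [e1] at hne h1 ⊢
    rw [e2]
    have h3 : (2 : ℝ) ≤ naly F O T0 (l + 1) t y g := by
      unfold naly at hne h1 ⊢
      have h4 : 1 ≤ {x | al F O (l + 1) t g x ∧ F^[l + 1 - T0] x = y}.ncard := by
        exact_mod_cast h1
      have h5 : {x | al F O (l + 1) t g x ∧ F^[l + 1 - T0] x = y}.ncard ≠ 1 := by
        intro h
        apply hne
        rw [h]; norm_num
      have h6 : 2 ≤ {x | al F O (l + 1) t g x ∧ F^[l + 1 - T0] x = y}.ncard := by omega
      exact_mod_cast h6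
    linarith
  · have e1 : ind (al F O T0 t g y) = 0 := by simp [ind, ha]
    rw [e1] at h1 ⊢
    by_cases hl : al F O T0 l g y
    · have e2 : ind (al F O T0 l g y) = 1 := by simp [ind, hl]
      rw [e2]
      linarith
    · have e2 : ind (al F O T0 l g y) = 0 := by simp [ind, hl]
      rw [e2]
      have hne : naly F O T0 (l + 1) t y g ≠ 0 := by
        intro h
        exact hb ⟨by rw [h, e1], ⟨fun h' => absurd h' hl, fun h' => absurd h' ha⟩⟩
      unfold naly at hne h1 ⊢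
      have h5 : {x | al F O (l + 1) t g x ∧ F^[l + 1 - T0] x = y}.ncard ≠ 0 := by
        intro h
        apply hne
        rw [h]; norm_num
      have h6 : 1 ≤ {x | al F O (l + 1) t g x ∧ F^[l + 1 - T0] x = y}.ncard := by omega
      have h7 : (1 : ℝ) ≤ ({x | al F O (l + 1) t g x ∧ F^[l + 1 - T0] x = y}.ncard : ℝ) := by
        exact_mod_cast h6
      linarith

theorem GFd_e_nn (hT : ITree G F d O) {T0 l t : ℕ} (h0 : T0 ≤ l) (hlt : l + 1 ≤ t) (g : G) (y : Ω) :
    0 ≤ (naly F O T0 (l + 1) t y g - ind (al F O T0 t g y)) +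
      (ind (al F O T0 l g y) - ind (al F O T0 t g y)) := by
  have h1 : ind (al F O T0 t g y) ≤ naly F O T0 (l + 1) t y g :=
    naly_ge hT (by omega) (by omega) g y
  have h2 : al F O T0 t g y → al F O T0 l g y := fun h => al_time hT h0 (by omega) h
  have h3 : ind (al F O T0 t g y) ≤ ind (al F O T0 l g y) := by
    unfold ind
    by_cases ha : al F O T0 t g y
    · rw [if_pos ha, if_pos (h2 ha)]
    · rw [if_neg ha]
      split_ifs <;> norm_num
  linarith

theorem GFd_pt (hT : ITree G F d O) {T0 l t k : ℕ} (h0 : T0 ≤ l) (hlt : l + 1 ≤ t) (g : G) :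
    (∑ᶠ u ∈ O l, ind (g • u = u ∧ badp F O T0 l t g (F^[l - T0] u) ∧
      nfy F O T0 l (F^[l - T0] u) g ≤ (k : ℝ))) ≤
    (k : ℝ) * ((nal F O (l + 1) t g - nal F O T0 t g) + (nal F O T0 l g - nal F O T0 t g)) := by
  have hfl : (O l).Finite := o_fin hT l
  have hfT : (O T0).Finite := o_fin hT T0
  have hfx : (fx O T0 g).Finite := hfT.subset (fun x hx => hx.1)
  have hk : (0 : ℝ) ≤ (k : ℝ) := Nat.cast_nonneg k
  rw [naly_sum hT (by omega : T0 ≤ l + 1) (by omega : l + 1 ≤ t) g,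
    nal_sum hT (by omega : T0 ≤ t) g, nal_sum hT (by omega : T0 ≤ l) g,
    finsum_mem_eq_finite_toFinset_sum _ hfl, finsum_mem_eq_finite_toFinset_sum _ hfx,
    finsum_mem_eq_finite_toFinset_sum _ hfx, finsum_mem_eq_finite_toFinset_sum _ hfx,
    ← Finset.sum_sub_distrib, ← Finset.sum_sub_distrib, ← Finset.sum_add_distrib, Finset.mul_sum]
  -- restrict the left sum to the fixed points
  have e1 : ∑ u ∈ hfl.toFinset, ind (g • u = u ∧ badp F O T0 l t g (F^[l - T0] u) ∧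
      nfy F O T0 l (F^[l - T0] u) g ≤ (k : ℝ)) =
      ∑ u ∈ hfl.toFinset.filter (fun u => g • u = u), ind (badp F O T0 l t g (F^[l - T0] u) ∧
      nfy F O T0 l (F^[l - T0] u) g ≤ (k : ℝ)) := by
    rw [Finset.sum_filter]
    apply Finset.sum_congr rfl
    intro u _
    by_cases hu : g • u = u
    · simp [ind, hu]
    · simp [ind, hu]
  rw [e1]
  have hmaps : ∀ u ∈ hfl.toFinset.filter (fun u => g • u = u), F^[l - T0] u ∈ hfx.toFinset := by
    intro u hu
    rw [Finset.mem_filter, Set.Finite.mem_toFinset] at hu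
    rw [Set.Finite.mem_toFinset]
    refine ⟨?_, ?_⟩
    · rw [← o_up hT T0 (l - T0) u]
      rw [show T0 + (l - T0) = l by omega]
      exact hu.1
    · rw [← it_smul hT, hu.2]
  rw [← Finset.sum_fiberwise_of_maps_to hmaps]
  apply Finset.sum_le_sum
  intro y _
  have e2 : ∑ u ∈ (hfl.toFinset.filter (fun u => g • u = u)).filter (fun u => F^[l - T0] u = y),
      ind (badp F O T0 l t g (F^[l - T0] u) ∧ nfy F O T0 l (F^[l - T0] u) g ≤ (k : ℝ)) =
      nfy F O T0 l y g * ind (badp F O T0 l t g y ∧ nfy F O T0 l y g ≤ (k : ℝ)) := by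
    have e3 : ∑ u ∈ (hfl.toFinset.filter (fun u => g • u = u)).filter (fun u => F^[l - T0] u = y),
      ind (badp F O T0 l t g (F^[l - T0] u) ∧ nfy F O T0 l (F^[l - T0] u) g ≤ (k : ℝ)) =
      ∑ u ∈ (hfl.toFinset.filter (fun u => g • u = u)).filter (fun u => F^[l - T0] u = y),
      ind (badp F O T0 l t g y ∧ nfy F O T0 l y g ≤ (k : ℝ)) := by
      apply Finset.sum_congr rfl
      intro u hu
      rw [Finset.mem_filter] at hu
      rw [hu.2]
    rw [e3, Finset.sum_const, nsmul_eq_mul]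
    congr 1
    unfold nfy
    have e4 : {u | u ∈ fx O l g ∧ F^[l - T0] u = y} =
        (((hfl.toFinset.filter (fun u => g • u = u)).filter (fun u => F^[l - T0] u = y) : Finset Ω) : Set Ω) := by
      ext u
      simp only [Set.mem_setOf_eq, Finset.coe_filter, Finset.mem_filter, Set.Finite.mem_toFinset, fx]
    rw [e4, Set.ncard_coe_finset]
  rw [e2]
  by_cases hb : badp F O T0 l t g y ∧ nfy F O T0 l y g ≤ (k : ℝ)
  · have e5 : ind (badp F O T0 l t g y ∧ nfy F O T0 l y g ≤ (k : ℝ)) = 1 := by simp [ind, hb]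
    rw [e5, mul_one]
    calc nfy F O T0 l y g ≤ (k : ℝ) := hb.2
      _ = (k : ℝ) * 1 := by ring
      _ ≤ _ := mul_le_mul_of_nonneg_left (GFd_e_bad hT h0 hlt hb.1) hk
  · have e5 : ind (badp F O T0 l t g y ∧ nfy F O T0 l y g ≤ (k : ℝ)) = 0 := by
      unfold ind
      rw [if_neg hb]
    rw [e5, mul_zero]
    exact mul_nonneg hk (GFd_e_nn hT h0 hlt g y)

theorem m_up (hT : ITree G F d O) {T0 l t k J0 : ℕ} (h0 : T0 ≤ l) (hJ : J0 ≤ l)
    (hlt : l + J0 + 1 ≤ t) {D : G} {w x : Ω} (hD : ∀ z ∈ O l, D • z = z) (hw : w ∈ O l)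
    (hx : F x = w) (hmv : D • x ≠ x) {ε : ℝ}
    (h1 : av G F O (l + 1) t - av G F O T0 t ≤ ε) (h2 : av G F O T0 l - av G F O T0 t ≤ ε) :
    ((O l).ncard : ℝ) * Ex O t (fun γ : G => Ex O t (fun g : G =>
      ind (al F O (l + 1) t g (γ • x) ∧ tv F J0 g (γ • x) ∧
        (∀ p ∈ Far F O T0 t l J0 D w, g • (γ • p.2) ≠ γ • p.2) ∧
        ¬ badp F O T0 l t g (γ • F^[l - T0] w) ∧
        nfy F O T0 l (γ • F^[l - T0] w) g ≤ (k : ℝ)))) ≤ 2 * (k : ℝ) * ε := by
  have hl1 : l + 1 ≤ t := by omega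
  have hl : l ≤ t := by omega
  -- the pointwise inequality
  have hS : ∀ γ g : G, ind (al F O (l + 1) t g (γ • x) ∧ tv F J0 g (γ • x) ∧
        (∀ p ∈ Far F O T0 t l J0 D w, g • (γ • p.2) ≠ γ • p.2) ∧
        ¬ badp F O T0 l t g (γ • F^[l - T0] w) ∧
        nfy F O T0 l (γ • F^[l - T0] w) g ≤ (k : ℝ)) ≤
      ind ((g * (γ * D * γ⁻¹)) • (γ • w) = γ • w ∧
        badp F O T0 l t (g * (γ * D * γ⁻¹)) (F^[l - T0] (γ • w)) ∧
        nfy F O T0 l (F^[l - T0] (γ • w)) (g * (γ * D * γ⁻¹)) ≤ (k : ℝ)) := by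
    intro γ g
    unfold ind
    by_cases hs : (al F O (l + 1) t g (γ • x) ∧ tv F J0 g (γ • x) ∧
        (∀ p ∈ Far F O T0 t l J0 D w, g • (γ • p.2) ≠ γ • p.2) ∧
        ¬ badp F O T0 l t g (γ • F^[l - T0] w) ∧
        nfy F O T0 l (γ • F^[l - T0] w) g ≤ (k : ℝ))
    · rw [if_pos hs]
      obtain ⟨hal, htv, hfar, hgood, hnf⟩ := hs
      have hfix : ∀ u ∈ O l, (γ * D * γ⁻¹) • u = u := by
        intro u hu
        rw [mul_smul, mul_smul, hD _ (hT.inv l γ⁻¹ u hu), smul_inv_smul]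
      have hbad := core_pt hT h0 hJ hlt hD hw hx hmv hal htv hfar hgood
      have hgx : g • (γ • x) = γ • x := (al_fx hT hl1 hal).2
      have hFx : F (γ • x) = γ • w := by rw [hT.equiv, hx]
      have hgw : g • (γ • w) = γ • w := by
        rw [← hFx, ← hT.equiv, hgx]
      have hγw : γ • w ∈ O l := hT.inv l γ w hw
      have hpos : (g * (γ * D * γ⁻¹)) • (γ • w) = γ • w ∧
        badp F O T0 l t (g * (γ * D * γ⁻¹)) (F^[l - T0] (γ • w)) ∧
        nfy F O T0 l (F^[l - T0] (γ • w)) (g * (γ * D * γ⁻¹)) ≤ (k : ℝ) := by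
        refine ⟨?_, ?_, ?_⟩
        · rw [mul_smul g, hfix _ hγw, hgw]
        · rw [it_smul hT]; exact hbad
        · rw [it_smul hT]
          have e : nfy F O T0 l (γ • F^[l - T0] w) (g * (γ * D * γ⁻¹)) =
              nfy F O T0 l (γ • F^[l - T0] w) g := by
            unfold nfy
            congr 2
            ext u
            simp only [Set.mem_setOf_eq, fx]
            constructor
            · rintro ⟨⟨h1, h2⟩, h3⟩
              rw [mul_smul g, hfix _ h1] at h2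
              exact ⟨⟨h1, h2⟩, h3⟩
            · rintro ⟨⟨h1, h2⟩, h3⟩
              refine ⟨⟨h1, ?_⟩, h3⟩
              rw [mul_smul g, hfix _ h1]
              exact h2
          rw [e]; exact hnf
      rw [if_pos hpos]
    · rw [if_neg hs]
      split_ifs <;> norm_num
  -- invariance
  have hinv : ∀ γ : G, Inv O t (fun g : G => ind (g • (γ • w) = γ • w ∧
        badp F O T0 l t g (F^[l - T0] (γ • w)) ∧
        nfy F O T0 l (F^[l - T0] (γ • w)) g ≤ (k : ℝ))) := by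
    intro γ g h hh
    have a1 : (g * h) • (γ • w) = g • (γ • w) := ker_act hT hl g hh (hT.inv l γ w hw)
    have a2 := badp_inv hT h0 hl1 g hh (F^[l - T0] (γ • w))
    have a3 : nfy F O T0 l (F^[l - T0] (γ • w)) (g * h) = nfy F O T0 l (F^[l - T0] (γ • w)) g :=
      inv_nfy hT hl (F^[l - T0] (γ • w)) g h hh
    show ind _ = ind _
    rw [a1, a3]
    unfold ind
    by_cases hp : g • (γ • w) = γ • w ∧
        badp F O T0 l t g (F^[l - T0] (γ • w)) ∧
        nfy F O T0 l (F^[l - T0] (γ • w)) g ≤ (k : ℝ)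
    · rw [if_pos hp, if_pos ⟨hp.1, a2.2 hp.2.1, hp.2.2⟩]
    · rw [if_neg hp, if_neg (fun h' => hp ⟨h'.1, a2.1 h'.2.1, h'.2.2⟩)]
  have hstep1 : ∀ γ : G, Ex O t (fun g : G =>
      ind (al F O (l + 1) t g (γ • x) ∧ tv F J0 g (γ • x) ∧
        (∀ p ∈ Far F O T0 t l J0 D w, g • (γ • p.2) ≠ γ • p.2) ∧
        ¬ badp F O T0 l t g (γ • F^[l - T0] w) ∧
        nfy F O T0 l (γ • F^[l - T0] w) g ≤ (k : ℝ))) ≤
      Ex O t (fun g : G => ind (g • (γ • w) = γ • w ∧
        badp F O T0 l t g (F^[l - T0] (γ • w)) ∧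
        nfy F O T0 l (F^[l - T0] (γ • w)) g ≤ (k : ℝ))) := by
    intro γ
    refine le_trans (ex_mono hT t (hS γ)) (le_of_eq ?_)
    exact ex_right hT (hinv γ) (γ * D * γ⁻¹)
  have hn : (0 : ℝ) ≤ ((O l).ncard : ℝ) := Nat.cast_nonneg _
  refine le_trans (mul_le_mul_of_nonneg_left (ex_mono hT t hstep1) hn) ?_
  rw [ex_swap hT t (fun γ g : G => ind (g • (γ • w) = γ • w ∧
        badp F O T0 l t g (F^[l - T0] (γ • w)) ∧
        nfy F O T0 l (F^[l - T0] (γ • w)) g ≤ (k : ℝ))), ← ex_smul hT]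
  have hstep2 : ∀ g : G, ((O l).ncard : ℝ) * Ex O t (fun γ : G => ind (g • (γ • w) = γ • w ∧
        badp F O T0 l t g (F^[l - T0] (γ • w)) ∧
        nfy F O T0 l (F^[l - T0] (γ • w)) g ≤ (k : ℝ))) ≤
      (k : ℝ) * ((nal F O (l + 1) t g - nal F O T0 t g) + (nal F O T0 l g - nal F O T0 t g)) := by
    intro g
    have h := avg_w hT hl hw (fun u => ind (g • u = u ∧
        badp F O T0 l t g (F^[l - T0] u) ∧ nfy F O T0 l (F^[l - T0] u) g ≤ (k : ℝ)))
    refine le_trans (le_of_eq h) ?_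
    exact GFd_pt hT h0 hl1 g
  refine le_trans (ex_mono hT t hstep2) ?_
  rw [ex_smul hT, ex_add hT t (fun g => nal F O (l + 1) t g - nal F O T0 t g)
    (fun g => nal F O T0 l g - nal F O T0 t g), ex_sub hT, ex_sub hT]
  have a1 : Ex O t (fun g : G => nal F O (l + 1) t g) = av G F O (l + 1) t := rfl
  have a2 : Ex O t (fun g : G => nal F O T0 t g) = av G F O T0 t := rfl
  have a3 : Ex O t (fun g : G => nal F O T0 l g) = av G F O T0 l := av_at hT h0 hl
  rw [a1, a2, a3]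
  have hk : (0 : ℝ) ≤ (k : ℝ) := Nat.cast_nonneg k
  calc (k : ℝ) * ((av G F O (l + 1) t - av G F O T0 t) + (av G F O T0 l - av G F O T0 t))
      ≤ (k : ℝ) * (ε + ε) := mul_le_mul_of_nonneg_left (add_le_add h1 h2) hk
    _ = 2 * (k : ℝ) * ε := by ring

end Pool.Agent.H42.ES
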