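/-
ROW GFe. The core inequality. PROOF. Pointwise in `(γ, g)`, with `A = (al F O (l+1) t g (γ • x) ∧ tv F J0 g (γ • x))`:
if `A` holds then `g` fixes `γ • x` and `γ • w = F (γ • x)` (al_fx, it_smul), and one of the following holds:
(a) the predicate of m_up (row GFd); (b) `g • (γ • w) = γ • w` and some far companion `p` has `g • γ • p.2 = γ • p.2` (m_far, row
GFc); (c) `al .. ∧ badp ..` (m_bad, row GFb); (d) `al .. ∧ ¬ badp .. ∧ k < nfy ..` (m_big). Hence
`ind A ≤ ind a + ind b + ind c + ind d`; ex_mono and ex_add twice, multiply by `(O l).ncard ≥ 0`. With m_all: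
`c/d ≤ (1/d) Ex (..) ≤ 2 k ε + ε1 + 3 ε/d + 1/(k d)`. (`x ∈ O (l+1)` by hT.up.)
-/
import Pool.Agent.H42.ES.GFc
import Pool.Agent.H42.ES.GFd

set_option autoImplicit false

namespace Pool.Agent.H42.ES

open scoped Classical

variable {G Ω : Type} [Group G] [MulAction G Ω] {F : Ω → Ω} {d : ℕ} {O : ℕ → Set Ω}

private theorem gfe_ind_nonneg (p : Prop) : 0 ≤ ind p := by
  unfold ind
  split_ifs <;> norm_num

private theorem gfe_ind_true {p : Prop} (h : p) : ind p = 1 := by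
  unfold ind
  rw [if_pos h]

private theorem gfe_ind_false {p : Prop} (h : ¬ p) : ind p = 0 := by
  unfold ind
  rw [if_neg h]

private theorem gfe_add4 (hT : ITree G F d O) (t : ℕ) (f1 f2 f3 f4 : G → G → ℝ) :
    Ex O t (fun γ => Ex O t (fun g => f1 γ g + f2 γ g + f3 γ g + f4 γ g)) =
      Ex O t (fun γ => Ex O t (fun g => f1 γ g)) + Ex O t (fun γ => Ex O t (fun g => f2 γ g)) +
      Ex O t (fun γ => Ex O t (fun g => f3 γ g)) + Ex O t (fun γ => Ex O t (fun g => f4 γ g)) := by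
  have h1 : (fun γ => Ex O t (fun g => f1 γ g + f2 γ g + f3 γ g + f4 γ g)) =
      fun γ => Ex O t (fun g => f1 γ g) + Ex O t (fun g => f2 γ g) +
        Ex O t (fun g => f3 γ g) + Ex O t (fun g => f4 γ g) := by
    funext γ
    rw [ex_add hT t (fun g => f1 γ g + f2 γ g + f3 γ g) (fun g => f4 γ g),
      ex_add hT t (fun g => f1 γ g + f2 γ g) (fun g => f3 γ g),
      ex_add hT t (fun g => f1 γ g) (fun g => f2 γ g)]
  rw [h1, ex_add hT t (fun γ => Ex O t (fun g => f1 γ g) + Ex O t (fun g => f2 γ g) +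
        Ex O t (fun g => f3 γ g)) (fun γ => Ex O t (fun g => f4 γ g)),
    ex_add hT t (fun γ => Ex O t (fun g => f1 γ g) + Ex O t (fun g => f2 γ g))
      (fun γ => Ex O t (fun g => f3 γ g)),
    ex_add hT t (fun γ => Ex O t (fun g => f1 γ g)) (fun γ => Ex O t (fun g => f2 γ g))]

theorem core_ineq (hT : ITree G F d O) {T0 l t k J0 : ℕ} (h0 : T0 ≤ l) (hJ : J0 ≤ l)
    (hlt : l + J0 + 1 ≤ t) (hk : 1 ≤ k) {D : G} {w x : Ω} (hD : ∀ z ∈ O l, D • z = z)
    (hw : w ∈ O l) (hx : F x = w) (hmv : D • x ≠ x) {ε ε1 c : ℝ}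
    (h1 : av G F O (l + 1) t - av G F O T0 t ≤ ε) (h2 : av G F O T0 l - av G F O T0 t ≤ ε)
    (hf : fsum F O T0 t l J0 D w ≤ ε1)
    (hc : c ≤ Ex O t (fun g : G => ({x' | al F O (l + 1) t g x' ∧ tv F J0 g x'}.ncard : ℝ))) :
    c / (d : ℝ) ≤ 2 * (k : ℝ) * ε + ε1 + 3 * ε / (d : ℝ) + 1 / ((k : ℝ) * d) := by
  have hl1 : l + 1 ≤ t := by omega
  have hl0 : l ≤ t := by omega
  have hxO : x ∈ O (l + 1) := (hT.up l x).mpr (by rw [hx]; exact hw)
  have key : ∀ γ g : G, ind (al F O (l + 1) t g (γ • x) ∧ tv F J0 g (γ • x)) ≤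
      ind (al F O (l + 1) t g (γ • x) ∧ tv F J0 g (γ • x) ∧
        (∀ p ∈ Far F O T0 t l J0 D w, g • (γ • p.2) ≠ γ • p.2) ∧
        ¬ badp F O T0 l t g (γ • F^[l - T0] w) ∧
        nfy F O T0 l (γ • F^[l - T0] w) g ≤ (k : ℝ)) +
      ind (g • (γ • w) = γ • w ∧ ∃ p ∈ Far F O T0 t l J0 D w, g • (γ • p.2) = γ • p.2) +
      ind (al F O (l + 1) t g (γ • x) ∧ badp F O T0 l t g (γ • F^[l - T0] w)) +
      ind (al F O (l + 1) t g (γ • x) ∧ ¬ badp F O T0 l t g (γ • F^[l - T0] w) ∧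
        (k : ℝ) < nfy F O T0 l (γ • F^[l - T0] w) g) := by
    intro γ g
    have n1 := gfe_ind_nonneg (al F O (l + 1) t g (γ • x) ∧ tv F J0 g (γ • x) ∧
        (∀ p ∈ Far F O T0 t l J0 D w, g • (γ • p.2) ≠ γ • p.2) ∧
        ¬ badp F O T0 l t g (γ • F^[l - T0] w) ∧
        nfy F O T0 l (γ • F^[l - T0] w) g ≤ (k : ℝ))
    have n2 := gfe_ind_nonneg (g • (γ • w) = γ • w ∧
      ∃ p ∈ Far F O T0 t l J0 D w, g • (γ • p.2) = γ • p.2)
    have n3 := gfe_ind_nonneg (al F O (l + 1) t g (γ • x) ∧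
      badp F O T0 l t g (γ • F^[l - T0] w))
    have n4 := gfe_ind_nonneg (al F O (l + 1) t g (γ • x) ∧
      ¬ badp F O T0 l t g (γ • F^[l - T0] w) ∧ (k : ℝ) < nfy F O T0 l (γ • F^[l - T0] w) g)
    by_cases hA : al F O (l + 1) t g (γ • x) ∧ tv F J0 g (γ • x)
    · rw [gfe_ind_true hA]
      obtain ⟨hal, htv⟩ := hA
      have hfx := (al_fx hT hl1 hal).2
      have hgw : g • (γ • w) = γ • w := by
        have h1 := congrArg F hfx
        rw [hT.equiv g (γ • x), hT.equiv γ x, hx] at h1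
        exact h1
      by_cases hb : badp F O T0 l t g (γ • F^[l - T0] w)
      · have h3 := gfe_ind_true (p := al F O (l + 1) t g (γ • x) ∧
          badp F O T0 l t g (γ • F^[l - T0] w)) ⟨hal, hb⟩
        linarith
      · by_cases hf' : ∃ p ∈ Far F O T0 t l J0 D w, g • (γ • p.2) = γ • p.2
        · have h2 := gfe_ind_true (p := g • (γ • w) = γ • w ∧
            ∃ p ∈ Far F O T0 t l J0 D w, g • (γ • p.2) = γ • p.2) ⟨hgw, hf'⟩
          linarith
        · by_cases hkk : (k : ℝ) < nfy F O T0 l (γ • F^[l - T0] w) g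
          · have h4 := gfe_ind_true (p := al F O (l + 1) t g (γ • x) ∧
              ¬ badp F O T0 l t g (γ • F^[l - T0] w) ∧
              (k : ℝ) < nfy F O T0 l (γ • F^[l - T0] w) g) ⟨hal, hb, hkk⟩
            linarith
          · have h5 := gfe_ind_true (p := al F O (l + 1) t g (γ • x) ∧ tv F J0 g (γ • x) ∧
              (∀ p ∈ Far F O T0 t l J0 D w, g • (γ • p.2) ≠ γ • p.2) ∧
              ¬ badp F O T0 l t g (γ • F^[l - T0] w) ∧
              nfy F O T0 l (γ • F^[l - T0] w) g ≤ (k : ℝ))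
              ⟨hal, htv, fun p hp hpp => hf' ⟨p, hp, hpp⟩, hb, not_lt.mp hkk⟩
            linarith
    · rw [gfe_ind_false hA]
      linarith
  have hE := ex_mono hT t (fun γ => ex_mono hT t (key γ))
  rw [gfe_add4 hT t] at hE
  have m0 := m_all (J0 := J0) hT hl1 hxO
  have m1 := m_up (k := k) hT h0 hJ hlt hD hw hx hmv h1 h2
  have m2 := (m_far (T0 := T0) (t := t) (J0 := J0) hT hl0 hw D).trans hf
  have m3 := m_bad hT h0 hl1 hw hx h1 h2
  have m4 := m_big hT h0 hl1 hk hw hx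
  have hcO : (0 : ℝ) ≤ ((O l).ncard : ℝ) := Nat.cast_nonneg _
  have hE2 := mul_le_mul_of_nonneg_left hE hcO
  rw [mul_add, mul_add, mul_add, m0] at hE2
  have hd : (0 : ℝ) ≤ 1 / (d : ℝ) := by positivity
  have hc2 := mul_le_mul_of_nonneg_left hc hd
  have e : c / (d : ℝ) = 1 / (d : ℝ) * c := by ring
  rw [e]
  linarith

end Pool.Agent.H42.ES
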