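/-
ROW GHa. Choice of the index `j0` (pure combinatorics). PROOF. Suppose not: for every `j0` there are `j ≥ j0` and `m0` such
that for all `m ≥ m0`: `2 * #{i < m | R j m i = R j0 m i} < m`, i.e. `2 * #{i < m | R j m i < R j0 m i} > m` (h2). By recursion
choose `j_0 ≤ j_1 ≤ ... ≤ j_(2B)` (start `j_0 = 0`) and let `m` be larger than all the `m0` and `m ≥ 1`. Then
`∑_{s < 2B} ∑_{i < m} (R (j_s) m i - R (j_(s+1)) m i) ≥ ∑_{s < 2B} #{i < m | strict drop at s} > 2B * m / 2 = B m`, but the
sum telescopes for every `i` to `R (j_0) m i - R (j_(2B)) m i ≤ B - 1`; total `≤ m (B - 1) < B m`. Contradiction.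
(`B ≥ 1` because of h1.)
-/
import Mathlib

set_option autoImplicit false

namespace Pool.Agent.H42.ES

theorem choose_j {B : ℕ} (R : ℕ → ℕ → ℕ → ℕ) (h1 : ∀ j m i, 1 ≤ R j m i ∧ R j m i ≤ B)
    (h2 : ∀ j j' m i, j ≤ j' → R j' m i ≤ R j m i) :
    ∃ j0, ∀ j ≥ j0, ∀ m0, ∃ m ≥ m0,
      m ≤ 2 * ((Finset.range m).filter (fun i => R j m i = R j0 m i)).card := by
  by_contra hcon
  push Not at hcon
  choose nx hnx m0 hm0 using hcon
  have hB : 1 ≤ B := le_trans (h1 0 0 0).1 (h1 0 0 0).2
  let s : ℕ → ℕ := fun k => Nat.rec 0 (fun _ r => nx r) k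
  have hs : ∀ k, s (k + 1) = nx (s k) := fun k => rfl
  have hmono : ∀ k, s k ≤ s (k + 1) := fun k => by
    rw [hs]
    exact hnx (s k)
  let M : ℕ := (Finset.range (2 * B)).sup (fun k => m0 (s k))
  have hM : ∀ k < 2 * B, m0 (s k) ≤ M := fun k hk =>
    Finset.le_sup (f := fun k => m0 (s k)) (Finset.mem_range.2 hk)
  let c : ℕ → ℕ := fun k =>
    ((Finset.range M).filter (fun i => R (s (k + 1)) M i < R (s k) M i)).card
  have hc : ∀ k < 2 * B, M + 1 ≤ 2 * c k := by
    intro k hk
    have h3 := hm0 (s k) M (hM k hk)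
    rw [← hs] at h3
    have h4 := Finset.card_filter_add_card_filter_not (s := Finset.range M)
      (fun i => R (s (k + 1)) M i = R (s k) M i)
    have h5 : ((Finset.range M).filter (fun i => ¬ R (s (k + 1)) M i = R (s k) M i)).card
        = c k := by
      show _ = ((Finset.range M).filter (fun i => R (s (k + 1)) M i < R (s k) M i)).card
      congr 1
      apply Finset.filter_congr
      intro i _
      have h6 := h2 (s k) (s (k + 1)) M i (hmono k)
      omega
    rw [h5, Finset.card_range] at h4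
    omega
  have hsum : ∀ n, (∑ k ∈ Finset.range n, (c k : ℤ)) ≤
      ∑ i ∈ Finset.range M, ((R (s 0) M i : ℤ) - R (s n) M i) := by
    intro n
    induction n with
    | zero => simp
    | succ n ih =>
      rw [Finset.sum_range_succ]
      have h7 : (c n : ℤ) ≤ ∑ i ∈ Finset.range M, ((R (s n) M i : ℤ) - R (s (n + 1)) M i) := by
        have h8 : (c n : ℤ) = ∑ i ∈ Finset.range M,
            (if R (s (n + 1)) M i < R (s n) M i then (1 : ℤ) else 0) := by
          rw [Finset.sum_boole]
        rw [h8]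
        apply Finset.sum_le_sum
        intro i _
        have h9 := h2 (s n) (s (n + 1)) M i (hmono n)
        split_ifs with h10
        · have : (R (s (n + 1)) M i : ℤ) + 1 ≤ R (s n) M i := by exact_mod_cast h10
          linarith
        · have : (R (s (n + 1)) M i : ℤ) ≤ R (s n) M i := by exact_mod_cast h9
          linarith
      have h11 : ∑ i ∈ Finset.range M, ((R (s 0) M i : ℤ) - R (s (n + 1)) M i) =
          ∑ i ∈ Finset.range M, ((R (s 0) M i : ℤ) - R (s n) M i) +
          ∑ i ∈ Finset.range M, ((R (s n) M i : ℤ) - R (s (n + 1)) M i) := by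
        rw [← Finset.sum_add_distrib]
        apply Finset.sum_congr rfl
        intro i _
        ring
      rw [h11]
      linarith
  have hup : ∑ i ∈ Finset.range M, ((R (s 0) M i : ℤ) - R (s (2 * B)) M i) ≤
      (M : ℤ) * ((B : ℤ) - 1) := by
    have h12 : ∀ i ∈ Finset.range M, ((R (s 0) M i : ℤ) - R (s (2 * B)) M i) ≤ (B : ℤ) - 1 := by
      intro i _
      have h13 : (R (s 0) M i : ℤ) ≤ B := by exact_mod_cast (h1 (s 0) M i).2
      have h14 : (1 : ℤ) ≤ R (s (2 * B)) M i := by exact_mod_cast (h1 (s (2 * B)) M i).1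
      linarith
    have h15 := Finset.sum_le_card_nsmul (Finset.range M) _ _ h12
    rw [Finset.card_range, nsmul_eq_mul] at h15
    exact h15
  have hlow : (2 * B : ℤ) * ((M : ℤ) + 1) ≤ 2 * ∑ k ∈ Finset.range (2 * B), (c k : ℤ) := by
    rw [Finset.mul_sum]
    have h16 : ∀ k ∈ Finset.range (2 * B), ((M : ℤ) + 1) ≤ 2 * (c k : ℤ) := by
      intro k hk
      have := hc k (Finset.mem_range.1 hk)
      exact_mod_cast this
    have h17 := Finset.card_nsmul_le_sum (Finset.range (2 * B)) _ _ h16
    rw [Finset.card_range, nsmul_eq_mul] at h17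
    push_cast at h17
    exact h17
  have h18 := hsum (2 * B)
  have hB' : (1 : ℤ) ≤ B := by exact_mod_cast hB
  have hM0 : (0 : ℤ) ≤ M := by positivity
  nlinarith

end Pool.Agent.H42.ES
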