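/-
ROW GGa. The index `rr`. Throughout `J0 ≤ l`, `l + J0 + 1 ≤ t`, `x ∈ O t`, `z = F^[t+J0-l] x ∈ O (l-J0)` (o_up), `K = trv G F J0 z`,
`V_x = V ⊓ stabilizer G x`; `B_z = {v | ∃ i ≤ 2*J0+1, F^[i] v = z}` is finite, of cardinality at most
`S = ∑ i ∈ range (2*J0+2), d^i` (o_fib, row GAa). `V_x` fixes `z` (it_smul) and acts on `B_z`
(`F^[i] (g • v) = g • z = z`); the kernel of `ρ : V_x → Equiv.Perm B_z` is `K.subgroupOf V_x` (definition of trv).
PROOFS.
* rr_bound (`B = S !`): `K.relIndex V_x = (K.subgroupOf V_x).index = card of the range of ρ` (Subgroup.index_ker) which is a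
  subgroup of the finite group `Equiv.Perm B_z`, of order `(card B_z)! ≤ S !`.
* rr_eq: `U_x ≤ V_x`; the range of `ρ` restricted to `U_x` is contained in the range on `V_x` and has cardinality
  `K.relIndex U_x = rr U = rr V`, so the ranges agree (finite): for `g ∈ V_x` there is `u ∈ U_x` acting on `B_z` like `g`.
  Then `u⁻¹ * g ∈ K`.
* rr_mono: the same inclusion of ranges (or Subgroup.relIndex_le...).
* rr_anti: `x ∈ O (t+1)`: the ancestor `z` is the same for `x` (level `t+1`) and `F x` (level `t`), `V_x ≤ V_{F x}`; again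
  inclusion of ranges.
* rr_indep: choose `a` with `a • x = x'` (hT.trans); `z' = a • z`. Conjugation by `a` maps `V_x` onto `V_{x'}` (`V` normal)
  and `trv z` onto `trv z'` (`F^[i] v = z ↔ F^[i] (a • v) = z'`). Indices are preserved under conjugation (e.g.
  Subgroup.relIndex_pointwise_smul with `MulAut.conj a`, or Subgroup.relIndex_map_map / comap).
-/
import Pool.Agent.H42.ES.GAb

set_option autoImplicit false

namespace Pool.Agent.H42.ES

open scoped Classical

variable {G Ω : Type} [Group G] [MulAction G Ω] {F : Ω → Ω} {d : ℕ} {O : ℕ → Set Ω}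

/-- The points at height at most `2 * J0 + 1` above `z`. -/
def Bz (F : Ω → Ω) (J0 : ℕ) (z : Ω) : Set Ω := {v | ∃ i ≤ 2 * J0 + 1, F^[i] v = z}

theorem bz_smul (hT : ITree G F d O) {J0 : ℕ} {z : Ω} {g : G} (hg : g • z = z) {v : Ω}
    (hv : v ∈ Bz F J0 z) : g • v ∈ Bz F J0 z := by
  obtain ⟨i, hi, h⟩ := hv
  exact ⟨i, hi, by rw [it_smul hT, h, hg]⟩

/-- The action of the stabiliser of `z` on the points above `z`. -/
def rho (hT : ITree G F d O) (J0 : ℕ) (z : Ω) :
    MulAction.stabilizer G z →* Equiv.Perm (Bz F J0 z) where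
  toFun := fun g =>
    { toFun := fun v => ⟨g.1 • v.1, bz_smul hT g.2 v.2⟩
      invFun := fun v => ⟨g.1⁻¹ • v.1, bz_smul hT (by
        have h : g.1 • z = z := g.2
        calc g.1⁻¹ • z = g.1⁻¹ • (g.1 • z) := by rw [h]
          _ = z := inv_smul_smul _ _) v.2⟩
      left_inv := fun v => Subtype.ext (inv_smul_smul g.1 v.1)
      right_inv := fun v => Subtype.ext (smul_inv_smul g.1 v.1) }
  map_one' := by
    ext v
    exact one_smul G v.1
  map_mul' := fun a b => by
    ext v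
    exact mul_smul a.1 b.1 v.1

theorem rho_ker (hT : ITree G F d O) (J0 : ℕ) (z : Ω) :
    (rho hT J0 z).ker = (trv G F J0 z).subgroupOf (MulAction.stabilizer G z) := by
  ext g
  rw [MonoidHom.mem_ker, Subgroup.mem_subgroupOf]
  constructor
  · intro h i hi v hv
    have h1 := congrArg (fun e : Equiv.Perm (Bz F J0 z) => (e ⟨v, i, hi, hv⟩).1) h
    exact h1
  · intro h
    ext v
    obtain ⟨v, i, hi, hv⟩ := v
    exact h i hi v hv

theorem rho_rel (hT : ITree G F d O) (J0 : ℕ) (z : Ω) {W : Subgroup G}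
    (hW : W ≤ MulAction.stabilizer G z) :
    (trv G F J0 z).relIndex W =
      Nat.card ((W.subgroupOf (MulAction.stabilizer G z)).map (rho hT J0 z)) := by
  rw [← Subgroup.relIndex_ker, rho_ker, Subgroup.relIndex_subgroupOf hW]

theorem bz_fin (hT : ITree G F d O) (J0 : ℕ) {s : ℕ} {z : Ω} (hz : z ∈ O s) :
    (Bz F J0 z).Finite ∧ (Bz F J0 z).ncard ≤ ∑ i ∈ Finset.range (2 * J0 + 2), d ^ i := by
  have h1 : Bz F J0 z = ⋃ i ∈ Finset.range (2 * J0 + 2), {v | F^[i] v = z} := by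
    ext v
    simp only [Bz, Set.mem_setOf_eq, Set.mem_iUnion, Finset.mem_range, exists_prop]
    constructor
    · rintro ⟨i, hi, h⟩
      exact ⟨i, by omega, h⟩
    · rintro ⟨i, hi, h⟩
      exact ⟨i, by omega, h⟩
  constructor
  · rw [h1]
    exact Set.Finite.biUnion (Finset.finite_toSet _) fun i _ => (o_fib hT i hz).1
  · rw [h1]
    refine (Finset.set_ncard_biUnion_le _ _).trans ?_
    exact Finset.sum_le_sum fun i _ => (o_fib hT i hz).2.le

theorem bz_perm (hT : ITree G F d O) (J0 : ℕ) {s : ℕ} {z : Ω} (hz : z ∈ O s) :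
    Finite (Equiv.Perm (Bz F J0 z)) := by
  have := (bz_fin hT J0 hz).1.to_subtype
  infer_instance

theorem stab_up (hT : ITree G F d O) (V : Subgroup G) (x : Ω) (n : ℕ) :
    V ⊓ MulAction.stabilizer G x ≤ MulAction.stabilizer G (F^[n] x) := by
  intro g hg
  have h : g • x = x := hg.2
  change g • F^[n] x = F^[n] x
  rw [← it_smul hT, h]

theorem z_lev (hT : ITree G F d O) {J0 l t : ℕ} (hJ : J0 ≤ l) (ht : l + J0 + 1 ≤ t) {x : Ω}
    (hx : x ∈ O t) : F^[t + J0 - l] x ∈ O (l - J0) := by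
  rw [← o_up hT]
  have h : l - J0 + (t + J0 - l) = t := by omega
  rw [h]
  exact hx

theorem rel_mono (hT : ITree G F d O) (J0 : ℕ) {s : ℕ} {z : Ω} (hz : z ∈ O s) {U W : Subgroup G}
    (hUW : U ≤ W) (hW : W ≤ MulAction.stabilizer G z) :
    (trv G F J0 z).relIndex U ≤ (trv G F J0 z).relIndex W := by
  rw [rho_rel hT J0 z (hUW.trans hW), rho_rel hT J0 z hW]
  have := bz_perm hT J0 hz
  refine Nat.card_mono (Set.toFinite _) ?_
  exact Subgroup.map_mono (fun g hg => hUW hg)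

theorem rr_bound (hT : ITree G F d O) (J0 : ℕ) : ∃ B : ℕ, 1 ≤ B ∧ ∀ (l t : ℕ) (V : Subgroup G)
    (x : Ω), J0 ≤ l → l + J0 + 1 ≤ t → x ∈ O t → 1 ≤ rr F J0 l t V x ∧ rr F J0 l t V x ≤ B := by
  refine ⟨(∑ i ∈ Finset.range (2 * J0 + 2), d ^ i).factorial, Nat.factorial_pos _, ?_⟩
  intro l t V x hJ ht hx
  have hz := z_lev hT hJ ht hx
  have hfin := bz_perm hT J0 hz
  unfold rr
  rw [rho_rel hT J0 _ (stab_up hT V x _)]
  constructor
  · exact Nat.card_pos
  · have hfin2 := (bz_fin hT J0 hz).1.to_subtype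
    refine (Subgroup.card_le_card_group _).trans ?_
    rw [Nat.card_perm, Nat.card_coe_set_eq]
    exact Nat.factorial_le (bz_fin hT J0 hz).2

theorem rr_eq (hT : ITree G F d O) {J0 l t : ℕ} (hJ : J0 ≤ l) (ht : l + J0 + 1 ≤ t)
    {U V : Subgroup G} (hUV : U ≤ V) {x : Ω} (hx : x ∈ O t)
    (h : rr F J0 l t U x = rr F J0 l t V x) {g : G} (hg : g ∈ V) (hgx : g • x = x) :
    ∃ u ∈ U, u • x = x ∧ u⁻¹ * g ∈ trv G F J0 (F^[t + J0 - l] x) := by
  have hz := z_lev hT hJ ht hx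
  have hfin := bz_perm hT J0 hz
  have hU := stab_up hT U x (t + J0 - l)
  have hV := stab_up hT V x (t + J0 - l)
  unfold rr at h
  rw [rho_rel hT J0 _ hU, rho_rel hT J0 _ hV] at h
  have hle : ((U ⊓ MulAction.stabilizer G x).subgroupOf
      (MulAction.stabilizer G (F^[t + J0 - l] x))).map (rho hT J0 (F^[t + J0 - l] x)) ≤
      ((V ⊓ MulAction.stabilizer G x).subgroupOf
      (MulAction.stabilizer G (F^[t + J0 - l] x))).map (rho hT J0 (F^[t + J0 - l] x)) :=
    Subgroup.map_mono (fun g hg => ⟨hUV hg.1, hg.2⟩)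
  have heq := Subgroup.eq_of_le_of_card_ge hle h.ge
  have hgV : g ∈ V ⊓ MulAction.stabilizer G x := ⟨hg, hgx⟩
  have hm : rho hT J0 (F^[t + J0 - l] x) ⟨g, hV hgV⟩ ∈ ((V ⊓ MulAction.stabilizer G x).subgroupOf
      (MulAction.stabilizer G (F^[t + J0 - l] x))).map (rho hT J0 (F^[t + J0 - l] x)) :=
    Subgroup.mem_map_of_mem _ hgV
  rw [← heq] at hm
  obtain ⟨u, hu, hug⟩ := Subgroup.mem_map.1 hm
  have hu' : u.1 ∈ U ⊓ MulAction.stabilizer G x := hu
  refine ⟨u.1, hu'.1, hu'.2, ?_⟩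
  have hk : u⁻¹ * (⟨g, hV hgV⟩ : MulAction.stabilizer G (F^[t + J0 - l] x)) ∈
      (rho hT J0 (F^[t + J0 - l] x)).ker := by
    rw [MonoidHom.mem_ker, map_mul, map_inv, hug, inv_mul_cancel]
  rw [rho_ker, Subgroup.mem_subgroupOf] at hk
  exact hk

theorem rr_mono (hT : ITree G F d O) {J0 l t : ℕ} (hJ : J0 ≤ l) (ht : l + J0 + 1 ≤ t)
    {U V : Subgroup G} (hUV : U ≤ V) {x : Ω} (hx : x ∈ O t) :
    rr F J0 l t U x ≤ rr F J0 l t V x := by
  have hz := z_lev hT hJ ht hx
  exact rel_mono hT J0 hz (fun g hg => ⟨hUV hg.1, hg.2⟩) (stab_up hT V x _)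

theorem rr_anti (hT : ITree G F d O) {J0 l t : ℕ} (hJ : J0 ≤ l) (ht : l + J0 + 1 ≤ t)
    (V : Subgroup G) {x : Ω} (hx : x ∈ O (t + 1)) :
    rr F J0 l (t + 1) V x ≤ rr F J0 l t V (F x) := by
  have hFx : F x ∈ O t := (hT.up t x).1 hx
  have hz := z_lev hT hJ ht hFx
  have h1 : F^[t + 1 + J0 - l] x = F^[t + J0 - l] (F x) := by
    have h2 : t + 1 + J0 - l = (t + J0 - l) + 1 := by omega
    rw [h2, Function.iterate_succ_apply]
  unfold rr
  rw [h1]
  refine rel_mono hT J0 hz ?_ (stab_up hT V (F x) _)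
  intro g hg
  refine ⟨hg.1, ?_⟩
  have h3 : g • x = x := hg.2
  change g • F x = F x
  rw [← hT.equiv, h3]

open scoped Pointwise

theorem rr_indep (hT : ITree G F d O) {J0 l t : ℕ} (hJ : J0 ≤ l) (ht : l + J0 + 1 ≤ t)
    {V : Subgroup G} (hV : V.Normal) {x x' : Ω} (hx : x ∈ O t) (hx' : x' ∈ O t) :
    rr F J0 l t V x = rr F J0 l t V x' := by
  obtain ⟨a, ha⟩ := hT.trans t x hx x' hx'
  have hz' : F^[t + J0 - l] x' = a • F^[t + J0 - l] x := by rw [← ha, it_smul hT]
  have h1 : trv G F J0 (F^[t + J0 - l] x') =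
      MulAut.conj a • trv G F J0 (F^[t + J0 - l] x) := by
    ext g
    rw [Subgroup.mem_pointwise_smul_iff_inv_smul_mem, MulAut.smul_def, MulAut.conj_inv_apply, hz']
    constructor
    · intro hg i hi v hv
      have h2 : g • (a • v) = a • v := hg i hi (a • v) (by rw [it_smul hT, hv])
      rw [mul_smul, mul_smul, h2, inv_smul_smul]
    · intro hg i hi v hv
      have h2 := hg i hi (a⁻¹ • v) (by rw [it_smul hT, hv, inv_smul_smul])
      rw [mul_smul, mul_smul, smul_inv_smul] at h2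
      calc g • v = a • (a⁻¹ • (g • v)) := (smul_inv_smul _ _).symm
        _ = v := by rw [h2, smul_inv_smul]
  have h2 : V ⊓ MulAction.stabilizer G x' =
      MulAut.conj a • (V ⊓ MulAction.stabilizer G x) := by
    ext g
    rw [Subgroup.mem_pointwise_smul_iff_inv_smul_mem, MulAut.smul_def, MulAut.conj_inv_apply]
    constructor
    · rintro ⟨h3, h4⟩
      have h4' : g • x' = x' := h4
      refine ⟨?_, ?_⟩
      · have h5 := hV.conj_mem g h3 a⁻¹
        rw [inv_inv] at h5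
        exact h5
      · change (a⁻¹ * g * a) • x = x
        rw [mul_smul, mul_smul, ha, h4', ← ha, inv_smul_smul]
    · rintro ⟨h3, h4⟩
      have h4' : (a⁻¹ * g * a) • x = x := h4
      refine ⟨?_, ?_⟩
      · have h5 := hV.conj_mem _ h3 a
        have h6 : a * (a⁻¹ * g * a) * a⁻¹ = g := by group
        rw [h6] at h5
        exact h5
      · change g • x' = x'
        rw [mul_smul, mul_smul, ha] at h4'
        calc g • x' = a • (a⁻¹ • (g • x')) := (smul_inv_smul _ _).symm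
          _ = x' := by rw [h4', ha]
  unfold rr
  rw [h1, h2, Subgroup.relIndex_pointwise_smul]

end Pool.Agent.H42.ES
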