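/-
ROW GGb. The eventual value `rs`. PROOFS. The set `{r | ∃ t ≥ l+J0+1, ∃ x ∈ O t, r = rr F J0 l t V x}` is nonempty (o_ne, row GAa).
* rs_ev: the infimum is attained (Nat.sInf_mem): `rs = rr F J0 l t1 V x1`. For `t ≥ t1` and `x ∈ O t`: induction on `t - t1` with
  rr_anti and rr_indep (row GGa) gives `rr F J0 l t V x ≤ rs`, and `≥` by Nat.sInf_le.
* rs_bound: `B` of rr_bound, from rs_ev.
* rs_mono: rs_ev for `U` and `V`, at a common level `t`, and rr_mono (row GGa).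
-/
import Pool.Agent.H42.ES.GGa

set_option autoImplicit false

namespace Pool.Agent.H42.ES

open scoped Classical

variable {G Ω : Type} [Group G] [MulAction G Ω] {F : Ω → Ω} {d : ℕ} {O : ℕ → Set Ω}

theorem rs_ev (hT : ITree G F d O) {J0 l : ℕ} (hJ : J0 ≤ l) {V : Subgroup G} (hV : V.Normal) :
    ∃ t0 ≥ l + J0 + 1, ∀ t ≥ t0, ∀ x ∈ O t, rr F J0 l t V x = rs F O J0 l V := by
  have hne : {r | ∃ t ≥ l + J0 + 1, ∃ x ∈ O t, r = rr F J0 l t V x}.Nonempty := by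
    obtain ⟨x, hx⟩ := o_ne hT (l + J0 + 1)
    exact ⟨_, l + J0 + 1, le_refl _, x, hx, rfl⟩
  obtain ⟨t1, ht1, x1, hx1, h1⟩ := Nat.sInf_mem hne
  have h1' : rs F O J0 l V = rr F J0 l t1 V x1 := h1
  have key : ∀ n : ℕ, ∀ x ∈ O (t1 + n), rr F J0 l (t1 + n) V x ≤ rs F O J0 l V := by
    intro n
    induction n with
    | zero =>
      intro x hx
      rw [h1']
      exact (rr_indep hT hJ ht1 hV hx hx1).le
    | succ n ih =>
      intro x hx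
      have hx' : x ∈ O (t1 + n + 1) := hx
      refine (rr_anti hT hJ (by omega) V hx').trans (ih (F x) ?_)
      exact (hT.up (t1 + n) x).1 hx'
  refine ⟨t1, ht1, fun t ht x hx => le_antisymm ?_ ?_⟩
  · obtain ⟨n, rfl⟩ := Nat.exists_eq_add_of_le ht
    exact key n x hx
  · exact Nat.sInf_le ⟨t, le_trans ht1 ht, x, hx, rfl⟩

theorem rs_bound (hT : ITree G F d O) (J0 : ℕ) : ∃ B : ℕ, 1 ≤ B ∧ ∀ (l : ℕ) (V : Subgroup G),
    J0 ≤ l → V.Normal → 1 ≤ rs F O J0 l V ∧ rs F O J0 l V ≤ B := by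
  obtain ⟨B, hB, h⟩ := rr_bound hT J0
  refine ⟨B, hB, fun l V hJ hV => ?_⟩
  obtain ⟨t0, ht0, h0⟩ := rs_ev hT hJ hV
  obtain ⟨x, hx⟩ := o_ne hT t0
  rw [← h0 t0 (le_refl _) x hx]
  exact h l t0 V x hJ ht0 hx

theorem rs_mono (hT : ITree G F d O) {J0 l : ℕ} (hJ : J0 ≤ l) {U V : Subgroup G} (hU : U.Normal)
    (hV : V.Normal) (hUV : U ≤ V) : rs F O J0 l U ≤ rs F O J0 l V := by
  obtain ⟨t0, ht0, h0⟩ := rs_ev hT hJ hU
  obtain ⟨t1, ht1, h1⟩ := rs_ev hT hJ hV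
  obtain ⟨x, hx⟩ := o_ne hT (max t0 t1)
  rw [← h0 (max t0 t1) (le_max_left _ _) x hx, ← h1 (max t0 t1) (le_max_right _ _) x hx]
  exact rr_mono hT hJ (le_trans ht0 (le_max_left _ _)) hUV hx

end Pool.Agent.H42.ES
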