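/-
ROW GIa. Cells. PROOFS. Integrands are invariant at level `t` (`j ≤ t`): `g0⁻¹ * (g * h) ∈ ker j ↔ g0⁻¹ * g ∈ ker j` for
`h ∈ ker t ≤ ker j`; al_inv, inv_nfy (row GDb).
* bt_nonneg, Mt_nonneg: ex_nonneg. bt_le_Mt: pointwise: if `z` is alive at `t` then `1 ≤ nfy F O j t z g`.
* Mt_le: `nfy F O j t z g ≤ (fx O t g).ncard` and ex_fx (row GCa).
* bt_anti: pointwise al_time (row GDa), then ex_level (row GBb) for the integrand of level `t`.
* q_anti': `ind (g ∈ V ∧ (fx O t' g).Nonempty) ≤ ind (g ∈ V ∧ (fx O t g).Nonempty)` (`F^[t'-t]` of a fixed point) and ex_level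
  (`V = ker j0`, `j0 ≤ t`).
* pc_ex: for `t ≥ j0`: `δ ≤ ∑ z ∈ (O j0).toFinset, bt F O j0 1 z t` (pointwise: if `g ∈ ker j0` and `x ∈ fx O t g` then
  `z = F^[t-j0] x` is alive at `t`; ex_sum). With `n = (O j0).ncard`: for every `t` some `z` has `bt .. z t ≥ δ/n`. If no `z` had
  `bt .. z t ≥ δ/n` for all `t ≥ j0` then for each of the finitely many `z` there is `t_z` with `bt .. z t < δ/n` for all
  `t ≥ t_z` (bt_anti); take `t = max t_z`: contradiction.
-/
import Pool.Agent.H42.ES.GDb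

set_option autoImplicit false

namespace Pool.Agent.H42.ES

open scoped Classical

variable {G Ω : Type} [Group G] [MulAction G Ω] {F : Ω → Ω} {d : ℕ} {O : ℕ → Set Ω}

private theorem gia_ind0 (p : Prop) : 0 ≤ ind p := by
  unfold ind
  split_ifs
  · exact zero_le_one
  · exact le_rfl

private theorem gia_ind1 (p : Prop) : ind p ≤ 1 := by
  unfold ind
  split_ifs
  · exact le_rfl
  · exact zero_le_one

private theorem gia_mono {p q : Prop} (h : p → q) : ind p ≤ ind q := by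
  by_cases hp : p
  · have hq := h hp
    unfold ind
    rw [if_pos hp, if_pos hq]
  · have h1 : ind p = 0 := by
      unfold ind
      rw [if_neg hp]
    rw [h1]
    exact gia_ind0 q

private theorem gia_congr {p q : Prop} (h : p ↔ q) : ind p = ind q :=
  le_antisymm (gia_mono h.1) (gia_mono h.2)

private theorem gia_pos {p : Prop} (h : p) : ind p = 1 := by
  unfold ind
  rw [if_pos h]

private theorem gia_neg {p : Prop} (h : ¬ p) : ind p = 0 := by
  unfold ind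
  rw [if_neg h]

private theorem gia_ker (hT : ITree G F d O) {j t : ℕ} (h : j ≤ t) (g0 g : G) {k : G}
    (hk : k ∈ ker G O t) : g0⁻¹ * (g * k) ∈ ker G O j ↔ g0⁻¹ * g ∈ ker G O j := by
  rw [← mul_assoc]
  exact Subgroup.mul_mem_cancel_right _ (ker_anti hT h hk)

private theorem gia_fin (hT : ITree G F d O) (j t : ℕ) (z : Ω) (g : G) :
    {u | u ∈ fx O t g ∧ F^[t - j] u = z}.Finite :=
  (o_fin hT t).subset fun _ hu => hu.1.1

private theorem gia_fxne (hT : ITree G F d O) {t t' : ℕ} (h : t ≤ t') (g : G)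
    (hne : (fx O t' g).Nonempty) : (fx O t g).Nonempty := by
  obtain ⟨z, hz, hgz⟩ := hne
  refine ⟨F^[t' - t] z, ?_, ?_⟩
  · have h1 : t' = t + (t' - t) := by omega
    rw [h1] at hz
    exact (o_up hT t (t' - t) z).1 hz
  · rw [← it_smul hT, hgz]

theorem bt_nonneg (hT : ITree G F d O) (j : ℕ) (g0 : G) (z : Ω) (t : ℕ) :
    0 ≤ bt F O j g0 z t := by
  exact ex_nonneg hT t fun g => gia_ind0 _

theorem Mt_nonneg (hT : ITree G F d O) (j : ℕ) (g0 : G) (z : Ω) (t : ℕ) :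
    0 ≤ Mt F O j g0 z t := by
  exact ex_nonneg hT t fun g => mul_nonneg (gia_ind0 _) (Nat.cast_nonneg _)

theorem bt_le_Mt (hT : ITree G F d O) {j t : ℕ} (h : j ≤ t) (g0 : G) (z : Ω) :
    bt F O j g0 z t ≤ Mt F O j g0 z t := by
  refine ex_mono hT t fun g => ?_
  by_cases h1 : g0⁻¹ * g ∈ ker G O j
  · by_cases h2 : al F O j t g z
    · rw [gia_pos (And.intro h1 h2), gia_pos h1, one_mul]
      obtain ⟨u, hu, huz⟩ := h2
      unfold nfy
      have h3 : 0 < {u | u ∈ fx O t g ∧ F^[t - j] u = z}.ncard :=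
        (Set.ncard_pos (gia_fin hT j t z g)).2 ⟨u, hu, huz⟩
      exact_mod_cast h3
    · rw [gia_neg (fun h3 => h2 h3.2)]
      exact mul_nonneg (gia_ind0 _) (Nat.cast_nonneg _)
  · rw [gia_neg (fun h3 => h1 h3.1)]
    exact mul_nonneg (gia_ind0 _) (Nat.cast_nonneg _)

theorem Mt_le (hT : ITree G F d O) {j t : ℕ} (h : j ≤ t) (g0 : G) (z : Ω) :
    Mt F O j g0 z t ≤ 1 := by
  have h1 : Mt F O j g0 z t ≤ Ex O t (fun g : G => ((fx O t g).ncard : ℝ)) := by
    refine ex_mono hT t fun g => ?_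
    have h2 : nfy F O j t z g ≤ ((fx O t g).ncard : ℝ) := by
      unfold nfy
      have hs : {u | u ∈ fx O t g ∧ F^[t - j] u = z} ⊆ fx O t g := fun u hu => hu.1
      have hf : (fx O t g).Finite := (o_fin hT t).subset fun u hu => hu.1
      exact_mod_cast Set.ncard_le_ncard hs hf
    have h3 : 0 ≤ nfy F O j t z g := Nat.cast_nonneg _
    have h4 := gia_ind1 (g0⁻¹ * g ∈ ker G O j)
    calc ind (g0⁻¹ * g ∈ ker G O j) * nfy F O j t z g ≤ 1 * nfy F O j t z g :=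
          mul_le_mul_of_nonneg_right h4 h3
      _ = nfy F O j t z g := one_mul _
      _ ≤ _ := h2
  rw [ex_fx hT le_rfl] at h1
  exact h1

theorem bt_anti (hT : ITree G F d O) {j t t' : ℕ} (h : j ≤ t) (h' : t ≤ t') (g0 : G) (z : Ω) :
    bt F O j g0 z t' ≤ bt F O j g0 z t := by
  have hI : Inv O t (fun g : G => ind (g0⁻¹ * g ∈ ker G O j ∧ al F O j t g z)) := by
    intro g k hk
    refine gia_congr ?_
    rw [gia_ker hT h g0 g hk, al_inv hT h le_rfl g hk z]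
  have h1 := ex_level hT h' hI
  unfold bt
  rw [← h1]
  refine ex_mono hT t' fun g => gia_mono ?_
  rintro ⟨h2, h3⟩
  exact ⟨h2, al_time hT h h' h3⟩

theorem qv_anti (hT : ITree G F d O) {j0 t t' : ℕ} (h : j0 ≤ t) (h' : t ≤ t') :
    Ex O t' (fun g : G => ind (g ∈ ker G O j0 ∧ (fx O t' g).Nonempty)) ≤
      Ex O t (fun g : G => ind (g ∈ ker G O j0 ∧ (fx O t g).Nonempty)) := by
  have hI : Inv O t (fun g : G => ind (g ∈ ker G O j0 ∧ (fx O t g).Nonempty)) := by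
    intro g k hk
    refine gia_congr ?_
    have h1 : g * k ∈ ker G O j0 ↔ g ∈ ker G O j0 :=
      Subgroup.mul_mem_cancel_right _ (ker_anti hT h hk)
    rw [h1, fx_inv hT le_rfl g hk]
  have h1 := ex_level hT h' hI
  rw [← h1]
  refine ex_mono hT t' fun g => gia_mono ?_
  rintro ⟨h2, h3⟩
  exact ⟨h2, gia_fxne hT h' g h3⟩

theorem pc_ex (hT : ITree G F d O) {j0 : ℕ} {δ : ℝ} (hδ : 0 < δ)
    (hq : ∀ t ≥ j0, δ ≤ Ex O t (fun g : G => ind (g ∈ ker G O j0 ∧ (fx O t g).Nonempty))) :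
    ∃ z ∈ O j0, ∃ b > 0, ∀ t ≥ j0, b ≤ bt F O j0 (1 : G) z t := by
  obtain ⟨S, hS⟩ : ∃ S : Finset Ω, ∀ z, z ∈ S ↔ z ∈ O j0 :=
    ⟨(o_fin hT j0).toFinset, fun z => (o_fin hT j0).mem_toFinset⟩
  have hSne : S.Nonempty := by
    obtain ⟨z, hz⟩ := o_ne hT j0
    exact ⟨z, (hS z).2 hz⟩
  have hn : (0 : ℝ) < S.card := by
    exact_mod_cast Finset.card_pos.2 hSne
  have hsum : ∀ t ≥ j0, δ ≤ ∑ z ∈ S, bt F O j0 (1 : G) z t := by
    intro t ht
    refine (hq t ht).trans ?_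
    have h1 : (∑ z ∈ S, bt F O j0 (1 : G) z t) = Ex O t (fun g : G => ∑ z ∈ S,
        ind ((1 : G)⁻¹ * g ∈ ker G O j0 ∧ al F O j0 t g z)) := by
      rw [ex_sum hT t S (fun z (g : G) => ind ((1 : G)⁻¹ * g ∈ ker G O j0 ∧ al F O j0 t g z))]
      rfl
    rw [h1]
    refine ex_mono hT t fun g => ?_
    by_cases h2 : g ∈ ker G O j0 ∧ (fx O t g).Nonempty
    · obtain ⟨hg, x, hx⟩ := h2
      rw [gia_pos (And.intro hg ⟨x, hx⟩)]
      have hz : F^[t - j0] x ∈ S := by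
        rw [hS]
        have h3 : t = j0 + (t - j0) := by omega
        have h4 : x ∈ O t := hx.1
        rw [h3] at h4
        exact (o_up hT j0 (t - j0) x).1 h4
      have h5 : ind ((1 : G)⁻¹ * g ∈ ker G O j0 ∧ al F O j0 t g (F^[t - j0] x)) = 1 := by
        refine gia_pos ⟨?_, x, hx, rfl⟩
        rw [inv_one, one_mul]
        exact hg
      rw [← h5]
      exact Finset.single_le_sum
        (f := fun z => ind ((1 : G)⁻¹ * g ∈ ker G O j0 ∧ al F O j0 t g z))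
        (fun z _ => gia_ind0 _) hz
    · rw [gia_neg h2]
      exact Finset.sum_nonneg fun z _ => gia_ind0 _
  by_contra hcon
  push Not at hcon
  have hb : 0 < δ / S.card := div_pos hδ hn
  have h1 : ∀ z : Ω, ∃ t : ℕ, z ∈ O j0 → j0 ≤ t ∧ bt F O j0 (1 : G) z t < δ / S.card := by
    intro z
    by_cases hz : z ∈ O j0
    · obtain ⟨t, ht, h2⟩ := hcon z hz _ hb
      exact ⟨t, fun _ => ⟨ht, h2⟩⟩
    · exact ⟨0, fun h => absurd h hz⟩
  choose tz htz using h1
  have hT1 : ∀ z ∈ S, tz z ≤ S.sup tz := fun z hz => Finset.le_sup (f := tz) hz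
  have hT2 : j0 ≤ S.sup tz := by
    obtain ⟨z, hz⟩ := hSne
    exact ((htz z ((hS z).1 hz)).1).trans (hT1 z hz)
  have h3 := hsum _ hT2
  have h4 : (∑ z ∈ S, bt F O j0 (1 : G) z (S.sup tz)) < ∑ z ∈ S, δ / (S.card : ℝ) := by
    refine Finset.sum_lt_sum_of_nonempty hSne fun z hz => ?_
    obtain ⟨h5, h6⟩ := htz z ((hS z).1 hz)
    exact (bt_anti hT h5 (hT1 z hz) 1 z).trans_lt h6
  rw [Finset.sum_const, nsmul_eq_mul, mul_div_cancel₀ _ hn.ne'] at h4
  exact absurd h3 (not_le.2 h4)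

end Pool.Agent.H42.ES
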