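/-
ROW GIb. Sums over the subcells of level `L`. `cond` is invariant under `ker G O L`. PROOF. `G ⧸ ker G O L` and `O L` are finite
(ker_fi, o_fin). Exchange the finite sums with `Ex O t` (ex_sum, ex_smul of row GBa); it remains to compare pointwise in `g`:
for the class `c = (g : G ⧸ ker G O L)` one has `c.out⁻¹ * g ∈ ker G O L` (QuotientGroup.eq, mk_out), and for the other classes not;
`cond c.out z' ↔ cond g z'` because `g = c.out * (c.out⁻¹ * g)`. So
`∑ c, ind (cond c.out z') * ind (c.out⁻¹ * g ∈ ker ∧ A z') = ind (cond g z' ∧ A z')` and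
`∑ z' ∈ O L, ind (cond g z' ∧ al F O L t g z')` is the cardinality in sub_bt.
For sub_Mt: `∑ z' ∈ O L, ind (cond g z') * nfy F O L t z' g = #{x ∈ fx O t g | cond g (F^[t-L] x)}`: partition of the set
according to `z' = F^[t-L] x ∈ O L` (o_up).
-/
import Pool.Agent.H42.ES.GDb

set_option autoImplicit false

namespace Pool.Agent.H42.ES

open scoped Classical

variable {G Ω : Type} [Group G] [MulAction G Ω] {F : Ω → Ω} {d : ℕ} {O : ℕ → Set Ω}

theorem GIb_gen (hT : ITree G F d O) {L t : ℕ} (cond : G → Ω → Prop)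
    (hc : ∀ g, ∀ h ∈ ker G O L, ∀ z ∈ O L, cond (g * h) z ↔ cond g z) (B : G → Ω → ℝ) :
    (∑ᶠ c : G ⧸ ker G O L, ∑ᶠ z ∈ O L, ind (cond c.out z) *
      Ex O t (fun g : G => ind (c.out⁻¹ * g ∈ ker G O L) * B g z)) =
      Ex O t (fun g : G => ∑ z ∈ (o_fin hT L).toFinset, ind (cond g z) * B g z) := by
  have := ker_fi (G := G) hT L
  let _ : Fintype (G ⧸ ker G O L) := Fintype.ofFinite _
  have h1 : (∑ᶠ c : G ⧸ ker G O L, ∑ᶠ z ∈ O L, ind (cond c.out z) *
      Ex O t (fun g : G => ind (c.out⁻¹ * g ∈ ker G O L) * B g z)) =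
      Ex O t (fun g : G => ∑ c : G ⧸ ker G O L, ∑ z ∈ (o_fin hT L).toFinset,
        ind (cond c.out z) * (ind (c.out⁻¹ * g ∈ ker G O L) * B g z)) := by
    rw [finsum_eq_sum_of_fintype, ex_sum hT t Finset.univ]
    refine Finset.sum_congr rfl fun c _ => ?_
    rw [finsum_mem_eq_finite_toFinset_sum _ (o_fin hT L), ex_sum hT t]
    refine Finset.sum_congr rfl fun z _ => ?_
    rw [ex_smul hT t]
  rw [h1]
  congr 1
  funext g
  rw [Finset.sum_eq_single (g : G ⧸ ker G O L)]
  · refine Finset.sum_congr rfl fun z hz => ?_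
    have hz' : z ∈ O L := by simpa using hz
    have h2 : (g : G ⧸ ker G O L).out⁻¹ * g ∈ ker G O L := by
      rw [← QuotientGroup.eq]
      exact QuotientGroup.out_eq' _
    have h3 : cond (g : G ⧸ ker G O L).out z ↔ cond g z := by
      have h4 := hc (g : G ⧸ ker G O L).out _ h2 z hz'
      rw [mul_inv_cancel_left] at h4
      exact h4.symm
    unfold ind
    rw [if_pos h2, one_mul]
    simp only [h3]
  · intro c _ hne
    refine Finset.sum_eq_zero fun z _ => ?_
    have h2 : c.out⁻¹ * g ∉ ker G O L := by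
      rw [← QuotientGroup.eq]
      intro h
      apply hne
      rw [← h]
      exact (QuotientGroup.out_eq' c).symm
    unfold ind
    rw [if_neg h2, zero_mul, mul_zero]
  · intro h
    exact absurd (Finset.mem_univ _) h

theorem sub_bt (hT : ITree G F d O) {L t : ℕ} (hL : L ≤ t) (cond : G → Ω → Prop)
    (hc : ∀ g, ∀ h ∈ ker G O L, ∀ z ∈ O L, cond (g * h) z ↔ cond g z) :
    (∑ᶠ c : G ⧸ ker G O L, ∑ᶠ z ∈ O L, ind (cond c.out z) * bt F O L c.out z t) =
      Ex O t (fun g : G => ({z | z ∈ O L ∧ cond g z ∧ al F O L t g z}.ncard : ℝ)) := by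
  have _ := hL
  have h1 : ∀ (c : G) (z : Ω), bt F O L c z t =
      Ex O t (fun g : G => ind (c⁻¹ * g ∈ ker G O L) * ind (al F O L t g z)) := by
    intro c z
    unfold bt
    congr 1
    funext g
    unfold ind
    by_cases h2 : c⁻¹ * g ∈ ker G O L
    · by_cases h3 : al F O L t g z
      · rw [if_pos ⟨h2, h3⟩, if_pos h2, if_pos h3, one_mul]
      · rw [if_neg (fun h => h3 h.2), if_neg h3, mul_zero]
    · rw [if_neg (fun h => h2 h.1), if_neg h2, zero_mul]
  simp only [h1]
  rw [GIb_gen hT cond hc (fun g z => ind (al F O L t g z))]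
  congr 1
  funext g
  have h2 : {z | z ∈ O L ∧ cond g z ∧ al F O L t g z} =
      (((o_fin hT L).toFinset.filter fun z => cond g z ∧ al F O L t g z : Finset Ω) : Set Ω) := by
    ext z
    simp
  rw [h2, Set.ncard_coe_finset, Finset.card_filter]
  push_cast
  refine Finset.sum_congr rfl fun z _ => ?_
  unfold ind
  by_cases h3 : cond g z
  · by_cases h4 : al F O L t g z
    · simp only [h3, h4, and_self, if_true, one_mul]
    · simp only [h3, h4, and_false, if_true, if_false, mul_zero]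
  · simp only [h3, false_and, if_false, zero_mul]

theorem sub_Mt (hT : ITree G F d O) {L t : ℕ} (hL : L ≤ t) (cond : G → Ω → Prop)
    (hc : ∀ g, ∀ h ∈ ker G O L, ∀ z ∈ O L, cond (g * h) z ↔ cond g z) :
    (∑ᶠ c : G ⧸ ker G O L, ∑ᶠ z ∈ O L, ind (cond c.out z) * Mt F O L c.out z t) =
      Ex O t (fun g : G => ({x | x ∈ fx O t g ∧ cond g (F^[t - L] x)}.ncard : ℝ)) := by
  unfold Mt
  rw [GIb_gen hT cond hc (fun g z => nfy F O L t z g)]
  congr 1
  funext g
  obtain ⟨S, hS⟩ : ∃ S : Finset Ω, S = (o_fin hT t).toFinset.filter fun x => g • x = x :=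
    ⟨_, rfl⟩
  have hSm : ∀ x, x ∈ S ↔ x ∈ fx O t g := by
    intro x
    rw [hS]
    simp [fx]
  have h2 : {x | x ∈ fx O t g ∧ cond g (F^[t - L] x)} =
      ((S.filter fun x => cond g (F^[t - L] x) : Finset Ω) : Set Ω) := by
    ext x
    simp [hSm]
  have h3 : ∀ z, nfy F O L t z g = ((S.filter fun x => F^[t - L] x = z).card : ℝ) := by
    intro z
    unfold nfy
    have h4 : {u | u ∈ fx O t g ∧ F^[t - L] u = z} =
        ((S.filter fun x => F^[t - L] x = z : Finset Ω) : Set Ω) := by
      ext x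
      simp [hSm]
    rw [h4, Set.ncard_coe_finset]
  have hmaps : ∀ x ∈ S.filter fun x => cond g (F^[t - L] x), F^[t - L] x ∈ (o_fin hT L).toFinset := by
    intro x hx
    have h5 := (hSm x).1 (Finset.mem_filter.1 hx).1
    have h6 : x ∈ O (L + (t - L)) := by
      rw [Nat.add_sub_cancel' hL]
      exact h5.1
    simpa using (o_up hT L (t - L) x).1 h6
  rw [h2, Set.ncard_coe_finset, Finset.card_eq_sum_card_fiberwise hmaps]
  push_cast
  refine Finset.sum_congr rfl fun z _ => ?_
  rw [h3 z, Finset.filter_filter]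
  unfold ind
  by_cases h5 : cond g z
  · rw [if_pos h5, one_mul]
    congr 2
    refine Finset.filter_congr fun x _ => ?_
    constructor
    · intro h
      rw [h]
      exact ⟨h5, rfl⟩
    · exact fun h => h.2
  · rw [if_neg h5, zero_mul]
    have h6 : (S.filter fun x => cond g (F^[t - L] x) ∧ F^[t - L] x = z) = ∅ := by
      rw [Finset.filter_eq_empty_iff]
      rintro x _ ⟨h7, h8⟩
      rw [h8] at h7
      exact h5 h7
    rw [h6]
    simp

end Pool.Agent.H42.ES
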