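/-
ROW GIc. Uniform distribution of the trivial type in a cell. Let `U = ker G O j ≤ V = ker G O j0`, `g0 ∈ V`, `j + J0 ≤ l`,
`l + J0 + 1 ≤ t`, and for all `x ∈ O t`: `rr F J0 l t U x = r = rr F J0 l t V x`. PROOF. Left side
`= ∑ x ∈ O t, F^[t-j] x = z, Ex (ind (g • x = x ∧ g0⁻¹ * g ∈ U ∧ g ∈ K_x))`, `K_x = trv G F J0 (F^[t+J0-l] x)` (ex_sum), right side
`= (1/r) ∑ x, Ex (ind (g • x = x ∧ g0⁻¹ * g ∈ U))`. Fix `x`. If no `g` has `g • x = x`, `g0⁻¹ * g ∈ U` both terms vanish. Otherwise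
fix such a `a`; `a = g0 * (g0⁻¹ * a) ∈ V`, `a⁻¹ ∈ V`, `a⁻¹ • x = x`. rr_eq (row GGa) for `a⁻¹`: there is `u ∈ U` with `u • x = x`
and `u⁻¹ * a⁻¹ ∈ K_x`, so `a * u = (u⁻¹ * a⁻¹)⁻¹ ∈ K_x`. With `U_x = U ⊓ stabilizer G x`:
`g • x = x ∧ g0⁻¹ * g ∈ U ↔ a⁻¹ * g ∈ U_x` (`U` is a subgroup: `g0⁻¹ g = (g0⁻¹ a)(a⁻¹ g)`) and
`g • x = x ∧ g0⁻¹ * g ∈ U ∧ g ∈ K_x ↔ (a * u)⁻¹ * g ∈ U_x ⊓ K_x`. Both subgroups contain `ker G O t` (ker_anti, row GAb; the points
`v` with `F^[i] v = F^[t+J0-l] x`, `i ≤ 2*J0+1`, have level `l - J0 + i ≤ t`). ex_coset (row GCa): the expectations are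
`1 / U_x.index` and `1 / (U_x ⊓ K_x).index`, and `(U_x ⊓ K_x).index = K_x.relIndex U_x * U_x.index = r * U_x.index`
(Subgroup.relIndex_mul_index, inf_relIndex_left/right).
-/
import Pool.Agent.H42.ES.GDb
import Pool.Agent.H42.ES.GGa

set_option autoImplicit false

namespace Pool.Agent.H42.ES

open scoped Classical

variable {G Ω : Type} [Group G] [MulAction G Ω] {F : Ω → Ω} {d : ℕ} {O : ℕ → Set Ω}

private lemma GIc_card {A : Set Ω} (hA : A.Finite) (q : Ω → Prop) :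
    ({x | x ∈ A ∧ q x}.ncard : ℝ) = ∑ x ∈ hA.toFinset, ind (q x) := by
  have h : {x | x ∈ A ∧ q x} = ((hA.toFinset.filter q : Finset Ω) : Set Ω) := by
    ext x
    simp
  rw [h, Set.ncard_coe_finset, Finset.card_filter]
  push_cast
  rfl

private lemma GIc_iff {U : Subgroup G} {g0 b : G} {x : Ω} (hb : b • x = x) (hbU : g0⁻¹ * b ∈ U)
    (g : G) : (g • x = x ∧ g0⁻¹ * g ∈ U) ↔ b⁻¹ * g ∈ U ⊓ MulAction.stabilizer G x := by
  rw [Subgroup.mem_inf, MulAction.mem_stabilizer_iff]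
  have hb' : b⁻¹ • x = x := by
    rw [inv_smul_eq_iff, hb]
  constructor
  · rintro ⟨h1, h2⟩
    refine ⟨?_, ?_⟩
    · have h3 : b⁻¹ * g = (g0⁻¹ * b)⁻¹ * (g0⁻¹ * g) := by group
      rw [h3]
      exact U.mul_mem (U.inv_mem hbU) h2
    · rw [mul_smul, h1, hb']
  · rintro ⟨h1, h2⟩
    refine ⟨?_, ?_⟩
    · have h3 : g = b * (b⁻¹ * g) := by group
      rw [h3, mul_smul, h2, hb]
    · have h3 : g0⁻¹ * g = (g0⁻¹ * b) * (b⁻¹ * g) := by group
      rw [h3]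
      exact U.mul_mem hbU h1

private lemma GIc_trv (hT : ITree G F d O) {J0 l t : ℕ} (hJ : J0 ≤ l) (ht : l + J0 + 1 ≤ t)
    {x : Ω} (hx : x ∈ O t) : ker G O t ≤ trv G F J0 (F^[t + J0 - l] x) := by
  intro h hh i hi v hv
  have h1 : t = (l - J0) + (t + J0 - l) := by omega
  have h2 : F^[t + J0 - l] x ∈ O (l - J0) := by
    rw [← o_up hT, ← h1]
    exact hx
  have h3 : v ∈ O ((l - J0) + i) := by
    rw [o_up hT, hv]
    exact h2
  exact ker_anti hT (by omega) hh v h3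

private lemma GIc_zero (hT : ITree G F d O) (t : ℕ) {f : G → ℝ} (hf : ∀ g, f g = 0) :
    Ex O t f = 0 := by
  have h : f = fun _ => (0 : ℝ) := funext hf
  rw [h]
  exact ex_const hT t 0

private lemma GIc_point (hT : ITree G F d O) {J0 j0 j l t r : ℕ} (hj : j0 ≤ j) (hjl : j + J0 ≤ l)
    (ht : l + J0 + 1 ≤ t) {x : Ω} (hx : x ∈ O t) (hU : rr F J0 l t (ker G O j) x = r)
    (hV : rr F J0 l t (ker G O j0) x = r) {g0 : G} (hg0 : g0 ∈ ker G O j0) :
    Ex O t (fun g : G => ind ((g • x = x ∧ g0⁻¹ * g ∈ ker G O j) ∧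
      g ∈ trv G F J0 (F^[t + J0 - l] x))) =
    Ex O t (fun g : G => ind (g • x = x ∧ g0⁻¹ * g ∈ ker G O j)) / (r : ℝ) := by
  by_cases hex : ∃ a : G, a • x = x ∧ g0⁻¹ * a ∈ ker G O j
  · obtain ⟨a, hax, haU⟩ := hex
    have hUV : ker G O j ≤ ker G O j0 := ker_anti hT hj
    have haV : a ∈ ker G O j0 := by
      have h1 : a = g0 * (g0⁻¹ * a) := by group
      rw [h1]
      exact (ker G O j0).mul_mem hg0 (hUV haU)
    have hax' : a⁻¹ • x = x := by
      rw [inv_smul_eq_iff, hax]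
    obtain ⟨u, hu, hux, huK⟩ := rr_eq hT (by omega) ht hUV hx (hU.trans hV.symm)
      ((ker G O j0).inv_mem haV) hax'
    obtain ⟨K, hK⟩ : ∃ K : Subgroup G, K = trv G F J0 (F^[t + J0 - l] x) := ⟨_, rfl⟩
    obtain ⟨W, hW⟩ : ∃ W : Subgroup G, W = ker G O j ⊓ MulAction.stabilizer G x := ⟨_, rfl⟩
    rw [← hK] at huK ⊢
    have hbK : a * u ∈ K := by
      have h1 : a * u = (u⁻¹ * a⁻¹)⁻¹ := by group
      rw [h1]
      exact K.inv_mem huK
    have hbx : (a * u) • x = x := by rw [mul_smul, hux, hax]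
    have hbU : g0⁻¹ * (a * u) ∈ ker G O j := by
      rw [← mul_assoc]
      exact (ker G O j).mul_mem haU hu
    have hNK : ker G O t ≤ K := by
      rw [hK]
      exact GIc_trv hT (by omega) ht hx
    have hNW : ker G O t ≤ W := by
      rw [hW]
      refine le_inf (ker_anti hT (by omega)) fun h hh => ?_
      rw [MulAction.mem_stabilizer_iff]
      exact hh x hx
    have e1 : (fun g : G => ind ((g • x = x ∧ g0⁻¹ * g ∈ ker G O j) ∧ g ∈ K)) =
        fun g : G => ind ((a * u)⁻¹ * g ∈ W ⊓ K) := by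
      funext g
      congr 1
      apply propext
      rw [GIc_iff hbx hbU g, ← hW, Subgroup.mem_inf,
        Subgroup.mul_mem_cancel_left K (K.inv_mem hbK)]
    have e2 : (fun g : G => ind (g • x = x ∧ g0⁻¹ * g ∈ ker G O j)) =
        fun g : G => ind (a⁻¹ * g ∈ W) := by
      funext g
      congr 1
      apply propext
      rw [GIc_iff hax haU g, ← hW]
    rw [e1, e2, ex_coset hT (le_inf hNW hNK), ex_coset hT hNW]
    have e3 : (W ⊓ K).index = r * W.index := by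
      rw [← Subgroup.relIndex_mul_index (inf_le_left : W ⊓ K ≤ W), Subgroup.inf_relIndex_left, ← hU]
      unfold rr
      rw [hK, hW]
    rw [e3, Nat.cast_mul, div_div, mul_comm]
  · push Not at hex
    rw [GIc_zero hT t, GIc_zero hT t, zero_div]
    · intro g
      unfold ind
      rw [if_neg]
      rintro ⟨h1, h2⟩
      exact hex g h1 h2
    · intro g
      unfold ind
      rw [if_neg]
      rintro ⟨⟨h1, h2⟩, _⟩
      exact hex g h1 h2

theorem cell_unif (hT : ITree G F d O) {J0 j0 j l t r : ℕ} (hj : j0 ≤ j) (hjl : j + J0 ≤ l)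
    (ht : l + J0 + 1 ≤ t) (hU : ∀ x ∈ O t, rr F J0 l t (ker G O j) x = r)
    (hV : ∀ x ∈ O t, rr F J0 l t (ker G O j0) x = r) {g0 : G} (hg0 : g0 ∈ ker G O j0) (z : Ω) :
    Ex O t (fun g : G => ({x | x ∈ fx O t g ∧ g0⁻¹ * g ∈ ker G O j ∧ F^[t - j] x = z ∧
      g ∈ trv G F J0 (F^[t + J0 - l] x)}.ncard : ℝ)) = Mt F O j g0 z t / (r : ℝ) := by
  have hfin := o_fin hT t
  have e1 : (fun g : G => ({x | x ∈ fx O t g ∧ g0⁻¹ * g ∈ ker G O j ∧ F^[t - j] x = z ∧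
      g ∈ trv G F J0 (F^[t + J0 - l] x)}.ncard : ℝ)) =
      fun g : G => ∑ x ∈ hfin.toFinset, ind (F^[t - j] x = z) *
        ind ((g • x = x ∧ g0⁻¹ * g ∈ ker G O j) ∧ g ∈ trv G F J0 (F^[t + J0 - l] x)) := by
    funext g
    have h1 : {x | x ∈ fx O t g ∧ g0⁻¹ * g ∈ ker G O j ∧ F^[t - j] x = z ∧
        g ∈ trv G F J0 (F^[t + J0 - l] x)} =
        {x | x ∈ O t ∧ (F^[t - j] x = z ∧
          ((g • x = x ∧ g0⁻¹ * g ∈ ker G O j) ∧ g ∈ trv G F J0 (F^[t + J0 - l] x)))} := by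
      ext x
      constructor
      · rintro ⟨⟨h1, h2⟩, h3, h4, h5⟩
        exact ⟨h1, h4, ⟨h2, h3⟩, h5⟩
      · rintro ⟨h1, h4, ⟨h2, h3⟩, h5⟩
        exact ⟨⟨h1, h2⟩, h3, h4, h5⟩
    rw [h1, GIc_card hfin]
    refine Finset.sum_congr rfl fun x _ => ?_
    unfold ind
    by_cases h2 : F^[t - j] x = z <;> simp [h2]
  have e2 : Mt F O j g0 z t = ∑ x ∈ hfin.toFinset, ind (F^[t - j] x = z) *
      Ex O t (fun g : G => ind (g • x = x ∧ g0⁻¹ * g ∈ ker G O j)) := by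
    unfold Mt
    have h0 : (fun g : G => ind (g0⁻¹ * g ∈ ker G O j) * nfy F O j t z g) =
        fun g : G => ∑ x ∈ hfin.toFinset, ind (F^[t - j] x = z) *
          ind (g • x = x ∧ g0⁻¹ * g ∈ ker G O j) := by
      funext g
      have h1 : nfy F O j t z g = ∑ x ∈ hfin.toFinset, ind (g • x = x ∧ F^[t - j] x = z) := by
        unfold nfy
        rw [← GIc_card hfin]
        congr 2
        ext x
        constructor
        · rintro ⟨⟨h1, h2⟩, h3⟩
          exact ⟨h1, h2, h3⟩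
        · rintro ⟨h1, h2, h3⟩
          exact ⟨⟨h1, h2⟩, h3⟩
      rw [h1, Finset.mul_sum]
      refine Finset.sum_congr rfl fun x _ => ?_
      unfold ind
      by_cases h2 : F^[t - j] x = z <;> by_cases h3 : g0⁻¹ * g ∈ ker G O j <;> simp [h2, h3]
    rw [h0, ex_sum hT]
    exact Finset.sum_congr rfl fun x _ => ex_smul hT t _ _
  rw [e1, ex_sum hT, e2, Finset.sum_div]
  refine Finset.sum_congr rfl fun x hx => ?_
  rw [Set.Finite.mem_toFinset] at hx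
  rw [ex_smul hT, GIc_point hT hj hjl ht hx (hU x hx) (hV x hx) hg0, mul_div_assoc]

end Pool.Agent.H42.ES
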