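/-
ROW GId. The density lemma. Let `V = ker G O j0`, `B ≥ 1` the bound of rs_bound (row GGb), kernels are normal (ker_normal).
A cell `(j, g0, z)`: `j0 ≤ j`, `g0 ∈ V`, `z ∈ O j`. It is positive if for some `b > 0`: `b ≤ bt F O j g0 z t` for all `t ≥ j`.
Let `𝒮 = {θ : ℝ | 0 ≤ θ ∧ for all positive cells, ∀ᶠ t in atTop, bt F O j g0 z t ≤ θ * Mt F O j g0 z t}`. `1 ∈ 𝒮` (bt_le_Mt),
`Θ = sInf 𝒮 ≤ 1`. If `b` belongs to the positive cell of pc_ex (row GIa) and `θ ∈ 𝒮` then `b ≤ bt ≤ θ Mt ≤ θ` for some `t` (Mt_le),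
so `Θ ≥ b > 0`. Let `η = Θ / (8B)`. `Θ + η ∈ 𝒮` (some `θ ∈ 𝒮` is `< Θ + η`; Mt_nonneg); `Θ - η ∉ 𝒮` and `Θ - η > 0`: there is a
positive cell `(j, g0, z)`, with `b > 0`, such that for infinitely many `t` (∃ᶠ): `bt > (Θ - η) Mt`. This gives `j`; put
`c1 = b / (4 B d^J0)`.
Let `j + J0 ≤ l` with equal `rs`; `r = rs`, `1 ≤ r ≤ B`; `L = l + J0 + 1`. By rs_ev for all large `t` and `x ∈ O t`:
`rr F J0 l t (ker G O j) x = r = rr F J0 l t V x`. Let `c1' g z' := g0⁻¹ * g ∈ ker G O j ∧ F^[L-j] z' = z`,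
`cT g z' := c1' g z' ∧ g ∈ trv G F J0 (F^[2*J0+1] z')`, `cN g z' := c1' g z' ∧ g ∉ trv ..`; both are invariant under `ker G O L` for
`z' ∈ O L` (`ker L ≤ ker j`; `g * h` and `g` agree on all points above `F^[2*J0+1] z'` of height `≤ 2*J0+1`, which have level
`≤ l - J0 + 2*J0 + 1 = L`). Let `S_T t, S_N t = Ex O t (fun g => #{z' ∈ O L | cT (resp. cN) g z' ∧ al F O L t g z'})`, `t ≥ L`.
1. `bt F O j g0 z t ≤ S_T t + S_N t` (pointwise: al_lift of row GDa gives `z'`).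
2. `S_N t = ∑ ind (cN c.out z') * bt F O L c.out z' t` (sub_bt, row GIb). In a term with `cN c.out z'`, `(L, c.out, z')` is a cell
   (`c.out = g0 * (g0⁻¹ * c.out) ∈ V`). If positive: eventually `bt ≤ (Θ+η) Mt`; if not: for every `κ > 0` eventually `bt < κ`
   (bt_anti). There are finitely many terms, so for every `κ > 0` eventually
   `S_N t ≤ (Θ+η) * ∑ ind (cN c.out z') Mt F O L c.out z' t + κ = (Θ+η) * Ex (#{x ∈ fx O t g | cN g (F^[t-L] x)}) + κ` (sub_Mt), and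
   the last expectation is `Mt F O j g0 z t - Mt F O j g0 z t / r` for large `t`: `#{x ∈ fx O t g | c1' g (F^[t-L] x)}` has
   expectation `Mt F O j g0 z t` (`F^[L-j] (F^[t-L] x) = F^[t-j] x`) and the part with `cT` has expectation `Mt / r` by cell_unif
   (row GIc; `F^[2*J0+1] (F^[t-L] x) = F^[t+J0-l] x`).
3. So for infinitely many `t`, with `M = Mt`, `β = bt > (Θ-η) M`, `β ≥ b`, `κ = b/(4B)`:
   `S_T t ≥ β - (Θ+η)(1-1/r) M - κ ≥ β - (Θ+η)(1-1/B) β/(Θ-η) - κ ≥ β/(2B) - κ ≥ b/(4B)`, because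
   `(Θ+η)/(Θ-η) = (1+1/(8B))/(1-1/(8B)) ≤ 1 + 2/(7B)` and `(1-1/B)(1+2/(7B)) ≤ 1 - 5/(7B) ≤ 1 - 1/(2B)`.
4. `S_T` is antitone in `t ≥ L` (al_time; ex_level), so `S_T t ≥ b/(4B)` for all `t ≥ L`.
5. Pointwise `#{z' ∈ O L | cT g z' ∧ al F O L t g z'} ≤ d^J0 * #{x' | al F O (l+1) t g x' ∧ tv F J0 g x'}`: the map
   `z' ↦ F^[J0] z'` (level `l+1`) has fibres with at most `d^J0` points (o_fib, row GAa), its values are alive (al_down)
   and of trivial type (`F^[J0+1] (F^[J0] z') = F^[2*J0+1] z'`).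
-/
import Pool.Agent.H42.ES.GIa
import Pool.Agent.H42.ES.GIb
import Pool.Agent.H42.ES.GIc
import Pool.Agent.H42.ES.GGb

set_option autoImplicit false

namespace Pool.Agent.H42.ES

open Filter Topology

open scoped Classical

variable {G Ω : Type} [Group G] [MulAction G Ω] {F : Ω → Ω} {d : ℕ} {O : ℕ → Set Ω}

theorem gid_ind0 (p : Prop) : 0 ≤ ind p := by
  unfold ind
  split_ifs
  · exact zero_le_one
  · exact le_rfl

/-- The cells with positive limit. -/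
def gid_pos (G : Type) {Ω : Type} [Group G] [MulAction G Ω] (F : Ω → Ω) (O : ℕ → Set Ω)
    (j : ℕ) (g0 : G) (z : Ω) : Prop := ∃ b > (0 : ℝ), ∀ t ≥ j, b ≤ bt F O j g0 z t

theorem gid_notpos (hT : ITree G F d O) {j : ℕ} {g0 : G} {z : Ω} (h : ¬ gid_pos G F O j g0 z)
    {κ : ℝ} (hκ : 0 < κ) : ∀ᶠ t in atTop, bt F O j g0 z t < κ := by
  unfold gid_pos at h
  push Not at h
  obtain ⟨t, ht, hb⟩ := h κ hκ
  filter_upwards [eventually_ge_atTop t] with t' ht'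
  exact lt_of_le_of_lt (bt_anti hT ht ht' g0 z) hb

/-- The choice of `Θ`. -/
theorem gid_theta (hT : ITree G F d O) (j0 : ℕ) {δ : ℝ} (hδ : 0 < δ)
    (hq : ∀ t ≥ j0, δ ≤ Ex O t (fun g : G => ind (g ∈ ker G O j0 ∧ (fx O t g).Nonempty)))
    {B : ℝ} (hB : 1 ≤ B) :
    ∃ Θ > (0 : ℝ), (∀ j ≥ j0, ∀ g0 ∈ ker G O j0, ∀ z ∈ O j, gid_pos G F O j g0 z →
      ∀ᶠ t in atTop, bt F O j g0 z t ≤ (Θ + Θ / (8 * B)) * Mt F O j g0 z t) ∧
      ∃ j ≥ j0, ∃ g0 ∈ ker G O j0, ∃ z ∈ O j, gid_pos G F O j g0 z ∧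
        ∃ᶠ t in atTop, (Θ - Θ / (8 * B)) * Mt F O j g0 z t < bt F O j g0 z t := by
  obtain ⟨S, hS⟩ : ∃ S : Set ℝ, S = {θ : ℝ | 0 ≤ θ ∧ ∀ j ≥ j0, ∀ g0 ∈ ker G O j0, ∀ z ∈ O j,
      gid_pos G F O j g0 z → ∀ᶠ t in atTop, bt F O j g0 z t ≤ θ * Mt F O j g0 z t} := ⟨_, rfl⟩
  have hmem : ∀ θ, θ ∈ S ↔ (0 ≤ θ ∧ ∀ j ≥ j0, ∀ g0 ∈ ker G O j0, ∀ z ∈ O j,
      gid_pos G F O j g0 z → ∀ᶠ t in atTop, bt F O j g0 z t ≤ θ * Mt F O j g0 z t) := by
    intro θ
    rw [hS]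
    exact Iff.rfl
  have h1 : (1 : ℝ) ∈ S := by
    rw [hS]
    refine ⟨zero_le_one, fun j _ g0 _ z _ _ => ?_⟩
    filter_upwards [eventually_ge_atTop j] with t ht
    rw [one_mul]
    exact bt_le_Mt hT ht g0 z
  have hbd : BddBelow S := ⟨0, fun θ hθ => by rw [hS] at hθ; exact hθ.1⟩
  obtain ⟨z0, hz0, b0, hb0, hcell⟩ := pc_ex hT hδ hq
  have hpos0 : ∀ θ ∈ S, b0 ≤ θ := by
    intro θ hθ
    rw [hS] at hθ
    have h2 := hθ.2 j0 le_rfl 1 (one_mem _) z0 hz0 ⟨b0, hb0, hcell⟩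
    obtain ⟨t, ht1, ht2⟩ := (h2.and (eventually_ge_atTop j0)).exists
    have h3 := hcell t ht2
    have h4 := Mt_le hT ht2 (1 : G) z0
    have h5 : θ * Mt F O j0 (1 : G) z0 t ≤ θ * 1 := mul_le_mul_of_nonneg_left h4 hθ.1
    linarith
  have hΘ : b0 ≤ sInf S := le_csInf ⟨1, h1⟩ hpos0
  have hΘ0 : 0 < sInf S := lt_of_lt_of_le hb0 hΘ
  have h8 : 0 < 8 * B := by linarith
  have hη : 0 < sInf S / (8 * B) := div_pos hΘ0 h8
  have hη' : sInf S / (8 * B) < sInf S := by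
    rw [div_lt_iff₀ h8]
    nlinarith
  refine ⟨sInf S, hΘ0, ?_, ?_⟩
  · intro j hj g0 hg0 z hz hp
    obtain ⟨θ, hθ, hlt⟩ := exists_lt_of_csInf_lt ⟨1, h1⟩ (show sInf S < sInf S + sInf S / (8 * B)
      by linarith)
    rw [hS] at hθ
    filter_upwards [hθ.2 j hj g0 hg0 z hz hp] with t ht
    exact ht.trans (mul_le_mul_of_nonneg_right hlt.le (Mt_nonneg hT j g0 z t))
  · have hn : sInf S - sInf S / (8 * B) ∉ S := by
      intro h
      have := csInf_le hbd h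
      linarith
    by_contra hcon
    apply hn
    refine (hmem _).2 ⟨by linarith, fun j hj g0 hg0 z hz hp => ?_⟩
    by_contra h
    apply hcon
    refine ⟨j, hj, g0, hg0, z, hz, hp, ?_⟩
    rw [Filter.not_eventually] at h
    refine h.mono fun t ht => ?_
    exact not_le.1 ht

theorem gid_mem_trv (hT : ITree G F d O) {J0 l : ℕ} (hJ : J0 ≤ l) {h : G}
    (hh : h ∈ ker G O (l + J0 + 1)) {z : Ω} (hz : z ∈ O (l + J0 + 1)) :
    h ∈ trv G F J0 (F^[2 * J0 + 1] z) := by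
  have hy : F^[2 * J0 + 1] z ∈ O (l - J0) := by
    rw [← o_up hT]
    have : l - J0 + (2 * J0 + 1) = l + J0 + 1 := by omega
    rw [this]
    exact hz
  intro i hi v hv
  have hv' : v ∈ O (l - J0 + i) := by
    rw [o_up hT, hv]
    exact hy
  exact ker_anti hT (by omega : l - J0 + i ≤ l + J0 + 1) hh v hv'

/-- The condition of the subcells (without the type). -/
def gid_c (G : Type) {Ω : Type} [Group G] [MulAction G Ω] (F : Ω → Ω) (O : ℕ → Set Ω)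
    (j L : ℕ) (g0 : G) (z : Ω) (g : G) (z' : Ω) : Prop :=
  g0⁻¹ * g ∈ ker G O j ∧ F^[L - j] z' = z

theorem gid_c_inv (hT : ITree G F d O) {j L : ℕ} (hjL : j ≤ L) (g0 : G) (z : Ω) (g : G) {h : G}
    (hh : h ∈ ker G O L) (z' : Ω) :
    gid_c G F O j L g0 z (g * h) z' ↔ gid_c G F O j L g0 z g z' := by
  unfold gid_c
  have h1 : h ∈ ker G O j := ker_anti hT hjL hh
  rw [← mul_assoc, Subgroup.mul_mem_cancel_right _ h1]

/-- The sum over the subcells without trivial type. -/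
theorem gid_SN (hT : ITree G F d O) {j0 j L : ℕ} (hj : j0 ≤ j) {g0 : G}
    (hg0 : g0 ∈ ker G O j0) (cN : G → Ω → Prop)
    (hc : ∀ g, ∀ h ∈ ker G O L, ∀ z ∈ O L, cN (g * h) z ↔ cN g z)
    (hcN : ∀ g z', cN g z' → g0⁻¹ * g ∈ ker G O j) {A : ℝ} (hA : 0 ≤ A)
    (hev : ∀ g1 ∈ ker G O j0, ∀ z' ∈ O L, gid_pos G F O L g1 z' →
      ∀ᶠ t in atTop, bt F O L g1 z' t ≤ A * Mt F O L g1 z' t) {κ : ℝ} (hκ : 0 < κ) :
    ∀ᶠ t in atTop, Ex O t (fun g : G => ({z' | z' ∈ O L ∧ cN g z' ∧ al F O L t g z'}.ncard : ℝ)) ≤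
      A * Ex O t (fun g : G => ({x | x ∈ fx O t g ∧ cN g (F^[t - L] x)}.ncard : ℝ)) + κ := by
  have := ker_fi (G := G) hT L
  let _ : Fintype (G ⧸ ker G O L) := Fintype.ofFinite _
  obtain ⟨I, hI⟩ : ∃ I : Finset ((G ⧸ ker G O L) × Ω),
      I = (Finset.univ : Finset (G ⧸ ker G O L)) ×ˢ (o_fin hT L).toFinset := ⟨_, rfl⟩
  obtain ⟨κ1, hκ1, hκI⟩ : ∃ κ1 > (0 : ℝ), (I.card : ℝ) * κ1 ≤ κ := by
    refine ⟨κ / (I.card + 1), by positivity, ?_⟩
    rw [mul_div_assoc', div_le_iff₀ (by positivity)]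
    nlinarith
  have hterm : ∀ p ∈ I, ∀ᶠ t in atTop, ind (cN p.1.out p.2) * bt F O L p.1.out p.2 t ≤
      A * (ind (cN p.1.out p.2) * Mt F O L p.1.out p.2 t) + κ1 := by
    rintro ⟨c, z'⟩ hp
    have hz' : z' ∈ O L := by
      rw [hI, Finset.mem_product] at hp
      simpa using hp.2
    by_cases h1 : cN c.out z'
    · have hi : ind (cN c.out z') = 1 := by
        unfold ind
        rw [if_pos h1]
      have hco : c.out ∈ ker G O j0 := by
        have h2 := mul_mem hg0 (ker_anti hT hj (hcN _ _ h1))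
        rwa [mul_inv_cancel_left] at h2
      simp only [hi, one_mul]
      by_cases h3 : gid_pos G F O L c.out z'
      · filter_upwards [hev _ hco z' hz' h3] with t ht
        linarith
      · filter_upwards [gid_notpos hT h3 hκ1] with t ht
        have h4 := mul_nonneg hA (Mt_nonneg hT L c.out z' t)
        linarith
    · have hi : ind (cN c.out z') = 0 := by
        unfold ind
        rw [if_neg h1]
      refine Eventually.of_forall fun t => ?_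
      simp only [hi, zero_mul, mul_zero, zero_add]
      exact hκ1.le
  have hall := (Filter.eventually_all_finset I).2 hterm
  filter_upwards [hall, eventually_ge_atTop L] with t ht htL
  rw [← sub_bt hT htL cN hc, ← sub_Mt hT htL cN hc]
  have hE : ∀ f : (G ⧸ ker G O L) → Ω → ℝ, (∑ᶠ c : G ⧸ ker G O L, ∑ᶠ z ∈ O L, f c z) =
      ∑ p ∈ I, f p.1 p.2 := by
    intro f
    rw [hI, Finset.sum_product, finsum_eq_sum_of_fintype]
    refine Finset.sum_congr rfl fun c _ => ?_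
    rw [finsum_mem_eq_finite_toFinset_sum _ (o_fin hT L)]
  rw [hE, hE, Finset.mul_sum]
  calc ∑ p ∈ I, ind (cN p.1.out p.2) * bt F O L p.1.out p.2 t
      ≤ ∑ p ∈ I, (A * (ind (cN p.1.out p.2) * Mt F O L p.1.out p.2 t) + κ1) :=
        Finset.sum_le_sum ht
    _ = (∑ p ∈ I, A * (ind (cN p.1.out p.2) * Mt F O L p.1.out p.2 t)) + I.card * κ1 := by
        rw [Finset.sum_add_distrib, Finset.sum_const, nsmul_eq_mul]
    _ ≤ _ := by linarith

theorem dens (hT : ITree G F d O) (J0 j0 : ℕ) {δ : ℝ} (hδ : 0 < δ)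
    (hq : ∀ t ≥ j0, δ ≤ Ex O t (fun g : G => ind (g ∈ ker G O j0 ∧ (fx O t g).Nonempty))) :
    ∃ c1 > (0 : ℝ), ∃ j ≥ j0, ∀ l, j + J0 ≤ l →
      rs F O J0 l (ker G O j) = rs F O J0 l (ker G O j0) → ∀ t ≥ l + J0 + 1,
      c1 ≤ Ex O t (fun g : G => ({x' | al F O (l + 1) t g x' ∧ tv F J0 g x'}.ncard : ℝ)) := by
  obtain ⟨B, hB1, hB⟩ := rs_bound hT J0
  have hBr : (1 : ℝ) ≤ (B : ℝ) := by exact_mod_cast hB1
  have hB0 : (0 : ℝ) < (B : ℝ) := by linarith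
  obtain ⟨Θ, hΘ, hup, j, hj, g0, hg0, z, hz, ⟨b, hb, hbt⟩, hfr⟩ := gid_theta hT j0 hδ hq hBr
  have hd0 : (0 : ℝ) < (d : ℝ) ^ J0 := by
    have := hT.hd
    have h1 : (0 : ℝ) < (d : ℝ) := by exact_mod_cast (by omega : 0 < d)
    positivity
  refine ⟨b / (4 * B) / (d : ℝ) ^ J0, by positivity, j, hj, ?_⟩
  intro l hl hrs t ht
  obtain ⟨L, hL⟩ : ∃ L, L = l + J0 + 1 := ⟨_, rfl⟩
  have hJl : J0 ≤ l := by omega
  have hjL : j ≤ L := by omega
  obtain ⟨r, hr⟩ : ∃ r, r = rs F O J0 l (ker G O j) := ⟨_, rfl⟩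
  have hr1 := hB l (ker G O j) hJl (ker_normal hT j)
  rw [← hr] at hr1
  -- the two conditions
  obtain ⟨cT, hcT⟩ : ∃ cT : G → Ω → Prop, ∀ g z', cT g z' ↔
      (gid_c G F O j L g0 z g z' ∧ g ∈ trv G F J0 (F^[2 * J0 + 1] z')) :=
    ⟨fun g z' => gid_c G F O j L g0 z g z' ∧ g ∈ trv G F J0 (F^[2 * J0 + 1] z'),
      fun _ _ => Iff.rfl⟩
  obtain ⟨cN, hcN⟩ : ∃ cN : G → Ω → Prop, ∀ g z', cN g z' ↔
      (gid_c G F O j L g0 z g z' ∧ g ∉ trv G F J0 (F^[2 * J0 + 1] z')) :=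
    ⟨fun g z' => gid_c G F O j L g0 z g z' ∧ g ∉ trv G F J0 (F^[2 * J0 + 1] z'),
      fun _ _ => Iff.rfl⟩
  have htr : ∀ g, ∀ h ∈ ker G O L, ∀ z' ∈ O L,
      (g * h ∈ trv G F J0 (F^[2 * J0 + 1] z') ↔ g ∈ trv G F J0 (F^[2 * J0 + 1] z')) := by
    intro g h hh z' hz'
    rw [hL] at hh hz'
    exact Subgroup.mul_mem_cancel_right _ (gid_mem_trv hT hJl hh hz')
  have hcTi : ∀ g, ∀ h ∈ ker G O L, ∀ z' ∈ O L, cT (g * h) z' ↔ cT g z' := by
    intro g h hh z' hz'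
    rw [hcT, hcT, gid_c_inv hT hjL g0 z g hh z', htr g h hh z' hz']
  have hcNi : ∀ g, ∀ h ∈ ker G O L, ∀ z' ∈ O L, cN (g * h) z' ↔ cN g z' := by
    intro g h hh z' hz'
    rw [hcN, hcN, gid_c_inv hT hjL g0 z g hh z', htr g h hh z' hz']
  obtain ⟨ST, hST⟩ : ∃ ST : ℕ → ℝ, ∀ t, ST t =
      Ex O t (fun g : G => ({z' | z' ∈ O L ∧ cT g z' ∧ al F O L t g z'}.ncard : ℝ)) :=
    ⟨_, fun _ => rfl⟩
  obtain ⟨SN, hSN⟩ : ∃ SN : ℕ → ℝ, ∀ t, SN t =
      Ex O t (fun g : G => ({z' | z' ∈ O L ∧ cN g z' ∧ al F O L t g z'}.ncard : ℝ)) :=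
    ⟨_, fun _ => rfl⟩
  have hfinL : ∀ P : Ω → Prop, {z' | z' ∈ O L ∧ P z'}.Finite := fun P =>
    (o_fin hT L).subset fun _ h => h.1
  -- step 1
  have hs1 : ∀ t ≥ L, bt F O j g0 z t ≤ ST t + SN t := by
    intro t ht
    rw [hST, hSN, ← ex_add hT]
    unfold bt
    refine ex_mono hT t fun g => ?_
    by_cases h1 : g0⁻¹ * g ∈ ker G O j ∧ al F O j t g z
    · obtain ⟨x, hx1, hx2⟩ := al_lift hT hjL ht h1.2
      have hxO : x ∈ O L := (al_fx hT ht hx1).1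
      have hi : ind (g0⁻¹ * g ∈ ker G O j ∧ al F O j t g z) = 1 := by
        unfold ind
        rw [if_pos h1]
      rw [hi]
      by_cases h2 : g ∈ trv G F J0 (F^[2 * J0 + 1] x)
      · have h3 : 0 < {z' | z' ∈ O L ∧ cT g z' ∧ al F O L t g z'}.ncard := by
          rw [Set.ncard_pos (hfinL _)]
          exact ⟨x, hxO, (hcT g x).2 ⟨⟨h1.1, hx2⟩, h2⟩, hx1⟩
        have h4 : (1 : ℝ) ≤ ({z' | z' ∈ O L ∧ cT g z' ∧ al F O L t g z'}.ncard : ℝ) := by
          exact_mod_cast h3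
        have h5 : (0 : ℝ) ≤ ({z' | z' ∈ O L ∧ cN g z' ∧ al F O L t g z'}.ncard : ℝ) :=
          Nat.cast_nonneg _
        linarith
      · have h3 : 0 < {z' | z' ∈ O L ∧ cN g z' ∧ al F O L t g z'}.ncard := by
          rw [Set.ncard_pos (hfinL _)]
          exact ⟨x, hxO, (hcN g x).2 ⟨⟨h1.1, hx2⟩, h2⟩, hx1⟩
        have h4 : (1 : ℝ) ≤ ({z' | z' ∈ O L ∧ cN g z' ∧ al F O L t g z'}.ncard : ℝ) := by
          exact_mod_cast h3
        have h5 : (0 : ℝ) ≤ ({z' | z' ∈ O L ∧ cT g z' ∧ al F O L t g z'}.ncard : ℝ) :=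
          Nat.cast_nonneg _
        linarith
    · have hi : ind (g0⁻¹ * g ∈ ker G O j ∧ al F O j t g z) = 0 := by
        unfold ind
        rw [if_neg h1]
      rw [hi]
      positivity
  -- step 2
  have hA0 : 0 ≤ Θ + Θ / (8 * B) := by positivity
  have hκ : 0 < b / (4 * B) := by positivity
  have hs2 := gid_SN hT hj hg0 cN hcNi (fun g z' h => ((hcN g z').1 h).1.1) hA0
    (fun g1 hg1 z' hz' hp => hup L (by omega) g1 hg1 z' hz' hp) hκ
  have hs2' : ∀ᶠ t in atTop,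
      Ex O t (fun g : G => ({x | x ∈ fx O t g ∧ cN g (F^[t - L] x)}.ncard : ℝ)) =
      Mt F O j g0 z t - Mt F O j g0 z t / (r : ℝ) := by
    obtain ⟨t1, _, ht1⟩ := rs_ev hT hJl (ker_normal (G := G) hT j)
    obtain ⟨t2, _, ht2⟩ := rs_ev hT hJl (ker_normal (G := G) hT j0)
    filter_upwards [eventually_ge_atTop t1, eventually_ge_atTop t2, eventually_ge_atTop L]
      with t h1 h2 h3
    have hcu := cell_unif hT hj hl (by omega : l + J0 + 1 ≤ t)
      (fun x hx => (ht1 t h1 x hx).trans hr.symm)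
      (fun x hx => (ht2 t h2 x hx).trans (hrs.symm.trans hr.symm)) hg0 z
    have hit1 : ∀ x : Ω, F^[L - j] (F^[t - L] x) = F^[t - j] x := by
      intro x
      rw [← Function.iterate_add_apply]
      congr 2
      omega
    have hit2 : ∀ x : Ω, F^[2 * J0 + 1] (F^[t - L] x) = F^[t + J0 - l] x := by
      intro x
      rw [← Function.iterate_add_apply]
      congr 2
      omega
    rw [← hcu]
    unfold Mt
    rw [← ex_sub hT]
    congr 1
    funext g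
    have hfin : {x | x ∈ fx O t g}.Finite := GDa_fxfin hT t g
    by_cases hg : g0⁻¹ * g ∈ ker G O j
    · have hi : ind (g0⁻¹ * g ∈ ker G O j) = 1 := by
        unfold ind
        rw [if_pos hg]
      rw [hi, one_mul]
      unfold nfy
      have hsub : {x | x ∈ fx O t g ∧ g0⁻¹ * g ∈ ker G O j ∧ F^[t - j] x = z ∧
          g ∈ trv G F J0 (F^[t + J0 - l] x)} ⊆ {u | u ∈ fx O t g ∧ F^[t - j] u = z} :=
        fun x hx => ⟨hx.1, hx.2.2.1⟩
      have hdiff : {x | x ∈ fx O t g ∧ cN g (F^[t - L] x)} =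
          {u | u ∈ fx O t g ∧ F^[t - j] u = z} \ {x | x ∈ fx O t g ∧ g0⁻¹ * g ∈ ker G O j ∧
            F^[t - j] x = z ∧ g ∈ trv G F J0 (F^[t + J0 - l] x)} := by
        ext x
        simp only [Set.mem_ofPred_eq, Set.mem_sdiff, hcN, gid_c, hit1, hit2]
        tauto
      have h5 := Set.ncard_sdiff_add_ncard_of_subset hsub
        (hfin.subset fun x hx => hx.1)
      rw [hdiff]
      have h6 : ((({u | u ∈ fx O t g ∧ F^[t - j] u = z} \ {x | x ∈ fx O t g ∧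
          g0⁻¹ * g ∈ ker G O j ∧ F^[t - j] x = z ∧
          g ∈ trv G F J0 (F^[t + J0 - l] x)}).ncard + {x | x ∈ fx O t g ∧
          g0⁻¹ * g ∈ ker G O j ∧ F^[t - j] x = z ∧
          g ∈ trv G F J0 (F^[t + J0 - l] x)}.ncard : ℕ) : ℝ) =
          ({u | u ∈ fx O t g ∧ F^[t - j] u = z}.ncard : ℝ) := by
        rw [h5]
      push_cast at h6
      linarith
    · have hi : ind (g0⁻¹ * g ∈ ker G O j) = 0 := by
        unfold ind
        rw [if_neg hg]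
      have he1 : {x | x ∈ fx O t g ∧ cN g (F^[t - L] x)} = ∅ := by
        ext x
        simp only [Set.mem_ofPred_eq, hcN, gid_c, Set.mem_empty_iff_false]
        tauto
      have he2 : {x | x ∈ fx O t g ∧ g0⁻¹ * g ∈ ker G O j ∧ F^[t - j] x = z ∧
          g ∈ trv G F J0 (F^[t + J0 - l] x)} = ∅ := by
        ext x
        simp only [Set.mem_ofPred_eq, Set.mem_empty_iff_false]
        tauto
      rw [hi, he1, he2]
      simp
  -- step 3
  have hs3 : ∃ᶠ t in atTop, b / (4 * B) ≤ ST t := by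
    refine (hfr.and_eventually (hs2.and (hs2'.and (eventually_ge_atTop L)))).mono ?_
    rintro t ⟨hf, h2, h2', h3⟩
    have h1 := hs1 t h3
    have hM := Mt_nonneg hT j g0 z t
    have hβ := hbt t (by omega)
    rw [h2', ← hSN] at h2
    have hr0 : (1 : ℝ) ≤ (r : ℝ) := by exact_mod_cast hr1.1
    have hrB : (r : ℝ) ≤ (B : ℝ) := by exact_mod_cast hr1.2
    have hrB' : 1 / (B : ℝ) ≤ 1 / (r : ℝ) := one_div_le_one_div_of_le (by linarith) hrB
    obtain ⟨u, hu⟩ : ∃ u : ℝ, u = 1 / (B : ℝ) := ⟨_, rfl⟩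
    have hu0 : 0 < u := by rw [hu]; positivity
    have hu1 : u ≤ 1 := by
      rw [hu, div_le_one hB0]
      exact hBr
    have hη : Θ / (8 * B) = Θ * (u / 8) := by
      rw [hu]
      field_simp
    have hκ' : b / (4 * B) = b * (u / 4) := by
      rw [hu]
      field_simp
    have hMr : Mt F O j g0 z t / (r : ℝ) = Mt F O j g0 z t * (1 / (r : ℝ)) := by ring
    rw [hη, hκ', hMr] at h2
    rw [hη] at hf
    rw [hκ']
    rw [← hu] at hrB'
    obtain ⟨M, hMd⟩ : ∃ M, M = Mt F O j g0 z t := ⟨_, rfl⟩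
    obtain ⟨β, hβd⟩ : ∃ β, β = bt F O j g0 z t := ⟨_, rfl⟩
    rw [← hMd] at h2 hf hM
    rw [← hβd] at h1 hf hβ
    have hc1 : (Θ + Θ * (u / 8)) * (M - M * (1 / (r : ℝ))) ≤
        (Θ + Θ * (u / 8)) * (M - M * u) := by
      refine mul_le_mul_of_nonneg_left ?_ (by positivity)
      have := mul_le_mul_of_nonneg_left hrB' hM
      linarith
    have hc2 : (Θ + Θ * (u / 8)) * (M - M * u) ≤ (Θ - Θ * (u / 8)) * M * (1 - u / 2) := by
      have h5 : (Θ - Θ * (u / 8)) * M * (1 - u / 2) - (Θ + Θ * (u / 8)) * (M - M * u) =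
          Θ * M * (u / 4 + 3 * u ^ 2 / 16) := by ring
      have h6 : 0 ≤ Θ * M * (u / 4 + 3 * u ^ 2 / 16) := by positivity
      linarith
    have hc3 : (Θ - Θ * (u / 8)) * M * (1 - u / 2) ≤ β * (1 - u / 2) :=
      mul_le_mul_of_nonneg_right hf.le (by linarith)
    have hc4 : b * (u / 2) ≤ β * (u / 2) := mul_le_mul_of_nonneg_right hβ (by linarith)
    nlinarith
  -- step 4
  have hs4 : b / (4 * B) ≤ ST t := by
    obtain ⟨t', h1, ht'⟩ := (hs3.and_eventually (eventually_ge_atTop t)).exists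
    have htL : L ≤ t := by omega
    refine h1.trans ?_
    rw [hST, hST]
    have hinv : Inv (G := G) O t
        (fun g => ({z' | z' ∈ O L ∧ cT g z' ∧ al F O L t g z'}.ncard : ℝ)) := by
      intro g h hh
      have hset : {z' | z' ∈ O L ∧ cT (g * h) z' ∧ al F O L t (g * h) z'} =
          {z' | z' ∈ O L ∧ cT g z' ∧ al F O L t g z'} := by
        ext z'
        constructor
        · rintro ⟨a1, a2, a3⟩
          exact ⟨a1, (hcTi g h (ker_anti hT htL hh) z' a1).1 a2, (al_inv hT htL le_rfl g hh z').1 a3⟩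
        · rintro ⟨a1, a2, a3⟩
          exact ⟨a1, (hcTi g h (ker_anti hT htL hh) z' a1).2 a2, (al_inv hT htL le_rfl g hh z').2 a3⟩
      simp only [hset]
    rw [← ex_level hT ht' hinv]
    refine ex_mono hT t' fun g => ?_
    have h5 : {z' | z' ∈ O L ∧ cT g z' ∧ al F O L t' g z'} ⊆
        {z' | z' ∈ O L ∧ cT g z' ∧ al F O L t g z'} :=
      fun z' h => ⟨h.1, h.2.1, al_time hT htL ht' h.2.2⟩
    exact_mod_cast Set.ncard_le_ncard h5 (hfinL _)
  -- step 5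
  rw [div_le_iff₀ hd0]
  refine hs4.trans ?_
  rw [hST, mul_comm, ← ex_smul hT]
  refine ex_mono hT t fun g => ?_
  have htL : L ≤ t := by omega
  have hTf : {x' | al F O (l + 1) t g x' ∧ tv F J0 g x'}.Finite :=
    (al_fin hT (by omega : l + 1 ≤ t) g).subset fun x hx => hx.1
  obtain ⟨S1, hS1⟩ : ∃ S1 : Finset Ω, (S1 : Set Ω) =
      {z' | z' ∈ O L ∧ cT g z' ∧ al F O L t g z'} := ⟨_, (hfinL _).coe_toFinset⟩
  obtain ⟨T1, hT1⟩ : ∃ T1 : Finset Ω, (T1 : Set Ω) =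
      {x' | al F O (l + 1) t g x' ∧ tv F J0 g x'} := ⟨_, hTf.coe_toFinset⟩
  have hmS : ∀ x, x ∈ S1 ↔ x ∈ O L ∧ cT g x ∧ al F O L t g x := by
    intro x
    rw [← Finset.mem_coe, hS1]
    exact Iff.rfl
  have hmT : ∀ x, x ∈ T1 ↔ al F O (l + 1) t g x ∧ tv F J0 g x := by
    intro x
    rw [← Finset.mem_coe, hT1]
    exact Iff.rfl
  rw [← hS1, ← hT1, Set.ncard_coe_finset, Set.ncard_coe_finset]
  have hmaps : ∀ x ∈ S1, F^[J0] x ∈ T1 := by
    intro x hx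
    rw [hmS] at hx
    rw [hmT]
    have h6 := al_down hT (by omega : l + 1 ≤ L) htL hx.2.2
    have h7 : L - (l + 1) = J0 := by omega
    rw [h7] at h6
    refine ⟨h6, ?_⟩
    have h8 := ((hcT g x).1 hx.2.1).2
    unfold tv
    rw [← Function.iterate_add_apply]
    have h9 : J0 + 1 + J0 = 2 * J0 + 1 := by ring
    rw [h9]
    exact h8
  have hfib : ∀ y ∈ T1, (S1.filter fun x => F^[J0] x = y).card ≤ d ^ J0 := by
    intro y hy
    rw [hmT] at hy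
    have hyO : y ∈ O (l + 1) := (al_fx hT (by omega : l + 1 ≤ t) hy.1).1
    obtain ⟨hf1, hf2⟩ := o_fib hT J0 hyO
    rw [← hf2, ← Set.ncard_coe_finset]
    refine Set.ncard_le_ncard ?_ hf1
    intro x hx
    rw [Finset.mem_coe, Finset.mem_filter] at hx
    exact hx.2
  have hcard := Finset.card_le_mul_card_image_of_maps_to hmaps (d ^ J0) hfib
  exact_mod_cast hcard

end Pool.Agent.H42.ES
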