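/-
ROW GJa. Theorem G. PROOFS.
* far_mono: for `l0 ≤ T0 ≤ l` and `t ≤ t'`: `Far F O T0 t l J0 D w ⊆ Far F O l0 t' l J0 D w` (apply `F^[T0-l0]` to
  `F^[p.1-T0] p.2 = F^[l-T0] w`), both finite (far_fin, row GFc), terms `≥ 0`: fsum_mono.
* thmG: choose (choice) for every `m` a window `Win F O J0 m m (1/(m+1)) (l m) (D m) (w m) (x m)`. `l m` is strictly increasing on
  `{0..m}` (gap) and `l m i ≥ m + J0` (beg). Put `R j m i = if i < m then rs F O J0 (l m i) (ker G O j) else 1`; choose_j (row GHa)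
  applies (rs_bound, rs_mono of row GGb, ker_normal, ker_anti of row GAb; take `B` of rs_bound) and gives `j0`. Claim: `j0` works. The
  function `Q t = Ex O t (ind (g ∈ ker j0 ∧ (fx O t g).Nonempty))` is antitone for `t ≥ j0` (qv_anti, row GIa) and `≥ 0`. If it does
  not tend to `0` there is `δ > 0` with `δ ≤ Q t` for all `t ≥ j0` (if for every `δ > 0` some `Q t < δ` then by monotonicity it
  tends to `0`; Metric.tendsto_atTop). dens (row GId) gives `c1`, `j`. WLOG `c1 ≤ 1` (replace by `min c1 1`). Choose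
  `k : ℕ` with `k ≥ 8 / c1`, `k ≥ 1`, `ε = c1 / (16 * k * d)`, `K` of flat (row GEa) for `ε`, and `m0 ≥ 2*(K+1)`, `m0 ≥ j + 1`,
  `1/(m0+1) ≤ c1/(8 d)`. choose_j: `m ≥ m0` with `m ≤ 2 * #A`, `A = {i < m | R j m i = R j0 m i}`, so `#A ≥ K + 1`; let
  `s : ℕ → ℕ` enumerate the first `K+1` elements of `A` increasingly (Finset.orderEmbOfFin, or Nat.nth), `λ i = l m (s i)`. Apply flat
  to `b i k = av G F O (λ i) (λ k)` (av_mem, av_mono, av_anti of row GDb): `i < j' < k' ≤ K` with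
  `av (λ (j'+1)) (λ k') - av (λ i) (λ k') ≤ ε` and `av (λ i) (λ j') - av (λ i) (λ k') ≤ ε`. Put `T0 = λ i`, `l' = λ j'`, `t = λ k'`.
  `av (l'+1) t ≤ av (λ (j'+1)) t` (av_mono, `l' + 1 ≤ λ (j'+1) ≤ t`). Apply core_ineq (row GFe) with the data of the window at
  `s j'`, `ε1 = 1/(m+1)` (fsum_mono), `c = c1` (dens: `j + J0 ≤ m + J0 ≤ l'`, `t ≥ l' + J0 + 2` by gap):
  `c1/d ≤ 2 k ε + 1/(m+1) + 3 ε/d + 1/(k d) ≤ c1/(8d) + c1/(8d) + 3 c1/(16 d) + c1/(8d) < c1/d`, a contradiction.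
-/
import Pool.Agent.H42.ES.GEa
import Pool.Agent.H42.ES.GHa
import Pool.Agent.H42.ES.GFe
import Pool.Agent.H42.ES.GId

set_option autoImplicit false

namespace Pool.Agent.H42.ES

open Filter Topology

open scoped Classical

variable {G Ω : Type} [Group G] [MulAction G Ω] {F : Ω → Ω} {d : ℕ} {O : ℕ → Set Ω}

theorem fsum_mono (hT : ITree G F d O) {l0 T0 t t' l J0 : ℕ} (h1 : l0 ≤ T0) (h2 : T0 ≤ l)
    (h3 : t ≤ t') (D : G) (w : Ω) : fsum F O T0 t l J0 D w ≤ fsum F O l0 t' l J0 D w := by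
  have hsub : Far F O T0 t l J0 D w ⊆ Far F O l0 t' l J0 D w := by
    intro p hp
    obtain ⟨a1, a2, a3, a4, a5, a6, a7⟩ := hp
    refine ⟨a1, lt_of_lt_of_le a2 h3, a3, a4, a5, ?_, a7⟩
    have e1 : p.1 - l0 = (T0 - l0) + (p.1 - T0) := by omega
    have e2 : l - l0 = (T0 - l0) + (l - T0) := by omega
    rw [e1, e2, Function.iterate_add_apply, Function.iterate_add_apply, a6]
  unfold fsum
  rw [finsum_mem_eq_finite_toFinset_sum _ (far_fin hT T0 t l J0 D w),
    finsum_mem_eq_finite_toFinset_sum _ (far_fin hT l0 t' l J0 D w)]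
  refine Finset.sum_le_sum_of_subset_of_nonneg (Set.Finite.toFinset_subset_toFinset.2 hsub)
    fun _ _ _ => ?_
  positivity

theorem GJa_gap {J0 m T1 : ℕ} {ε : ℝ} {l : ℕ → ℕ} {D : ℕ → G} {w x : ℕ → Ω}
    (h : Win F O J0 m T1 ε l D w x) : ∀ j i, i < j → j ≤ m → l i + J0 + 2 ≤ l j := by
  intro j
  induction j with
  | zero => intro i hi; omega
  | succ j ih =>
    intro i hi hj
    have h1 := h.gap j (by omega)
    rcases Nat.lt_succ_iff_lt_or_eq.1 hi with h2 | h2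
    · have := ih i h2 (by omega)
      omega
    · rw [h2]
      exact h1

theorem GJa_beg {J0 m T1 : ℕ} {ε : ℝ} {l : ℕ → ℕ} {D : ℕ → G} {w x : ℕ → Ω}
    (h : Win F O J0 m T1 ε l D w x) (i : ℕ) (hi : i ≤ m) : T1 + J0 ≤ l i ∧ l 0 ≤ l i := by
  have h1 := h.beg
  rcases Nat.eq_zero_or_pos i with h2 | h2
  · rw [h2]
    exact ⟨h1, le_refl _⟩
  · have := GJa_gap h i 0 h2 hi
    omega

theorem GJa_ex_nonneg (t : ℕ) (P : G → Prop) : 0 ≤ Ex O t (fun g : G => ind (P g)) := by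
  unfold Ex
  refine div_nonneg (finsum_nonneg fun c => ?_) (Nat.cast_nonneg _)
  show (0 : ℝ) ≤ ind (P c.out)
  unfold ind
  split_ifs
  · exact zero_le_one
  · exact le_refl _

theorem thmG (hT : ITree G F d O) {J0 : ℕ}
    (hW : ∀ (m T1 : ℕ) (ε : ℝ), 0 < ε → ∃ (l : ℕ → ℕ) (D : ℕ → G) (w x : ℕ → Ω),
      Win F O J0 m T1 ε l D w x) :
    ∃ j0, Tendsto (fun t => Ex O t (fun g : G => ind (g ∈ ker G O j0 ∧ (fx O t g).Nonempty)))
      atTop (𝓝 0) := by
  have hW' : ∀ m : ℕ, ∃ (l : ℕ → ℕ) (D : ℕ → G) (w x : ℕ → Ω),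
      Win F O J0 m m (1 / ((m : ℝ) + 1)) l D w x := fun m => hW m m _ (by positivity)
  choose l D w x hwin using hW'
  obtain ⟨B, hB1, hB⟩ := rs_bound hT J0
  obtain ⟨R, hR⟩ : ∃ R : ℕ → ℕ → ℕ → ℕ, R = fun j m i =>
    if i < m then rs F O J0 (l m i) (ker G O j) else 1 := ⟨_, rfl⟩
  have hlJ : ∀ m i, i < m → J0 ≤ l m i := by
    intro m i hi
    have := (GJa_beg (hwin m) i hi.le).1
    omega
  have hR1 : ∀ j m i, 1 ≤ R j m i ∧ R j m i ≤ B := by
    intro j m i
    rw [hR]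
    by_cases hi : i < m
    · simp only [if_pos hi]
      exact hB _ _ (hlJ m i hi) (ker_normal hT j)
    · simp only [if_neg hi]
      exact ⟨le_refl _, hB1⟩
  have hR2 : ∀ j j' m i, j ≤ j' → R j' m i ≤ R j m i := by
    intro j j' m i hj
    rw [hR]
    by_cases hi : i < m
    · simp only [if_pos hi]
      exact rs_mono hT (hlJ m i hi) (ker_normal hT j') (ker_normal hT j) (ker_anti hT hj)
    · simp only [if_neg hi]
      exact le_refl _
  obtain ⟨j0, hj0⟩ := choose_j R hR1 hR2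
  refine ⟨j0, ?_⟩
  by_contra hnot
  have hQ0 : ∀ t, 0 ≤ Ex O t (fun g : G => ind (g ∈ ker G O j0 ∧ (fx O t g).Nonempty)) :=
    fun t => GJa_ex_nonneg t _
  have hδ : ∃ δ > 0, ∀ t ≥ j0,
      δ ≤ Ex O t (fun g : G => ind (g ∈ ker G O j0 ∧ (fx O t g).Nonempty)) := by
    by_contra h
    push Not at h
    refine hnot (Metric.tendsto_atTop.2 fun ε hε => ?_)
    obtain ⟨t, ht, hlt⟩ := h ε hε
    refine ⟨t, fun n hn => ?_⟩
    rw [Real.dist_eq, sub_zero, abs_of_nonneg (hQ0 n)]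
    exact (qv_anti hT ht hn).trans_lt hlt
  obtain ⟨δ, hδ0, hδ⟩ := hδ
  obtain ⟨c1, hc1, j, hj, hdens⟩ := dens hT J0 j0 hδ0 hδ
  obtain ⟨c, hcdef⟩ : ∃ c : ℝ, c = min c1 1 := ⟨_, rfl⟩
  have hc0 : 0 < c := by rw [hcdef]; exact lt_min hc1 one_pos
  have hcc1 : c ≤ c1 := by rw [hcdef]; exact min_le_left _ _
  have hd2 : (2 : ℝ) ≤ d := by exact_mod_cast hT.hd
  have hd0 : (0 : ℝ) < d := by linarith
  obtain ⟨k, hk⟩ := exists_nat_ge (max (8 / c) 1)
  have hk1 : (1 : ℝ) ≤ k := (le_max_right _ _).trans hk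
  have hk8 : 8 / c ≤ (k : ℝ) := (le_max_left _ _).trans hk
  have hk0 : (0 : ℝ) < k := by linarith
  have hk1' : 1 ≤ k := by exact_mod_cast hk1
  obtain ⟨ε, hε⟩ : ∃ ε : ℝ, ε = c / (16 * k * d) := ⟨_, rfl⟩
  have hε0 : 0 < ε := by rw [hε]; positivity
  obtain ⟨K, hK⟩ := flat hε0
  obtain ⟨M, hM⟩ := exists_nat_ge (8 * (d : ℝ) / c)
  obtain ⟨m, hm, hmA⟩ := hj0 j hj (2 * (K + 1) + (j + 1) + M)
  obtain ⟨A, hA⟩ : ∃ A : Finset ℕ, A = (Finset.range m).filter (fun i => R j m i = R j0 m i) :=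
    ⟨_, rfl⟩
  rw [← hA] at hmA
  have hAK : K + 1 ≤ A.card := by omega
  obtain ⟨s, hs1, hs2⟩ : ∃ s : ℕ → ℕ, (∀ i ≤ K, s i ∈ A) ∧ ∀ i i', i < i' → i' ≤ K → s i < s i' := by
    refine ⟨fun i => if h : i < K + 1 then A.orderEmbOfCardLe hAK ⟨i, h⟩ else 0, ?_, ?_⟩
    · intro i hi
      have h : i < K + 1 := by omega
      simp only [dif_pos h]
      exact Finset.orderEmbOfCardLe_mem _ _ _
    · intro i i' hii hi'
      have h : i < K + 1 := by omega
      have h' : i' < K + 1 := by omega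
      simp only [dif_pos h, dif_pos h']
      exact (A.orderEmbOfCardLe hAK).strictMono hii
  have hsm : ∀ i ≤ K, s i < m := by
    intro i hi
    have := hs1 i hi
    rw [hA, Finset.mem_filter, Finset.mem_range] at this
    exact this.1
  have hgap : ∀ i i', i < i' → i' ≤ K → l m (s i) + J0 + 2 ≤ l m (s i') := fun i i' h h' =>
    GJa_gap (hwin m) (s i') (s i) (hs2 i i' h h') (hsm i' h').le
  have hmono : ∀ i i', i ≤ i' → i' ≤ K → l m (s i) ≤ l m (s i') := by
    intro i i' h h'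
    rcases Nat.lt_or_eq_of_le h with h2 | h2
    · have := hgap i i' h2 h'
      omega
    · rw [h2]
  obtain ⟨i, j', k', hij, hjk, hkK, f1, f2⟩ := hK (fun i k => av G F O (l m (s i)) (l m (s k)))
    (fun i k h h' => av_mem hT (hmono i k h h'))
    (fun i j k h1 h2 h3 => av_mono hT (hmono i j h1 (by omega)) (hmono j k h2 h3))
    (fun i j k h1 h2 h3 => av_anti hT (hmono i j h1 (by omega)) (hmono j k h2 h3))
  have g1 := hgap i j' hij (by omega)
  have g2 := hgap j' k' hjk hkK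
  have hj'K : j' ≤ K := by omega
  have hsj := hsm j' hj'K
  have hb := GJa_beg (hwin m) (s j') hsj.le
  have hbi := GJa_beg (hwin m) (s i) (hsm i (by omega)).le
  have hlast : l m (s k') ≤ l m m := by
    have := GJa_gap (hwin m) m (s k') (hsm k' hkK) (le_refl _)
    omega
  have hA1 : av G F O (l m (s j') + 1) (l m (s k')) - av G F O (l m (s i)) (l m (s k')) ≤ ε := by
    have h4 : l m (s j') + 1 ≤ l m (s (j' + 1)) := by
      have := hgap j' (j' + 1) (by omega) (by omega)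
      omega
    have h5 := av_mono (G := G) hT h4 (hmono (j' + 1) k' (by omega) hkK)
    linarith
  have hfs : fsum F O (l m (s i)) (l m (s k')) (l m (s j')) J0 (D m (s j')) (w m (s j')) ≤
      1 / ((m : ℝ) + 1) :=
    (fsum_mono hT hbi.2 (by omega) hlast _ _).trans ((hwin m).far (s j') hsj)
  have hrs : rs F O J0 (l m (s j')) (ker G O j) = rs F O J0 (l m (s j')) (ker G O j0) := by
    have h4 := hs1 j' hj'K
    rw [hA, Finset.mem_filter, hR] at h4
    have h5 := h4.2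
    simp only [if_pos hsj] at h5
    exact h5
  have hdn := hdens (l m (s j')) (by omega) hrs (l m (s k')) (by omega)
  have hcore := core_ineq hT (T0 := l m (s i)) (l := l m (s j')) (t := l m (s k')) (k := k)
    (J0 := J0) (by omega) (by omega) (by omega) hk1' ((hwin m).hD (s j') hsj)
    ((hwin m).hw (s j') hsj) ((hwin m).hx (s j') hsj).1 ((hwin m).hx (s j') hsj).2 hA1 f2 hfs
    (hcc1.trans hdn)
  have hmM : (M : ℝ) ≤ m := by
    have : M ≤ m := by omega
    exact_mod_cast this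
  have e1 : 2 * (k : ℝ) * ε = c / d / 8 := by
    rw [hε]
    field_simp
    norm_num
  have e2 : 1 / ((m : ℝ) + 1) ≤ c / d / 8 := by
    rw [div_le_iff₀ (by positivity)]
    have h6 : 8 * (d : ℝ) / c ≤ m + 1 := by linarith
    have h7 : c / d / 8 * (8 * (d : ℝ) / c) = 1 := by
      field_simp
    have h8 : 0 ≤ c / d / 8 := by positivity
    have h9 := mul_le_mul_of_nonneg_left h6 h8
    linarith
  have e3 : 3 * ε / (d : ℝ) ≤ 3 * (c / d) / 16 := by
    rw [hε, div_le_iff₀ hd0]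
    have h6 : c / (16 * k * d) ≤ c / (16 * d) := by
      apply div_le_div_of_nonneg_left hc0.le (by positivity)
      nlinarith
    have h7 : 3 * (c / d) / 16 * d ≥ 3 * (c / (16 * d)) := by
      have h8 : 3 * (c / d) / 16 * d = 3 * (c / (16 * d)) * d := by
        field_simp
      rw [h8]
      have h9 : 0 ≤ 3 * (c / (16 * d)) := by positivity
      nlinarith
    linarith
  have e4 : 1 / ((k : ℝ) * d) ≤ c / d / 8 := by
    rw [div_le_iff₀ (by positivity)]
    have h6 : 8 ≤ (k : ℝ) * c := by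
      rw [div_le_iff₀ hc0] at hk8
      exact hk8
    have h7 : c / d / 8 * ((k : ℝ) * d) = k * c / 8 := by
      field_simp
    rw [h7]
    linarith
  have h0 : 0 < c / d := by positivity
  linarith

end Pool.Agent.H42.ES
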