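/-
ROW WFa. The tail series. PROOF. Let `C = s * d^(J0+1)` and `κ = d^(J0+1)` (natural numbers).
1. If `J + 1 ≥ 2 * L * κ` then `κ * (q/(J+1)) ≤ q/(2*L)` (natural division: `κ * (q/(J+1)) * (2*L) ≤ (q/(J+1)) * (J+1) ≤ q`), so
   `d^((J0+1)*(q/(J+1)+1)) = d^(J0+1) * κ^(q/(J+1)) ≤ d^(J0+1) * 2^(κ*(q/(J+1))) ≤ d^(J0+1) * 2^(q/(2*L))` (`κ ≤ 2^κ`, Nat.lt_two_pow_self).
   Moreover `2 * (q/(2*L)) ≤ q/L`, so `2^(q/L) ≥ 2^(q/(2*L)) * 2^(q/(2*L))` and
   `tm d s J0 L J q ≤ (q+1) * C / 2^(q/(2*L))`.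
2. The series `u q = (q+1) * C * (1/2)^(q/(2*L))` is summable: with `r = (1/2)^(1/(2*L) : ℝ) ∈ (0,1)` one has
   `(1/2)^(q/(2*L)) ≤ 2 * r^q` (`q < 2*L*(q/(2*L)+1)`, so `r^q ≥ r^(2*L*(q/(2*L)+1)) = (1/2)^(q/(2*L)+1)`); and
   `∑ (q+1) * r^q` converges (summable_pow_mul_geometric_of_norm_lt_one for exponent 1, and summable_geometric_of_lt_one).
   (Another way: bound the sum over blocks of length `2*L`.)
3. Tails of a summable series of nonnegative terms: there is `J2` such that every finite sum over indices `≥ J2` is `≤ ε` (from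
   `summable_iff_vanishing_norm` or `Summable.tendsto_sum_compl_atTop_zero` / `tendsto_sum_nat_add`; a finite set `Q` of
   indices `≥ J2` is disjoint from the finite set given there after enlarging `J2`). Take `J1 = max J2 (2*L*κ)`.
-/
import Pool.Agent.H42.ES.WDefs

set_option autoImplicit false

namespace Pool.Agent.H42.ES

private theorem tm_le_aux (d s J0 : ℕ) {L : ℕ} (hL : 1 ≤ L) {J : ℕ}
    (hJ : 2 * L * d ^ (J0 + 1) ≤ J + 1) (q : ℕ) :
    tm d s J0 L J q ≤ ((q : ℝ) + 1) * ((s * d ^ (J0 + 1) : ℕ) : ℝ) * (1 / 2) ^ (q / (2 * L)) := by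
  set κ := d ^ (J0 + 1) with hκ
  set m := q / (J + 1) with hm
  set a := q / (2 * L) with ha
  have h2L : 0 < 2 * L := by omega
  have h1 : κ * m ≤ a := by
    rw [ha, Nat.le_div_iff_mul_le h2L]
    calc κ * m * (2 * L) = (2 * L * κ) * m := by ring
      _ ≤ (J + 1) * m := Nat.mul_le_mul_right _ hJ
      _ ≤ q := Nat.mul_div_le _ _
  have h2 : κ ^ m ≤ 2 ^ a := by
    calc κ ^ m ≤ (2 ^ κ) ^ m := Nat.pow_le_pow_left (Nat.lt_two_pow_self).le _
      _ = 2 ^ (κ * m) := by rw [← pow_mul]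
      _ ≤ 2 ^ a := Nat.pow_le_pow_right (by norm_num) h1
  have h3 : s * d ^ ((J0 + 1) * (m + 1)) ≤ s * κ * 2 ^ a := by
    have : d ^ ((J0 + 1) * (m + 1)) = κ * κ ^ m := by
      rw [pow_mul, ← hκ, pow_succ, mul_comm]
    rw [this, mul_assoc]
    exact Nat.mul_le_mul_left _ (Nat.mul_le_mul_left _ h2)
  have h4 : 2 ^ a * 2 ^ a ≤ 2 ^ (q / L) := by
    rw [← pow_add]
    apply Nat.pow_le_pow_right (by norm_num)
    rw [Nat.le_div_iff_mul_le (by omega)]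
    have : 2 * L * a ≤ q := Nat.mul_div_le _ _
    calc (a + a) * L = 2 * L * a := by ring
      _ ≤ q := this
  have h4' : (2 : ℝ) ^ a * 2 ^ a ≤ 2 ^ (q / L) := by exact_mod_cast h4
  have h3' : ((s * d ^ ((J0 + 1) * (m + 1)) : ℕ) : ℝ) ≤ ((s * κ : ℕ) : ℝ) * 2 ^ a := by
    exact_mod_cast h3
  have hp : (0 : ℝ) < 2 ^ a := by positivity
  have hpL : (0 : ℝ) < 2 ^ (q / L) := by positivity
  unfold tm
  rw [← hm, one_div, inv_pow]
  rw [div_le_iff₀ hpL]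
  have hC : (0 : ℝ) ≤ ((s * κ : ℕ) : ℝ) := by positivity
  have hq : (0 : ℝ) ≤ (q : ℝ) + 1 := by positivity
  calc ((q : ℝ) + 1) * ((s * d ^ ((J0 + 1) * (m + 1)) : ℕ) : ℝ)
      ≤ ((q : ℝ) + 1) * (((s * κ : ℕ) : ℝ) * 2 ^ a) := by gcongr
    _ = ((q : ℝ) + 1) * ((s * κ : ℕ) : ℝ) * (2 ^ a)⁻¹ * (2 ^ a * 2 ^ a) := by
        field_simp
    _ ≤ ((q : ℝ) + 1) * ((s * κ : ℕ) : ℝ) * (2 ^ a)⁻¹ * 2 ^ (q / L) := by gcongr

private theorem summable_aux (C : ℝ) {M : ℕ} (hM : 1 ≤ M) (hC : 0 ≤ C) :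
    Summable (fun q : ℕ => ((q : ℝ) + 1) * C * (1 / 2) ^ (q / M)) := by
  set r : ℝ := (1 / 2 : ℝ) ^ (1 / (M : ℝ)) with hr
  have hMr : (0 : ℝ) < M := by exact_mod_cast hM
  have hr0 : 0 < r := by positivity
  have hrM : r ^ M = 1 / 2 := by
    rw [hr, ← Real.rpow_natCast, ← Real.rpow_mul (by norm_num)]
    rw [one_div_mul_cancel hMr.ne', Real.rpow_one]
  have hr1 : r < 1 := by
    by_contra h
    push Not at h
    have : (1 : ℝ) ≤ r ^ M := one_le_pow₀ h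
    rw [hrM] at this
    norm_num at this
  have hs : Summable (fun q : ℕ => (2 * C) * (((q : ℝ) ^ 1 * r ^ q) + r ^ q)) := by
    apply Summable.mul_left
    apply Summable.add
    · exact summable_pow_mul_geometric_of_norm_lt_one 1 (by
        rw [Real.norm_eq_abs, abs_of_pos hr0]; exact hr1)
    · exact summable_geometric_of_lt_one hr0.le hr1
  apply Summable.of_nonneg_of_le _ _ hs
  · intro q
    positivity
  · intro q
    have h1 : (1 / 2 : ℝ) ^ (q / M) ≤ 2 * r ^ q := by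
      have h2 : (1 / 2 : ℝ) ^ (q / M) = r ^ (M * (q / M)) := by
        rw [pow_mul, hrM]
      have h3 : r ^ (M * (q / M) + M) ≤ r ^ q := by
        apply pow_le_pow_of_le_one hr0.le hr1.le
        have := Nat.div_add_mod q M
        have h5 := Nat.mod_lt q (show M > 0 from hM)
        omega
      rw [pow_add, hrM] at h3
      rw [h2]
      linarith
    calc ((q : ℝ) + 1) * C * (1 / 2) ^ (q / M) ≤ ((q : ℝ) + 1) * C * (2 * r ^ q) := by gcongr
      _ = (2 * C) * (((q : ℝ) ^ 1 * r ^ q) + r ^ q) := by ring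

theorem tm_tail (d s J0 : ℕ) {L : ℕ} (hL : 1 ≤ L) {ε : ℝ} (hε : 0 < ε) :
    ∃ J1, ∀ J ≥ J1, ∀ Q : Finset ℕ, (∀ q ∈ Q, J ≤ q) → ∑ q ∈ Q, tm d s J0 L J q ≤ ε := by
  have hsum := summable_aux ((s * d ^ (J0 + 1) : ℕ) : ℝ) (M := 2 * L) (by omega) (by positivity)
  rw [summable_iff_vanishing_norm] at hsum
  obtain ⟨S, hS⟩ := hsum ε hε
  refine ⟨max (S.sup id + 1) (2 * L * d ^ (J0 + 1)), ?_⟩
  intro J hJ Q hQ
  have hJ1 : S.sup id + 1 ≤ J := le_trans (le_max_left _ _) hJ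
  have hJ2 : 2 * L * d ^ (J0 + 1) ≤ J + 1 := by
    have := le_trans (le_max_right (S.sup id + 1) (2 * L * d ^ (J0 + 1))) hJ
    omega
  have hdis : Disjoint Q S := by
    rw [Finset.disjoint_left]
    intro q hq hqS
    have h1 : q ≤ S.sup id := Finset.le_sup (f := id) hqS
    have h2 := hQ q hq
    omega
  have h3 := hS Q hdis
  have h4 : ∑ q ∈ Q, tm d s J0 L J q ≤
      ∑ q ∈ Q, ((q : ℝ) + 1) * ((s * d ^ (J0 + 1) : ℕ) : ℝ) * (1 / 2) ^ (q / (2 * L)) :=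
    Finset.sum_le_sum fun q _ => tm_le_aux d s J0 hL hJ2 q
  exact h4.trans ((le_abs_self _).trans h3.le)

end Pool.Agent.H42.ES
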