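/-
ROW WCb. Counting gaps. Write `f = P.FR`, `β = P.red b`, `ON r` for `∃ k, r = f^[k] β`. Facts: (A) if `f^[i] r = r` with `i ≥ 1` and `EC r`
then `ON r` (cyc_of_per, PCM/G1) and `n ∣ i` (`r = f^[k] β`, and `β = f^[k'] r` for some `k'`, so `f^[i] β = β`; with `i = q n + i'`,
`i' < n`, `f^[i'] β = β`, so `i' = 0` by hmin). (B) `ON r` implies `ON (f^[j] r)`; if `EC r` then `EC (f^[j] r)` (if `f^[k] r = β` with
`k ≥ j` clear; otherwise use that `β` is periodic: replace `k` by `k + n * j`). (C) a point `ON` with equal image: `ON r`, `ON r'`, `f r = f r'`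
imply `r = r'` (`f^[n] r = r`, so `r = f^[n-1] (f r)`).
* mod_count: the elements of `S ∩ [1,X]` are all congruent mod `n` to each other: injective map `h ↦ (h - h0)/n` (`h0` the least element) into
  `range (X/n + 1)`.
* hh_count: `HH = ⋃ over (c, c') ∈ A × A with EC c, EC c' of S1 ∪ S2`, `S1 = {h | f^[h] c = c'}`,
  `S2 = {h | ∃ j, f^[h] c ≠ f^[j] c' ∧ f^[h+1] c = f^[j+1] c'}`; at most `s^2` pairs (P.hA). It suffices that
  `#(S1 ∩ [1,X]) ≤ X/n + 1` and `#(S2 ∩ [1,X]) ≤ X/n + 3`.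
  S1: `h1 < h2` in S1: `f^[h2-h1] c' = c'`, so `n ∣ h2 - h1` by (A); mod_count.
  S2: split into (a) `h` with `¬ ON (f^[h+1] c)`: at most one. Let `h1 < h2` with `j1, j2`; `ρ1 = f^[h1+1] c = f^[j1+1] c'`,
   `ρ2 = f^[h2+1] c = f^[j2+1] c'`, `ρ2 = f^[δ] ρ1`, `δ = h2 - h1 ≥ 1`. If `j2 ≥ j1`, `ε = j2 - j1`: `ρ2 = f^[ε] ρ1`. If `δ = ε` then
   `f^[h2] c = f^[δ-1] ρ1 = f^[j2] c'`, contradiction to `h2 ∈ S2`. If `δ ≠ ε` then `f^[δ] ρ1 = f^[ε] ρ1`, so `f^[min] ρ1` is periodic,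
   hence ON by (A), (B), hence `ρ2` is ON: contradiction. If `j2 < j1`: `ρ1 = f^[j1-j2] ρ2 = f^[j1-j2+δ] ρ1`, so ON by (A): contradiction.
   (b) `h` with `ON (f^[h+1] c)`, `¬ ON (f^[h] c)`: at most one (if `h1 < h2` then `f^[h2] c = f^[h2-h1-1] (f^[h1+1] c)` is ON).
   (c) `h` with `ON (f^[h] c)`: `f^[j+1] c'` is ON (B), `f^[j] c'` is not ON (C), so `j` is the same number `j*` for all such `h` (as in
   (b)), and `f^[h+1] c = f^[j*+1] c' =: ρ`; for `h1 < h2`: `f^[h2-h1] ρ = ρ`, so `n ∣ h2 - h1` (A); mod_count: `≤ X/n + 1`.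
-/
import Pool.Agent.H42.ES.WBc

set_option autoImplicit false

namespace Pool.Agent.H42.ES

open Pool.Agent.H42.PC (lev lev_iter lev_up cyc_of_per)

open scoped Classical

variable {G Ω : Type} [Group G] [MulAction G Ω] {F : Ω → Ω} {b : Ω} {d n0 N s J J0 n t0 : ℕ}

theorem mod_count {n X : ℕ} (hn : 1 ≤ n) (S : Set ℕ)
    (hS : ∀ h1 ∈ S, ∀ h2 ∈ S, h1 < h2 → n ∣ h2 - h1) :
    (S ∩ Set.Icc 1 X).ncard ≤ X / n + 1 := by
  have key : ∀ h1 ∈ S, ∀ h2 ∈ S, h1 < h2 → h1 / n ≠ h2 / n := by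
    intro h1 hh1 h2 hh2 hlt he
    obtain ⟨k, hk⟩ := hS h1 hh1 h2 hh2 hlt
    have h3 : h2 = h1 + n * k := by omega
    rw [h3, Nat.add_mul_div_left _ _ (by omega)] at he
    have h4 : k = 0 := by omega
    rw [h4, Nat.mul_zero] at hk
    omega
  have h1 : (S ∩ Set.Icc 1 X).ncard ≤ ((Finset.range (X / n + 1) : Finset ℕ) : Set ℕ).ncard := by
    refine Set.ncard_le_ncard_of_injOn (fun h => h / n) ?_ ?_ (Finset.finite_toSet _)
    · intro h hh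
      have h2 : h / n ≤ X / n := Nat.div_le_div_right hh.2.2
      exact Finset.mem_coe.2 (Finset.mem_range.2 (by omega))
    · intro h1 hh1 h2 hh2 he
      rcases lt_trichotomy h1 h2 with h3 | h3 | h3
      · exact absurd he (key h1 hh1.1 h2 hh2.1 h3)
      · exact h3
      · exact absurd he.symm (key h2 hh2.1 h1 hh1.1 h3)
  rw [Set.ncard_coe_finset, Finset.card_range] at h1
  exact h1

private theorem WCb_it {R : Type} (f : R → R) (x : R) (a e c : ℕ) (h : a + e = c) :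
    f^[c] x = f^[a] (f^[e] x) := by
  rw [← Function.iterate_add_apply, h]

/-- `r` is on the forward orbit of the residue of `b`. -/
private def WCb_ON (P : Pl G F b s J J0 N) (r : P.R) : Prop := ∃ k : ℕ, r = P.FR^[k] (P.red b)

private theorem WCb_a1 (P : Pl G F b s J J0 N) {r : P.R} {i : ℕ} (hi : 1 ≤ i)
    (h : P.FR^[i] r = r) (he : P.EC r) : WCb_ON P r := by
  obtain ⟨k, hk⟩ := he
  exact cyc_of_per P.FR r (P.red b) (e := k) (k := 0) hi h hk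

private theorem WCb_mul {P : Pl G F b s J J0 N} (hC : Fl P n t0) (k : ℕ) :
    P.FR^[n * k] (P.red b) = P.red b := by
  rw [Function.iterate_mul]
  exact Function.iterate_fixed hC.hcyc k

private theorem WCb_a2 {P : Pl G F b s J J0 N} (hC : Fl P n t0) {r : P.R} {i : ℕ}
    (h : P.FR^[i] r = r) (ho : WCb_ON P r) : n ∣ i := by
  obtain ⟨k, hk⟩ := ho
  have hn := hC.hn
  have h0 : k ≤ n * k := Nat.le_mul_of_pos_left k hn
  have h1 : P.FR^[n * k - k] r = P.red b := by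
    rw [hk, ← Function.iterate_add_apply, Nat.sub_add_cancel h0]
    exact WCb_mul hC k
  have h2 : P.FR^[i] (P.red b) = P.red b := by
    rw [← h1, ← Function.iterate_add_apply, Nat.add_comm, Function.iterate_add_apply, h]
  have h3 : i % n + n * (i / n) = i := Nat.mod_add_div i n
  have h4 : P.FR^[i % n] (P.red b) = P.red b := by
    have h5 : P.FR^[i % n + n * (i / n)] (P.red b) = P.red b := by
      rw [h3]
      exact h2
    rw [Function.iterate_add_apply, WCb_mul hC] at h5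
    exact h5
  have h6 : i % n < n := Nat.mod_lt _ (by omega)
  by_contra hcon
  have h7 : 1 ≤ i % n := by
    rcases Nat.eq_zero_or_pos (i % n) with h8 | h8
    · exact absurd (Nat.dvd_of_mod_eq_zero h8) hcon
    · exact h8
  exact hC.hmin (i % n) h7 h6 h4

private theorem WCb_b1 {P : Pl G F b s J J0 N} {r : P.R} (h : WCb_ON P r) (j : ℕ) :
    WCb_ON P (P.FR^[j] r) := by
  obtain ⟨k, hk⟩ := h
  refine ⟨j + k, ?_⟩
  rw [hk, ← Function.iterate_add_apply]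

private theorem WCb_b2 {P : Pl G F b s J J0 N} (hC : Fl P n t0) {r : P.R} (h : P.EC r)
    (j : ℕ) : P.EC (P.FR^[j] r) := by
  obtain ⟨k, hk⟩ := h
  have hn := hC.hn
  have h0 : j ≤ n * j := Nat.le_mul_of_pos_left j hn
  refine ⟨n * j + k - j, ?_⟩
  rw [← Function.iterate_add_apply, Nat.sub_add_cancel (by omega), Function.iterate_add_apply, hk]
  exact WCb_mul hC j

private theorem WCb_fix {P : Pl G F b s J J0 N} (hC : Fl P n t0) {r : P.R} (h : WCb_ON P r) :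
    P.FR^[n] r = r := by
  obtain ⟨k, hk⟩ := h
  rw [hk, ← Function.iterate_add_apply, Nat.add_comm, Function.iterate_add_apply, hC.hcyc]

private theorem WCb_c {P : Pl G F b s J J0 N} (hC : Fl P n t0) {r r' : P.R} (h : WCb_ON P r)
    (h' : WCb_ON P r') (he : P.FR r = P.FR r') : r = r' := by
  have hn := hC.hn
  obtain ⟨m, hm⟩ : ∃ m, n = m + 1 := ⟨n - 1, by omega⟩
  have h1 := WCb_fix hC h
  have h2 := WCb_fix hC h'
  rw [hm, Function.iterate_succ_apply] at h1 h2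
  rw [← h1, ← h2, he]

private theorem WCb_one (S : Set ℕ) (X : ℕ) (h : ∀ h1 ∈ S, ∀ h2 ∈ S, h1 < h2 → False) :
    (S ∩ Set.Icc 1 X).ncard ≤ 1 := by
  rw [Set.ncard_le_one_iff ((Set.finite_Icc 1 X).subset Set.inter_subset_right)]
  intro a c ha hc
  rcases lt_trichotomy a c with h3 | h3 | h3
  · exact (h a ha.1 c hc.1 h3).elim
  · exact h3
  · exact (h c hc.1 a ha.1 h3).elim

private theorem WCb_pair {P : Pl G F b s J J0 N} (hC : Fl P n t0) (X : ℕ) (c c' : P.R)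
    (hc : P.EC c) (hc' : P.EC c') :
    ({h : ℕ | P.FR^[h] c = c' ∨ ∃ j, P.FR^[h] c ≠ P.FR^[j] c' ∧
      P.FR^[h + 1] c = P.FR^[j + 1] c'} ∩ Set.Icc 1 X).ncard ≤ 2 * (X / n) + 4 := by
  have hn := hC.hn
  obtain ⟨S1, hS1⟩ : ∃ S1 : Set ℕ, ∀ h, h ∈ S1 ↔ P.FR^[h] c = c' :=
    ⟨{h | P.FR^[h] c = c'}, fun h => Iff.rfl⟩
  obtain ⟨Sa, hSa⟩ : ∃ Sa : Set ℕ, ∀ h, h ∈ Sa ↔ ¬ WCb_ON P (P.FR^[h + 1] c) ∧
      ∃ j, P.FR^[h] c ≠ P.FR^[j] c' ∧ P.FR^[h + 1] c = P.FR^[j + 1] c' :=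
    ⟨{h | ¬ WCb_ON P (P.FR^[h + 1] c) ∧
      ∃ j, P.FR^[h] c ≠ P.FR^[j] c' ∧ P.FR^[h + 1] c = P.FR^[j + 1] c'}, fun h => Iff.rfl⟩
  obtain ⟨Sb, hSb⟩ : ∃ Sb : Set ℕ, ∀ h, h ∈ Sb ↔ WCb_ON P (P.FR^[h + 1] c) ∧
      ¬ WCb_ON P (P.FR^[h] c) :=
    ⟨{h | WCb_ON P (P.FR^[h + 1] c) ∧ ¬ WCb_ON P (P.FR^[h] c)}, fun h => Iff.rfl⟩
  obtain ⟨Sc, hSc⟩ : ∃ Sc : Set ℕ, ∀ h, h ∈ Sc ↔ WCb_ON P (P.FR^[h] c) ∧
      ∃ j, P.FR^[h] c ≠ P.FR^[j] c' ∧ P.FR^[h + 1] c = P.FR^[j + 1] c' :=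
    ⟨{h | WCb_ON P (P.FR^[h] c) ∧
      ∃ j, P.FR^[h] c ≠ P.FR^[j] c' ∧ P.FR^[h + 1] c = P.FR^[j + 1] c'}, fun h => Iff.rfl⟩
  have b1 : (S1 ∩ Set.Icc 1 X).ncard ≤ X / n + 1 := by
    refine mod_count hn S1 ?_
    intro h1 hh1 h2 hh2 hlt
    rw [hS1] at hh1 hh2
    have h3 : P.FR^[h2 - h1] c' = c' := by
      have h4 : P.FR^[(h2 - h1) + h1] c = c' := by
        rw [Nat.sub_add_cancel hlt.le]
        exact hh2
      rw [Function.iterate_add_apply, hh1] at h4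
      exact h4
    exact WCb_a2 hC h3 (WCb_a1 P (by omega) h3 hc')
  have ba : (Sa ∩ Set.Icc 1 X).ncard ≤ 1 := by
    refine WCb_one Sa X ?_
    intro h1 hh1 h2 hh2 hlt
    rw [hSa] at hh1 hh2
    obtain ⟨hn1, j1, hne1, he1⟩ := hh1
    obtain ⟨hn2, j2, hne2, he2⟩ := hh2
    obtain ⟨ρ1, hρ1⟩ : ∃ ρ1, ρ1 = P.FR^[h1 + 1] c := ⟨_, rfl⟩
    obtain ⟨ρ2, hρ2⟩ : ∃ ρ2, ρ2 = P.FR^[h2 + 1] c := ⟨_, rfl⟩
    have e1 : ρ2 = P.FR^[h2 - h1] ρ1 := by
      rw [hρ2, hρ1]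
      exact WCb_it _ _ _ _ _ (by omega)
    have hE1 : P.EC ρ1 := by
      rw [hρ1]
      exact WCb_b2 hC hc _
    have hE2 : P.EC ρ2 := by
      rw [hρ2]
      exact WCb_b2 hC hc _
    rw [← hρ1] at hn1 he1
    rw [← hρ2] at hn2 he2
    rcases Nat.lt_or_ge j2 j1 with hj | hj
    · have e2 : ρ1 = P.FR^[j1 - j2] ρ2 := by
        rw [he1, he2]
        exact WCb_it _ _ _ _ _ (by omega)
      have e3 : P.FR^[(j1 - j2) + (h2 - h1)] ρ1 = ρ1 := by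
        rw [Function.iterate_add_apply, ← e1, ← e2]
      exact hn1 (WCb_a1 P (by omega) e3 hE1)
    · have e2 : ρ2 = P.FR^[j2 - j1] ρ1 := by
        rw [he1, he2]
        exact WCb_it _ _ _ _ _ (by omega)
      rcases lt_trichotomy (h2 - h1) (j2 - j1) with hd | hd | hd
      · have e3 : P.FR^[(j2 - j1) - (h2 - h1)] ρ2 = ρ2 := by
          have e4 : P.FR^[(j2 - j1) - (h2 - h1)] (P.FR^[h2 - h1] ρ1) = P.FR^[j2 - j1] ρ1 := by
            rw [← Function.iterate_add_apply, Nat.sub_add_cancel hd.le]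
          rw [← e1, ← e2] at e4
          exact e4
        exact hn2 (WCb_a1 P (by omega) e3 hE2)
      · apply hne2
        have e3 : P.FR^[h2] c = P.FR^[h2 - h1 - 1] ρ1 := by
          rw [hρ1]
          exact WCb_it _ _ _ _ _ (by omega)
        have e4 : P.FR^[j2] c' = P.FR^[h2 - h1 - 1] ρ1 := by
          rw [he1]
          exact WCb_it _ _ _ _ _ (by omega)
        rw [e3, e4]
      · have e3 : P.FR^[(h2 - h1) - (j2 - j1)] ρ2 = ρ2 := by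
          have e4 : P.FR^[(h2 - h1) - (j2 - j1)] (P.FR^[j2 - j1] ρ1) = P.FR^[h2 - h1] ρ1 := by
            rw [← Function.iterate_add_apply, Nat.sub_add_cancel hd.le]
          rw [← e1, ← e2] at e4
          exact e4
        exact hn2 (WCb_a1 P (by omega) e3 hE2)
  have huniq : ∀ (x : P.R) (h1 h2 : ℕ), WCb_ON P (P.FR^[h1 + 1] x) → ¬ WCb_ON P (P.FR^[h2] x) →
      h1 < h2 → False := by
    intro x h1 h2 ho hno hlt
    apply hno
    have e1 : P.FR^[h2] x = P.FR^[h2 - (h1 + 1)] (P.FR^[h1 + 1] x) := by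
      rw [← Function.iterate_add_apply, Nat.sub_add_cancel hlt]
    rw [e1]
    exact WCb_b1 ho _
  have bb : (Sb ∩ Set.Icc 1 X).ncard ≤ 1 := by
    refine WCb_one Sb X ?_
    intro h1 hh1 h2 hh2 hlt
    rw [hSb] at hh1 hh2
    exact huniq c h1 h2 hh1.1 hh2.2 hlt
  have bc : (Sc ∩ Set.Icc 1 X).ncard ≤ X / n + 1 := by
    refine mod_count hn Sc ?_
    intro h1 hh1 h2 hh2 hlt
    rw [hSc] at hh1 hh2
    obtain ⟨ho1, j1, hne1, he1⟩ := hh1
    obtain ⟨ho2, j2, hne2, he2⟩ := hh2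
    have hON : ∀ h j : ℕ, WCb_ON P (P.FR^[h] c) → P.FR^[h] c ≠ P.FR^[j] c' →
        P.FR^[h + 1] c = P.FR^[j + 1] c' →
        WCb_ON P (P.FR^[j + 1] c') ∧ ¬ WCb_ON P (P.FR^[j] c') := by
      intro h j ho hne he
      constructor
      · rw [← he, Nat.add_comm, Function.iterate_add_apply]
        exact WCb_b1 ho 1
      · intro h3
        apply hne
        refine WCb_c hC ho h3 ?_
        rw [Function.iterate_succ_apply', Function.iterate_succ_apply'] at he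
        exact he
    obtain ⟨g1, g2⟩ := hON h1 j1 ho1 hne1 he1
    obtain ⟨g3, g4⟩ := hON h2 j2 ho2 hne2 he2
    have hj : j1 = j2 := by
      rcases lt_trichotomy j1 j2 with h3 | h3 | h3
      · exact (huniq c' j1 j2 g1 g4 h3).elim
      · exact h3
      · exact (huniq c' j2 j1 g3 g2 h3).elim
    rw [← hj] at he2
    have e1 : P.FR^[h2 - h1] (P.FR^[h1 + 1] c) = P.FR^[h1 + 1] c := by
      rw [← Function.iterate_add_apply]
      have e2 : h2 - h1 + (h1 + 1) = h2 + 1 := by omega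
      rw [e2, he2, he1]
    have e3 : WCb_ON P (P.FR^[h1 + 1] c) := by
      rw [he1]
      exact g1
    exact WCb_a2 hC e1 e3
  have hsub : ({h : ℕ | P.FR^[h] c = c' ∨ ∃ j, P.FR^[h] c ≠ P.FR^[j] c' ∧
      P.FR^[h + 1] c = P.FR^[j + 1] c'} ∩ Set.Icc 1 X) ⊆
      ((S1 ∩ Set.Icc 1 X) ∪ (Sa ∩ Set.Icc 1 X)) ∪
        ((Sb ∩ Set.Icc 1 X) ∪ (Sc ∩ Set.Icc 1 X)) := by
    rintro h ⟨h1 | h1, h2⟩
    · exact Or.inl (Or.inl ⟨(hS1 h).2 h1, h2⟩)
    · by_cases h3 : WCb_ON P (P.FR^[h + 1] c)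
      · by_cases h4 : WCb_ON P (P.FR^[h] c)
        · exact Or.inr (Or.inr ⟨(hSc h).2 ⟨h4, h1⟩, h2⟩)
        · exact Or.inr (Or.inl ⟨(hSb h).2 ⟨h3, h4⟩, h2⟩)
      · exact Or.inl (Or.inr ⟨(hSa h).2 ⟨h3, h1⟩, h2⟩)
  have hfin : (((S1 ∩ Set.Icc 1 X) ∪ (Sa ∩ Set.Icc 1 X)) ∪
      ((Sb ∩ Set.Icc 1 X) ∪ (Sc ∩ Set.Icc 1 X))).Finite := by
    refine (Set.finite_Icc 1 X).subset ?_
    rintro h ((h1 | h1) | (h1 | h1)) <;> exact h1.2
  have h1 := Set.ncard_le_ncard hsub hfin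
  have h2 := Set.ncard_union_le ((S1 ∩ Set.Icc 1 X) ∪ (Sa ∩ Set.Icc 1 X))
    ((Sb ∩ Set.Icc 1 X) ∪ (Sc ∩ Set.Icc 1 X))
  have h3 := Set.ncard_union_le (S1 ∩ Set.Icc 1 X) (Sa ∩ Set.Icc 1 X)
  have h4 := Set.ncard_union_le (Sb ∩ Set.Icc 1 X) (Sc ∩ Set.Icc 1 X)
  omega

theorem hh_count {P : Pl G F b s J J0 N} (hC : Fl P n t0) (X : ℕ) :
    (P.HH ∩ Set.Icc 1 X).ncard ≤ s ^ 2 * (2 * (X / n) + 4) := by
  obtain ⟨HA, hHA⟩ : ∃ HA : Finset P.R, HA = P.hAfin.toFinset := ⟨_, rfl⟩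
  have hcard : HA.card ≤ s := by
    rw [hHA, ← Set.ncard_eq_toFinset_card P.A P.hAfin]
    exact P.hA
  obtain ⟨T, hT⟩ : ∃ T : P.R × P.R → Finset ℕ, ∀ p h, h ∈ T p ↔ h ∈ Finset.Icc 1 X ∧
      P.EC p.1 ∧ P.EC p.2 ∧ (P.FR^[h] p.1 = p.2 ∨ ∃ j, P.FR^[h] p.1 ≠ P.FR^[j] p.2 ∧
      P.FR^[h + 1] p.1 = P.FR^[j + 1] p.2) := by
    refine ⟨fun p => (Finset.Icc 1 X).filter fun h => P.EC p.1 ∧ P.EC p.2 ∧
      (P.FR^[h] p.1 = p.2 ∨ ∃ j, P.FR^[h] p.1 ≠ P.FR^[j] p.2 ∧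
      P.FR^[h + 1] p.1 = P.FR^[j + 1] p.2), ?_⟩
    intro p h
    exact Finset.mem_filter
  have hTc : ∀ p ∈ HA ×ˢ HA, (T p).card ≤ 2 * (X / n) + 4 := by
    intro p _
    by_cases hp : P.EC p.1 ∧ P.EC p.2
    · have h1 := WCb_pair hC X p.1 p.2 hp.1 hp.2
      refine le_trans ?_ h1
      rw [← Set.ncard_coe_finset]
      refine Set.ncard_le_ncard ?_ ((Set.finite_Icc 1 X).subset Set.inter_subset_right)
      intro h hh
      have h2 := (hT p h).1 (Finset.mem_coe.1 hh)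
      exact ⟨h2.2.2.2, Finset.mem_Icc.1 h2.1⟩
    · have h1 : T p = ∅ := by
        rw [Finset.eq_empty_iff_forall_notMem]
        intro h hh
        have h2 := (hT p h).1 hh
        exact hp ⟨h2.2.1, h2.2.2.1⟩
      rw [h1, Finset.card_empty]
      exact Nat.zero_le _
  have h1 : (P.HH ∩ Set.Icc 1 X).ncard ≤ ((HA ×ˢ HA).biUnion T).card := by
    rw [← Set.ncard_coe_finset]
    refine Set.ncard_le_ncard ?_ (Finset.finite_toSet _)
    rintro h ⟨⟨c, hc, c', hc', h2, h3, h4⟩, h5⟩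
    refine Finset.mem_coe.2 (Finset.mem_biUnion.2 ⟨(c, c'), ?_, ?_⟩)
    · rw [hHA]
      exact Finset.mem_product.2 ⟨P.hAfin.mem_toFinset.2 hc, P.hAfin.mem_toFinset.2 hc'⟩
    · exact (hT _ _).2 ⟨Finset.mem_Icc.2 h5, h2, h3, h4⟩
  have h2 := Finset.card_biUnion_le_card_mul (HA ×ˢ HA) T (2 * (X / n) + 4) hTc
  rw [Finset.card_product] at h2
  refine h1.trans (h2.trans (Nat.mul_le_mul_right _ ?_))
  rw [pow_two]
  exact Nat.mul_le_mul hcard hcard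

end Pool.Agent.H42.ES
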