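/-
ROW WBa. Paths off the cycle. PROOF of off_crit (compare off_index in PCM/G1.lean). The map `i ↦ P.red (F^[i] x)` is injective on the
set `{i < j | P.red (F^[i] x) ∈ P.A}`: if `i < i' < j` have the same residue `r` then `FR^[i'-i] r = r` and `FR^[m+j-i] r = red b`
(red_it, row WAa; `F^[m+j] x = b`), so `r` is on the forward orbit of `red b` (cyc_of_per, PCM/G1: look at its statement), i.e.
`F^[i] x` is `OnC`, and so is `F^[j-1] x` (onC_it, `i ≤ j - 1`): contradiction. So the cardinality is `≤ P.A.ncard ≤ s`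
(P.hA; Finset.card_le_card_of_injOn).
* off_fv: by induction on `k ≤ j`: `fv (F^[j-k] x) ≤ fv (F^[j] x) + s * #{i | j - k ≤ i < j, red (F^[i] x) ∈ A}` (fv_nc, fv_step of row
  WAb; `F^[i] x` has level `m + j - i`); for `k = j` use off_crit. (Or induction on `j` for the statement
  `fv x ≤ fv (F^[j] x) + s * card (filter)` without hoff, splitting off the first step.)
* off_wc: terms with `red ∉ A` vanish (P.hwt), the others are `≤ s` (P.hwB), off_crit.
-/
import Pool.Agent.H42.ES.WAb

set_option autoImplicit false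

namespace Pool.Agent.H42.ES

open Pool.Agent.H42.PC (lev lev_iter lev_up)

open scoped Classical

variable {G Ω : Type} [Group G] [MulAction G Ω] {F : Ω → Ω} {b : Ω} {d n0 N s J J0 : ℕ}

theorem off_crit (P : Pl G F b s J J0 N) {m j : ℕ} (hj : 1 ≤ j) (hN : m + j ≤ N) {x : Ω}
    (hx : x ∈ lev F b (m + j)) (hoff : ¬ P.OnC (F^[j - 1] x)) :
    ((Finset.range j).filter fun i => P.red (F^[i] x) ∈ P.A).card ≤ s := by
  have hcard : P.hAfin.toFinset.card = P.A.ncard := (Set.ncard_eq_toFinset_card _ P.hAfin).symm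
  refine le_trans ?_ (hcard.le.trans P.hA)
  refine Finset.card_le_card_of_injOn (fun i => P.red (F^[i] x)) ?_ ?_
  · intro i hi
    rw [Finset.mem_coe, Finset.mem_filter] at hi
    rw [Finset.mem_coe, Set.Finite.mem_toFinset]
    exact hi.2
  · have key : ∀ i i' : ℕ, i < i' → i' < j → P.red (F^[i] x) = P.red (F^[i'] x) → False := by
      intro i i' hii hi' he
      have hui : F^[i] x ∈ lev F b (m + j - i) := lev_iter hx (by omega)
      have h1 : P.FR^[i' - i] (P.red (F^[i] x)) = P.red (F^[i] x) := by
        rw [← red_it P (show i' - i ≤ m + j - i by omega) (by omega) hui,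
          ← Function.iterate_add_apply, show i' - i + i = i' by omega, he]
      have h2 : P.FR^[m + j - i] (P.red (F^[i] x)) = P.FR^[0] (P.red b) := by
        rw [← red_it P (show m + j - i ≤ m + j - i by omega) (by omega) hui,
          ← Function.iterate_add_apply, show m + j - i + i = m + j by omega,
          show F^[m + j] x = b from hx]
        rfl
      have h3 : P.OnC (F^[i] x) :=
        Pool.Agent.H42.PC.cyc_of_per P.FR _ _ (by omega) h1 h2
      apply hoff
      have h4 := onC_it P (j := j - 1 - i) (by omega) (by omega) hui h3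
      rwa [← Function.iterate_add_apply, show j - 1 - i + i = j - 1 by omega] at h4
    intro i hi i' hi' he
    rw [Finset.mem_coe, Finset.mem_filter, Finset.mem_range] at hi hi'
    by_contra hne
    rcases lt_or_gt_of_ne hne with h | h
    · exact key i i' h hi'.1 he
    · exact key i' i h hi.1 he.symm

private theorem off_fv_aux [Finite G] (hT : Tr G F b d n0 N) (hds : d ≤ s)
    (P : Pl G F b s J J0 N) {m j : ℕ} (hN : m + j ≤ N) {x : Ω} (hx : x ∈ lev F b (m + j)) :
    ∀ k ≤ j, P.fv x ≤ P.fv (F^[k] x) +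
      s * ((Finset.range k).filter fun i => P.red (F^[i] x) ∈ P.A).card := by
  intro k
  induction k with
  | zero =>
    intro _
    simp
  | succ k ih =>
    intro hk
    have h1 := ih (by omega)
    have hl : F^[k] x ∈ lev F b (m + j - k) := lev_iter hx (by omega)
    have hl' : F^[k] x ∈ lev F b (m + j - k - 1 + 1) := by
      rwa [show m + j - k - 1 + 1 = m + j - k by omega]
    have hF : F (F^[k] x) = F^[k + 1] x := (Function.iterate_succ_apply' F k x).symm
    rw [Finset.range_add_one, Finset.filter_insert]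
    by_cases hA : P.red (F^[k] x) ∈ P.A
    · rw [if_pos hA, Finset.card_insert_of_notMem (by simp)]
      have h2 := fv_step hT hds P (t := m + j - k - 1) (by omega) hl'
      rw [hF] at h2
      rw [mul_add, mul_one]
      omega
    · rw [if_neg hA]
      have h2 := fv_nc hT P (t := m + j - k - 1) (by omega) hl' hA
      rw [hF] at h2
      omega

theorem off_fv [Finite G] (hT : Tr G F b d n0 N) (hds : d ≤ s) (P : Pl G F b s J J0 N) {m j : ℕ}
    (hj : 1 ≤ j) (hN : m + j ≤ N) {x : Ω} (hx : x ∈ lev F b (m + j))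
    (hoff : ¬ P.OnC (F^[j - 1] x)) : P.fv x ≤ P.fv (F^[j] x) + s * s := by
  have h1 := off_fv_aux hT hds P hN hx j le_rfl
  have h2 := off_crit P hj hN hx hoff
  have h3 := Nat.mul_le_mul_left s h2
  omega

theorem off_wc (P : Pl G F b s J J0 N) {m j : ℕ} (hj : 1 ≤ j) (hN : m + j ≤ N) {x : Ω}
    (hx : x ∈ lev F b (m + j)) (hoff : ¬ P.OnC (F^[j - 1] x)) : P.wc j x ≤ s * s := by
  have h2 := off_crit P hj hN hx hoff
  unfold Pl.wc
  have h1 : ∑ i ∈ Finset.range j, P.wt (P.red (F^[i] x)) =
      ∑ i ∈ (Finset.range j).filter (fun i => P.red (F^[i] x) ∈ P.A), P.wt (P.red (F^[i] x)) := by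
    symm
    apply Finset.sum_subset (Finset.filter_subset _ _)
    intro i hi hni
    apply P.hwt
    intro hA
    exact hni (Finset.mem_filter.2 ⟨hi, hA⟩)
  rw [h1]
  refine (Finset.sum_le_card_nsmul _ _ s fun i _ => P.hwB _).trans ?_
  rw [smul_eq_mul]
  exact Nat.mul_le_mul_right s h2

end Pool.Agent.H42.ES
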