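/-
ROW WBd. The maximal weight grows by `kap n` along the cycle (compare nc_off, mc_add of AD/GIc.lean; copy and adapt).
* wc_off. Take `j` minimal (Nat.find) with `j < n`, `j < h`, `F^[h-j-1] x` not on the cycle; then `F^[h-i] x` is on the cycle for
  `i ≤ j`. `wc h x = wc (h-j) x + wc j (F^[h-j] x)` (wc_add, row WBb). First part: off_wc (row WBa) with `m := t + j`, `j := h - j`:
  `≤ s * s`. Second part: the sum over `i < j` of `wt (red (F^[h-j+i] x))`: the residues of these points (on the cycle, `j < n`) are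
  distinct: if `r = red (F^[a] x) = red (F^[a'] x)`, `0 < a' - a < n`, then `FR^[a'-a] r = r`; `r = FR^[k] β` and `β = FR^[k'] r` for some
  `k'`, so `FR^[a'-a] β = β`, contradicting hmin. So at most `s` of them are in `A` (P.hA), each with weight `≤ s` (P.hwB), the others
  have weight `0` (P.hwt): `≤ s * s`. Total `≤ 2 * (s * s)`.
* mc_add, `≥`: take `w1` on the cycle with `F^[n] w1 = w` (onC_up, row WBc), `w1 ∈ lev (t+n)`; `red w1 = FR^[n] (red w1) = red w` (onC_fix,
  red_it). `mc h w1 = mc h w` (mc_red). Take `x` above `w1` with `wc h x = mc h w1` (ex_mc): `F^[h+n] x = w` and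
  `wc (h+n) x = wc h x + wc n w1 = mc h w + kap n` (wc_add, wc_on). So `mc (h+n) w ≥ ..` (wc_le_mc).
* mc_add, `≤`: take `x` above `w` with `wc (h+n) x = mc (h+n) w` (ex_mc).
  Case 1: some `F^[h+n-j-1] x`, `j < n`, is not on the cycle: by wc_off `wc (h+n) x ≤ 2 (s*s)`, but
  `mc (h+n) w ≥ (h+n)/n ≥ 2 (s*s) + 1` (mc_ge, hbig): contradiction.
  Case 2: all are on the cycle; for `j = n - 1`: `w1 = F^[h] x` is on the cycle, `F^[n] w1 = w`, `wc (h+n) x = wc h x + wc n w1 ≤
  mc h w1 + kap n` and `mc h w1 = mc h w` as above.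
-/
import Pool.Agent.H42.ES.WBa
import Pool.Agent.H42.ES.WBc

set_option autoImplicit false

namespace Pool.Agent.H42.ES

open Pool.Agent.H42.PC (lev lev_iter lev_up)

open scoped Classical

variable {G Ω : Type} [Group G] [MulAction G Ω] {F : Ω → Ω} {b : Ω} {d n0 N s J J0 n t0 : ℕ}

theorem WBd_card (P : Pl G F b s J J0 N) (x : Ω) (S : Finset ℕ)
    (hinj : ∀ i ∈ S, ∀ i' ∈ S, i < i' → P.red (F^[i] x) = P.red (F^[i'] x) → False) :
    (S.filter fun i => P.red (F^[i] x) ∈ P.A).card ≤ s := by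
  have hcard : P.hAfin.toFinset.card = P.A.ncard := (Set.ncard_eq_toFinset_card _ P.hAfin).symm
  refine le_trans ?_ (hcard.le.trans P.hA)
  refine Finset.card_le_card_of_injOn (fun i => P.red (F^[i] x)) ?_ ?_
  · intro i hi
    rw [Finset.mem_coe, Finset.mem_filter] at hi
    rw [Finset.mem_coe, Set.Finite.mem_toFinset]
    exact hi.2
  · intro i hi i' hi' he
    rw [Finset.mem_coe, Finset.mem_filter] at hi hi'
    by_contra hne
    rcases lt_or_gt_of_ne hne with h | h
    · exact hinj i hi.1 i' hi'.1 h he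
    · exact hinj i' hi'.1 i hi.1 h he.symm

theorem WBd_per {P : Pl G F b s J J0 N} (hC : Fl P n t0) {x : Ω} (hx : P.OnC x) {e : ℕ}
    (he : P.FR^[e] (P.red x) = P.red x) : P.FR^[e] (P.red b) = P.red b := by
  obtain ⟨k, hk⟩ := hx
  have hn := hC.hn
  have h1 : P.FR^[n * k] (P.red b) = P.red b := by
    rw [Function.iterate_mul]
    exact Function.iterate_fixed hC.hcyc k
  have e1 : n * k = (n - 1) * k + k := by
    obtain ⟨m, rfl⟩ : ∃ m, n = m + 1 := ⟨n - 1, by omega⟩
    rw [Nat.add_sub_cancel]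
    ring
  have h2 : P.FR^[(n - 1) * k] (P.red x) = P.red b := by
    rw [hk, ← Function.iterate_add_apply, ← e1, h1]
  rw [← h2, ← Function.iterate_add_apply, Nat.add_comm, Function.iterate_add_apply, he]

/-- The sum of the weights over a window without repeated residues is at most `s * s`. -/
theorem WBd_sum (P : Pl G F b s J J0 N) (x : Ω) (S : Finset ℕ)
    (hinj : ∀ i ∈ S, ∀ i' ∈ S, i < i' → P.red (F^[i] x) = P.red (F^[i'] x) → False) :
    ∑ i ∈ S, P.wt (P.red (F^[i] x)) ≤ s * s := by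
  have h1 := WBd_card P x S hinj
  have h2 : ∑ i ∈ S, P.wt (P.red (F^[i] x)) =
      ∑ i ∈ S.filter (fun i => P.red (F^[i] x) ∈ P.A), P.wt (P.red (F^[i] x)) := by
    rw [Finset.sum_filter]
    refine Finset.sum_congr rfl fun i _ => ?_
    split_ifs with h
    · rfl
    · exact P.hwt _ h
  rw [h2]
  calc _ ≤ ∑ i ∈ S.filter (fun i => P.red (F^[i] x) ∈ P.A), s :=
        Finset.sum_le_sum fun i _ => P.hwB _
    _ = (S.filter (fun i => P.red (F^[i] x) ∈ P.A)).card * s := by
        rw [Finset.sum_const, smul_eq_mul]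
    _ ≤ s * s := Nat.mul_le_mul_right s h1

theorem wc_off {P : Pl G F b s J J0 N} (hC : Fl P n t0) {t h : ℕ} (hN : t + h ≤ N) {x : Ω}
    (hx : x ∈ lev F b (t + h)) (hon : P.OnC (F^[h] x)) {j : ℕ} (hj : j < n) (hjh : j < h)
    (hoff : ¬ P.OnC (F^[h - j - 1] x)) : P.wc h x ≤ 2 * (s * s) := by
  have hex : ∃ j, ¬ P.OnC (F^[h - j - 1] x) := ⟨j, hoff⟩
  obtain ⟨j0, hj0, hoff0, hmin0⟩ : ∃ j0, j0 ≤ j ∧ ¬ P.OnC (F^[h - j0 - 1] x) ∧
      ∀ i < j0, P.OnC (F^[h - i - 1] x) :=
    ⟨Nat.find hex, Nat.find_min' hex hoff, Nat.find_spec hex,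
      fun i hi => not_not.1 (Nat.find_min hex hi)⟩
  have hon' : ∀ i, h - j0 ≤ i → i < h → P.OnC (F^[i] x) := by
    intro i h1 h2
    have h3 := hmin0 (h - i - 1) (by omega)
    rwa [show h - (h - i - 1) - 1 = i by omega] at h3
  have hred : ∀ i i' : ℕ, i < i' → i' < h → P.red (F^[i] x) = P.red (F^[i'] x) →
      P.FR^[i' - i] (P.red (F^[i] x)) = P.red (F^[i] x) := by
    intro i i' hii hi' he
    have hui : F^[i] x ∈ lev F b (t + h - i) := lev_iter hx (by omega)
    rw [← red_it P (by omega) (by omega) hui, ← Function.iterate_add_apply,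
      show i' - i + i = i' by omega, he]
  have c1 := WBd_sum P x (Finset.range (h - j0)) (by
    intro i hi i' hi' hii he
    rw [Finset.mem_range] at hi hi'
    have hui : F^[i] x ∈ lev F b (t + h - i) := lev_iter hx (by omega)
    have h1 := hred i i' hii (by omega) he
    obtain ⟨k, hk⟩ := hon
    have h2 : P.FR^[h - i] (P.red (F^[i] x)) = P.FR^[k] (P.red b) := by
      rw [← hk, ← red_it P (by omega) (by omega) hui, ← Function.iterate_add_apply,
        show h - i + i = h by omega]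
    have h3 : P.OnC (F^[i] x) :=
      Pool.Agent.H42.PC.cyc_of_per P.FR _ _ (by omega) h1 h2
    apply hoff0
    have h4 := onC_it P (j := h - j0 - 1 - i) (by omega) (by omega) hui h3
    rwa [← Function.iterate_add_apply, show h - j0 - 1 - i + i = h - j0 - 1 by omega] at h4)
  have c2 := WBd_sum P x (Finset.Ico (h - j0) h) (by
    intro i hi i' hi' hii he
    rw [Finset.mem_Ico] at hi hi'
    have h1 := hred i i' hii hi'.2 he
    have h2 := WBd_per hC (hon' i hi.1 hi.2) h1
    exact hC.hmin (i' - i) (by omega) (by omega) h2)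
  have hsplit : P.wc h x = ∑ i ∈ Finset.range (h - j0), P.wt (P.red (F^[i] x)) +
      ∑ i ∈ Finset.Ico (h - j0) h, P.wt (P.red (F^[i] x)) := by
    rw [Pl.wc, Finset.sum_range_add_sum_Ico _ (by omega : h - j0 ≤ h)]
  omega

theorem WBd_up (hT : Tr G F b d n0 N) {P : Pl G F b s J J0 N} (hC : Fl P n t0)
    {t h : ℕ} (h0 : n0 ≤ t) (hN : t + h + n ≤ N) {w w1 : Ω} (hw : w ∈ lev F b t)
    (hw1 : F^[n] w1 = w) (hon1 : P.OnC w1) : P.mc h w1 = P.mc h w ∧ P.wc n w1 = P.kap n := by
  have hl : w1 ∈ lev F b (t + n) := lev_up (by rw [hw1]; exact hw)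
  have hr : P.red w1 = P.red w := by
    rw [← hw1, red_it P (t := t + n) (by omega) (by omega) hl, onC_fix hC hon1]
  exact ⟨mc_red hT P (t := t + n) (t' := t) (by omega) h0 (by omega) (by omega) hl hw hr,
    wc_on hC (by omega) hl hon1⟩

theorem mc_add (hT : Tr G F b d n0 N) {P : Pl G F b s J J0 N} (hC : Fl P n t0) {t h : ℕ}
    (h0 : n0 ≤ t) (hN : t + h + n ≤ N) (hbig : n * (2 * (s * s) + 1) ≤ h + n) {w : Ω}
    (hw : w ∈ lev F b t) (hon : P.OnC w) : P.mc (h + n) w = P.kap n + P.mc h w := by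
  have hn : 1 ≤ n := hC.hn
  have hN' : t + (h + n) ≤ N := by omega
  refine le_antisymm ?_ ?_
  · obtain ⟨x, hx, hxm⟩ := ex_mc hT P h0 hN' hw
    have hxl : x ∈ lev F b (t + (h + n)) := lev_up (by rw [hx]; exact hw)
    have hon' : P.OnC (F^[h + n] x) := by rw [hx]; exact hon
    by_cases hcase : ∃ j, j < n ∧ j < h + n ∧ ¬ P.OnC (F^[h + n - j - 1] x)
    · obtain ⟨j, hj, hjh, hoff⟩ := hcase
      have h1 := wc_off hC hN' hxl hon' hj hjh hoff
      have h2 := mc_ge hC hN' hw hon
      have h3 : 2 * (s * s) + 1 ≤ (h + n) / n := by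
        rw [Nat.le_div_iff_mul_le (by omega), Nat.mul_comm]
        exact hbig
      omega
    · push Not at hcase
      have h1 := hcase (n - 1) (by omega) (by omega)
      rw [show h + n - (n - 1) - 1 = h by omega] at h1
      have h2 : F^[n] (F^[h] x) = w := by
        rw [← Function.iterate_add_apply, Nat.add_comm n h]
        exact hx
      obtain ⟨e1, e2⟩ := WBd_up hT hC h0 hN hw h2 h1
      have h3 := wc_le_mc P (h := h) (x := x) rfl
      rw [← hxm, wc_add, e2]
      omega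
  · obtain ⟨w1, hl, hw1, hon1⟩ := onC_up hC (t := t) (j := n) (by omega) hw hon
    obtain ⟨e1, e2⟩ := WBd_up hT hC h0 hN hw hw1 hon1
    obtain ⟨x, hx, hxm⟩ := ex_mc hT P (t := t + n) (h := h) (by omega) (by omega) hl
    have h2 : F^[h + n] x = w := by
      rw [Nat.add_comm h n, Function.iterate_add_apply, hx, hw1]
    have h3 := wc_le_mc P h2
    rw [wc_add, hx, e2, hxm, e1] at h3
    omega

end Pool.Agent.H42.ES
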