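/-
ROW WBf. The levels where `la` jumps contain a progression; points above which all is moved. PROOFS.
* la_add: la_formula (row WBe) for `l` and `l + n` with the same `w`; `l + n - t0 = (l - t0) + n`; mc_add (row WBd; hbig since
  `l - t0 ≥ n*(t0*s+3*(s*s)+1)`).
* good_prog: `la (L0+n) = kap n + la L0 > la L0` (kap_pos, row WBc). So there is `l ∈ [L0, L0+n)` with `la l < la (l+1)` (otherwise `la` is
  antitone on the interval). By induction on `j` (la_add for `l + j*n` and `l + j*n + 1`): `la (l+j*n) = j * kap n + la l` and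
  `la (l+j*n+1) = j * kap n + la (l+1)` as long as the levels are `≤ N`.
* mv_on: otherwise fv_off (row WBe; level `l + 1`) gives `fv x ≤ t0*s + s*s < la O l < fv x` (la_big).
* mv_all: `w = F x = F z`, of level `l`, `F^[l-t0] w = F^[l+1-t0] x` is on the cycle (mv_on), so hC.hful gives
  `fv z = fv w + wt (red z) = fv w + wt (red x) = fv x`.
* mv_crit: if `red y ∉ A` then `fv y = fv (F y)` (fv_nc, row WAb), contradiction.
-/
import Pool.Agent.H42.ES.WBd
import Pool.Agent.H42.ES.WBe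

set_option autoImplicit false

namespace Pool.Agent.H42.ES

open Pool.Agent.H42.PC (lev lev_iter lev_up)

open scoped Classical

variable {G Ω : Type} [Group G] [MulAction G Ω] {F : Ω → Ω} {b : Ω} {d n0 N s J J0 n t0 : ℕ}
  {O : ℕ → Set Ω}

theorem la_add [Finite G] (hT : Tr G F b d n0 N) (hO : Or1 G F b n0 N O) (hds : d ≤ s)
    {P : Pl G F b s J J0 N} (hC : Fl P n t0) (hI : InC P n0 O) (hn0 : n0 ≤ t0) {l : ℕ}
    (hl : lb s n t0 ≤ l) (hN : l + n ≤ N) : P.la O (l + n) = P.kap n + P.la O l := by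
  have hlb : t0 + n * (t0 * s + 3 * (s * s) + 1) ≤ l := hl
  have ht0l : t0 ≤ l := le_trans (Nat.le_add_right _ _) hlb
  obtain ⟨w, hw, hon, hf⟩ := la_formula hT hO hds hC hI hn0 (by omega)
  have h1 := hf l hl (by omega)
  have h2 := hf (l + n) (le_trans hl (Nat.le_add_right _ _)) hN
  have h3 : l + n - t0 = (l - t0) + n := by omega
  have hbig : n * (2 * (s * s) + 1) ≤ (l - t0) + n := by
    have h4 : n * (2 * (s * s) + 1) ≤ n * (t0 * s + 3 * (s * s) + 1) := by
      apply Nat.mul_le_mul_left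
      have : 0 ≤ t0 * s := Nat.zero_le _
      omega
    omega
  have h5 := mc_add hT hC hn0 (show t0 + (l - t0) + n ≤ N by omega) hbig hw hon
  rw [h2, h3, h5, h1]
  omega

theorem WBf_prog [Finite G] (hT : Tr G F b d n0 N) (hO : Or1 G F b n0 N O) (hds : d ≤ s)
    {P : Pl G F b s J J0 N} (hC : Fl P n t0) (hI : InC P n0 O) (hn0 : n0 ≤ t0) {l : ℕ}
    (hl : lb s n t0 ≤ l) (j : ℕ) (hN : l + j * n ≤ N) :
    P.la O (l + j * n) = j * P.kap n + P.la O l := by
  induction j with
  | zero => simp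
  | succ j ih =>
    have h1 : l + (j + 1) * n = (l + j * n) + n := by ring
    rw [h1] at hN ⊢
    have h2 := ih (by omega)
    rw [la_add hT hO hds hC hI hn0 (le_trans hl (Nat.le_add_right _ _)) hN, h2]
    ring

theorem good_prog [Finite G] (hT : Tr G F b d n0 N) (hO : Or1 G F b n0 N O) (hds : d ≤ s)
    {P : Pl G F b s J J0 N} (hC : Fl P n t0) (hI : InC P n0 O) (hn0 : n0 ≤ t0) {L0 : ℕ}
    (hL : lb s n t0 ≤ L0) (hN : L0 + n ≤ N) :
    ∃ l, L0 ≤ l ∧ l < L0 + n ∧ ∀ j, l + j * n + 1 ≤ N →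
      P.la O (l + j * n) < P.la O (l + j * n + 1) := by
  have hex : ∃ l, L0 ≤ l ∧ l < L0 + n ∧ P.la O l < P.la O (l + 1) := by
    by_contra hcon
    push Not at hcon
    have h1 : ∀ i, i ≤ n → P.la O (L0 + i) ≤ P.la O L0 := by
      intro i
      induction i with
      | zero => intro _; exact le_refl _
      | succ i ih =>
        intro hi
        have h2 := ih (by omega)
        have h3 := hcon (L0 + i) (by omega) (by omega)
        exact le_trans h3 h2
    have h4 := h1 n le_rfl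
    have h5 := la_add hT hO hds hC hI hn0 hL hN
    have h6 := kap_pos hC
    omega
  obtain ⟨l, hl1, hl2, hl3⟩ := hex
  refine ⟨l, hl1, hl2, fun j hj => ?_⟩
  have h1 := WBf_prog hT hO hds hC hI hn0 (le_trans hL hl1) j (by omega)
  have h2 := WBf_prog hT hO hds hC hI hn0 (l := l + 1)
    (le_trans hL (le_trans hl1 (Nat.le_succ l))) j (by omega)
  have h3 : l + j * n + 1 = l + 1 + j * n := by omega
  rw [h3, h1, h2]
  omega

theorem mv_on [Finite G] (hT : Tr G F b d n0 N) (hO : Or1 G F b n0 N O) (hds : d ≤ s)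
    {P : Pl G F b s J J0 N} (hC : Fl P n t0) (hI : InC P n0 O) (hn0 : n0 ≤ t0) {l : ℕ}
    (hl : lb s n t0 ≤ l) (hN : l < N) {x : Ω} (hx : x ∈ O (l + 1)) (hfx : P.la O l < P.fv x) :
    P.OnC (F^[l + 1 - t0] x) := by
  have hlb : t0 + n * (t0 * s + 3 * (s * s) + 1) ≤ l := hl
  have ht0l : t0 ≤ l := le_trans (Nat.le_add_right _ _) hlb
  by_contra hoff
  have h1 := fv_off hT hds P (show t0 ≤ l + 1 by omega) (by omega)
    (hO.sub (l + 1) (by omega) (by omega) hx) hoff
  have h2 := la_big hT hO hds hC hI hn0 hl hN.le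
  omega

theorem mv_all [Finite G] (hT : Tr G F b d n0 N) (hO : Or1 G F b n0 N O) (hds : d ≤ s)
    {P : Pl G F b s J J0 N} (hC : Fl P n t0) (hI : InC P n0 O) (hn0 : n0 ≤ t0) {l : ℕ}
    (hl : lb s n t0 ≤ l) (hN : l < N) {x z : Ω} (hx : x ∈ O (l + 1)) (hfx : P.la O l < P.fv x)
    (hz : F z = F x) (hr : P.red z = P.red x) : P.la O l < P.fv z := by
  have hlb : t0 + n * (t0 * s + 3 * (s * s) + 1) ≤ l := hl
  have ht0l : t0 ≤ l := le_trans (Nat.le_add_right _ _) hlb
  have h1 := mv_on hT hO hds hC hI hn0 hl hN hx hfx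
  have hxl : x ∈ lev F b (l + 1) := hO.sub (l + 1) (by omega) (by omega) hx
  have hw : F x ∈ lev F b l := lev_iter (j := 1) hxl (by omega)
  have h2 : P.OnC (F^[l - t0] (F x)) := by
    have h3 : F^[l - t0] (F x) = F^[l + 1 - t0] x := by
      rw [← Function.iterate_succ_apply, show (l - t0).succ = l + 1 - t0 by omega]
    rw [h3]
    exact h1
  have h4 := hC.hful l ht0l hN (F x) hw h2 x rfl
  have h5 := hC.hful l ht0l hN (F x) hw h2 z hz
  rw [h5, hr, ← h4]
  exact hfx

theorem mv_crit [Finite G] (hT : Tr G F b d n0 N) (P : Pl G F b s J J0 N) {t : ℕ} (ht : t < N)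
    {y : Ω} (hy : y ∈ lev F b (t + 1)) (h : P.fv (F y) < P.fv y) : P.red y ∈ P.A := by
  by_contra hA
  have h1 := fv_nc hT P ht hy hA
  omega

end Pool.Agent.H42.ES
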