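/-
ROW WCa. Divergence of two moved points. Write `w = F x` (level `l`), `v = F y` (level `s'`), `c1 = red x`, `c2 = red y`. PROOF.
`fv (F x) ≤ la O l < fv x` (la_le of row WBe; `F x ∈ O l` by hO.up) and `fv (F y) ≤ la O l < fv y`, so `c1, c2 ∈ P.A` (mv_crit, row WBf);
`FR^[l+1] c1 = red b = FR^[s'+1] c2` (red_it, row WAa), so `EC c1`, `EC c2`. Let `e` be the largest number in `[l0, l]` with
`F^[s'+1-e] y = F^[l+1-e] x` (exists by hcl; Nat.findGreatest or induction).
Case `e < l`: `p1 = F^[l-e] x`, `p2 = F^[s'-e] y` have level `e + 1`, `F p1 = F p2`, and `p1 ≠ p2` by maximality (`l+1-(e+1) = l-e`).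
`red p1 = FR^[l-e] c1`, `red p2 = FR^[s'-e] c2` (red_it), `FR^[l-e+1] c1 = red (F p1) = red (F p2) = FR^[s'-e+1] c2`.
 (i) `red p1 = red p2 =: c3`. By P.hone `c3 ∈ A`. `l - e ∈ HH` via `c1`, `c3` (first alternative; `EC c3`: `FR^[e+1] c3 = red b`). If
   `J ≤ s' - e`: second alternative of the claim. Otherwise `l - e ≤ s' - e ≤ J` and P.hJ for `(c1, c3, l-e, 0)` and
   `(c2, c3, s'-e, 0)` (the condition holds by the second alternative `j = 0`) gives `l - e ≤ J0`, `s' - e ≤ J0`. So `s' ≤ l + J0`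
   and `l - J0 ≤ e`; apply `F^[e-(l-J0)]` to `F^[s'+1-e] y = F^[l+1-e] x` (iterate_add_apply; `J0 ≤ l`).
 (ii) `red p1 ≠ red p2`. `l - e ∈ HH` via `c1`, `c2`, `j = s' - e`. If `J ≤ s' - e` done. Otherwise `l - e + 1 ≤ J`, `s' - e + 1 ≤ J` and
   P.hJ for `(c1, c2, l-e+1, s'-e+1)` (third alternative) gives `s' - e + 1 ≤ J0`, `l - e + 1 ≤ J0`; conclude as in (i).
Case `e = l`: `F^[s'+1-l] y = F x`. If `s' = l` then `F y = F x` and the first alternative holds
(`F^[s'+1-(l-J0)] y = F^[J0] (F y)`). Let `s' > l` and `u = F^[s'-l] y` (level `l+1`), `F u = F x`, `u = F^[s'-l-1] (F y)`. By fv_mono (row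
WAb) `fv u ≤ fv (F y) ≤ la O l`. If `red u = red x` then mv_all (row WBf) gives `la O l < fv u`: contradiction. So
`FR^[s'-l] c2 = red u ≠ red x = FR^[0] c1` and `FR^[s'-l+1] c2 = red (F u) = red (F x) = FR^[1] c1`. If `J ≤ s' - l` done (`e = l`).
Otherwise `s'-l+1 ≤ J`, `1 ≤ J`, and P.hJ for `(c2, c1, s'-l+1, 1)` gives `s' - l + 1 ≤ J0`; so `s' ≤ l + J0` and the
ancestors of level `l - J0` agree (apply `F^[J0]` to `F^[s'+1-l] y = F x`).
-/
import Pool.Agent.H42.ES.WBf

set_option autoImplicit false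

namespace Pool.Agent.H42.ES

open Pool.Agent.H42.PC (lev lev_iter lev_up)

open scoped Classical

variable {G Ω : Type} [Group G] [MulAction G Ω] {F : Ω → Ω} {b : Ω} {d n0 N s J J0 n t0 : ℕ}
  {O : ℕ → Set Ω}

private theorem WCa_close {l s' e J0 : ℕ} (he : e ≤ l) (hs : l ≤ s') (hJl : J0 ≤ l)
    (hJe : l - J0 ≤ e) {x y : Ω} (h : F^[s' + 1 - e] y = F^[l + 1 - e] x) :
    F^[s' + 1 - (l - J0)] y = F^[J0 + 1] x := by
  have h1 : s' + 1 - (l - J0) = (e - (l - J0)) + (s' + 1 - e) := by omega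
  have h2 : J0 + 1 = (e - (l - J0)) + (l + 1 - e) := by omega
  rw [h1, h2, Function.iterate_add_apply, Function.iterate_add_apply, h]

theorem dicho [Finite G] (hT : Tr G F b d n0 N) (hO : Or1 G F b n0 N O) (hds : d ≤ s)
    {P : Pl G F b s J J0 N} (hC : Fl P n t0) (hI : InC P n0 O) (hn0 : n0 ≤ t0) {l0 l s' : ℕ}
    (h00 : n0 ≤ l0) (h0 : l0 ≤ l) (hJl : J0 ≤ l) (hl : lb s n t0 ≤ l) (hs : l ≤ s') (hs' : s' < N)
    {x y : Ω} (hx : x ∈ O (l + 1)) (hy : y ∈ O (s' + 1)) (hfx : P.la O l < P.fv x)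
    (hfy : P.fv (F y) ≤ P.la O l) (hfy' : P.la O l < P.fv y)
    (hcl : F^[s' + 1 - l0] y = F^[l + 1 - l0] x) :
    ∃ e, l0 ≤ e ∧ e ≤ l ∧ F^[s' + 1 - e] y = F^[l + 1 - e] x ∧
      (e < l → F^[s' - e] y ≠ F^[l - e] x) ∧
      ((s' ≤ l + J0 ∧ F^[s' + 1 - (l - J0)] y = F^[J0 + 1] x) ∨
        (J ≤ s' - e ∧ (e < l → l - e ∈ P.HH))) := by
  have hlN : l < N := by omega
  have hxl : x ∈ lev F b (l + 1) := hO.sub (l + 1) (by omega) (by omega) hx
  have hyl : y ∈ lev F b (s' + 1) := hO.sub (s' + 1) (by omega) (by omega) hy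
  have hFx : F x ∈ O l := (hO.up l (by omega) hlN x).1 hx
  have hfFx : P.fv (F x) ≤ P.la O l := la_le hT hO P (by omega) hlN.le hFx
  have hc1 : P.red x ∈ P.A := mv_crit hT P hlN hxl (lt_of_le_of_lt hfFx hfx)
  have hc2 : P.red y ∈ P.A := mv_crit hT P hs' hyl (lt_of_le_of_lt hfy hfy')
  have hrx : ∀ i ≤ l + 1, P.red (F^[i] x) = P.FR^[i] (P.red x) := fun i hi =>
    red_it P hi (by omega) hxl
  have hry : ∀ i ≤ s' + 1, P.red (F^[i] y) = P.FR^[i] (P.red y) := fun i hi =>
    red_it P hi (by omega) hyl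
  have hE1 : P.EC (P.red x) := ⟨l + 1, by rw [← hrx (l + 1) le_rfl, show F^[l + 1] x = b from hxl]⟩
  have hE2 : P.EC (P.red y) :=
    ⟨s' + 1, by rw [← hry (s' + 1) le_rfl, show F^[s' + 1] y = b from hyl]⟩
  obtain ⟨e, he0, hel, hQ, hmax⟩ : ∃ e, l0 ≤ e ∧ e ≤ l ∧ F^[s' + 1 - e] y = F^[l + 1 - e] x ∧
      ∀ e', e < e' → e' ≤ l → ¬ F^[s' + 1 - e'] y = F^[l + 1 - e'] x :=
    ⟨Nat.findGreatest (fun e => F^[s' + 1 - e] y = F^[l + 1 - e] x) l,
      Nat.le_findGreatest h0 hcl, Nat.findGreatest_le l,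
      Nat.findGreatest_spec (P := fun e => F^[s' + 1 - e] y = F^[l + 1 - e] x) h0 hcl,
      fun e' h1 h2 => Nat.findGreatest_is_greatest h1 h2⟩
  rcases Nat.lt_or_ge e l with hlt | hge
  · -- the paths diverge below the level `l`
    have hne : F^[s' - e] y ≠ F^[l - e] x := by
      have h1 := hmax (e + 1) (by omega) (by omega)
      rwa [show s' + 1 - (e + 1) = s' - e by omega, show l + 1 - (e + 1) = l - e by omega] at h1
    refine ⟨e, he0, hel, hQ, fun _ => hne, ?_⟩
    have hp1 : F^[l - e] x ∈ lev F b (e + 1) := by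
      have h1 := lev_iter hxl (show l - e ≤ l + 1 by omega)
      rwa [show l + 1 - (l - e) = e + 1 by omega] at h1
    have hp2 : F^[s' - e] y ∈ lev F b (e + 1) := by
      have h1 := lev_iter hyl (show s' - e ≤ s' + 1 by omega)
      rwa [show s' + 1 - (s' - e) = e + 1 by omega] at h1
    have hF1 : F (F^[l - e] x) = F^[l - e + 1] x := (Function.iterate_succ_apply' F (l - e) x).symm
    have hF2 : F (F^[s' - e] y) = F^[s' - e + 1] y :=
      (Function.iterate_succ_apply' F (s' - e) y).symm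
    have hQ' : F^[s' - e + 1] y = F^[l - e + 1] x := by
      rwa [show s' + 1 - e = s' - e + 1 by omega, show l + 1 - e = l - e + 1 by omega] at hQ
    have hFF : F (F^[l - e] x) = F (F^[s' - e] y) := by rw [hF1, hF2, hQ']
    by_cases hr : P.red (F^[l - e] x) = P.red (F^[s' - e] y)
    · have hc3 : P.red (F^[l - e] x) ∈ P.A := by
        by_contra hA
        exact hne (P.hone e (by omega) _ hp1 _ hp2 hFF hr hA).symm
      have hE3 : P.EC (P.red (F^[l - e] x)) := by
        refine ⟨e + 1, ?_⟩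
        rw [← red_it P (j := e + 1) le_rfl (by omega) hp1,
          show F^[e + 1] (F^[l - e] x) = b from hp1]
      have hHH : l - e ∈ P.HH :=
        ⟨P.red x, hc1, P.red (F^[l - e] x), hc3, hE1, hE3, Or.inl (hrx (l - e) (by omega)).symm⟩
      by_cases hJ : J ≤ s' - e
      · exact Or.inr ⟨hJ, fun _ => hHH⟩
      · have h1 := P.hJ (P.red x) hc1 (P.red (F^[l - e] x)) hc3 (l - e) (by omega) 0 (by omega)
          (hrx (l - e) (by omega)).symm (Or.inr (Or.inl rfl))
        have h2 := P.hJ (P.red y) hc2 (P.red (F^[l - e] x)) hc3 (s' - e) (by omega) 0 (by omega)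
          ((hry (s' - e) (by omega)).symm.trans hr.symm) (Or.inr (Or.inl rfl))
        exact Or.inl ⟨by omega, WCa_close hel hs hJl (by omega) hQ⟩
    · have hne2 : P.FR^[l - e] (P.red x) ≠ P.FR^[s' - e] (P.red y) := by
        rw [← hrx (l - e) (by omega), ← hry (s' - e) (by omega)]
        exact hr
      have heq2 : P.FR^[l - e + 1] (P.red x) = P.FR^[s' - e + 1] (P.red y) := by
        rw [← hrx (l - e + 1) (by omega), ← hry (s' - e + 1) (by omega), hQ']
      have hHH : l - e ∈ P.HH :=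
        ⟨P.red x, hc1, P.red y, hc2, hE1, hE2, Or.inr ⟨s' - e, hne2, heq2⟩⟩
      by_cases hJ : J ≤ s' - e
      · exact Or.inr ⟨hJ, fun _ => hHH⟩
      · have h1 := P.hJ (P.red x) hc1 (P.red y) hc2 (l - e + 1) (by omega) (s' - e + 1) (by omega)
          heq2 (Or.inr (Or.inr (by
            rw [Nat.add_sub_cancel, Nat.add_sub_cancel]
            exact hne2)))
        exact Or.inl ⟨by omega, WCa_close hel hs hJl (by omega) hQ⟩
  · have hee : e = l := by omega
    subst hee
    refine ⟨e, he0, le_rfl, hQ, fun h => absurd h (lt_irrefl _), ?_⟩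
    rcases Nat.eq_or_lt_of_le hs with hsl | hsl
    · exact Or.inl ⟨by omega, WCa_close le_rfl hs hJl (by omega) hQ⟩
    · have hul : F^[s' - e] y ∈ lev F b (e + 1) := by
        have h1 := lev_iter hyl (show s' - e ≤ s' + 1 by omega)
        rwa [show s' + 1 - (s' - e) = e + 1 by omega] at h1
      have hFu : F (F^[s' - e] y) = F^[s' - e + 1] y :=
        (Function.iterate_succ_apply' F (s' - e) y).symm
      have hQ' : F^[s' - e + 1] y = F x := by
        rw [show s' + 1 - e = s' - e + 1 by omega, show e + 1 - e = 1 by omega] at hQ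
        exact hQ
      have hfu : P.fv (F^[s' - e] y) ≤ P.la O e := by
        have h1 : F^[s' - e] y = F^[s' - e - 1] (F y) := by
          rw [← Function.iterate_succ_apply]
          congr 1
          omega
        rw [h1]
        exact (fv_mono hT P (F y) (s' - e - 1)).trans hfy
      have hru : P.red (F^[s' - e] y) ≠ P.red x := by
        intro hr
        have h1 := mv_all hT hO hds hC hI hn0 hl hlN hx hfx (hFu.trans hQ') hr
        omega
      have hne2 : P.FR^[s' - e] (P.red y) ≠ P.FR^[0] (P.red x) := by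
        rw [← hry (s' - e) (by omega)]
        exact hru
      have heq2 : P.FR^[s' - e + 1] (P.red y) = P.FR^[1] (P.red x) := by
        rw [← hry (s' - e + 1) (by omega), ← hrx 1 (by omega), hQ']
        rfl
      by_cases hJ : J ≤ s' - e
      · exact Or.inr ⟨hJ, fun h => absurd h (lt_irrefl _)⟩
      · have h1 := P.hJ (P.red y) hc2 (P.red x) hc1 (s' - e + 1) (by omega) 1 (by omega)
          heq2 (Or.inr (Or.inr (by
            rw [Nat.add_sub_cancel, show 1 - 1 = 0 by omega]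
            exact hne2)))
        exact Or.inl ⟨by omega, WCa_close le_rfl hs hJl (by omega) hQ⟩

end Pool.Agent.H42.ES
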