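/-
ROW WAc. For every `μ` there is an element of the inertia group which fixes exactly the points with `fv x ≤ μ`.
PROOF. Let `σ` be the generator (P.hgen), `C = Nat.card P.I > 0`, `E = ordCompl[P.l] C = C / P.l ^ (C.factorization P.l)`, and
`D = σ ^ (E * P.l ^ μ)`. By ix_gen (row WAb) `D • x = x ↔ P.ix x ∣ E * P.l ^ μ`. Let `i = P.ix x`, `i ∣ C` (ix_dvd), `i ≠ 0`.
If `padicValNat l i ≤ μ`: `i = l ^ (padicValNat l i) * u` with `u = ordCompl[l] i` coprime to `l`, `u ∣ C` and `u` coprime to `l`,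
so `u ∣ E` (Nat.ordCompl_dvd_ordCompl_of_dvd), hence `i ∣ l ^ μ * E`. Conversely if `i ∣ E * l ^ μ` then
`padicValNat l i ≤ padicValNat l (E * l ^ μ) = μ` since `E` is not divisible by `l` (Nat.not_dvd_ordCompl)
(padicValNat.mul, padicValNat.prime_pow; `Nat.factorization` and padicValNat agree: Nat.factorization_def).
-/
import Pool.Agent.H42.ES.WAb

set_option autoImplicit false

namespace Pool.Agent.H42.ES

open Pool.Agent.H42.PC (lev lev_iter lev_up)

open scoped Classical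

variable {G Ω : Type} [Group G] [MulAction G Ω] {F : Ω → Ω} {b : Ω} {d n0 N s J J0 : ℕ}

theorem fix_elt [Finite G] (P : Pl G F b s J J0 N) (μ : ℕ) :
    ∃ D ∈ P.I, ∀ t ≤ N, ∀ x ∈ lev F b t, (D • x = x ↔ P.fv x ≤ μ) := by
  obtain ⟨σ, hσ, hg⟩ := P.hgen
  have : Fact P.l.Prime := ⟨P.hl⟩
  have hC : Nat.card P.I ≠ 0 := Nat.card_pos.ne'
  have hl := P.hl
  refine ⟨σ ^ (ordCompl[P.l] (Nat.card P.I) * P.l ^ μ), P.I.pow_mem hσ _, fun t ht x hx => ?_⟩
  rw [ix_gen P hσ (fun g hgI => (hg g hgI).imp fun j hj => hj t ht x hx)]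
  have hi := ix_dvd P x
  have hi0 : P.ix x ≠ 0 := (ix_pos P x).ne'
  have hE0 : ordCompl[P.l] (Nat.card P.I) ≠ 0 := (Nat.ordCompl_pos P.l hC).ne'
  have hnd : ¬ P.l ∣ ordCompl[P.l] (Nat.card P.I) := Nat.not_dvd_ordCompl hl hC
  have hv0 : (ordCompl[P.l] (Nat.card P.I)).factorization P.l = 0 :=
    Nat.factorization_eq_zero_of_not_dvd hnd
  have hfv : P.fv x = (P.ix x).factorization P.l := (Nat.factorization_def _ hl).symm
  rw [hfv]
  constructor
  · intro h
    have h1 := (Nat.factorization_le_iff_dvd hi0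
      (Nat.mul_ne_zero hE0 (pow_ne_zero _ hl.ne_zero))).2 h P.l
    rw [Nat.factorization_mul hE0 (pow_ne_zero _ hl.ne_zero), Finsupp.add_apply, hv0,
      hl.factorization_pow, Finsupp.single_eq_same, zero_add] at h1
    exact h1
  · intro h
    have h1 : ordCompl[P.l] (P.ix x) ∣ ordCompl[P.l] (Nat.card P.I) :=
      Nat.ordCompl_dvd_ordCompl_of_dvd hi _
    have h2 : P.l ^ (P.ix x).factorization P.l ∣ P.l ^ μ := pow_dvd_pow _ h
    have h3 := mul_dvd_mul h1 h2
    rw [mul_comm (ordCompl[P.l] (P.ix x)), Nat.ordProj_mul_ordCompl_eq_self] at h3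
    exact h3

end Pool.Agent.H42.ES
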