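/-
ROW WBe. The maximal valuation `la` of a level (compare AD/GHb.lean, AD/GJa.lean; copy and adapt). `lb s n t0 = t0 + n * (t0*s + 3*(s*s) + 1)`.
PROOFS.
* fv_on: induction on `h` with hC.hful (for `w = F x` of level `t + h`; `F^[t+h-t0] (F x) = F^[t+h+1-t0] x` is on the cycle) and
  `wc (h+1) x = wt (red x) + wc h (F x)` (wc_add of row WBb with `h = 1`, or Finset.sum_range_succ').
* fv_off: `b` is on the cycle. Let `m` be the largest number `≤ t` with `F^[t-m] x` on the cycle (`m = 0` is possible since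
  `F^[t] x = b`); `m < t0` (otherwise `F^[t-t0] x = F^[m-t0] (F^[t-m] x)` is on the cycle by onC_it). off_fv (row WBa) with
  `j = t - m ≥ 1`: `fv x ≤ fv (F^[t-m] x) + s*s`; and `fv u ≤ m * s` for `u ∈ lev m` by induction (fv_step, fv_base of row WAb).
* la_le, ex_la: `O l` is finite (or_fin) and nonempty (hO.ne): le_csSup, Nat.sSup_mem.
* la_formula: `W0 = {w ∈ lev t0 | P.OnC w}` is finite (tr_fin) and nonempty (onC_ex). Let `w ∈ W0` have maximal `fv`
  (Set.exists_max_image). All points of `W0` have the same residue (onC_lev), so `mc (l-t0) w' = mc (l-t0) w` for `w' ∈ W0` (mc_red;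
  `n0 ≤ t0`). Let `h = l - t0`. `≤`: let `x ∈ O l` with `fv x = la O l` (ex_la). If `w' = F^[l-t0] x` is on the cycle:
  fv_on gives `fv x = fv w' + wc h x ≤ fv w + mc h w`. If not: `fv x ≤ t0*s + s*s ≤ h / n ≤ mc h w` (fv_off, mc_ge; `h ≥ n*(t0*s+3*(s*s)+1)`).
  `≥`: ex_mc gives `x` with `F^[h] x = w`, `wc h x = mc h w`; `w ∈ O t0` by hI, so `x ∈ O l` (or_up); fv_on, la_le.
* la_big: la_formula and mc_ge: `la O l ≥ mc (l-t0) w ≥ (l-t0)/n ≥ t0*s + 3*(s*s) + 1`.
-/
import Pool.Agent.H42.ES.WBa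
import Pool.Agent.H42.ES.WBc

set_option autoImplicit false

namespace Pool.Agent.H42.ES

open Pool.Agent.H42.PC (lev lev_iter lev_up)

open scoped Classical

variable {G Ω : Type} [Group G] [MulAction G Ω] {F : Ω → Ω} {b : Ω} {d n0 N s J J0 n t0 : ℕ}
  {O : ℕ → Set Ω}

theorem fv_on [Finite G] {P : Pl G F b s J J0 N} (hC : Fl P n t0) {t h : ℕ} (h0 : t0 ≤ t)
    (hN : t + h ≤ N) {x : Ω} (hx : x ∈ lev F b (t + h)) (hon : P.OnC (F^[t + h - t0] x)) :
    P.fv x = P.fv (F^[h] x) + P.wc h x := by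
  induction h generalizing x with
  | zero =>
    show P.fv x = P.fv x + P.wc 0 x
    unfold Pl.wc
    rw [Finset.sum_range_zero, Nat.add_zero]
  | succ h ih =>
    have hx1 : F x ∈ lev F b (t + h) := by
      show F^[t + h] (F x) = b
      rw [← Function.iterate_succ_apply]
      exact hx
    have he : F^[t + h - t0] (F x) = F^[t + (h + 1) - t0] x := by
      rw [← Function.iterate_succ_apply]
      congr 1
      omega
    have hon1 : P.OnC (F^[t + h - t0] (F x)) := by
      rw [he]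
      exact hon
    have h1 := hC.hful (t + h) (by omega) (by omega) (F x) hx1 hon1 x rfl
    have h2 := ih (by omega) hx1 hon1
    have h3 : P.wc (h + 1) x = P.wc h (F x) + P.wt (P.red x) := by
      unfold Pl.wc
      rw [Finset.sum_range_succ']
      rfl
    rw [h1, h2, h3, Function.iterate_succ_apply]
    omega

theorem fv_off [Finite G] (hT : Tr G F b d n0 N) (hds : d ≤ s) (P : Pl G F b s J J0 N) {t : ℕ}
    (h0 : t0 ≤ t) (ht : t ≤ N) {x : Ω} (hx : x ∈ lev F b t) (hoff : ¬ P.OnC (F^[t - t0] x)) :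
    P.fv x ≤ t0 * s + s * s := by
  have hb0 : P.OnC b := ⟨0, rfl⟩
  have hxt : F^[t] x = b := hx
  have hex : ∃ j, P.OnC (F^[j] x) := ⟨t, by rw [hxt]; exact hb0⟩
  obtain ⟨j0, hj0⟩ : ∃ j0, j0 = Nat.find hex := ⟨_, rfl⟩
  have hj1 : P.OnC (F^[j0] x) := by
    rw [hj0]
    exact Nat.find_spec hex
  have hj2 : ∀ i < j0, ¬ P.OnC (F^[i] x) := by
    intro i hi
    rw [hj0] at hi
    exact Nat.find_min hex hi
  have hj3 : j0 ≤ t := by
    by_contra h
    exact hj2 t (by omega) (by rw [hxt]; exact hb0)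
  have hj4 : t - t0 < j0 := by
    by_contra h
    apply hoff
    have h1 : F^[t - t0] x = F^[t - t0 - j0] (F^[j0] x) := by
      rw [← Function.iterate_add_apply]
      congr 1
      omega
    rw [h1]
    exact onC_it P (t := t - j0) (by omega) (by omega) (lev_iter hx hj3) hj1
  have hbase : ∀ m ≤ N, ∀ u ∈ lev F b m, P.fv u ≤ m * s := by
    intro m
    induction m with
    | zero =>
      intro _ u hu
      have h1 : u = b := hu
      rw [h1, fv_base hT P]
      exact Nat.zero_le _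
    | succ m ih =>
      intro hm u hu
      have h1 : F u ∈ lev F b m := by
        show F^[m] (F u) = b
        rw [← Function.iterate_succ_apply]
        exact hu
      have h2 := ih (by omega) (F u) h1
      have h3 := fv_step hT hds P (t := m) (by omega) hu
      rw [Nat.add_mul, Nat.one_mul]
      omega
  have hx' : x ∈ lev F b (t - j0 + j0) := by
    rw [Nat.sub_add_cancel hj3]
    exact hx
  have h1 := off_fv hT hds P (m := t - j0) (j := j0) (by omega) (by omega) hx'
    (hj2 (j0 - 1) (by omega))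
  have h2 := hbase (t - j0) (by omega) _ (lev_iter hx hj3)
  have h3 : (t - j0) * s ≤ t0 * s := Nat.mul_le_mul_right s (by omega)
  omega

theorem la_le (hT : Tr G F b d n0 N) (hO : Or1 G F b n0 N O) (P : Pl G F b s J J0 N) {l : ℕ}
    (h0 : n0 ≤ l) (hl : l ≤ N) {x : Ω} (hx : x ∈ O l) : P.fv x ≤ P.la O l := by
  have hfin : (P.fv '' O l).Finite := (or_fin hT hO h0 hl).image P.fv
  exact le_csSup hfin.bddAbove (Set.mem_image_of_mem _ hx)

theorem ex_la (hT : Tr G F b d n0 N) (hO : Or1 G F b n0 N O) (P : Pl G F b s J J0 N) {l : ℕ}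
    (h0 : n0 ≤ l) (hl : l ≤ N) : ∃ x ∈ O l, P.fv x = P.la O l := by
  have hfin : (P.fv '' O l).Finite := (or_fin hT hO h0 hl).image P.fv
  have h := Nat.sSup_mem ((hO.ne l h0 hl).image P.fv) hfin.bddAbove
  obtain ⟨x, hx, he⟩ := h
  exact ⟨x, hx, he⟩

theorem la_formula [Finite G] (hT : Tr G F b d n0 N) (hO : Or1 G F b n0 N O) (hds : d ≤ s)
    {P : Pl G F b s J J0 N} (hC : Fl P n t0) (hI : InC P n0 O) (hn0 : n0 ≤ t0) (ht0 : t0 ≤ N) :
    ∃ w ∈ lev F b t0, P.OnC w ∧ ∀ l, lb s n t0 ≤ l → l ≤ N →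
      P.la O l = P.fv w + P.mc (l - t0) w := by
  have hfin : ({w | w ∈ lev F b t0 ∧ P.OnC w} : Set Ω).Finite :=
    (tr_fin hT ht0).subset fun w hw => hw.1
  obtain ⟨w1, hw1, hw1'⟩ := onC_ex hC ht0
  obtain ⟨w, ⟨hw, hwon⟩, hmax⟩ := Set.exists_max_image _ P.fv hfin ⟨w1, hw1, hw1'⟩
  refine ⟨w, hw, hwon, fun l hl hlN => ?_⟩
  have hl' : t0 + n * (t0 * s + 3 * (s * s) + 1) ≤ l := hl
  have hl0 : t0 ≤ l := le_trans (Nat.le_add_right _ _) hl'
  have hN : t0 + (l - t0) ≤ N := by omega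
  have hll : t0 + (l - t0) = l := by omega
  apply le_antisymm
  · obtain ⟨x, hx, hxe⟩ := ex_la hT hO P (by omega : n0 ≤ l) hlN
    rw [← hxe]
    have hxl : x ∈ lev F b l := hO.sub l (by omega) hlN hx
    have hxl' : x ∈ lev F b (t0 + (l - t0)) := by
      rw [hll]
      exact hxl
    by_cases hon : P.OnC (F^[l - t0] x)
    · have h1 := fv_on hC (t := t0) (h := l - t0) le_rfl hN hxl'
        (by rw [show t0 + (l - t0) - t0 = l - t0 by omega]; exact hon)
      have hw' : F^[l - t0] x ∈ lev F b t0 := by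
        have h5 := lev_iter (j := l - t0) hxl (by omega)
        rw [show l - (l - t0) = t0 by omega] at h5
        exact h5
      have h2 : P.fv (F^[l - t0] x) ≤ P.fv w := hmax _ ⟨hw', hon⟩
      have hr : P.red (F^[l - t0] x) = P.red w := by
        rw [onC_lev hC ht0 hw' hon, onC_lev hC ht0 hw hwon]
      have h3 : P.wc (l - t0) x ≤ P.mc (l - t0) w := by
        rw [← mc_red hT P hn0 hn0 hN hN hw' hw hr]
        exact wc_le_mc P rfl
      omega
    · have h1 := fv_off hT hds P hl0 hlN hxl hon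
      have h2 := mc_ge hC hN hw hwon
      have h3 : t0 * s + 3 * (s * s) + 1 ≤ (l - t0) / n := by
        rw [Nat.le_div_iff_mul_le hC.hn, Nat.mul_comm]
        omega
      have h4 : s * s ≤ 3 * (s * s) := by omega
      omega
  · obtain ⟨x, hx1, hx2⟩ := ex_mc hT P hn0 hN hw
    have hwO : w ∈ O t0 := hI t0 hn0 ht0 w hw hwon
    have hxO : x ∈ O (t0 + (l - t0)) := or_up hO hn0 hN (by rw [hx1]; exact hwO)
    have hxl : x ∈ lev F b (t0 + (l - t0)) := lev_up (by rw [hx1]; exact hw)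
    have h1 := fv_on hC (t := t0) (h := l - t0) le_rfl hN hxl
      (by rw [show t0 + (l - t0) - t0 = l - t0 by omega, hx1]; exact hwon)
    rw [hx1, hx2] at h1
    rw [← h1]
    rw [hll] at hxO
    exact la_le hT hO P (by omega) hlN hxO

theorem la_big [Finite G] (hT : Tr G F b d n0 N) (hO : Or1 G F b n0 N O) (hds : d ≤ s)
    {P : Pl G F b s J J0 N} (hC : Fl P n t0) (hI : InC P n0 O) (hn0 : n0 ≤ t0) {l : ℕ}
    (hl : lb s n t0 ≤ l) (hN : l ≤ N) : t0 * s + s * s < P.la O l := by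
  have hl' : t0 + n * (t0 * s + 3 * (s * s) + 1) ≤ l := hl
  obtain ⟨w, hw, hwon, hf⟩ := la_formula hT hO hds hC hI hn0 (by omega)
  rw [hf l hl hN]
  have h2 := mc_ge hC (t := t0) (h := l - t0) (by omega) hw hwon
  have h3 : t0 * s + 3 * (s * s) + 1 ≤ (l - t0) / n := by
    rw [Nat.le_div_iff_mul_le hC.hn, Nat.mul_comm]
    omega
  omega

end Pool.Agent.H42.ES
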