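/-
ROW WDa. Separation by the second place. Here `P'` is the place, `n'` its period, `t'` its base level, `L = (s*s+1)*n'`. PROOFS.
* sep_on. Let `V = F^[s'-m1-L] v` (level `m1 + L`), on the cycle. Then `v0 = F^[s'-m1] v = F^[L] V` (level `m1`), `v1 = F^[s'-e-1] v`
  (level `e+1 ≤ m1 + L`), and `F^[s'-e] v` are on the cycle (onC_it, row WAa). `w1 = F^[l-e-1] w` (level `e+1`) is not on the cycle: otherwise
  `red w1 = FR^[(n'-1)*(e+1)] (red b) = red v1` (onC_lev, row WBc), not in `A` (hnd is the definition of dg), `F w1 = F v1` by heq, so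
  `w1 = v1` by P'.hone, contradicting hne. off_fv (row WBa; `m := e`, `j := l - e`) gives
  `fv w ≤ fv (F^[l-e] w) + s*s = fv (F^[s'-e] v) + s*s ≤ fv v0 + s*s` (fv_mono, row WAb: `F^[s'-e] v = F^[m1-e] v0`).
  fv_on (row WBe; `t := m1`, `h := L`, `t' ≤ m1`; `F^[m1+L-t'] V` is on the cycle) and wc_ge (row WBc) give
  `fv V = fv v0 + wc L V ≥ fv v0 + L / n' = fv v0 + s*s + 1`. So with `μ = fv V - 1` we have `fv w ≤ μ`, `fv v0 ≤ μ`, `fv V > μ`; fix_elt
  (row WAc).
* sep: `V = F^[s'-m1-L] v ∈ O (m1+L)` (or_iter), onC_ex (row WBc) gives `V' ∈ lev (m1+L)` on the cycle, `V' ∈ O (m1+L)` by hI'; hO.trans gives `a`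
  with `a • V = V'`. Apply sep_on to `a • w`, `a • v` (tr_smul, tr_slev of row WAa) to get `g`; then `a⁻¹ * g * a` is the required element.
-/
import Pool.Agent.H42.ES.WAc
import Pool.Agent.H42.ES.WBe

set_option autoImplicit false

namespace Pool.Agent.H42.ES

open Pool.Agent.H42.PC (lev lev_iter lev_up)

open scoped Classical

variable {G Ω : Type} [Group G] [MulAction G Ω] {F : Ω → Ω} {b : Ω} {d n0 N s J' J0 n' t' : ℕ}
  {O : ℕ → Set Ω}

theorem sep_on [Finite G] (hT : Tr G F b d n0 N) (hds : d ≤ s) {P' : Pl G F b s J' J0 N}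
    (hC' : Fl P' n' t') {e m1 l s' : ℕ} (h1 : t' ≤ e) (h2 : e ≤ m1)
    (h3 : m1 + (s * s + 1) * n' ≤ s') (hl : l ≤ N) (hs : s' ≤ N) (hel : e < l)
    (hnd : ¬ P'.dg n' (e + 1)) {w v : Ω} (hw : w ∈ lev F b l) (hv : v ∈ lev F b s')
    (heq : F^[s' - e] v = F^[l - e] w) (hne : F^[s' - e - 1] v ≠ F^[l - e - 1] w)
    (hon : P'.OnC (F^[s' - m1 - (s * s + 1) * n'] v)) :
    ∃ g : G, g • w = w ∧ g • F^[s' - m1] v = F^[s' - m1] v ∧
      g • F^[s' - m1 - (s * s + 1) * n'] v ≠ F^[s' - m1 - (s * s + 1) * n'] v := by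
  have hn' := hC'.hn
  have hK : (s * s + 1) * n' / n' = s * s + 1 := Nat.mul_div_cancel _ (by omega)
  have hL1 : 1 ≤ (s * s + 1) * n' := Nat.mul_pos (Nat.succ_pos _) (by omega)
  generalize (s * s + 1) * n' = L at h3 hon hK hL1 ⊢
  have hVl : F^[s' - m1 - L] v ∈ lev F b (m1 + L) := by
    have h := lev_iter (j := s' - m1 - L) hv (by omega)
    rwa [show s' - (s' - m1 - L) = m1 + L by omega] at h
  have hv0l : F^[s' - m1] v ∈ lev F b m1 := by
    have h := lev_iter (j := s' - m1) hv (by omega)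
    rwa [show s' - (s' - m1) = m1 by omega] at h
  have hv1l : F^[s' - e - 1] v ∈ lev F b (e + 1) := by
    have h := lev_iter (j := s' - e - 1) hv (by omega)
    rwa [show s' - (s' - e - 1) = e + 1 by omega] at h
  have hw1l : F^[l - e - 1] w ∈ lev F b (e + 1) := by
    have h := lev_iter (j := l - e - 1) hw (by omega)
    rwa [show l - (l - e - 1) = e + 1 by omega] at h
  have hv0 : F^[s' - m1] v = F^[L] (F^[s' - m1 - L] v) := by
    rw [← Function.iterate_add_apply]
    congr 1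
    omega
  have hv1 : F^[s' - e - 1] v = F^[m1 + L - e - 1] (F^[s' - m1 - L] v) := by
    rw [← Function.iterate_add_apply]
    congr 1
    omega
  have hv1on : P'.OnC (F^[s' - e - 1] v) := by
    rw [hv1]
    exact onC_it P' (t := m1 + L) (by omega) (by omega) hVl hon
  have hFv1 : F (F^[s' - e - 1] v) = F^[s' - e] v := by
    rw [← Function.iterate_succ_apply' F]
    congr 1
    omega
  have hFw1 : F (F^[l - e - 1] w) = F^[l - e] w := by
    rw [← Function.iterate_succ_apply' F]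
    congr 1
    omega
  have hw1off : ¬ P'.OnC (F^[l - e - 1] w) := by
    intro hc
    have hr1 := onC_lev hC' (t := e + 1) (by omega) hw1l hc
    have hr2 := onC_lev hC' (t := e + 1) (by omega) hv1l hv1on
    apply hne
    refine P'.hone e (by omega) _ hv1l _ hw1l ?_ ?_ ?_
    · rw [hFv1, hFw1, heq]
    · rw [hr1, hr2]
    · rw [hr2]
      exact hnd
  have hw' : w ∈ lev F b (e + (l - e)) := by
    rwa [show e + (l - e) = l by omega]
  have hfw := off_fv hT hds P' (m := e) (j := l - e) (by omega) (by omega) hw' hw1off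
  have hfm : P'.fv (F^[l - e] w) ≤ P'.fv (F^[s' - m1] v) := by
    rw [← heq]
    have h := fv_mono hT P' (F^[s' - m1] v) (m1 - e)
    rw [← Function.iterate_add_apply, show m1 - e + (s' - m1) = s' - e by omega] at h
    exact h
  have hon2 : P'.OnC (F^[m1 + L - t'] (F^[s' - m1 - L] v)) :=
    onC_it P' (t := m1 + L) (by omega) (by omega) hVl hon
  have hfV := fv_on hC' (t := m1) (h := L) (by omega) (by omega) hVl hon2
  have hwc := wc_ge hC' (t := m1) (h := L) (by omega) hVl hon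
  rw [hK] at hwc
  rw [← hv0] at hfV
  obtain ⟨D, -, hD⟩ := fix_elt P' (P'.fv (F^[s' - m1 - L] v) - 1)
  refine ⟨D, ?_, ?_, ?_⟩
  · rw [hD l hl w hw]
    omega
  · rw [hD m1 (by omega) _ hv0l]
    omega
  · intro hc
    rw [hD (m1 + L) (by omega) _ hVl] at hc
    omega

theorem sep [Finite G] (hT : Tr G F b d n0 N) (hO : Or1 G F b n0 N O) (hds : d ≤ s)
    {P' : Pl G F b s J' J0 N} (hC' : Fl P' n' t') (hI' : InC P' n0 O) {e m1 l s' : ℕ}
    (h0 : n0 ≤ e) (h1 : t' ≤ e) (h2 : e ≤ m1) (h3 : m1 + (s * s + 1) * n' ≤ s') (hl : l ≤ N)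
    (hs : s' ≤ N) (hel : e < l) (hnd : ¬ P'.dg n' (e + 1)) {w v : Ω} (hw : w ∈ O l)
    (hv : v ∈ O s') (heq : F^[s' - e] v = F^[l - e] w)
    (hne : F^[s' - e - 1] v ≠ F^[l - e - 1] w) :
    ∃ g : G, g • w = w ∧ g • F^[s' - m1] v = F^[s' - m1] v ∧
      g • F^[s' - m1 - (s * s + 1) * n'] v ≠ F^[s' - m1 - (s * s + 1) * n'] v := by
  have hVO : F^[s' - m1 - (s * s + 1) * n'] v ∈ O (m1 + (s * s + 1) * n') := by
    apply or_iter hO (t := m1 + (s * s + 1) * n') (j := s' - m1 - (s * s + 1) * n') (by omega)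
      (by omega)
    rwa [show m1 + (s * s + 1) * n' + (s' - m1 - (s * s + 1) * n') = s' by omega]
  obtain ⟨V', hV'l, hV'on⟩ := onC_ex hC' (t := m1 + (s * s + 1) * n') (by omega)
  have hV'O := hI' (m1 + (s * s + 1) * n') (by omega) (by omega) V' hV'l hV'on
  obtain ⟨a, ha⟩ := hO.trans (m1 + (s * s + 1) * n') (by omega) (by omega) _ hVO _ hV'O
  have hwl : w ∈ lev F b l := hO.sub l (by omega) hl hw
  have hvl : v ∈ lev F b s' := hO.sub s' (by omega) hs hv
  obtain ⟨g, g1, g2, g3⟩ := sep_on hT hds hC' h1 h2 h3 hl hs hel hnd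
    (w := a • w) (v := a • v) (tr_slev hT a hwl) (tr_slev hT a hvl)
    (by rw [tr_smul hT, tr_smul hT, heq])
    (by
      rw [tr_smul hT, tr_smul hT]
      intro hc
      exact hne (smul_left_cancel a hc))
    (by rw [tr_smul hT, ha]; exact hV'on)
  rw [tr_smul hT] at g2 g3
  refine ⟨a⁻¹ * g * a, ?_, ?_, ?_⟩
  · rw [mul_smul, mul_smul, g1, inv_smul_smul]
  · rw [mul_smul, mul_smul, g2, inv_smul_smul]
  · intro hc
    apply g3
    rw [mul_smul, mul_smul, inv_smul_eq_iff] at hc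
    exact hc

end Pool.Agent.H42.ES
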