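/-
ROW WDb. Orbit sizes. PROOFS.
* orb_dbl: the proof of orbit_big in PCM/G2.lean (section GOrb, with the lemma GOr_double) with `u` replaced by `w` (it only uses the
  equivariance of `F`, here tr_smul of row WAa): by induction on `k` the orbit of `F^[s'-e-k*L] v` under `stabilizer G w` has at least `2^k`
  elements: the orbit of `q = F^[s'-(m1+L)] v` maps onto the orbit of `F^[L] q = F^[s'-m1] v` (`m1 = e + k L`), and the fibre over
  `F^[s'-m1] v` contains `q` and `g • q ≠ q`, so all fibres have at least `2` elements. Finally the orbit of `v` maps onto the orbit of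
  `F^[s'-e-k*L] v`.
* orb_above: the orbit is `{x | F^[q] x = w}`: if `g • w = w` then `F^[q] (g • v) = g • w = w`; conversely if `F^[q] x = w` then
  `x ∈ O (l+q)` (or_up, row WAa), so `x = g • v` for some `g` (hO.trans), and `g • w = F^[q] (g • v) = F^[q] x = w`. tr_fib (row WAa).
-/
import Pool.Agent.H42.ES.WAa
import Pool.Agent.H42.PCM.G2

set_option autoImplicit false

namespace Pool.Agent.H42.ES

open Pool.Agent.H42.PC (lev lev_iter lev_up)

open scoped Classical

variable {G Ω : Type} [Group G] [MulAction G Ω] {F : Ω → Ω} {b : Ω} {d n0 N : ℕ}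
  {O : ℕ → Set Ω}

theorem orb_dbl [Finite G] (hT : Tr G F b d n0 N) {s' e L : ℕ} {w v : Ω}
    (hsep : ∀ m1, e ≤ m1 → m1 + L ≤ s' → ∃ g : G, g • w = w ∧
      g • F^[s' - m1] v = F^[s' - m1] v ∧ g • F^[s' - m1 - L] v ≠ F^[s' - m1 - L] v)
    (k : ℕ) (hk : e + k * L ≤ s') :
    2 ^ k ≤ (MulAction.orbit (MulAction.stabilizer G w) v).ncard := by
  set H := MulAction.stabilizer G w with hH
  have key : ∀ i, e + i * L ≤ s' → 2 ^ i ≤ (MulAction.orbit H (F^[s' - e - i * L] v)).ncard := by
    intro i
    induction i with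
    | zero =>
      intro _
      rw [pow_zero]
      have hf : (MulAction.orbit H (F^[s' - e - 0 * L] v)).Finite := Set.finite_range _
      exact (Set.ncard_pos hf).2 (MulAction.nonempty_orbit _)
    | succ i ih =>
      intro hi
      have e1 : e + (i + 1) * L = e + i * L + L := by ring
      have h1 := ih (by omega)
      obtain ⟨g, hg1, hg2, hg3⟩ := hsep (e + i * L) (by omega) (by omega)
      have e2 : s' - (e + i * L) = s' - e - i * L := by omega
      have e3 : s' - (e + i * L) - L = s' - e - (i + 1) * L := by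
        rw [add_mul]
        omega
      rw [e3] at hg3
      rw [e2] at hg2
      have h2 := Pool.Agent.H42.PC.GOr_double H (F^[L]) (p := F^[s' - e - (i + 1) * L] v)
        (r := F^[s' - e - i * L] v) (fun g _ => tr_smul hT g _ L)
        (by
          rw [← Function.iterate_add_apply]
          congr 1
          rw [add_mul]
          have : i * L + L ≤ s' - e := by omega
          congr 1
          omega)
        ⟨g, hg1, hg2, hg3⟩
      rw [pow_succ]
      omega
  have h1 := key k hk
  refine h1.trans ?_
  have h2 : MulAction.orbit H (F^[s' - e - k * L] v) =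
      (F^[s' - e - k * L]) '' MulAction.orbit H v := by
    ext z
    constructor
    · rintro ⟨h, rfl⟩
      refine ⟨h • v, ⟨h, rfl⟩, ?_⟩
      exact tr_smul hT (h : G) v _
    · rintro ⟨_, ⟨h, rfl⟩, rfl⟩
      exact ⟨h, (tr_smul hT (h : G) v _).symm⟩
  rw [h2]
  exact Set.ncard_image_le (Set.finite_range _)

theorem orb_above (hT : Tr G F b d n0 N) (hO : Or1 G F b n0 N O) {l q : ℕ} (h0 : n0 ≤ l)
    (hN : l + q ≤ N) {w v : Ω} (hw : w ∈ O l) (hv : v ∈ O (l + q)) (h : F^[q] v = w) :
    (MulAction.orbit (MulAction.stabilizer G w) v).ncard = d ^ q := by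
  have h1 : MulAction.orbit (MulAction.stabilizer G w) v = {x | F^[q] x = w} := by
    ext x
    constructor
    · rintro ⟨g, rfl⟩
      show F^[q] ((g : G) • v) = w
      rw [tr_smul hT, h]
      exact g.2
    · intro hx
      have hx' : F^[q] x = w := hx
      have h2 : x ∈ O (l + q) := or_up hO h0 hN (by rw [hx']; exact hw)
      obtain ⟨g, hg⟩ := hO.trans (l + q) (by omega) hN v hv x h2
      refine ⟨⟨g, ?_⟩, hg⟩
      rw [MulAction.mem_stabilizer_iff]
      rw [← h, ← tr_smul hT, hg, hx', h]
  rw [h1]
  exact (tr_fib hT h0 hN (hO.sub l h0 (by omega) hw)).2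

end Pool.Agent.H42.ES
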