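/-
ROW WFb. The sum over the far companions. Let `w = F x`, `L = (s*s+1)*n'`, `Fa = Far F O l0 lm l J0 D w`. PROOF.
1. Let `p = (s', v) ∈ Fa`: `l ≤ s' < lm < N`, `v ∈ O s'`, `D • v = v`, there is `y` with `F y = v`, `D • y ≠ y` (`y ∈ O (s'+1)`, hO.up),
   `F^[s'-l0] v = F^[l-l0] w`, and not near. By hD: `fv (F y) ≤ la O l < fv y`. dicho (row WCa; `F^[s'+1-l0] y = F^[s'-l0] v`,
   `F^[l+1-l0] x = F^[l-l0] w`) gives `e`; its near alternative is excluded (`F^[s'+1-(l-J0)] y = F^[s'-(l-J0)] v` because `l - J0 ≤ s'`,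
   `F^[J0+1] x = F^[J0] w`), so `J ≤ s' - e` and (`e < l → l - e ∈ HH`). Put `q = s' - e`: `J ≤ q ≤ lm - l0`.
2. Orbit size: `2^(q/L) ≤ (orbit (stabilizer G w) v).ncard`. If `e < l`: `¬ P'.dg n' (e+1)` by hgood; sep (row WDa; heq:
   `F^[s'-e] v = F^[s'+1-e] y = F^[l+1-e] x = F^[l-e] w`, hne from `F^[s'-e] y ≠ F^[l-e] x`; note `F^[s'-e-1] v = F^[s'-e] y`) gives the
   hypothesis of orb_dbl (row WDb) with `k = q/L` (`e + (q/L)*L ≤ s'`). If `e = l`: `v` is above `w` (`F^[s'-l] v = w`), orb_above (row WDb):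
   the size is `d^q ≥ 2^q ≥ 2^(q/L)`.
   So each term of fsum is `≤ 1 / 2^(q/L)`.
3. Grouping. For `q` and `e` (`e ≤ l ≤ e + q`, so for given `q` there are at most `q + 1` values of `e`) the `v` with
   `F^[q] v = y_e := F^[l-e] w` (level `e ≥ n0`) which have a child `y` with `red y ∈ P.A` (mv_crit, row WBf) number at most
   `s * d^((J0+1)*(q/(J+1)+1))` (cr_count, row WEa; `e + q + 1 = s' + 1 ≤ N`). The pair `(s', v)` is determined by `e, q, v`. So
   `fsum ≤ ∑ q ∈ Icc J (lm-l0), ∑ e ∈ (range (l+1)).filter (l ≤ e + q), (number of v) / 2^(q/L) ≤ ∑ q ∈ Icc J (lm-l0), tm d s J0 L J q`.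
   Formally: `Fa` is finite (it is contained in the finite union over `q ∈ Icc J (lm-l0)` and `e` of the images of the sets of cr_count under
   `v ↦ (e+q, v)`); finsum over `Fa` as a Finset sum; choose `e` for each `p` (choice) and use
   Finset.sum_fiberwise / `Finset.sum_le_sum_fiberwise...` or `Finset.sum_sigma`; each fibre has at most the number of cr_count.
-/
import Pool.Agent.H42.ES.WCa
import Pool.Agent.H42.ES.WDa
import Pool.Agent.H42.ES.WDb
import Pool.Agent.H42.ES.WEa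

set_option autoImplicit false

namespace Pool.Agent.H42.ES

open Pool.Agent.H42.PC (lev lev_iter lev_up)

open scoped Classical

variable {G Ω : Type} [Group G] [MulAction G Ω] {F : Ω → Ω} {b : Ω}
  {d n0 N s J J' J0 n t0 n' t' : ℕ} {O : ℕ → Set Ω}

theorem WFb_group {α ι : Type} (S : Finset α) (I : Finset ι) (f : α → ℝ) (g : ι → ℝ) (m : ι → ℕ)
    (A : ι → Set α) (hg : ∀ i ∈ I, 0 ≤ g i)
    (h : ∀ p ∈ S, ∃ i ∈ I, p ∈ A i ∧ f p ≤ g i)
    (hA : ∀ i ∈ I, (A i).Finite ∧ (A i).ncard ≤ m i) :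
    ∑ p ∈ S, f p ≤ ∑ i ∈ I, (m i : ℝ) * g i := by
  classical
  have h1 : ∀ p ∈ S, f p ≤ ∑ i ∈ I, (if p ∈ A i then g i else 0) := by
    intro p hp
    obtain ⟨i, hi, hpi, hfi⟩ := h p hp
    have h2 : (if p ∈ A i then g i else 0) ≤ ∑ i ∈ I, (if p ∈ A i then g i else 0) := by
      refine Finset.single_le_sum (f := fun i => if p ∈ A i then g i else 0) ?_ hi
      intro j hj
      by_cases hpj : p ∈ A j
      · simp only [hpj, if_true]
        exact hg j hj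
      · simp only [hpj, if_false]
        exact le_refl _
    rw [if_pos hpi] at h2
    linarith
  refine le_trans (Finset.sum_le_sum h1) ?_
  rw [Finset.sum_comm]
  refine Finset.sum_le_sum ?_
  intro i hi
  rw [← Finset.sum_filter, Finset.sum_const, nsmul_eq_mul]
  refine mul_le_mul_of_nonneg_right ?_ (hg i hi)
  have h3 : ((S.filter fun p => p ∈ A i) : Finset α).card ≤ (A i).ncard := by
    rw [← Set.ncard_coe_finset]
    refine Set.ncard_le_ncard ?_ (hA i hi).1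
    intro p hp
    have h4 := Finset.mem_coe.1 hp
    exact (Finset.mem_filter.1 h4).2
  exact_mod_cast h3.trans (hA i hi).2

theorem WFb_mem [Finite G] (hT : Tr G F b d n0 N) (hO : Or1 G F b n0 N O) (hds : d ≤ s)
    {P' : Pl G F b s J' J0 N} (hC' : Fl P' n' t') (hI' : InC P' n0 O) {P : Pl G F b s J J0 N}
    (hC : Fl P n t0) (hI : InC P n0 O) (hn0 : n0 ≤ t0) {l0 l lm : ℕ} (h00 : n0 ≤ l0)
    (h0t : t' ≤ l0) (h0 : l0 ≤ l) (hJl : J0 ≤ l0) (hl : lb s n t0 ≤ l)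
    (hlm : lm < N)
    (hgood : ∀ e, l0 ≤ e → e < l → l - e ∈ P.HH → ¬ P'.dg n' (e + 1)) {D : G}
    (hD : ∀ t ≤ N, ∀ z ∈ lev F b t, (D • z = z ↔ P.fv z ≤ P.la O l)) {x : Ω}
    (hx : x ∈ O (l + 1)) (hfx : P.la O l < P.fv x) {p : ℕ × Ω}
    (hp : p ∈ Far F O l0 lm l J0 D (F x)) :
    ∃ q e : ℕ, J ≤ q ∧ q ≤ lm - l0 ∧ l0 ≤ e ∧ e ≤ l ∧ l ≤ e + q ∧ e + q + 1 ≤ N ∧ p.1 = e + q ∧
      (F^[q] p.2 = F^[l - e] (F x) ∧ ∃ x', F x' = p.2 ∧ P.red x' ∈ P.A) ∧
      2 ^ (q / ((s * s + 1) * n')) ≤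
        (MulAction.orbit (MulAction.stabilizer G (F x)) p.2).ncard := by
  obtain ⟨s', v⟩ := p
  obtain ⟨hls, hlt, hv, hDv, ⟨y, hy, hDy⟩, hcl, hnear⟩ := hp
  simp only at hls hlt hv hDv hy hcl hnear ⊢
  have hsN : s' < N := lt_trans hlt hlm
  have hlN : l < N := lt_of_le_of_lt hls hsN
  have hn0l : n0 ≤ l := h00.trans h0
  have hw : F x ∈ O l := (hO.up l hn0l hlN x).1 hx
  have hyO : y ∈ O (s' + 1) := (hO.up s' (hn0l.trans hls) hsN y).2 (by rw [hy]; exact hv)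
  have hyl : y ∈ lev F b (s' + 1) := hO.sub (s' + 1) (by omega) hsN hyO
  have hvl : v ∈ lev F b s' := hO.sub s' (hn0l.trans hls) hsN.le hv
  have hfy : P.fv (F y) ≤ P.la O l := by
    rw [hy]
    exact (hD s' hsN.le v hvl).1 hDv
  have hfy' : P.la O l < P.fv y := by
    by_contra hc
    exact hDy ((hD (s' + 1) hsN y hyl).2 (not_lt.1 hc))
  have hit : ∀ (m : ℕ) (z : Ω), F^[m + 1] z = F^[m] (F z) := fun m z =>
    Function.iterate_succ_apply F m z
  have hcl' : F^[s' + 1 - l0] y = F^[l + 1 - l0] x := by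
    have e1 : s' + 1 - l0 = (s' - l0) + 1 := by omega
    have e2 : l + 1 - l0 = (l - l0) + 1 := by omega
    rw [e1, e2, hit, hit, hy]
    exact hcl
  obtain ⟨e, h1, h2, h3, h4, h5⟩ := dicho hT hO hds hC hI hn0 h00 h0 (hJl.trans h0) hl hls hsN hx
    hyO hfx hfy hfy' hcl'
  have h5' : J ≤ s' - e ∧ (e < l → l - e ∈ P.HH) := by
    rcases h5 with h5 | h5
    · exfalso
      apply hnear
      refine ⟨h5.1, ?_⟩
      have e1 : s' + 1 - (l - J0) = (s' - (l - J0)) + 1 := by omega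
      have h6 := h5.2
      rw [e1, hit, hit, hy] at h6
      exact h6
    · exact h5
  have heq : F^[s' - e] v = F^[l - e] (F x) := by
    have e1 : s' + 1 - e = (s' - e) + 1 := by omega
    have e2 : l + 1 - e = (l - e) + 1 := by omega
    rw [e1, e2, hit, hit, hy] at h3
    exact h3
  refine ⟨s' - e, e, h5'.1, by omega, h1, h2, by omega, by omega, by omega,
    ⟨heq, y, hy, mv_crit hT P hsN hyl (lt_of_le_of_lt hfy hfy')⟩, ?_⟩
  rcases lt_or_eq_of_le h2 with hel | hel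
  · have hnd := hgood e h1 hel (h5'.2 hel)
    have hne : F^[s' - e - 1] v ≠ F^[l - e - 1] (F x) := by
      have h6 := h4 hel
      have e1 : s' - e = (s' - e - 1) + 1 := by omega
      have e2 : l - e = (l - e - 1) + 1 := by omega
      rw [e1, e2, hit, hit, hy] at h6
      exact h6
    refine orb_dbl (e := e) (s' := s') (L := (s * s + 1) * n') hT ?_ _ ?_
    · intro m1 hm1 hm2
      exact sep hT hO hds hC' hI' (h00.trans h1) (h0t.trans h1) hm1 hm2 hlN.le hsN.le hel hnd hw hv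
        heq hne
    · have h7 := Nat.div_mul_le_self (s' - e) ((s * s + 1) * n')
      omega
  · have hql : l + (s' - l) = s' := by omega
    have h8 := orb_above (q := s' - l) hT hO hn0l (by omega) hw (by rw [hql]; exact hv) (by
      have h9 := heq
      rw [hel, Nat.sub_self] at h9
      exact h9)
    rw [h8, hel]
    refine le_trans (Nat.pow_le_pow_right (by norm_num) (Nat.div_le_self _ _)) ?_
    exact Nat.pow_le_pow_left hT.hd _

theorem far_bound [Finite G] (hT : Tr G F b d n0 N) (hO : Or1 G F b n0 N O) (hds : d ≤ s)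
    {P' : Pl G F b s J' J0 N} (hC' : Fl P' n' t') (hI' : InC P' n0 O) {P : Pl G F b s J J0 N}
    (hC : Fl P n t0) (hI : InC P n0 O) (hn0 : n0 ≤ t0) {l0 l lm : ℕ} (h00 : n0 ≤ l0)
    (h0t : t' ≤ l0) (h0 : l0 ≤ l) (hJl : J0 ≤ l0) (hl : lb s n t0 ≤ l)
    (hlm : lm < N)
    (hgood : ∀ e, l0 ≤ e → e < l → l - e ∈ P.HH → ¬ P'.dg n' (e + 1)) {D : G}
    (hD : ∀ t ≤ N, ∀ z ∈ lev F b t, (D • z = z ↔ P.fv z ≤ P.la O l)) {x : Ω}
    (hx : x ∈ O (l + 1)) (hfx : P.la O l < P.fv x) :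
    fsum F O l0 lm l J0 D (F x) ≤
      ∑ q ∈ Finset.Icc J (lm - l0), tm d s J0 ((s * s + 1) * n') J q := by
  classical
  have hmem := fun (p : ℕ × Ω) (hp : p ∈ Far F O l0 lm l J0 D (F x)) =>
    WFb_mem hT hO hds hC' hI' hC hI hn0 h00 h0t h0 hJl hl hlm hgood hD hx hfx hp
  set I : Finset (Σ _ : ℕ, ℕ) := (Finset.Icc J (lm - l0)).sigma (fun q =>
    (Finset.range (l + 1)).filter (fun e => l ≤ e + q ∧ l0 ≤ e ∧ e + q + 1 ≤ N)) with hIdef
  have hcr : ∀ i ∈ I, {v | F^[i.1] v = F^[l - i.2] (F x) ∧ ∃ x', F x' = v ∧ P.red x' ∈ P.A}.Finite ∧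
      {v | F^[i.1] v = F^[l - i.2] (F x) ∧ ∃ x', F x' = v ∧ P.red x' ∈ P.A}.ncard ≤
        s * d ^ ((J0 + 1) * (i.1 / (J + 1) + 1)) := by
    intro i hi
    obtain ⟨hi1, hi2⟩ := Finset.mem_sigma.1 hi
    obtain ⟨hi3, hi4, hi5, hi6⟩ := Finset.mem_filter.1 hi2
    have hi7 : i.2 ≤ l := Nat.lt_succ_iff.1 (Finset.mem_range.1 hi3)
    have hlN : l < N := by omega
    have hn0l : n0 ≤ l := h00.trans h0
    have hw : F x ∈ O l := (hO.up l hn0l hlN x).1 hx
    have hwl : F x ∈ lev F b l := hO.sub l hn0l hlN.le hw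
    have h9 := lev_iter hwl (Nat.sub_le l i.2)
    have h10 : l - (l - i.2) = i.2 := by omega
    rw [h10] at h9
    exact cr_count hT P (h00.trans hi5) hi6 h9
  set A : (Σ _ : ℕ, ℕ) → Set (ℕ × Ω) := fun i => (fun v : Ω => (i.2 + i.1, v)) ''
    {v | F^[i.1] v = F^[l - i.2] (F x) ∧ ∃ x', F x' = v ∧ P.red x' ∈ P.A} with hAdef
  have hA : ∀ i ∈ I, (A i).Finite ∧ (A i).ncard ≤ s * d ^ ((J0 + 1) * (i.1 / (J + 1) + 1)) := by
    intro i hi
    refine ⟨(hcr i hi).1.image _, ?_⟩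
    exact le_trans (Set.ncard_image_le (hcr i hi).1) (hcr i hi).2
  have hsel : ∀ p ∈ Far F O l0 lm l J0 D (F x), ∃ i ∈ I, p ∈ A i ∧
      (1 : ℝ) / ((MulAction.orbit (MulAction.stabilizer G (F x)) p.2).ncard : ℝ) ≤
        1 / 2 ^ (i.1 / ((s * s + 1) * n')) := by
    intro p hp
    obtain ⟨q, e, hq1, hq2, he1, he2, hle, heN, hp1, hp2, horb⟩ := hmem p hp
    refine ⟨⟨q, e⟩, ?_, ?_, ?_⟩
    · rw [hIdef, Finset.mem_sigma]
      refine ⟨Finset.mem_Icc.2 ⟨hq1, hq2⟩, ?_⟩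
      rw [Finset.mem_filter]
      exact ⟨Finset.mem_range.2 (Nat.lt_succ_of_le he2), hle, he1, heN⟩
    · refine ⟨p.2, hp2, ?_⟩
      show (e + q, p.2) = p
      rw [← hp1]
    · refine one_div_le_one_div_of_le (by positivity) ?_
      exact_mod_cast horb
  have hfin : (Far F O l0 lm l J0 D (F x)).Finite := by
    refine Set.Finite.subset (Set.Finite.biUnion (Finset.finite_toSet I)
      (t := fun i => A i) (fun i hi => (hA i (Finset.mem_coe.1 hi)).1)) ?_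
    intro p hp
    obtain ⟨i, hi, hpi, -⟩ := hsel p hp
    exact Set.mem_biUnion (Finset.mem_coe.2 hi) hpi
  have hgr := WFb_group hfin.toFinset I
    (fun p => (1 : ℝ) / ((MulAction.orbit (MulAction.stabilizer G (F x)) p.2).ncard : ℝ))
    (fun i => 1 / 2 ^ (i.1 / ((s * s + 1) * n')))
    (fun i => s * d ^ ((J0 + 1) * (i.1 / (J + 1) + 1))) A
    (fun i _ => by positivity)
    (fun p hp => hsel p (hfin.mem_toFinset.1 hp)) hA
  unfold fsum
  rw [finsum_mem_eq_finite_toFinset_sum _ hfin]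
  refine le_trans hgr ?_
  rw [hIdef, Finset.sum_sigma]
  refine Finset.sum_le_sum ?_
  intro q hq
  simp only
  rw [Finset.sum_const, nsmul_eq_mul]
  unfold tm
  have hcard : ((Finset.range (l + 1)).filter
      (fun e => l ≤ e + q ∧ l0 ≤ e ∧ e + q + 1 ≤ N)).card ≤ q + 1 := by
    have hsub : (Finset.range (l + 1)).filter (fun e => l ≤ e + q ∧ l0 ≤ e ∧ e + q + 1 ≤ N) ⊆
        Finset.Icc (l - q) l := by
      intro e he
      obtain ⟨h1, h2, h3, h4⟩ := Finset.mem_filter.1 he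
      have h5 := Finset.mem_range.1 h1
      rw [Finset.mem_Icc]
      omega
    refine le_trans (Finset.card_le_card hsub) ?_
    rw [Nat.card_Icc]
    omega
  have hcard' : (((Finset.range (l + 1)).filter
      (fun e => l ≤ e + q ∧ l0 ≤ e ∧ e + q + 1 ≤ N)).card : ℝ) ≤ (q : ℝ) + 1 := by
    exact_mod_cast hcard
  have hnn : (0 : ℝ) ≤ ((s * d ^ ((J0 + 1) * (q / (J + 1) + 1)) : ℕ) : ℝ) *
      (1 / 2 ^ (q / ((s * s + 1) * n'))) := by positivity
  refine le_trans (mul_le_mul_of_nonneg_right hcard' hnn) (le_of_eq ?_)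
  ring

end Pool.Agent.H42.ES
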