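/-
ROW WGa. Windows at a finite level. PROOF. Let `X = (m+1)*n`, `L0 = max (max (n0 + T1 + J0) t') (max (lb s n t0) X)`. good_prog (row WBf)
gives `l` with `L0 ≤ l < L0 + n` such that `la (l+j*n) < la (l+j*n+1)` whenever `l + j*n + 1 ≤ N`. hh_count (row WCb): `(P.HH ∩ [1,X]).ncard ≤
s^2*(2*(X/n)+4) = s^2*(2*(m+1)+4)` (`X/n = m+1`, `n ≥ 1`). choose_class (AD/GLb.lean) with `D = P'.dg n'` (dg_per, dg_count of row WBc for
`P'`), `H = P.HH`, `N0 = m + 1`, `h0 = s^2*(2*(m+1)+4)` gives `j0 < n'` such that for `1 ≤ i ≤ m+1`, `h ∈ HH`, `1 ≤ h ≤ X`: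
`¬ P'.dg n' (l + (j0+i)*n + 1 - h)`. Put `ll i = l + (j0+1+i)*n` (`i ≤ m`), strictly increasing with gaps `n ≥ J0 + 2`;
`ll m + 1 ≤ L0 + n + (n'+m+1)*n ≤ N - 1` by hN. For `i < m` (or all `i ≤ m`) choose `x i ∈ O (ll i + 1)` with `fv (x i) = la O (ll i + 1)` (ex_la, row WBe) and `D i` by
fix_elt (row WAc) for `μ = la O (ll i)`; `w i = F (x i)`. Fields of Win: beg: `L0 ≤ l ≤ ll 0`. gap. hD: for `z ∈ O (ll i)`, `fv z ≤ la O (ll i)` (la_le),
`z ∈ lev (ll i)` (hO.sub). hw: hO.up. hx: `fv (x i) = la (ll i + 1) > la (ll i)`. far: far_bound (row WFb) with `l0 = ll 0`, `lm = ll m`,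
`l = ll i`: hgood: for `ll 0 ≤ e < ll i`, `h = ll i - e ∈ HH`, `1 ≤ h ≤ i*n ≤ X` and `e + 1 = ll i + 1 - h = l + (j0+(1+i))*n + 1 - h`; then htail for
`Q = Finset.Icc J (ll m - ll 0)`. For `i ≥ m` define `x i`, `D i`, `w i` arbitrarily (e.g. by the same choice with a default).
-/
import Pool.Agent.H42.ES.WCb
import Pool.Agent.H42.ES.WFb
import Pool.Agent.H42.AD.GLb

set_option autoImplicit false

namespace Pool.Agent.H42.ES

open Pool.Agent.H42.PC (lev lev_iter lev_up choose_class)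

open scoped Classical

variable {G Ω : Type} [Group G] [MulAction G Ω] {F : Ω → Ω} {b : Ω}
  {d n0 N s J J' J0 n t0 n' t' : ℕ} {O : ℕ → Set Ω}

theorem win_fin [Finite G] (hT : Tr G F b d n0 N) (hO : Or1 G F b n0 N O) (hds : d ≤ s)
    {P' : Pl G F b s J' J0 N} (hC' : Fl P' n' t') (hI' : InC P' n0 O) {P : Pl G F b s J J0 N}
    (hC : Fl P n t0) (hI : InC P n0 O) (hn0 : n0 ≤ t0) (hco : Nat.Coprime n n')
    (hnJ : J0 + 2 ≤ n) {m T1 : ℕ}
    (hn' : (m + 1) * (s ^ 2 * (2 * (m + 1) + 4)) * s < n') {ε : ℝ}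
    (htail : ∀ Q : Finset ℕ, (∀ q ∈ Q, J ≤ q) →
      ∑ q ∈ Q, tm d s J0 ((s * s + 1) * n') J q ≤ ε)
    (hN : max (max (n0 + T1 + J0) t') (max (lb s n t0) ((m + 1) * n)) + n * (n' + m + 3) + 2 ≤ N) :
    ∃ (l : ℕ → ℕ) (D : ℕ → G) (w x : ℕ → Ω), Win F O J0 m (n0 + T1) ε l D w x ∧ l m + 1 ≤ N := by
  have hn1 : 1 ≤ n := hC.hn
  have hn'1 : 1 ≤ n' := hC'.hn
  obtain ⟨L0, hL0⟩ : ∃ L0, L0 = max (max (n0 + T1 + J0) t') (max (lb s n t0) ((m + 1) * n)) :=
    ⟨_, rfl⟩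
  rw [← hL0] at hN
  have a1 : n0 + T1 + J0 ≤ L0 := by rw [hL0]; exact le_max_of_le_left (le_max_left _ _)
  have a2 : t' ≤ L0 := by rw [hL0]; exact le_max_of_le_left (le_max_right _ _)
  have a3 : lb s n t0 ≤ L0 := by rw [hL0]; exact le_max_of_le_right (le_max_left _ _)
  have a4 : (m + 1) * n ≤ L0 := by rw [hL0]; exact le_max_of_le_right (le_max_right _ _)
  have a5 : n * (n' + m + 3) = (n' + m) * n + 3 * n := by ring
  rw [a5] at hN
  obtain ⟨l, hl1, hl2, hl3⟩ := good_prog hT hO hds hC hI hn0 a3 (by omega)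
  have hXn : (m + 1) * n / n = m + 1 := Nat.mul_div_cancel _ hn1
  have hcnt := hh_count hC ((m + 1) * n)
  rw [hXn] at hcnt
  obtain ⟨j0, hj0, hj⟩ := choose_class (N0 := m + 1) (h0 := s ^ 2 * (2 * (m + 1) + 4))
    (X := (m + 1) * n) (l := l) hn'1 hco (P'.dg n') (dg_per hC') (dg_count hC') P.HH hcnt hn'
    (by omega)
  obtain ⟨ll, hll⟩ : ∃ ll : ℕ → ℕ, ∀ i, ll i = l + (j0 + 1 + i) * n := ⟨_, fun _ => rfl⟩
  have hle : ∀ i, l ≤ ll i := fun i => by
    rw [hll]
    exact Nat.le_add_right _ _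
  have htop : ∀ i, i ≤ m → ll i + 1 < N := by
    intro i hi
    have h1 : (j0 + 1 + i) * n ≤ (n' + m) * n := Nat.mul_le_mul_right n (by omega)
    rw [hll]
    omega
  have hmono : ∀ i, ll 0 ≤ ll i := by
    intro i
    rw [hll, hll]
    have : (j0 + 1 + 0) * n ≤ (j0 + 1 + i) * n := Nat.mul_le_mul_right n (by omega)
    omega
  have key : ∀ i : ℕ, ∃ (x : Ω) (D : G), i < m → (x ∈ O (ll i + 1) ∧
      P.fv x = P.la O (ll i + 1) ∧
      ∀ t ≤ N, ∀ z ∈ lev F b t, (D • z = z ↔ P.fv z ≤ P.la O (ll i))) := by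
    intro i
    by_cases hi : i < m
    · have h1 := htop i hi.le
      have h2 := hle i
      obtain ⟨x, hx, hxe⟩ := ex_la hT hO P (l := ll i + 1) (by omega) (by omega)
      obtain ⟨D, -, hD⟩ := fix_elt P (P.la O (ll i))
      exact ⟨x, D, fun _ => ⟨hx, hxe, hD⟩⟩
    · exact ⟨b, 1, fun h => absurd h hi⟩
  choose x D hxD using key
  have hlt : ∀ i, i < m → P.la O (ll i) < P.fv (x i) := by
    intro i hi
    obtain ⟨_, hx2, _⟩ := hxD i hi
    have h1 := htop i hi.le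
    rw [hx2, hll]
    apply hl3
    rw [← hll]
    omega
  refine ⟨ll, D, fun i => F (x i), x, ?_, by have := htop m le_rfl; omega⟩
  constructor
  · have := hle 0
    omega
  · intro i hi
    rw [hll, hll]
    have : (j0 + 1 + (i + 1)) * n = (j0 + 1 + i) * n + n := by ring
    omega
  · intro i hi z hz
    obtain ⟨_, _, hD⟩ := hxD i hi
    have h1 := htop i hi.le
    have h2 := hle i
    have h3 := hO.sub (ll i) (by omega) (by omega) hz
    exact (hD (ll i) (by omega) z h3).2 (la_le hT hO P (by omega) (by omega) hz)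
  · intro i hi
    obtain ⟨hx1, _, _⟩ := hxD i hi
    have h1 := htop i hi.le
    have h2 := hle i
    exact (hO.up (ll i) (by omega) (by omega) (x i)).1 hx1
  · intro i hi
    obtain ⟨hx1, _, hD⟩ := hxD i hi
    have h1 := htop i hi.le
    have h2 := hle i
    refine ⟨rfl, fun h => ?_⟩
    have h3 := hO.sub (ll i + 1) (by omega) (by omega) hx1
    have h4 := (hD (ll i + 1) (by omega) (x i) h3).1 h
    have h5 := hlt i hi
    omega
  · intro i hi
    obtain ⟨hx1, _, hD⟩ := hxD i hi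
    have h1 := htop i hi.le
    have h1m := htop m le_rfl
    have h2 := hle i
    have h20 := hle 0
    have hmo := hmono i
    refine (far_bound hT hO hds hC' hI' hC hI hn0 (l0 := ll 0) (l := ll i) (lm := ll m)
      (by omega) (by omega) hmo (by omega) (by omega) (by omega) ?_ hD hx1 (hlt i hi)).trans
      (htail _ fun q hq => (Finset.mem_Icc.1 hq).1)
    intro e he1 he2 he3
    have h6 : ll i = ll 0 + i * n := by
      rw [hll, hll]
      ring
    have h7 : i * n ≤ (m + 1) * n := Nat.mul_le_mul_right n (by omega)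
    have h8 := hj (i + 1) (by omega) (by omega) (ll i - e) he3 (by omega) (by omega)
    have h9 : l + (j0 + (i + 1)) * n + 1 - (ll i - e) = e + 1 := by
      have : l + (j0 + (i + 1)) * n = ll i := by
        rw [hll]
        ring
      rw [this]
      omega
    rwa [h9] at h8

end Pool.Agent.H42.ES
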