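/-
ROW WGb. Transfer of windows from a finite quotient, with a shift of the levels. PROOF. Put `l2 i = l i - n0` (`n0 + T1 + J0 ≤ l 0 ≤ l i`
for `i ≤ m`, by beg and gap), `D2 i` with `π (D2 i) = D i` (hπ), `w2 i = ι (w i)`, `x2 i = ι (x i)`. For `i < m`, `n0 + l2 i = l i ≤ N` etc.
* beg, gap: arithmetic (for `i < m`: `l i + J0 + 2 ≤ l (i+1)`, all `≥ n0`). hD: `z ∈ O (l2 i) = ι '' O' (l i)` (hOO), `z = ι z'`,
  `D2 i • ι z' = ι (D i • z') = ι z'` (hact). hw: hOO. hx: `F (ι x) = ι (F' x)` (hF), injectivity.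
* far: the map `(s, v') ↦ (s - n0, ι v')` is a bijection from `Far F' O' (l 0) (l m) (l i) J0 (D i) (w i)` to
  `Far F O (l2 0) (l2 m) (l2 i) J0 (D2 i) (w2 i)` and the terms agree, so the two `fsum`s are equal (finsum_mem_eq_of_bijOn):
  - if `(s, v')` is in the first set then `s ≥ l i ≥ n0`, `ι v' ∈ O (s - n0)` (hOO, `s < l m ≤ N`), `D2 • ι v' = ι (D • v')`, the child
    `x'` gives the child `ι x'`, `F^[k] (ι v') = ι (F'^[k] v')` (induction with hF), `(s - n0) - (l 0 - n0) = s - l 0` etc., and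
    `l2 i - J0 = l i - J0 - n0` (`l i ≥ n0 + J0`), so the near conditions correspond (`s - n0 - (l2 i - J0) = s - (l i - J0)`).
  - conversely for `(s, v)` in the second set, `v ∈ O s = ι '' O' (n0 + s)` (`n0 + s < l m ≤ N`); its moved child `x` is in
    `O (s+1)` (hup), `= ι '' O' (n0+s+1)` (`n0 + s + 1 ≤ l m ≤ N`), so it comes from a moved child in `Ω'`.
  - orbits: the orbit of `ι v'` under `stabilizer G (ι w)` is the image under the injective `ι` of the orbit of `v'` under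
    `stabilizer H w` (`g • ι w = ι (π g • w)`, π surjective), Set.ncard_image_of_injective.
-/
import Pool.Agent.H42.ES.Defs

set_option autoImplicit false

namespace Pool.Agent.H42.ES

open scoped Classical

theorem wgb_orbit {G H Ω Ω' : Type} [Group G] [Group H] [MulAction G Ω] [MulAction H Ω']
    (π : G →* H) (hπ : Function.Surjective π) (ι : Ω' → Ω) (hι : Function.Injective ι)
    (hact : ∀ (g : G) (x : Ω'), ι (π g • x) = g • ι x) (w v : Ω') :
    MulAction.orbit (MulAction.stabilizer G (ι w)) (ι v) =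
      ι '' MulAction.orbit (MulAction.stabilizer H w) v := by
  ext y
  constructor
  · rintro ⟨⟨g, hg⟩, rfl⟩
    have h1 : g • ι w = ι w := hg
    rw [← hact] at h1
    refine ⟨π g • v, ⟨⟨π g, hι h1⟩, rfl⟩, ?_⟩
    rw [hact]
    rfl
  · rintro ⟨_, ⟨⟨h, hh⟩, rfl⟩, rfl⟩
    obtain ⟨g, rfl⟩ := hπ h
    have h1 : π g • w = w := hh
    refine ⟨⟨g, ?_⟩, ?_⟩
    · change g • ι w = ι w
      rw [← hact, h1]
    · change g • ι v = ι (π g • v)
      rw [hact]

theorem wgb_mono {l : ℕ → ℕ} {m J0 : ℕ} (hg : ∀ i < m, l i + J0 + 2 ≤ l (i + 1)) :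
    ∀ j, j ≤ m → ∀ i ≤ j, l i ≤ l j := by
  intro j
  induction j with
  | zero =>
    intro _ i hi
    have h1 : i = 0 := by omega
    rw [h1]
  | succ j ih =>
    intro hj i hi
    rcases Nat.lt_or_ge i (j + 1) with h1 | h1
    · have h2 := ih (by omega) i (by omega)
      have h3 := hg j (by omega)
      omega
    · have h2 : i = j + 1 := by omega
      rw [h2]

theorem wgb_far {G H Ω Ω' : Type} [Group G] [Group H] [MulAction G Ω] [MulAction H Ω']
    (π : G →* H) (hπ : Function.Surjective π) (ι : Ω' → Ω) (hι : Function.Injective ι)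
    {F : Ω → Ω} {F' : Ω' → Ω'} (hF : ∀ x, ι (F' x) = F (ι x))
    (hact : ∀ (g : G) (x : Ω'), ι (π g • x) = g • ι x) {O : ℕ → Set Ω} {O' : ℕ → Set Ω'}
    (hup : ∀ (s : ℕ) (x : Ω), F x ∈ O s → x ∈ O (s + 1)) {n0 N : ℕ}
    (hOO : ∀ t, n0 + t ≤ N → O t = ι '' O' (n0 + t)) {J0 l0 lm li : ℕ}
    (g : G) (w : Ω') (h0 : n0 + J0 ≤ l0) (h1 : l0 ≤ li) (h3 : lm + 1 ≤ N) :
    fsum F O (l0 - n0) (lm - n0) (li - n0) J0 g (ι w) = fsum F' O' l0 lm li J0 (π g) w := by
  have hit : ∀ (k : ℕ) (v : Ω'), F^[k] (ι v) = ι (F'^[k] v) := by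
    intro k v
    have h4 : Function.Semiconj ι F' F := hF
    exact ((h4.iterate_right k) v).symm
  have hmv : ∀ v : Ω', g • ι v = ι v ↔ π g • v = v := by
    intro v
    rw [← hact]
    exact hι.eq_iff
  unfold fsum
  symm
  refine finsum_mem_eq_of_bijOn (fun p : ℕ × Ω' => (p.1 - n0, ι p.2)) ⟨?_, ?_, ?_⟩ ?_
  · rintro ⟨s, v⟩ ⟨a1, a2, a3, a4, ⟨x, a5, a6⟩, a7, a8⟩
    dsimp only at a1 a2 a3 a4 a5 a6 a7 a8
    refine ⟨?_, ?_, ?_, ?_, ⟨ι x, ?_, ?_⟩, ?_, ?_⟩ <;> try dsimp only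
    · omega
    · omega
    · rw [hOO (s - n0) (by omega)]
      have e1 : n0 + (s - n0) = s := by omega
      rw [e1]
      exact Set.mem_image_of_mem _ a3
    · exact (hmv v).2 a4
    · rw [← hF, a5]
    · intro hcon
      exact a6 ((hmv x).1 hcon)
    · have e1 : s - n0 - (l0 - n0) = s - l0 := by omega
      have e2 : li - n0 - (l0 - n0) = li - l0 := by omega
      rw [e1, e2, hit, hit, a7]
    · rintro ⟨b1, b2⟩
      have e1 : s - n0 - (li - n0 - J0) = s - (li - J0) := by omega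
      rw [e1, hit, hit] at b2
      exact a8 ⟨by omega, hι b2⟩
  · rintro ⟨s, v⟩ ⟨a1, _⟩ ⟨s', v'⟩ ⟨a1', _⟩ he
    dsimp only at a1 a1' he
    rw [Prod.mk.injEq] at he
    have e1 : s = s' := by omega
    have e2 : v = v' := hι he.2
    rw [e1, e2]
  · rintro ⟨s, v⟩ ⟨a1, a2, a3, a4, ⟨x, a5, a6⟩, a7, a8⟩
    dsimp only at a1 a2 a3 a4 a5 a6 a7 a8
    have b1 := a3
    rw [hOO s (by omega)] at b1
    obtain ⟨v', hv', rfl⟩ := b1
    have b2 : x ∈ O (s + 1) := hup s x (by rw [a5]; exact a3)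
    rw [hOO (s + 1) (by omega)] at b2
    obtain ⟨x', -, rfl⟩ := b2
    refine ⟨(n0 + s, v'), ⟨?_, ?_, hv', ?_, ⟨x', ?_, ?_⟩, ?_, ?_⟩, ?_⟩ <;> try dsimp only
    · omega
    · omega
    · exact (hmv v').1 a4
    · rw [← hF] at a5
      exact hι a5
    · intro hcon
      exact a6 ((hmv x').2 hcon)
    · have e1 : s - (l0 - n0) = n0 + s - l0 := by omega
      have e2 : li - n0 - (l0 - n0) = li - l0 := by omega
      rw [e1, e2, hit, hit] at a7
      exact hι a7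
    · rintro ⟨c1, c2⟩
      apply a8
      have e1 : s - (li - n0 - J0) = n0 + s - (li - J0) := by omega
      rw [e1, hit, hit, c2]
      exact ⟨by omega, rfl⟩
    · rw [Nat.add_sub_cancel_left]
  · rintro ⟨s, v⟩ _
    rw [wgb_orbit π hπ ι hι hact w v, Set.ncard_image_of_injective _ hι]

theorem win_transfer {G H Ω Ω' : Type} [Group G] [Group H] [MulAction G Ω] [MulAction H Ω']
    (π : G →* H) (hπ : Function.Surjective π) (ι : Ω' → Ω) (hι : Function.Injective ι)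
    {F : Ω → Ω} {F' : Ω' → Ω'} (hF : ∀ x, ι (F' x) = F (ι x))
    (hact : ∀ (g : G) (x : Ω'), ι (π g • x) = g • ι x) {O : ℕ → Set Ω} {O' : ℕ → Set Ω'}
    (hup : ∀ (s : ℕ) (x : Ω), F x ∈ O s → x ∈ O (s + 1)) {n0 N : ℕ}
    (hOO : ∀ t, n0 + t ≤ N → O t = ι '' O' (n0 + t)) {J0 m T1 : ℕ} {ε : ℝ} {l : ℕ → ℕ}
    {D : ℕ → H} {w x : ℕ → Ω'} (hW : Win F' O' J0 m (n0 + T1) ε l D w x) (hlm : l m + 1 ≤ N) :
    ∃ (l2 : ℕ → ℕ) (D2 : ℕ → G) (w2 x2 : ℕ → Ω), Win F O J0 m T1 ε l2 D2 w2 x2 := by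
  obtain ⟨D2, hD2⟩ : ∃ D2 : ℕ → G, ∀ i, π (D2 i) = D i :=
    ⟨fun i => (hπ (D i)).choose, fun i => (hπ (D i)).choose_spec⟩
  have hmono := wgb_mono hW.gap
  have hbeg := hW.beg
  have hmv : ∀ (i : ℕ) (v : Ω'), D2 i • ι v = ι v ↔ D i • v = v := by
    intro i v
    rw [← hact, hD2]
    exact hι.eq_iff
  refine ⟨fun i => l i - n0, D2, fun i => ι (w i), fun i => ι (x i), ?_, ?_, ?_, ?_, ?_, ?_⟩
  · omega
  · intro i hi
    have h1 := hW.gap i hi
    have h2 := hmono i (by omega) 0 (by omega)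
    omega
  · intro i hi z hz
    have h2 := hmono i (by omega) 0 (by omega)
    have h3 := hmono m le_rfl i (by omega)
    rw [hOO (l i - n0) (by omega)] at hz
    have e1 : n0 + (l i - n0) = l i := by omega
    rw [e1] at hz
    obtain ⟨z', hz', rfl⟩ := hz
    exact (hmv i z').2 (hW.hD i hi z' hz')
  · intro i hi
    have h2 := hmono i (by omega) 0 (by omega)
    have h3 := hmono m le_rfl i (by omega)
    rw [hOO (l i - n0) (by omega)]
    have e1 : n0 + (l i - n0) = l i := by omega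
    rw [e1]
    exact Set.mem_image_of_mem _ (hW.hw i hi)
  · intro i hi
    obtain ⟨h1, h2⟩ := hW.hx i hi
    refine ⟨?_, fun hcon => h2 ((hmv i (x i)).1 hcon)⟩
    rw [← hF, h1]
  · intro i hi
    have h2 := hmono i (by omega) 0 (by omega)
    rw [wgb_far π hπ ι hι hF hact hup hOO (D2 i) (w i) (by omega) h2 hlm, hD2]
    exact hW.far i hi

end Pool.Agent.H42.ES
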