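/-
ROW EDb. Windows in the absolute Galois group. Let `A = AlgebraicClosure K`, `M = (wr p q).SplittingField` (a number field), `F = RA p q β`.
PROOF of e_win. mb_exists (row EAb) for `M` gives `J0`. Let `m, T1, ε > 0` be given and `s = (Wr p q β M).card + p.natDegree`.
(1) e_prime (row ECb) with `J := n0`, `B0 := (m + 1) * (s^2 * (2*(m+1)+4)) * s + 1` gives `v', n', v0', k'`; `t' = n' * (v0' + s * (n' * v0'))`,
 `L' = (s*s+1) * n'` (`≥ 1`). tm_tail (row WFa; `d = p.natDegree`) gives `J1`; `J = max J1 n0`.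
(2) e_prime with this `J` and `B0 := max (n' + 1) (J0 + 2)` gives `v, n, v0, k`; `t1 = n * (v0 + s * (n * v0))`, `t0 = max n0 t1`. `n ≠ n'` are primes, so coprime
 (Nat.coprime_primes).
(3) `N = max (max (n0+T1+J0) t') (max (lb s n t0) ((m+1)*n)) + n * (n' + m + 3) + 2 (≥ n0)`. r_field (RM/EBb) gives `L` (Galois over `K`, containing `M`, all `RP t`,
 `t ≤ N`, split). e_tree, e_fsplit (row EBa; NC for `L` by nc_map of row EBb and IsAlgClosed.lift), e_or (row EBc). e_place (row EDa) twice (`J := n0` and `J`):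
 `P'` with `Fl P' n' t'`, `P` with `Fl P n t1`, hence `Fl P n t0` (fl_mono, row LAc), and InC for both. win_fin (row WGa) gives a window
 `Win F_L (OR p q β h n0 L) J0 m (n0 + T1) ε l D w x` for `L ≃ₐ[K] L` with `l m + 1 ≤ N`.
(4) Let `ι : L →ₐ[K] A` (IsAlgClosed.lift), make `A` an `L`-algebra through `ι` (`let _ := ι.toRingHom.toAlgebra`, IsScalarTower K L A as in EDa_mu of RM/EDa) and
 `π = AlgEquiv.restrictNormalHom L : (A ≃ₐ[K] A) →* (L ≃ₐ[K] L)`, surjective (AlgEquiv.restrictNormalHom_surjective), `ι (π g • x) = g • ι x`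
 (AlgEquiv.restrictNormal_commutes). win_transfer (row WGb) with `O t = OR p q β h n0 A (n0 + t)`, `O' = OR p q β h n0 L`: hF: ra_iter with `n = 1` (or ra_hom, RM/EAb);
 hup: EBd_full-like, or EBe_mem (RM/EBe): `x ∈ OR .. (n0 + t) ↔ aeval (F^[t] x) h = 0`; hOO (or_image): `⊇`: `aeval (ι y) h = ι (aeval y h)` and ra_iter;
 `⊆`: `x ∈ OR .. A (n0 + t)` is a root of `RP p q β (n0+t)` (r_sub of RM/EBd, rp_root of RM/EAc), which splits in `L`, so `x = ι x'`
 (Splits: `mem_range_of_isRoot` as in r_tree of RM/EBa; after `map_map`), and `x' ∈ OR .. L (n0 + t)` by EBe_mem and injectivity of `ι`.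
PROOF of e_j: thmG (row GJa) with e_itree (row EBc) and e_win.
-/
import Pool.Agent.H42.RM.EBe
import Pool.Agent.H42.ES.EBc
import Pool.Agent.H42.ES.ECb
import Pool.Agent.H42.ES.EDa
import Pool.Agent.H42.ES.WGa
import Pool.Agent.H42.ES.WGb
import Pool.Agent.H42.ES.WFa
import Pool.Agent.H42.ES.GJa

set_option autoImplicit false

namespace Pool.Agent.H42.ES

open Polynomial NumberField IsDedekindDomain Filter Topology
open Pool.Agent.H42.PC (lev Loc mkLoc)
open Pool.Agent.H42.RM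

open scoped Classical

theorem or_image {K L : Type} [Field K] [Field L] [Algebra K L] {p q h : K[X]} {β : K}
    (hB : RB p q β) {n0 t : ℕ} (hdvd : h ∣ RP p q β n0)
    (hs : ((RP p q β (n0 + t)).map (algebraMap K L)).Splits)
    (ι : L →ₐ[K] AlgebraicClosure K) :
    OR p q β h n0 (AlgebraicClosure K) (n0 + t) = ι '' OR p q β h n0 L (n0 + t) := by
  ext x
  constructor
  · intro hx
    have h1 : aeval x (RP p q β (n0 + t)) = 0 :=
      (rp_root hB (n0 + t) x).2 (r_sub hB hdvd (n0 + t) hx)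
    have hne : RP p q β (n0 + t) ≠ 0 := rp_ne hB.qdeg (n0 + t)
    have hxr : x ∈ (RP p q β (n0 + t)).rootSet (AlgebraicClosure K) :=
      (mem_rootSet_of_ne hne).2 h1
    rw [← hs.image_rootSet ι] at hxr
    obtain ⟨x0, -, hx0⟩ := hxr
    refine ⟨x0, ?_, hx0⟩
    rw [EBe_mem (Nat.le_add_right _ _)] at hx ⊢
    have e := Polynomial.aeval_algHom_apply ι ((RA p q β L)^[n0 + t - n0] x0) h
    rw [ra_iter, hx0, hx] at e
    apply ι.injective
    exact e.symm.trans (map_zero ι).symm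
  · rintro ⟨x0, hx0, rfl⟩
    rw [EBe_mem (Nat.le_add_right _ _)] at hx0 ⊢
    rw [← ra_iter, Polynomial.aeval_algHom_apply, hx0, map_zero]

private theorem EDb_tr {K L : Type} [Field K] [NumberField K] [Field L] [NumberField L]
    [Algebra K L] [IsGalois K L] {p q h : K[X]} {β : K} (hB : RB p q β) {n0 N : ℕ}
    (hdvd : h ∣ RP p q β n0)
    (hs : ∀ t ≤ N, ((RP p q β t).map (algebraMap K L)).Splits)
    {J0 m T1 : ℕ} {ε : ℝ} {l : ℕ → ℕ} {D : ℕ → (L ≃ₐ[K] L)} {w x : ℕ → L}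
    (hW : Win (RA p q β L) (OR p q β h n0 L) J0 m (n0 + T1) ε l D w x) (hlm : l m + 1 ≤ N) :
    ∃ (l2 : ℕ → ℕ) (D2 : ℕ → (AlgebraicClosure K ≃ₐ[K] AlgebraicClosure K))
      (w2 x2 : ℕ → AlgebraicClosure K),
      Win (RA p q β (AlgebraicClosure K)) (fun t => OR p q β h n0 (AlgebraicClosure K) (n0 + t))
        J0 m T1 ε l2 D2 w2 x2 := by
  let ι : L →ₐ[K] AlgebraicClosure K := IsAlgClosed.lift
  let _ : Algebra L (AlgebraicClosure K) := ι.toRingHom.toAlgebra
  have : IsScalarTower K L (AlgebraicClosure K) := IsScalarTower.of_algebraMap_eq (fun x => by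
    show algebraMap K (AlgebraicClosure K) x = ι (algebraMap K _ x)
    rw [ι.commutes])
  refine win_transfer (AlgEquiv.restrictNormalHom L)
    (AlgEquiv.restrictNormalHom_surjective (AlgebraicClosure K)) ι ι.injective ?_ ?_ ?_ ?_ hW hlm
  · intro x
    exact ra_hom ι x
  · intro g x
    exact AlgEquiv.restrictNormal_commutes g L x
  · intro s x hx
    exact EBd_full (Nat.le_add_right n0 s) hx
  · intro t ht
    exact or_image hB hdvd (hs _ ht) ι

private theorem EDb_fin {K M : Type} [Field K] [NumberField K] [Field M] [NumberField M]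
    [Algebra K M] {p q h : K[X]} {β : K} [IsSplittingField K M (wr p q)] (hB : RB p q β)
    {n0 : ℕ} (hnc : NC p q β n0 (AlgebraicClosure K)) (hst : StabR p q β n0) (hm : h.Monic)
    (hi : Irreducible h) (hdvd : h ∣ RP p q β n0) {J0 : ℕ}
    (hMb : Mb (RA p q β M) (Wr p q β M) J0) (m T1 : ℕ) (ε : ℝ) (hε : 0 < ε) :
    ∃ (l : ℕ → ℕ)
      (D : ℕ → (AlgebraicClosure K ≃ₐ[K] AlgebraicClosure K)) (w x : ℕ → AlgebraicClosure K),
      Win (RA p q β (AlgebraicClosure K)) (fun t => OR p q β h n0 (AlgebraicClosure K) (n0 + t))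
        J0 m T1 ε l D w x := by
  obtain ⟨s, hsdef⟩ : ∃ s, s = (Wr p q β M).card + p.natDegree := ⟨_, rfl⟩
  have hs1 : (Wr p q β M).card ≤ s := by omega
  have hs2 : p.natDegree ≤ s := by omega
  obtain ⟨v', n', v0', k', hv', hG', hn'p, hn'B, hv0', hval', hmin', hk'⟩ :=
    e_prime (M := M) hB hm hi hdvd n0 ((m + 1) * (s ^ 2 * (2 * (m + 1) + 4)) * s + 1)
  have hn'1 : 1 ≤ n' := hn'p.one_le
  obtain ⟨J1, hJ1⟩ := tm_tail p.natDegree s J0 (L := (s * s + 1) * n')
    (Nat.mul_pos (Nat.succ_pos _) hn'1) hε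
  obtain ⟨J, hJdef⟩ : ∃ J, J = max J1 n0 := ⟨_, rfl⟩
  have hJa : J1 ≤ J := by rw [hJdef]; exact le_max_left _ _
  have hJb : n0 ≤ J := by rw [hJdef]; exact le_max_right _ _
  obtain ⟨v, n, v0, k, hv, hG, hnp, hnB, hv0, hval, hmin, hk⟩ :=
    e_prime (M := M) hB hm hi hdvd J (max (n' + 1) (J0 + 2))
  have hnB1 : n' + 1 ≤ n := (le_max_left _ _).trans hnB
  have hnB2 : J0 + 2 ≤ n := (le_max_right _ _).trans hnB
  have hn1 : 1 ≤ n := hnp.one_le
  have hco : Nat.Coprime n n' := (Nat.coprime_primes hnp hn'p).2 (by omega)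
  obtain ⟨t', ht'⟩ : ∃ t', t' = n' * (v0' + s * (n' * v0')) := ⟨_, rfl⟩
  obtain ⟨t1, ht1⟩ : ∃ t1, t1 = n * (v0 + s * (n * v0)) := ⟨_, rfl⟩
  obtain ⟨t0, ht0⟩ : ∃ t0, t0 = max n0 t1 := ⟨_, rfl⟩
  have ht0a : n0 ≤ t0 := by rw [ht0]; exact le_max_left _ _
  have ht0b : t1 ≤ t0 := by rw [ht0]; exact le_max_right _ _
  obtain ⟨N, hN⟩ : ∃ N, N = max (max (n0 + T1 + J0) t') (max (lb s n t0) ((m + 1) * n)) +
      n * (n' + m + 3) + 2 := ⟨_, rfl⟩
  have hn0N : n0 ≤ N := by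
    have h1 : n0 + T1 + J0 ≤ max (max (n0 + T1 + J0) t') (max (lb s n t0) ((m + 1) * n)) :=
      le_max_of_le_left (le_max_left _ _)
    omega
  obtain ⟨L, iF, iN, iKL, iML, iT, iG, hs⟩ := r_field (K := K) (M := M) p q β N
  have hncL : NC p q β n0 L :=
    nc_map (IsAlgClosed.lift (R := K) (S := L) (M := AlgebraicClosure K)) hnc
  have hT := e_tree (L := L) hB hncL hs
  have hspl := e_fsplit (L := L) hB hs
  have hO := e_or (L := L) hB hn0N hT hs hst hm hi hdvd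
  obtain ⟨P', hC', hI'⟩ := e_place (L := L) hB hv' hG' hMb hn0N le_rfl hO hs hspl hm hdvd hn'1
    hv0' hval' hmin' hk' hs1 hs2
  obtain ⟨P, hC, hI⟩ := e_place (L := L) hB hv hG hMb hn0N hJb hO hs hspl hm hdvd hn1
    hv0 hval hmin hk hs1 hs2
  rw [← ht'] at hC'
  rw [← ht1] at hC
  have hC0 : Fl P n t0 := fl_mono hC ht0b
  obtain ⟨l, D, w, x, hW, hlm⟩ := win_fin hT hO hs2 hC' hI' hC0 hI ht0a hco hnB2 (m := m)
    (T1 := T1) (by omega) (ε := ε) (fun Q hQ => hJ1 J hJa Q hQ) (by rw [hN])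
  exact EDb_tr hB hdvd hs hW hlm

theorem e_win {K : Type} [Field K] [NumberField K] {p q h : K[X]} {β : K} (hB : RB p q β)
    {n0 : ℕ} (hnc : NC p q β n0 (AlgebraicClosure K)) (hst : StabR p q β n0) (hm : h.Monic)
    (hi : Irreducible h) (hdvd : h ∣ RP p q β n0) :
    ∃ J0 : ℕ, ∀ (m T1 : ℕ) (ε : ℝ), 0 < ε → ∃ (l : ℕ → ℕ)
      (D : ℕ → (AlgebraicClosure K ≃ₐ[K] AlgebraicClosure K)) (w x : ℕ → AlgebraicClosure K),
      Win (RA p q β (AlgebraicClosure K)) (fun t => OR p q β h n0 (AlgebraicClosure K) (n0 + t))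
        J0 m T1 ε l D w x := by
  have hM : NumberField (wr p q).SplittingField :=
    NumberField.of_module_finite K (wr p q).SplittingField
  obtain ⟨J0, hMb⟩ := mb_exists (M := (wr p q).SplittingField) hB
  exact ⟨J0, fun m T1 ε hε => EDb_fin (M := (wr p q).SplittingField) hB hnc hst hm hi hdvd hMb
    m T1 ε hε⟩

theorem e_j {K : Type} [Field K] [NumberField K] {p q h : K[X]} {β : K} (hB : RB p q β)
    {n0 : ℕ} (hnc : NC p q β n0 (AlgebraicClosure K)) (hst : StabR p q β n0) (hm : h.Monic)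
    (hi : Irreducible h) (hdvd : h ∣ RP p q β n0) :
    ∃ j0, Tendsto (fun t => Ex (fun t => OR p q β h n0 (AlgebraicClosure K) (n0 + t)) t
      (fun g : AlgebraicClosure K ≃ₐ[K] AlgebraicClosure K =>
        ind (g ∈ ker (AlgebraicClosure K ≃ₐ[K] AlgebraicClosure K)
            (fun t => OR p q β h n0 (AlgebraicClosure K) (n0 + t)) j0 ∧
          (fx (fun t => OR p q β h n0 (AlgebraicClosure K) (n0 + t)) t g).Nonempty)))
      atTop (𝓝 0) := by
  obtain ⟨J0, hW⟩ := e_win hB hnc hst hm hi hdvd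
  exact thmG (e_itree hB hnc hst hm hi hdvd) hW

end Pool.Agent.H42.ES
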