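/-
ROW EEa. Fields and base change. PROOFS.
* e_field: copy r_field (RM/EBb.lean) with `wr p q` replaced by the polynomial `g0`.
* eb_ro, eb_ra: `ro (p.map) (q.map) (algebraMap β) = algebraMap (ro p q β)` (eval_map, eval₂_at_apply / `Polynomial.eval_map_algebraMap`, map_div₀);
  `(p.map (algebraMap K K')).map (algebraMap K' A) = p.map (algebraMap K A)` (map_map, IsScalarTower.algebraMap_eq), so the two functions `RA` are equal (unfold
  RA, fr; funext; the decidability instances are both classical).
* eb_rp: induction on `n` for `PQ`: `PQ (p.map) (q.map) n = ((PQ p q n).1.map, (PQ p q n).2.map)`: hom2 commutes with `map` (Polynomial.map_sum, map_mul, map_pow, map_C,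
  coeff_map), natDegree_map.
* eb_rb: cop: IsCoprime.map (`mapRingHom`) ; deg, qdeg: natDegree_map; crit: wr_map (RM/EAd) and eval_map; wan: `Wan p' q' β' (algebraMap K K' β)` over `K'`: by eb_ra it says
  the same as `Wan p q β (algebraMap K K' β)` (aeval over `K'` of a mapped polynomial: aeval_map_algebraMap), which holds by wan_base (RM/EAc).
-/
import Pool.Agent.H42.RM.EBb
import Pool.Agent.H42.RM.EAd

set_option autoImplicit false

namespace Pool.Agent.H42.ES

open Polynomial NumberField IsDedekindDomain
open Pool.Agent.H42.PC (lev)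
open Pool.Agent.H42.RM

open scoped Classical

theorem e_field {K M : Type} [Field K] [NumberField K] [Field M] [NumberField M]
    [Algebra K M] (g0 : K[X]) (p q : K[X]) (β : K) [IsSplittingField K M g0] (N : ℕ) :
    ∃ (L : Type) (_ : Field L) (_ : NumberField L) (_ : Algebra K L) (_ : Algebra M L)
      (_ : IsScalarTower K M L) (_ : IsGalois K L),
      ∀ t ≤ N, ((RP p q β t).map (algebraMap K L)).Splits := by
  classical
  obtain ⟨f', hf', hsf⟩ : ∃ f' : K[X], f' ≠ 0 ∧ IsSplittingField K M f' := by
    by_cases h0 : g0 = 0
    · refine ⟨1, one_ne_zero, ?_⟩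
      have hs : IsSplittingField K M g0 := inferInstance
      have h1 := IsSplittingField.adjoin_rootSet M g0
      refine ⟨?_, ?_⟩
      · rw [Polynomial.map_one]
        exact Splits.one
      · rw [h0, rootSet_zero] at h1
        rw [rootSet_one]
        exact h1
    · exact ⟨g0, h0, inferInstance⟩
  set g : K[X] := ∏ t ∈ (Finset.range (N + 1)).filter (fun t => RP p q β t ≠ 0),
    (RP p q β t) with hg
  have hg0 : g ≠ 0 := by
    rw [hg, Finset.prod_ne_zero_iff]
    intro t ht
    exact (Finset.mem_filter.mp ht).2
  let L : Type := (g.map (algebraMap K M)).SplittingField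
  have : IsScalarTower K M L := inferInstance
  have : IsSplittingField M L (g.map (algebraMap K M)) :=
    Polynomial.IsSplittingField.splittingField _
  have : IsSplittingField K L (f' * g) := IsSplittingField.mul (K := M) L f' g hf' hg0
  have : Normal K L := Normal.of_isSplittingField (f' * g)
  have : NumberField L := NumberField.of_module_finite M L
  have : IsGalois K L := IsGalois.mk
  refine ⟨L, inferInstance, inferInstance, inferInstance, inferInstance, inferInstance,
    inferInstance, ?_⟩
  intro t ht
  by_cases h0 : RP p q β t = 0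
  · rw [h0, Polynomial.map_zero]
    exact Splits.zero
  · have hdvd : (RP p q β t) ∣ g := by
      rw [hg]
      refine Finset.dvd_prod_of_mem _ ?_
      rw [Finset.mem_filter, Finset.mem_range]
      exact ⟨by omega, h0⟩
    have h1 : (g.map (algebraMap K L)).Splits := by
      have := IsSplittingField.splits L (g.map (algebraMap K M))
      rw [map_map, ← IsScalarTower.algebraMap_eq] at this
      exact this
    refine h1.of_dvd ?_ (Polynomial.map_dvd _ hdvd)
    rwa [Ne, Polynomial.map_eq_zero]

variable {K K' A : Type} [Field K] [Field K'] [Field A] [Algebra K K'] [Algebra K' A]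
  [Algebra K A] [IsScalarTower K K' A] {p q : K[X]} {β : K}

theorem eb_ro : ro (p.map (algebraMap K K')) (q.map (algebraMap K K')) (algebraMap K K' β) =
    algebraMap K K' (ro p q β) := by
  unfold ro
  rw [eval_map_apply, eval_map_apply, map_div₀]

theorem eb_ra : RA (p.map (algebraMap K K')) (q.map (algebraMap K K')) (algebraMap K K' β) A =
    RA p q β A := by
  unfold RA
  rw [Polynomial.map_map, Polynomial.map_map, ← IsScalarTower.algebraMap_eq K K' A, eb_ro,
    ← IsScalarTower.algebraMap_apply K K' A]

theorem EEa_hom2 (D : ℕ) (f P Q : K[X]) :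
    hom2 D (f.map (algebraMap K K')) (P.map (algebraMap K K')) (Q.map (algebraMap K K')) =
      (hom2 D f P Q).map (algebraMap K K') := by
  unfold hom2
  rw [Polynomial.map_sum]
  refine Finset.sum_congr rfl fun i _ => ?_
  rw [Polynomial.map_mul, Polynomial.map_mul, Polynomial.map_pow, Polynomial.map_pow, map_C,
    coeff_map]

theorem EEa_pq (n : ℕ) : PQ (p.map (algebraMap K K')) (q.map (algebraMap K K')) n =
    ((PQ p q n).1.map (algebraMap K K'), (PQ p q n).2.map (algebraMap K K')) := by
  induction n with
  | zero =>
    show ((X : K'[X]), (1 : K'[X])) = ((X : K[X]).map (algebraMap K K'), (1 : K[X]).map _)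
    rw [map_X, Polynomial.map_one]
  | succ n ih =>
    show (hom2 (p.map (algebraMap K K')).natDegree (p.map (algebraMap K K'))
        (PQ (p.map (algebraMap K K')) (q.map (algebraMap K K')) n).1
        (PQ (p.map (algebraMap K K')) (q.map (algebraMap K K')) n).2,
      hom2 (p.map (algebraMap K K')).natDegree (q.map (algebraMap K K'))
        (PQ (p.map (algebraMap K K')) (q.map (algebraMap K K')) n).1
        (PQ (p.map (algebraMap K K')) (q.map (algebraMap K K')) n).2) = _
    rw [ih]
    show (hom2 (p.map (algebraMap K K')).natDegree (p.map (algebraMap K K'))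
        ((PQ p q n).1.map (algebraMap K K')) ((PQ p q n).2.map (algebraMap K K')),
      hom2 (p.map (algebraMap K K')).natDegree (q.map (algebraMap K K'))
        ((PQ p q n).1.map (algebraMap K K')) ((PQ p q n).2.map (algebraMap K K'))) =
      ((hom2 p.natDegree p (PQ p q n).1 (PQ p q n).2).map (algebraMap K K'),
        (hom2 p.natDegree q (PQ p q n).1 (PQ p q n).2).map (algebraMap K K'))
    rw [natDegree_map, EEa_hom2, EEa_hom2]

theorem eb_rp (n : ℕ) : RP (p.map (algebraMap K K')) (q.map (algebraMap K K'))
    (algebraMap K K' β) n = (RP p q β n).map (algebraMap K K') := by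
  unfold RP
  rw [EEa_pq, Polynomial.map_sub, Polynomial.map_mul, map_C]

theorem EEa_iter (hB : RB p q β) :
    Wan (p.map (algebraMap K K')) (q.map (algebraMap K K')) (algebraMap K K' β)
      (algebraMap K K' β) := by
  have h1 : Wan p q β (algebraMap K K' β) := wan_base hB
  have h2 : RA (p.map (algebraMap K K')) (q.map (algebraMap K K')) (algebraMap K K' β) K' =
    RA p q β K' := eb_ra
  refine ⟨fun n => ?_, ?_⟩
  · rw [h2]
    have h3 := h1.1 n
    rwa [coe_aeval_eq_eval, eval_map_algebraMap]
  · rw [h2]
    exact h1.2

theorem eb_rb (hB : RB p q β) : RB (p.map (algebraMap K K')) (q.map (algebraMap K K'))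
    (algebraMap K K' β) := by
  refine ⟨?_, ?_, ?_, ?_, EEa_iter hB⟩
  · exact hB.cop.map (mapRingHom (algebraMap K K'))
  · rw [natDegree_map]
    exact hB.deg
  · rw [natDegree_map, natDegree_map]
    exact hB.qdeg
  · rw [← wr_map, eval_map_apply, hB.crit, map_zero]

end Pool.Agent.H42.ES
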