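/-
ROW EEb. Frobenius elements fix a point of the level `t` of the tree. PROOF: adapt r_frob in RM/EFa.lean (all lemmas EFa_int .. EFa_up there can be used). The bad
set is `{v | ¬ GoodR p q β M 0 v} ∪ {v | ¬ GenR p q β M 0 v}` (goodR0_finite, genR_finite of row EAa) together with hbad as there (differences of distinct points of
`lev .. t` which are `< 1`). Let `v` be outside, `1 ≤ n`, `v (F^[n] β - β) < 1`; its value is `exp (-v0)` with `v0 ≥ 1` (r_aper of RM/EAc, EFa_exp; as in r_frob). Let `w` be a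
prime of `L` above `v` with Frobenius `g` (as there). e_lsys (row ECa; hspl by e_fsplit of row EBa with `N := t`) gives `hS`. A point `x ∈ lev t` with `LOn x`: EFa_up with `n0 := 0`,
`y := b` (`b ∈ lev 0`, `LOn b` with `k = 0`), `u := t`. `LOn x` gives `k'` with `w (x - F^[k'] b) < 1`, and the end of the proof is unchanged.
-/
import Pool.Agent.H42.RM.EFa
import Pool.Agent.H42.ES.EBa
import Pool.Agent.H42.ES.ECa

set_option autoImplicit false

namespace Pool.Agent.H42.ES

open Polynomial NumberField IsDedekindDomain WithZero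
open Pool.Agent.H42.PC (lev Loc mkLoc IsFr)
open Pool.Agent.H42.RM

open scoped Classical Pointwise

theorem e_frob {K M L : Type} [Field K] [NumberField K] [Field M] [NumberField M] [Field L]
    [NumberField L] [Algebra K M] [Algebra M L] [Algebra K L] [IsScalarTower K M L] [IsGalois K L]
    {p q : K[X]} {β : K} (hB : RB p q β) (hM : ((wr p q).map (algebraMap K M)).Splits) {t : ℕ}
    (hs : ∀ u ≤ t, ((RP p q β u).map (algebraMap K L)).Splits) :
    {v : HeightOneSpectrum (𝓞 K) |
      (∃ n, 1 ≤ n ∧ v.valuation K ((RA p q β K)^[n] β - β) < 1) ∧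
      ¬ ∃ g : L ≃ₐ[K] L, (∃ x ∈ lev (RA p q β L) (algebraMap K L β) t, g • x = x) ∧
        IsFr K L v g}.Finite := by
  have hlev : (lev (RA p q β L) (algebraMap K L β) t).Finite := EFa_lev hB t
  have hbad : {v : HeightOneSpectrum (𝓞 K) | ∃ w ∈ (⋃ x ∈ lev (RA p q β L) (algebraMap K L β) t,
      ⋃ x' ∈ lev (RA p q β L) (algebraMap K L β) t,
        {w : HeightOneSpectrum (𝓞 L) | x ≠ x' ∧ w.valuation L (x - x') ≠ 1}),
      w.asIdeal.LiesOver v.asIdeal}.Finite := by
    refine EFa_over _ (hlev.biUnion fun x _ => hlev.biUnion fun x' _ => ?_)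
    by_cases hxx : x = x'
    · simp [hxx]
    · exact (Pool.Agent.H42.PC.val_ne_one_finite (sub_ne_zero.2 hxx)).subset fun w hw => hw.2
  refine (((goodR0_finite (M := M) hB).union (genR_finite (M := M) hB 0)).union hbad).subset ?_
  rintro v ⟨⟨n, hn, hvn⟩, hno⟩
  by_contra hv
  rw [Set.mem_union, not_or, Set.mem_union, not_or, Set.mem_ofPred_eq, not_not,
    Set.mem_ofPred_eq, not_not] at hv
  obtain ⟨⟨hgood, hgen⟩, hb⟩ := hv
  apply hno
  obtain ⟨w, hw⟩ := Pool.Agent.H42.PC.exists_over (K := K) (L := L) v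
  have hne : (RA p q β K)^[n] β - β ≠ 0 := by
    rw [sub_ne_zero]
    exact r_aper (A := K) hB hn
  obtain ⟨v0, hv0, hval⟩ := EFa_exp ((Valuation.ne_zero_iff _).2 hne) hvn
  obtain ⟨hS, -, hval'⟩ := e_lsys hB hM hgood hgen (e_fsplit hB hs) hn hv0 hval w hw
  have hblt : (mkLoc K w).V ((RA p q β L)^[n] (algebraMap K L β) - algebraMap K L β) < 1 := by
    rw [hval', ← exp_zero, exp_lt_exp]
    have h0 : 0 < Nat.card (mkLoc K w).I := Nat.card_pos
    have h1 : (0 : ℤ) < (Nat.card (mkLoc K w).I : ℤ) := by exact_mod_cast h0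
    have h2 : (0 : ℤ) < (v0 : ℤ) := by exact_mod_cast hv0
    have := mul_pos h2 h1
    linarith
  have hb0 : algebraMap K L β ∈ lev (RA p q β L) (algebraMap K L β) 0 := rfl
  have hon0 : LOn (mkLoc K w) (RA p q β L) (algebraMap K L β) (algebraMap K L β) := by
    refine ⟨0, ?_⟩
    rw [Function.iterate_zero, id, sub_self, Valuation.map_zero]
    exact zero_lt_one
  obtain ⟨x, hx, -, hon⟩ := EFa_up hS hn hblt hb0 hon0 t (by omega)
  rw [Nat.zero_add] at hx
  obtain ⟨k', hk'⟩ := hon
  have hclose : w.valuation L (x - (RA p q β L)^[k'] (algebraMap K L β)) < 1 := hk'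
  have hfin : Finite (𝓞 L ⧸ w.asIdeal) := Ideal.finiteQuotientOfFreeOfNeBot w.asIdeal w.ne_bot
  obtain ⟨g, hg⟩ := IsArithFrobAt.exists_of_isInvariant (𝓞 K) (L ≃ₐ[K] L) w.asIdeal
  have hgw : g • w.asIdeal = w.asIdeal := MulAction.mem_stabilizer_iff.1 hg.mem_stabilizer
  refine ⟨g, ⟨x, hx, ?_⟩, w, hw, hg⟩
  by_contra hgx
  have hz : g • (RA p q β L)^[k'] (algebraMap K L β) = (RA p q β L)^[k'] (algebraMap K L β) := by
    rw [← ra_base, AlgEquiv.smul_def, AlgEquiv.commutes]
  have h1 : w.valuation L (g • x - (RA p q β L)^[k'] (algebraMap K L β)) < 1 := by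
    have h2 := EFa_val w g hgw (x - (RA p q β L)^[k'] (algebraMap K L β))
    rw [smul_sub, hz] at h2
    rw [h2]
    exact hclose
  have h3 : w.valuation L (g • x - x) < 1 := by
    have e : g • x - x = (g • x - (RA p q β L)^[k'] (algebraMap K L β)) +
        ((RA p q β L)^[k'] (algebraMap K L β) - x) := by ring
    rw [e]
    refine Valuation.map_add_lt _ h1 ?_
    rw [Valuation.map_sub_swap]
    exact hclose
  have hgxl : g • x ∈ lev (RA p q β L) (algebraMap K L β) t := by
    change (RA p q β L)^[t] (g • x) = algebraMap K L β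
    rw [← ra_smul]
    have hx2 : (RA p q β L)^[t] x = algebraMap K L β := hx
    rw [hx2, AlgEquiv.smul_def, AlgEquiv.commutes]
  apply hb
  refine ⟨w, ?_, hw⟩
  simp only [Set.mem_iUnion]
  exact ⟨g • x, hgxl, x, hx, hgx, h3.ne⟩

end Pool.Agent.H42.ES
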