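/-
ROW EFa. The expectation `Ex` as a proportion in a finite quotient. PROOFS.
* ex_quot: let `N = ker G O t` (normal, finite index: ker_normal, ker_fi of row GAb), `f` invariant, `f = f' ∘ π`. `π.ker ≤ N`: if `π g = 1` then for `x ∈ O t`, `x = ι x'`,
  `g • ι x' = ι (π g • x') = ι x'`. Let `N' = N.map π`, a subgroup of `H` with `π⁻¹(N') = N` (`π.ker ≤ N`). The map `H → G ⧸ N`, `h ↦ class of any g with π g = h`, is
  well defined, surjective, and all fibres have the same number of elements `#N'` (they are cosets of `N'`); `f' h = f c.out` for `h` over `c` (invariance). So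
  `∑ h, f' h = #N' * ∑ c, f c.out` and `card H = #N' * card (G ⧸ N)`. (Finset.sum_fiberwise; or use the equivalences `G ⧸ N ≃ H ⧸ N'` and
  Subgroup.groupEquivQuotientProdSubgroup : H ≃ (H ⧸ N') × N'.)
* ex_card: `f g = ind (g ∈ ker G O j ∧ (fx O t g).Nonempty)` is `Inv O t` (ker_anti, ker_act of row GAb, fx_inv of row GDb), and for `g` with `π g = h`:
  `g ∈ ker G O j ↔ ∀ x ∈ O' j, h • x = x` and `(fx O t g).Nonempty ↔ ∃ x ∈ O' t, h • x = x` (hO, hact, injectivity of `ι`). ex_quot with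
  `f' h = ind ((∀ x ∈ O' j, h • x = x) ∧ ∃ x ∈ O' t, h • x = x)`, whose sum is the cardinality (Finset.sum_boole, Nat.card_eq_fintype_card, Fintype.card_subtype).
-/
import Pool.Agent.H42.ES.GDb

set_option autoImplicit false

namespace Pool.Agent.H42.ES

open scoped Classical

private theorem efa_sum {H Q : Type} [Group H] [Group Q] [Finite H] [Finite Q] (q : H →* Q)
    (hq : Function.Surjective q) (φ : Q → ℝ) :
    (∑ᶠ h : H, φ (q h)) / (Nat.card H : ℝ) = (∑ᶠ c : Q, φ c) / (Nat.card Q : ℝ) := by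
  have _ : Fintype H := Fintype.ofFinite H
  have _ : Fintype Q := Fintype.ofFinite Q
  rw [finsum_eq_sum_of_fintype, finsum_eq_sum_of_fintype, Nat.card_eq_fintype_card,
    Nat.card_eq_fintype_card]
  obtain ⟨κ, hκ⟩ : ∃ κ, κ = (Finset.univ.filter fun h : H => q h = 1).card := ⟨_, rfl⟩
  have hfib : ∀ c : Q, (Finset.univ.filter fun h : H => q h = c).card = κ := by
    intro c
    rw [hκ]
    exact MonoidHom.card_fiber_eq_of_mem_range q (hq c) (hq 1)
  have hκ0 : (κ : ℝ) ≠ 0 := by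
    rw [hκ, Nat.cast_ne_zero, Finset.card_ne_zero]
    exact ⟨1, Finset.mem_filter.2 ⟨Finset.mem_univ _, map_one q⟩⟩
  have h1 : ∑ h : H, φ (q h) = κ * ∑ c : Q, φ c := by
    rw [← Finset.sum_fiberwise (Finset.univ : Finset H) (fun h => q h), Finset.mul_sum]
    refine Finset.sum_congr rfl fun c _ => ?_
    have h2 : ∀ h ∈ Finset.univ.filter (fun h : H => q h = c), φ (q h) = φ c := by
      intro h hh
      rw [(Finset.mem_filter.1 hh).2]
    rw [Finset.sum_congr rfl h2, Finset.sum_const, hfib, nsmul_eq_mul]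
  have h2 : (Fintype.card H : ℝ) = κ * (Fintype.card Q : ℝ) := by
    have h3 : (Fintype.card H) = ∑ c : Q, (Finset.univ.filter fun h : H => q h = c).card :=
      Finset.card_eq_sum_card_fiberwise (fun h _ => Finset.mem_coe.2 (Finset.mem_univ (q h)))
    rw [h3]
    simp only [hfib, Finset.sum_const, Finset.card_univ, smul_eq_mul]
    push_cast
    ring
  rw [h1, h2, mul_div_mul_left _ _ hκ0]

theorem ex_quot {G H Ω Ω' : Type} [Group G] [Group H] [Finite H] [MulAction G Ω]
    [MulAction H Ω'] {F : Ω → Ω} {d : ℕ} {O : ℕ → Set Ω} (hT : ITree G F d O) (π : G →* H)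
    (hπ : Function.Surjective π) (ι : Ω' → Ω)
    (hact : ∀ (g : G) (x : Ω'), ι (π g • x) = g • ι x) {t : ℕ} {S : Set Ω'}
    (hO : O t = ι '' S) {f : G → ℝ} (hf : Inv O t f) {f' : H → ℝ} (hff : ∀ g, f g = f' (π g)) :
    Ex O t f = (∑ᶠ h : H, f' h) / (Nat.card H : ℝ) := by
  have hN : (ker G O t).Normal := ker_normal hT t
  have hfi : (ker G O t).FiniteIndex := ker_fi hT t
  have hker : ∀ g : G, π g = 1 → g ∈ ker G O t := by
    intro g hg x hx
    rw [hO] at hx
    obtain ⟨x', -, rfl⟩ := hx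
    rw [← hact, hg, one_smul]
  have hs : ∀ g : G, (QuotientGroup.mk (Function.surjInv hπ (π g)) : G ⧸ ker G O t) =
      QuotientGroup.mk g := by
    intro g
    rw [QuotientGroup.eq]
    apply hker
    rw [map_mul, map_inv, Function.surjInv_eq hπ, inv_mul_cancel]
  let q : H →* G ⧸ ker G O t :=
    MonoidHom.mk' (fun h => (QuotientGroup.mk (Function.surjInv hπ h) : G ⧸ ker G O t))
      (fun a b => by
        obtain ⟨x, rfl⟩ := hπ a
        obtain ⟨y, rfl⟩ := hπ b
        rw [← map_mul, hs, hs, hs]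
        rfl)
  have hq : ∀ g : G, q (π g) = (QuotientGroup.mk g : G ⧸ ker G O t) := hs
  have hqs : Function.Surjective q := by
    intro c
    obtain ⟨g, rfl⟩ := QuotientGroup.mk_surjective c
    exact ⟨π g, hq g⟩
  have h1 := efa_sum q hqs (fun c => f c.out)
  unfold Ex
  rw [← h1]
  congr 1
  refine finsum_congr fun h => ?_
  obtain ⟨g, rfl⟩ := hπ h
  rw [hq, ← hff]
  obtain ⟨n, hn⟩ := QuotientGroup.mk_out_eq_mul (ker G O t) g
  rw [hn]
  exact hf g n n.2

theorem ex_card {G H Ω Ω' : Type} [Group G] [Group H] [Finite H] [MulAction G Ω]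
    [MulAction H Ω'] {F : Ω → Ω} {d : ℕ} {O : ℕ → Set Ω} (hT : ITree G F d O) (π : G →* H)
    (hπ : Function.Surjective π) (ι : Ω' → Ω) (hι : Function.Injective ι)
    (hact : ∀ (g : G) (x : Ω'), ι (π g • x) = g • ι x) {j t : ℕ} (hjt : j ≤ t)
    {S S' : Set Ω'} (hO : O j = ι '' S) (hO' : O t = ι '' S') :
    Ex O t (fun g : G => ind (g ∈ ker G O j ∧ (fx O t g).Nonempty)) =
      (Nat.card {h : H // (∀ x ∈ S, h • x = x) ∧ ∃ x ∈ S', h • x = x} : ℝ) / Nat.card H := by
  have hinv : Inv O t (fun g : G => ind (g ∈ ker G O j ∧ (fx O t g).Nonempty)) := by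
    intro g h hh
    beta_reduce
    rw [fx_inv hT le_rfl g hh, Subgroup.mul_mem_cancel_right _ (ker_anti hT hjt hh)]
  have hff : ∀ g : G, ind (g ∈ ker G O j ∧ (fx O t g).Nonempty) =
      (fun h : H => ind ((∀ x ∈ S, h • x = x) ∧ ∃ x ∈ S', h • x = x)) (π g) := by
    intro g
    beta_reduce
    congr 1
    have e1 : g ∈ ker G O j ↔ ∀ x ∈ S, π g • x = x := by
      constructor
      · intro h x hx
        apply hι
        rw [hact]
        exact h (ι x) (by rw [hO]; exact ⟨x, hx, rfl⟩)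
      · intro h x hx
        rw [hO] at hx
        obtain ⟨x', hx', rfl⟩ := hx
        rw [← hact, h x' hx']
    have e2 : (fx O t g).Nonempty ↔ ∃ x ∈ S', π g • x = x := by
      constructor
      · rintro ⟨z, hz, hgz⟩
        rw [hO'] at hz
        obtain ⟨x, hx, rfl⟩ := hz
        refine ⟨x, hx, hι ?_⟩
        rw [hact, hgz]
      · rintro ⟨x, hx, h⟩
        refine ⟨ι x, by rw [hO']; exact ⟨x, hx, rfl⟩, ?_⟩
        rw [← hact, h]
    rw [e1, e2]
  rw [ex_quot (f' := fun h : H => ind ((∀ x ∈ S, h • x = x) ∧ ∃ x ∈ S', h • x = x)) hT π hπ ι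
    hact hO' hinv hff]
  congr 1
  have _ : Fintype H := Fintype.ofFinite H
  rw [finsum_eq_sum_of_fintype]
  unfold ind
  rw [Nat.card_eq_fintype_card, Fintype.card_subtype, Finset.natCast_card_filter]
  refine Finset.sum_congr rfl fun a _ => ?_
  by_cases h : (∀ x ∈ S, a • x = x) ∧ ∃ x ∈ S', a • x = x
  · rw [if_pos h, if_pos h]
  · rw [if_neg h, if_neg h]

end Pool.Agent.H42.ES
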