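/-
ROW EFb. The proportion of elements of `Gal(L/K')` fixing a point of level `t`. Let `H = L ≃ₐ[K] L`, `H' = L ≃ₐ[K'] L`, `F = RA p q β L`,
`HS = {h : K[X] | h.Monic ∧ Irreducible h ∧ h ∣ RP p q β n0}` (finite: r_fac_finite, RM/EFb). PROOF.
(1) The restriction of scalars `r : H' → H` (AlgEquiv.restrictScalars K) is injective and `r g • x = g • x`. If `g ∈ H'` fixes `x ∈ lev t` then `y = F^[t-n0] x ∈ lev n0` is a
 root of `RP p q β n0` (rp_root, RM/EAc); `h = minpoly K y` is monic, irreducible and divides `RP p q β n0` (minpoly.dvd), so `h ∈ HS`, and `x ∈ OR p q β h n0 L t` (EBe_mem, RM/EBe). Moreover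
 `r g` fixes every `z ∈ OR p q β h n0 L (n0 + j h)`: `z` is a root of `RP p q β (n0 + j h)` (r_sub of RM/EBd, rp_root), `n0 + j h ≤ T`, which splits in `K'` (hK'), so `z` is in the range
 of `algebraMap K' L` (Splits, mem_range_of_isRoot as in r_tree, RM/EBa), which `g` fixes.
(2) So the number of `g ∈ H'` with a fixed point is at most the sum over `h ∈ HS` of `Nat.card {g : H // (∀ x ∈ OR .. (n0 + j h), g • x = x) ∧ ∃ x ∈ OR .. t, g • x = x}` (Finset.card_biUnion_le).
(3) `Nat.card H = finrank K L = finrank K K' * finrank K' L = finrank K K' * Nat.card H'` (IsGalois.card_aut_eq_finrank, Module.finrank_mul_finrank; `IsGalois K' L` by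
 IsGalois.tower_top_of_isGalois K K' L). Divide by `Nat.card H'`.
-/
import Pool.Agent.H42.RM.EFb
import Pool.Agent.H42.RM.EBe
import Pool.Agent.H42.RM.EBd
import Pool.Agent.H42.ES.EEa

set_option autoImplicit false

namespace Pool.Agent.H42.ES

open Polynomial NumberField IsDedekindDomain
open Pool.Agent.H42.PC (lev)
open Pool.Agent.H42.RM

open scoped Classical

private theorem EFb_card {α : Type} (P : α → Prop) :
    Nat.card {g : α // P g} = Set.ncard {g : α | P g} := by
  rw [← Nat.card_coe_set_eq]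
  exact Nat.card_congr (Equiv.subtypeEquivRight fun g => Iff.rfl)

theorem e_prop {K K' L : Type} [Field K] [NumberField K] [Field K'] [NumberField K'] [Field L]
    [NumberField L] [Algebra K K'] [Algebra K' L] [Algebra K L] [IsScalarTower K K' L]
    [IsGalois K L] {p q : K[X]} {β : K} (hB : RB p q β) {n0 t T : ℕ} (hn0 : n0 ≤ t)
    (hK' : ∀ u ≤ T, ((RP p q β u).map (algebraMap K K')).Splits) (j : K[X] → ℕ)
    (hj : ∀ h : K[X], h.Monic → Irreducible h → h ∣ RP p q β n0 → n0 + j h ≤ T) :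
    (Nat.card {g : L ≃ₐ[K'] L // ∃ x ∈ lev (RA p q β L) (algebraMap K L β) t, g • x = x} : ℝ) /
      Nat.card (L ≃ₐ[K'] L) ≤ (Module.finrank K K' : ℝ) *
      ∑ᶠ h ∈ {h : K[X] | h.Monic ∧ Irreducible h ∧ h ∣ RP p q β n0},
        (Nat.card {g : L ≃ₐ[K] L // (∀ x ∈ OR p q β h n0 L (n0 + j h), g • x = x) ∧
          ∃ x ∈ OR p q β h n0 L t, g • x = x} : ℝ) / Nat.card (L ≃ₐ[K] L) := by
  have hfin := r_fac_finite (β := β) hB.qdeg n0
  rw [finsum_mem_eq_finite_toFinset_sum _ hfin]
  haveI : FiniteDimensional K L := Module.Finite.of_restrictScalars_finite ℚ K L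
  haveI : FiniteDimensional K' L := Module.Finite.of_restrictScalars_finite ℚ K' L
  haveI : FiniteDimensional K K' := Module.Finite.of_restrictScalars_finite ℚ K K'
  haveI : IsGalois K' L := IsGalois.tower_top_of_isGalois K K' L
  have hc1 : Nat.card (L ≃ₐ[K] L) = Module.finrank K K' * Nat.card (L ≃ₐ[K'] L) := by
    rw [IsGalois.card_aut_eq_finrank, IsGalois.card_aut_eq_finrank]
    exact (Module.finrank_mul_finrank K K' L).symm
  have hpos' : 0 < Nat.card (L ≃ₐ[K'] L) := Nat.card_pos
  have hpos : 0 < Nat.card (L ≃ₐ[K] L) := Nat.card_pos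
  have hinj : Function.Injective (AlgEquiv.restrictScalars K : (L ≃ₐ[K'] L) → (L ≃ₐ[K] L)) :=
    AlgEquiv.restrictScalars_injective K
  have hsub : (AlgEquiv.restrictScalars K : (L ≃ₐ[K'] L) → (L ≃ₐ[K] L)) ''
      {g : L ≃ₐ[K'] L | ∃ x ∈ lev (RA p q β L) (algebraMap K L β) t, g • x = x} ⊆
      ⋃ h ∈ hfin.toFinset, {g : L ≃ₐ[K] L | (∀ x ∈ OR p q β h n0 L (n0 + j h), g • x = x) ∧
          ∃ x ∈ OR p q β h n0 L t, g • x = x} := by
    rintro _ ⟨g, ⟨x, hx, hgx⟩, rfl⟩
    have hx' : (RA p q β L)^[t] x = algebraMap K L β := hx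
    have hint : IsIntegral K ((RA p q β L)^[t - n0] x) := Algebra.IsIntegral.isIntegral _
    have hroot : aeval ((RA p q β L)^[t - n0] x) (RP p q β n0) = 0 := by
      rw [rp_root hB, ← Function.iterate_add_apply, Nat.add_sub_cancel' hn0]
      exact hx'
    have hm := minpoly.monic hint
    have hi := minpoly.irreducible hint
    have hd := minpoly.dvd K _ hroot
    refine Set.mem_biUnion (x := minpoly K ((RA p q β L)^[t - n0] x)) ?_ ?_
    · rw [Finset.mem_coe, Set.Finite.mem_toFinset]
      exact ⟨hm, hi, hd⟩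
    · refine ⟨?_, x, ?_, hgx⟩
      · intro z hz
        have hz1 := r_sub hB hd _ hz
        have hz2 : aeval z (RP p q β (n0 + j (minpoly K ((RA p q β L)^[t - n0] x)))) = 0 :=
          (rp_root hB _ z).2 hz1
        have hne : (RP p q β (n0 + j (minpoly K ((RA p q β L)^[t - n0] x)))).map
            (algebraMap K K') ≠ 0 := by
          rw [Ne, Polynomial.map_eq_zero]
          exact rp_ne hB.qdeg _
        have hr : z ∈ (algebraMap K' L).range := by
          refine (hK' _ (hj _ hm hi hd)).mem_range_of_isRoot hne ?_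
          rw [Polynomial.map_map, ← IsScalarTower.algebraMap_eq, IsRoot, eval_map_algebraMap]
          exact hz2
        obtain ⟨w, rfl⟩ := hr
        exact g.commutes w
      · rw [EBe_mem hn0]
        exact minpoly.aeval K _
  have hle : Nat.card {g : L ≃ₐ[K'] L // ∃ x ∈ lev (RA p q β L) (algebraMap K L β) t, g • x = x} ≤
      ∑ h ∈ hfin.toFinset, Nat.card {g : L ≃ₐ[K] L //
        (∀ x ∈ OR p q β h n0 L (n0 + j h), g • x = x) ∧ ∃ x ∈ OR p q β h n0 L t, g • x = x} := by
    rw [EFb_card, ← Set.ncard_image_of_injective _ hinj]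
    refine le_trans (Set.ncard_le_ncard hsub (Set.toFinite _)) ?_
    refine le_trans (Finset.set_ncard_biUnion_le _ _) ?_
    refine Finset.sum_le_sum fun h _ => ?_
    rw [EFb_card]
  have hd1 : (Module.finrank K K' : ℝ) ≠ 0 := by
    have : 0 < Module.finrank K K' := Module.finrank_pos
    positivity
  have hd2 : (Nat.card (L ≃ₐ[K'] L) : ℝ) ≠ 0 := by positivity
  rw [← Finset.sum_div, hc1]
  push_cast
  rw [← mul_div_assoc, mul_div_mul_left _ _ hd1]
  refine div_le_div_of_nonneg_right ?_ (by positivity)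
  exact_mod_cast hle

end Pool.Agent.H42.ES
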