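/-
ROW EFc. Density zero over a finite extension. Let `A = AlgebraicClosure K`, `F = RA p q β`, `HS = {h | h.Monic ∧ Irreducible h ∧ h ∣ RP p q β n0}` (finite).
PROOF of e_final. e_n0 (row EBb) gives `n0`. For `h ∈ HS` e_j (row EDb) gives `j h` (choose; `j h = 0` for `h ∉ HS`). Let `T = n0 + sup of j over HS`,
`g0 = wr p q * ∏ u ∈ range (T+1), RP p q β u ≠ 0` (wr_lead of RM/EAd with `q ≠ 0`, rp_ne) and `K' = g0.SplittingField` (a number field:
NumberField.of_module_finite K _). In `K'` all `RP p q β u`, `u ≤ T`, and `wr p q` split (Splits.of_dvd). Put `p' = p.map _`, `q' = q.map _`, `β' = algebraMap K K' β`; eb_rb (row EEa): `RB p' q' β'`;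
`RA p' q' β' K' = RA p q β K'` (eb_ra with `A = K'`). So it suffices to show `EFinSm K' {v | ∃ n, 1 ≤ n ∧ v.valuation K' ((RA p' q' β' K')^[n] β' - β') < 1}` =: `EFinSm K' S`.
Let `ε > 0`, `ε' = ε / (4 * (finrank K K' + 1) * (HS.ncard + 1))`. By e_j there is `t ≥ max over h ∈ HS of j h`, such that for all `h ∈ HS` the expectation in e_j at `t` is `< ε'` (finitely many
eventual statements: Filter.eventually_all_finite). e_field (row EEa; `M := K'`, `g0`, `N := n0 + t`) gives `L ⊇ K'`, Galois over `K`. For `h ∈ HS`: ex_card (row EFa; `G = A ≃ₐ[K] A`,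
`H = L ≃ₐ[K] L`, `π` the restriction, `ι : L →ₐ[K] A` as in e_win (row EDb), hT = e_itree (row EBc), sets by or_image (row EDb)) says that the expectation equals the term of `h` in e_prop (row EFb) with `t := n0 + t`. So
by e_prop the proportion `#{g : L ≃ₐ[K'] L // ∃ x ∈ lev (RA p q β L) b (n0+t), g • x = x} / #(L ≃ₐ[K'] L) ≤ finrank K K' * (HS.ncard * ε') ≤ ε/4`. e_frob (row EEb) over the base `K'`, with `M := K'`
(`wr p' q' = (wr p q).map _` splits in `K'`, `(f.map (algebraMap K' K')) = f`), `L`, `t := n0 + t`: hs by eb_rp and map_map. `RA p' q' β' L = RA p q β L` (eb_ra).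
frobenius_density (PCM/B2) for `K'`, `L` (IsGalois K' L by IsGalois.tower_top_of_isGalois K K' L), `O = lev (RA p' q' β' L) _ (n0+t)` (finite: EFa_lev of RM/EFa for `p', q', β'`; invariant: ra_smul).
Conclude as in r_SS (RM/EFc.lean): `S ⊆ (exceptional finite set) ∪ {v | ∃ g, (∃ x ∈ O, g • x = x) ∧ IsFr K' L v g}`.
-/
import Pool.Agent.H42.RM.EFc
import Pool.Agent.H42.ES.EDb
import Pool.Agent.H42.ES.EEb
import Pool.Agent.H42.ES.EFa
import Pool.Agent.H42.ES.EFb

set_option autoImplicit false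

namespace Pool.Agent.H42.ES

open Polynomial NumberField IsDedekindDomain Filter Topology
open Pool.Agent.H42.PC (lev PITh EFinSm)
open Pool.Agent.H42.RM

open scoped Classical

open Pool.Agent.H42.PC (prc IsFr frobenius_density EFin_fin EFin_mono_prc EFin_union_prc)

/-- The expectation of row EDb at level `t` is a proportion in the Galois group of `L`. -/
private theorem EFc_ex {K L : Type} [Field K] [NumberField K] [Field L] [NumberField L]
    [Algebra K L] [IsGalois K L] {p q h : K[X]} {β : K} (hB : RB p q β) {n0 : ℕ}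
    (hnc : NC p q β n0 (AlgebraicClosure K)) (hst : StabR p q β n0) (hm : h.Monic)
    (hi : Irreducible h) (hdvd : h ∣ RP p q β n0) {j t : ℕ} (hjt : j ≤ t)
    (hs : ∀ u ≤ n0 + t, ((RP p q β u).map (algebraMap K L)).Splits) :
    Ex (fun t => OR p q β h n0 (AlgebraicClosure K) (n0 + t)) t
      (fun g : AlgebraicClosure K ≃ₐ[K] AlgebraicClosure K =>
        ind (g ∈ ker (AlgebraicClosure K ≃ₐ[K] AlgebraicClosure K)
            (fun t => OR p q β h n0 (AlgebraicClosure K) (n0 + t)) j ∧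
          (fx (fun t => OR p q β h n0 (AlgebraicClosure K) (n0 + t)) t g).Nonempty)) =
      (Nat.card {g : L ≃ₐ[K] L // (∀ x ∈ OR p q β h n0 L (n0 + j), g • x = x) ∧
          ∃ x ∈ OR p q β h n0 L (n0 + t), g • x = x} : ℝ) / Nat.card (L ≃ₐ[K] L) := by
  obtain ⟨ι, -⟩ : ∃ ι : L →ₐ[K] AlgebraicClosure K, ι = ι :=
    ⟨IsAlgClosed.lift (R := K) (S := L) (M := AlgebraicClosure K), rfl⟩
  let _ : Algebra L (AlgebraicClosure K) := ι.toRingHom.toAlgebra
  have hι : ∀ y : L, algebraMap L (AlgebraicClosure K) y = ι y := fun y => rfl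
  have hT : IsScalarTower K L (AlgebraicClosure K) :=
    IsScalarTower.of_algebraMap_eq fun y => by rw [hι, AlgHom.commutes]
  have hact : ∀ (g : AlgebraicClosure K ≃ₐ[K] AlgebraicClosure K) (x : L),
      ι (AlgEquiv.restrictNormalHom L g • x) = g • ι x := by
    intro g x
    exact AlgEquiv.restrictNormal_commutes g L x
  exact ex_card (e_itree hB hnc hst hm hi hdvd) (AlgEquiv.restrictNormalHom L)
    (AlgEquiv.restrictNormalHom_surjective (AlgebraicClosure K)) ι ι.injective hact hjt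
    (or_image hB hdvd (hs (n0 + j) (by omega)) ι) (or_image hB hdvd (hs (n0 + t) le_rfl) ι)

private theorem EFc_core (hPIT : ∀ (E : Type) [Field E] [NumberField E], PITh E)
    {K K' : Type} [Field K] [NumberField K] [Field K'] [NumberField K'] [Algebra K K']
    {p q : K[X]} {β : K} (hB : RB p q β) {n0 : ℕ}
    (hnc : NC p q β n0 (AlgebraicClosure K)) (hst : StabR p q β n0) (j : K[X] → ℕ)
    (hj : ∀ h : K[X], h.Monic → Irreducible h → h ∣ RP p q β n0 →
      Tendsto (fun t => Ex (fun t => OR p q β h n0 (AlgebraicClosure K) (n0 + t)) t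
        (fun g : AlgebraicClosure K ≃ₐ[K] AlgebraicClosure K =>
          ind (g ∈ ker (AlgebraicClosure K ≃ₐ[K] AlgebraicClosure K)
              (fun t => OR p q β h n0 (AlgebraicClosure K) (n0 + t)) (j h) ∧
            (fx (fun t => OR p q β h n0 (AlgebraicClosure K) (n0 + t)) t g).Nonempty)))
        atTop (𝓝 0)) {T : ℕ}
    (hT : ∀ h : K[X], h.Monic → Irreducible h → h ∣ RP p q β n0 → n0 + j h ≤ T)
    (g0 : K[X]) [IsSplittingField K K' g0] (hw : ((wr p q).map (algebraMap K K')).Splits)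
    (hK' : ∀ u ≤ T, ((RP p q β u).map (algebraMap K K')).Splits) :
    EFinSm K' {v | ∃ n, 1 ≤ n ∧
      v.valuation K' ((RA p q β K')^[n] (algebraMap K K' β) - algebraMap K K' β) < 1} := by
  intro ε hε
  obtain ⟨HS, hHS⟩ : ∃ HS : Set K[X],
      HS = {h : K[X] | h.Monic ∧ Irreducible h ∧ h ∣ RP p q β n0} := ⟨_, rfl⟩
  have hfin : HS.Finite := by
    rw [hHS]
    exact r_fac_finite hB.qdeg n0
  obtain ⟨D, hD⟩ : ∃ D : ℝ, D = (Module.finrank K K' : ℝ) := ⟨_, rfl⟩
  have hD0 : 0 ≤ D := by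
    rw [hD]
    exact Nat.cast_nonneg _
  obtain ⟨c, hc⟩ : ∃ c : ℝ, c = (HS.ncard : ℝ) := ⟨_, rfl⟩
  have hc0 : 0 ≤ c := by
    rw [hc]
    exact Nat.cast_nonneg _
  obtain ⟨ε', hε'⟩ : ∃ ε' : ℝ, ε' = ε / (4 * (D + 1) * (c + 1)) := ⟨_, rfl⟩
  have hε'0 : 0 < ε' := by
    rw [hε']
    positivity
  have hnum : D * (c * ε') ≤ ε / 4 := by
    have h1 : (D + 1) * ((c + 1) * ε') = ε / 4 := by
      rw [hε']
      field_simp
    have h2 : c * ε' ≤ (c + 1) * ε' := mul_le_mul_of_nonneg_right (by linarith) hε'0.le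
    have h3 : D * (c * ε') ≤ (D + 1) * ((c + 1) * ε') :=
      mul_le_mul (by linarith) h2 (by positivity) (by linarith)
    linarith
  obtain ⟨t, ht1, ht2⟩ : ∃ t, (∀ h ∈ HS,
      Ex (fun t => OR p q β h n0 (AlgebraicClosure K) (n0 + t)) t
        (fun g : AlgebraicClosure K ≃ₐ[K] AlgebraicClosure K =>
          ind (g ∈ ker (AlgebraicClosure K ≃ₐ[K] AlgebraicClosure K)
              (fun t => OR p q β h n0 (AlgebraicClosure K) (n0 + t)) (j h) ∧
            (fx (fun t => OR p q β h n0 (AlgebraicClosure K) (n0 + t)) t g).Nonempty)) < ε') ∧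
      T ≤ t := by
    have h1 := (eventually_all_finite hfin).2 fun h hh => by
      rw [hHS] at hh
      exact (hj h hh.1 hh.2.1 hh.2.2).eventually_lt_const hε'0
    exact (h1.and (eventually_ge_atTop T)).exists
  obtain ⟨L, iF, iN, iKL, iML, iT, iG, hs⟩ := e_field (K := K) (M := K') g0 p q β (n0 + t)
  have hG' : IsGalois K' L := IsGalois.tower_top_of_isGalois K K' L
  have hprop := e_prop (K := K) (K' := K') (L := L) hB (n0 := n0) (t := n0 + t) (T := T)
    (by omega) hK' j hT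
  rw [← hHS, ← hD] at hprop
  have hsum : ∑ᶠ h ∈ HS, (Nat.card {g : L ≃ₐ[K] L // (∀ x ∈ OR p q β h n0 L (n0 + j h), g • x = x) ∧
          ∃ x ∈ OR p q β h n0 L (n0 + t), g • x = x} : ℝ) / Nat.card (L ≃ₐ[K] L) ≤ c * ε' := by
    rw [finsum_mem_eq_finite_toFinset_sum _ hfin, hc, Set.ncard_eq_toFinset_card _ hfin,
      ← nsmul_eq_mul]
    refine Finset.sum_le_card_nsmul _ _ _ fun h hh => ?_
    have hh' : h ∈ HS := hfin.mem_toFinset.1 hh
    have hlt := ht1 h hh'
    rw [hHS] at hh'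
    rw [EFc_ex (L := L) hB hnc hst hh'.1 hh'.2.1 hh'.2.2
      (by have := hT h hh'.1 hh'.2.1 hh'.2.2; omega) hs] at hlt
    exact hlt.le
  have hprop2 : (Nat.card {g : L ≃ₐ[K'] L //
      ∃ x ∈ lev (RA p q β L) (algebraMap K L β) (n0 + t), g • x = x} : ℝ) /
      Nat.card (L ≃ₐ[K'] L) ≤ ε / 4 :=
    hprop.trans ((mul_le_mul_of_nonneg_left hsum hD0).trans hnum)
  have hB' : RB (p.map (algebraMap K K')) (q.map (algebraMap K K')) (algebraMap K K' β) :=
    eb_rb hB
  have hRL : RA (p.map (algebraMap K K')) (q.map (algebraMap K K')) (algebraMap K K' β) L =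
      RA p q β L := eb_ra
  have hRK : RA (p.map (algebraMap K K')) (q.map (algebraMap K K')) (algebraMap K K' β) K' =
      RA p q β K' := eb_ra
  have hβ : algebraMap K' L (algebraMap K K' β) = algebraMap K L β :=
    (IsScalarTower.algebraMap_apply K K' L β).symm
  have hfr := e_frob (K := K') (M := K') (L := L) hB' (t := n0 + t)
    (by
      rw [Algebra.algebraMap_self, Polynomial.map_id, ← wr_map]
      exact hw)
    (by
      intro u hu
      rw [eb_rp, Polynomial.map_map, ← IsScalarTower.algebraMap_eq]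
      exact hs u hu)
  rw [hRK, hRL, hβ] at hfr
  obtain ⟨O, hO⟩ : ∃ O : Set L, O = lev (RA p q β L) (algebraMap K L β) (n0 + t) := ⟨_, rfl⟩
  have hOfin : O.Finite := by
    rw [hO]
    exact EFa_lev hB (n0 + t)
  have hOinv : ∀ g : L ≃ₐ[K'] L, ∀ x ∈ O, g • x ∈ O := by
    intro g x hx
    rw [hO] at hx ⊢
    have hx' : (RA p q β L)^[n0 + t] x = algebraMap K L β := hx
    show (RA p q β L)^[n0 + t] (g • x) = algebraMap K L β
    have h1 := ra_smul (p := p) (q := q) (β := β) (g.restrictScalars K) x (n0 + t)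
    have h2 : (g.restrictScalars K) • x = g • x := rfl
    rw [h2] at h1
    rw [← h1, hx']
    exact (g.restrictScalars K).commutes β
  rw [← hO] at hfr hprop2
  have hden := frobenius_density (K := K') (L := L) (hPIT K') (fun M => hPIT M) O
    hOfin hOinv (ε := ε / 4) (by positivity)
  obtain ⟨S, hS⟩ : ∃ S : Set (HeightOneSpectrum (𝓞 K')), S = {v | ∃ n, 1 ≤ n ∧
      v.valuation K' ((RA p q β K')^[n] (algebraMap K K' β) - algebraMap K K' β) < 1} := ⟨_, rfl⟩
  rw [← hS]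
  have hfr' : {v | v ∈ S ∧ ¬ ∃ g : L ≃ₐ[K'] L, (∃ x ∈ O, g • x = x) ∧ IsFr K' L v g}.Finite := by
    rw [hS]
    exact hfr
  have hE := EFin_fin (hPIT K') hfr' (ε / 4) (by positivity)
  filter_upwards [hden, hE] with X h1 h2
  have h3 : S ⊆ {v | v ∈ S ∧ ¬ ∃ g : L ≃ₐ[K'] L, (∃ x ∈ O, g • x = x) ∧ IsFr K' L v g} ∪
      {v | ∃ g : L ≃ₐ[K'] L, (∃ x ∈ O, g • x = x) ∧ IsFr K' L v g} := by
    intro v hv
    by_cases hg : ∃ g : L ≃ₐ[K'] L, (∃ x ∈ O, g • x = x) ∧ IsFr K' L v g
    · exact Or.inr hg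
    · exact Or.inl ⟨hv, hg⟩
  have h4 := (EFin_mono_prc h3 X).trans (EFin_union_prc _ _ X)
  have h5 : (prc K' S X : ℝ) ≤ (prc K' {v | v ∈ S ∧ ¬ ∃ g : L ≃ₐ[K'] L,
      (∃ x ∈ O, g • x = x) ∧ IsFr K' L v g} X : ℝ) +
      (prc K' {v | ∃ g : L ≃ₐ[K'] L, (∃ x ∈ O, g • x = x) ∧ IsFr K' L v g} X : ℝ) := by
    exact_mod_cast h4
  have h7 : (0 : ℝ) ≤ prc K' Set.univ X := Nat.cast_nonneg _
  have h8 : ((Nat.card {g : L ≃ₐ[K'] L // ∃ x ∈ O, g • x = x} : ℝ) /
      Nat.card (L ≃ₐ[K'] L) + ε / 4) * prc K' Set.univ X ≤ (ε / 4 + ε / 4) * prc K' Set.univ X :=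
    mul_le_mul_of_nonneg_right (by linarith) h7
  nlinarith

theorem e_final (hPIT : ∀ (E : Type) [Field E] [NumberField E], PITh E)
    {K : Type} [Field K] [NumberField K] {p q : K[X]} {β : K} (hB : RB p q β)
    (hES : ESR p q β) :
    ∃ (K' : Type) (_ : Field K') (_ : NumberField K') (_ : Algebra K K'),
      EFinSm K' {v | ∃ n, 1 ≤ n ∧
        v.valuation K' ((RA p q β K')^[n] (algebraMap K K' β) - algebraMap K K' β) < 1} := by
  obtain ⟨n0, hst, hnc⟩ := e_n0 hB hES
  have hex : ∀ h : K[X], ∃ j0 : ℕ, h.Monic → Irreducible h → h ∣ RP p q β n0 →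
      Tendsto (fun t => Ex (fun t => OR p q β h n0 (AlgebraicClosure K) (n0 + t)) t
        (fun g : AlgebraicClosure K ≃ₐ[K] AlgebraicClosure K =>
          ind (g ∈ ker (AlgebraicClosure K ≃ₐ[K] AlgebraicClosure K)
              (fun t => OR p q β h n0 (AlgebraicClosure K) (n0 + t)) j0 ∧
            (fx (fun t => OR p q β h n0 (AlgebraicClosure K) (n0 + t)) t g).Nonempty)))
        atTop (𝓝 0) := by
    intro h
    by_cases hh : h.Monic ∧ Irreducible h ∧ h ∣ RP p q β n0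
    · obtain ⟨j0, hj0⟩ := e_j hB hnc hst hh.1 hh.2.1 hh.2.2
      exact ⟨j0, fun _ _ _ => hj0⟩
    · exact ⟨0, fun h1 h2 h3 => absurd ⟨h1, h2, h3⟩ hh⟩
  choose j hj using hex
  obtain ⟨T, hT⟩ : ∃ T, ∀ h : K[X], h.Monic → Irreducible h → h ∣ RP p q β n0 →
      n0 + j h ≤ T := by
    obtain ⟨B, hB1⟩ := ((r_fac_finite (β := β) hB.qdeg n0).image j).bddAbove
    refine ⟨n0 + B, fun h h1 h2 h3 => ?_⟩
    have h4 : j h ≤ B := hB1 (Set.mem_image_of_mem j ⟨h1, h2, h3⟩)
    omega
  have hq0 : q ≠ 0 := by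
    intro h0
    apply hB.wan.1 0
    rw [h0, map_zero]
  obtain ⟨g0, hg0⟩ : ∃ g0 : K[X], g0 = wr p q * ∏ u ∈ Finset.range (T + 1), RP p q β u := ⟨_, rfl⟩
  have hne : g0 ≠ 0 := by
    rw [hg0]
    exact mul_ne_zero (wr_lead hq0 hB.qdeg).1
      (Finset.prod_ne_zero_iff.2 fun u _ => rp_ne hB.qdeg u)
  have hN : NumberField g0.SplittingField := NumberField.of_module_finite K g0.SplittingField
  have hspl := SplittingField.splits g0
  have hne' : g0.map (algebraMap K g0.SplittingField) ≠ 0 := by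
    rw [Ne, Polynomial.map_eq_zero]
    exact hne
  have hdv : ∀ f : K[X], f ∣ g0 → (f.map (algebraMap K g0.SplittingField)).Splits := fun f hf =>
    hspl.of_dvd hne' (Polynomial.map_dvd _ hf)
  refine ⟨g0.SplittingField, inferInstance, hN, inferInstance, ?_⟩
  exact EFc_core hPIT hB hnc hst j hj hT g0
    (hdv _ (by
      rw [hg0]
      exact dvd_mul_right _ _))
    (fun u hu => hdv _ (by
      rw [hg0]
      exact (Finset.dvd_prod_of_mem (fun u => RP p q β u)
        (Finset.mem_range.2 (by omega))).trans (dvd_mul_left _ _)))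

end Pool.Agent.H42.ES
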