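/-
ROW WEa. Counting points above `y` with a child of critical residue. PROOFS.
* block_count: split `B` into the parts `B_k = {i ∈ B | i / (J+1) = k}`, `k ≤ q/(J+1)` (`i < q`). If `B_k` is not empty and `i0` is its
  least element then every `i ∈ B_k` satisfies `i0 ≤ i`, `i - i0 ≤ J`, so `i - i0 ≤ J0`: `B_k ⊆ [i0, i0 + J0]` has at most `J0 + 1` elements.
  Finset.card_eq_sum_card_fiberwise (or card_biUnion_le).
* cr_count. For `c ∈ P.A` let `ρ i = FR^[i+1] c`, `B = {i < q | ρ i ∈ A}` and `S_c = {v | F^[q] v = y ∧ ∃ x, F x = v ∧ P.red x = c}`. For `v ∈ S_c`: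
  `red (F^[i] v) = red (F^[i+1] x) = ρ i` (red_it, row WAa; `x` has level `e + q + 1 ≤ N`). For `j ≤ q` let
  `T j = {u | F^[j] u = y ∧ ∀ i < j, red (F^[i] u) = ρ (q-j+i)}`. Then `T j` is finite (tr_fib) and
  `(T j).ncard ≤ d ^ #{i ∈ B | q - j ≤ i}`: induction on `j`; `T 0 = {y}`; `F` maps `T (j+1)` to `T j`
  (`red (F^[i] (F u)) = red (F^[i+1] u) = ρ (q-(j+1)+i+1)`), and the fibre over `u'` consists of points `u` with `F u = u'`,
  `red u = ρ (q-j-1)`: at most one if `ρ (q-j-1) ∉ A` (P.hone), at most `d` in general (hT.le).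
  So `#S_c ≤ #(T q) ≤ d ^ B.card`, and `B.card ≤ (J0+1)*(q/(J+1)+1)` by block_count: for `i ≤ i'` in `B`, `i' - i ≤ J`:
  `FR^[i'-i] (ρ i) = ρ i' = FR^[0] (ρ i')`, both in `A`, so `i' - i ≤ J0` by P.hJ (`j = 0`). Union over `c ∈ A` (`P.A.ncard ≤ s`).
-/
import Pool.Agent.H42.ES.WAa

set_option autoImplicit false

namespace Pool.Agent.H42.ES

open Pool.Agent.H42.PC (lev lev_iter lev_up)

open scoped Classical

variable {G Ω : Type} [Group G] [MulAction G Ω] {F : Ω → Ω} {b : Ω} {d n0 N s J J0 : ℕ}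

theorem block_count {J J0 q : ℕ} (B : Finset ℕ) (hB : ∀ i ∈ B, i < q)
    (h : ∀ i ∈ B, ∀ i' ∈ B, i ≤ i' → i' - i ≤ J → i' - i ≤ J0) :
    B.card ≤ (J0 + 1) * (q / (J + 1) + 1) := by
  have h1 := Finset.card_le_mul_card_image_of_maps_to (s := B) (f := fun i => i / (J + 1))
    (t := Finset.range (q / (J + 1) + 1)) (by
      intro i hi
      rw [Finset.mem_range]
      have h2 : i / (J + 1) ≤ q / (J + 1) := Nat.div_le_div_right (hB i hi).le
      exact Nat.lt_succ_of_le h2) (J0 + 1) (by
      intro k _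
      rcases Finset.eq_empty_or_nonempty (B.filter fun i => i / (J + 1) = k) with h0 | h0
      · rw [h0]
        simp
      · obtain ⟨i0, hi0⟩ : ∃ i0, i0 = (B.filter fun i => i / (J + 1) = k).min' h0 := ⟨_, rfl⟩
        have hm : i0 ∈ B.filter fun i => i / (J + 1) = k := by
          rw [hi0]
          exact Finset.min'_mem _ _
        have hsub : (B.filter fun i => i / (J + 1) = k) ⊆ Finset.Icc i0 (i0 + J0) := by
          intro i hi
          have hle : i0 ≤ i := by
            rw [hi0]
            exact Finset.min'_le _ _ hi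
          obtain ⟨hi1, hi2⟩ := Finset.mem_filter.1 hi
          obtain ⟨hm1, hm2⟩ := Finset.mem_filter.1 hm
          have e1 := Nat.div_add_mod i (J + 1)
          have e2 := Nat.div_add_mod i0 (J + 1)
          have e3 := Nat.mod_lt i (Nat.succ_pos J)
          rw [hi2] at e1
          rw [hm2] at e2
          have h3 : i - i0 ≤ J := by
            have h4 : i % (J + 1) < J + 1 := e3
            omega
          have h5 := h i0 hm1 i hi1 hle h3
          rw [Finset.mem_Icc]
          omega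
        refine le_trans (Finset.card_le_card hsub) ?_
        rw [Nat.card_Icc]
        omega)
  rw [Finset.card_range] at h1
  exact h1

private theorem WEa_T (hT : Tr G F b d n0 N) (P : Pl G F b s J J0 N) {e q : ℕ}
    (hN : e + q + 1 ≤ N) {y : Ω} (hy : y ∈ lev F b e) (ρ : ℕ → P.R) (j : ℕ) (hj : j ≤ q) :
    {u | F^[j] u = y ∧ ∀ i < j, P.red (F^[i] u) = ρ (q - j + i)}.Finite ∧
      {u | F^[j] u = y ∧ ∀ i < j, P.red (F^[i] u) = ρ (q - j + i)}.ncard ≤
        d ^ ((Finset.range q).filter fun i => ρ i ∈ P.A ∧ q - j ≤ i).card := by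
  have hd := hT.hd
  induction j with
  | zero =>
    have h : {u | F^[0] u = y ∧ ∀ i < 0, P.red (F^[i] u) = ρ (q - 0 + i)} = {y} := by
      ext x
      simp
    rw [h]
    refine ⟨Set.finite_singleton y, ?_⟩
    rw [Set.ncard_singleton]
    exact Nat.one_le_pow _ _ (by omega)
  | succ j ih =>
    obtain ⟨hA, hc⟩ := ih (by omega)
    have hlev : ∀ u' ∈ {u | F^[j] u = y ∧ ∀ i < j, P.red (F^[i] u) = ρ (q - j + i)},
        u' ∈ lev F b (e + j) := by
      intro u' hu'
      exact lev_up (by
        rw [show F^[j] u' = y from hu'.1]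
        exact hy)
    have hmap : ∀ u ∈ {u | F^[j + 1] u = y ∧ ∀ i < j + 1, P.red (F^[i] u) = ρ (q - (j + 1) + i)},
        F u ∈ {u | F^[j] u = y ∧ ∀ i < j, P.red (F^[i] u) = ρ (q - j + i)} := by
      intro u hu
      refine ⟨?_, ?_⟩
      · have h1 := hu.1
        rw [Function.iterate_succ_apply] at h1
        exact h1
      · intro i hi
        have h1 := hu.2 (i + 1) (by omega)
        rw [Function.iterate_succ_apply, show q - (j + 1) + (i + 1) = q - j + i by omega] at h1
        exact h1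
    have hfin : {u | F^[j + 1] u = y ∧
        ∀ i < j + 1, P.red (F^[i] u) = ρ (q - (j + 1) + i)}.Finite := by
      refine Set.Finite.subset (hA.biUnion fun u' hu' => hT.fin (e + j) (by omega) u' (hlev u' hu'))
        ?_
      intro u hu
      exact Set.mem_biUnion (hmap u hu) rfl
    refine ⟨hfin, ?_⟩
    obtain ⟨c, hcd⟩ : ∃ c : ℕ, c = if ρ (q - (j + 1)) ∈ P.A then d else 1 := ⟨_, rfl⟩
    have hcard : hfin.toFinset.card ≤ c * hA.toFinset.card := by
      refine Finset.card_le_mul_card_image_of_maps_to (f := F) ?_ c ?_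
      · intro u hu
        exact hA.mem_toFinset.2 (hmap u (hfin.mem_toFinset.1 hu))
      · intro u' hu'
        have hl := hlev u' (hA.mem_toFinset.1 hu')
        by_cases hρ : ρ (q - (j + 1)) ∈ P.A
        · rw [hcd, if_pos hρ]
          refine le_trans ?_ (hT.le (e + j) (by omega) u' hl)
          rw [← Set.ncard_coe_finset]
          refine Set.ncard_le_ncard ?_ (hT.fin (e + j) (by omega) u' hl)
          intro u hu
          rw [Finset.mem_coe, Finset.mem_filter] at hu
          exact hu.2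
        · rw [hcd, if_neg hρ]
          rw [Finset.card_le_one]
          intro u hu v hv
          rw [Finset.mem_filter] at hu hv
          have hu1 := hfin.mem_toFinset.1 hu.1
          have hv1 := hfin.mem_toFinset.1 hv.1
          have hul : u ∈ lev F b (e + j + 1) := lev_up (t := e + j) (j := 1) (by
            rw [Function.iterate_one, hu.2]
            exact hl)
          have hvl : v ∈ lev F b (e + j + 1) := lev_up (t := e + j) (j := 1) (by
            rw [Function.iterate_one, hv.2]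
            exact hl)
          have hu2 := hu1.2 0 (by omega)
          have hv2 := hv1.2 0 (by omega)
          rw [Function.iterate_zero_apply, Nat.add_zero] at hu2 hv2
          refine P.hone (e + j) (by omega) u hul v hvl (by rw [hu.2, hv.2]) (by rw [hu2, hv2]) ?_
          rw [hu2]
          exact hρ
    rw [Set.ncard_eq_toFinset_card _ hfin]
    rw [Set.ncard_eq_toFinset_card _ hA] at hc
    refine le_trans hcard (le_trans (Nat.mul_le_mul_left c hc) ?_)
    by_cases hρ : ρ (q - (j + 1)) ∈ P.A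
    · rw [hcd, if_pos hρ, ← pow_succ']
      refine Nat.pow_le_pow_right (by omega) ?_
      have hnot : q - (j + 1) ∉ (Finset.range q).filter fun i => ρ i ∈ P.A ∧ q - j ≤ i := by
        rw [Finset.mem_filter]
        rintro ⟨_, _, h3⟩
        omega
      rw [← Finset.card_insert_of_notMem hnot]
      refine Finset.card_le_card ?_
      intro i hi
      rw [Finset.mem_insert] at hi
      rw [Finset.mem_filter, Finset.mem_range]
      rcases hi with rfl | hi
      · exact ⟨by omega, hρ, le_rfl⟩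
      · rw [Finset.mem_filter, Finset.mem_range] at hi
        exact ⟨hi.1, hi.2.1, by omega⟩
    · rw [hcd, if_neg hρ, one_mul]
      refine Nat.pow_le_pow_right (by omega) (Finset.card_le_card ?_)
      intro i hi
      rw [Finset.mem_filter, Finset.mem_range] at hi ⊢
      exact ⟨hi.1, hi.2.1, by omega⟩

private theorem WEa_c (hT : Tr G F b d n0 N) (P : Pl G F b s J J0 N) {e q : ℕ}
    (hN : e + q + 1 ≤ N) {y : Ω} (hy : y ∈ lev F b e) (c : P.R) :
    {v | F^[q] v = y ∧ ∃ x, F x = v ∧ P.red x = c}.Finite ∧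
      {v | F^[q] v = y ∧ ∃ x, F x = v ∧ P.red x = c}.ncard ≤
        d ^ ((J0 + 1) * (q / (J + 1) + 1)) := by
  have hd := hT.hd
  obtain ⟨hfin, hcard⟩ := WEa_T hT P hN hy (fun i => P.FR^[i + 1] c) q le_rfl
  have hsub : {v | F^[q] v = y ∧ ∃ x, F x = v ∧ P.red x = c} ⊆
      {u | F^[q] u = y ∧ ∀ i < q, P.red (F^[i] u) = (fun i => P.FR^[i + 1] c) (q - q + i)} := by
    rintro v ⟨hv, x, hx, hxc⟩
    refine ⟨hv, fun i hi => ?_⟩
    have hvl : v ∈ lev F b (e + q) := lev_up (by
      rw [hv]
      exact hy)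
    have hxl : x ∈ lev F b (e + q + 1) := lev_up (t := e + q) (j := 1) (by
      rw [Function.iterate_one, hx]
      exact hvl)
    have h1 := red_it P (show i + 1 ≤ e + q + 1 by omega) hN hxl
    rw [Function.iterate_succ_apply, hx, hxc] at h1
    show P.red (F^[i] v) = P.FR^[q - q + i + 1] c
    rw [h1, show q - q + i + 1 = i + 1 by omega]
  refine ⟨hfin.subset hsub, le_trans (Set.ncard_le_ncard hsub hfin) (le_trans hcard ?_)⟩
  refine Nat.pow_le_pow_right (by omega) (block_count _ ?_ ?_)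
  · intro i hi
    rw [Finset.mem_filter, Finset.mem_range] at hi
    exact hi.1
  · intro i hi i' hi' hle hJ
    rw [Finset.mem_filter] at hi hi'
    refine (P.hJ _ hi.2.1 _ hi'.2.1 (i' - i) hJ 0 (Nat.zero_le _) ?_ (Or.inr (Or.inl rfl))).1
    show P.FR^[i' - i] (P.FR^[i + 1] c) = P.FR^[i' + 1] c
    rw [← Function.iterate_add_apply, show i' - i + (i + 1) = i' + 1 by omega]

theorem cr_count (hT : Tr G F b d n0 N) (P : Pl G F b s J J0 N) {e q : ℕ} (h0 : n0 ≤ e)
    (hN : e + q + 1 ≤ N) {y : Ω} (hy : y ∈ lev F b e) :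
    {v | F^[q] v = y ∧ ∃ x, F x = v ∧ P.red x ∈ P.A}.Finite ∧
      {v | F^[q] v = y ∧ ∃ x, F x = v ∧ P.red x ∈ P.A}.ncard ≤
        s * d ^ ((J0 + 1) * (q / (J + 1) + 1)) := by
  have hS : {v | F^[q] v = y ∧ ∃ x, F x = v ∧ P.red x ∈ P.A}.Finite := by
    refine (tr_fib hT h0 (show e + q ≤ N by omega) hy).1.subset ?_
    intro v hv
    exact hv.1
  refine ⟨hS, ?_⟩
  rw [Set.ncard_eq_toFinset_card _ hS]
  have hsub : hS.toFinset ⊆ P.hAfin.toFinset.biUnion
      (fun c => (WEa_c hT P hN hy c).1.toFinset) := by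
    intro v hv
    obtain ⟨hv1, x, hx, hxA⟩ := hS.mem_toFinset.1 hv
    rw [Finset.mem_biUnion]
    refine ⟨P.red x, P.hAfin.mem_toFinset.2 hxA, ?_⟩
    rw [Set.Finite.mem_toFinset]
    exact ⟨hv1, x, hx, rfl⟩
  refine le_trans (Finset.card_le_card hsub) (le_trans Finset.card_biUnion_le ?_)
  refine le_trans (Finset.sum_le_card_nsmul _ _ (d ^ ((J0 + 1) * (q / (J + 1) + 1))) ?_) ?_
  · intro c _
    have h1 := (WEa_c hT P hN hy c).2
    rw [Set.ncard_eq_toFinset_card _ (WEa_c hT P hN hy c).1] at h1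
    exact h1
  · rw [smul_eq_mul]
    refine Nat.mul_le_mul_right _ ?_
    have h1 := P.hA
    rw [Set.ncard_eq_toFinset_card _ P.hAfin] at h1
    exact h1

end Pool.Agent.H42.ES
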