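/-
ROW XAa. Binary forms along a line. PROOFS.
* ev_smul: MvPolynomial.IsHomogeneous: write `F` as the sum of its monomials (MvPolynomial.eval₂_eq' or eval₂_eq): each monomial `m` in the support has
  `m 0 + m 1 = d` and `(a v)^m = a^d v^m` (Mathlib may have `MvPolynomial.IsHomogeneous.eval₂` or `.aeval` for this). ph_smul: both components.
* lp_eval: `aeval x` is a ring homomorphism `E[X] → A`; MvPolynomial.hom_eval₂ (or eval₂_comp_left): `aeval x (eval₂ (C.comp f) u F) = eval₂ ((aeval x).comp (C.comp f)) (aeval x ∘ u) F`.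
* lp_deg: sum over the monomials: `∏ i, (C (γ i) * X + C (δ i))^(m i)` has degree `≤ m 0 + m 1 = d` and `X^d`-coefficient `∏ γ i^(m i)`
  (coeff_mul_of_natDegree_le / natDegree_pow_le / coeff_pow_of_natDegree_le).
* lp_der: chain rule; by MvPolynomial.induction_on F: both sides are additive; for a constant both are `0`; for `F * X j`: product rule (Derivation.leibniz, pderiv_X,
  `derivative (C (γ j) * X + C (δ j)) = C (γ j)`).
* euler2: MvPolynomial.IsHomogeneous.sum_X_mul_pderiv (Mathlib.RingTheory.MvPolynomial.EulerIdentity) and eval₂ of both sides (Fin.sum_univ_two).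
-/
import Mathlib

set_option autoImplicit false

namespace Pool.Agent.H42.ES

open Polynomial

/-- The pair of forms `F, G` as a map on vectors. -/
noncomputable def Ph {R A : Type} [CommRing R] [CommRing A] (f : R →+* A)
    (F G : MvPolynomial (Fin 2) R) (v : Fin 2 → A) : Fin 2 → A :=
  ![MvPolynomial.eval₂ f v F, MvPolynomial.eval₂ f v G]

/-- The form `F` on the line `X γ + δ`. -/
noncomputable def lp {R E : Type} [CommRing R] [CommRing E] (f : R →+* E) (γ δ : Fin 2 → E)
    (F : MvPolynomial (Fin 2) R) : E[X] :=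
  MvPolynomial.eval₂ ((C : E →+* E[X]).comp f) (fun i => C (γ i) * X + C (δ i)) F

variable {R E A : Type} [CommRing R] [Field E] [CommRing A] {F G : MvPolynomial (Fin 2) R} {d : ℕ}

theorem XAa_deg {R : Type} [CommRing R] {F : MvPolynomial (Fin 2) R} {d : ℕ}
    (hF : F.IsHomogeneous d) {m : Fin 2 →₀ ℕ} (hm : m ∈ F.support) : m 0 + m 1 = d := by
  have h1 := hF (MvPolynomial.mem_support_iff.1 hm)
  have h2 : (Finsupp.weight (1 : Fin 2 → ℕ)) m = m.degree :=
    (DFunLike.congr_fun Finsupp.degree_eq_weight_one m).symm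
  rw [← h1, h2, Finsupp.degree_eq_sum, Fin.sum_univ_two]

theorem ev_smul (f : R →+* A) (hF : F.IsHomogeneous d) (a : A) (v : Fin 2 → A) :
    MvPolynomial.eval₂ f (a • v) F = a ^ d * MvPolynomial.eval₂ f v F := by
  rw [MvPolynomial.eval₂_eq', MvPolynomial.eval₂_eq', Finset.mul_sum]
  refine Finset.sum_congr rfl fun m hm => ?_
  rw [Fin.prod_univ_two, Fin.prod_univ_two, ← XAa_deg hF hm, Pi.smul_apply, Pi.smul_apply,
    smul_eq_mul, smul_eq_mul, mul_pow, mul_pow, pow_add]
  ring

theorem ph_smul (f : R →+* A) (hF : F.IsHomogeneous d) (hG : G.IsHomogeneous d) (a : A)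
    (v : Fin 2 → A) : Ph f F G (a • v) = a ^ d • Ph f F G v := by
  funext i
  unfold Ph
  rw [ev_smul f hF, ev_smul f hG]
  fin_cases i <;> simp

theorem lp_eval (f : R →+* E) (γ δ : Fin 2 → E) (F : MvPolynomial (Fin 2) R) [Algebra E A]
    (x : A) : aeval x (lp f γ δ F) = MvPolynomial.eval₂ ((algebraMap E A).comp f)
      (fun i => x * algebraMap E A (γ i) + algebraMap E A (δ i)) F := by
  unfold lp
  have h1 := MvPolynomial.hom_eval₂ F ((C : E →+* E[X]).comp f)
    ((aeval x : E[X] →ₐ[E] A) : E[X] →+* A) (fun i => C (γ i) * X + C (δ i))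
  have h2 : (aeval x : E[X] →ₐ[E] A) (MvPolynomial.eval₂ ((C : E →+* E[X]).comp f)
      (fun i => C (γ i) * X + C (δ i)) F) = ((aeval x : E[X] →ₐ[E] A) : E[X] →+* A)
      (MvPolynomial.eval₂ ((C : E →+* E[X]).comp f) (fun i => C (γ i) * X + C (δ i)) F) := rfl
  rw [h2, h1]
  have h3 : (((aeval x : E[X] →ₐ[E] A) : E[X] →+* A).comp ((C : E →+* E[X]).comp f)) =
      (algebraMap E A).comp f := by
    ext r
    simp
  have h4 : (fun i => ((aeval x : E[X] →ₐ[E] A) : E[X] →+* A) (C (γ i) * X + C (δ i))) =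
      fun i => x * algebraMap E A (γ i) + algebraMap E A (δ i) := by
    funext i
    show (aeval x : E[X] →ₐ[E] A) (C (γ i) * X + C (δ i)) = _
    rw [map_add, map_mul, aeval_C, aeval_X, aeval_C, mul_comm]
  rw [h3]
  exact congrArg (fun u => MvPolynomial.eval₂ ((algebraMap E A).comp f) u F) h4

theorem lp_deg (f : R →+* E) (γ δ : Fin 2 → E) (hF : F.IsHomogeneous d) :
    (lp f γ δ F).natDegree ≤ d ∧ (lp f γ δ F).coeff d = MvPolynomial.eval₂ f γ F := by
  have hlin : ∀ i : Fin 2, (C (γ i) * X + C (δ i) : E[X]).natDegree ≤ 1 := by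
    intro i
    exact natDegree_linear_le
  have hpow : ∀ (i : Fin 2) (k : ℕ), ((C (γ i) * X + C (δ i) : E[X]) ^ k).natDegree ≤ k := by
    intro i k
    have := natDegree_pow_le_of_le k (hlin i)
    rwa [mul_one] at this
  have hcoe : ∀ (i : Fin 2) (k : ℕ), ((C (γ i) * X + C (δ i) : E[X]) ^ k).coeff k = γ i ^ k := by
    intro i k
    have h1 := coeff_pow_of_natDegree_le (m := k) (hlin i)
    rw [mul_one] at h1
    rw [h1]
    simp
  have hterm : ∀ m ∈ F.support,
      ((((C : E →+* E[X]).comp f) (F.coeff m) * ∏ i, (C (γ i) * X + C (δ i) : E[X]) ^ m i).natDegree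
        ≤ d) ∧
      (((C : E →+* E[X]).comp f) (F.coeff m) * ∏ i, (C (γ i) * X + C (δ i) : E[X]) ^ m i).coeff d =
        f (F.coeff m) * ∏ i, γ i ^ m i := by
    intro m hm
    have hd := XAa_deg hF hm
    rw [Fin.prod_univ_two, Fin.prod_univ_two, RingHom.comp_apply]
    constructor
    · refine (natDegree_C_mul_le _ _).trans ?_
      rw [← hd]
      exact natDegree_mul_le_of_le (hpow 0 _) (hpow 1 _)
    · rw [coeff_C_mul, ← hd, coeff_mul_add_eq_of_natDegree_le (hpow 0 _) (hpow 1 _), hcoe, hcoe]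
  unfold lp
  rw [MvPolynomial.eval₂_eq', MvPolynomial.eval₂_eq']
  constructor
  · exact natDegree_sum_le_of_forall_le _ _ fun m hm => (hterm m hm).1
  · rw [finset_sum_coeff]
    exact Finset.sum_congr rfl fun m hm => (hterm m hm).2

theorem lp_der (f : R →+* E) (γ δ : Fin 2 → E) (F : MvPolynomial (Fin 2) R) (x : E) :
    (derivative (lp f γ δ F)).eval x =
      γ 0 * MvPolynomial.eval₂ f (fun i => x * γ i + δ i) (MvPolynomial.pderiv 0 F) +
      γ 1 * MvPolynomial.eval₂ f (fun i => x * γ i + δ i) (MvPolynomial.pderiv 1 F) := by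
  unfold lp
  induction F using MvPolynomial.induction_on with
  | C a => simp
  | add p q hp hq =>
    simp only [MvPolynomial.eval₂_add, map_add, derivative_add, eval_add] at hp hq ⊢
    rw [hp, hq]
    ring
  | mul_X p j hp =>
    have hev : (MvPolynomial.eval₂ ((C : E →+* E[X]).comp f) (fun i => C (γ i) * X + C (δ i)) p).eval
        x = MvPolynomial.eval₂ f (fun i => x * γ i + δ i) p := by
      have h1 := MvPolynomial.hom_eval₂ p ((C : E →+* E[X]).comp f) (evalRingHom x)
        (fun i => C (γ i) * X + C (δ i))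
      have h3 : ((evalRingHom x).comp ((C : E →+* E[X]).comp f)) = f := by
        ext r
        simp
      rw [h3] at h1
      change (evalRingHom x) _ = _
      rw [h1]
      have h4 : (fun i => (evalRingHom x) (C (γ i) * X + C (δ i))) =
          fun i => x * γ i + δ i := by
        funext i
        show (C (γ i) * X + C (δ i) : E[X]).eval x = _
        rw [eval_add, eval_mul, eval_C, eval_X, eval_C, mul_comm]
      exact congrArg (fun u => MvPolynomial.eval₂ f u p) h4
    rw [MvPolynomial.eval₂_mul, MvPolynomial.eval₂_X, derivative_mul, eval_add, eval_mul, eval_mul,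
      hp, hev, Derivation.leibniz, Derivation.leibniz, MvPolynomial.pderiv_X, MvPolynomial.pderiv_X]
    simp only [smul_eq_mul, MvPolynomial.eval₂_add, MvPolynomial.eval₂_mul, MvPolynomial.eval₂_X,
      derivative_add, derivative_mul, derivative_C, derivative_X, eval_add, eval_mul, eval_C,
      eval_X, eval_zero, eval_one, zero_mul, mul_one, zero_add, add_zero]
    fin_cases j
    · simp [Pi.single_apply]
      ring
    · simp [Pi.single_apply]
      ring

theorem euler2 (f : R →+* E) (hF : F.IsHomogeneous d) (v : Fin 2 → E) :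
    (d : E) * MvPolynomial.eval₂ f v F =
      v 0 * MvPolynomial.eval₂ f v (MvPolynomial.pderiv 0 F) +
      v 1 * MvPolynomial.eval₂ f v (MvPolynomial.pderiv 1 F) := by
  have h1 := hF.sum_X_mul_pderiv
  have h2 := congrArg (MvPolynomial.eval₂ f v) h1
  rw [Fin.sum_univ_two, MvPolynomial.eval₂_add, MvPolynomial.eval₂_mul, MvPolynomial.eval₂_mul,
    MvPolynomial.eval₂_X, MvPolynomial.eval₂_X] at h2
  rw [h2, nsmul_eq_mul, MvPolynomial.eval₂_mul]
  congr 1
  have h3 : ((d : ℕ) : MvPolynomial (Fin 2) R) = MvPolynomial.C (d : R) := by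
    rw [map_natCast]
  rw [h3, MvPolynomial.eval₂_C, map_natCast]

end Pool.Agent.H42.ES
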