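/-
ROW XAb. The normal form of a rational map with fixed point `γ`. `D = γ 0 * δ 1 - γ 1 * δ 0`, `p = nfp`, `q = nfq`: by definition
`p γ 0 + q δ 0 = lp F`, `p γ 1 + q δ 1 = lp G` (`D ≠ 0`). PROOFS.
* nf_nz: if `eval₂ v F = eval₂ v G = 0` then every element of the ideal generated by `F, G` vanishes at `v`, so `v i ^ N = 0` (evaluate `hN.res` at `v` with
  `MvPolynomial.eval₂Hom`/`aeval v`; Ideal.mem_span_pair), `v = 0`.
* nf_vec: lp_eval (row XAa) and linear algebra (the two components; `field_simp`).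
* nf_deg: lp_deg: the `X^d`-coefficients of `lp F, lp G` are the components of `Ph γ = t • γ`, so those of `p`, `q` are `t` and `0`; `t ≠ 0` by nf_nz (`A = E`; `γ ≠ 0` since `D ≠ 0`).
  natDegree of `q`: `≤ d` with vanishing `X^d`-coefficient, `d ≥ 2`, so `< d`.
* nf_cop: otherwise `p, q` have a common root `x` in `AlgebraicClosure E` (a common factor of positive degree; as in pq_coprime of RM/EAa.lean:
  `Polynomial.isCoprime_iff_aeval_ne_zero...`), so by nf_vec `Ph (x γ + δ) = 0`, contradicting nf_nz (`x γ + δ ≠ 0` because `D ≠ 0`).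
* nf_crit: `wr p q = derivative p * q - p * derivative q` is bilinear alternating: `wr p q = C (1/D) * wr (lp F) (lp G)` (the determinant of the change of basis). With `u = x γ + δ`,
  `F_i = eval₂ u (pderiv i F)` etc.: `(derivative (lp F)).eval x = γ0 F_0 + γ1 F_1` (lp_der), `d * (lp F).eval x = u0 F_0 + u1 F_1` (euler2, lp_eval with `A = E`). So
  `d * (wr (lp F) (lp G)).eval x = (γ0 F_0 + γ1 F_1)(u0 G_0 + u1 G_1) - (u0 F_0 + u1 F_1)(γ0 G_0 + γ1 G_1) = (F_0 G_1 - F_1 G_0)(γ0 u1 - γ1 u0)` and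
  `γ0 u1 - γ1 u0 = D ≠ 0`; `(d : E) ≠ 0` in characteristic zero.
-/
import Pool.Agent.H42.ES.XAa
import Pool.Agent.H42.RM.Defs

set_option autoImplicit false

namespace Pool.Agent.H42.ES

open Polynomial
open Pool.Agent.H42.RM (wr)

/-- The numerator in the coordinate `x ↦ x γ + δ`. -/
noncomputable def nfp {R E : Type} [CommRing R] [Field E] (f : R →+* E) (γ δ : Fin 2 → E)
    (F G : MvPolynomial (Fin 2) R) : E[X] :=
  C (δ 1 / (γ 0 * δ 1 - γ 1 * δ 0)) * lp f γ δ F - C (δ 0 / (γ 0 * δ 1 - γ 1 * δ 0)) * lp f γ δ G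

/-- The denominator in the coordinate `x ↦ x γ + δ`. -/
noncomputable def nfq {R E : Type} [CommRing R] [Field E] (f : R →+* E) (γ δ : Fin 2 → E)
    (F G : MvPolynomial (Fin 2) R) : E[X] :=
  C (γ 0 / (γ 0 * δ 1 - γ 1 * δ 0)) * lp f γ δ G - C (γ 1 / (γ 0 * δ 1 - γ 1 * δ 0)) * lp f γ δ F

/-- `(F, G)` defines a map of degree `d` on the projective line, `γ` is a fixed point, and `γ, δ` is a basis. -/
structure NF {R E : Type} [CommRing R] [Field E] (f : R →+* E) (γ δ : Fin 2 → E)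
    (F G : MvPolynomial (Fin 2) R) (d : ℕ) : Prop where
  hd : 2 ≤ d
  hF : F.IsHomogeneous d
  hG : G.IsHomogeneous d
  det : γ 0 * δ 1 - γ 1 * δ 0 ≠ 0
  fix : ∃ t : E, Ph f F G γ = t • γ
  res : ∃ N : ℕ, (MvPolynomial.X (0 : Fin 2) : MvPolynomial (Fin 2) E) ^ N ∈
      Ideal.span {MvPolynomial.map f F, MvPolynomial.map f G} ∧
    (MvPolynomial.X (1 : Fin 2) : MvPolynomial (Fin 2) E) ^ N ∈
      Ideal.span {MvPolynomial.map f F, MvPolynomial.map f G}

variable {R E A : Type} [CommRing R] [Field E] [Field A] [Algebra E A] {f : R →+* E}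
  {γ δ : Fin 2 → E} {F G : MvPolynomial (Fin 2) R} {d : ℕ}

theorem XAb_l1 {K : Type*} [Field K] (g0 g1 d0 d1 P Q : K) (h : g0 * d1 - g1 * d0 ≠ 0) :
    P = (d1 / (g0 * d1 - g1 * d0) * P - d0 / (g0 * d1 - g1 * d0) * Q) * g0 +
      (g0 / (g0 * d1 - g1 * d0) * Q - g1 / (g0 * d1 - g1 * d0) * P) * d0 := by
  generalize hD : g0 * d1 - g1 * d0 = D at *
  rw [eq_comm]
  field_simp
  rw [← hD]
  ring

theorem XAb_l2 {K : Type*} [Field K] (g0 g1 d0 d1 P Q : K) (h : g0 * d1 - g1 * d0 ≠ 0) :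
    Q = (d1 / (g0 * d1 - g1 * d0) * P - d0 / (g0 * d1 - g1 * d0) * Q) * g1 +
      (g0 / (g0 * d1 - g1 * d0) * Q - g1 / (g0 * d1 - g1 * d0) * P) * d1 := by
  generalize hD : g0 * d1 - g1 * d0 = D at *
  rw [eq_comm]
  field_simp
  rw [← hD]
  ring

theorem XAb_l3 {K : Type*} [Field K] (g0 g1 d0 d1 t : K) (h : g0 * d1 - g1 * d0 ≠ 0) :
    d1 / (g0 * d1 - g1 * d0) * (t * g0) - d0 / (g0 * d1 - g1 * d0) * (t * g1) = t := by
  generalize hD : g0 * d1 - g1 * d0 = D at *
  field_simp
  rw [← hD]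
  ring

theorem XAb_l4 {K : Type*} [Field K] (g0 g1 d0 d1 t : K) (h : g0 * d1 - g1 * d0 ≠ 0) :
    g0 / (g0 * d1 - g1 * d0) * (t * g1) - g1 / (g0 * d1 - g1 * d0) * (t * g0) = 0 := by
  generalize hD : g0 * d1 - g1 * d0 = D at *
  field_simp
  ring

theorem XAb_l5 {K : Type*} [Field K] (g0 g1 d0 d1 f f' g g' : K) (h : g0 * d1 - g1 * d0 ≠ 0) :
    (d1 / (g0 * d1 - g1 * d0) * f' - d0 / (g0 * d1 - g1 * d0) * g') *
        (g0 / (g0 * d1 - g1 * d0) * g - g1 / (g0 * d1 - g1 * d0) * f) -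
      (d1 / (g0 * d1 - g1 * d0) * f - d0 / (g0 * d1 - g1 * d0) * g) *
        (g0 / (g0 * d1 - g1 * d0) * g' - g1 / (g0 * d1 - g1 * d0) * f') =
      (f' * g - f * g') / (g0 * d1 - g1 * d0) := by
  generalize hD : g0 * d1 - g1 * d0 = D at *
  field_simp
  rw [← hD]
  ring

theorem nf_nz (hN : NF f γ δ F G d) {v : Fin 2 → A} (hv : v ≠ 0) :
    Ph ((algebraMap E A).comp f) F G v ≠ 0 := by
  intro h
  have h0 : MvPolynomial.eval₂ ((algebraMap E A).comp f) v F = 0 := congrFun h 0
  have h1 : MvPolynomial.eval₂ ((algebraMap E A).comp f) v G = 0 := congrFun h 1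
  have hF0 : MvPolynomial.aeval v (MvPolynomial.map f F) = 0 := by
    rw [MvPolynomial.aeval_def, MvPolynomial.eval₂_map]
    exact h0
  have hG0 : MvPolynomial.aeval v (MvPolynomial.map f G) = 0 := by
    rw [MvPolynomial.aeval_def, MvPolynomial.eval₂_map]
    exact h1
  obtain ⟨N, hr0, hr1⟩ := hN.res
  have key : ∀ i : Fin 2, (MvPolynomial.X i : MvPolynomial (Fin 2) E) ^ N ∈
      Ideal.span {MvPolynomial.map f F, MvPolynomial.map f G} → v i = 0 := by
    intro i hi
    obtain ⟨a, b, hab⟩ := Ideal.mem_span_pair.1 hi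
    have h2 := congrArg (MvPolynomial.aeval v) hab
    rw [map_add, map_mul, map_mul, hF0, hG0, mul_zero, mul_zero, add_zero, map_pow,
      MvPolynomial.aeval_X] at h2
    by_contra hne
    exact pow_ne_zero N hne h2.symm
  apply hv
  funext i
  fin_cases i
  · exact key 0 hr0
  · exact key 1 hr1

theorem nf_vec (hN : NF f γ δ F G d) (x : A) :
    Ph ((algebraMap E A).comp f) F G (fun i => x * algebraMap E A (γ i) + algebraMap E A (δ i)) =
      fun i => aeval x (nfp f γ δ F G) * algebraMap E A (γ i) +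
        aeval x (nfq f γ δ F G) * algebraMap E A (δ i) := by
  have hD := hN.det
  have hD' : algebraMap E A (γ 0) * algebraMap E A (δ 1) -
      algebraMap E A (γ 1) * algebraMap E A (δ 0) ≠ 0 := by
    rw [← map_mul, ← map_mul, ← map_sub]
    exact fun h => hD ((map_eq_zero (algebraMap E A)).1 h)
  have hF1 := lp_eval (A := A) f γ δ F x
  have hG1 := lp_eval (A := A) f γ δ G x
  have e1 : aeval x (nfp f γ δ F G) =
      algebraMap E A (δ 1) / (algebraMap E A (γ 0) * algebraMap E A (δ 1) -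
        algebraMap E A (γ 1) * algebraMap E A (δ 0)) * MvPolynomial.eval₂ ((algebraMap E A).comp f)
        (fun i => x * algebraMap E A (γ i) + algebraMap E A (δ i)) F -
      algebraMap E A (δ 0) / (algebraMap E A (γ 0) * algebraMap E A (δ 1) -
        algebraMap E A (γ 1) * algebraMap E A (δ 0)) * MvPolynomial.eval₂ ((algebraMap E A).comp f)
        (fun i => x * algebraMap E A (γ i) + algebraMap E A (δ i)) G := by
    rw [nfp, map_sub, map_mul, map_mul, aeval_C, aeval_C, hF1, hG1, map_div₀, map_div₀, map_sub,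
      map_mul, map_mul]
  have e2 : aeval x (nfq f γ δ F G) =
      algebraMap E A (γ 0) / (algebraMap E A (γ 0) * algebraMap E A (δ 1) -
        algebraMap E A (γ 1) * algebraMap E A (δ 0)) * MvPolynomial.eval₂ ((algebraMap E A).comp f)
        (fun i => x * algebraMap E A (γ i) + algebraMap E A (δ i)) G -
      algebraMap E A (γ 1) / (algebraMap E A (γ 0) * algebraMap E A (δ 1) -
        algebraMap E A (γ 1) * algebraMap E A (δ 0)) * MvPolynomial.eval₂ ((algebraMap E A).comp f)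
        (fun i => x * algebraMap E A (γ i) + algebraMap E A (δ i)) F := by
    rw [nfq, map_sub, map_mul, map_mul, aeval_C, aeval_C, hF1, hG1, map_div₀, map_div₀, map_sub,
      map_mul, map_mul]
  funext i
  simp only [e1, e2]
  fin_cases i
  · show MvPolynomial.eval₂ ((algebraMap E A).comp f)
        (fun i => x * algebraMap E A (γ i) + algebraMap E A (δ i)) F = _
    generalize MvPolynomial.eval₂ ((algebraMap E A).comp f)
        (fun i => x * algebraMap E A (γ i) + algebraMap E A (δ i)) F = P1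
    generalize MvPolynomial.eval₂ ((algebraMap E A).comp f)
        (fun i => x * algebraMap E A (γ i) + algebraMap E A (δ i)) G = Q1
    exact XAb_l1 _ _ _ _ _ _ hD'
  · show MvPolynomial.eval₂ ((algebraMap E A).comp f)
        (fun i => x * algebraMap E A (γ i) + algebraMap E A (δ i)) G = _
    generalize MvPolynomial.eval₂ ((algebraMap E A).comp f)
        (fun i => x * algebraMap E A (γ i) + algebraMap E A (δ i)) F = P1
    generalize MvPolynomial.eval₂ ((algebraMap E A).comp f)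
        (fun i => x * algebraMap E A (γ i) + algebraMap E A (δ i)) G = Q1
    exact XAb_l2 _ _ _ _ _ _ hD'

theorem nf_deg (hN : NF f γ δ F G d) :
    (nfp f γ δ F G).natDegree = d ∧ (nfq f γ δ F G).natDegree < d := by
  have hD := hN.det
  obtain ⟨t, ht⟩ := hN.fix
  obtain ⟨hF1, hF2⟩ := lp_deg f γ δ hN.hF
  obtain ⟨hG1, hG2⟩ := lp_deg f γ δ hN.hG
  have hFt : MvPolynomial.eval₂ f γ F = t * γ 0 := congrFun ht 0
  have hGt : MvPolynomial.eval₂ f γ G = t * γ 1 := congrFun ht 1
  have hγ : γ ≠ 0 := by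
    rintro rfl
    apply hD
    simp
  have ht0 : t ≠ 0 := by
    rintro rfl
    have h := nf_nz (A := E) hN hγ
    rw [Algebra.algebraMap_self, RingHom.id_comp, ht, zero_smul] at h
    exact h rfl
  have hc1 : (nfp f γ δ F G).coeff d = t := by
    rw [nfp, coeff_sub, coeff_C_mul, coeff_C_mul, hF2, hG2, hFt, hGt]
    exact XAb_l3 _ _ _ _ _ hD
  have hc2 : (nfq f γ δ F G).coeff d = 0 := by
    rw [nfq, coeff_sub, coeff_C_mul, coeff_C_mul, hF2, hG2, hFt, hGt]
    exact XAb_l4 _ _ _ _ _ hD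
  have hle1 : (nfp f γ δ F G).natDegree ≤ d := by
    rw [nfp]
    refine (natDegree_sub_le _ _).trans (max_le ?_ ?_)
    · exact (natDegree_C_mul_le _ _).trans hF1
    · exact (natDegree_C_mul_le _ _).trans hG1
  have hle2 : (nfq f γ δ F G).natDegree ≤ d := by
    rw [nfq]
    refine (natDegree_sub_le _ _).trans (max_le ?_ ?_)
    · exact (natDegree_C_mul_le _ _).trans hG1
    · exact (natDegree_C_mul_le _ _).trans hF1
  refine ⟨natDegree_eq_of_le_of_coeff_ne_zero hle1 (by rw [hc1]; exact ht0), ?_⟩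
  refine lt_of_le_of_ne hle2 ?_
  intro he
  have h1 : (nfq f γ δ F G).leadingCoeff = 0 := by
    rw [leadingCoeff, he]
    exact hc2
  rw [leadingCoeff_eq_zero] at h1
  rw [h1, natDegree_zero] at he
  have h2 := hN.hd
  omega

theorem nf_cop (hN : NF f γ δ F G d) : IsCoprime (nfp f γ δ F G) (nfq f γ δ F G) := by
  rw [isCoprime_iff_aeval_ne_zero_of_isAlgClosed E (AlgebraicClosure E)]
  intro a
  by_contra hc
  rw [not_or, not_not, not_not] at hc
  have h := nf_vec (A := AlgebraicClosure E) hN a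
  rw [hc.1, hc.2] at h
  have hu : (fun i => a * algebraMap E (AlgebraicClosure E) (γ i) +
      algebraMap E (AlgebraicClosure E) (δ i) : Fin 2 → AlgebraicClosure E) ≠ 0 := by
    intro h0
    have h1 : a * algebraMap E (AlgebraicClosure E) (γ 0) +
        algebraMap E (AlgebraicClosure E) (δ 0) = 0 := congrFun h0 0
    have h2 : a * algebraMap E (AlgebraicClosure E) (γ 1) +
        algebraMap E (AlgebraicClosure E) (δ 1) = 0 := congrFun h0 1
    apply hN.det
    apply (map_eq_zero (algebraMap E (AlgebraicClosure E))).1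
    rw [map_sub, map_mul, map_mul]
    linear_combination algebraMap E (AlgebraicClosure E) (γ 0) * h2 -
      algebraMap E (AlgebraicClosure E) (γ 1) * h1
  apply nf_nz (A := AlgebraicClosure E) hN hu
  rw [h]
  funext i
  simp

theorem nf_crit [CharZero E] (hN : NF f γ δ F G d) (x : E) :
    (wr (nfp f γ δ F G) (nfq f γ δ F G)).eval x = 0 ↔
      MvPolynomial.eval₂ f (fun i => x * γ i + δ i)
        (MvPolynomial.pderiv (0 : Fin 2) F * MvPolynomial.pderiv (1 : Fin 2) G -
          MvPolynomial.pderiv (1 : Fin 2) F * MvPolynomial.pderiv (0 : Fin 2) G) = 0 := by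
  have hD := hN.det
  have hev : ∀ H : MvPolynomial (Fin 2) R, (lp f γ δ H).eval x =
      MvPolynomial.eval₂ f (fun i => x * γ i + δ i) H := by
    intro H
    have h := lp_eval (A := E) f γ δ H x
    rw [Algebra.algebraMap_self, RingHom.id_comp] at h
    rw [← coe_aeval_eq_eval]
    exact h
  have hF2 := lp_der f γ δ F x
  have hG2 := lp_der f γ δ G x
  have hF3 := euler2 f hN.hF (fun i => x * γ i + δ i)
  have hG3 := euler2 f hN.hG (fun i => x * γ i + δ i)
  rw [← hev F] at hF3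
  rw [← hev G] at hG3
  have hw : (wr (nfp f γ δ F G) (nfq f γ δ F G)).eval x =
      ((derivative (lp f γ δ F)).eval x * (lp f γ δ G).eval x -
        (lp f γ δ F).eval x * (derivative (lp f γ δ G)).eval x) / (γ 0 * δ 1 - γ 1 * δ 0) := by
    rw [wr, nfp, nfq]
    simp only [derivative_sub, derivative_C_mul, eval_sub, eval_mul, eval_C]
    have h5 := XAb_l5 (γ 0) (γ 1) (δ 0) (δ 1) ((lp f γ δ F).eval x)
      ((derivative (lp f γ δ F)).eval x) ((lp f γ δ G).eval x)
      ((derivative (lp f γ δ G)).eval x) hD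
    linear_combination h5
  rw [hw, MvPolynomial.eval₂_sub, MvPolynomial.eval₂_mul, MvPolynomial.eval₂_mul]
  have hd0 : (d : E) ≠ 0 := by
    have h2 := hN.hd
    exact_mod_cast (by omega : d ≠ 0)
  rw [hF2, hG2]
  generalize MvPolynomial.eval₂ f (fun i => x * γ i + δ i) (MvPolynomial.pderiv 0 F) = F0 at *
  generalize MvPolynomial.eval₂ f (fun i => x * γ i + δ i) (MvPolynomial.pderiv 1 F) = F1 at *
  generalize MvPolynomial.eval₂ f (fun i => x * γ i + δ i) (MvPolynomial.pderiv 0 G) = G0 at *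
  generalize MvPolynomial.eval₂ f (fun i => x * γ i + δ i) (MvPolynomial.pderiv 1 G) = G1 at *
  have hkey : (d : E) * (((γ 0 * F0 + γ 1 * F1) * (lp f γ δ G).eval x -
      (lp f γ δ F).eval x * (γ 0 * G0 + γ 1 * G1)) / (γ 0 * δ 1 - γ 1 * δ 0)) =
      F0 * G1 - F1 * G0 := by
    rw [mul_div_assoc', div_eq_iff hD]
    linear_combination (γ 0 * F0 + γ 1 * F1) * hG3 - (γ 0 * G0 + γ 1 * G1) * hF3
  rw [← hkey, mul_eq_zero]
  constructor
  · intro h
    exact Or.inr h
  · rintro (h | h)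
    · exact absurd h hd0
    · exact h

end Pool.Agent.H42.ES
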