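/-
ROW XAc. The coordinate on the projective line. `ratMap p q A` (RM/FAa): `none ↦ none`, `some x ↦ none` if `q x = 0` and `some (p x / q x)` otherwise. PROOFS.
* vec_ne: `γ ≠ 0`, `x γ + δ ≠ 0` because the determinant is not `0`.
* vec_inj: if `a γ = a' γ..`: with the functionals `ω w = γ0 w1 - γ1 w0` (`ω γ = 0`, `ω (x γ + δ) = D`) and `ω' w = w0 δ1 - w1 δ0` (`ω' γ = D`, `ω' (x γ + δ) = x D`).
* vec_ex: `v = (ω' v / D) γ + (ω v / D) δ`; if `ω v = 0` then `v = a γ` with `a ≠ 0`, otherwise `z = some (ω' v / ω v)`, `a = ω v / D`.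
* nf_step: `z = none`: `Ph γ = t γ` (hN.fix mapped to `A`; `t ≠ 0` by nf_nz of row XAb). `z = some x`: nf_vec (row XAb): `Ph = p(x) γ + q(x) δ`; if `q(x) = 0` it is `p(x) γ`, `p(x) ≠ 0` (nf_nz); otherwise
  `q(x) ((p(x)/q(x)) γ + δ)`.
* nf_iter: induction on `n`: `Ph (t • vec z) = t^d • Ph (vec z)` (ph_smul, row XAa).
* nf_eq: `Ph^[n] (a • vec z) = a^(d^n) • Ph^[n] (vec z)` (induction with ph_smul), `= a^(d^n) t0 • vec (ratMap^[n] z)` (nf_iter). (→) `t ≠ 0` since the left side is not `0`; vec_inj. (←) clear.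
-/
import Pool.Agent.H42.ES.XAb
import Pool.Agent.H42.RM.FAa

set_option autoImplicit false

namespace Pool.Agent.H42.ES

open Polynomial
open Pool.Agent.H42.RM (wr ratMap)

/-- The vector of the point with coordinate `z` (`none` is the fixed point `γ`). -/
def vec {E A : Type} [Field E] [Field A] [Algebra E A] (γ δ : Fin 2 → E) :
    Option A → (Fin 2 → A)
  | none => fun i => algebraMap E A (γ i)
  | some x => fun i => x * algebraMap E A (γ i) + algebraMap E A (δ i)

variable {R E A : Type} [CommRing R] [Field E] [Field A] [Algebra E A] {f : R →+* E}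
  {γ δ : Fin 2 → E} {F G : MvPolynomial (Fin 2) R} {d : ℕ}

private theorem XAc_det (hD : γ 0 * δ 1 - γ 1 * δ 0 ≠ 0) :
    algebraMap E A (γ 0) * algebraMap E A (δ 1) - algebraMap E A (γ 1) * algebraMap E A (δ 0) ≠ 0 := by
  rw [← map_mul, ← map_mul, ← map_sub]
  exact (_root_.map_ne_zero _).2 hD

theorem vec_ne (hD : γ 0 * δ 1 - γ 1 * δ 0 ≠ 0) (z : Option A) :
    vec (E := E) (A := A) γ δ z ≠ 0 := by
  have hDA := XAc_det (A := A) hD
  intro h
  cases z with
  | none =>
    have h0 : algebraMap E A (γ 0) = 0 := congrFun h 0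
    have h1 : algebraMap E A (γ 1) = 0 := congrFun h 1
    exact hDA (by rw [h0, h1]; ring)
  | some x =>
    have h0 : x * algebraMap E A (γ 0) + algebraMap E A (δ 0) = 0 := congrFun h 0
    have h1 : x * algebraMap E A (γ 1) + algebraMap E A (δ 1) = 0 := congrFun h 1
    exact hDA (by linear_combination algebraMap E A (γ 0) * h1 - algebraMap E A (γ 1) * h0)

theorem vec_inj (hD : γ 0 * δ 1 - γ 1 * δ 0 ≠ 0) {a a' : A} (ha : a ≠ 0) (ha' : a' ≠ 0)
    {z z' : Option A} (h : a • vec (E := E) γ δ z = a' • vec (E := E) γ δ z') : z = z' := by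
  have hDA := XAc_det (A := A) hD
  have k0 := congrFun h 0
  have k1 := congrFun h 1
  cases z with
  | none =>
    cases z' with
    | none => rfl
    | some x =>
      have h0 : a * algebraMap E A (γ 0) = a' * (x * algebraMap E A (γ 0) + algebraMap E A (δ 0)) := k0
      have h1 : a * algebraMap E A (γ 1) = a' * (x * algebraMap E A (γ 1) + algebraMap E A (δ 1)) := k1
      have h2 : a' * (algebraMap E A (γ 0) * algebraMap E A (δ 1) - algebraMap E A (γ 1) * algebraMap E A (δ 0)) = 0 := by
        linear_combination algebraMap E A (γ 1) * h0 - algebraMap E A (γ 0) * h1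
      exact absurd h2 (mul_ne_zero ha' hDA)
  | some x =>
    cases z' with
    | none =>
      have h0 : a * (x * algebraMap E A (γ 0) + algebraMap E A (δ 0)) = a' * algebraMap E A (γ 0) := k0
      have h1 : a * (x * algebraMap E A (γ 1) + algebraMap E A (δ 1)) = a' * algebraMap E A (γ 1) := k1
      have h2 : a * (algebraMap E A (γ 0) * algebraMap E A (δ 1) - algebraMap E A (γ 1) * algebraMap E A (δ 0)) = 0 := by
        linear_combination algebraMap E A (γ 0) * h1 - algebraMap E A (γ 1) * h0
      exact absurd h2 (mul_ne_zero ha hDA)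
    | some y =>
      have h0 : a * (x * algebraMap E A (γ 0) + algebraMap E A (δ 0)) =
        a' * (y * algebraMap E A (γ 0) + algebraMap E A (δ 0)) := k0
      have h1 : a * (x * algebraMap E A (γ 1) + algebraMap E A (δ 1)) =
        a' * (y * algebraMap E A (γ 1) + algebraMap E A (δ 1)) := k1
      have h2 : (a - a') * (algebraMap E A (γ 0) * algebraMap E A (δ 1) - algebraMap E A (γ 1) * algebraMap E A (δ 0)) = 0 := by
        linear_combination algebraMap E A (γ 0) * h1 - algebraMap E A (γ 1) * h0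
      have h3 : a = a' := sub_eq_zero.1 ((mul_eq_zero.1 h2).resolve_right hDA)
      have h4 : (a * x - a' * y) * (algebraMap E A (γ 0) * algebraMap E A (δ 1) - algebraMap E A (γ 1) * algebraMap E A (δ 0)) = 0 := by
        linear_combination algebraMap E A (δ 1) * h0 - algebraMap E A (δ 0) * h1
      have h5 : a * x = a' * y := sub_eq_zero.1 ((mul_eq_zero.1 h4).resolve_right hDA)
      rw [← h3] at h5
      rw [mul_left_cancel₀ ha h5]

theorem vec_ex (hD : γ 0 * δ 1 - γ 1 * δ 0 ≠ 0) {v : Fin 2 → A} (hv : v ≠ 0) :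
    ∃ (z : Option A) (a : A), a ≠ 0 ∧ v = a • vec (E := E) γ δ z := by
  have hDA := XAc_det (A := A) hD
  obtain ⟨D, hDd⟩ : ∃ D : A, D = algebraMap E A (γ 0) * algebraMap E A (δ 1) - algebraMap E A (γ 1) * algebraMap E A (δ 0) := ⟨_, rfl⟩
  rw [← hDd] at hDA
  obtain ⟨s, hs⟩ : ∃ s : A, s = algebraMap E A (γ 0) * v 1 - algebraMap E A (γ 1) * v 0 := ⟨_, rfl⟩
  obtain ⟨s', hs'⟩ : ∃ s' : A, s' = v 0 * algebraMap E A (δ 1) - v 1 * algebraMap E A (δ 0) := ⟨_, rfl⟩
  have e0 : v 0 * D = s' * algebraMap E A (γ 0) + s * algebraMap E A (δ 0) := by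
    rw [hDd, hs, hs']; ring
  have e1 : v 1 * D = s' * algebraMap E A (γ 1) + s * algebraMap E A (δ 1) := by
    rw [hDd, hs, hs']; ring
  by_cases h : s = 0
  · refine ⟨none, s' / D, ?_, ?_⟩
    · intro h'
      have hs0 : s' = 0 := by
        rcases div_eq_zero_iff.1 h' with h | h
        · exact h
        · exact absurd h hDA
      apply hv
      funext i
      rw [h, hs0] at e0 e1
      fin_cases i
      · have : v 0 * D = 0 := by rw [e0]; ring
        exact (mul_eq_zero.1 this).resolve_right hDA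
      · have : v 1 * D = 0 := by rw [e1]; ring
        exact (mul_eq_zero.1 this).resolve_right hDA
    · funext i
      rw [h] at e0 e1
      fin_cases i
      · change v 0 = s' / D * algebraMap E A (γ 0)
        rw [div_mul_eq_mul_div, eq_div_iff hDA, e0]; ring
      · change v 1 = s' / D * algebraMap E A (γ 1)
        rw [div_mul_eq_mul_div, eq_div_iff hDA, e1]; ring
  · refine ⟨some (s' / s), s / D, div_ne_zero h hDA, ?_⟩
    funext i
    fin_cases i
    · change v 0 = s / D * (s' / s * algebraMap E A (γ 0) + algebraMap E A (δ 0))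
      field_simp
      linear_combination e0
    · change v 1 = s / D * (s' / s * algebraMap E A (γ 1) + algebraMap E A (δ 1))
      field_simp
      linear_combination e1

theorem nf_step (hN : NF f γ δ F G d) (z : Option A) :
    ∃ t : A, t ≠ 0 ∧ Ph ((algebraMap E A).comp f) F G (vec (E := E) γ δ z) =
      t • vec (E := E) γ δ (ratMap (nfp f γ δ F G) (nfq f γ δ F G) A z) := by
  have hnz := nf_nz (A := A) hN (vec_ne hN.det z)
  cases z with
  | none =>
    obtain ⟨t, ht⟩ := hN.fix
    have key : Ph ((algebraMap E A).comp f) F G (vec (E := E) γ δ (none : Option A)) =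
        algebraMap E A t • vec (E := E) γ δ (none : Option A) := by
      funext i
      have h0 : MvPolynomial.eval₂ f γ F = t * γ 0 := congrFun ht 0
      have h1 : MvPolynomial.eval₂ f γ G = t * γ 1 := congrFun ht 1
      have hF := MvPolynomial.eval₂_comp_left (algebraMap E A) f γ F
      have hG := MvPolynomial.eval₂_comp_left (algebraMap E A) f γ G
      fin_cases i
      · change MvPolynomial.eval₂ ((algebraMap E A).comp f) (algebraMap E A ∘ γ) F = algebraMap E A t * algebraMap E A (γ 0)
        rw [← hF, h0, map_mul]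
      · change MvPolynomial.eval₂ ((algebraMap E A).comp f) (algebraMap E A ∘ γ) G = algebraMap E A t * algebraMap E A (γ 1)
        rw [← hG, h1, map_mul]
    refine ⟨algebraMap E A t, ?_, key⟩
    intro h0
    rw [key, h0, zero_smul] at hnz
    exact hnz rfl
  | some x =>
    have hvec := nf_vec hN x
    have key : Ph ((algebraMap E A).comp f) F G (vec (E := E) γ δ (some x)) =
        fun i => aeval x (nfp f γ δ F G) * algebraMap E A (γ i) +
          aeval x (nfq f γ δ F G) * algebraMap E A (δ i) := hvec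
    by_cases hq : aeval x (nfq f γ δ F G) = 0
    · have hr : ratMap (nfp f γ δ F G) (nfq f γ δ F G) A (some x) = none := if_pos hq
      rw [hr]
      have key2 : Ph ((algebraMap E A).comp f) F G (vec (E := E) γ δ (some x)) =
          aeval x (nfp f γ δ F G) • vec (E := E) γ δ (none : Option A) := by
        rw [key]
        funext i
        change _ = aeval x (nfp f γ δ F G) * algebraMap E A (γ i)
        rw [hq]; ring
      refine ⟨aeval x (nfp f γ δ F G), ?_, key2⟩
      intro h0
      rw [key2, h0, zero_smul] at hnz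
      exact hnz rfl
    · have hr : ratMap (nfp f γ δ F G) (nfq f γ δ F G) A (some x) =
        some (aeval x (nfp f γ δ F G) / aeval x (nfq f γ δ F G)) := if_neg hq
      rw [hr]
      refine ⟨aeval x (nfq f γ δ F G), hq, ?_⟩
      rw [key]
      funext i
      change _ = aeval x (nfq f γ δ F G) * (aeval x (nfp f γ δ F G) / aeval x (nfq f γ δ F G) * algebraMap E A (γ i) +
        algebraMap E A (δ i))
      rw [mul_add, ← mul_assoc, mul_div_cancel₀ _ hq]

theorem nf_iter (hN : NF f γ δ F G d) (n : ℕ) (z : Option A) :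
    ∃ t : A, t ≠ 0 ∧ (Ph ((algebraMap E A).comp f) F G)^[n] (vec (E := E) γ δ z) =
      t • vec (E := E) γ δ ((ratMap (nfp f γ δ F G) (nfq f γ δ F G) A)^[n] z) := by
  induction n with
  | zero => exact ⟨1, one_ne_zero, by rw [one_smul]; rfl⟩
  | succ n ih =>
    obtain ⟨t, ht, h⟩ := ih
    obtain ⟨t', ht', h'⟩ := nf_step hN ((ratMap (nfp f γ δ F G) (nfq f γ δ F G) A)^[n] z)
    refine ⟨t ^ d * t', mul_ne_zero (pow_ne_zero _ ht) ht', ?_⟩
    rw [Function.iterate_succ_apply', Function.iterate_succ_apply', h,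
      ph_smul _ hN.hF hN.hG, h', smul_smul]

private theorem XAc_smul (hN : NF f γ δ F G d) (n : ℕ) (a : A) (v : Fin 2 → A) :
    (Ph ((algebraMap E A).comp f) F G)^[n] (a • v) =
      a ^ (d ^ n) • (Ph ((algebraMap E A).comp f) F G)^[n] v := by
  induction n with
  | zero => rw [pow_zero, pow_one]; rfl
  | succ n ih =>
    rw [Function.iterate_succ_apply', Function.iterate_succ_apply', ih,
      ph_smul _ hN.hF hN.hG, ← pow_mul, ← pow_succ]

theorem nf_eq (hN : NF f γ δ F G d) (n : ℕ) {a a' : A} (ha : a ≠ 0) (ha' : a' ≠ 0)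
    (z z' : Option A) :
    (∃ t : A, (Ph ((algebraMap E A).comp f) F G)^[n] (a • vec (E := E) γ δ z) =
      t • (a' • vec (E := E) γ δ z')) ↔
      (ratMap (nfp f γ δ F G) (nfq f γ δ F G) A)^[n] z = z' := by
  obtain ⟨t0, ht0, h0⟩ := nf_iter hN n z
  have h1 : (Ph ((algebraMap E A).comp f) F G)^[n] (a • vec (E := E) γ δ z) =
      (a ^ (d ^ n) * t0) • vec (E := E) γ δ ((ratMap (nfp f γ δ F G) (nfq f γ δ F G) A)^[n] z) := by
    rw [XAc_smul hN, h0, smul_smul]
  have hne : a ^ (d ^ n) * t0 ≠ 0 := mul_ne_zero (pow_ne_zero _ ha) ht0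
  constructor
  · rintro ⟨t, ht⟩
    rw [h1, smul_smul] at ht
    have htne : t ≠ 0 := by
      intro h
      rw [h, zero_mul, zero_smul] at ht
      rcases smul_eq_zero.1 ht with h | h
      · exact hne h
      · exact vec_ne hN.det _ h
    exact vec_inj hN.det hne (mul_ne_zero htne ha') ht
  · intro h
    refine ⟨a ^ (d ^ n) * t0 / a', ?_⟩
    rw [h1, h, smul_smul, div_mul_cancel₀ _ ha']

end Pool.Agent.H42.ES
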