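/-
ROW XBa. The main theorem in normal form. PROOF. If the orbit of `some b` under `ratMap p q E` is infinite then `Wan p q b b` (rm_wan, RM/FAa, with `c := b`, `A := E`),
`RB p q b` holds and hES gives ESR; e_final (row EFc) gives `K'` (an `E`-algebra). The set in the claim is contained in the set of e_final by EFin_mono (PCM/E4): rm_iter (RM/FAa; `β := b`,
`x := algebraMap E K' b`): `(ratMap p q K')^[n] (some _) = some x` implies `x = (RA p q b K')^[n] (algebraMap E K' b)`. (Compare the proof of `result` in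
Pool/Agent/Results/MP_2af937_nt/RationalMaps.lean.) If the orbit is finite take `K' = E` (`Algebra.id`), rm_fin (RM/FAa) and EFin_fin (PCM/E4).
-/
import Pool.Agent.H42.RM.FAa
import Pool.Agent.H42.ES.EFc

set_option autoImplicit false

namespace Pool.Agent.H42.ES

open Polynomial NumberField IsDedekindDomain Filter Topology
open Pool.Agent.H42.PC (lev PITh EFinSm)
open Pool.Agent.H42.RM

theorem x_main (hPIT : ∀ (E : Type) [Field E] [NumberField E], PITh E)
    {E : Type} [Field E] [NumberField E] {p q : E[X]} {b : E} (hcop : IsCoprime p q)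
    (hd : 2 ≤ p.natDegree) (hq : q.natDegree < p.natDegree) (hcrit : (wr p q).eval b = 0)
    (hper : ∀ n, 1 ≤ n → (ratMap p q E)^[n] (some b) ≠ some b)
    (hES : RB p q b → ESR p q b) :
    ∃ (K' : Type) (_ : Field K') (_ : NumberField K') (_ : Algebra E K'),
      EFinSm K' {v | ∃ n, 1 ≤ n ∧ ∃ x : K',
        (ratMap p q K')^[n] (some (algebraMap E K' b)) = some x ∧
          v.valuation K' (x - algebraMap E K' b) < 1} := by
  by_cases hw : (Set.range fun n : ℕ => (ratMap p q E)^[n] (some b)).Infinite
  · have hB : RB p q b := ⟨hcop, hd, hq, hcrit, (rm_wan b b).1 hw⟩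
    obtain ⟨K', i1, i2, i3, h⟩ := e_final hPIT hB (hES hB)
    refine ⟨K', i1, i2, i3, Pool.Agent.H42.PC.EFin_mono ?_ h⟩
    rintro v ⟨n, hn, x, hx, hv⟩
    rw [rm_iter b n (algebraMap E K' b) x] at hx
    refine ⟨n, hn, ?_⟩
    rw [hx.2]
    exact hv
  · exact ⟨E, inferInstance, inferInstance, Algebra.id E,
      Pool.Agent.H42.PC.EFin_fin (hPIT E) (rm_fin (Set.not_infinite.1 hw) hper)⟩

end Pool.Agent.H42.ES
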