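/-
ROW XBb. Transfer of eventual stability. `E` is a number field over `K` with an embedding `j : E →ₐ[K] AlgebraicClosure K`; `fR : R →+* K` (in the application the inclusion of
the integers), `f = (algebraMap K E).comp fR`. Let `C = AlgebraicClosure K`, `C' = AlgebraicClosure E`, `p = nfp f γ δ F G`, `q = nfq f γ δ F G`. PROOF. Consider `C` as an `E`-algebra through `j`
(`let _ := j.toRingHom.toAlgebra`; IsScalarTower K E C); `C` is algebraically closed and algebraic over `E`, so there is an `E`-algebra isomorphism `e : C' ≃ₐ[E] C`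
(IsAlgClosure.equiv E C' C, with `IsAlgClosure E C`). facs_eq (RM/LOb, uses hB): the set of monic irreducible factors of `RP p q b n` is
`{minpoly E x | x : C', (RA p q b C')^[n] x = algebraMap E C' b}` (look at its exact form). Let `B` be as in hES and let `G0 = Gal(C/E)` inside `Gal(C/K)`: the subgroup `H` of the `g : C ≃ₐ[K] C` with
`g (j y) = j y` for all `y : E`; it has index at most `finrank K E` (the left cosets `g H` correspond to the embeddings `g ∘ j : E →ₐ[K] C`, of which there are `finrank K E`: AlgHom.card or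
`Fintype.card (E →ₐ[K] C) ≤ finrank K E`). Claim: the number of polynomials is `≤ B * card (E →ₐ[K] C)`. For `x : C'` with `F^[n] x = b` let `y = e x`; `(ratMap p q C)^[n] (some y) = some (j b)` (rm_iter of
RM/FAa, reach_reg of RM/EAc), so by nf_eq (row XAc; `A = C`, and hbeta: `β = s • vec (some (j b))`) the vector `v = vec (some y)` satisfies `Ph^[n] v = t • β`, hence
`v = a • g(r)` with `r ∈ R`, `g : C ≃ₐ[K] C`. Map the polynomial `minpoly E x` to the pair `(r, g⁻¹ ∘ j : E →ₐ[K] C)`. This is injective: if `v = a • g(r)`, `v' = a' • g'(r)` and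
`g⁻¹ ∘ j = g'⁻¹ ∘ j` then `h = g' ∘ g⁻¹` fixes `j E` pointwise (`g' (g⁻¹ (j y)) = g' (g'⁻¹ (j y)) = j y`), `h(v) = h(a) • g'(r)` is a nonzero multiple of `v'` (`a, a' ≠ 0` as `v, v' ≠ 0`, vec_ne), and
`h(vec (some y)) = vec (some (h y))` (the coordinates of `γ, δ` are in `E`), so `h y = y'` by vec_inj and `minpoly E x = minpoly E y = minpoly E y' = minpoly E x'` (minpoly.algEquiv_eq
for `e` and for `h` as an `E`-algebra automorphism of `C`).
-/
import Pool.Agent.H42.RM.LOb
import Pool.Agent.H42.ES.XAc

set_option autoImplicit false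

namespace Pool.Agent.H42.ES

open Polynomial NumberField IsDedekindDomain
open Pool.Agent.H42.RM

/-- The number of Galois orbits on the points `v` with `(F, G)^n (v) = β` in the projective line is bounded. -/
def EvSt {R K : Type} [CommRing R] [Field K] (fR : R →+* K) (F G : MvPolynomial (Fin 2) R)
    (β : Fin 2 → AlgebraicClosure K) : Prop :=
  ∃ B : ℕ, ∀ n : ℕ, ∃ S : Finset (Fin 2 → AlgebraicClosure K), S.card ≤ B ∧
    ∀ v : Fin 2 → AlgebraicClosure K, v ≠ 0 →
      (∃ t : AlgebraicClosure K,
        (Ph ((algebraMap K (AlgebraicClosure K)).comp fR) F G)^[n] v = t • β) →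
      ∃ r ∈ S, ∃ (g : AlgebraicClosure K ≃ₐ[K] AlgebraicClosure K) (a : AlgebraicClosure K),
        v = a • fun i => g (r i)

private theorem XBb_aux {R K E : Type} [CommRing R] [Field K] [NumberField K] [Field E]
    [NumberField E] [Algebra K E] [Algebra E (AlgebraicClosure K)]
    [IsScalarTower K E (AlgebraicClosure K)] {fR : R →+* K}
    {γ δ : Fin 2 → E} {F G : MvPolynomial (Fin 2) R} {d : ℕ}
    (hN : NF ((algebraMap K E).comp fR) γ δ F G d) {b : E}
    (hB : RB (nfp ((algebraMap K E).comp fR) γ δ F G) (nfq ((algebraMap K E).comp fR) γ δ F G) b)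
    {β : Fin 2 → AlgebraicClosure K} {s : AlgebraicClosure K} (hs : s ≠ 0)
    (hβ : β = s • vec (A := AlgebraicClosure K) γ δ (some (algebraMap E (AlgebraicClosure K) b)))
    (hES : EvSt fR F G β) :
    ESR (nfp ((algebraMap K E).comp fR) γ δ F G) (nfq ((algebraMap K E).comp fR) γ δ F G) b := by
  obtain ⟨p, hp⟩ : ∃ p, p = nfp ((algebraMap K E).comp fR) γ δ F G := ⟨_, rfl⟩
  obtain ⟨q, hq⟩ : ∃ q, q = nfq ((algebraMap K E).comp fR) γ δ F G := ⟨_, rfl⟩
  rw [← hp, ← hq] at hB ⊢
  haveI : Algebra.IsAlgebraic E (AlgebraicClosure K) := Algebra.IsAlgebraic.tower_top (K := K) E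
  haveI : IsAlgClosure E (AlgebraicClosure K) := ⟨inferInstance, inferInstance⟩
  haveI : FiniteDimensional K E := Module.Finite.of_restrictScalars_finite ℚ K E
  obtain ⟨e, -⟩ : ∃ e : AlgebraicClosure E ≃ₐ[E] AlgebraicClosure K, e = e :=
    ⟨IsAlgClosure.equiv E (AlgebraicClosure E) (AlgebraicClosure K), rfl⟩
  have hcomp : (algebraMap E (AlgebraicClosure K)).comp ((algebraMap K E).comp fR) =
      (algebraMap K (AlgebraicClosure K)).comp fR := by
    rw [← RingHom.comp_assoc, ← IsScalarTower.algebraMap_eq K E (AlgebraicClosure K)]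
  obtain ⟨B, hBd⟩ := hES
  refine ⟨B * Nat.card (E →ₐ[K] AlgebraicClosure K), fun n => ?_⟩
  obtain ⟨S, hS, hSv⟩ := hBd n
  have hkey : ∀ x : AlgebraicClosure E, (RA p q b (AlgebraicClosure E))^[n] x =
      algebraMap E (AlgebraicClosure E) b →
      ∃ r ∈ S, ∃ (g : AlgebraicClosure K ≃ₐ[K] AlgebraicClosure K) (a : AlgebraicClosure K),
        vec (A := AlgebraicClosure K) γ δ (some (e x)) = a • fun i => g (r i) := by
    intro x hx
    refine hSv _ (vec_ne hN.det _) ?_
    have h1 : (RA p q b (AlgebraicClosure K))^[n] (e x) =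
        algebraMap E (AlgebraicClosure K) b := by
      have h2 := ra_iter (p := p) (q := q) (β := b)
        (e : AlgebraicClosure E →ₐ[E] AlgebraicClosure K) x n
      rw [hx] at h2
      rw [AlgHom.commutes] at h2
      exact h2.symm
    have h3 : (ratMap p q (AlgebraicClosure K))^[n] (some (e x)) =
        some (algebraMap E (AlgebraicClosure K) b) :=
      (rm_iter b n _ _).2 ⟨fun i _ => reach_reg hB h1 i, h1⟩
    have h4 := (nf_eq (A := AlgebraicClosure K) hN n (one_ne_zero) hs (some (e x))
      (some (algebraMap E (AlgebraicClosure K) b))).2 (by rw [← hp, ← hq]; exact h3)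
    rw [hcomp, one_smul, ← hβ] at h4
    exact h4
  rw [facs_eq hB n]
  choose! r hr g a hrg using hkey
  have hch : ∀ f : E[X], f ∈ minpoly E '' {x : AlgebraicClosure E |
      (RA p q b (AlgebraicClosure E))^[n] x = algebraMap E (AlgebraicClosure E) b} →
      ∃ x : AlgebraicClosure E, (RA p q b (AlgebraicClosure E))^[n] x =
        algebraMap E (AlgebraicClosure E) b ∧ minpoly E x = f := by
    rintro f ⟨x, hx, hf⟩
    exact ⟨x, hx, hf⟩
  choose! X hX hXf using hch
  have hfin : ((S : Set (Fin 2 → AlgebraicClosure K)) ×ˢ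
      (Set.univ : Set (E →ₐ[K] AlgebraicClosure K))).Finite :=
    S.finite_toSet.prod Set.finite_univ
  have hcard : ((S : Set (Fin 2 → AlgebraicClosure K)) ×ˢ
      (Set.univ : Set (E →ₐ[K] AlgebraicClosure K))).ncard ≤
      B * Nat.card (E →ₐ[K] AlgebraicClosure K) := by
    rw [Set.ncard_prod, Set.ncard_coe_finset, Set.ncard_univ]
    exact Nat.mul_le_mul_right _ hS
  refine le_trans (Set.ncard_le_ncard_of_injOn (fun f => (r (X f),
    ((g (X f)).symm : AlgebraicClosure K →ₐ[K] AlgebraicClosure K).comp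
      (IsScalarTower.toAlgHom K E (AlgebraicClosure K)))) ?_ ?_ hfin) hcard
  · intro f hf
    exact ⟨hr _ (hX f hf), Set.mem_univ _⟩
  · intro f hf f' hf' heq
    have he1 : r (X f) = r (X f') := congrArg Prod.fst heq
    have he2 : ((g (X f)).symm : AlgebraicClosure K →ₐ[K] AlgebraicClosure K).comp
        (IsScalarTower.toAlgHom K E (AlgebraicClosure K)) =
        ((g (X f')).symm : AlgebraicClosure K →ₐ[K] AlgebraicClosure K).comp
        (IsScalarTower.toAlgHom K E (AlgebraicClosure K)) := congrArg Prod.snd heq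
    have hv := hrg _ (hX f hf)
    have hv' := hrg _ (hX f' hf')
    have ha : a (X f) ≠ 0 := by
      intro h0
      rw [h0, zero_smul] at hv
      exact vec_ne hN.det _ hv
    have ha' : a (X f') ≠ 0 := by
      intro h0
      rw [h0, zero_smul] at hv'
      exact vec_ne hN.det _ hv'
    obtain ⟨h, hh⟩ : ∃ h : AlgebraicClosure K ≃ₐ[K] AlgebraicClosure K,
        ∀ z, h z = g (X f') ((g (X f)).symm z) :=
      ⟨(g (X f)).symm.trans (g (X f')), fun z => rfl⟩
    have hfix : ∀ z : E, h (algebraMap E (AlgebraicClosure K) z) =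
        algebraMap E (AlgebraicClosure K) z := by
      intro z
      have h1 : (g (X f)).symm (algebraMap E (AlgebraicClosure K) z) =
          (g (X f')).symm (algebraMap E (AlgebraicClosure K) z) := DFunLike.congr_fun he2 z
      rw [hh, h1, AlgEquiv.apply_symm_apply]
    have hvec : vec (A := AlgebraicClosure K) γ δ (some (h (e (X f)))) =
        h (a (X f)) • fun i => g (X f') (r (X f') i) := by
      funext i
      have h1 := congrArg h (congrFun hv i)
      change h (e (X f) * algebraMap E (AlgebraicClosure K) (γ i) +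
        algebraMap E (AlgebraicClosure K) (δ i)) = h (a (X f) * g (X f) (r (X f) i)) at h1
      rw [map_add, map_mul, map_mul, hfix, hfix, hh (g (X f) (r (X f) i)),
        AlgEquiv.symm_apply_apply, he1] at h1
      exact h1
    have hha : h (a (X f)) ≠ 0 := fun h0 => ha ((map_eq_zero_iff h h.injective).1 h0)
    have heqv : a (X f') • vec (A := AlgebraicClosure K) γ δ (some (h (e (X f)))) =
        h (a (X f)) • vec (A := AlgebraicClosure K) γ δ (some (e (X f'))) := by
      rw [hvec, hv', smul_smul, smul_smul, mul_comm]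
    have h5 : h (e (X f)) = e (X f') := Option.some_inj.1 (vec_inj hN.det ha' hha heqv)
    obtain ⟨h', hh'⟩ : ∃ h' : AlgebraicClosure K ≃ₐ[E] AlgebraicClosure K,
        ∀ z, h' z = h z := ⟨AlgEquiv.ofRingEquiv (f := h.toRingEquiv) hfix, fun z => rfl⟩
    have h6 : minpoly E (e (X f)) = minpoly E (e (X f')) := by
      rw [← h5, ← hh']
      exact (minpoly.algEquiv_eq h' _).symm
    rw [minpoly.algEquiv_eq, minpoly.algEquiv_eq, hXf f hf, hXf f' hf'] at h6
    exact h6

theorem es_transfer {R K E : Type} [CommRing R] [Field K] [NumberField K] [Field E]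
    [NumberField E] [Algebra K E] (j : E →ₐ[K] AlgebraicClosure K) {fR : R →+* K}
    {γ δ : Fin 2 → E} {F G : MvPolynomial (Fin 2) R} {d : ℕ}
    (hN : NF ((algebraMap K E).comp fR) γ δ F G d) {b : E}
    (hB : RB (nfp ((algebraMap K E).comp fR) γ δ F G) (nfq ((algebraMap K E).comp fR) γ δ F G) b)
    {β : Fin 2 → AlgebraicClosure K} {s : AlgebraicClosure K} (hs : s ≠ 0)
    (hβ : β = s • fun i => j (b * γ i + δ i)) (hES : EvSt fR F G β) :
    ESR (nfp ((algebraMap K E).comp fR) γ δ F G) (nfq ((algebraMap K E).comp fR) γ δ F G) b := by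
  letI : Algebra E (AlgebraicClosure K) := j.toRingHom.toAlgebra
  haveI : IsScalarTower K E (AlgebraicClosure K) :=
    IsScalarTower.of_algebraMap_eq fun x => (j.commutes x).symm
  refine XBb_aux hN hB hs ?_ hES
  rw [hβ]
  congr 1
  funext i
  change j (b * γ i + δ i) = j b * j (γ i) + j (δ i)
  rw [map_add, map_mul]

end Pool.Agent.H42.ES
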