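/-
ROW XBc. Good reduction. PROOFS.
* ph_map: induction on `n` (iterate_succ_apply'); one step: `g (eval₂ f v F) = eval₂ (g.comp f) (g ∘ v) F` (MvPolynomial.hom_eval₂ / eval₂_comp_left), componentwise (Fin.forall_fin_two, Matrix.cons_val_zero ...).
* red_nz: if `Ph f F G w = 0` then every element of the ideal `(map f F, map f G)` vanishes at `w` (Ideal.mem_span_pair; `MvPolynomial.eval w (map f F) = eval₂ f w F`: MvPolynomial.eval_map),
  so `w i ^ N = 0` and `w i = 0` (pow_eq_zero_iff needs `N ≠ 0`; for `N = 0` it says `1 = 0`, also impossible: use `pow_eq_zero_iff`-free version `eq_zero_of_pow_eq_zero` / `pow_ne_zero`).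
* red_lift: let `m = Ideal.Quotient.mk v.asIdeal` (the ideal is prime: v.isPrime; the quotient is a domain), `Φ' = Ph (m.comp σ) F G`. By red_nz and induction `Φ'^[n] (m ∘ c) ≠ 0`, so `t ≠ 0`. Let `τ` be a lift of `t`
  (Ideal.Quotient.mk_surjective); `τ ∉ v.asIdeal`, so `v.valuation K' τ = 1` (HeightOneSpectrum.valuation_le_one and valuation_lt_one_iff_mem (or valuation_lt_one_iff_dvd)). By ph_map (`g = m`)
  `m ((Ph σ F G)^[n] c i) = m (τ * c i)`, so `(Ph σ F G)^[n] c i - τ * c i ∈ v.asIdeal` (Ideal.Quotient.eq) and its valuation is `< 1`. By ph_map (`g = algebraMap (𝓞 K') K'`) the image of `(Ph σ F G)^[n] c i` in `K'` is the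
  `i`-th component of `(Ph ((algebraMap (𝓞 K') K').comp σ) F G)^[n] (c : Fin 2 → K')`.
-/
import Pool.Agent.H42.ES.XAa

set_option autoImplicit false

namespace Pool.Agent.H42.ES

open Polynomial NumberField IsDedekindDomain

theorem ph_map {R A B : Type} [CommRing R] [CommRing A] [CommRing B] (f : R →+* A) (g : A →+* B)
    (F G : MvPolynomial (Fin 2) R) (n : ℕ) (v : Fin 2 → A) :
    (Ph (g.comp f) F G)^[n] (fun i => g (v i)) = fun i => g ((Ph f F G)^[n] v i) := by
  have one : ∀ u : Fin 2 → A, Ph (g.comp f) F G (fun i => g (u i)) =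
      fun i => g (Ph f F G u i) := by
    intro u
    have hF : ∀ P : MvPolynomial (Fin 2) R,
        MvPolynomial.eval₂ (g.comp f) (fun i => g (u i)) P = g (MvPolynomial.eval₂ f u P) := by
      intro P
      rw [MvPolynomial.eval₂_comp_left g f u P]
      rfl
    funext i
    fin_cases i
    · exact hF F
    · exact hF G
  induction n with
  | zero => rfl
  | succ n ih =>
    rw [Function.iterate_succ_apply', ih, one, Function.iterate_succ_apply']

theorem red_nz {R A : Type} [CommRing R] [CommRing A] [IsDomain A] (f : R →+* A)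
    {F G : MvPolynomial (Fin 2) R}
    (hg : ∃ N : ℕ, (MvPolynomial.X (0 : Fin 2) : MvPolynomial (Fin 2) A) ^ N ∈
        Ideal.span {MvPolynomial.map f F, MvPolynomial.map f G} ∧
      (MvPolynomial.X (1 : Fin 2) : MvPolynomial (Fin 2) A) ^ N ∈
        Ideal.span {MvPolynomial.map f F, MvPolynomial.map f G})
    {w : Fin 2 → A} (hw : w ≠ 0) : Ph f F G w ≠ 0 := by
  intro h0
  obtain ⟨N, h1, h2⟩ := hg
  have hF : MvPolynomial.eval w (MvPolynomial.map f F) = 0 := by
    rw [MvPolynomial.eval_map]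
    exact congrFun h0 0
  have hG : MvPolynomial.eval w (MvPolynomial.map f G) = 0 := by
    rw [MvPolynomial.eval_map]
    exact congrFun h0 1
  have key : ∀ i : Fin 2, (MvPolynomial.X i : MvPolynomial (Fin 2) A) ^ N ∈
      Ideal.span {MvPolynomial.map f F, MvPolynomial.map f G} → w i = 0 := by
    intro i hi
    obtain ⟨a, b, hab⟩ := Ideal.mem_span_pair.1 hi
    have h3 := congrArg (MvPolynomial.eval w) hab
    rw [map_add, map_mul, map_mul, hF, hG, mul_zero, mul_zero, add_zero, map_pow,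
      MvPolynomial.eval_X] at h3
    exact eq_zero_of_pow_eq_zero h3.symm
  apply hw
  funext i
  fin_cases i
  · exact key 0 h1
  · exact key 1 h2

theorem red_lift {R K' : Type} [CommRing R] [Field K'] [NumberField K'] (σ : R →+* 𝓞 K')
    (v : HeightOneSpectrum (𝓞 K')) {F G : MvPolynomial (Fin 2) R} {c : Fin 2 → 𝓞 K'}
    (hc : ∃ i : Fin 2, Ideal.Quotient.mk v.asIdeal (c i) ≠ 0)
    (hg : ∃ N : ℕ,
      (MvPolynomial.X (0 : Fin 2) : MvPolynomial (Fin 2) (𝓞 K' ⧸ v.asIdeal)) ^ N ∈
        Ideal.span {MvPolynomial.map ((Ideal.Quotient.mk v.asIdeal).comp σ) F,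
          MvPolynomial.map ((Ideal.Quotient.mk v.asIdeal).comp σ) G} ∧
      (MvPolynomial.X (1 : Fin 2) : MvPolynomial (Fin 2) (𝓞 K' ⧸ v.asIdeal)) ^ N ∈
        Ideal.span {MvPolynomial.map ((Ideal.Quotient.mk v.asIdeal).comp σ) F,
          MvPolynomial.map ((Ideal.Quotient.mk v.asIdeal).comp σ) G})
    {n : ℕ} {t : 𝓞 K' ⧸ v.asIdeal}
    (ht : (Ph ((Ideal.Quotient.mk v.asIdeal).comp σ) F G)^[n]
      (fun i => Ideal.Quotient.mk v.asIdeal (c i)) =
        t • fun i => Ideal.Quotient.mk v.asIdeal (c i)) :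
    ∃ τ : 𝓞 K', v.valuation K' (algebraMap (𝓞 K') K' τ) = 1 ∧ ∀ i : Fin 2,
      v.valuation K' ((Ph ((algebraMap (𝓞 K') K').comp σ) F G)^[n]
        (fun i => algebraMap (𝓞 K') K' (c i)) i -
          algebraMap (𝓞 K') K' τ * algebraMap (𝓞 K') K' (c i)) < 1 := by
  set m := Ideal.Quotient.mk v.asIdeal with hm
  haveI hprime : v.asIdeal.IsPrime := v.isPrime
  haveI : IsDomain (𝓞 K' ⧸ v.asIdeal) := Ideal.Quotient.isDomain v.asIdeal
  have hne : ∀ n : ℕ, (Ph (m.comp σ) F G)^[n] (fun i => m (c i)) ≠ 0 := by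
    intro n
    induction n with
    | zero =>
      intro h
      obtain ⟨i, hi⟩ := hc
      exact hi (congrFun h i)
    | succ n ih =>
      rw [Function.iterate_succ_apply']
      exact red_nz (m.comp σ) hg ih
  have ht0 : t ≠ 0 := by
    rintro rfl
    apply hne n
    rw [ht, zero_smul]
  obtain ⟨τ, hτ⟩ := Ideal.Quotient.mk_surjective t
  have hτm : τ ∉ v.asIdeal := by
    intro h
    apply ht0
    rw [← hτ]
    exact Ideal.Quotient.eq_zero_iff_mem.2 h
  refine ⟨τ, ?_, ?_⟩
  · refine le_antisymm (v.valuation_le_one τ) ?_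
    by_contra hlt
    exact hτm ((v.valuation_lt_one_iff_mem τ).1 (not_le.1 hlt))
  · intro i
    have h1 := ph_map σ m F G n c
    have h2 : m ((Ph σ F G)^[n] c i) = m (τ * c i) := by
      have h3 := congrFun (h1.symm.trans ht) i
      rw [map_mul, hτ]
      exact h3
    have h4 : (Ph σ F G)^[n] c i - τ * c i ∈ v.asIdeal := Ideal.Quotient.eq.1 h2
    have h5 := (v.valuation_lt_one_iff_mem (K := K') _).2 h4
    have h6 := congrFun (ph_map σ (algebraMap (𝓞 K') K') F G n c) i
    rw [h6, ← map_mul, ← map_sub]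
    exact h5

end Pool.Agent.H42.ES
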