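/-
ROW XBd. Linear algebra with a valuation. Let `D = γ 0 * δ 1 - γ 1 * δ 0` (value `1`) and `ω w = γ 0 * w 1 - γ 1 * w 0`, `ω' w = w 0 * δ 1 - w 1 * δ 0`. With `e i = w i - τ * c i` (value `< 1`) we have
`v (ω e) < 1`, `v (ω' e) < 1` (the `γ i, δ i` have value `≤ 1`; Valuation.map_sub_lt or map_add_lt, mul_lt_one_of... ), `ω c = lam * D`, `ω' c = lam * b * D` (ring, after `hc`).
* First part: `w = κ γ` has `ω w = 0`, so `v (τ * lam * D) = v (ω e) < 1`, but it is `1`.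
* Second part: `ω w = κ * D`, `ω' w = κ * x * D`. So `v (κ * D - τ * lam * D) < 1` and `v (τ * lam * D) = 1`, hence `v κ = 1` (Valuation.map_sub_eq_of_lt_right / map_add_eq_of_lt_right ...) and
  `v (κ - τ * lam) < 1` (divide by `D`). `v (κ * x * D - τ * lam * b * D) < 1` gives `v (κ * x - τ * lam * b) < 1`. Finally `κ * (x - b) = (κ * x - τ * lam * b) - (κ - τ * lam) * b` has value `< 1` and `v κ = 1`.
-/
import Mathlib

set_option autoImplicit false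

namespace Pool.Agent.H42.ES

theorem lin_w {K Γ : Type} [Field K] [LinearOrderedCommGroupWithZero Γ] (v : Valuation K Γ)
    {γ δ w c : Fin 2 → K} {lam b τ : K} (hγ : ∀ i, v (γ i) ≤ 1) (hδ : ∀ i, v (δ i) ≤ 1)
    (hD : v (γ 0 * δ 1 - γ 1 * δ 0) = 1) (hl : v lam = 1) (hb : v b ≤ 1) (hτ : v τ = 1)
    (hc : ∀ i, c i = lam * (b * γ i + δ i)) (hw : ∀ i, v (w i - τ * c i) < 1) :
    (∀ κ : K, ¬ ∀ i, w i = κ * γ i) ∧
      ∀ κ x : K, (∀ i, w i = κ * (x * γ i + δ i)) → v (x - b) < 1 := by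
  have hml : ∀ a e : K, v a ≤ 1 → v e < 1 → v (a * e) < 1 := by
    intro a e ha he
    rw [map_mul]
    calc v a * v e ≤ 1 * v e := mul_le_mul_left ha _
      _ = v e := one_mul _
      _ < 1 := he
  have hω : v (γ 0 * (w 1 - τ * c 1) - γ 1 * (w 0 - τ * c 0)) < 1 :=
    Valuation.map_sub_lt v (hml _ _ (hγ 0) (hw 1)) (hml _ _ (hγ 1) (hw 0))
  have hω' : v (δ 1 * (w 0 - τ * c 0) - δ 0 * (w 1 - τ * c 1)) < 1 :=
    Valuation.map_sub_lt v (hml _ _ (hδ 1) (hw 0)) (hml _ _ (hδ 0) (hw 1))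
  have hτl : v (τ * lam) = 1 := by
    rw [map_mul, hτ, hl, mul_one]
  constructor
  · rintro κ hκ
    have e1 : γ 0 * (w 1 - τ * c 1) - γ 1 * (w 0 - τ * c 0) =
        -(τ * lam * (γ 0 * δ 1 - γ 1 * δ 0)) := by
      rw [hκ 0, hκ 1, hc 0, hc 1]
      ring
    rw [e1, Valuation.map_neg, map_mul, hD, hτl, mul_one] at hω
    exact lt_irrefl _ hω
  · intro κ x hκ
    have e1 : γ 0 * (w 1 - τ * c 1) - γ 1 * (w 0 - τ * c 0) =
        (κ - τ * lam) * (γ 0 * δ 1 - γ 1 * δ 0) := by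
      rw [hκ 0, hκ 1, hc 0, hc 1]
      ring
    have e2 : δ 1 * (w 0 - τ * c 0) - δ 0 * (w 1 - τ * c 1) =
        (κ * x - τ * lam * b) * (γ 0 * δ 1 - γ 1 * δ 0) := by
      rw [hκ 0, hκ 1, hc 0, hc 1]
      ring
    rw [e1, map_mul, hD, mul_one] at hω
    rw [e2, map_mul, hD, mul_one] at hω'
    have hκ1 : v κ = 1 := by
      have e3 : κ = (κ - τ * lam) + τ * lam := by ring
      rw [e3, Valuation.map_add_eq_of_lt_right v (by rw [hτl]; exact hω), hτl]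
    have e4 : κ * (x - b) = (κ * x - τ * lam * b) - b * (κ - τ * lam) := by ring
    have h5 : v (κ * (x - b)) < 1 := by
      rw [e4]
      exact Valuation.map_sub_lt v hω' (hml _ _ hb hω)
    rw [map_mul, hκ1, one_mul] at h5
    exact h5

end Pool.Agent.H42.ES
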