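/-
ROW XBe. The primes in the problem and the primes in the normal form. PROOF of primes_fin. Let `a = algebraMap E K'` and
`S = {a (γ 0), a (γ 1), a (δ 0), a (δ 1), a (γ 0 * δ 1 - γ 1 * δ 0), lam, a b}` (a finite subset of `K'`). By bad_K (RM/ECa) the set of `v` for which some nonzero `z ∈ S` has `v z ≠ 1` is finite; it contains the set of the
claim: let `v` be outside. Then all `z ∈ S` have `v z ≤ 1`, and `v lam = 1`, `v D = 1` (`lam ≠ 0`, hN.det). Suppose `PerMod σ F G c v.asIdeal`; red_lift (row XBc) gives `τ`, and with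
`w = (Ph ((algebraMap (𝓞 K') K').comp σ) F G)^[n] (c : Fin 2 → K')`: `v (w i - τ * c i) < 1`. Now `(algebraMap (𝓞 K') K').comp σ = a.comp f` (RingHom.ext hσ), `c = lam • vec (some (a b))` (hc; vec of row XAc), so
`w = lam^(d^n) • (Ph (a.comp f) F G)^[n] (vec (some (a b)))` (induction on `n` with ph_smul, row XAa) `= κ • vec z` with `z = (ratMap _ _ K')^[n] (some (a b))` (nf_iter, row XAc). lin_w (row XBd) excludes `z = none` and for
`z = some x` gives `v (x - a b) < 1`.
-/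
import Pool.Agent.H42.RM.ECa
import Pool.Agent.H42.ES.XAc
import Pool.Agent.H42.ES.XBc
import Pool.Agent.H42.ES.XBd

set_option autoImplicit false

namespace Pool.Agent.H42.ES

open Polynomial NumberField IsDedekindDomain
open Pool.Agent.H42.RM (ratMap bad_K)

/-- `c` is a point modulo the prime `P`, `(F, G)` has good reduction modulo `P` and `c` is periodic
modulo `P`. -/
def PerMod {R O : Type} [CommRing R] [CommRing O] (σ : R →+* O) (F G : MvPolynomial (Fin 2) R)
    (c : Fin 2 → O) (P : Ideal O) : Prop :=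
  (∃ i : Fin 2, Ideal.Quotient.mk P (c i) ≠ 0) ∧
  (∃ N : ℕ,
    (MvPolynomial.X (0 : Fin 2) : MvPolynomial (Fin 2) (O ⧸ P)) ^ N ∈
      Ideal.span {MvPolynomial.map ((Ideal.Quotient.mk P).comp σ) F,
        MvPolynomial.map ((Ideal.Quotient.mk P).comp σ) G} ∧
    (MvPolynomial.X (1 : Fin 2) : MvPolynomial (Fin 2) (O ⧸ P)) ^ N ∈
      Ideal.span {MvPolynomial.map ((Ideal.Quotient.mk P).comp σ) F,
        MvPolynomial.map ((Ideal.Quotient.mk P).comp σ) G}) ∧
  ∃ n : ℕ, 1 ≤ n ∧ ∃ t : O ⧸ P,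
    (Ph ((Ideal.Quotient.mk P).comp σ) F G)^[n] (fun i => Ideal.Quotient.mk P (c i)) =
      t • fun i => Ideal.Quotient.mk P (c i)

private theorem XBe_smul {R A : Type} [CommRing R] [CommRing A] (g : R →+* A)
    {F G : MvPolynomial (Fin 2) R} {d : ℕ} (hF : F.IsHomogeneous d) (hG : G.IsHomogeneous d)
    (n : ℕ) (a : A) (v : Fin 2 → A) :
    (Ph g F G)^[n] (a • v) = a ^ (d ^ n) • (Ph g F G)^[n] v := by
  induction n with
  | zero =>
    rw [pow_zero, pow_one]
    rfl
  | succ n ih =>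
    rw [Function.iterate_succ_apply', Function.iterate_succ_apply', ih,
      ph_smul _ hF hG, ← pow_mul, ← pow_succ]

theorem primes_fin {R E K' : Type} [CommRing R] [Field E] [Field K'] [NumberField K']
    [Algebra E K'] {f : R →+* E} {γ δ : Fin 2 → E} {F G : MvPolynomial (Fin 2) R} {d : ℕ}
    (hN : NF f γ δ F G d) {b : E} {c : Fin 2 → 𝓞 K'} {lam : K'} (hl : lam ≠ 0)
    (hc : ∀ i, algebraMap (𝓞 K') K' (c i) =
      lam * (algebraMap E K' b * algebraMap E K' (γ i) + algebraMap E K' (δ i)))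
    {σ : R →+* 𝓞 K'} (hσ : ∀ x, algebraMap (𝓞 K') K' (σ x) = algebraMap E K' (f x)) :
    {v : HeightOneSpectrum (𝓞 K') | PerMod σ F G c v.asIdeal ∧
      ¬ ∃ n, 1 ≤ n ∧ ∃ x : K',
        (ratMap (nfp f γ δ F G) (nfq f γ δ F G) K')^[n] (some (algebraMap E K' b)) = some x ∧
          v.valuation K' (x - algebraMap E K' b) < 1}.Finite := by
  obtain ⟨S, hSdef⟩ : ∃ S : Set K', S = (Set.range fun i => algebraMap E K' (γ i)) ∪
      (Set.range fun i => algebraMap E K' (δ i)) ∪
      {algebraMap E K' (γ 0) * algebraMap E K' (δ 1) -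
        algebraMap E K' (γ 1) * algebraMap E K' (δ 0)} ∪ {lam} ∪ {algebraMap E K' b} := ⟨_, rfl⟩
  have hS : S.Finite := by
    rw [hSdef]
    exact ((((Set.finite_range _).union (Set.finite_range _)).union
      (Set.toFinite _)).union (Set.toFinite _)).union (Set.toFinite _)
  refine (bad_K (K := K') hS).subset ?_
  rintro v ⟨hP, hnot⟩
  by_contra hv
  have hV1 : ∀ z ∈ S, z ≠ 0 → v.valuation K' z = 1 := by
    intro z hz hz0
    by_contra hcon
    exact hv ⟨z, hz, hz0, hcon⟩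
  have hV2 : ∀ z ∈ S, v.valuation K' z ≤ 1 := by
    intro z hz
    by_cases h0 : z = 0
    · rw [h0, map_zero]
      exact zero_le_one
    · exact (hV1 z hz h0).le
  obtain ⟨hc0, hg, n, hn, t, ht⟩ := hP
  obtain ⟨τ, hτ1, hτ2⟩ := red_lift σ v hc0 hg ht
  have hcomp : (algebraMap (𝓞 K') K').comp σ = (algebraMap E K').comp f := RingHom.ext hσ
  have hcv : (fun i => algebraMap (𝓞 K') K' (c i)) =
      lam • vec (E := E) γ δ (some (algebraMap E K' b)) := by
    funext i
    exact hc i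
  obtain ⟨t1, ht1, h1⟩ := nf_iter hN n (some (algebraMap E K' b))
  obtain ⟨w, hwdef⟩ : ∃ w : Fin 2 → K', w = (Ph ((algebraMap (𝓞 K') K').comp σ) F G)^[n]
      (fun i => algebraMap (𝓞 K') K' (c i)) := ⟨_, rfl⟩
  have hw : w = (lam ^ (d ^ n) * t1) • vec (E := E) γ δ
      ((ratMap (nfp f γ δ F G) (nfq f γ δ F G) K')^[n] (some (algebraMap E K' b))) := by
    rw [hwdef, hcomp, hcv, XBe_smul _ hN.hF hN.hG, h1, smul_smul]
  rw [← hwdef] at hτ2
  have hdet : algebraMap E K' (γ 0) * algebraMap E K' (δ 1) -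
      algebraMap E K' (γ 1) * algebraMap E K' (δ 0) ≠ 0 := by
    rw [← map_mul, ← map_mul, ← map_sub]
    exact (_root_.map_ne_zero _).2 hN.det
  obtain ⟨l1, l2⟩ := lin_w (v.valuation K') (γ := fun i => algebraMap E K' (γ i))
    (δ := fun i => algebraMap E K' (δ i)) (w := w)
    (c := fun i => algebraMap (𝓞 K') K' (c i)) (lam := lam) (b := algebraMap E K' b)
    (τ := algebraMap (𝓞 K') K' τ)
    (fun i => hV2 _ (by
      rw [hSdef]
      exact Or.inl (Or.inl (Or.inl (Or.inl ⟨i, rfl⟩)))))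
    (fun i => hV2 _ (by
      rw [hSdef]
      exact Or.inl (Or.inl (Or.inl (Or.inr ⟨i, rfl⟩)))))
    (hV1 _ (by
      rw [hSdef]
      exact Or.inl (Or.inl (Or.inr rfl))) hdet)
    (hV1 _ (by
      rw [hSdef]
      exact Or.inl (Or.inr rfl)) hl)
    (hV2 _ (by
      rw [hSdef]
      exact Or.inr rfl)) hτ1 hc hτ2
  apply hnot
  refine ⟨n, hn, ?_⟩
  cases hz : (ratMap (nfp f γ δ F G) (nfq f γ δ F G) K')^[n] (some (algebraMap E K' b)) with
  | none =>
    exfalso
    apply l1 (lam ^ (d ^ n) * t1)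
    intro i
    rw [hw, hz]
    rfl
  | some x =>
    refine ⟨x, rfl, l2 (lam ^ (d ^ n) * t1) x ?_⟩
    intro i
    rw [hw, hz]
    rfl

end Pool.Agent.H42.ES
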