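/-
ROW XCa. Fixed points. `A` is algebraically closed. PROOFS.
* par_iff: (→) ring. (←) if `u 0 ≠ 0` take `t = w 0 / u 0`, otherwise `u 1 ≠ 0`, `t = w 1 / u 1` (field_simp; `u 0 * w 1 = u 1 * w 0` gives `w 0 = 0` in that case).
* fix_ex: let `H = X 1 * F - X 0 * G`. If `eval₂ f (1,0) H = 0`, i.e. `eval₂ f ![1, 0] G = 0`: take `γ = ![1, 0]` (par_iff). Otherwise let `g = X... ` be the polynomial
  `lp f ![1, 0] ![0, 1] F - X * lp f ![1, 0] ![0, 1] G` in `A[X]` (lp of row XAa: `F(X, 1)`, `G(X, 1)`): by lp_deg the coefficient of `X^(d+1)` of `X * lp G` is `eval₂ f ![1, 0] G ≠ 0` and `lp F` has degree `≤ d`, so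
  `g` has degree `d + 1 ≥ 1` and a root `x` (IsAlgClosed.exists_root). Take `γ = ![x, 1]`: `eval₂ f ![x, 1] F = x * eval₂ f ![x, 1] G` (lp_eval with `E = A`), par_iff.
* basis_ex: `δ = ![0, 1]` if `γ 0 ≠ 0` (`det = γ 0`), `δ = ![1, 0]` otherwise (`det = - γ 1`).
* coord_ex: with `D = γ 0 * δ 1 - γ 1 * δ 0`: `β = X γ + Y δ`, `X = (β 0 δ 1 - β 1 δ 0)/D`, `Y = (γ 0 β 1 - γ 1 β 0)/D`. `Y ≠ 0`: otherwise `β = X γ`, and `Ph β = X^d • Ph γ = X^d t • γ` is a multiple of `β` (`X ≠ 0`),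
  contrary to hfix. Take `s = Y`, `b = X / Y`.
-/
import Pool.Agent.H42.ES.XAa

set_option autoImplicit false

namespace Pool.Agent.H42.ES

open Polynomial

theorem par_iff {A : Type} [Field A] {u w : Fin 2 → A} (hu : u ≠ 0) :
    (∃ t : A, w = t • u) ↔ u 0 * w 1 = u 1 * w 0 := by
  constructor
  · rintro ⟨t, rfl⟩
    simp only [Pi.smul_apply, smul_eq_mul]
    ring
  · intro h
    by_cases h0 : u 0 = 0
    · have h1 : u 1 ≠ 0 := by
        intro h1
        apply hu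
        funext i
        fin_cases i
        · exact h0
        · exact h1
      have h2 : w 0 = 0 := by
        rw [h0, zero_mul] at h
        rcases mul_eq_zero.1 h.symm with h3 | h3
        · exact absurd h3 h1
        · exact h3
      refine ⟨w 1 / u 1, ?_⟩
      funext i
      fin_cases i
      · show w 0 = w 1 / u 1 * u 0
        rw [h2, h0, mul_zero]
      · show w 1 = w 1 / u 1 * u 1
        rw [div_mul_cancel₀ _ h1]
    · refine ⟨w 0 / u 0, ?_⟩
      funext i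
      fin_cases i
      · show w 0 = w 0 / u 0 * u 0
        rw [div_mul_cancel₀ _ h0]
      · show w 1 = w 0 / u 0 * u 1
        rw [div_mul_eq_mul_div, eq_div_iff h0]
        linear_combination h

theorem XCa_lp {R A : Type} [CommRing R] [Field A] (f : R →+* A) (F : MvPolynomial (Fin 2) R) (x : A) :
    (lp f ![1, 0] ![0, 1] F).eval x = MvPolynomial.eval₂ f ![x, 1] F := by
  have h1 := lp_eval (E := A) (A := A) f ![1, 0] ![0, 1] F x
  have h2 : (algebraMap A A).comp f = f := by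
    ext r
    rfl
  have h3 : (fun i => x * algebraMap A A ((![1, 0] : Fin 2 → A) i) +
      algebraMap A A ((![0, 1] : Fin 2 → A) i)) = ![x, 1] := by
    funext i
    fin_cases i
    · simp
    · simp
  rw [h2, h3] at h1
  rw [← h1, coe_aeval_eq_eval]

theorem fix_ex {R A : Type} [CommRing R] [Field A] [IsAlgClosed A] (f : R →+* A)
    {F G : MvPolynomial (Fin 2) R} {d : ℕ} (hd : 2 ≤ d) (hF : F.IsHomogeneous d)
    (hG : G.IsHomogeneous d) : ∃ γ : Fin 2 → A, γ ≠ 0 ∧ ∃ t : A, Ph f F G γ = t • γ := by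
  by_cases h0 : MvPolynomial.eval₂ f ![1, 0] G = 0
  · have hne : (![1, 0] : Fin 2 → A) ≠ 0 := by
      intro h
      have h1 := congrFun h 0
      exact one_ne_zero h1
    refine ⟨![1, 0], hne, (par_iff hne).2 ?_⟩
    show (1 : A) * MvPolynomial.eval₂ f ![1, 0] G = 0 * MvPolynomial.eval₂ f ![1, 0] F
    rw [h0, mul_zero, zero_mul]
  · obtain ⟨ha1, ha2⟩ := lp_deg (E := A) f ![1, 0] ![0, 1] hF
    obtain ⟨hb1, hb2⟩ := lp_deg (E := A) f ![1, 0] ![0, 1] hG
    have hc : (lp f ![1, 0] ![0, 1] F - X * lp f ![1, 0] ![0, 1] G).coeff (d + 1) ≠ 0 := by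
      rw [coeff_sub, coeff_X_mul, hb2, coeff_eq_zero_of_natDegree_lt (Nat.lt_succ_of_le ha1), zero_sub]
      exact neg_ne_zero.2 h0
    have hdeg : (lp f ![1, 0] ![0, 1] F - X * lp f ![1, 0] ![0, 1] G).degree ≠ 0 := by
      intro hd0
      have h1 : (lp f ![1, 0] ![0, 1] F - X * lp f ![1, 0] ![0, 1] G).coeff (d + 1) = 0 := by
        refine coeff_eq_zero_of_degree_lt ?_
        rw [hd0]
        exact_mod_cast Nat.succ_pos d
      exact hc h1
    obtain ⟨x, hx⟩ := IsAlgClosed.exists_root _ hdeg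
    have hx' : (lp f ![1, 0] ![0, 1] F - X * lp f ![1, 0] ![0, 1] G).eval x = 0 := hx
    rw [eval_sub, eval_mul, eval_X, XCa_lp, XCa_lp] at hx'
    have hne : (![x, 1] : Fin 2 → A) ≠ 0 := by
      intro h
      have h1 := congrFun h 1
      exact one_ne_zero h1
    refine ⟨![x, 1], hne, (par_iff hne).2 ?_⟩
    show x * MvPolynomial.eval₂ f ![x, 1] G = 1 * MvPolynomial.eval₂ f ![x, 1] F
    rw [one_mul]
    exact (sub_eq_zero.1 hx').symm

theorem basis_ex {A : Type} [Field A] {γ : Fin 2 → A} (hγ : γ ≠ 0) :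
    ∃ δ : Fin 2 → A, (∀ i, δ i = 0 ∨ δ i = 1) ∧ γ 0 * δ 1 - γ 1 * δ 0 ≠ 0 := by
  by_cases h0 : γ 0 = 0
  · have h1 : γ 1 ≠ 0 := by
      intro h1
      apply hγ
      funext i
      fin_cases i
      · exact h0
      · exact h1
    refine ⟨![1, 0], ?_, ?_⟩
    · intro i
      fin_cases i
      · exact Or.inr rfl
      · exact Or.inl rfl
    · show γ 0 * 0 - γ 1 * 1 ≠ 0
      rw [mul_zero, mul_one, zero_sub]
      exact neg_ne_zero.2 h1
  · refine ⟨![0, 1], ?_, ?_⟩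
    · intro i
      fin_cases i
      · exact Or.inl rfl
      · exact Or.inr rfl
    · show γ 0 * 1 - γ 1 * 0 ≠ 0
      rw [mul_zero, mul_one, sub_zero]
      exact h0

theorem coord_ex {R A : Type} [CommRing R] [Field A] (f : R →+* A)
    {F G : MvPolynomial (Fin 2) R} {d : ℕ} (hF : F.IsHomogeneous d) (hG : G.IsHomogeneous d)
    {γ δ β : Fin 2 → A} (hγ : ∃ t : A, Ph f F G γ = t • γ)
    (hD : γ 0 * δ 1 - γ 1 * δ 0 ≠ 0) (hβ : β ≠ 0) (hfix : ¬ ∃ t : A, Ph f F G β = t • β) :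
    ∃ s b : A, s ≠ 0 ∧ β = s • fun i => b * γ i + δ i := by
  obtain ⟨t, ht⟩ := hγ
  have e0 : β 0 = (β 0 * δ 1 - β 1 * δ 0) / (γ 0 * δ 1 - γ 1 * δ 0) * γ 0 +
      (γ 0 * β 1 - γ 1 * β 0) / (γ 0 * δ 1 - γ 1 * δ 0) * δ 0 := by
    rw [div_mul_eq_mul_div, div_mul_eq_mul_div, ← add_div, eq_div_iff hD]
    ring
  have e1 : β 1 = (β 0 * δ 1 - β 1 * δ 0) / (γ 0 * δ 1 - γ 1 * δ 0) * γ 1 +
      (γ 0 * β 1 - γ 1 * β 0) / (γ 0 * δ 1 - γ 1 * δ 0) * δ 1 := by
    rw [div_mul_eq_mul_div, div_mul_eq_mul_div, ← add_div, eq_div_iff hD]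
    ring
  obtain ⟨x, hx⟩ : ∃ x, x = (β 0 * δ 1 - β 1 * δ 0) / (γ 0 * δ 1 - γ 1 * δ 0) := ⟨_, rfl⟩
  obtain ⟨y, hy⟩ : ∃ y, y = (γ 0 * β 1 - γ 1 * β 0) / (γ 0 * δ 1 - γ 1 * δ 0) := ⟨_, rfl⟩
  rw [← hx, ← hy] at e0 e1
  have hy0 : y ≠ 0 := by
    intro hy0
    rw [hy0, zero_mul, add_zero] at e0 e1
    have hb : β = x • γ := by
      funext i
      fin_cases i
      · exact e0
      · exact e1
    have hx0 : x ≠ 0 := by
      intro hx0
      apply hβ
      rw [hb, hx0, zero_smul]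
    apply hfix
    refine ⟨x ^ d * t * x⁻¹, ?_⟩
    have h1 := ph_smul f hF hG x γ
    rw [ht] at h1
    rw [hb, h1, smul_smul, smul_smul, mul_assoc (x ^ d * t), inv_mul_cancel₀ hx0, mul_one]
  refine ⟨y, x / y, hy0, ?_⟩
  funext i
  fin_cases i
  · show β 0 = y * (x / y * γ 0 + δ 0)
    rw [e0]
    field_simp
  · show β 1 = y * (x / y * γ 1 + δ 1)
    rw [e1]
    field_simp

end Pool.Agent.H42.ES
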