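/-
ROW XCb. Normal form over a number field. PROOF. Let `C = AlgebraicClosure K`, `g = (algebraMap K C).comp fR`. fix_ex (row XCa; `A = C`, `f = g`) gives `γ'`, basis_ex gives `δ'` (entries `0` or `1`), coord_ex gives `s, b'` with
`β = s • (b' γ' + δ')`. Let `E = IntermediateField.adjoin K {γ' 0, γ' 1, b'}` (a finite extension of `K`: all elements are algebraic, `IntermediateField.finiteDimensional_adjoin` or
`IntermediateField.adjoin.finiteDimensional` / finiteDimensional_iSup; a number field by NumberField.of_module_finite K E), `j = E.val`, `γ i = ⟨γ' i, _⟩`, `b = ⟨b', _⟩`, `δ i` the element `0` or `1` of `E` with `j (δ i) = δ' i`.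
NF: det by injectivity of `j`; fix: by par_iff (`A = E`) it suffices that `γ 0 * G(γ) = γ 1 * F(γ)` in `E`, apply the injective `j` and ph_map-like naturality
(`j (eval₂ ((algebraMap K E).comp fR) γ F) = eval₂ g γ' F`: MvPolynomial.hom_eval₂), par_iff for `A = C`; res: apply `MvPolynomial.map (algebraMap K E)` to hres (Ideal.mem_span_pair: `X ^ N = a * map F + b * map G`;
MvPolynomial.map_map, map_X).
-/
import Pool.Agent.H42.ES.XAb
import Pool.Agent.H42.ES.XCa

set_option autoImplicit false

namespace Pool.Agent.H42.ES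

open Polynomial NumberField

theorem setup_ex {R K : Type} [CommRing R] [Field K] [NumberField K] (fR : R →+* K)
    {F G : MvPolynomial (Fin 2) R} {d : ℕ} (hd : 2 ≤ d) (hF : F.IsHomogeneous d)
    (hG : G.IsHomogeneous d)
    (hres : ∃ N : ℕ,
      (MvPolynomial.X (0 : Fin 2) : MvPolynomial (Fin 2) K) ^ N ∈
        Ideal.span {MvPolynomial.map fR F, MvPolynomial.map fR G} ∧
      (MvPolynomial.X (1 : Fin 2) : MvPolynomial (Fin 2) K) ^ N ∈
        Ideal.span {MvPolynomial.map fR F, MvPolynomial.map fR G})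
    {β : Fin 2 → AlgebraicClosure K} (hβ : β ≠ 0)
    (hfix : ¬ ∃ t : AlgebraicClosure K,
      Ph ((algebraMap K (AlgebraicClosure K)).comp fR) F G β = t • β) :
    ∃ (E : Type) (_ : Field E) (_ : NumberField E) (_ : Algebra K E)
      (j : E →ₐ[K] AlgebraicClosure K) (γ δ : Fin 2 → E) (b : E) (s : AlgebraicClosure K),
      NF ((algebraMap K E).comp fR) γ δ F G d ∧ s ≠ 0 ∧
        β = s • fun i => j (b * γ i + δ i) := by
  classical
  obtain ⟨γ', hγ'0, hγ'⟩ := fix_ex ((algebraMap K (AlgebraicClosure K)).comp fR) hd hF hG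
  obtain ⟨δ', hδ01, hdet⟩ := basis_ex hγ'0
  obtain ⟨s, b', hs, hβ'⟩ :=
    coord_ex ((algebraMap K (AlgebraicClosure K)).comp fR) hF hG hγ' hdet hβ hfix
  obtain ⟨E, hE⟩ : ∃ E : IntermediateField K (AlgebraicClosure K),
      E = IntermediateField.adjoin K {γ' 0, γ' 1, b'} := ⟨_, rfl⟩
  have hfd : FiniteDimensional K E := by
    rw [hE]
    have hfin : Finite ({γ' 0, γ' 1, b'} : Set (AlgebraicClosure K)) := inferInstance
    exact IntermediateField.finiteDimensional_adjoin
      (fun x _ => Algebra.IsIntegral.isIntegral x)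
  have hnf : NumberField E := NumberField.of_module_finite K E
  have hsub : ({γ' 0, γ' 1, b'} : Set (AlgebraicClosure K)) ⊆ E := by
    rw [hE]
    exact IntermediateField.subset_adjoin K _
  have m0 : γ' 0 ∈ E := hsub (by simp)
  have m1 : γ' 1 ∈ E := hsub (by simp)
  have mb : b' ∈ E := hsub (by simp)
  have mγ : ∀ i, γ' i ∈ E := by
    intro i
    fin_cases i
    · exact m0
    · exact m1
  have mδ : ∀ i, δ' i ∈ E := by
    intro i
    rcases hδ01 i with h | h
    · rw [h]
      exact E.zero_mem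
    · rw [h]
      exact E.one_mem
  obtain ⟨γ, hγ⟩ : ∃ γ : Fin 2 → E, γ = fun i => ⟨γ' i, mγ i⟩ := ⟨_, rfl⟩
  obtain ⟨δ, hδ⟩ : ∃ δ : Fin 2 → E, δ = fun i => ⟨δ' i, mδ i⟩ := ⟨_, rfl⟩
  have jγ : ∀ i, (E.val : E →+* AlgebraicClosure K) (γ i) = γ' i := by
    intro i
    rw [hγ]
    rfl
  have jδ : ∀ i, (E.val : E →+* AlgebraicClosure K) (δ i) = δ' i := by
    intro i
    rw [hδ]
    rfl
  have hinj : Function.Injective (E.val : E →+* AlgebraicClosure K) :=
    (E.val : E →+* AlgebraicClosure K).injective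
  have hcomp : (E.val : E →+* AlgebraicClosure K).comp ((algebraMap K E).comp fR) =
      (algebraMap K (AlgebraicClosure K)).comp fR := by
    ext r
    rfl
  have hnat : ∀ H : MvPolynomial (Fin 2) R, (E.val : E →+* AlgebraicClosure K)
      (MvPolynomial.eval₂ ((algebraMap K E).comp fR) γ H) =
      MvPolynomial.eval₂ ((algebraMap K (AlgebraicClosure K)).comp fR) γ' H := by
    intro H
    have hfun : ((E.val : E →+* AlgebraicClosure K) ∘ γ) = γ' := by
      funext i
      exact jγ i
    rw [MvPolynomial.eval₂_comp_left, hcomp, hfun]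
  have hdetE : γ 0 * δ 1 - γ 1 * δ 0 ≠ 0 := by
    intro h
    apply hdet
    have h1 := congrArg (E.val : E →+* AlgebraicClosure K) h
    rw [map_sub, map_mul, map_mul, jγ, jγ, jδ, jδ, map_zero] at h1
    exact h1
  have hγne : γ ≠ 0 := by
    rintro h
    apply hdetE
    rw [h]
    simp
  have hfixE : ∃ t : E, Ph ((algebraMap K E).comp fR) F G γ = t • γ := by
    rw [par_iff hγne]
    have h1 := (par_iff hγ'0).1 hγ'
    apply hinj
    have e0 : (E.val : E →+* AlgebraicClosure K) (Ph ((algebraMap K E).comp fR) F G γ 0) =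
        Ph ((algebraMap K (AlgebraicClosure K)).comp fR) F G γ' 0 := hnat F
    have e1 : (E.val : E →+* AlgebraicClosure K) (Ph ((algebraMap K E).comp fR) F G γ 1) =
        Ph ((algebraMap K (AlgebraicClosure K)).comp fR) F G γ' 1 := hnat G
    rw [map_mul, map_mul, e0, e1, jγ, jγ]
    exact h1
  have hresE : ∃ N : ℕ, (MvPolynomial.X (0 : Fin 2) : MvPolynomial (Fin 2) E) ^ N ∈
        Ideal.span {MvPolynomial.map ((algebraMap K E).comp fR) F,
          MvPolynomial.map ((algebraMap K E).comp fR) G} ∧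
      (MvPolynomial.X (1 : Fin 2) : MvPolynomial (Fin 2) E) ^ N ∈
        Ideal.span {MvPolynomial.map ((algebraMap K E).comp fR) F,
          MvPolynomial.map ((algebraMap K E).comp fR) G} := by
    obtain ⟨N, h0, h1⟩ := hres
    have key : ∀ i : Fin 2, (MvPolynomial.X i : MvPolynomial (Fin 2) K) ^ N ∈
        Ideal.span {MvPolynomial.map fR F, MvPolynomial.map fR G} →
        (MvPolynomial.X i : MvPolynomial (Fin 2) E) ^ N ∈
        Ideal.span {MvPolynomial.map ((algebraMap K E).comp fR) F,
          MvPolynomial.map ((algebraMap K E).comp fR) G} := by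
      intro i hi
      obtain ⟨a, b, hab⟩ := Ideal.mem_span_pair.1 hi
      have h2 := congrArg (MvPolynomial.map (algebraMap K E)) hab
      rw [map_add, map_mul, map_mul, map_pow, MvPolynomial.map_X, MvPolynomial.map_map,
        MvPolynomial.map_map] at h2
      exact Ideal.mem_span_pair.2 ⟨_, _, h2⟩
    exact ⟨N, key 0 h0, key 1 h1⟩
  refine ⟨E, inferInstance, hnf, inferInstance, E.val, γ, δ, ⟨b', mb⟩, s,
    ⟨hd, hF, hG, hdetE, hfixE, hresE⟩, hs, ?_⟩
  rw [hβ']
  congr 1
  funext i
  have h3 : E.val (⟨b', mb⟩ * γ i + δ i) = b' * γ' i + δ' i := by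
    rw [map_add, map_mul]
    have e1 : E.val (γ i) = γ' i := jγ i
    have e2 : E.val (δ i) = δ' i := jδ i
    rw [e1, e2]
    rfl
  exact h3.symm

end Pool.Agent.H42.ES
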