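/-
ROW XCc. Transfer of the hypotheses on `β`. Let `C = AlgebraicClosure K`, `f = (algebraMap K E).comp fR`, `g = (algebraMap K C).comp fR = (j : E →+* C).comp f`, `u = fun i => b * γ i + δ i`, `β = s • (j ∘ u)`. PROOFS.
First part: nf_crit (row XAb): it suffices that `eval₂ f u Jac = 0`, `Jac = pderiv 0 F * pderiv 1 G - pderiv 1 F * pderiv 0 G`, homogeneous of degree `(d-1)+(d-1)` (MvPolynomial.IsHomogeneous.pderiv, .mul, .sub); by ev_smul (row
XAa) `0 = eval₂ g β Jac = s^(2d-2) * eval₂ g (j ∘ u) Jac = s^(2d-2) * j (eval₂ f u Jac)` (MvPolynomial.hom_eval₂ / eval₂_comp_left) and `j` is injective.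
Second part: if `(ratMap p q E)^[n] (some b) = some b` then by nf_iter (row XAc; `A = E`, Algebra.id; `(algebraMap E E).comp f = f`) `(Ph f F G)^[n] u = t • u` (`vec (some b) = u`), so by ph_map (row XBc, `g = j`)
`(Ph g F G)^[n] (j ∘ u) = j t • (j ∘ u)` and by ph_smul and induction on `n` `(Ph g F G)^[n] (s • (j ∘ u)) = s^(d^n) • ((Ph g F G)^[n] (j ∘ u))`, a multiple of `β` (`s ≠ 0`). Contradiction with hper.
-/
import Pool.Agent.H42.ES.XAc
import Pool.Agent.H42.ES.XBc

set_option autoImplicit false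

namespace Pool.Agent.H42.ES

open Polynomial NumberField
open Pool.Agent.H42.RM (wr ratMap)

private theorem XCc_smul {R A : Type} [CommRing R] [CommRing A] {F G : MvPolynomial (Fin 2) R}
    {d : ℕ} (g : R →+* A) (hF : F.IsHomogeneous d) (hG : G.IsHomogeneous d) (n : ℕ) (s : A)
    (v : Fin 2 → A) : (Ph g F G)^[n] (s • v) = s ^ (d ^ n) • (Ph g F G)^[n] v := by
  induction n with
  | zero => rw [pow_zero, pow_one]; rfl
  | succ n ih =>
    rw [Function.iterate_succ_apply', Function.iterate_succ_apply', ih, ph_smul _ hF hG,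
      ← pow_mul, ← pow_succ]

theorem hyp_tr {R K E : Type} [CommRing R] [Field K] [NumberField K] [Field E] [NumberField E]
    [Algebra K E] (j : E →ₐ[K] AlgebraicClosure K) {fR : R →+* K} {γ δ : Fin 2 → E}
    {F G : MvPolynomial (Fin 2) R} {d : ℕ} (hN : NF ((algebraMap K E).comp fR) γ δ F G d) {b : E}
    {β : Fin 2 → AlgebraicClosure K} {s : AlgebraicClosure K} (hs : s ≠ 0)
    (hβ : β = s • fun i => j (b * γ i + δ i))
    (hcrit : MvPolynomial.eval₂ ((algebraMap K (AlgebraicClosure K)).comp fR) β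
      (MvPolynomial.pderiv (0 : Fin 2) F * MvPolynomial.pderiv (1 : Fin 2) G
        - MvPolynomial.pderiv (1 : Fin 2) F * MvPolynomial.pderiv (0 : Fin 2) G) = 0)
    (hper : ¬ ∃ n : ℕ, 1 ≤ n ∧ ∃ t : AlgebraicClosure K,
      (Ph ((algebraMap K (AlgebraicClosure K)).comp fR) F G)^[n] β = t • β) :
    (wr (nfp ((algebraMap K E).comp fR) γ δ F G)
      (nfq ((algebraMap K E).comp fR) γ δ F G)).eval b = 0 ∧
    ∀ n, 1 ≤ n → (ratMap (nfp ((algebraMap K E).comp fR) γ δ F G)
      (nfq ((algebraMap K E).comp fR) γ δ F G) E)^[n] (some b) ≠ some b := by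
  have hg : (algebraMap K (AlgebraicClosure K)).comp fR =
      (j : E →+* AlgebraicClosure K).comp ((algebraMap K E).comp fR) := by
    ext r
    change algebraMap K (AlgebraicClosure K) (fR r) = j (algebraMap K E (fR r))
    rw [j.commutes]
  have hjinj : Function.Injective (j : E →+* AlgebraicClosure K) := (j : E →+* AlgebraicClosure K).injective
  obtain ⟨u, hu⟩ : ∃ u : Fin 2 → E, u = fun i => b * γ i + δ i := ⟨_, rfl⟩
  have hβ' : β = s • fun i => (j : E →+* AlgebraicClosure K) (u i) := by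
    rw [hβ, hu]
    rfl
  constructor
  · apply (nf_crit hN b).2
    obtain ⟨Jac, hJ⟩ : ∃ Jac : MvPolynomial (Fin 2) R, Jac =
      MvPolynomial.pderiv (0 : Fin 2) F * MvPolynomial.pderiv (1 : Fin 2) G
        - MvPolynomial.pderiv (1 : Fin 2) F * MvPolynomial.pderiv (0 : Fin 2) G := ⟨_, rfl⟩
    have hJh : Jac.IsHomogeneous ((d - 1) + (d - 1)) := by
      rw [hJ]
      exact (hN.hF.pderiv.mul hN.hG.pderiv).sub (hN.hF.pderiv.mul hN.hG.pderiv)
    rw [← hJ] at hcrit ⊢
    rw [hg, hβ', ev_smul _ hJh] at hcrit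
    have h1 := (mul_eq_zero.1 hcrit).resolve_left (pow_ne_zero _ hs)
    have h2 := MvPolynomial.hom_eval₂ Jac ((algebraMap K E).comp fR)
      (j : E →+* AlgebraicClosure K) u
    have h3 : (j : E →+* AlgebraicClosure K) (MvPolynomial.eval₂ ((algebraMap K E).comp fR) u Jac) = 0 := by
      rw [h2]
      exact h1
    have h4 := (map_eq_zero_iff _ hjinj).1 h3
    rw [hu] at h4
    exact h4
  · intro n hn hcon
    apply hper
    refine ⟨n, hn, ?_⟩
    obtain ⟨t, -, ht⟩ := nf_iter (A := E) hN n (some b)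
    rw [hcon] at ht
    have hid : (algebraMap E E).comp ((algebraMap K E).comp fR) = (algebraMap K E).comp fR := by
      rw [Algebra.algebraMap_self, RingHom.id_comp]
    have hvec : vec (E := E) (A := E) γ δ (some b) = u := by
      rw [hu]
      rfl
    rw [hid, hvec] at ht
    have hmap := ph_map ((algebraMap K E).comp fR) (j : E →+* AlgebraicClosure K) F G n u
    refine ⟨s ^ (d ^ n) * (j : E →+* AlgebraicClosure K) t / s, ?_⟩
    rw [hg, hβ', XCc_smul _ hN.hF hN.hG, hmap, ht]
    funext i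
    simp only [Pi.smul_apply, smul_eq_mul, map_mul]
    field_simp

end Pool.Agent.H42.ES
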