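/-
ROW XCd. Embeddings and densities. PROOFS.
* emb_ex: the algebra structure is `((algebraMap E K').comp (algebraMap K E)).toAlgebra`. Consider `C = AlgebraicClosure K` as an `E`-algebra through `j` (`(j : E →+* C).toAlgebra`); `K'` is algebraic over `E` (number field), so
  `IsAlgClosed.lift : K' →ₐ[E] C` gives a ring homomorphism `ι` with `ι ∘ algebraMap E K' = j`, which is `K`-linear (`j` is). `σ` is RingOfIntegers.mapRingHom (algebraMap K K') (or RingOfIntegers.mapAlgHom; its coercion is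
  `algebraMap K K' x`). Let `u i = algebraMap E K' b * algebraMap E K' (γ i) + algebraMap E K' (δ i)`. Choose a common denominator `lam = algebraMap (𝓞 K') K' m`, `m ≠ 0`, with `lam * u i = algebraMap (𝓞 K') K' (c i)`, `i = 0, 1`
  (IsFractionRing.div_surjective / IsLocalization.exist_integer_multiples). `s' = ι lam * s⁻¹` (`β i = s * j (b γ i + δ i) = s * ι (u i)`).
* dens_conv: EFin_tendsto (PCM/E4) and `prc K' S X = Set.ncard {v | v ∈ S ∧ Ideal.absNorm v.asIdeal ≤ X}` (unfold prc); the map `v ↦ v.asIdeal` is injective (HeightOneSpectrum.ext) and the set of ideals in the claim is the image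
  of the set of `v` (Set.ncard_image_of_injective; `v = ⟨p, hprime, hne⟩`). See the end of Pool/Agent/Results/MP_2af937_nt/RationalMaps.lean for the use of EFin_tendsto.
-/
import Pool.Agent.H42.PCM.E4

set_option autoImplicit false

namespace Pool.Agent.H42.ES

open Polynomial NumberField IsDedekindDomain Filter Topology
open Pool.Agent.H42.PC (EFinSm EFin_tendsto prc)

theorem emb_ex {K E K' : Type} [Field K] [NumberField K] [Field E] [NumberField E] [Algebra K E]
    [Field K'] [NumberField K'] [Algebra E K'] (j : E →ₐ[K] AlgebraicClosure K)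
    {γ δ : Fin 2 → E} {b : E} {β : Fin 2 → AlgebraicClosure K} {s : AlgebraicClosure K}
    (hs : s ≠ 0) (hβ : β = s • fun i => j (b * γ i + δ i)) :
    ∃ (_ : Algebra K K') (σ : 𝓞 K →+* 𝓞 K') (ι : K' →ₐ[K] AlgebraicClosure K)
      (c : Fin 2 → 𝓞 K') (s' : AlgebraicClosure K) (lam : K'),
      (∀ x : 𝓞 K, ((σ x : 𝓞 K') : K') = algebraMap K K' (x : K)) ∧
      s' ≠ 0 ∧ (∀ i : Fin 2, ι ((c i : 𝓞 K') : K') = s' * β i) ∧
      (∀ x : 𝓞 K, algebraMap (𝓞 K') K' (σ x) =
        algebraMap E K' (((algebraMap K E).comp (algebraMap (𝓞 K) K)) x)) ∧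
      lam ≠ 0 ∧ ∀ i, algebraMap (𝓞 K') K' (c i) =
        lam * (algebraMap E K' b * algebraMap E K' (γ i) + algebraMap E K' (δ i)) := by
  letI algKK : Algebra K K' := ((algebraMap E K').comp (algebraMap K E)).toAlgebra
  haveI hKEK : IsScalarTower K E K' := IsScalarTower.of_algebraMap_eq (fun x => rfl)
  letI algEC : Algebra E (AlgebraicClosure K) := (j : E →+* AlgebraicClosure K).toAlgebra
  haveI hKEC : IsScalarTower K E (AlgebraicClosure K) :=
    IsScalarTower.of_algebraMap_eq (fun x => (j.commutes x).symm)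
  haveI : Algebra.IsAlgebraic ℚ K' := inferInstance
  haveI : IsScalarTower ℚ E K' := inferInstance
  haveI hEK : Algebra.IsAlgebraic E K' := Algebra.IsAlgebraic.tower_top (K := ℚ) E
  let ι0 : K' →ₐ[E] AlgebraicClosure K := IsAlgClosed.lift
  let ι : K' →ₐ[K] AlgebraicClosure K := ι0.restrictScalars K
  have hι : ∀ x : E, ι (algebraMap E K' x) = j x := fun x => ι0.commutes x
  let u : Fin 2 → K' := fun i => algebraMap E K' b * algebraMap E K' (γ i) + algebraMap E K' (δ i)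
  have hu : ∀ i, ι (u i) = j (b * γ i + δ i) := by
    intro i
    have : u i = algebraMap E K' (b * γ i + δ i) := by
      simp only [u, map_add, map_mul]
    rw [this, hι]
  obtain ⟨m, hm⟩ := IsLocalization.exist_integer_multiples (nonZeroDivisors (𝓞 K'))
    (Finset.univ : Finset (Fin 2)) u
  have hm' : ∀ i, ∃ c : 𝓞 K', algebraMap (𝓞 K') K' c = algebraMap (𝓞 K') K' (m : 𝓞 K') * u i := by
    intro i
    obtain ⟨c, hc⟩ := hm i (Finset.mem_univ i)
    refine ⟨c, ?_⟩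
    rw [hc, Algebra.smul_def]
  choose c hc using hm'
  have hm0 : algebraMap (𝓞 K') K' (m : 𝓞 K') ≠ 0 := by
    have h1 : (m : 𝓞 K') ≠ 0 := nonZeroDivisors.ne_zero m.2
    intro h2
    exact h1 ((map_eq_zero_iff _ (IsFractionRing.injective (𝓞 K') K')).1 h2)
  have hιm : ι (algebraMap (𝓞 K') K' (m : 𝓞 K')) ≠ 0 := by
    intro h
    exact hm0 ((map_eq_zero_iff _ ι.toRingHom.injective).1 h)
  refine ⟨algKK, RingOfIntegers.mapRingHom (algebraMap K K'), ι, c,
    ι (algebraMap (𝓞 K') K' (m : 𝓞 K')) * s⁻¹, algebraMap (𝓞 K') K' (m : 𝓞 K'), ?_, ?_, ?_, ?_,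
    hm0, ?_⟩
  · intro x
    rfl
  · exact mul_ne_zero hιm (inv_ne_zero hs)
  · intro i
    have h1 : ((c i : 𝓞 K') : K') = algebraMap (𝓞 K') K' (m : 𝓞 K') * u i := hc i
    rw [h1, map_mul, hu, hβ]
    simp only [Pi.smul_apply, smul_eq_mul]
    field_simp
  · intro x
    rfl
  · intro i
    exact hc i

theorem dens_conv {K' : Type} [Field K'] [NumberField K'] {P : Ideal (𝓞 K') → Prop}
    (h : EFinSm K' {v : HeightOneSpectrum (𝓞 K') | P v.asIdeal}) :
    Tendsto (fun X : ℕ =>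
      ((Set.ncard {p : Ideal (𝓞 K') | p.IsPrime ∧ p ≠ ⊥ ∧ Ideal.absNorm p ≤ X ∧ P p} : ℕ) : ℝ) /
        ((Set.ncard {p : Ideal (𝓞 K') | p.IsPrime ∧ p ≠ ⊥ ∧ Ideal.absNorm p ≤ X} : ℕ) : ℝ))
      atTop (nhds 0) := by
  have hinj : Function.Injective (fun v : HeightOneSpectrum (𝓞 K') => v.asIdeal) := by
    intro v w hvw
    exact HeightOneSpectrum.ext hvw
  refine (EFin_tendsto h).congr fun X => ?_
  unfold prc
  have h1 : {p : Ideal (𝓞 K') | p.IsPrime ∧ p ≠ ⊥ ∧ Ideal.absNorm p ≤ X ∧ P p} =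
      (fun v : HeightOneSpectrum (𝓞 K') => v.asIdeal) ''
        {v | v ∈ {v : HeightOneSpectrum (𝓞 K') | P v.asIdeal} ∧ Ideal.absNorm v.asIdeal ≤ X} := by
    ext p
    constructor
    · rintro ⟨h1, h2, h3, h4⟩
      exact ⟨⟨p, h1, h2⟩, ⟨h4, h3⟩, rfl⟩
    · rintro ⟨v, ⟨h4, h3⟩, rfl⟩
      exact ⟨v.isPrime, v.ne_bot, h3, h4⟩
  have h2 : {p : Ideal (𝓞 K') | p.IsPrime ∧ p ≠ ⊥ ∧ Ideal.absNorm p ≤ X} =
      (fun v : HeightOneSpectrum (𝓞 K') => v.asIdeal) ''
        {v | v ∈ (Set.univ : Set (HeightOneSpectrum (𝓞 K'))) ∧ Ideal.absNorm v.asIdeal ≤ X} := by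
    ext p
    constructor
    · rintro ⟨h1, h2, h3⟩
      exact ⟨⟨p, h1, h2⟩, ⟨Set.mem_univ _, h3⟩, rfl⟩
    · rintro ⟨v, ⟨_, h3⟩, rfl⟩
      exact ⟨v.isPrime, v.ne_bot, h3⟩
  rw [h1, h2, Set.ncard_image_of_injective _ hinj, Set.ncard_image_of_injective _ hinj]

end Pool.Agent.H42.ES
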