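/-
ROW XCe. The general theorem. PROOF. `fR = algebraMap (𝓞 K) K`. hper with `n = 1` gives hfix of setup_ex (row XCb), which gives `E, j, γ, δ, b, s`. hyp_tr (row XCc) gives the critical and the non-periodicity condition for
`p = nfp .., q = nfq .., b`. x_main (row XBa) over `E`: hcop nf_cop, degrees nf_deg, hES: es_transfer (row XBb). It gives `K'` with its `E`-algebra structure and `h1 : EFinSm K' S1`. emb_ex (row XCd) gives the
`K`-algebra structure, `σ, ι, c, s', lam`. By primes_fin (row XBe) the set `{v | PerMod σ F G c v.asIdeal}` is contained in `S1 ∪ (finite set)`: EFin_mono, EFin_union, EFin_fin (hPIT K'). dens_conv (row XCd) with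
`P = PerMod σ F G c`; the set in the claim is definitionally the one of dens_conv (`PerMod`, `Ph` unfold: `exact`/`refine ... (by ext; rfl)` or `Set.ext fun p => Iff.rfl`).
-/
import Pool.Agent.H42.ES.XBa
import Pool.Agent.H42.ES.XBb
import Pool.Agent.H42.ES.XBe
import Pool.Agent.H42.ES.XCb
import Pool.Agent.H42.ES.XCc
import Pool.Agent.H42.ES.XCd

set_option autoImplicit false

namespace Pool.Agent.H42.ES

open NumberField IsDedekindDomain Filter Topology
open Pool.Agent.H42.PC (EFinSm PITh)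

theorem gen_main (hPIT : ∀ (E : Type) [Field E] [NumberField E], PITh E)
    (K : Type) [Field K] [NumberField K] (d : ℕ) (F G : MvPolynomial (Fin 2) (𝓞 K))
    (hd : 2 ≤ d) (hF : F.IsHomogeneous d) (hG : G.IsHomogeneous d)
    (hres : ∃ N : ℕ,
      (MvPolynomial.X (0 : Fin 2) : MvPolynomial (Fin 2) K) ^ N ∈
        Ideal.span {MvPolynomial.map (algebraMap (𝓞 K) K) F,
          MvPolynomial.map (algebraMap (𝓞 K) K) G} ∧
      (MvPolynomial.X (1 : Fin 2) : MvPolynomial (Fin 2) K) ^ N ∈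
        Ideal.span {MvPolynomial.map (algebraMap (𝓞 K) K) F,
          MvPolynomial.map (algebraMap (𝓞 K) K) G})
    (β : Fin 2 → AlgebraicClosure K) (hβ : β ≠ 0)
    (hcrit : MvPolynomial.eval₂ ((algebraMap K (AlgebraicClosure K)).comp (algebraMap (𝓞 K) K)) β
      (MvPolynomial.pderiv (0 : Fin 2) F * MvPolynomial.pderiv (1 : Fin 2) G
        - MvPolynomial.pderiv (1 : Fin 2) F * MvPolynomial.pderiv (0 : Fin 2) G) = 0)
    (hper : ¬ ∃ n : ℕ, 1 ≤ n ∧ ∃ t : AlgebraicClosure K,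
      (fun v : Fin 2 → AlgebraicClosure K =>
        ![MvPolynomial.eval₂ ((algebraMap K (AlgebraicClosure K)).comp (algebraMap (𝓞 K) K)) v F,
          MvPolynomial.eval₂ ((algebraMap K (AlgebraicClosure K)).comp (algebraMap (𝓞 K) K)) v G])^[n]
        β = t • β)
    (hES : EvSt (algebraMap (𝓞 K) K) F G β) :
    ∃ (K' : Type) (_ : Field K') (_ : NumberField K') (_ : Algebra K K')
      (σ : 𝓞 K →+* 𝓞 K') (ι : K' →ₐ[K] AlgebraicClosure K) (c : Fin 2 → 𝓞 K')
      (s : AlgebraicClosure K),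
      (∀ x : 𝓞 K, ((σ x : 𝓞 K') : K') = algebraMap K K' (x : K)) ∧
      s ≠ 0 ∧ (∀ i : Fin 2, ι ((c i : 𝓞 K') : K') = s * β i) ∧
      Tendsto (fun X : ℕ =>
        ((Set.ncard {p : Ideal (𝓞 K') | p.IsPrime ∧ p ≠ ⊥ ∧ Ideal.absNorm p ≤ X ∧
            (∃ i : Fin 2, Ideal.Quotient.mk p (c i) ≠ 0) ∧
            (∃ N : ℕ,
              (MvPolynomial.X (0 : Fin 2) : MvPolynomial (Fin 2) (𝓞 K' ⧸ p)) ^ N ∈
                Ideal.span {MvPolynomial.map ((Ideal.Quotient.mk p).comp σ) F,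
                  MvPolynomial.map ((Ideal.Quotient.mk p).comp σ) G} ∧
              (MvPolynomial.X (1 : Fin 2) : MvPolynomial (Fin 2) (𝓞 K' ⧸ p)) ^ N ∈
                Ideal.span {MvPolynomial.map ((Ideal.Quotient.mk p).comp σ) F,
                  MvPolynomial.map ((Ideal.Quotient.mk p).comp σ) G}) ∧
            ∃ n : ℕ, 1 ≤ n ∧ ∃ t : 𝓞 K' ⧸ p,
              (fun v : Fin 2 → 𝓞 K' ⧸ p =>
                ![MvPolynomial.eval₂ ((Ideal.Quotient.mk p).comp σ) v F,
                  MvPolynomial.eval₂ ((Ideal.Quotient.mk p).comp σ) v G])^[n]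
                (fun i => Ideal.Quotient.mk p (c i))
                = t • (fun i => Ideal.Quotient.mk p (c i))} : ℕ) : ℝ) /
         ((Set.ncard {p : Ideal (𝓞 K') | p.IsPrime ∧ p ≠ ⊥ ∧ Ideal.absNorm p ≤ X} : ℕ) : ℝ))
        atTop (nhds 0) := by
  have hfix : ¬ ∃ t : AlgebraicClosure K,
      Ph ((algebraMap K (AlgebraicClosure K)).comp (algebraMap (𝓞 K) K)) F G β = t • β := by
    rintro ⟨t, ht⟩
    exact hper ⟨1, le_rfl, t, ht⟩
  obtain ⟨E, iE, iN, iA, j, γ, δ, b, s, hN, hs, hβs⟩ :=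
    setup_ex (algebraMap (𝓞 K) K) hd hF hG hres hβ hfix
  obtain ⟨hwr, hnp⟩ := hyp_tr j hN hs hβs hcrit hper
  obtain ⟨K', iF', iN', iA', h1⟩ := x_main hPIT (nf_cop hN)
    (by rw [(nf_deg hN).1]; exact hd) (by rw [(nf_deg hN).1]; exact (nf_deg hN).2) hwr hnp
    (fun hB => es_transfer j hN hB hs hβs hES)
  obtain ⟨iK, σ, ι, c, s', lam, h2, h3, h4, h5, h6, h7⟩ := emb_ex (K' := K') j hs hβs
  refine ⟨K', iF', iN', iK, σ, ι, c, s', h2, h3, h4, ?_⟩
  have h8 : EFinSm K' {v : HeightOneSpectrum (𝓞 K') | PerMod σ F G c v.asIdeal} := by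
    refine Pool.Agent.H42.PC.EFin_mono ?_ (Pool.Agent.H42.PC.EFin_union h1
      (Pool.Agent.H42.PC.EFin_fin (hPIT K') (primes_fin hN h6 h7 h5)))
    intro v hv
    by_cases hx : ∃ n, 1 ≤ n ∧ ∃ x : K',
        (Pool.Agent.H42.RM.ratMap (nfp ((algebraMap K E).comp (algebraMap (𝓞 K) K)) γ δ F G)
          (nfq ((algebraMap K E).comp (algebraMap (𝓞 K) K)) γ δ F G) K')^[n]
            (some (algebraMap E K' b)) = some x ∧
          v.valuation K' (x - algebraMap E K' b) < 1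
    · exact Or.inl hx
    · exact Or.inr ⟨hv, hx⟩
  exact dens_conv h8

end Pool.Agent.H42.ES
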