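/-
ROW YAa. Iterates of `(F, G)` on a line. `ln c e = c + X e`, `It n = (F, G)^n (c + X e)` (two polynomials), `Rn n = c ∧ It n`. PROOFS.
* it_map, rn_map: ph_map (row XBc) with `g = mapRingHom g` (`(mapRingHom g).comp (C.comp f) = C.comp (g.comp f)`; RingHom.ext, Polynomial.map_C) and `ln` is mapped to `ln`.
* it_eval, rn_eval: ph_map with `g = eval₂RingHom g x` (`(eval₂RingHom g x).comp (C.comp f) = g.comp f`: eval₂_C).
* it_deg: induction on `n` with the following fact for `u : Fin 2 → A[X]`, `natDegree (u i) ≤ D`, `w i = (u i).coeff D`: `(Ph (C.comp f) F G u i).natDegree ≤ D * d` and its coefficient of index `D * d` is `Ph f F G w i`. Proof of the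
  fact: sum over the monomials `s` of `F` (homogeneous: `s 0 + s 1 = d`): `C (f a) * ∏ i, u i ^ s i` (MvPolynomial.eval₂_eq' ; natDegree_pow_le, natDegree_mul_le, coeff_mul_of_natDegree_le, coeff_pow_of_natDegree_le; as lp_deg of row XAa).
* rn_deg: from it_deg (coeff_C_mul, natDegree_sub_le ...).
-/
import Pool.Agent.H42.ES.XBc

set_option autoImplicit false

namespace Pool.Agent.H42.ES

open Polynomial

/-- The line `c + X e`. -/
noncomputable def ln {A : Type} [CommRing A] (c e : Fin 2 → A) : Fin 2 → A[X] :=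
  fun i => C (c i) + X * C (e i)

/-- The `n`-th iterate of `(F, G)` on the line `c + X e`. -/
noncomputable def It {R A : Type} [CommRing R] [CommRing A] (f : R →+* A)
    (F G : MvPolynomial (Fin 2) R) (c e : Fin 2 → A) (n : ℕ) : Fin 2 → A[X] :=
  (Ph ((C : A →+* A[X]).comp f) F G)^[n] (ln c e)

/-- The polynomial whose roots `x` are such that `(F, G)^n (c + x e)` is a multiple of `c`. -/
noncomputable def Rn {R A : Type} [CommRing R] [CommRing A] (f : R →+* A)
    (F G : MvPolynomial (Fin 2) R) (c e : Fin 2 → A) (n : ℕ) : A[X] :=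
  C (c 0) * It f F G c e n 1 - C (c 1) * It f F G c e n 0

variable {R A B : Type} [CommRing R] [CommRing A] [CommRing B] {F G : MvPolynomial (Fin 2) R}
  {d : ℕ}

private theorem YAa_ln (g : A →+* B) (c e : Fin 2 → A) (i : Fin 2) :
    (ln c e i).map g = ln (fun i => g (c i)) (fun i => g (e i)) i := by
  unfold ln
  rw [Polynomial.map_add, Polynomial.map_mul, map_C, map_C, map_X]

theorem it_map (f : R →+* A) (g : A →+* B) (c e : Fin 2 → A) (n : ℕ) (i : Fin 2) :
    (It f F G c e n i).map g =
      It (g.comp f) F G (fun i => g (c i)) (fun i => g (e i)) n i := by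
  have h1 := ph_map ((C : A →+* A[X]).comp f) (mapRingHom g) F G n (ln c e)
  have h2 : (mapRingHom g).comp ((C : A →+* A[X]).comp f) = (C : B →+* B[X]).comp (g.comp f) := by
    refine RingHom.ext fun r => ?_
    rw [RingHom.comp_apply, RingHom.comp_apply, RingHom.comp_apply, RingHom.comp_apply,
      coe_mapRingHom, map_C]
  have h3 : (fun i => (mapRingHom g) (ln c e i)) = ln (fun i => g (c i)) (fun i => g (e i)) := by
    funext i
    rw [coe_mapRingHom]
    exact YAa_ln g c e i
  rw [h2, h3] at h1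
  exact (congrFun h1 i).symm

theorem rn_map (f : R →+* A) (g : A →+* B) (c e : Fin 2 → A) (n : ℕ) :
    (Rn f F G c e n).map g = Rn (g.comp f) F G (fun i => g (c i)) (fun i => g (e i)) n := by
  unfold Rn
  rw [Polynomial.map_sub, Polynomial.map_mul, Polynomial.map_mul, map_C, map_C, it_map, it_map]

theorem it_eval (f : R →+* A) (g : A →+* B) (c e : Fin 2 → A) (n : ℕ) (i : Fin 2) (x : B) :
    (It f F G c e n i).eval₂ g x =
      (Ph (g.comp f) F G)^[n] (fun i => g (c i) + x * g (e i)) i := by
  have h1 := ph_map ((C : A →+* A[X]).comp f) (eval₂RingHom g x) F G n (ln c e)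
  have h2 : (eval₂RingHom g x).comp ((C : A →+* A[X]).comp f) = g.comp f := by
    refine RingHom.ext fun r => ?_
    rw [RingHom.comp_apply, RingHom.comp_apply, RingHom.comp_apply, coe_eval₂RingHom, eval₂_C]
  have h3 : (fun i => (eval₂RingHom g x) (ln c e i)) = fun i => g (c i) + x * g (e i) := by
    funext i
    unfold ln
    rw [coe_eval₂RingHom, eval₂_add, eval₂_mul, eval₂_C, eval₂_C, eval₂_X]
  rw [h2, h3] at h1
  exact (congrFun h1 i).symm

theorem rn_eval (f : R →+* A) (g : A →+* B) (c e : Fin 2 → A) (n : ℕ) (x : B) :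
    (Rn f F G c e n).eval₂ g x =
      g (c 0) * (Ph (g.comp f) F G)^[n] (fun i => g (c i) + x * g (e i)) 1 -
        g (c 1) * (Ph (g.comp f) F G)^[n] (fun i => g (c i) + x * g (e i)) 0 := by
  unfold Rn
  rw [eval₂_sub, eval₂_mul, eval₂_mul, eval₂_C, eval₂_C, it_eval, it_eval]

/-- The degree and the leading coefficient of a form at polynomials of degree at most `D`. -/
private theorem YAa_deg (f : R →+* A) {P : MvPolynomial (Fin 2) R} (hP : P.IsHomogeneous d)
    (u : Fin 2 → A[X]) (w : Fin 2 → A) (D : ℕ) (hu : ∀ i, (u i).natDegree ≤ D)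
    (hw : ∀ i, (u i).coeff D = w i) :
    (MvPolynomial.eval₂ ((C : A →+* A[X]).comp f) u P).natDegree ≤ D * d ∧
      (MvPolynomial.eval₂ ((C : A →+* A[X]).comp f) u P).coeff (D * d) =
        MvPolynomial.eval₂ f w P := by
  have hpow : ∀ (i : Fin 2) (k : ℕ), ((u i) ^ k).natDegree ≤ k * D := by
    intro i k
    exact natDegree_pow_le_of_le k (hu i)
  have hcoe : ∀ (i : Fin 2) (k : ℕ), ((u i) ^ k).coeff (k * D) = w i ^ k := by
    intro i k
    rw [coeff_pow_of_natDegree_le (hu i), hw]
  have hterm : ∀ m ∈ P.support,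
      ((((C : A →+* A[X]).comp f) (P.coeff m) * ∏ i, (u i) ^ m i).natDegree ≤ D * d) ∧
      (((C : A →+* A[X]).comp f) (P.coeff m) * ∏ i, (u i) ^ m i).coeff (D * d) =
        f (P.coeff m) * ∏ i, w i ^ m i := by
    intro m hm
    have hd : D * d = m 0 * D + m 1 * D := by
      rw [← XAa_deg hP hm]
      ring
    rw [Fin.prod_univ_two, Fin.prod_univ_two, RingHom.comp_apply, hd]
    constructor
    · refine (natDegree_C_mul_le _ _).trans ?_
      exact natDegree_mul_le_of_le (hpow 0 _) (hpow 1 _)
    · rw [coeff_C_mul, coeff_mul_add_eq_of_natDegree_le (hpow 0 _) (hpow 1 _), hcoe, hcoe]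
  rw [MvPolynomial.eval₂_eq', MvPolynomial.eval₂_eq']
  constructor
  · exact natDegree_sum_le_of_forall_le _ _ fun m hm => (hterm m hm).1
  · rw [finsetSum_coeff]
    exact Finset.sum_congr rfl fun m hm => (hterm m hm).2

theorem it_deg (f : R →+* A) (hF : F.IsHomogeneous d) (hG : G.IsHomogeneous d) (c e : Fin 2 → A)
    (n : ℕ) (i : Fin 2) : (It f F G c e n i).natDegree ≤ d ^ n ∧
      (It f F G c e n i).coeff (d ^ n) = (Ph f F G)^[n] e i := by
  induction n generalizing i with
  | zero =>
    have h0 : It f F G c e 0 i = C (c i) + X * C (e i) := rfl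
    rw [h0, pow_zero]
    constructor
    · refine (natDegree_add_le _ _).trans ?_
      rw [natDegree_C]
      refine max_le (Nat.zero_le _) ?_
      rw [X_mul_C]
      exact (natDegree_C_mul_le _ _).trans natDegree_X_le
    · rw [coeff_add, coeff_C, if_neg one_ne_zero, zero_add, X_mul_C, coeff_C_mul, coeff_X_one,
        mul_one]
      rfl
  | succ n ih =>
    have hu : ∀ i, (It f F G c e n i).natDegree ≤ d ^ n := fun i => (ih i).1
    have hw : ∀ i, (It f F G c e n i).coeff (d ^ n) = (Ph f F G)^[n] e i := fun i => (ih i).2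
    have h1 : It f F G c e (n + 1) = Ph ((C : A →+* A[X]).comp f) F G (It f F G c e n) :=
      Function.iterate_succ_apply' _ _ _
    rw [h1, Function.iterate_succ_apply', pow_succ]
    have h2 := YAa_deg f hF _ _ _ hu hw
    have h3 := YAa_deg f hG _ _ _ hu hw
    fin_cases i
    · exact h2
    · exact h3

theorem rn_deg (f : R →+* A) (hF : F.IsHomogeneous d) (hG : G.IsHomogeneous d) (c e : Fin 2 → A)
    (n : ℕ) : (Rn f F G c e n).natDegree ≤ d ^ n ∧
      (Rn f F G c e n).coeff (d ^ n) =
        c 0 * (Ph f F G)^[n] e 1 - c 1 * (Ph f F G)^[n] e 0 := by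
  have h0 := it_deg f hF hG c e n 0
  have h1 := it_deg f hF hG c e n 1
  unfold Rn
  constructor
  · refine (natDegree_sub_le _ _).trans (max_le ?_ ?_)
    · exact (natDegree_C_mul_le _ _).trans h1.1
    · exact (natDegree_C_mul_le _ _).trans h0.1
  · rw [coeff_sub, coeff_C_mul, coeff_C_mul, h0.2, h1.2]

end Pool.Agent.H42.ES
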