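/-
ROW YAb. Exceptional reduction: `(F, G)` has good reduction at `P`, and modulo `P` the only point `w` with `(F, G)^m w = c` is `c` (over every extension field of the residue field). PROOF of ex_red. Let
`k = AlgebraicClosure (FractionRing (𝓞 L ⧸ v.asIdeal))` (a field in `Type`), `π : 𝓞 L →+* k` the composition of the quotient map with the injective algebra maps (`ker π = v.asIdeal`), `f = π.comp σ`, `c' = π ∘ c`, `e' = π ∘ e`,
`c' ≠ 0`, `c' 0 * e' 1 - c' 1 * e' 0 ≠ 0`. Good reduction over `k`: apply `MvPolynomial.map` (of the embedding of the residue ring in `k`) to the membership in the spans (Ideal.mem_span_pair); so red_nz (row XBc) holds for `f`.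
(1) For `w ≠ 0` with `(Ph f F G)^[j * m] w = t • c'` we have `w = a • c'`: induction on `j`: for `j + 1` put `w' = (Ph f F G)^[j * m] w ≠ 0` (red_nz iterated), `(Ph f F G)^[m] w' = t • c'`, so `w' = a • c'` by the hypothesis; apply the
induction hypothesis. (`(j+1) * m = m + j * m`, Function.iterate_add_apply.)
(2) Let `n = j * m`, `R' = (Rn σ F G c e n).map π = Rn f F G c' e' n` (rn_map, row YAa). By rn_deg its degree is `≤ d^n` and its coefficient of index `d^n` is `c' ∧ (Ph f F G)^[n] e'`; this is not `0`, otherwise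
`(Ph f F G)^[n] e' = t • c'` (par_iff, row XCa: `c' ≠ 0`), `e' = a • c'` by (1), contradicting the determinant. If `x` is a root of `R'` then (rn_eval with `g = RingHom.id`) `(Ph f F G)^[n] (c' + x e') = t • c'`, so `c' + x e' = a • c'`
by (1) (`c' + x e' ≠ 0` by the determinant), and the determinant gives `x = 0` (wedge with `c'`). Since `k` is algebraically closed, `R' = C (leadingCoeff) * X ^ (d ^ n)` (IsAlgClosed.splits, all roots are `0`:
Polynomial.Splits.eq_prod_roots / Multiset.eq_replicate; or: `X ^ j ∣ R'` with `j = rootMultiplicity 0 R'`, the cofactor has no root, so degree `0`). Hence the coefficients of index `< d^n` of `R'` vanish and the one of index `d^n` does not; coeff_map and `ker π`.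
-/
import Pool.Agent.H42.ES.YAa
import Pool.Agent.H42.ES.XCa

set_option autoImplicit false

namespace Pool.Agent.H42.ES

open Polynomial NumberField IsDedekindDomain

/-- `(F, G)` has good reduction modulo `P`, and for some `m ≥ 1` the only `m`-th preimage of the reduction of `c` is
the reduction of `c`. -/
def ExcRed {R L : Type} [CommRing R] [Field L] [NumberField L] (σ : R →+* 𝓞 L)
    (F G : MvPolynomial (Fin 2) R) (c : Fin 2 → 𝓞 L) (P : Ideal (𝓞 L)) (m : ℕ) : Prop :=
  (∃ i : Fin 2, Ideal.Quotient.mk P (c i) ≠ 0) ∧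
  (∃ N : ℕ,
    (MvPolynomial.X (0 : Fin 2) : MvPolynomial (Fin 2) (𝓞 L ⧸ P)) ^ N ∈
      Ideal.span {MvPolynomial.map ((Ideal.Quotient.mk P).comp σ) F,
        MvPolynomial.map ((Ideal.Quotient.mk P).comp σ) G} ∧
    (MvPolynomial.X (1 : Fin 2) : MvPolynomial (Fin 2) (𝓞 L ⧸ P)) ^ N ∈
      Ideal.span {MvPolynomial.map ((Ideal.Quotient.mk P).comp σ) F,
        MvPolynomial.map ((Ideal.Quotient.mk P).comp σ) G}) ∧
  1 ≤ m ∧ ∀ (k : Type) [Field k] (π : 𝓞 L →+* k), RingHom.ker π = P →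
    ∀ w : Fin 2 → k, w ≠ 0 →
      (∃ t : k, (Ph (π.comp σ) F G)^[m] w = t • fun i => π (c i)) →
      ∃ a : k, w = a • fun i => π (c i)

private theorem YAb_nz {R A : Type} [CommRing R] [Field A] (f : R →+* A)
    {F G : MvPolynomial (Fin 2) R} (hnz : ∀ w : Fin 2 → A, w ≠ 0 → Ph f F G w ≠ 0) (n : ℕ)
    {w : Fin 2 → A} (hw : w ≠ 0) : (Ph f F G)^[n] w ≠ 0 := by
  induction n with
  | zero => exact hw
  | succ n ih =>
    rw [Function.iterate_succ_apply']
    exact hnz _ ih

private theorem YAb_pre {R A : Type} [CommRing R] [Field A] (f : R →+* A)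
    {F G : MvPolynomial (Fin 2) R} {c : Fin 2 → A} {m : ℕ}
    (hnz : ∀ w : Fin 2 → A, w ≠ 0 → Ph f F G w ≠ 0)
    (hpre : ∀ w : Fin 2 → A, w ≠ 0 → (∃ t : A, (Ph f F G)^[m] w = t • c) → ∃ a : A, w = a • c)
    (j : ℕ) : ∀ w : Fin 2 → A, w ≠ 0 → (∃ t : A, (Ph f F G)^[j * m] w = t • c) →
      ∃ a : A, w = a • c := by
  induction j with
  | zero =>
    rintro w - ⟨t, ht⟩
    rw [Nat.zero_mul] at ht
    exact ⟨t, ht⟩
  | succ j ih =>
    rintro w hw ⟨t, ht⟩
    have h1 : (j + 1) * m = m + j * m := by ring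
    rw [h1, Function.iterate_add_apply] at ht
    exact ih w hw (hpre _ (YAb_nz f hnz _ hw) ⟨t, ht⟩)

private theorem YAb_core {R A : Type} [CommRing R] [Field A] [IsAlgClosed A] (f : R →+* A)
    {F G : MvPolynomial (Fin 2) R} {d : ℕ} (hF : F.IsHomogeneous d) (hG : G.IsHomogeneous d)
    {c e : Fin 2 → A} {m : ℕ} (hnz : ∀ w : Fin 2 → A, w ≠ 0 → Ph f F G w ≠ 0)
    (hpre : ∀ w : Fin 2 → A, w ≠ 0 → (∃ t : A, (Ph f F G)^[m] w = t • c) → ∃ a : A, w = a • c)
    (he : c 0 * e 1 - c 1 * e 0 ≠ 0) (j : ℕ) :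
    (∀ i < d ^ (j * m), (Rn f F G c e (j * m)).coeff i = 0) ∧
      (Rn f F G c e (j * m)).coeff (d ^ (j * m)) ≠ 0 := by
  have hc : c ≠ 0 := by
    rintro rfl
    apply he
    rw [Pi.zero_apply, Pi.zero_apply, zero_mul, zero_mul, sub_zero]
  have he0 : e ≠ 0 := by
    rintro rfl
    apply he
    rw [Pi.zero_apply, Pi.zero_apply, mul_zero, mul_zero, sub_zero]
  obtain ⟨hd1, hd2⟩ := rn_deg f hF hG c e (j * m)
  have hlead : (Rn f F G c e (j * m)).coeff (d ^ (j * m)) ≠ 0 := by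
    rw [hd2]
    intro h0
    have h1 : ∃ t : A, (Ph f F G)^[j * m] e = t • c :=
      (par_iff hc).2 (sub_eq_zero.1 h0)
    obtain ⟨a, ha⟩ := YAb_pre f hnz hpre j e he0 h1
    apply he
    rw [ha, Pi.smul_apply, Pi.smul_apply, smul_eq_mul, smul_eq_mul]
    ring
  have hroot : ∀ x : A, (Rn f F G c e (j * m)).IsRoot x → x = 0 := by
    intro x hx
    have h0 : (Rn f F G c e (j * m)).eval₂ (RingHom.id A) x = 0 := hx
    rw [rn_eval, RingHom.id_comp] at h0
    have h1 : ∃ t : A, (Ph f F G)^[j * m] (fun i => (RingHom.id A) (c i) +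
        x * (RingHom.id A) (e i)) = t • c := (par_iff hc).2 (sub_eq_zero.1 h0)
    have hne : (fun i => (RingHom.id A) (c i) + x * (RingHom.id A) (e i)) ≠ (0 : Fin 2 → A) := by
      intro h2
      have h3 : c 0 + x * e 0 = 0 := congrFun h2 0
      have h4 : c 1 + x * e 1 = 0 := congrFun h2 1
      apply he
      linear_combination e 1 * h3 - e 0 * h4
    obtain ⟨a, ha⟩ := YAb_pre f hnz hpre j _ hne h1
    have h3 : c 0 + x * e 0 = a * c 0 := congrFun ha 0
    have h4 : c 1 + x * e 1 = a * c 1 := congrFun ha 1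
    have h5 : x * (c 0 * e 1 - c 1 * e 0) = 0 := by
      linear_combination c 0 * h4 - c 1 * h3
    exact (mul_eq_zero.1 h5).resolve_right he
  refine ⟨?_, hlead⟩
  intro i hi
  have hs := IsAlgClosed.splits (Rn f F G c e (j * m))
  have hnd : (Rn f F G c e (j * m)).natDegree = d ^ (j * m) :=
    le_antisymm hd1 (le_natDegree_of_ne_zero hlead)
  have hcard : (Rn f F G c e (j * m)).roots.card = d ^ (j * m) := by
    rw [← hnd]
    exact (hs.natDegree_eq_card_roots).symm
  have hrep : (Rn f F G c e (j * m)).roots = Multiset.replicate (d ^ (j * m)) 0 := by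
    rw [Multiset.eq_replicate]
    exact ⟨hcard, fun x hx => hroot x (isRoot_of_mem_roots hx)⟩
  have hprod := hs.eq_prod_roots
  rw [hrep, Multiset.map_replicate, Multiset.prod_replicate, C_0, sub_zero] at hprod
  rw [hprod, coeff_C_mul, coeff_X_pow, if_neg (ne_of_lt hi), mul_zero]

theorem ex_red {R L : Type} [CommRing R] [Field L] [NumberField L] {σ : R →+* 𝓞 L}
    {F G : MvPolynomial (Fin 2) R} {d : ℕ} (hF : F.IsHomogeneous d) (hG : G.IsHomogeneous d)
    {c e : Fin 2 → 𝓞 L} {v : HeightOneSpectrum (𝓞 L)} {m : ℕ}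
    (hx : ExcRed σ F G c v.asIdeal m) (he : c 0 * e 1 - c 1 * e 0 ∉ v.asIdeal) (j : ℕ) :
    (∀ i < d ^ (j * m), (Rn σ F G c e (j * m)).coeff i ∈ v.asIdeal) ∧
      (Rn σ F G c e (j * m)).coeff (d ^ (j * m)) ∉ v.asIdeal := by
  haveI hprime : v.asIdeal.IsPrime := v.isPrime
  haveI : IsDomain (𝓞 L ⧸ v.asIdeal) := Ideal.Quotient.isDomain v.asIdeal
  obtain ⟨-, ⟨N, hN1, hN2⟩, -, hpre⟩ := hx
  obtain ⟨k, hk, hac, ι, hι⟩ : ∃ (k : Type) (_ : Field k) (_ : IsAlgClosed k)
      (ι : (𝓞 L ⧸ v.asIdeal) →+* k), Function.Injective ι := by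
    refine ⟨AlgebraicClosure (FractionRing (𝓞 L ⧸ v.asIdeal)), inferInstance, inferInstance,
      (algebraMap (FractionRing (𝓞 L ⧸ v.asIdeal))
        (AlgebraicClosure (FractionRing (𝓞 L ⧸ v.asIdeal)))).comp
        (algebraMap (𝓞 L ⧸ v.asIdeal) (FractionRing (𝓞 L ⧸ v.asIdeal))), ?_⟩
    rw [RingHom.coe_comp]
    exact (RingHom.injective _).comp (IsFractionRing.injective _ _)
  obtain ⟨π, hπ⟩ : ∃ π : 𝓞 L →+* k, π = ι.comp (Ideal.Quotient.mk v.asIdeal) := ⟨_, rfl⟩
  have hker : RingHom.ker π = v.asIdeal := by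
    rw [hπ, RingHom.ker_comp_of_injective _ hι, Ideal.mk_ker]
  have hmem : ∀ x : 𝓞 L, x ∈ v.asIdeal ↔ π x = 0 := by
    intro x
    rw [← hker, RingHom.mem_ker]
  have hspan : ∀ i : Fin 2, (MvPolynomial.X i : MvPolynomial (Fin 2) (𝓞 L ⧸ v.asIdeal)) ^ N ∈
      Ideal.span {MvPolynomial.map ((Ideal.Quotient.mk v.asIdeal).comp σ) F,
        MvPolynomial.map ((Ideal.Quotient.mk v.asIdeal).comp σ) G} →
      (MvPolynomial.X i : MvPolynomial (Fin 2) k) ^ N ∈
        Ideal.span {MvPolynomial.map (π.comp σ) F, MvPolynomial.map (π.comp σ) G} := by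
    intro i hi
    obtain ⟨a, b, hab⟩ := Ideal.mem_span_pair.1 hi
    refine Ideal.mem_span_pair.2 ⟨MvPolynomial.map ι a, MvPolynomial.map ι b, ?_⟩
    have h1 := congrArg (MvPolynomial.map ι) hab
    rw [map_add, map_mul, map_mul, MvPolynomial.map_map, MvPolynomial.map_map, map_pow,
      MvPolynomial.map_X, ← RingHom.comp_assoc, ← hπ] at h1
    exact h1
  have hnz : ∀ w : Fin 2 → k, w ≠ 0 → Ph (π.comp σ) F G w ≠ 0 := fun w hw =>
    red_nz (π.comp σ) ⟨N, hspan 0 hN1, hspan 1 hN2⟩ hw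
  have he' : π (c 0) * π (e 1) - π (c 1) * π (e 0) ≠ 0 := by
    intro h
    apply he
    rw [hmem, map_sub, map_mul, map_mul]
    exact h
  obtain ⟨h1, h2⟩ := YAb_core (π.comp σ) hF hG (c := fun i => π (c i)) (e := fun i => π (e i))
    hnz (hpre k π hker) he' j
  rw [← rn_map] at h1 h2
  constructor
  · intro i hi
    have h3 := h1 i hi
    rw [coeff_map] at h3
    exact (hmem _).2 h3
  · intro h3
    apply h2
    rw [coeff_map]
    exact (hmem _).1 h3

end Pool.Agent.H42.ES
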