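/-
ROW YAc. Contraction. PROOF. `R, E` polynomials over a field with integral coefficients, `V (R.coeff 0) < 1`, `V (R.coeff 1) < 1`, `V (E.coeff 0) = 1`. For `V x < 1`, `V y < 1`: `V (E x) = 1`, `V (R x) < 1` and
`V (R x / E x - R y / E y) < V (x - y)` if `x ≠ y` (`≤` always). `(R x * E y - R y * E x) = (R x - R y) * E y - R y * (E x - E y)`; `R x - R y = (x - y) * s` with
`s = ∑ i ≥ 1, R_i * (∑ x^a y^b, a + b = i - 1)`, `V s < 1` (term `i = 1`: `V R_1 < 1`; terms `i ≥ 2`: every monomial `x^a y^b` has positive degree); similarly `E x - E y = (x - y) * s'`, `V s' ≤ 1`. (Induction on the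
polynomial, or eval_sub / eval_sub_le of PCM/D1, or `Commute.geom_sum₂_mul`.)
-/
import Mathlib

set_option autoImplicit false

namespace Pool.Agent.H42.ES

open Polynomial WithZero

private theorem YAc_pow {L : Type} [Field L] {V : Valuation L ℤᵐ⁰} {x y : L} (hx : V x ≤ 1)
    (hy : V y ≤ 1) (i : ℕ) : V (x ^ i - y ^ i) ≤ V (x - y) := by
  induction i with
  | zero => simp
  | succ i ih =>
    have h : x ^ (i + 1) - y ^ (i + 1) = x * (x ^ i - y ^ i) + (x - y) * y ^ i := by ring
    rw [h]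
    refine (V.map_add _ _).trans (max_le ?_ ?_)
    · rw [map_mul]
      exact (mul_le_mul' hx ih).trans (by rw [one_mul])
    · rw [map_mul, map_pow]
      exact (mul_le_mul' le_rfl (pow_le_one' hy i)).trans (by rw [mul_one])

private theorem YAc_le {L : Type} [Field L] {V : Valuation L ℤᵐ⁰} {S : L[X]}
    (hS : ∀ i, V (S.coeff i) ≤ 1) {x y : L} (hx : V x ≤ 1) (hy : V y ≤ 1) :
    V (S.eval x - S.eval y) ≤ V (x - y) := by
  rw [eval_eq_sum_range, eval_eq_sum_range, ← Finset.sum_sub_distrib]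
  refine V.map_sum_le fun i _ => ?_
  rw [← mul_sub, map_mul]
  exact (mul_le_mul' (hS i) (YAc_pow hx hy i)).trans (by rw [one_mul])

private theorem YAc_int {L : Type} [Field L] {V : Valuation L ℤᵐ⁰} {S : L[X]}
    (hS : ∀ i, V (S.coeff i) ≤ 1) {x : L} (hx : V x ≤ 1) : V (S.eval x) ≤ 1 := by
  rw [eval_eq_sum_range]
  refine V.map_sum_le fun i _ => ?_
  rw [map_mul, map_pow]
  exact mul_le_one' (hS i) (pow_le_one' hx i)

private theorem YAc_near {L : Type} [Field L] {V : Valuation L ℤᵐ⁰} {S : L[X]}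
    (hS : ∀ i, V (S.coeff i) ≤ 1) {x : L} (hx : V x < 1) : V (S.eval x - S.coeff 0) < 1 := by
  have h1 : S.eval x - S.coeff 0 = S.divX.eval x * x := by
    have h2 := congrArg (Polynomial.eval x) (divX_mul_X_add S)
    rw [eval_add, eval_mul, eval_X, eval_C] at h2
    rw [← h2]
    ring
  rw [h1, map_mul]
  have h3 : V (S.divX.eval x) ≤ 1 :=
    YAc_int (fun i => by rw [coeff_divX]; exact hS (i + 1)) hx.le
  exact lt_of_le_of_lt ((mul_le_mul' h3 le_rfl).trans (by rw [one_mul])) hx

private theorem YAc_lt {L : Type} [Field L] {V : Valuation L ℤᵐ⁰} {S : L[X]}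
    (hS : ∀ i, V (S.coeff i) ≤ 1) (h1 : V (S.coeff 1) < 1) {x y : L} (hx : V x < 1)
    (hy : V y < 1) (hxy : x ≠ y) : V (S.eval x - S.eval y) < V (x - y) := by
  have hpos : 0 < V (x - y) := zero_lt_iff.2 ((V.ne_zero_iff).2 (sub_ne_zero.2 hxy))
  have hT : ∀ i, V (S.divX.coeff i) ≤ 1 := fun i => by rw [coeff_divX]; exact hS (i + 1)
  have he : ∀ z : L, S.eval z = S.divX.eval z * z + S.coeff 0 := by
    intro z
    have h2 := congrArg (Polynomial.eval z) (divX_mul_X_add S)
    rw [eval_add, eval_mul, eval_X, eval_C] at h2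
    exact h2.symm
  have h2 : S.eval x - S.eval y =
      S.divX.eval x * (x - y) + (S.divX.eval x - S.divX.eval y) * y := by
    rw [he x, he y]
    ring
  have h3 : V (S.divX.eval x) < 1 := by
    have h4 := YAc_near hT hx
    have h5 : V (S.divX.coeff 0) < 1 := by
      rw [coeff_divX]
      exact h1
    have h6 : S.divX.eval x = (S.divX.eval x - S.divX.coeff 0) + S.divX.coeff 0 := by ring
    rw [h6]
    exact V.map_add_lt h4 h5
  rw [h2]
  refine V.map_add_lt ?_ ?_
  · rw [map_mul]
    calc V (S.divX.eval x) * V (x - y) < 1 * V (x - y) := mul_lt_mul_of_pos_right h3 hpos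
      _ = V (x - y) := one_mul _
  · rw [map_mul]
    calc V (S.divX.eval x - S.divX.eval y) * V y ≤ V (x - y) * V y :=
          mul_le_mul' (YAc_le hT hx.le hy.le) le_rfl
      _ < V (x - y) * 1 := mul_lt_mul_of_pos_left hy hpos
      _ = V (x - y) := mul_one _

theorem contr {L : Type} [Field L] {V : Valuation L ℤᵐ⁰} {R E : L[X]}
    (hR : ∀ i, V (R.coeff i) ≤ 1) (hE : ∀ i, V (E.coeff i) ≤ 1) (h0 : V (R.coeff 0) < 1)
    (h1 : V (R.coeff 1) < 1) (hu : V (E.coeff 0) = 1) {x y : L} (hx : V x < 1) (hy : V y < 1) :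
    V (E.eval x) = 1 ∧ V (R.eval x) < 1 ∧
      V (R.eval x / E.eval x - R.eval y / E.eval y) ≤ V (x - y) ∧
      (x ≠ y → V (R.eval x / E.eval x - R.eval y / E.eval y) < V (x - y)) := by
  have hEx : ∀ z : L, V z < 1 → V (E.eval z) = 1 := by
    intro z hz
    have h2 : E.eval z = (E.eval z - E.coeff 0) + E.coeff 0 := by ring
    rw [h2, V.map_add_eq_of_lt_right (by rw [hu]; exact YAc_near hE hz), hu]
  have hRx : ∀ z : L, V z < 1 → V (R.eval z) < 1 := by
    intro z hz
    have h2 : R.eval z = (R.eval z - R.coeff 0) + R.coeff 0 := by ring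
    rw [h2]
    exact V.map_add_lt (YAc_near hR hz) h0
  have hlt : x ≠ y → V (R.eval x / E.eval x - R.eval y / E.eval y) < V (x - y) := by
    intro hxy
    have hpos : 0 < V (x - y) := zero_lt_iff.2 ((V.ne_zero_iff).2 (sub_ne_zero.2 hxy))
    have hex : E.eval x ≠ 0 := fun h => by
      have h2 := hEx x hx
      rw [h, map_zero] at h2
      exact zero_ne_one h2
    have hey : E.eval y ≠ 0 := fun h => by
      have h2 := hEx y hy
      rw [h, map_zero] at h2
      exact zero_ne_one h2
    have h2 : R.eval x / E.eval x - R.eval y / E.eval y =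
        ((R.eval x - R.eval y) * E.eval y + - (R.eval y * (E.eval x - E.eval y))) /
          (E.eval x * E.eval y) := by
      rw [div_sub_div _ _ hex hey]
      congr 1
      ring
    rw [h2, map_div₀, map_mul V (E.eval x), hEx x hx, hEx y hy, mul_one, div_one]
    refine V.map_add_lt ?_ ?_
    · rw [map_mul, hEx y hy, mul_one]
      exact YAc_lt hR h1 hx hy hxy
    · rw [Valuation.map_neg, map_mul]
      calc V (R.eval y) * V (E.eval x - E.eval y) ≤ V (R.eval y) * V (x - y) :=
            mul_le_mul' le_rfl (YAc_le hE hx.le hy.le)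
        _ < 1 * V (x - y) := mul_lt_mul_of_pos_right (hRx y hy) hpos
        _ = V (x - y) := one_mul _
  refine ⟨hEx x hx, hRx x hx, ?_, hlt⟩
  by_cases hxy : x = y
  · rw [hxy, sub_self, sub_self]
  · exact (hlt hxy).le

end Pool.Agent.H42.ES
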