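/-
ROW YAd. Orbits and factors. PROOF of orb_count. Let `C = AlgebraicClosure K`, considered as an `L`-algebra through `ι` (`let _ := (ι : L →+* C).toAlgebra`), `f = (algebraMap (𝓞 L) L).comp σ`, `g = (algebraMap K C).comp fR = (ι : L →+* C).comp f`
(hσ). `u = algebraMap .. ∘ c`, `u' = .. ∘ e` vectors over `L`, `P = Rn f F G u u' n` (`= (Rn σ F G c e n).map _`, rn_map of row YAa; hP is about it; nonzero by hlead and rn_deg). The set `M` of monic irreducible factors of `P` is finite (for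
example ELoc_fin of PCM/E4 or UniqueFactorizationMonoid.fintypeSubtypeDvd-like; it is used with hP for the Finset `M.toFinset`), with at most `ν` elements; for `h ∈ M` choose a root `x_h ∈ C` (IsAlgClosed.exists_aeval_eq_zero). `S` = the image of `M` under
`h ↦ (ι ∘ u) + x_h (ι ∘ u')`. Let `w ≠ 0`, `(Ph g F G)^[n] w = t • β`, so `= t s⁻¹.. • (ι ∘ u)`. By hD `w = A (ι ∘ u) + B (ι ∘ u')`. If `A = 0` then `(Ph g F G)^[n] (B (ι ∘ u')) = B^(d^n) • (ι ∘ (Ph f F G)^[n] u')` (ph_smul of row XAa iterated, ph_map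
of row XBc) is a multiple of `ι ∘ u`, with `B ≠ 0`, contradicting hlead (wedge with `u`). So `w = A ((ι ∘ u) + x (ι ∘ u'))`, `A ≠ 0`, and `x` is a root of `P` (rn_eval with `g := (ι : L →+* C)`: wedge of a multiple of `ι ∘ u` with `ι ∘ u` is
`0`). `h = minpoly L x` is in `M` (x integral over `L`: algebraic over `K`; minpoly.dvd, minpoly.irreducible, minpoly.monic), and there is `τ : C ≃ₐ[L] C` with `τ x_h = x` (both are roots of the irreducible `h`; C is normal over `L`:
for example minpoly.eq_iff_exists... / `IsConjRoot`, `isConjRoot_iff_exists_algEquiv`, or Normal.minpoly_eq_iff_mem_orbit; minpoly L x_h = h by minpoly.eq_of_irreducible_of_monic). Then `w = A • (τ ∘ (the element of S))` as `τ` fixes `ι L`;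
`τ` restricted to `K` is an element of `C ≃ₐ[K] C` (AlgEquiv.restrictScalars K, or AlgEquiv.ofRingEquiv with `τ (algebraMap K C z) = τ (ι (algebraMap K L z)) = ..`).
-/
import Pool.Agent.H42.PCM.E4
import Pool.Agent.H42.ES.YAa

set_option autoImplicit false

namespace Pool.Agent.H42.ES

open Polynomial NumberField IsDedekindDomain

theorem YAd_smul {R A : Type} [CommRing R] [CommRing A] {F G : MvPolynomial (Fin 2) R} {d : ℕ}
    (f : R →+* A) (hF : F.IsHomogeneous d) (hG : G.IsHomogeneous d) (a : A) (v : Fin 2 → A)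
    (n : ℕ) : (Ph f F G)^[n] (a • v) = a ^ (d ^ n) • (Ph f F G)^[n] v := by
  induction n with
  | zero => simp
  | succ n ih =>
    rw [Function.iterate_succ_apply', ih, ph_smul f hF hG, Function.iterate_succ_apply', ← pow_mul,
      pow_succ d n]

theorem YAd_fin {L : Type} [Field L] {P : L[X]} (hP : P ≠ 0) :
    {h : L[X] | h.Monic ∧ Irreducible h ∧ h ∣ P}.Finite := by
  classical
  refine ((UniqueFactorizationMonoid.normalizedFactors P).toFinset.finite_toSet).subset ?_
  rintro g ⟨hm, hi, hg⟩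
  obtain ⟨q, hq, hgq⟩ := UniqueFactorizationMonoid.exists_mem_normalizedFactors_of_dvd hP hi hg
  have hq0 := (UniqueFactorizationMonoid.irreducible_of_normalized_factor q hq).ne_zero
  have hqm : q.Monic := by
    have := UniqueFactorizationMonoid.normalize_normalized_factor q hq
    rw [← this]
    exact Polynomial.monic_normalize hq0
  have := eq_of_monic_of_associated hm hqm hgq
  rw [Finset.mem_coe, Multiset.mem_toFinset, this]
  exact hq

theorem YAd_aux {R K L C : Type} [CommRing R] [Field K] [Field L] [NumberField L] [Field C]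
    [Algebra K L] [Algebra K C] [Algebra L C] [IsScalarTower K L C] [IsAlgClosed C]
    [Algebra.IsAlgebraic K C] {σ : R →+* 𝓞 L} {g : R →+* C}
    (hg : g = ((algebraMap L C).comp (algebraMap (𝓞 L) L)).comp σ)
    {F G : MvPolynomial (Fin 2) R} {d : ℕ} (hF : F.IsHomogeneous d) (hG : G.IsHomogeneous d)
    {c e : Fin 2 → 𝓞 L} (hD : c 0 * e 1 - c 1 * e 0 ≠ 0) {β : Fin 2 → C} {s : C} (hs : s ≠ 0)
    (hβ : ∀ i, algebraMap L C (algebraMap (𝓞 L) L (c i)) = s * β i) {n ν : ℕ}
    (hlead : (Rn σ F G c e n).coeff (d ^ n) ≠ 0)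
    (hP : ∀ S : Finset L[X], (∀ h ∈ S, h.Monic ∧ Irreducible h ∧
      h ∣ (Rn σ F G c e n).map (algebraMap (𝓞 L) L)) → S.card ≤ ν) :
    ∃ S : Finset (Fin 2 → C), S.card ≤ ν ∧
      ∀ w : Fin 2 → C, w ≠ 0 → (∃ t : C, (Ph g F G)^[n] w = t • β) →
        ∃ r ∈ S, ∃ (τ : C ≃ₐ[K] C) (a : C), w = a • fun i => τ (r i) := by
  classical
  obtain ⟨j, hj⟩ : ∃ j : 𝓞 L →+* C, j = (algebraMap L C).comp (algebraMap (𝓞 L) L) := ⟨_, rfl⟩
  rw [← hj] at hg
  have hji : Function.Injective j := by
    rw [hj]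
    exact (algebraMap L C).injective.comp (NumberField.RingOfIntegers.coe_injective)
  have hjc : ∀ z, j z = algebraMap L C (algebraMap (𝓞 L) L z) := fun z => by rw [hj]; rfl
  obtain ⟨P, hPdef⟩ : ∃ P : L[X], P = (Rn σ F G c e n).map (algebraMap (𝓞 L) L) := ⟨_, rfl⟩
  rw [← hPdef] at hP
  have hP0 : P ≠ 0 := by
    intro h0
    have h1 : P.coeff (d ^ n) = 0 := by rw [h0, coeff_zero]
    rw [hPdef, coeff_map] at h1
    exact hlead (NumberField.RingOfIntegers.coe_injective (h1.trans (map_zero _).symm))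
  have hfin := YAd_fin hP0
  have hcard : hfin.toFinset.card ≤ ν := hP _ fun h hh => (hfin.mem_toFinset.1 hh)
  have hroot : ∀ h : L[X], ∃ x : C, Irreducible h → aeval x h = 0 := by
    intro h
    by_cases hi : Irreducible h
    · obtain ⟨x, hx⟩ := IsAlgClosed.exists_aeval_eq_zero C h (degree_pos_of_irreducible hi).ne'
      exact ⟨x, fun _ => hx⟩
    · exact ⟨0, fun h' => absurd h' hi⟩
  choose rt hrt using hroot
  refine ⟨hfin.toFinset.image fun h => fun i => j (c i) + rt h * j (e i),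
    Finset.card_image_le.trans hcard, ?_⟩
  rintro w hw ⟨t, ht⟩
  have hDC : j (c 0) * j (e 1) - j (c 1) * j (e 0) ≠ 0 := by
    rw [← map_mul, ← map_mul, ← map_sub]
    exact fun h => hD (hji (h.trans (map_zero j).symm))
  obtain ⟨D, hDdef⟩ : ∃ D : C, D = j (c 0) * j (e 1) - j (c 1) * j (e 0) := ⟨_, rfl⟩
  rw [← hDdef] at hDC
  obtain ⟨A, hA⟩ : ∃ A : C, A = (w 0 * j (e 1) - w 1 * j (e 0)) / D := ⟨_, rfl⟩
  obtain ⟨B, hB⟩ : ∃ B : C, B = (j (c 0) * w 1 - j (c 1) * w 0) / D := ⟨_, rfl⟩
  have hwi : ∀ i, w i = A * j (c i) + B * j (e i) := by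
    intro i
    rw [hA, hB]
    refine mul_right_cancel₀ hDC ?_
    have h1 : ((w 0 * j (e 1) - w 1 * j (e 0)) / D * j (c i) +
        (j (c 0) * w 1 - j (c 1) * w 0) / D * j (e i)) * D =
        (w 0 * j (e 1) - w 1 * j (e 0)) * j (c i) + (j (c 0) * w 1 - j (c 1) * w 0) * j (e i) := by
      field_simp
    rw [h1, hDdef]
    fin_cases i
    · show w 0 * (j (c 0) * j (e 1) - j (c 1) * j (e 0)) = (w 0 * j (e 1) - w 1 * j (e 0)) * j (c 0) +
        (j (c 0) * w 1 - j (c 1) * w 0) * j (e 0)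
      ring
    · show w 1 * (j (c 0) * j (e 1) - j (c 1) * j (e 0)) = (w 0 * j (e 1) - w 1 * j (e 0)) * j (c 1) +
        (j (c 0) * w 1 - j (c 1) * w 0) * j (e 1)
      ring
  have hwedge : j (c 0) * (Ph g F G)^[n] w 1 - j (c 1) * (Ph g F G)^[n] w 0 = 0 := by
    rw [ht, hjc, hjc, hβ, hβ]
    simp only [Pi.smul_apply, smul_eq_mul]
    ring
  by_cases hA0 : A = 0
  · exfalso
    have hwB : w = B • fun i => j (e i) := by
      funext i
      rw [hwi i, hA0, zero_mul, zero_add]
      rfl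
    have hB0 : B ≠ 0 := by
      intro h0
      apply hw
      rw [hwB, h0, zero_smul]
    have h1 := YAd_smul g hF hG B (fun i => j (e i)) n
    rw [← hwB] at h1
    have h2 := ph_map σ j F G n e
    rw [← hg] at h2
    rw [h1, h2] at hwedge
    simp only [Pi.smul_apply, smul_eq_mul] at hwedge
    have h3 : B ^ (d ^ n) * j (c 0 * (Ph σ F G)^[n] e 1 - c 1 * (Ph σ F G)^[n] e 0) = 0 := by
      rw [map_sub, map_mul, map_mul, ← hwedge]
      ring
    rcases mul_eq_zero.1 h3 with h4 | h4
    · exact pow_ne_zero _ hB0 h4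
    · apply hlead
      rw [(rn_deg σ hF hG c e n).2]
      exact hji (h4.trans (map_zero j).symm)
  · obtain ⟨x, hx⟩ : ∃ x : C, x = B / A := ⟨_, rfl⟩
    have hwx : w = A • fun i => j (c i) + x * j (e i) := by
      funext i
      rw [hwi i]
      show A * j (c i) + B * j (e i) = A * (j (c i) + x * j (e i))
      rw [hx]
      field_simp
    have h1 := YAd_smul g hF hG A (fun i => j (c i) + x * j (e i)) n
    rw [← hwx] at h1
    rw [h1] at hwedge
    simp only [Pi.smul_apply, smul_eq_mul] at hwedge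
    have h2 := rn_eval (F := F) (G := G) σ j c e n x
    rw [← hg] at h2
    have h3 : (Rn σ F G c e n).eval₂ j x = 0 := by
      rw [h2]
      refine mul_left_cancel₀ (pow_ne_zero (d ^ n) hA0) ?_
      rw [mul_zero, ← hwedge]
      ring
    have h4 : aeval x P = 0 := by
      rw [hPdef, aeval_def, eval₂_map, ← hj]
      exact h3
    have hint : IsIntegral L x := by
      have h5 : IsIntegral K x := (Algebra.IsAlgebraic.isAlgebraic (R := K) x).isIntegral
      exact h5.tower_top
    have hmem : minpoly L x ∈ hfin.toFinset := by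
      rw [hfin.mem_toFinset]
      exact ⟨minpoly.monic hint, minpoly.irreducible hint, minpoly.dvd L x h4⟩
    have hroot := hrt (minpoly L x) (minpoly.irreducible hint)
    have hmin := minpoly.eq_of_irreducible_of_monic (minpoly.irreducible hint) hroot
      (minpoly.monic hint)
    have halg : Algebra.IsAlgebraic L C := Algebra.IsAlgebraic.tower_top (K := K) L
    have hclo : IsAlgClosure L C := ⟨inferInstance, halg⟩
    have hnor : Normal L C := IsAlgClosure.normal L C
    obtain ⟨τ, hτ⟩ := (Normal.minpoly_eq_iff_mem_orbit (F := L) (E := C)).1 hmin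
    refine ⟨_, Finset.mem_image_of_mem _ hmem, τ.restrictScalars K, A, ?_⟩
    rw [hwx]
    refine congrArg (fun v => A • v) ?_
    funext i
    show j (c i) + x * j (e i) = τ (j (c i) + rt (minpoly L x) * j (e i))
    have hτ' : τ (rt (minpoly L x)) = x := hτ
    rw [map_add, map_mul, hτ', hjc, hjc, τ.commutes, τ.commutes]

theorem orb_count {R K L : Type} [CommRing R] [Field K] [NumberField K] [Field L] [NumberField L]
    [Algebra K L] (ι : L →ₐ[K] AlgebraicClosure K) {fR : R →+* K} {σ : R →+* 𝓞 L}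
    (hσ : ∀ x, algebraMap (𝓞 L) L (σ x) = algebraMap K L (fR x))
    {F G : MvPolynomial (Fin 2) R} {d : ℕ} (hF : F.IsHomogeneous d) (hG : G.IsHomogeneous d)
    {c e : Fin 2 → 𝓞 L} (hD : c 0 * e 1 - c 1 * e 0 ≠ 0) {β : Fin 2 → AlgebraicClosure K}
    {s : AlgebraicClosure K} (hs : s ≠ 0)
    (hβ : ∀ i, ι (algebraMap (𝓞 L) L (c i)) = s * β i) {n ν : ℕ}
    (hlead : (Rn σ F G c e n).coeff (d ^ n) ≠ 0)
    (hP : ∀ S : Finset L[X], (∀ h ∈ S, h.Monic ∧ Irreducible h ∧
      h ∣ (Rn σ F G c e n).map (algebraMap (𝓞 L) L)) → S.card ≤ ν) :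
    ∃ S : Finset (Fin 2 → AlgebraicClosure K), S.card ≤ ν ∧
      ∀ w : Fin 2 → AlgebraicClosure K, w ≠ 0 →
        (∃ t : AlgebraicClosure K,
          (Ph ((algebraMap K (AlgebraicClosure K)).comp fR) F G)^[n] w = t • β) →
        ∃ r ∈ S, ∃ (g : AlgebraicClosure K ≃ₐ[K] AlgebraicClosure K) (a : AlgebraicClosure K),
          w = a • fun i => g (r i) := by
  letI : Algebra L (AlgebraicClosure K) := ι.toRingHom.toAlgebra
  haveI : IsScalarTower K L (AlgebraicClosure K) :=
    IsScalarTower.of_algebraMap_eq fun x => (ι.commutes x).symm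
  have hg : (algebraMap K (AlgebraicClosure K)).comp fR =
      ((algebraMap L (AlgebraicClosure K)).comp (algebraMap (𝓞 L) L)).comp σ := by
    ext x
    show algebraMap K (AlgebraicClosure K) (fR x) = ι (algebraMap (𝓞 L) L (σ x))
    rw [hσ, ι.commutes]
  exact YAd_aux hg hF hG hD hs hβ hlead hP

end Pool.Agent.H42.ES
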