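/-
ROW YAe. Surjectivity and monotonicity. PROOFS. Let `C = AlgebraicClosure K`, `g = (algebraMap K C).comp fR`.
* ph_surj: `A` algebraically closed, `v ≠ 0`, `1 ≤ d`: the form `H = C (v 1) * F - C (v 0) * G` (over `A`, after mapping by `f`) has a nontrivial zero `u` (as in fix_ex, row XCa: if `H(1,0) = 0` take `u = ![1, 0]`; otherwise
  `H(X, 1)` (lp of row XAa) has degree `d ≥ 1` and a root `x`, `u = ![x, 1]`). So `v 0 * G(u) = v 1 * F(u)`, and `Ph f F G u = t • v` by par_iff (row XCa); `t ≠ 0` because `Ph f F G u ≠ 0` (hnz). Iterate: `ph_surj` for all `n` by induction: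
  `Ph^[n] u = t • v`, `t ≠ 0`: from `Ph u' = t' • u`: `Ph^[n+1] u' = Ph^[n] (t' • u) = t'^(d^n) • Ph^[n] u` (ph_smul iterated).
* es_mono: levels `n ≤ N`: given `S` for level `N` let `S'` be its image under `(Ph g F G)^[N-n]` (card_image_le). For `w ≠ 0` of level `n` (`(Ph g F G)^[n] w = t • β`) ph_surj gives `u` with `(Ph g F G)^[N-n] u = t' • w`, `t' ≠ 0`, `u ≠ 0`; it is of level `N`
  (Function.iterate_add_apply, ph_smul iterated). So `u = a • (τ ∘ r)`, `r ∈ S`, and `t' • w = a^(d^(N-n)) • (τ ∘ (Ph g F G)^[N-n] r)` (ph_map of row XBc with `τ`, `(τ : C →+* C).comp g = g`).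
-/
import Pool.Agent.H42.ES.XCa
import Pool.Agent.H42.ES.XBc

set_option autoImplicit false

namespace Pool.Agent.H42.ES

open Polynomial NumberField IsDedekindDomain

theorem YAe_lp {R A : Type} [CommRing R] [Field A] (f : R →+* A) (F : MvPolynomial (Fin 2) R)
    (x : A) : (lp f ![1, 0] ![0, 1] F).eval x = MvPolynomial.eval₂ f ![x, 1] F := by
  have h1 := lp_eval (E := A) (A := A) f ![1, 0] ![0, 1] F x
  have h2 : (algebraMap A A).comp f = f := by
    ext r
    rfl
  have h3 : (fun i => x * algebraMap A A ((![1, 0] : Fin 2 → A) i) +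
      algebraMap A A ((![0, 1] : Fin 2 → A) i)) = ![x, 1] := by
    funext i
    fin_cases i
    · simp
    · simp
  rw [h2, h3] at h1
  rw [← h1, coe_aeval_eq_eval]

theorem YAe_it {R A : Type} [CommRing R] [CommRing A] (f : R →+* A)
    {F G : MvPolynomial (Fin 2) R} {d : ℕ} (hF : F.IsHomogeneous d) (hG : G.IsHomogeneous d)
    (n : ℕ) (a : A) (v : Fin 2 → A) :
    (Ph f F G)^[n] (a • v) = a ^ (d ^ n) • (Ph f F G)^[n] v := by
  induction n with
  | zero => simp
  | succ n ih =>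
    rw [Function.iterate_succ_apply', Function.iterate_succ_apply', ih, ph_smul f hF hG,
      ← pow_mul, ← pow_succ]

theorem YAe_one {R A : Type} [CommRing R] [Field A] [IsAlgClosed A] (f : R →+* A)
    {F G : MvPolynomial (Fin 2) R} {d : ℕ} (hd : 1 ≤ d) (hF : F.IsHomogeneous d)
    (hG : G.IsHomogeneous d) (hnz : ∀ w : Fin 2 → A, w ≠ 0 → Ph f F G w ≠ 0)
    {v : Fin 2 → A} (hv : v ≠ 0) :
    ∃ (u : Fin 2 → A) (t : A), u ≠ 0 ∧ t ≠ 0 ∧ Ph f F G u = t • v := by
  have key : ∃ u : Fin 2 → A, u ≠ 0 ∧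
      v 0 * MvPolynomial.eval₂ f u G = v 1 * MvPolynomial.eval₂ f u F := by
    by_cases h0 : v 0 * MvPolynomial.eval₂ f ![1, 0] G = v 1 * MvPolynomial.eval₂ f ![1, 0] F
    · refine ⟨![1, 0], ?_, h0⟩
      intro h
      have h1 := congrFun h 0
      exact one_ne_zero h1
    · obtain ⟨ha1, ha2⟩ := lp_deg (E := A) f ![1, 0] ![0, 1] hF
      obtain ⟨hb1, hb2⟩ := lp_deg (E := A) f ![1, 0] ![0, 1] hG
      have hc : (C (v 0) * lp f ![1, 0] ![0, 1] G - C (v 1) * lp f ![1, 0] ![0, 1] F).coeff d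
          ≠ 0 := by
        rw [coeff_sub, coeff_C_mul, coeff_C_mul, ha2, hb2]
        exact sub_ne_zero.2 h0
      have hdeg : (C (v 0) * lp f ![1, 0] ![0, 1] G -
          C (v 1) * lp f ![1, 0] ![0, 1] F).degree ≠ 0 := by
        intro hd0
        have h1 : (C (v 0) * lp f ![1, 0] ![0, 1] G -
            C (v 1) * lp f ![1, 0] ![0, 1] F).coeff d = 0 := by
          refine coeff_eq_zero_of_degree_lt ?_
          rw [hd0]
          exact_mod_cast hd
        exact hc h1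
      obtain ⟨x, hx⟩ := IsAlgClosed.exists_root _ hdeg
      have hx' : (C (v 0) * lp f ![1, 0] ![0, 1] G -
          C (v 1) * lp f ![1, 0] ![0, 1] F).eval x = 0 := hx
      rw [eval_sub, eval_mul, eval_mul, eval_C, eval_C, YAe_lp, YAe_lp] at hx'
      refine ⟨![x, 1], ?_, sub_eq_zero.1 hx'⟩
      intro h
      have h1 := congrFun h 1
      exact one_ne_zero h1
  obtain ⟨u, hu, huv⟩ := key
  obtain ⟨t, ht⟩ := (par_iff (w := Ph f F G u) hv).2 huv
  refine ⟨u, t, hu, ?_, ht⟩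
  intro h0
  apply hnz u hu
  rw [ht, h0, zero_smul]

theorem ph_surj {R A : Type} [CommRing R] [Field A] [IsAlgClosed A] (f : R →+* A)
    {F G : MvPolynomial (Fin 2) R} {d : ℕ} (hd : 1 ≤ d) (hF : F.IsHomogeneous d)
    (hG : G.IsHomogeneous d) (hnz : ∀ w : Fin 2 → A, w ≠ 0 → Ph f F G w ≠ 0) (n : ℕ)
    {v : Fin 2 → A} (hv : v ≠ 0) :
    ∃ (u : Fin 2 → A) (t : A), u ≠ 0 ∧ t ≠ 0 ∧ (Ph f F G)^[n] u = t • v := by
  induction n with
  | zero => exact ⟨v, 1, hv, one_ne_zero, by simp⟩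
  | succ n ih =>
    obtain ⟨w, t, hw, ht, h1⟩ := ih
    obtain ⟨u, s, hu, hs, h2⟩ := YAe_one f hd hF hG hnz hw
    refine ⟨u, s ^ (d ^ n) * t, hu, mul_ne_zero (pow_ne_zero _ hs) ht, ?_⟩
    rw [Function.iterate_succ_apply, h2, YAe_it f hF hG, h1, smul_smul]

theorem es_mono {R K : Type} [CommRing R] [Field K] [NumberField K] {fR : R →+* K}
    {F G : MvPolynomial (Fin 2) R} {d : ℕ} (hd : 1 ≤ d) (hF : F.IsHomogeneous d)
    (hG : G.IsHomogeneous d)
    (hnz : ∀ w : Fin 2 → AlgebraicClosure K, w ≠ 0 →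
      Ph ((algebraMap K (AlgebraicClosure K)).comp fR) F G w ≠ 0)
    {β : Fin 2 → AlgebraicClosure K} {n N ν : ℕ} (hn : n ≤ N)
    (h : ∃ S : Finset (Fin 2 → AlgebraicClosure K), S.card ≤ ν ∧
      ∀ w : Fin 2 → AlgebraicClosure K, w ≠ 0 →
        (∃ t : AlgebraicClosure K,
          (Ph ((algebraMap K (AlgebraicClosure K)).comp fR) F G)^[N] w = t • β) →
        ∃ r ∈ S, ∃ (g : AlgebraicClosure K ≃ₐ[K] AlgebraicClosure K) (a : AlgebraicClosure K),
          w = a • fun i => g (r i)) :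
    ∃ S : Finset (Fin 2 → AlgebraicClosure K), S.card ≤ ν ∧
      ∀ w : Fin 2 → AlgebraicClosure K, w ≠ 0 →
        (∃ t : AlgebraicClosure K,
          (Ph ((algebraMap K (AlgebraicClosure K)).comp fR) F G)^[n] w = t • β) →
        ∃ r ∈ S, ∃ (g : AlgebraicClosure K ≃ₐ[K] AlgebraicClosure K) (a : AlgebraicClosure K),
          w = a • fun i => g (r i) := by
  classical
  obtain ⟨S, hS, hS2⟩ := h
  refine ⟨S.image ((Ph ((algebraMap K (AlgebraicClosure K)).comp fR) F G)^[N - n]),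
    Finset.card_image_le.trans hS, ?_⟩
  rintro w hw ⟨t, ht⟩
  obtain ⟨u, t', hu, ht', h1⟩ := ph_surj ((algebraMap K (AlgebraicClosure K)).comp fR) hd hF hG
    hnz (N - n) hw
  have h2 : (Ph ((algebraMap K (AlgebraicClosure K)).comp fR) F G)^[N] u =
      (t' ^ (d ^ n) * t) • β := by
    have h3 : N = n + (N - n) := by omega
    have h4 : (Ph ((algebraMap K (AlgebraicClosure K)).comp fR) F G)^[N] u =
        (Ph ((algebraMap K (AlgebraicClosure K)).comp fR) F G)^[n]
          ((Ph ((algebraMap K (AlgebraicClosure K)).comp fR) F G)^[N - n] u) := by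
      rw [← Function.iterate_add_apply, ← h3]
    rw [h4, h1, YAe_it _ hF hG, ht, smul_smul]
  obtain ⟨r, hr, τ, a, hra⟩ := hS2 u hu ⟨_, h2⟩
  refine ⟨_, Finset.mem_image_of_mem _ hr, τ, t'⁻¹ * a ^ (d ^ (N - n)), ?_⟩
  have h5 : ((τ : AlgebraicClosure K →+* AlgebraicClosure K)).comp
      ((algebraMap K (AlgebraicClosure K)).comp fR) =
      (algebraMap K (AlgebraicClosure K)).comp fR := by
    ext x
    show τ (algebraMap K (AlgebraicClosure K) (fR x)) = _
    rw [τ.commutes]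
    rfl
  have h6 := ph_map ((algebraMap K (AlgebraicClosure K)).comp fR)
    (τ : AlgebraicClosure K →+* AlgebraicClosure K) F G (N - n) r
  rw [h5] at h6
  have h7 : t' • w = a ^ (d ^ (N - n)) •
      fun i => τ ((Ph ((algebraMap K (AlgebraicClosure K)).comp fR) F G)^[N - n] r i) := by
    rw [← h1, hra, YAe_it _ hF hG]
    exact congrArg _ h6
  rw [mul_smul, ← h7, smul_smul, inv_mul_cancel₀ ht', one_smul]

end Pool.Agent.H42.ES
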