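/-
ROW YAg. Rigidity. PROOF. Write `V = v.valuation L`, `a = algebraMap (𝓞 L) L`, all elements of `𝓞 L` have `V ≤ 1` (valuation_le_one), those of `v.asIdeal` have `V < 1`, the others `V = 1` (valuation_lt_one_iff_mem).
`Ψ = (Ph (a.comp σ) F G)^[m]` on vectors over `L`, `c, e` vectors over `L` (images), `D = c 0 * e 1 - c 1 * e 0`, `V D = 1`. `R = (Rn σ F G c e m).map a`, `E = C (e 1) * It 0 - C (e 0) * It 1` (`It = It (a.comp σ) F G c e m`; it is the map of the
  same polynomial over `𝓞 L`, it_map). For `x ∈ L`: `Ψ (c + x e) = (E x / D) c + (R x / D) e` (rn_eval, it_eval; identity `D w = (w ∧ e) c + (c ∧ w) e`). `R` has `V (R.coeff i) < 1` for `i < d^m` by ex_red (`j = 1`), in particular for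
  `i = 0, 1` (`2 ≤ d ≤ d^m`). `V (E.coeff 0) = 1`: `E.coeff 0 = E 0 = Ψ(c) ∧ e`; in the residue ring (a domain) `Ψ(c) ≠ 0` (red_nz, row XBc, iterated; ph_map) and `c ∧ Ψ(c) = R.coeff 0 = 0`, `D ≠ 0`: if also `Ψ(c) ∧ e = 0` then
  `D Ψ(c) = 0`, contradiction. Let `ψ x = R x / E x`, `z j = ψ^[j] 0`. Induction: `V (z j) < 1` and `(Ph (a.comp σ) F G)^[j * m] c = t_j • (c + z_j e)` with `V t_j = 1` (ph_smul, row XAa, for the iterate: `Ψ (t • u) = t^(d^m) • Ψ u`).
  `z 1 ≠ 0` since otherwise `(Ph ..)^[m] c` is a multiple of `c` (hper). `V (z (j+1) - z j) < V (z 1)` for `j ≥ 1` (contr, row YAc; strict at the first step, `≤` later; equal points give `0 < V (z 1)`), so `V (z j) = V (z 1)` for `j ≥ 1`. Finally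
  `a ((Rn σ F G c e (j*m)).eval 0) = c ∧ (Ph ..)^[j * m] c = t_j z_j D` (rn_eval at `x = 0`) has value `V (z 1) = exp (-ν)`, `0 < V (z 1) < 1` (see the end of loc_A in RM/LOc.lean for the extraction of `ν`).
-/
import Pool.Agent.H42.ES.YAb
import Pool.Agent.H42.ES.YAc

set_option autoImplicit false

namespace Pool.Agent.H42.ES

open Polynomial NumberField IsDedekindDomain WithZero

private theorem YAg_smul {R A : Type} [CommRing R] [CommRing A] {F G : MvPolynomial (Fin 2) R}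
    {d : ℕ} (f : R →+* A) (hF : F.IsHomogeneous d) (hG : G.IsHomogeneous d) (n : ℕ) (a : A)
    (v : Fin 2 → A) : (Ph f F G)^[n] (a • v) = a ^ d ^ n • (Ph f F G)^[n] v := by
  induction n with
  | zero => simp
  | succ n ih =>
    rw [Function.iterate_succ_apply', ih, ph_smul f hF hG, Function.iterate_succ_apply', ← pow_mul,
      ← pow_succ]

private theorem YAg_nz {R A : Type} [CommRing R] [CommRing A] [IsDomain A] (f : R →+* A)
    {F G : MvPolynomial (Fin 2) R}
    (hg : ∃ N : ℕ, (MvPolynomial.X (0 : Fin 2) : MvPolynomial (Fin 2) A) ^ N ∈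
        Ideal.span {MvPolynomial.map f F, MvPolynomial.map f G} ∧
      (MvPolynomial.X (1 : Fin 2) : MvPolynomial (Fin 2) A) ^ N ∈
        Ideal.span {MvPolynomial.map f F, MvPolynomial.map f G})
    {w : Fin 2 → A} (hw : w ≠ 0) (n : ℕ) : (Ph f F G)^[n] w ≠ 0 := by
  induction n with
  | zero => exact hw
  | succ n ih =>
    rw [Function.iterate_succ_apply']
    exact red_nz f hg ih

private theorem YAg_unit {R L : Type} [CommRing R] [Field L] [NumberField L] {σ : R →+* 𝓞 L}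
    {F G : MvPolynomial (Fin 2) R}
    {c e : Fin 2 → 𝓞 L} {v : HeightOneSpectrum (𝓞 L)} {m : ℕ}
    (hx : ExcRed σ F G c v.asIdeal m) (he : c 0 * e 1 - c 1 * e 0 ∉ v.asIdeal)
    (hr : c 0 * (Ph σ F G)^[m] c 1 - c 1 * (Ph σ F G)^[m] c 0 ∈ v.asIdeal) :
    e 1 * (Ph σ F G)^[m] c 0 - e 0 * (Ph σ F G)^[m] c 1 ∉ v.asIdeal := by
  intro hmem
  obtain ⟨⟨i, hi⟩, hg, -, -⟩ := hx
  have hc : (fun i => Ideal.Quotient.mk v.asIdeal (c i)) ≠ 0 := fun h => hi (congrFun h i)
  have h1 := YAg_nz ((Ideal.Quotient.mk v.asIdeal).comp σ) hg hc m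
  rw [ph_map] at h1
  apply h1
  have hk : ∀ k : Fin 2, (Ph σ F G)^[m] c k ∈ v.asIdeal := by
    intro k
    have h2 : (c 0 * e 1 - c 1 * e 0) * (Ph σ F G)^[m] c k =
        (e 1 * (Ph σ F G)^[m] c 0 - e 0 * (Ph σ F G)^[m] c 1) * c k +
          (c 0 * (Ph σ F G)^[m] c 1 - c 1 * (Ph σ F G)^[m] c 0) * e k := by
      fin_cases k
      · simp only [Fin.zero_eta]
        ring
      · simp only [Fin.mk_one]
        ring
    have h3 : (c 0 * e 1 - c 1 * e 0) * (Ph σ F G)^[m] c k ∈ v.asIdeal := by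
      rw [h2]
      exact v.asIdeal.add_mem (v.asIdeal.mul_mem_right _ hmem) (v.asIdeal.mul_mem_right _ hr)
    rcases v.isPrime.mem_or_mem h3 with h4 | h4
    · exact absurd h4 he
    · exact h4
  funext k
  exact Ideal.Quotient.eq_zero_iff_mem.2 (hk k)

theorem rigid {R L : Type} [CommRing R] [Field L] [NumberField L] {σ : R →+* 𝓞 L}
    {F G : MvPolynomial (Fin 2) R} {d : ℕ} (hd : 2 ≤ d) (hF : F.IsHomogeneous d)
    (hG : G.IsHomogeneous d) {c e : Fin 2 → 𝓞 L} {v : HeightOneSpectrum (𝓞 L)} {m : ℕ}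
    (hx : ExcRed σ F G c v.asIdeal m) (he : c 0 * e 1 - c 1 * e 0 ∉ v.asIdeal)
    (hper : ¬ ∃ n : ℕ, 1 ≤ n ∧ ∃ t : L, (Ph ((algebraMap (𝓞 L) L).comp σ) F G)^[n]
      (fun i => algebraMap (𝓞 L) L (c i)) = t • fun i => algebraMap (𝓞 L) L (c i)) :
    ∃ ν : ℕ, ∀ j : ℕ, 1 ≤ j → v.valuation L (algebraMap (𝓞 L) L
      ((Rn σ F G c e (j * m)).eval 0)) = exp (-(ν : ℤ)) := by
  classical
  obtain ⟨α, hα⟩ : ∃ α : 𝓞 L →+* L, α = algebraMap (𝓞 L) L := ⟨_, rfl⟩
  obtain ⟨V, hV⟩ : ∃ V : Valuation L ℤᵐ⁰, V = v.valuation L := ⟨_, rfl⟩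
  have hm : 1 ≤ m := hx.2.2.1
  have hle : ∀ x : 𝓞 L, V (α x) ≤ 1 := fun x => by
    rw [hV, hα]
    exact v.valuation_le_one x
  have hlt : ∀ x : 𝓞 L, V (α x) < 1 ↔ x ∈ v.asIdeal := fun x => by
    rw [hV, hα]
    exact v.valuation_lt_one_iff_mem x
  have heq : ∀ x : 𝓞 L, x ∉ v.asIdeal → V (α x) = 1 := fun x hx =>
    le_antisymm (hle x) (not_lt.1 fun h => hx ((hlt x).1 h))
  rw [← hα] at hper ⊢
  rw [← hV]
  have hit0 : ∀ (n : ℕ) (i : Fin 2), (It σ F G c e n i).eval 0 = (Ph σ F G)^[n] c i := by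
    intro n i
    have h1 := it_eval (F := F) (G := G) σ (RingHom.id (𝓞 L)) c e n i 0
    have h2 : (fun i => (RingHom.id (𝓞 L)) (c i) + 0 * (RingHom.id (𝓞 L)) (e i)) = c := by
      funext k
      simp
    rw [h2, RingHom.id_comp] at h1
    exact h1
  obtain ⟨EO, hEO⟩ : ∃ EO : (𝓞 L)[X], EO = C (e 1) * It σ F G c e m 0 - C (e 0) * It σ F G c e m 1 :=
    ⟨_, rfl⟩
  obtain ⟨hred, -⟩ := ex_red hF hG hx he 1
  rw [one_mul] at hred
  have hdm : 2 ≤ d ^ m := hd.trans (Nat.le_self_pow (by omega) d)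
  have hr0 := hred 0 (by omega)
  have hr1 := hred 1 (by omega)
  have hEO0 : EO.coeff 0 ∉ v.asIdeal := by
    rw [hEO, coeff_zero_eq_eval_zero, eval_sub, eval_mul, eval_mul, eval_C, eval_C, hit0, hit0]
    refine YAg_unit hx he ?_
    have h1 := hr0
    rw [coeff_zero_eq_eval_zero, Rn, eval_sub, eval_mul, eval_mul, eval_C, eval_C, hit0, hit0] at h1
    exact h1
  have hD : V (α (c 0 * e 1 - c 1 * e 0)) = 1 := heq _ he
  have hRle : ∀ i, V (((Rn σ F G c e m).map α).coeff i) ≤ 1 := fun i => by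
    rw [coeff_map]
    exact hle _
  have hEle : ∀ i, V ((EO.map α).coeff i) ≤ 1 := fun i => by
    rw [coeff_map]
    exact hle _
  have hR0 : V (((Rn σ F G c e m).map α).coeff 0) < 1 := by
    rw [coeff_map]
    exact (hlt _).2 hr0
  have hR1 : V (((Rn σ F G c e m).map α).coeff 1) < 1 := by
    rw [coeff_map]
    exact (hlt _).2 hr1
  have hE0 : V ((EO.map α).coeff 0) = 1 := by
    rw [coeff_map]
    exact heq _ hEO0
  have hcon := fun {x y : L} (hx : V x < 1) (hy : V y < 1) =>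
    contr hRle hEle hR0 hR1 hE0 hx hy
  have hDne : α (c 0) * α (e 1) - α (c 1) * α (e 0) ≠ 0 := by
    intro h
    rw [map_sub, map_mul, map_mul, h, map_zero] at hD
    exact zero_ne_one hD
  have hDV : V (α (c 0) * α (e 1) - α (c 1) * α (e 0)) = 1 := by
    rw [map_sub, map_mul, map_mul] at hD
    exact hD
  -- one step
  have step : ∀ x : L, V x < 1 → (Ph (α.comp σ) F G)^[m] (fun i => α (c i) + x * α (e i)) =
      ((EO.map α).eval x / (α (c 0) * α (e 1) - α (c 1) * α (e 0))) •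
        fun i => α (c i) + (((Rn σ F G c e m).map α).eval x / (EO.map α).eval x) * α (e i) := by
    intro x hx1
    have hE1 := (hcon hx1 hx1).1
    have hEne : (EO.map α).eval x ≠ 0 := by
      intro h
      rw [h, map_zero] at hE1
      exact zero_ne_one hE1
    have hR : ((Rn σ F G c e m).map α).eval x =
        α (c 0) * (Ph (α.comp σ) F G)^[m] (fun i => α (c i) + x * α (e i)) 1 -
          α (c 1) * (Ph (α.comp σ) F G)^[m] (fun i => α (c i) + x * α (e i)) 0 := by
      rw [eval_map, rn_eval]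
    have hE : (EO.map α).eval x =
        α (e 1) * (Ph (α.comp σ) F G)^[m] (fun i => α (c i) + x * α (e i)) 0 -
          α (e 0) * (Ph (α.comp σ) F G)^[m] (fun i => α (c i) + x * α (e i)) 1 := by
      rw [hEO, eval_map, eval₂_sub, eval₂_mul, eval₂_mul, eval₂_C, eval₂_C, it_eval, it_eval]
    have key : ∀ i, (Ph (α.comp σ) F G)^[m] (fun i => α (c i) + x * α (e i)) i =
        ((EO.map α).eval x / (α (c 0) * α (e 1) - α (c 1) * α (e 0))) *
          (α (c i) + (((Rn σ F G c e m).map α).eval x / (EO.map α).eval x) * α (e i)) := by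
      intro i
      have h1 : ((EO.map α).eval x / (α (c 0) * α (e 1) - α (c 1) * α (e 0))) *
          (α (c i) + (((Rn σ F G c e m).map α).eval x / (EO.map α).eval x) * α (e i)) =
          ((EO.map α).eval x * α (c i) + ((Rn σ F G c e m).map α).eval x * α (e i)) /
            (α (c 0) * α (e 1) - α (c 1) * α (e 0)) := by
        field_simp
      rw [h1, eq_div_iff hDne, hR, hE]
      fin_cases i
      · simp only [Fin.zero_eta]
        ring
      · simp only [Fin.mk_one]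
        ring
    funext i
    rw [Pi.smul_apply, smul_eq_mul]
    exact key i
  obtain ⟨ψ, hψ⟩ : ∃ ψ : L → L, ψ = fun x =>
    ((Rn σ F G c e m).map α).eval x / (EO.map α).eval x := ⟨_, rfl⟩
  obtain ⟨z, hz⟩ : ∃ z : ℕ → L, z = fun j => ψ^[j] 0 := ⟨_, rfl⟩
  have hz0 : z 0 = 0 := by
    rw [hz]
    rfl
  have hzs : ∀ j, z (j + 1) = ψ (z j) := fun j => by
    rw [hz]
    exact Function.iterate_succ_apply' _ _ _
  have hψV : ∀ x : L, V x < 1 → V (ψ x) < 1 := by
    intro x hx1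
    obtain ⟨h1, h2, -, -⟩ := hcon hx1 hx1
    rw [hψ]
    show V (((Rn σ F G c e m).map α).eval x / (EO.map α).eval x) < 1
    rw [map_div₀, h1, div_one]
    exact h2
  have hzV : ∀ j, V (z j) < 1 := by
    intro j
    induction j with
    | zero =>
      rw [hz0, map_zero]
      exact zero_lt_one
    | succ j ih =>
      rw [hzs]
      exact hψV _ ih
  have horb : ∀ j, ∃ t : L, V t = 1 ∧ (Ph (α.comp σ) F G)^[j * m] (fun i => α (c i)) =
      t • fun i => α (c i) + z j * α (e i) := by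
    intro j
    induction j with
    | zero =>
      refine ⟨1, map_one _, ?_⟩
      rw [zero_mul, hz0]
      funext i
      simp
    | succ j ih =>
      obtain ⟨t, ht, h1⟩ := ih
      refine ⟨t ^ d ^ m * ((EO.map α).eval (z j) / (α (c 0) * α (e 1) - α (c 1) * α (e 0))), ?_, ?_⟩
      · rw [map_mul, map_pow, ht, one_pow, one_mul, map_div₀, hDV, div_one]
        exact (hcon (hzV j) (hzV j)).1
      · have h2 : (j + 1) * m = m + j * m := by ring
        rw [h2, Function.iterate_add_apply, h1, YAg_smul _ hF hG, step _ (hzV j), smul_smul, hzs, hψ]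
  have hz1 : z 1 ≠ 0 := by
    intro h
    obtain ⟨t, -, h1⟩ := horb 1
    apply hper
    refine ⟨m, hm, t, ?_⟩
    rw [one_mul, h] at h1
    rw [h1]
    funext i
    simp
  have hdiff : ∀ j, 1 ≤ j → V (z (j + 1) - z j) < V (z 1) := by
    intro j hj
    induction j, hj using Nat.le_induction with
    | base =>
      have h1 := (hcon (hzV 1) (hzV 0)).2.2.2 (by rw [hz0]; exact hz1)
      have h2 : V (z (1 + 1) - z 1) < V (z 1 - z 0) := by
        rw [hzs 1]
        have h3 : z 1 = ψ (z 0) := hzs 0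
        have h4 : V (ψ (z 1) - z 1) = V (ψ (z 1) - ψ (z 0)) := by rw [← h3]
        rw [h4, hψ]
        exact h1
      rwa [hz0, sub_zero] at h2
    | succ j hj ih =>
      have h1 := (hcon (hzV (j + 1)) (hzV j)).2.2.1
      refine lt_of_le_of_lt ?_ ih
      rw [hzs (j + 1)]
      have h3 : z (j + 1) = ψ (z j) := hzs j
      have h4 : V (ψ (z (j + 1)) - z (j + 1)) = V (ψ (z (j + 1)) - ψ (z j)) := by rw [← h3]
      rw [h4, hψ]
      exact h1
  have hval : ∀ j, 1 ≤ j → V (z j) = V (z 1) := by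
    intro j hj
    induction j, hj using Nat.le_induction with
    | base => rfl
    | succ j hj ih =>
      have h1 : z (j + 1) = z j + (z (j + 1) - z j) := by ring
      rw [h1, Valuation.map_add_eq_of_lt_left _ (by rw [ih]; exact hdiff j hj), ih]
  have hne : V (z 1) ≠ 0 := by
    rw [ne_eq, map_eq_zero]
    exact hz1
  obtain ⟨ν, hν⟩ : ∃ ν : ℕ, V (z 1) = exp (-(ν : ℤ)) := by
    have h0 := hzV 1
    have h1 := exp_log hne
    rw [← h1, ← exp_zero, exp_lt_exp] at h0
    refine ⟨(-log (V (z 1))).toNat, ?_⟩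
    rw [Int.toNat_of_nonneg (by omega), neg_neg, h1]
  refine ⟨ν, fun j hj => ?_⟩
  obtain ⟨t, ht, h1⟩ := horb j
  have h2 := rn_eval (F := F) (G := G) σ α c e (j * m) 0
  have h3 : (fun i => α (c i) + 0 * α (e i)) = fun i => α (c i) := by
    funext i
    rw [zero_mul, add_zero]
  have h4 : (Rn σ F G c e (j * m)).eval₂ α 0 = α ((Rn σ F G c e (j * m)).eval 0) := by
    rw [← eval₂_hom, map_zero]
  rw [h3, h1, h4] at h2
  have h5 : α ((Rn σ F G c e (j * m)).eval 0) =
      t * z j * (α (c 0) * α (e 1) - α (c 1) * α (e 0)) := by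
    rw [h2]
    simp only [Pi.smul_apply, smul_eq_mul]
    ring
  rw [h5, map_mul, map_mul, ht, hDV, one_mul, mul_one, hval j hj, hν]

end Pool.Agent.H42.ES
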