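/-
ROW YAf. Eventual stability from exceptional reduction. PROOF of es_exc. Let `C = AlgebraicClosure K`, `g = (algebraMap K C).comp fR`. Choose `e = ![0,1]` or `![1,0]` over `𝓞 L` with `c 0 * e 1 - c 1 * e 0 ∉ v.asIdeal` (first part of ExcRed: some `c i ∉ v.asIdeal`). hper goes over to `L` (apply `ι`: ph_map, `ι ∘ c = s • β`, ph_smul iterated). rigid (row YAg) gives `ν`; for
  `j ≥ 1`, `n = j * m`: let `P = (Rn σ F G c e n).map (algebraMap (𝓞 L) L)`: by ex_red (row YAb) and rn_deg (row YAa) `natDegree P = d^n`, leading coefficient of value `1`, other coefficients of value `< 1`; fac_count (RM/LOa) with `b = 0`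
  (`comp (X + C 0)` is the identity) gives hP of orb_count (row YAd) with this `ν`. So the claim of EvSt with `B = ν` for the levels `(n+1) * m ≥ n`, and es_mono (row YAe) for level `n`. (hnz: red_nz of row XBc over `C`, from hres by mapping to `C`.)
-/
import Pool.Agent.H42.RM.LOa
import Pool.Agent.H42.ES.YAe
import Pool.Agent.H42.ES.YAg
import Pool.Agent.H42.ES.YAd
import Pool.Agent.H42.ES.XBb

set_option autoImplicit false

namespace Pool.Agent.H42.ES

open Polynomial NumberField IsDedekindDomain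

theorem es_exc {R K L : Type} [CommRing R] [Field K] [NumberField K] [Field L] [NumberField L]
    [Algebra K L] (ι : L →ₐ[K] AlgebraicClosure K) {fR : R →+* K} {σ : R →+* 𝓞 L}
    (hσ : ∀ x, algebraMap (𝓞 L) L (σ x) = algebraMap K L (fR x))
    {F G : MvPolynomial (Fin 2) R} {d : ℕ} (hd : 2 ≤ d) (hF : F.IsHomogeneous d)
    (hG : G.IsHomogeneous d)
    (hres : ∃ N : ℕ,
      (MvPolynomial.X (0 : Fin 2) : MvPolynomial (Fin 2) K) ^ N ∈
        Ideal.span {MvPolynomial.map fR F, MvPolynomial.map fR G} ∧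
      (MvPolynomial.X (1 : Fin 2) : MvPolynomial (Fin 2) K) ^ N ∈
        Ideal.span {MvPolynomial.map fR F, MvPolynomial.map fR G})
    {c : Fin 2 → 𝓞 L} {β : Fin 2 → AlgebraicClosure K} {s : AlgebraicClosure K} (hs : s ≠ 0)
    (hβ : ∀ i, ι (algebraMap (𝓞 L) L (c i)) = s * β i)
    (hper : ¬ ∃ n : ℕ, 1 ≤ n ∧ ∃ t : AlgebraicClosure K,
      (Ph ((algebraMap K (AlgebraicClosure K)).comp fR) F G)^[n] β = t • β)
    {v : HeightOneSpectrum (𝓞 L)} {m : ℕ} (hx : ExcRed σ F G c v.asIdeal m) :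
    EvSt fR F G β := by
  classical
  obtain ⟨hc, hgood, hm, -⟩ := id hx
  haveI hprime : v.asIdeal.IsPrime := v.isPrime
  -- the vector `e`
  obtain ⟨e, he⟩ : ∃ e : Fin 2 → 𝓞 L, c 0 * e 1 - c 1 * e 0 ∉ v.asIdeal := by
    obtain ⟨i, hi⟩ := hc
    rw [ne_eq, Ideal.Quotient.eq_zero_iff_mem] at hi
    fin_cases i
    · refine ⟨![0, 1], ?_⟩
      simpa using hi
    · refine ⟨![1, 0], ?_⟩
      simpa using hi
  have hcomp : ((ι : L →+* AlgebraicClosure K)).comp ((algebraMap (𝓞 L) L).comp σ) =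
      (algebraMap K (AlgebraicClosure K)).comp fR := by
    refine RingHom.ext fun x => ?_
    show ι (algebraMap (𝓞 L) L (σ x)) = algebraMap K (AlgebraicClosure K) (fR x)
    rw [hσ, AlgHom.commutes]
  have hsm : ∀ (n : ℕ) (a : AlgebraicClosure K) (u : Fin 2 → AlgebraicClosure K),
      (Ph ((algebraMap K (AlgebraicClosure K)).comp fR) F G)^[n] (a • u) =
        a ^ (d ^ n) • (Ph ((algebraMap K (AlgebraicClosure K)).comp fR) F G)^[n] u := by
    intro n a u
    induction n with
    | zero => simp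
    | succ n ih =>
      rw [Function.iterate_succ_apply', ih, ph_smul _ hF hG, Function.iterate_succ_apply',
        ← pow_mul, ← pow_succ]
  have hperL : ¬ ∃ n : ℕ, 1 ≤ n ∧ ∃ t : L, (Ph ((algebraMap (𝓞 L) L).comp σ) F G)^[n]
      (fun i => algebraMap (𝓞 L) L (c i)) = t • fun i => algebraMap (𝓞 L) L (c i) := by
    rintro ⟨n, hn, t, ht⟩
    refine hper ⟨n, hn, (s ^ (d ^ n))⁻¹ * (ι t * s), ?_⟩
    have h1 := ph_map ((algebraMap (𝓞 L) L).comp σ) (ι : L →+* AlgebraicClosure K) F G n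
      (fun i => algebraMap (𝓞 L) L (c i))
    rw [hcomp, ht] at h1
    have h2 : (fun i => (ι : L →+* AlgebraicClosure K) (algebraMap (𝓞 L) L (c i))) = s • β := by
      funext i
      exact hβ i
    rw [h2, hsm] at h1
    have h3 : (fun i => (ι : L →+* AlgebraicClosure K)
        ((t • fun i => algebraMap (𝓞 L) L (c i)) i)) = (ι t * s) • β := by
      funext i
      show ι (t * algebraMap (𝓞 L) L (c i)) = (ι t * s) * β i
      rw [map_mul, hβ]
      ring
    rw [h3] at h1
    rw [mul_smul, ← h1, smul_smul, inv_mul_cancel₀ (pow_ne_zero _ hs), one_smul]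
  obtain ⟨ν, hν⟩ := rigid hd hF hG hx he hperL
  have hnz : ∀ w : Fin 2 → AlgebraicClosure K, w ≠ 0 →
      Ph ((algebraMap K (AlgebraicClosure K)).comp fR) F G w ≠ 0 := by
    intro w hw
    refine red_nz _ ?_ hw
    obtain ⟨N, h0, h1⟩ := hres
    have key : ∀ i : Fin 2, (MvPolynomial.X i : MvPolynomial (Fin 2) K) ^ N ∈
        Ideal.span {MvPolynomial.map fR F, MvPolynomial.map fR G} →
        (MvPolynomial.X i : MvPolynomial (Fin 2) (AlgebraicClosure K)) ^ N ∈
          Ideal.span {MvPolynomial.map ((algebraMap K (AlgebraicClosure K)).comp fR) F,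
            MvPolynomial.map ((algebraMap K (AlgebraicClosure K)).comp fR) G} := by
      intro i hi
      obtain ⟨a, b, hab⟩ := Ideal.mem_span_pair.1 hi
      refine Ideal.mem_span_pair.2 ⟨MvPolynomial.map (algebraMap K (AlgebraicClosure K)) a,
        MvPolynomial.map (algebraMap K (AlgebraicClosure K)) b, ?_⟩
      rw [← MvPolynomial.map_map, ← MvPolynomial.map_map, ← map_mul, ← map_mul, ← map_add, hab,
        map_pow, MvPolynomial.map_X]
    exact ⟨N, key 0 h0, key 1 h1⟩
  have hD : c 0 * e 1 - c 1 * e 0 ≠ 0 := by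
    intro h0
    exact he (h0 ▸ v.asIdeal.zero_mem)
  refine ⟨ν, fun n => ?_⟩
  refine es_mono (by omega) hF hG hnz (n := n) (N := (n + 1) * m)
    ((Nat.le_succ n).trans (Nat.le_mul_of_pos_right _ hm)) ?_
  obtain ⟨hlow, hlead⟩ := ex_red hF hG hx he (n + 1)
  have hV : ∀ x : 𝓞 L, x ∈ v.asIdeal → v.valuation L (algebraMap (𝓞 L) L x) < 1 := fun x hx =>
    (HeightOneSpectrum.valuation_lt_one_iff_mem v x).2 hx
  have hV1 : ∀ x : 𝓞 L, x ∉ v.asIdeal → v.valuation L (algebraMap (𝓞 L) L x) = 1 := by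
    intro x hx
    refine le_antisymm (HeightOneSpectrum.valuation_le_one v x) ?_
    by_contra hlt
    exact hx ((HeightOneSpectrum.valuation_lt_one_iff_mem v x).1 (not_le.1 hlt))
  have hdeg : ((Rn σ F G c e ((n + 1) * m)).map (algebraMap (𝓞 L) L)).natDegree =
      d ^ ((n + 1) * m) := by
    refine le_antisymm ((natDegree_map_le).trans (rn_deg σ hF hG c e _).1) ?_
    refine le_natDegree_of_ne_zero ?_
    rw [coeff_map]
    intro h0
    have h1 := hV1 _ hlead
    rw [h0, map_zero] at h1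
    exact zero_ne_one h1
  refine orb_count ι hσ hF hG hD hs hβ (fun h0 => hlead (h0 ▸ v.asIdeal.zero_mem)) ?_
  intro S hS
  refine Pool.Agent.H42.RM.fac_count (v.valuation L) (b := 0) ?_ ?_ (ν := ν) ?_ S hS
  · rw [leadingCoeff, hdeg, coeff_map]
    exact hV1 _ hlead
  · intro i hi
    rw [hdeg] at hi
    rw [C_0, add_zero, comp_X, coeff_map]
    exact hV _ (hlow i hi)
  · have h1 := hν (n + 1) (by omega)
    rw [← h1]
    congr 1
    rw [← map_zero (algebraMap (𝓞 L) L), eval_map_apply]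

end Pool.Agent.H42.ES
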